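import Pool.Agent.MP_b8b299_co.H91.Chk

set_option autoImplicit false

/-!
Bit manipulation lemmas for the checker.
-/

namespace Pool.Agent.MP_b8b299_co.H91

open Finset

theorem tb_eq (m j : ℕ) : tb m j = m.testBit j := by
  unfold tb Nat.testBit
  change Nat.beq (1 &&& (m >>> j)) 1 = _
  rw [Nat.one_and_eq_mod_two]
  rcases Nat.mod_two_eq_zero_or_one (m >>> j) with h | h <;> rw [h] <;> rfl

theorem row_bit (M i j : ℕ) : (row M i).testBit j = (decide (j < 32) && M.testBit (32 * i + j)) := by
  change ((M >>> (32 * i)) % 2 ^ 32).testBit j = _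
  rw [Nat.testBit_mod_two_pow, Nat.testBit_shiftRight]

theorem dif_bit (a b j : ℕ) : (dif a b).testBit j = (a.testBit j && !b.testBit j) := by
  change (a ^^^ (a &&& b)).testBit j = _
  rw [Nat.testBit_xor, Nat.testBit_and]
  cases a.testBit j <;> cases b.testBit j <;> rfl

theorem lor_bit (a b j : ℕ) : (Nat.lor a b).testBit j = (a.testBit j || b.testBit j) :=
  Nat.testBit_or a b j

theorem land_bit (a b j : ℕ) : (Nat.land a b).testBit j = (a.testBit j && b.testBit j) :=
  Nat.testBit_and a b j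

theorem xor_bit (a b j : ℕ) : (Nat.xor a b).testBit j = (a.testBit j ^^ b.testBit j) :=
  Nat.testBit_xor a b j

theorem pow_bit (y j : ℕ) : (Nat.pow 2 y).testBit j = decide (y = j) := Nat.testBit_two_pow

theorem shr_bit (a b j : ℕ) : (Nat.shiftRight a b).testBit j = a.testBit (b + j) :=
  Nat.testBit_shiftRight a

theorem shl_bit (a b j : ℕ) :
    (Nat.shiftLeft a b).testBit j = (decide (j ≥ b) && a.testBit (j - b)) :=
  Nat.testBit_shiftLeft a

/-- The set of ones among the first thirty two bits. -/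
def bits (m : ℕ) : Finset ℕ := (range 32).filter fun j => m.testBit j

theorem mem_bits {m j : ℕ} : j ∈ bits m ↔ j < 32 ∧ m.testBit j = true := by simp [bits]

def pcF : ℕ → ℕ → ℕ
  | 0, _ => 0
  | f + 1, m => m % 2 + pcF f (m / 2)

theorem pcF_card (f m : ℕ) : pcF f m = #((range f).filter fun j => m.testBit j) := by
  induction f generalizing m with
  | zero => rfl
  | succ f ih =>
    rw [pcF, ih, card_filter, card_filter, sum_range_succ', add_comm]
    congr 1
    · simp [Nat.testBit_succ]
    · rcases Nat.mod_two_eq_zero_or_one m with h | h <;> simp [Nat.testBit_zero, h]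

theorem pcF_add (f g m : ℕ) : pcF (f + g) m = pcF f m + pcF g (m / 2 ^ f) := by
  induction f generalizing m with
  | zero => simp [pcF]
  | succ f ih =>
    rw [Nat.succ_add, pcF, pcF, ih, Nat.div_div_eq_div_mul, pow_succ', add_assoc]

theorem pcF_mod (f m : ℕ) : pcF f (m % 2 ^ f) = pcF f m := by
  rw [pcF_card, pcF_card]
  congr 1
  refine filter_congr fun j hj => ?_
  rw [Nat.testBit_mod_two_pow]
  simp [mem_range.1 hj]

theorem pt_eq : ∀ r < 2048, pt r = pcF 11 r := by decide +kernel

theorem pt_eq' : ∀ r < 1024, pt r = pcF 10 r := by decide +kernel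

theorem pc_eq (m : ℕ) : pc m = #(bits m) := by
  have h1 := pt_eq (m % 2048) (Nat.mod_lt _ (by norm_num))
  have h2 := pt_eq (m / 2048 % 2048) (Nat.mod_lt _ (by norm_num))
  have h3 := pt_eq' (m / 4194304 % 1024) (Nat.mod_lt _ (by norm_num))
  change pt (m % 2048) + pt (m / 2048 % 2048) + pt (m / 4194304 % 1024) = _
  rw [h1, h2, h3, bits, ← pcF_card, show 32 = 11 + (11 + 10) by rfl, pcF_add, pcF_add,
    Nat.div_div_eq_div_mul, add_assoc]
  exact congrArg₂ _ (pcF_mod 11 m) (congrArg₂ _ (pcF_mod 11 _) (pcF_mod 10 _))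

theorem CM_bit (i : ℕ) (hi : i < 32) : CM.testBit (32 * i) = true := by
  revert i
  decide +kernel

/-- The base of the exponential bound. -/
noncomputable def al : ℝ := (6 : ℝ) ^ (-(1 / 9 : ℝ))

theorem al_pos : 0 < al := Real.rpow_pos_of_pos (by norm_num) _

theorem al_nine : al ^ 9 = 1 / 6 := by
  rw [al, ← Real.rpow_natCast, ← Real.rpow_mul (by norm_num)]
  norm_num

theorem al_le_one : al ≤ 1 := by
  refine (pow_le_one_iff_of_nonneg al_pos.le (n := 9) (by norm_num)).1 ?_
  rw [al_nine]
  norm_num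

theorem le_al : 0.8 ≤ al := by
  refine le_of_pow_le_pow_left₀ (n := 9) (by norm_num) al_pos.le ?_
  rw [al_nine]
  norm_num

theorem al_le : al ≤ 0.83 := by
  refine le_of_pow_le_pow_left₀ (n := 9) (by norm_num) (by norm_num) ?_
  rw [al_nine]
  norm_num

theorem vl_nat : ∀ t < 64, SC ^ 9 ≤ vl t ^ 9 * 6 ^ t := by decide +kernel

theorem BIG_eq : (BIG : ℝ) = 64 * SC := by norm_num [BIG, SC]

theorem SC_pos : (0 : ℝ) < SC := by norm_num [SC]

theorem vl_ge (t : ℕ) : SC * al ^ t ≤ vl t := by
  rcases lt_or_ge t 64 with h | h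
  · refine le_of_pow_le_pow_left₀ (n := 9) (by norm_num) (Nat.cast_nonneg _) ?_
    have h1 : (SC : ℝ) ^ 9 ≤ (vl t : ℝ) ^ 9 * 6 ^ t := by exact_mod_cast vl_nat t h
    rw [mul_pow, ← pow_mul, mul_comm t, pow_mul, al_nine, one_div, inv_pow,
      mul_inv_le_iff₀ (by positivity)]
    exact h1
  · have : vl t = BIG := by
      unfold vl
      rw [show Nat.ble t 63 = false from Bool.eq_false_iff.2 fun g => by
        have := Nat.le_of_ble_eq_true g; omega]
      rfl
    rw [this, BIG_eq]
    have := pow_le_one₀ al_pos.le al_le_one (n := t)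
    nlinarith [SC_pos]

end Pool.Agent.MP_b8b299_co.H91
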