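import Pool.Agent.MP_b8b299_co.H91.Chk

set_option autoImplicit false
set_option maxRecDepth 100000

namespace Pool.Agent.MP_b8b299_co.H91

open Tr Qr

theorem c0 : qc 0 1 8 130459631616 ((N 0 (P (F 0 0 (L 0))) Hi)) 1 0 0 1 1 = true := by
  decide +kernel

theorem c1 : qc 1 2 8 130459631616 ((N 0 (Bad 0) (N 0 (P (F 0 0 (L 0))) Hi))) 1 0 0 1 1 = true := by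
  decide +kernel

theorem c2 : qc 2 3 5 260919263232 ((N 0 (Bad 0) (N 0 (Bad 0) (N 0 (Q 1 2 0 (P (B 0 (L 0) (F 0 1 (D 0))))
(N 1 (Bad 1)
(N 1 (P (B 0 (F 1 3 (L 0)) (F 0 1 (F 0 2 (L 0)))))
(N 1 (P (B 0 (LE 0 1) (F 0 1 (F 0 2 (L 0)))))
(P (B 0 (L 0) (F 0 1 (F 0 2 (L 0))))))))) Hi)))) 1 0 0 1 1 = true := by
  decide +kernel

theorem c3 : qc 3 4 5 260919263232 ((N 0 (Bad 0) (N 0 (Bad 0) (N 0 (Bad 0) (N 0 (Q 1 2 8 (P (B 0 (L 0) (B 3 (LE 3 0) (F 0 1 (D 0)))))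
(N 1 (Bad 1)
(N 1 (Bad 1)
(N 1 (Q 2 3 0 (P (B 0 (LE 0 1) (B 1 (LE 0 0) (F 0 2 (D 0)))))
(Q 2 4 32 (P (B 0 (LE 0 1) (B 1 (LE 0 0) (F 0 2 (D 1)))))
(N 2 (Bad 2)
(N 2 (Bad 2)
(Q 3 4 32 (P (B 0 (LE 0 1) (B 1 (LE 0 0) (F 0 2 (F 0 3 (D 1))))))
(N 2 (Q 3 6 128 (P (B 0 (LE 0 1) (B 2 (LD 0 1) (F 0 1 (F 0 3 (D 2))))))
(N 3 (Bad 3)
(N 3 (Bad 3)
(N 3 (Q 4 5 0 (P (B 0 (LE 0 1) (B 1 (LD 0 2) (F 0 2 (F 0 3 (F 1 4 (D 1)))))))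
(Q 4 6 128 (P (B 0 (B 4 (F 2 7 (LE 4 3)) (F 1 5 (LE 5 2))) (B 1 (B 2 (LD 0 3) (F 0 3 (F 2 6 (F 2 7 (L 0))))) (F 0 2 (F 0 3 (F 1 4 (F 1 5 (L 0))))))))
(Q 4 8 512 (P (B 0 (B 4 (F 3 9 (LE 4 2)) (F 1 5 (LE 5 2))) (B 1 (B 2 (LD 0 3) (F 0 3 (F 2 6 (F 2 7 (L 0))))) (F 0 2 (F 0 3 (F 1 4 (F 1 5 (L 0))))))))
(P (B 0 (LE 0 1) (B 1 (B 2 (LD 0 3) (F 0 3 (F 2 6 (F 2 7 (L 0))))) (F 0 2 (F 0 3 (F 1 4 (F 1 5 (L 4)))))))))))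
(P (B 0 (LE 0 1) (B 1 (B 2 (L 0) (F 0 3 (F 2 6 (F 2 7 (L 0))))) (F 0 2 (F 0 3 (F 1 4 (F 1 5 (L 0))))))))))))
(N 2 (Q 3 6 384 (P (B 0 (LE 0 1) (B 2 (LD 0 1) (F 0 1 (F 0 3 (F 2 7 (F 2 8 (L 3))))))))
(N 3 (Bad 3)
(N 3 (Bad 3)
(N 3 (P (B 0 (LE 0 1) (B 1 (B 3 (LD 0 2) (F 0 2 (F 3 9 (F 3 10 (L 0))))) (F 0 2 (F 0 3 (F 1 4 (F 1 5 (L 0))))))))
(P (B 0 (LE 0 1) (B 1 (B 3 (LD 0 2) (F 0 2 (L 0))) (F 0 2 (F 0 3 (F 1 4 (F 1 5 (L 0))))))))))))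
(P (B 0 (LE 0 1) (B 2 (LD 0 1) (F 0 1 (F 0 3 (L 3)))))))))))))
(N 1 (Q 2 3 0 (P (B 0 (L 0) (B 1 (LE 0 0) (F 0 2 (D 0)))))
(Q 2 4 96 (Q 2 5 64 (P (B 0 (L 0) (B 1 (LE 0 0) (F 0 2 (D 1)))))
(N 2 (Bad 2)
(N 2 (P (B 0 (LE 0 2) (B 2 (LD 0 1) (F 0 1 (D 2)))))
(Q 3 5 64 (P (B 0 (L 0) (B 1 (LE 0 0) (F 0 2 (F 0 3 (D 1))))))
(N 2 (Q 3 7 256 (P (B 0 (L 0) (B 2 (LD 0 1) (F 0 1 (F 0 3 (D 2))))))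
(Q 3 4 0 (N 3 (Bad 3)
(N 3 (P (B 0 (LE 0 3) (B 1 (F 3 3 (LD 0 2)) (F 0 2 (F 0 3 (F 1 5 (F 1 6 (L 0))))))))
(P (B 0 (L 0) (B 1 (LD 0 2) (F 0 2 (F 0 3 (F 1 5 (F 1 6 (L 0))))))))))
(P (B 0 (L 0) (B 1 (LD 0 2) (F 0 2 (F 0 3 (F 1 5 (F 1 6 (L 3))))))))))
(N 2 (Q 3 7 768 (P (B 0 (L 0) (B 2 (LD 0 1) (F 0 1 (F 0 3 (F 2 8 (F 2 9 (L 0))))))))
(P (B 0 (L 0) (B 1 (LD 0 2) (F 0 2 (F 0 3 (F 1 5 (F 1 6 (L 3)))))))))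
(P (B 0 (L 0) (B 2 (LD 0 1) (F 0 1 (F 0 3 (L 3))))))))))))
(N 2 (Bad 2)
(N 2 (Bad 2)
(N 2 (Q 3 7 256 (P (B 0 (LE 0 2) (B 2 (LD 0 1) (F 0 1 (F 0 3 (D 2))))))
(Q 3 4 96 (P (B 0 (LE 0 2) (B 1 (LD 0 2) (F 0 2 (F 0 3 (F 1 5 (F 1 6 (L 3))))))))
(N 3 (Bad 3)
(N 3 (Bad 3)
(N 3 (P (B 0 (LE 0 2) (B 2 (B 3 (LD 0 1) (F 0 1 (F 3 9 (F 3 10 (L 0))))) (F 0 1 (F 0 3 (F 2 7 (F 2 8 (L 0))))))))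
(P (B 0 (LE 0 2) (B 2 (B 3 (LD 0 1) (F 0 1 (L 0))) (F 0 1 (F 0 3 (F 2 7 (F 2 8 (L 0)))))))))))))
(Q 3 4 96 (Q 3 5 64 (P (B 0 (L 0) (B 1 (LE 0 0) (F 0 2 (F 0 3 (D 1))))))
(N 2 (Q 3 7 768 (P (B 0 (L 0) (B 1 (B 2 (L 0) (F 0 3 (F 2 8 (F 2 9 (L 0))))) (F 0 2 (F 0 3 (F 1 5 (F 1 6 (L 0))))))))
(P (B 0 (L 0) (B 1 (LD 0 2) (F 0 2 (F 0 3 (F 1 5 (F 1 6 (L 3)))))))))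
(P (B 0 (L 0) (B 1 (LE 0 0) (F 0 2 (F 0 3 (F 1 5 (F 1 6 (L 0))))))))))
(N 2 (Q 3 7 768 (P (B 0 (L 0) (B 2 (LD 0 1) (F 0 1 (F 0 3 (F 2 8 (F 2 9 (L 3))))))))
(N 3 (Bad 3)
(N 3 (Bad 3)
(N 3 (P (B 0 (LE 0 3) (B 1 (LD 0 2) (F 0 2 (F 0 3 (LE 0 1))))))
(P (B 0 (L 0) (B 1 (B 3 (LD 0 2) (F 0 2 (L 0))) (F 0 2 (F 0 3 (LE 0 1))))))))))
(P (B 0 (L 0) (B 2 (LD 0 1) (F 0 1 (F 0 3 (L 3)))))))))))))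
(N 1 (Q 2 3 0 (P (B 0 (L 0) (B 1 (LE 0 0) (F 0 2 (D 0)))))
(Q 2 4 224 (Q 2 5 192 (Q 2 6 128 (P (B 0 (L 0) (B 1 (LE 0 0) (F 0 2 (D 1)))))
(N 2 (P (B 0 (LE 0 2) (B 2 (LD 0 1) (F 0 1 (D 2)))))
(P (B 0 (L 0) (B 1 (LE 0 0) (F 0 2 (F 0 3 (F 1 6 (F 1 7 (L 0))))))))))
(N 2 (Bad 2)
(N 2 (P (B 0 (LE 0 2) (B 2 (LD 0 1) (F 0 1 (D 2)))))
(N 2 (Q 3 5 192 (P (B 0 (L 0) (B 1 (LD 0 2) (F 0 2 (F 0 3 (F 1 6 (F 1 7 (L 0))))))))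
(P (B 0 (L 0) (B 2 (LD 0 1) (F 0 1 (F 0 3 (F 2 8 (F 2 9 (L 3)))))))))
(Q 3 5 192 (P (B 0 (L 0) (B 1 (LE 0 0) (F 0 2 (F 0 3 (F 1 6 (F 1 7 (L 0))))))))
(P (B 0 (L 0) (B 2 (LD 0 1) (F 0 1 (F 0 3 (L 3)))))))))))
(N 2 (Bad 2)
(N 2 (Bad 2)
(N 2 (Q 3 8 512 (P (B 0 (LE 0 2) (B 2 (LE 0 0) (F 0 1 (F 0 3 (D 2))))))
(P (B 0 (LE 0 2) (B 1 (LD 0 2) (F 0 2 (F 0 3 (LE 3 1)))))))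
(Q 3 4 224 (N 2 (Q 3 8 1536 (P (B 0 (L 0) (B 2 (LE 0 0) (F 0 1 (F 0 3 (F 2 9 (F 2 10 (L 0))))))))
(P (B 0 (L 0) (B 1 (LD 0 2) (F 0 2 (F 0 3 (LE 3 1)))))))
(P (B 0 (L 0) (B 1 (LE 0 0) (F 0 2 (F 0 3 (LE 0 1)))))))
(N 2 (Q 3 8 1536 (P (B 0 (L 0) (B 2 (LE 0 0) (F 0 1 (F 0 3 (F 2 9 (F 2 10 (L 3))))))))
(P (B 0 (L 0) (B 1 (LD 0 2) (F 0 2 (F 0 3 (LE 3 1)))))))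
(P (B 0 (L 0) (B 2 (LE 0 0) (F 0 1 (F 0 3 (L 3)))))))))))))
(N 1 (Q 2 3 0 (P (B 0 (L 0) (B 1 (LE 0 0) (F 0 2 (D 0)))))
(Q 2 4 480 (Q 3 4 0 (Q 2 5 448 (Q 2 6 384 (P (B 0 (L 0) (B 1 (LE 0 0) (F 0 2 (F 0 3 (F 1 7 (F 1 8 (L 0))))))))
(N 2 (P (B 0 (LE 0 2) (B 2 (LD 0 1) (F 0 1 (D 2)))))
(P (B 0 (L 0) (B 1 (LE 0 0) (F 0 2 (F 0 3 (LE 0 1))))))))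
(N 2 (Bad 2)
(N 2 (P (B 0 (LE 0 2) (B 2 (LE 0 0) (F 0 1 (D 2)))))
(P (B 0 (L 0) (B 1 (LE 0 0) (F 0 2 (F 0 3 (LE 0 1)))))))))
(P (B 0 (L 0) (B 1 (LE 0 0) (F 0 2 (F 0 3 (LE 3 1)))))))
(N 2 (Bad 2)
(N 2 (Bad 2)
(N 2 (Q 3 9 1024 (P (B 0 (LE 0 2) (B 2 (LE 0 0) (F 0 1 (F 0 3 (D 2))))))
(P (B 0 (LE 0 2) (B 1 (LD 0 2) (F 0 2 (F 0 3 (LE 3 1)))))))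
(Q 3 4 480 (P (B 0 (L 0) (B 1 (LE 0 0) (F 0 2 (F 0 3 (LE 0 1))))))
(P (B 0 (L 0) (B 2 (LE 0 0) (F 0 1 (F 0 3 (L 3))))))))))))
(Q 2 3 0 (P (B 0 (L 0) (B 1 (LE 0 0) (F 0 2 (D 0)))))
(N 1 (Q 2 4 992 (Q 3 4 0 (Q 2 5 960 (Q 2 6 896 (P (B 0 (L 0) (B 1 (LE 0 0) (F 0 2 (F 0 3 (LE 0 1))))))
(N 2 (P (B 0 (LE 0 2) (B 2 (LE 0 0) (F 0 1 (D 2)))))
(P (B 0 (L 0) (B 1 (LE 0 0) (F 0 2 (F 0 3 (LE 0 1))))))))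
(N 2 (Bad 2)
(N 2 (P (B 0 (LE 0 2) (B 2 (LE 0 0) (F 0 1 (D 2)))))
(P (B 0 (L 0) (B 1 (LE 0 0) (F 0 2 (F 0 3 (LE 0 1)))))))))
(P (B 0 (L 0) (B 1 (LE 0 0) (F 0 2 (F 0 3 (LE 3 1)))))))
(N 2 (Bad 2)
(N 2 (Bad 2)
(N 2 (P (B 0 (LE 0 2) (B 1 (LD 0 2) (F 0 2 (F 0 3 (L 0))))))
(P (B 0 (L 0) (B 1 (LE 0 0) (F 0 2 (F 0 3 (L 0))))))))))
(P (B 1 (LE 0 0) (LD 0 0)))))))))))) Hi))))) 1 0 0 1 1 = true := by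
  decide +kernel

theorem c4 : qc 4 5 0 782757789696 ((N 0 (Bad 0) (N 0 (Bad 0) (N 0 (Bad 0) (N 0 (Bad 0) (N 0 (Q 1 2 24 (Q 3 4 0 (Q 1 3 16 (Q 2 4 0 (P (B 0 (L 0) (B 1 (F 0 4 (L 1)) (B 2 (F 0 3 (L 2)) (F 0 3 (D 0))))))
(P (B 0 (L 0) (B 1 (F 0 4 (L 4)) (B 2 (LE 2 0) (F 0 3 (D 0)))))))
(N 1 (Bad 1)
(N 1 (Bad 1)
(N 1 (P (B 0 (LE 0 1) (B 1 (LE 0 0) (B 2 (LE 2 0) (F 0 3 (D 0))))))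
(P (B 0 (L 0) (B 1 (LE 0 0) (B 2 (LE 2 0) (F 0 3 (D 0))))))))))
(Q 1 3 16 (P (B 0 (L 0) (B 3 (LE 3 0) (B 4 (LE 4 0) (F 0 1 (D 0))))))
(N 1 (Bad 1)
(N 1 (Bad 1)
(N 1 (P (B 0 (LE 0 1) (B 3 (LD 3 1) (B 4 (LD 4 1) (F 0 1 (D 0))))))
(N 1 (Q 2 3 16 (P (B 0 (L 0) (B 1 (LE 0 0) (B 4 (LE 4 0) (F 0 2 (D 0))))))
(Q 2 5 192 (Q 2 6 128 (P (B 0 (L 0) (S 0 (L 4) (L 3) (F 1 7 (LE 7 0)) (LE 0 0) X X X)))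
(N 2 (Bad 2)
(N 2 (P (B 0 (LE 0 2) (B 2 (LE 0 0) (B 8 (LD 8 1) (F 2 1 (D 2))))))
(N 2 (Q 3 5 0 (P (B 0 (L 0) (B 3 (LD 3 1) (B 4 (LE 4 0) (F 0 1 (D 0))))))
(Q 4 5 0 (P (B 0 (L 0) (B 4 (LD 4 1) (B 3 (LE 3 0) (F 0 1 (D 0))))))
(Q 3 6 128 (P (B 0 (L 0) (B 3 (LD 3 1) (B 4 (LE 4 0) (F 0 1 (D 0))))))
(Q 4 6 128 (P (B 0 (L 0) (B 4 (LD 4 1) (B 1 (F 0 3 (LE 3 2)) (F 0 2 (F 0 3 (LE 3 1)))))))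
(P (B 0 (L 0) (S 0 (L 4) (L 3) (LE 0 0) (B 3 (LE 3 2) (F 0 4 (LE 4 2))) X X X)))))))
(P (B 0 (L 0) (S 0 (L 4) (L 3) (LE 0 0) (LE 0 0) X X X)))))))
(N 2 (Bad 2)
(N 2 (Bad 2)
(N 2 (P (B 0 (LE 0 2) (B 3 (LD 3 2) (B 4 (LD 4 2) (F 0 1 (D 0))))))
(N 2 (Q 3 5 192 (P (B 0 (L 0) (B 3 (LD 3 1) (B 4 (LE 4 0) (F 0 1 (D 0))))))
(Q 4 5 192 (P (B 0 (L 0) (B 4 (LD 4 1) (B 3 (LE 3 0) (F 0 1 (D 0))))))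
(P (B 0 (L 0) (S 0 (L 4) (L 3) (LE 0 0) (B 3 (L 3) (F 0 4 (L 4))) X X X)))))
(P (B 0 (L 0) (S 0 (L 4) (L 3) (LE 0 0) (LE 0 0) X X X)))))))))
(P (B 1 (LE 0 0) (LD 0 0)))))))))
(N 1 (Bad 1)
(N 1 (Bad 1)
(N 1 (Bad 1)
(N 1 (Q 2 3 16 (P (B 0 (L 0) (B 4 (LD 4 1) (B 1 (LE 0 0) (F 0 2 (D 0))))))
(Q 3 4 0 (P (B 0 (L 0) (B 2 (LD 2 1) (B 1 (LE 0 0) (F 0 3 (D 0))))))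
(Q 2 5 192 (Q 2 6 128 (P (B 0 (L 0) (B 3 (LD 3 1) (B 1 (LE 0 0) (F 0 2 (D 1))))))
(N 2 (Bad 2)
(N 2 (Bad 2)
(N 2 (Q 3 5 0 (P (B 0 (L 0) (B 1 (LD 0 2) (B 5 (D 0) (F 1 6 (F 1 7 (LD 6 2)))))))
(Q 3 6 128 (P (B 0 (L 0) (B 1 (LD 0 2) (B 2 (F 1 6 (F 0 4 (F 1 7 (L 0)))) (F 0 3 (F 0 4 (F 1 5 (F 1 7 (LE 3 2)))))))))
(Q 3 8 512 (P (B 0 (L 0) (B 2 (LD 0 1) (B 1 (F 2 8 (F 0 4 (F 2 9 (L 0)))) (F 0 3 (F 0 4 (F 2 5 (F 2 9 (LE 3 1)))))))))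
(N 3 (Bad 3)
(N 3 (Bad 3)
(N 3 (Bad 3)
(Q 4 5 0 (P (B 0 (L 0) (B 1 (LD 0 2) (B 5 (D 0) (F 1 6 (F 1 7 (LD 6 2)))))))
(Q 4 6 128 (P (B 0 (L 0) (B 1 (LD 0 2) (B 2 (F 1 6 (F 0 3 (F 1 7 (L 0)))) (F 0 3 (F 0 4 (F 1 5 (F 1 7 (LE 0 2)))))))))
(Q 4 8 512 (P (B 0 (L 0) (B 2 (LD 0 1) (B 1 (F 2 8 (F 0 3 (F 2 9 (L 0)))) (F 0 3 (F 0 4 (F 2 5 (F 2 9 (LE 0 1)))))))))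
(N 3 (P (B 0 (L 0) (B 3 (LD 0 1) (B 1 (B 2 (LE 0 3) (F 0 4 (F 2 8 (F 2 9 (LE 4 3))))) (F 0 2 (F 0 4 (F 1 6 (F 1 7 (LE 4 3)))))))))
(P (B 0 (L 0) (B 3 (LD 0 1) (B 1 (LD 0 2) (F 0 2 (F 0 4 (F 1 6 (F 1 7 (L 4)))))))))))))))))))
(N 2 (Q 3 5 0 (P (B 0 (L 0) (B 1 (LD 0 2) (B 5 (D 0) (F 1 6 (F 1 7 (LD 6 2)))))))
(Q 3 6 128 (P (B 0 (L 0) (B 1 (LD 0 2) (B 2 (F 1 6 (F 0 4 (F 1 7 (L 0)))) (F 0 3 (F 0 4 (F 1 5 (F 1 7 (L 3)))))))))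
(Q 4 6 128 (P (B 0 (L 0) (B 1 (LD 0 2) (B 2 (F 1 6 (F 0 3 (F 1 7 (L 0)))) (F 0 3 (F 0 4 (F 1 5 (F 1 7 (L 3)))))))))
(Q 4 5 0 (P (B 0 (L 0) (B 1 (LD 0 2) (B 5 (D 0) (F 1 6 (F 1 7 (LD 6 2)))))))
(Q 3 8 1536 (P (B 0 (L 0) (B 2 (LD 0 1) (B 4 (LD 4 1) (F 0 1 (F 0 3 (F 2 9 (F 2 10 (L 3)))))))))
(N 3 (Bad 3)
(N 3 (Bad 3)
(N 3 (Bad 3)
(N 3 (Q 4 11 12288 (P (B 0 (L 0) (B 3 (LD 0 1) (B 4 (F 3 12 (F 3 13 (LD 4 1))) (F 0 1 (F 0 2 (LE 0 3)))))))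
(P (B 0 (L 0) (B 1 (LD 0 2) (B 2 (F 1 6 (F 1 7 (LD 0 3))) (F 0 3 (F 0 4 (LE 4 1))))))))
(P (B 0 (L 0) (B 2 (LD 0 1) (B 3 (LD 0 1) (F 0 1 (F 0 4 (LE 4 2))))))))))))))))
(P (B 0 (L 0) (S 0 (LD 4 1) (LD 3 1) (LD 0 1) (L 0) X X X))))))))
(N 2 (Bad 2)
(N 2 (Bad 2)
(N 2 (Bad 2)
(N 2 (Q 3 5 192 (Q 3 6 128 (P (B 0 (L 0) (B 1 (LD 0 2) (B 3 (D 1) (F 0 2 (F 0 4 (LE 0 1)))))))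
(Q 4 5 0 (P (B 0 (L 0) (B 1 (LD 0 2) (B 5 (D 0) (F 1 6 (F 1 7 (LD 6 2)))))))
(Q 4 6 128 (P (B 0 (L 0) (B 1 (LD 0 2) (B 3 (F 1 6 (F 0 2 (F 1 7 (L 0)))) (F 0 2 (F 0 4 (F 1 5 (F 1 7 (L 0)))))))))
(Q 4 8 1536 (P (B 0 (L 0) (B 2 (LD 0 1) (B 4 (F 2 9 (F 2 10 (B 1 (L 4) (F 0 3 (F 1 6 (F 1 7 (L 4))))))) (F 0 1 (F 0 3 (LE 3 2)))))))
(P (B 0 (L 0) (B 1 (LD 0 2) (B 3 (F 1 6 (F 1 7 (LD 3 2))) (F 0 2 (F 0 4 (LE 4 1)))))))))))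
(Q 4 8 1536 (P (B 0 (L 0) (B 2 (LD 0 1) (B 4 (F 2 9 (F 2 10 (LD 4 1))) (F 0 1 (F 0 3 (LE 3 2)))))))
(Q 3 8 1536 (Q 3 9 1024 (P (B 0 (L 0) (B 2 (LD 0 1) (B 3 (D 2) (F 0 1 (F 0 4 (LE 0 2)))))))
(Q 4 5 192 (P (B 0 (L 0) (B 1 (LD 0 2) (B 4 (F 1 6 (F 1 7 (B 2 (L 4) (F 0 3 (F 2 9 (F 2 10 (L 3))))))) (F 0 2 (F 0 3 (LE 3 1)))))))
(P (B 0 (L 0) (B 2 (LD 0 1) (B 3 (F 2 9 (F 2 10 (LD 3 1))) (F 0 1 (F 0 4 (LE 4 2)))))))))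
(N 3 (Bad 3)
(N 3 (Bad 3)
(N 3 (Bad 3)
(Q 4 5 192 (P (B 0 (L 0) (B 1 (LD 0 2) (B 4 (F 1 6 (F 1 7 (LD 4 2))) (F 0 2 (F 0 3 (LE 0 1)))))))
(N 3 (Q 4 11 12288 (P (B 0 (L 0) (B 3 (LD 0 1) (B 4 (F 3 12 (F 3 13 (LD 4 1))) (F 0 1 (F 0 2 (LE 0 3)))))))
(N 4 (Bad 4)
(N 4 (Bad 4)
(N 4 (Bad 4)
(N 4 (Q 5 6 128 (P (B 0 (L 0) (B 1 (LD 0 2) (B 7 (LD 7 2) (F 1 5 (D 1))))))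
(Q 6 7 0 (P (B 0 (L 0) (B 1 (LD 0 2) (B 5 (LD 5 2) (F 1 6 (D 1))))))
(Q 8 9 1024 (P (B 0 (L 0) (B 2 (LD 0 1) (B 10 (LD 10 1) (F 2 8 (D 2))))))
(Q 9 10 0 (P (B 0 (L 0) (B 2 (LD 0 1) (B 8 (LD 8 1) (F 2 9 (D 2))))))
(Q 11 12 8192 (P (B 0 (L 0) (B 3 (LD 0 1) (B 13 (LD 13 1) (F 3 11 (D 3))))))
(Q 12 13 0 (P (B 0 (L 0) (B 3 (LD 0 1) (B 11 (LD 11 1) (F 3 12 (D 3))))))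
(Q 14 15 65536 (P (B 4 (LD 0 1) (B 1 (B 16 (B 2 (LD 0 3) (F 0 3 (LE 0 2))) (F 4 14 (D 4))) (B 0 (L 0) (F 0 2 (F 0 3 (LE 0 1)))))))
(Q 15 16 0 (P (B 4 (LD 0 1) (B 1 (B 14 (B 2 (LD 0 3) (F 0 3 (LE 0 2))) (F 4 15 (D 4))) (B 0 (L 0) (F 0 2 (F 0 3 (LE 0 1)))))))
(Q 5 8 1536 (Q 5 9 1024 (P (B 0 (L 0) (B 1 (LD 0 2) (B 2 (B 3 (LD 0 4) (F 0 4 (LE 0 1))) (F 0 3 (F 0 4 (B 5 (D 2) (F 1 6 (F 1 7 (LE 0 2))))))))))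
(Q 6 8 0 (P (B 0 (L 0) (B 1 (LD 0 2) (B 2 (B 3 (LD 0 4) (F 0 4 (LE 0 1))) (F 0 3 (F 0 4 (B 8 (D 1) (F 2 9 (F 2 10 (LE 0 1))))))))))
(Q 7 8 0 (P (B 0 (L 0) (B 1 (LD 0 2) (B 2 (B 3 (LD 0 4) (F 0 4 (LE 0 1))) (F 0 3 (F 0 4 (B 8 (D 1) (F 2 9 (F 2 10 (LE 0 1))))))))))
(Q 6 9 1024 (P (B 0 (L 0) (B 1 (LD 0 2) (B 2 (B 3 (LD 0 4) (F 0 4 (LE 0 1))) (F 0 3 (F 0 4 (B 5 (F 2 9 (F 1 7 (F 2 10 (L 0)))) (F 1 6 (F 1 7 (F 2 8 (F 2 10 (L 0))))))))))))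
(Q 7 9 1024 (P (B 0 (L 0) (B 1 (LD 0 2) (B 2 (B 3 (LD 0 4) (F 0 4 (LE 0 1))) (F 0 3 (F 0 4 (B 5 (F 2 9 (F 1 6 (F 2 10 (L 0)))) (F 1 6 (F 1 7 (F 2 8 (F 2 10 (L 0))))))))))))
(Q 5 11 12288 (Q 6 11 0 (P (B 0 (L 0) (B 1 (LD 0 2) (B 2 (B 3 (LD 0 4) (F 0 4 (B 11 (D 1) (F 3 12 (F 3 13 (LE 0 1)))))) (F 0 3 (F 0 4 (LE 0 1)))))))
(P (B 0 (L 0) (B 1 (LD 0 2) (B 2 (B 7 (LD 7 3) (F 1 5 (F 1 6 (LD 6 3)))) (F 0 3 (F 0 4 (LE 0 1))))))))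
(Q 5 14 98304 (Q 6 14 0 (P (B 0 (L 0) (B 1 (LD 0 2) (B 3 (B 4 (LD 0 2) (F 0 2 (B 14 (D 1) (F 4 15 (F 4 16 (LE 0 1)))))) (F 0 2 (F 0 4 (LE 0 1)))))))
(P (B 0 (L 0) (B 1 (LD 0 2) (B 2 (B 7 (LD 7 3) (F 1 5 (F 1 6 (LD 6 3)))) (F 0 3 (F 0 4 (LE 0 1))))))))
(P (B 0 (L 0) (B 1 (LD 0 2) (B 2 (B 6 (LD 6 3) (F 1 5 (F 1 7 (LD 7 3)))) (F 0 3 (F 0 4 (B 5 (F 2 9 (F 2 10 (LE 5 1))) (F 1 6 (F 1 7 (LE 0 2)))))))))))))))))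
(Q 6 8 1536 (Q 7 8 0 (P (B 0 (L 0) (B 1 (LD 0 2) (B 2 (B 3 (LD 0 4) (F 0 4 (LE 0 1))) (F 0 3 (F 0 4 (B 8 (D 1) (F 2 9 (F 2 10 (LE 0 1))))))))))
(Q 7 9 1024 (P (B 0 (L 0) (B 1 (LD 0 2) (B 2 (B 3 (LD 0 4) (F 0 4 (LE 0 1))) (F 0 3 (F 0 4 (B 6 (F 2 9 (F 1 5 (F 2 10 (L 0)))) (F 1 5 (F 1 7 (F 2 8 (F 2 10 (L 0))))))))))))
(Q 6 9 1024 (P (B 0 (L 0) (B 1 (LD 0 2) (B 5 (B 2 (LD 5 3) (F 0 3 (F 0 4 (LE 0 1)))) (F 1 6 (F 1 7 (F 2 2 (LD 7 3))))))))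
(Q 5 11 12288 (Q 5 12 8192 (P (B 0 (L 0) (B 1 (LD 0 2) (B 3 (B 2 (LD 0 4) (F 0 4 (LE 0 1))) (F 0 2 (F 0 4 (B 5 (D 3) (F 1 6 (F 1 7 (LE 0 3))))))))))
(P (B 0 (L 0) (B 1 (LD 0 2) (B 2 (B 5 (B 3 (LD 5 4) (F 0 4 (F 3 12 (F 3 13 (LE 0 1))))) (F 1 6 (F 1 7 (LD 7 3)))) (F 0 3 (F 0 4 (LE 0 1))))))))
(Q 5 14 98304 (Q 5 15 65536 (P (B 0 (L 0) (B 1 (LD 0 2) (B 3 (B 4 (LD 0 2) (F 0 2 (B 5 (D 4) (F 1 6 (F 1 7 (LE 0 4)))))) (F 0 2 (F 0 4 (LE 0 1)))))))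
(P (B 0 (L 0) (B 1 (LD 0 2) (B 2 (B 5 (B 4 (LD 5 3) (F 0 3 (F 4 15 (F 4 16 (LE 5 1))))) (F 1 6 (F 1 7 (LD 7 3)))) (F 0 3 (F 0 4 (LE 0 1))))))))
(P (B 0 (L 0) (B 1 (LD 0 2) (B 2 (B 5 (LD 5 3) (F 1 6 (F 1 7 (LD 7 3)))) (F 0 3 (F 0 4 (B 6 (F 2 9 (F 2 10 (LE 0 1))) (F 1 5 (F 1 7 (LE 5 2)))))))))))))))
(Q 5 11 12288 (Q 5 12 8192 (P (B 0 (L 0) (B 1 (LD 0 2) (B 2 (B 3 (LD 0 4) (F 0 4 (B 5 (D 3) (F 1 6 (F 1 7 (LE 0 3)))))) (F 0 3 (F 0 4 (LE 0 1)))))))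
(P (B 0 (L 0) (B 1 (LD 0 2) (B 2 (B 5 (B 3 (LD 5 4) (F 0 4 (F 3 12 (F 3 13 (LE 0 1))))) (F 1 6 (F 1 7 (LD 6 3)))) (F 0 3 (F 0 4 (LE 0 1))))))))
(Q 5 14 98304 (Q 5 15 65536 (P (B 0 (L 0) (B 1 (LD 0 2) (B 3 (B 4 (LD 0 2) (F 0 2 (B 5 (D 4) (F 1 6 (F 1 7 (LE 0 4)))))) (F 0 2 (F 0 4 (LE 0 1)))))))
(P (B 0 (L 0) (B 1 (LD 0 2) (B 2 (B 5 (B 4 (LD 5 3) (F 0 3 (F 4 15 (F 4 16 (LE 5 1))))) (F 1 6 (F 1 7 (LD 6 3)))) (F 0 3 (F 0 4 (LE 0 1))))))))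
(P (B 0 (L 0) (B 1 (LD 0 2) (B 2 (B 5 (B 3 (LD 5 4) (F 0 4 (LE 5 1))) (F 1 6 (F 1 7 (LD 6 3)))) (F 0 3 (F 0 4 (LE 0 1)))))))))))))))))))
(P (B 0 (L 0) (B 4 (LD 0 1) (B 1 (B 2 (LD 0 3) (F 0 3 (LE 0 2))) (F 0 2 (F 0 3 (LE 0 1))))))))))))
(P (B 0 (L 0) (B 3 (LD 0 1) (B 1 (B 4 (LD 4 2) (F 0 2 (L 0))) (F 0 2 (F 0 4 (LE 4 1)))))))))))))))
(N 2 (Q 3 5 192 (Q 3 6 128 (P (B 0 (L 0) (B 2 (LD 0 1) (B 1 (LE 0 0) (F 0 3 (D 1))))))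
(Q 4 6 128 (P (B 0 (L 0) (B 2 (LD 0 1) (B 1 (LE 0 0) (F 0 3 (F 0 4 (D 1)))))))
(Q 4 5 0 (P (B 2 (B 1 (L 0) (B 5 (D 0) (F 1 6 (F 1 7 (LE 0 0))))) (LD 0 0)))
(P (B 0 (L 0) (B 2 (LD 0 1) (B 1 (B 4 (LE 4 2) (F 0 3 (LE 3 2))) (F 0 3 (F 0 4 (F 1 6 (F 1 7 (LE 4 2))))))))))))
(Q 3 8 3584 (Q 3 9 3072 (P (B 0 (L 0) (B 2 (LD 0 1) (B 4 (LD 4 1) (F 0 1 (F 0 3 (F 2 10 (F 2 11 (L 3)))))))))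
(N 3 (Bad 3)
(N 3 (Bad 3)
(N 3 (Q 4 5 192 (P (B 0 (L 0) (B 1 (LD 0 3) (B 4 (F 1 6 (F 1 7 (LD 4 3))) (F 0 2 (F 0 3 (LE 0 1)))))))
(P (B 0 (L 0) (B 3 (LD 0 1) (B 2 (F 3 12 (F 3 13 (LD 0 1))) (F 0 1 (F 0 4 (LE 4 2))))))))
(P (B 0 (L 0) (B 4 (LD 4 1) (B 2 (B 3 (LD 0 1) (F 0 1 (L 0))) (F 0 1 (F 0 3 (LE 0 2)))))))))))
(P (B 0 (L 0) (B 4 (LD 4 1) (B 2 (B 3 (LD 3 1) (F 0 1 (L 0))) (F 0 1 (F 0 3 (LE 3 2)))))))))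
(P (B 0 (L 0) (S 0 (LD 4 1) (LD 3 1) (LD 0 1) (L 0) X X X)))))))))))
(N 1 (Q 2 3 16 (P (B 0 (L 0) (B 1 (L 0) (B 4 (LE 4 0) (F 0 2 (D 0))))))
(Q 3 4 0 (P (B 0 (L 0) (B 1 (L 0) (B 2 (LE 2 0) (F 0 3 (D 0))))))
(Q 2 5 448 (Q 3 5 0 (Q 2 6 384 (Q 3 6 0 (P (B 0 (L 0) (B 1 (L 0) (S 1 (LE 8 0) (LE 7 0) (D 0) (D 0) X X X))))
(Q 3 7 256 (P (B 0 (L 0) (B 1 (L 0) (B 4 (LE 4 0) (F 0 2 (F 0 3 (D 1)))))))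
(N 3 (Bad 3)
(N 3 (Bad 3)
(N 3 (P (B 0 (L 0) (B 3 (LD 0 1) (B 5 (D 0) (F 3 9 (F 3 10 (LD 9 1)))))))
(N 3 (P (B 0 (L 0) (B 1 (LD 0 3) (B 2 (F 1 7 (F 1 8 (LD 2 3))) (F 0 3 (F 0 4 (LE 0 1)))))))
(P (B 0 (L 0) (B 3 (LD 0 1) (B 1 (LE 0 0) (F 0 2 (F 0 4 (F 1 7 (F 1 8 (L 2)))))))))))))))
(N 2 (Bad 2)
(N 2 (Bad 2)
(N 2 (P (B 0 (L 0) (B 2 (LD 0 1) (B 5 (D 0) (F 2 9 (F 2 10 (LD 9 1)))))))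
(N 2 (P (B 0 (L 0) (S 0 (L 4) (LD 3 1) (LD 0 1) (LD 0 2) X X X)))
(P (B 0 (L 0) (S 0 (L 4) (LD 3 1) (LD 0 1) (L 0) X X X))))))))
(Q 3 6 384 (Q 2 7 256 (P (B 0 (L 0) (B 1 (L 0) (B 4 (LE 4 0) (F 0 2 (F 0 3 (D 1)))))))
(Q 3 7 256 (P (B 0 (L 0) (B 1 (L 0) (B 4 (LE 4 0) (F 0 2 (F 0 3 (D 1)))))))
(N 3 (Bad 3)
(N 3 (Bad 3)
(N 3 (Q 2 9 1024 (P (B 0 (L 0) (B 3 (LD 0 1) (B 1 (F 3 9 (F 0 4 (F 3 10 (L 0)))) (F 0 2 (F 0 4 (F 3 6 (F 3 10 (LE 2 1)))))))))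
(Q 2 6 0 (P (B 0 (L 0) (B 3 (LD 0 1) (B 6 (D 0) (F 3 9 (F 3 10 (LD 9 1)))))))
(P (B 0 (L 0) (B 1 (LD 0 3) (B 4 (LD 4 3) (F 0 2 (F 0 3 (F 1 7 (F 1 8 (L 2)))))))))))
(N 3 (P (B 0 (L 0) (S 0 (L 4) (LD 0 1) (LD 2 1) (LD 0 3) X X X)))
(P (B 0 (L 0) (S 0 (L 4) (LD 0 1) (LD 2 1) (L 0) X X X)))))))))
(N 3 (Bad 3)
(N 3 (Bad 3)
(N 3 (Bad 3)
(N 3 (Q 2 6 384 (Q 4 5 64 (P (B 0 (L 0) (B 1 (LD 0 3) (B 2 (F 1 7 (F 1 8 (LD 2 3))) (F 0 3 (F 0 4 (LE 0 1)))))))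
(P (B 0 (L 0) (B 1 (LD 0 3) (B 3 (LE 0 0) (F 0 2 (F 0 4 (F 1 7 (F 1 8 (LE 4 3))))))))))
(Q 2 9 3072 (Q 2 10 2048 (P (B 0 (L 0) (B 1 (LD 0 3) (B 3 (LE 0 0) (F 0 2 (D 3))))))
(N 2 (Bad 2)
(N 2 (P (B 0 (L 0) (B 2 (LD 0 1) (B 1 (F 2 9 (F 0 4 (F 2 12 (LE 0 3)))) (F 0 3 (F 0 4 (F 2 5 (F 2 12 (L 0)))))))))
(P (B 0 (L 0) (B 4 (LD 4 3) (B 1 (B 3 (L 0) (F 0 2 (F 3 10 (F 3 11 (L 0))))) (F 0 2 (F 0 3 (LE 0 1))))))))))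
(N 2 (Bad 2)
(N 2 (Bad 2)
(N 2 (Q 4 9 3072 (P (B 0 (L 0) (B 3 (LD 0 2) (B 4 (F 3 10 (F 3 11 (LD 4 2))) (F 0 1 (F 0 2 (LE 0 3)))))))
(P (B 0 (L 0) (B 2 (LD 0 1) (B 1 (F 2 12 (F 2 13 (LD 0 3))) (F 0 3 (F 0 4 (LE 4 1))))))))
(P (B 0 (L 0) (B 4 (LD 4 3) (B 1 (B 2 (LD 0 3) (F 0 3 (L 0))) (F 0 2 (F 0 3 (LE 0 1))))))))))))
(N 3 (Q 4 5 0 (Q 2 6 384 (P (B 0 (L 0) (B 1 (L 0) (B 2 (F 1 7 (F 1 8 (LE 2 0))) (F 0 3 (F 0 4 (LE 0 1)))))))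
(Q 4 6 384 (P (B 0 (L 0) (B 1 (L 0) (B 3 (LE 0 0) (F 0 2 (F 0 4 (F 1 7 (F 1 8 (LE 2 3)))))))))
(Q 2 9 7168 (Q 2 10 6144 (P (B 0 (L 0) (B 3 (L 0) (B 2 (F 3 11 (F 3 12 (LD 0 1))) (F 0 1 (F 0 4 (LE 4 3)))))))
(N 2 (Bad 2)
(N 2 (P (B 0 (L 0) (B 2 (LD 0 1) (B 1 (F 2 9 (F 0 4 (F 2 13 (L 4)))) (F 0 3 (F 0 4 (D 2)))))))
(P (B 0 (L 0) (B 2 (LD 0 1) (B 3 (LE 0 0) (F 0 1 (F 0 4 (LE 4 3))))))))))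
(N 2 (Bad 2)
(N 2 (Bad 2)
(N 2 (P (B 0 (L 0) (B 2 (LD 0 1) (B 5 (D 0) (F 2 13 (F 2 14 (LD 13 1)))))))
(P (B 0 (L 0) (B 2 (LD 0 1) (B 3 (LE 0 0) (F 0 1 (F 0 4 (LE 4 3)))))))))))))
(Q 2 6 384 (P (B 0 (L 0) (B 1 (L 0) (B 3 (LE 0 0) (F 0 2 (F 0 4 (F 1 7 (F 1 8 (LE 4 3)))))))))
(Q 4 6 384 (P (B 0 (L 0) (B 1 (L 0) (B 3 (LE 0 0) (F 0 2 (F 0 4 (F 1 7 (F 1 8 (LE 2 3)))))))))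
(Q 4 9 7168 (Q 4 10 6144 (P (B 0 (L 0) (B 3 (L 0) (B 4 (F 3 11 (F 3 12 (LE 4 0))) (F 0 1 (F 0 2 (LE 2 3)))))))
(P (B 0 (L 0) (B 2 (LD 2 1) (B 3 (B 1 (L 0) (F 0 4 (LE 4 1))) (F 0 1 (F 0 4 (LE 4 3))))))))
(P (B 0 (L 0) (B 2 (LD 2 1) (B 1 (B 3 (L 0) (F 0 4 (LE 4 3))) (F 0 3 (F 0 4 (LE 4 1)))))))))))
(P (B 0 (L 0) (S 0 (L 4) (L 0) (LD 2 1) (L 0) X X X))))))))))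
(N 2 (Bad 2)
(N 2 (Bad 2)
(N 2 (Bad 2)
(N 2 (Q 3 5 448 (Q 3 6 384 (Q 4 5 64 (P (B 0 (L 0) (B 1 (LD 0 2) (B 3 (F 1 7 (F 1 8 (LD 3 2))) (F 0 2 (F 0 4 (LE 0 1)))))))
(P (B 0 (L 0) (B 1 (LD 0 2) (B 2 (LE 0 0) (F 0 3 (F 0 4 (F 1 7 (F 1 8 (LE 4 2))))))))))
(Q 3 9 3072 (Q 3 10 2048 (P (B 0 (L 0) (B 1 (LD 0 2) (B 2 (LE 0 0) (F 0 3 (D 2))))))
(N 3 (Bad 3)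
(N 3 (P (B 0 (L 0) (B 3 (LD 0 1) (B 1 (F 3 9 (F 0 4 (F 3 12 (LE 0 2)))) (F 0 2 (F 0 4 (F 3 5 (F 3 12 (L 0)))))))))
(P (B 0 (L 0) (B 4 (LD 4 2) (B 1 (B 2 (L 0) (F 0 3 (F 2 10 (F 2 11 (L 0))))) (F 0 2 (F 0 3 (LE 0 1))))))))))
(N 3 (Bad 3)
(N 3 (Bad 3)
(N 3 (Q 4 9 3072 (P (B 0 (L 0) (B 2 (LD 0 3) (B 4 (F 2 10 (F 2 11 (LD 4 3))) (F 0 1 (F 0 3 (LE 0 2)))))))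
(P (B 0 (L 0) (B 3 (LD 0 1) (B 1 (F 3 12 (F 3 13 (LD 0 2))) (F 0 2 (F 0 4 (LE 4 1))))))))
(P (B 0 (L 0) (B 4 (LD 4 2) (B 1 (B 3 (LD 0 2) (F 0 2 (L 0))) (F 0 2 (F 0 3 (LE 0 1))))))))))))
(Q 3 9 3072 (Q 3 10 2048 (P (B 0 (L 0) (B 1 (LD 0 2) (B 2 (LE 0 0) (F 0 3 (D 2))))))
(P (B 0 (L 0) (B 4 (LD 4 2) (B 2 (B 1 (L 0) (F 0 3 (LE 3 1))) (F 0 1 (F 0 3 (F 2 10 (F 2 11 (L 3))))))))))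
(P (B 0 (L 0) (B 4 (LD 4 2) (B 1 (B 3 (LD 3 2) (F 0 2 (L 0))) (F 0 2 (F 0 3 (LE 3 1)))))))))
(N 2 (Q 3 9 7168 (Q 4 9 0 (Q 3 10 6144 (P (B 0 (L 0) (B 2 (L 0) (B 3 (F 2 11 (F 2 12 (LE 3 0))) (F 0 1 (F 0 4 (LE 0 2)))))))
(Q 4 10 6144 (P (B 0 (L 0) (B 2 (L 0) (B 1 (LE 0 0) (F 0 3 (F 0 4 (F 2 11 (F 2 12 (LE 3 1)))))))))
(Q 3 5 448 (Q 3 6 384 (P (B 0 (L 0) (B 1 (L 0) (B 3 (F 1 7 (F 1 8 (LD 0 2))) (F 0 2 (F 0 4 (LE 4 1)))))))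
(N 3 (Bad 3)
(N 3 (P (B 0 (L 0) (B 3 (LD 0 1) (B 1 (F 3 9 (D 0)) (F 0 2 (F 0 4 (F 3 5 (F 3 13 (L 4)))))))))
(P (B 0 (L 0) (B 3 (LD 0 1) (B 1 (LE 0 0) (F 0 2 (F 0 4 (LE 4 1))))))))))
(N 3 (Bad 3)
(N 3 (Bad 3)
(N 3 (P (B 0 (L 0) (B 3 (LD 0 2) (B 9 (D 0) (F 3 13 (F 3 14 (LD 13 2)))))))
(P (B 0 (L 0) (B 3 (LD 0 2) (B 1 (LE 0 0) (F 0 2 (F 0 4 (LE 4 1)))))))))))))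
(Q 3 10 6144 (P (B 0 (L 0) (B 1 (L 0) (B 2 (LE 0 0) (F 0 3 (F 0 4 (F 2 11 (F 2 12 (LE 4 1)))))))))
(Q 4 10 6144 (P (B 0 (L 0) (B 1 (L 0) (B 2 (LE 0 0) (F 0 3 (F 0 4 (F 2 11 (F 2 12 (LE 3 1)))))))))
(Q 4 5 448 (Q 3 6 384 (P (B 0 (L 0) (B 1 (L 0) (B 2 (LE 0 0) (F 0 3 (F 0 4 (F 1 7 (F 1 8 (LE 4 2)))))))))
(Q 4 6 384 (P (B 0 (L 0) (B 1 (L 0) (B 4 (F 1 7 (F 1 8 (LE 4 0))) (F 0 2 (F 0 3 (LE 3 1)))))))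
(P (B 0 (L 0) (B 3 (LD 3 2) (B 1 (B 2 (L 0) (F 0 4 (LE 4 2))) (F 0 2 (F 0 4 (LE 4 1)))))))))
(P (B 0 (L 0) (B 3 (LD 3 2) (B 1 (B 2 (L 0) (F 0 4 (LE 4 2))) (F 0 2 (F 0 4 (LE 4 1)))))))))))
(Q 3 5 448 (Q 4 9 7168 (Q 4 10 6144 (P (B 0 (L 0) (B 1 (L 0) (B 2 (LE 0 0) (F 0 3 (F 0 4 (F 2 11 (F 2 12 (LE 3 1)))))))))
(Q 3 6 384 (P (B 0 (L 0) (B 1 (L 0) (B 3 (F 1 7 (F 1 8 (LE 3 0))) (F 0 2 (F 0 4 (LE 4 1)))))))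
(N 3 (Bad 3)
(N 3 (Bad 3)
(N 3 (P (B 0 (L 0) (B 3 (LD 0 1) (B 1 (F 3 13 (F 3 14 (LE 0 0))) (F 0 2 (F 0 4 (LE 4 1)))))))
(P (B 0 (L 0) (B 3 (LD 0 1) (B 1 (LE 0 0) (F 0 2 (F 0 4 (LE 4 1))))))))))))
(Q 4 5 0 (Q 3 6 384 (P (B 0 (L 0) (B 1 (L 0) (B 3 (F 1 7 (F 1 8 (LE 3 0))) (F 0 2 (F 0 4 (LE 4 1)))))))
(N 3 (Bad 3)
(N 3 (Bad 3)
(N 3 (P (B 0 (L 0) (B 3 (LD 0 1) (B 1 (F 3 13 (F 3 14 (LE 0 0))) (F 0 2 (F 0 4 (F 3 13 (F 3 14 (LE 4 1)))))))))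
(P (B 0 (L 0) (B 3 (LD 0 1) (B 1 (LE 0 0) (F 0 2 (F 0 4 (LE 4 1)))))))))))
(Q 3 6 384 (P (B 0 (L 0) (B 1 (L 0) (B 3 (F 1 7 (F 1 8 (LE 3 0))) (F 0 2 (F 0 4 (LE 4 1)))))))
(N 3 (Bad 3)
(N 3 (Bad 3)
(N 3 (P (B 0 (L 0) (B 3 (LD 0 1) (B 1 (F 3 13 (F 3 14 (LE 0 0))) (F 0 2 (F 0 4 (LE 4 1)))))))
(P (B 0 (L 0) (B 3 (LD 0 1) (B 1 (LE 0 0) (F 0 2 (F 0 4 (LE 4 1)))))))))))))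
(N 3 (Bad 3)
(N 3 (Bad 3)
(N 3 (Bad 3)
(N 3 (P (B 0 (L 0) (B 4 (LD 4 3) (B 1 (B 2 (LD 0 3) (F 0 3 (LE 0 2))) (F 0 2 (F 0 3 (LE 0 1)))))))
(Q 4 9 7168 (P (B 0 (L 0) (S 0 (LD 4 2) (L 0) (L 0) (L 0) X X X)))
(P (B 0 (L 0) (B 1 (L 0) (B 3 (LE 0 0) (F 0 2 (F 0 4 (LE 4 1))))))))))))))
(P (B 2 (L 0) (LD 0 0)))))))))))
(P (B 1 (L 0) (LD 0 0))))))))) Hi)))))) 1 0 0 1 1 = true := by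
  decide +kernel

theorem c6 : qc 6 7 0 782757789696 ((N 0 (Bad 0) (N 0 (Bad 0) (N 0 (Bad 0) (N 0 (Bad 0) (N 0 (Bad 0) (N 0 (Bad 0) (N 0 (P (B 0 (L 0) (S 0 (L 6) (L 5) (L 4) (L 3) (L 2) (L 1) X))) Hi)))))))) 1 0 0 1 1 = true := by
  decide +kernel

theorem c7 : qc 7 8 0 782757789696 ((N 0 (Bad 0) (N 0 (Bad 0) (N 0 (Bad 0) (N 0 (Bad 0) (N 0 (Bad 0) (N 0 (Bad 0) (N 0 (Bad 0) (N 0 (P (B 0 (L 0) (S 0 (L 7) (L 6) (L 5) (L 4) (L 3) (L 2) (L 1)))) Hi))))))))) 1 0 0 1 1 = true := by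
  decide +kernel

theorem c8 : qc 8 0 0 782757789696 (P (B 0 (L 0) (L 0))) 1 0 0 1 1 = true := by
  decide +kernel

end Pool.Agent.MP_b8b299_co.H91
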