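import Pool.Agent.MP_b8b299_co.H91.Chk

set_option autoImplicit false
set_option maxRecDepth 100000

namespace Pool.Agent.MP_b8b299_co.H91

open Tr Qr

theorem c5 : qc 5 6 0 782757789696 ((N 0 (Bad 0) (N 0 (Bad 0) (N 0 (Bad 0) (N 0 (Bad 0) (N 0 (Bad 0) (N 0 (Q 1 2 56 (Q 1 3 48 (Q 2 3 0 (Q 1 4 32 (Q 4 5 0 (P (B 0 (L 0) (S 0 (L 5) (LE 4 0) (LE 3 0) (LE 2 0) (F 0 5 (L 1)) X X)))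
(P (B 0 (L 0) (S 0 (L 5) (L 4) (LE 3 0) (LE 2 0) (F 0 5 (L 5)) X X))))
(N 1 (Bad 1)
(N 1 (Bad 1)
(N 1 (P (B 0 (LE 0 1) (S 0 (L 5) (L 4) (LE 3 0) (LE 2 0) (LE 0 0) X X)))
(P (B 0 (L 0) (S 0 (L 5) (L 4) (LE 3 0) (LE 2 0) (LE 0 0) X X)))))))
(Q 2 4 32 (Q 3 4 0 (Q 1 4 0 (P (B 0 (L 0) (S 0 (L 5) (F 0 5 (L 4)) (LE 3 0) (LE 2 0) (F 0 5 (L 1)) X X)))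
(Q 1 5 0 (P (B 0 (L 0) (S 0 (L 5) (LE 4 0) (LE 3 0) (LE 2 0) (F 0 4 (L 1)) X X)))
(N 1 (Bad 1)
(N 1 (Bad 1)
(N 1 (P (B 0 (LE 0 1) (S 0 (L 5) (LD 4 1) (LE 3 0) (LE 2 0) (LE 0 0) X X)))
(P (B 0 (L 0) (S 0 (L 5) (LE 4 0) (LE 3 0) (LE 2 0) (LE 0 0) X X))))))))
(Q 1 5 0 (P (B 0 (L 0) (S 0 (L 5) (L 4) (L 3) (LE 2 0) (F 0 4 (L 4)) X X)))
(Q 2 5 0 (P (B 0 (L 0) (B 3 (L 3) (S 0 (LE 5 0) (LE 4 0) (D 0) (LE 1 0) X X X))))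
(N 2 (Bad 2)
(N 2 (Bad 2)
(N 2 (P (B 0 (LE 0 2) (S 0 (L 5) (L 4) (LD 3 2) (LE 0 0) (LE 1 0) X X)))
(Q 1 4 0 (P (B 0 (L 0) (S 0 (L 5) (LE 4 0) (L 3) (LE 0 0) (F 0 5 (L 5)) X X)))
(N 2 (Q 3 5 0 (P (B 0 (L 0) (S 0 (L 5) (L 4) (LE 3 0) (LE 0 0) (LE 1 0) X X)))
(Q 3 6 384 (P (B 0 (L 0) (S 0 (L 5) (L 4) (LD 3 2) (LE 0 0) (LE 1 0) X X)))
(N 3 (Bad 3)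
(N 3 (Bad 3)
(N 3 (Bad 3)
(N 3 (Q 5 9 3072 (P (B 0 (L 0) (B 5 (LD 5 3) (B 2 (F 0 3 (L 0)) (B 4 (LE 4 0) (F 0 1 (D 0)))))))
(Q 5 6 384 (Q 5 7 256 (P (B 0 (L 0) (B 5 (LD 5 2) (B 2 (F 0 3 (L 0)) (B 4 (LE 4 0) (F 0 1 (D 0)))))))
(Q 4 5 0 (P (B 0 (L 0) (S 0 (LD 5 2) (LE 4 0) (L 0) (LD 0 3) (LE 1 0) X X)))
(P (B 0 (L 0) (B 2 (LD 0 3) (B 5 (LE 5 2) (B 4 (LE 4 0) (F 0 1 (D 0)))))))))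
(P (B 0 (L 0) (S 0 (L 5) (L 4) (L 0) (B 5 (LD 5 3) (F 0 3 (L 0))) (LE 1 0) X X)))))
(P (B 0 (L 0) (S 0 (L 5) (L 4) (L 0) (LE 0 0) (LE 1 0) X X)))))))))
(P (B 0 (L 0) (S 0 (L 5) (L 4) (L 3) (LE 0 0) (LE 1 0) X X)))))))))))
(N 2 (Bad 2)
(N 2 (Bad 2)
(N 2 (Bad 2)
(N 2 (Q 1 4 32 (P (B 0 (L 0) (S 0 (L 5) (LD 4 2) (LD 3 2) (L 0) (F 0 5 (L 5)) X X)))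
(Q 4 6 384 (Q 5 6 0 (P (B 2 (L 0) (B 0 (L 0) (S 2 (LE 8 0) (LE 7 0) (F 0 1 (D 0)) (LE 1 0) X X X))))
(Q 5 7 256 (Q 3 8 0 (P (B 0 (L 0) (B 1 (LE 1 0) (B 5 (B 2 (L 5) (F 2 6 (F 0 3 (D 2)))) (B 2 (LE 0 0) (F 0 3 (F 0 4 (D 2))))))))
(Q 1 6 0 (P (B 0 (L 0) (B 4 (LD 4 2) (B 2 (LE 0 0) (B 5 (B 8 (LE 5 0) (F 2 1 (D 2))) (F 0 1 (D 0)))))))
(Q 1 7 0 (Q 1 8 0 (P (B 0 (L 0) (S 0 (LD 5 2) (LD 4 2) (LD 3 2) (L 0) (F 2 6 (F 0 5 (L 0))) X X)))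
(N 1 (Bad 1)
(N 1 (P (B 0 (LE 0 1) (B 2 (LE 0 1) (S 2 (LD 8 1) (F 0 3 (F 0 4 (F 2 8 (L 4)))) (LD 6 1) (LE 0 0) X X X))))
(P (B 0 (L 0) (S 0 (LD 5 2) (LD 4 2) (LD 3 2) (L 0) (LE 0 0) X X))))))
(Q 4 7 0 (P (B 0 (L 0) (B 1 (B 7 (D 0) (LE 1 0)) (B 5 (LD 5 2) (B 2 (LE 0 0) (F 0 3 (F 0 4 (D 2))))))))
(Q 1 8 0 (P (B 0 (L 0) (B 4 (LD 4 2) (B 2 (LE 0 0) (B 5 (B 6 (LE 5 0) (F 2 1 (D 2))) (F 0 1 (D 0)))))))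
(N 1 (Bad 1)
(N 1 (Bad 1)
(N 1 (P (B 0 (LE 0 1) (S 0 (LD 5 2) (LD 4 2) (LD 3 2) (L 0) (LE 0 0) X X)))
(P (B 0 (L 0) (S 0 (LD 5 2) (LD 4 2) (LD 3 2) (L 0) (LE 0 0) X X)))))))))))
(Q 1 6 0 (Q 1 7 256 (P (B 0 (L 0) (S 0 (L 5) (LD 4 2) (LD 3 2) (L 0) (F 2 8 (LE 8 0)) X X)))
(N 1 (Bad 1)
(N 1 (P (B 0 (LE 0 1) (B 2 (LE 0 1) (S 2 (LD 8 1) (LD 7 1) (F 0 3 (F 0 5 (LE 5 2))) (LE 0 0) X X X))))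
(P (B 0 (L 0) (S 0 (L 5) (LD 4 2) (LD 3 2) (L 0) (LE 0 0) X X))))))
(Q 1 7 256 (Q 1 8 0 (P (B 0 (L 0) (S 0 (L 5) (LD 4 2) (LD 3 2) (L 0) (F 2 6 (F 0 5 (L 5))) X X)))
(N 1 (Bad 1)
(N 1 (P (B 0 (LE 0 1) (B 2 (LE 0 1) (B 5 (LD 5 1) (B 4 (LD 4 1) (F 0 1 (D 0)))))))
(P (B 0 (L 0) (S 0 (L 5) (LD 4 2) (LD 3 2) (L 0) (LE 0 0) X X))))))
(N 1 (Bad 1)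
(N 1 (Bad 1)
(N 1 (P (B 0 (LE 0 1) (S 0 (L 5) (LD 4 2) (LD 3 2) (L 0) (LE 0 0) X X)))
(P (B 0 (L 0) (S 0 (L 5) (LD 4 2) (LD 3 2) (L 0) (LE 0 0) X X))))))))))
(Q 5 6 384 (Q 1 6 0 (Q 1 7 256 (P (B 0 (L 0) (S 0 (LD 5 2) (L 4) (LD 3 2) (L 0) (F 2 8 (LE 8 0)) X X)))
(N 1 (Bad 1)
(N 1 (P (B 0 (LE 0 1) (B 2 (LE 0 1) (S 2 (LD 8 1) (LD 7 1) (F 0 3 (F 0 4 (LE 4 2))) (LE 0 0) X X X))))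
(P (B 0 (L 0) (S 0 (LD 5 2) (L 4) (LD 3 2) (L 0) (LE 0 0) X X))))))
(Q 1 7 256 (Q 1 8 0 (P (B 0 (L 0) (S 0 (LD 5 2) (L 4) (LD 3 2) (L 0) (F 2 6 (F 0 4 (L 4))) X X)))
(N 1 (Bad 1)
(N 1 (P (B 0 (LE 0 1) (B 2 (LE 0 1) (B 4 (LD 4 1) (B 5 (LD 5 1) (F 0 1 (D 0)))))))
(P (B 0 (L 0) (S 0 (LD 5 2) (L 4) (LD 3 2) (L 0) (LE 0 0) X X))))))
(N 1 (Bad 1)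
(N 1 (Bad 1)
(N 1 (P (B 0 (LE 0 1) (S 0 (LD 5 2) (L 4) (LD 3 2) (L 0) (LE 0 0) X X)))
(P (B 0 (L 0) (S 0 (LD 5 2) (L 4) (LD 3 2) (L 0) (LE 0 0) X X))))))))
(Q 1 6 384 (Q 1 7 256 (P (B 0 (L 0) (S 0 (L 5) (L 4) (LD 3 2) (L 0) (F 2 8 (LE 8 0)) X X)))
(N 1 (Bad 1)
(N 1 (P (B 0 (LE 0 1) (S 0 (L 5) (L 4) (LD 3 2) (LE 0 1) (LE 0 0) X X)))
(N 1 (Q 3 7 256 (P (B 2 (L 0) (S 2 (L 8) (LD 7 0) (LD 6 0) (LE 0 0) (L 0) X X)))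
(Q 4 5 0 (Q 3 4 32 (P (B 0 (L 0) (B 1 (LE 0 0) (B 5 (LD 5 2) (B 2 (LE 0 0) (F 0 3 (D 0)))))))
(P (B 0 (L 0) (B 3 (LD 3 2) (B 1 (LE 0 0) (B 4 (F 0 2 (LE 4 1)) (F 0 2 (F 0 5 (LE 5 1)))))))))
(Q 3 4 32 (P (B 0 (L 0) (B 1 (LE 0 0) (B 5 (LD 5 2) (B 2 (LE 0 0) (F 0 3 (D 0)))))))
(P (B 0 (L 0) (B 3 (LD 3 2) (B 4 (L 4) (B 1 (F 0 5 (LE 5 2)) (F 0 2 (F 0 5 (LE 5 1)))))))))))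
(P (B 0 (L 0) (S 0 (L 5) (L 4) (LD 3 2) (L 0) (LE 0 0) X X)))))))
(N 1 (Bad 1)
(N 1 (Bad 1)
(N 1 (Q 3 4 32 (P (B 0 (LE 0 1) (S 0 (L 5) (LD 4 1) (LD 3 2) (L 0) (LE 0 0) X X)))
(P (B 0 (LE 0 1) (B 3 (LD 3 2) (S 0 (LD 5 1) (LD 4 1) (B 4 (LE 4 1) (F 0 5 (LE 5 1))) (LE 0 0) X X X)))))
(N 1 (Q 3 4 32 (P (B 0 (L 0) (B 1 (LE 0 0) (B 5 (LD 5 2) (B 2 (LE 0 0) (F 0 3 (D 0)))))))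
(Q 4 5 0 (P (B 0 (L 0) (B 3 (LD 3 2) (B 1 (LE 0 0) (B 4 (F 0 2 (L 4)) (F 0 2 (F 0 5 (L 5))))))))
(Q 3 6 384 (Q 3 7 256 (P (B 0 (L 0) (B 2 (L 0) (S 0 (LE 5 2) (LE 4 2) (D 2) (LE 0 0) X X X))))
(Q 4 9 3072 (P (B 0 (L 0) (B 3 (LD 3 2) (B 4 (LD 4 1) (B 5 (LE 5 0) (F 0 1 (D 0)))))))
(P (B 0 (L 0) (B 2 (L 0) (B 3 (F 2 7 (F 2 8 (LE 7 0))) (B 5 (LD 5 1) (F 0 1 (F 0 4 (L 4))))))))))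
(Q 3 9 3072 (Q 3 10 2048 (Q 3 11 0 (P (B 0 (L 0) (B 3 (F 1 2 (L 0)) (B 4 (L 4) (B 5 (LE 5 0) (F 0 1 (D 0)))))))
(N 3 (Bad 3)
(N 3 (P (B 0 (L 0) (B 1 (F 3 12 (LE 12 0)) (S 0 (LD 5 2) (LD 4 2) (LD 0 2) (LD 0 3) X X X))))
(P (B 0 (L 0) (B 3 (LD 0 2) (B 4 (L 4) (B 5 (LE 5 0) (F 0 1 (D 0))))))))))
(N 3 (Bad 3)
(N 3 (Bad 3)
(N 3 (P (B 0 (L 0) (B 2 (LD 0 3) (B 4 (LE 4 2) (B 5 (LE 5 0) (F 0 1 (D 0)))))))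
(P (B 0 (L 0) (B 3 (LD 0 2) (B 4 (L 4) (B 5 (LE 5 0) (F 0 1 (D 0)))))))))))
(N 3 (Bad 3)
(N 3 (Bad 3)
(N 3 (Bad 3)
(N 3 (P (B 0 (L 0) (B 2 (LD 0 3) (B 4 (LE 4 2) (B 5 (LE 5 0) (F 0 1 (D 0)))))))
(P (B 0 (L 0) (B 3 (LD 0 2) (B 4 (L 4) (B 5 (LE 5 0) (F 0 1 (D 0)))))))))))))))
(P (B 0 (L 0) (S 0 (L 5) (L 4) (LD 3 2) (L 0) (LE 0 0) X X)))))))))))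
(Q 1 4 32 (P (B 0 (L 0) (S 0 (L 5) (L 4) (L 3) (L 0) (F 0 5 (L 5)) X X)))
(N 2 (Q 3 4 32 (P (B 0 (L 0) (B 2 (L 0) (S 0 (LE 5 2) (LE 4 0) (F 0 5 (LE 5 2)) (LE 1 0) X X X))))
(Q 3 6 896 (Q 3 7 768 (P (B 0 (L 0) (B 2 (L 0) (S 0 (LE 5 2) (LE 4 2) (F 2 8 (F 2 9 (LE 3 0))) (LE 1 0) X X X))))
(N 3 (Bad 3)
(N 3 (Bad 3)
(N 3 (P (B 0 (L 0) (S 0 (L 5) (L 4) (LD 0 2) (LD 0 3) (LE 1 0) X X)))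
(P (B 0 (L 0) (S 0 (L 5) (L 4) (LD 0 2) (L 0) (LE 1 0) X X)))))))
(N 3 (Bad 3)
(N 3 (Bad 3)
(N 3 (Bad 3)
(N 3 (Q 4 10 6144 (P (B 0 (L 0) (B 2 (LD 0 3) (B 4 (LD 4 3) (B 5 (LE 5 0) (F 0 1 (D 0)))))))
(Q 5 10 6144 (P (B 0 (L 0) (B 5 (LD 5 3) (B 3 (B 2 (L 0) (F 0 4 (LE 4 2))) (B 4 (LE 4 0) (F 0 1 (D 0)))))))
(P (B 0 (L 0) (B 2 (LD 0 3) (S 0 (LE 5 2) (LE 4 2) (B 4 (LE 4 2) (F 0 5 (LE 5 2))) (LE 1 0) X X X))))))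
(P (B 0 (L 0) (S 0 (L 5) (L 4) (L 0) (L 0) (LE 1 0) X X)))))))))
(P (B 0 (L 0) (B 2 (L 0) (B 4 (L 4) (B 5 (LE 5 0) (F 0 1 (D 0)))))))))))))))
(N 1 (Bad 1)
(N 1 (Bad 1)
(N 1 (Bad 1)
(N 1 (Q 2 3 48 (Q 2 4 32 (P (B 0 (L 0) (S 0 (L 5) (LD 4 1) (LD 3 1) (F 0 5 (L 5)) (L 0) X X)))
(Q 4 6 384 (Q 5 6 0 (P (B 1 (L 0) (B 0 (L 0) (S 1 (LE 8 0) (LE 7 0) (F 0 2 (D 0)) (LE 2 0) X X X))))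
(Q 5 7 256 (Q 3 8 0 (P (B 0 (L 0) (B 2 (LE 2 0) (B 5 (B 1 (L 5) (F 1 6 (F 0 3 (D 1)))) (B 1 (LE 0 0) (F 0 3 (F 0 4 (D 1))))))))
(Q 2 6 0 (P (B 0 (L 0) (B 4 (LD 4 1) (B 1 (LE 0 0) (B 5 (B 8 (LE 5 0) (F 1 2 (D 1))) (F 0 2 (D 0)))))))
(Q 2 7 0 (Q 2 8 0 (P (B 0 (L 0) (S 0 (LD 5 1) (LD 4 1) (LD 3 1) (F 1 6 (F 0 5 (L 0))) (L 0) X X)))
(N 2 (Bad 2)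
(N 2 (P (B 0 (LE 0 2) (B 1 (LE 0 2) (S 1 (LD 8 2) (F 0 3 (F 0 4 (F 1 8 (L 4)))) (LD 6 2) (LE 0 0) X X X))))
(P (B 0 (L 0) (S 0 (LD 5 1) (LD 4 1) (LD 3 1) (LE 0 0) (L 0) X X))))))
(Q 4 7 0 (P (B 0 (L 0) (B 2 (B 7 (D 0) (LE 2 0)) (B 5 (LD 5 1) (B 1 (LE 0 0) (F 0 3 (F 0 4 (D 1))))))))
(Q 2 8 0 (P (B 0 (L 0) (B 4 (LD 4 1) (B 1 (LE 0 0) (B 5 (B 6 (LE 5 0) (F 1 2 (D 1))) (F 0 2 (D 0)))))))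
(N 2 (Bad 2)
(N 2 (Bad 2)
(N 2 (P (B 0 (LE 0 2) (S 0 (LD 5 1) (LD 4 1) (LD 3 1) (LE 0 0) (L 0) X X)))
(P (B 0 (L 0) (S 0 (LD 5 1) (LD 4 1) (LD 3 1) (LE 0 0) (L 0) X X)))))))))))
(Q 2 6 0 (Q 2 7 256 (P (B 0 (L 0) (S 0 (L 5) (LD 4 1) (LD 3 1) (F 1 8 (LE 8 0)) (L 0) X X)))
(N 2 (Bad 2)
(N 2 (P (B 0 (LE 0 2) (B 1 (LE 0 2) (S 1 (LD 8 2) (LD 7 2) (F 0 3 (F 0 5 (LE 5 1))) (LE 0 0) X X X))))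
(P (B 0 (L 0) (S 0 (L 5) (LD 4 1) (LD 3 1) (LE 0 0) (L 0) X X))))))
(Q 2 7 256 (Q 2 8 0 (P (B 0 (L 0) (S 0 (L 5) (LD 4 1) (LD 3 1) (F 1 6 (F 0 5 (L 5))) (L 0) X X)))
(N 2 (Bad 2)
(N 2 (P (B 0 (LE 0 2) (B 1 (LE 0 2) (B 5 (LD 5 2) (B 4 (LD 4 2) (F 0 2 (D 0)))))))
(P (B 0 (L 0) (S 0 (L 5) (LD 4 1) (LD 3 1) (LE 0 0) (L 0) X X))))))
(N 2 (Bad 2)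
(N 2 (Bad 2)
(N 2 (P (B 0 (LE 0 2) (S 0 (L 5) (LD 4 1) (LD 3 1) (LE 0 0) (L 0) X X)))
(P (B 0 (L 0) (S 0 (L 5) (LD 4 1) (LD 3 1) (LE 0 0) (L 0) X X))))))))))
(Q 5 6 384 (Q 2 6 0 (Q 2 7 256 (P (B 0 (L 0) (S 0 (LD 5 1) (L 4) (LD 3 1) (F 1 8 (LE 8 0)) (L 0) X X)))
(N 2 (Bad 2)
(N 2 (P (B 0 (LE 0 2) (B 1 (LE 0 2) (S 1 (LD 8 2) (LD 7 2) (F 0 3 (F 0 4 (LE 4 1))) (LE 0 0) X X X))))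
(P (B 0 (L 0) (S 0 (LD 5 1) (L 4) (LD 3 1) (LE 0 0) (L 0) X X))))))
(Q 2 7 256 (Q 2 8 0 (P (B 0 (L 0) (S 0 (LD 5 1) (L 4) (LD 3 1) (F 1 6 (F 0 4 (L 4))) (L 0) X X)))
(N 2 (Bad 2)
(N 2 (P (B 0 (LE 0 2) (B 1 (LE 0 2) (B 4 (LD 4 2) (B 5 (LD 5 2) (F 0 2 (D 0)))))))
(P (B 0 (L 0) (S 0 (LD 5 1) (L 4) (LD 3 1) (LE 0 0) (L 0) X X))))))
(N 2 (Bad 2)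
(N 2 (Bad 2)
(N 2 (P (B 0 (LE 0 2) (S 0 (LD 5 1) (L 4) (LD 3 1) (LE 0 0) (L 0) X X)))
(P (B 0 (L 0) (S 0 (LD 5 1) (L 4) (LD 3 1) (LE 0 0) (L 0) X X))))))))
(Q 2 6 384 (Q 2 7 256 (P (B 0 (L 0) (S 0 (L 5) (L 4) (LD 3 1) (F 1 8 (LE 8 0)) (L 0) X X)))
(N 2 (Bad 2)
(N 2 (P (B 0 (LE 0 2) (S 0 (L 5) (L 4) (LD 3 1) (LE 0 0) (LE 0 2) X X)))
(N 2 (Q 3 7 256 (P (B 1 (L 0) (S 1 (L 8) (LD 7 0) (LD 6 0) (LE 0 0) (L 0) X X)))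
(Q 4 5 0 (Q 3 4 32 (P (B 0 (L 0) (B 2 (LE 0 0) (B 5 (LD 5 1) (B 1 (LE 0 0) (F 0 3 (D 0)))))))
(P (B 0 (L 0) (B 3 (LD 3 1) (B 1 (B 4 (LE 4 2) (F 0 5 (LE 5 2))) (B 2 (LE 0 0) (F 0 4 (D 0))))))))
(Q 3 4 32 (P (B 0 (L 0) (B 2 (LE 0 0) (B 5 (LD 5 1) (B 1 (LE 0 0) (F 0 3 (D 0)))))))
(P (B 0 (L 0) (B 3 (LD 3 1) (B 4 (L 4) (B 1 (F 0 5 (LE 5 2)) (F 0 2 (F 0 5 (LE 5 1)))))))))))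
(P (B 0 (L 0) (S 0 (L 5) (L 4) (LD 3 1) (LE 0 0) (L 0) X X)))))))
(N 2 (Bad 2)
(N 2 (Bad 2)
(N 2 (Q 3 4 32 (P (B 0 (LE 0 2) (S 0 (L 5) (LD 4 2) (LD 3 1) (LE 0 0) (L 0) X X)))
(P (B 0 (LE 0 2) (B 3 (LD 3 1) (S 0 (LD 5 2) (LD 4 2) (LE 0 0) (B 4 (LE 4 2) (F 0 5 (LE 5 2))) X X X)))))
(N 2 (Q 3 4 32 (P (B 0 (L 0) (B 2 (LE 0 0) (B 5 (LD 5 1) (B 1 (LE 0 0) (F 0 3 (D 0)))))))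
(Q 4 5 0 (P (B 0 (L 0) (B 3 (LD 3 1) (B 1 (B 4 (L 4) (F 0 5 (L 5))) (B 2 (LE 0 0) (F 0 4 (D 0)))))))
(Q 3 6 384 (Q 3 7 256 (P (B 0 (L 0) (B 1 (L 0) (S 0 (LE 5 1) (LE 4 1) (D 1) (LE 0 0) X X X))))
(Q 4 9 3072 (P (B 0 (L 0) (B 3 (LD 3 1) (B 4 (LD 4 2) (B 5 (LE 5 0) (F 0 1 (D 0)))))))
(P (B 0 (L 0) (B 1 (L 0) (B 3 (F 1 7 (F 1 8 (LE 7 0))) (B 5 (LD 5 2) (F 0 2 (F 0 4 (L 4))))))))))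
(Q 3 9 3072 (Q 3 10 2048 (Q 3 11 0 (P (B 0 (L 0) (B 3 (F 2 1 (L 0)) (B 4 (L 4) (B 5 (LE 5 0) (F 0 1 (D 0)))))))
(N 3 (Bad 3)
(N 3 (P (B 0 (L 0) (B 2 (F 3 12 (LE 12 0)) (S 0 (LD 5 1) (LD 4 1) (LD 0 1) (LD 0 3) X X X))))
(P (B 0 (L 0) (B 3 (LD 0 1) (B 4 (L 4) (B 5 (LE 5 0) (F 0 1 (D 0))))))))))
(N 3 (Bad 3)
(N 3 (Bad 3)
(N 3 (P (B 0 (L 0) (B 1 (LD 0 3) (B 4 (LE 4 1) (B 5 (LE 5 0) (F 0 2 (D 0)))))))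
(P (B 0 (L 0) (B 3 (LD 0 1) (B 4 (L 4) (B 5 (LE 5 0) (F 0 1 (D 0)))))))))))
(N 3 (Bad 3)
(N 3 (Bad 3)
(N 3 (Bad 3)
(N 3 (P (B 0 (L 0) (B 1 (LD 0 3) (B 4 (LE 4 1) (B 5 (LE 5 0) (F 0 2 (D 0)))))))
(P (B 0 (L 0) (B 3 (LD 0 1) (B 4 (L 4) (B 5 (LE 5 0) (F 0 1 (D 0)))))))))))))))
(P (B 0 (L 0) (S 0 (L 5) (L 4) (LD 3 1) (LE 0 0) (L 0) X X)))))))))))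
(Q 2 6 384 (Q 2 7 256 (P (B 0 (L 0) (B 2 (F 1 8 (L 8)) (S 0 (LD 5 1) (LD 4 1) (LD 3 1) (L 0) X X X))))
(N 2 (Bad 2)
(N 2 (Bad 2)
(N 2 (Q 3 7 256 (P (B 1 (LE 0 2) (S 1 (L 8) (LD 7 0) (LD 6 0) (LE 0 1) (L 0) X X)))
(Q 3 9 1024 (P (B 2 (LE 0 1) (S 2 (L 10) (LD 9 0) (LD 6 0) (LE 0 2) (L 0) X X)))
(Q 4 7 256 (P (B 1 (LE 0 2) (S 1 (L 8) (LD 7 0) (LD 6 0) (LE 0 1) (L 0) X X)))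
(Q 4 9 1024 (P (B 2 (LE 0 1) (S 2 (L 10) (LD 9 0) (LD 6 0) (LE 0 2) (L 0) X X)))
(Q 5 7 256 (P (B 1 (LE 0 2) (S 1 (L 8) (LD 7 0) (LD 6 0) (LE 0 1) (L 0) X X)))
(Q 5 9 1024 (P (B 2 (LE 0 1) (S 2 (L 10) (LD 9 0) (LD 6 0) (LE 0 2) (L 0) X X)))
(Q 3 6 0 (P (B 0 (L 0) (B 1 (LE 0 2) (S 1 (LD 8 2) (LD 7 2) (F 0 4 (F 0 5 (LE 4 1))) (LE 0 1) X X X))))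
(Q 4 6 0 (P (B 0 (L 0) (B 1 (LE 0 2) (S 1 (LD 8 2) (LD 7 2) (F 0 3 (F 0 5 (LE 3 1))) (LE 0 1) X X X))))
(Q 5 6 0 (P (B 0 (L 0) (B 1 (LE 0 2) (S 1 (LD 8 2) (LD 7 2) (F 0 3 (F 0 4 (LE 3 1))) (LE 0 1) X X X))))
(Q 3 4 32 (Q 5 3 16 (P (B 0 (L 0) (S 0 (L 5) (L 4) (B 1 (LE 3 2) (F 0 2 (LE 3 1))) (LE 0 1) (LE 0 2) X X)))
(P (B 0 (L 0) (B 1 (LE 0 2) (B 5 (LD 5 2) (B 3 (F 0 2 (LE 3 1)) (F 0 2 (F 0 4 (LE 4 1)))))))))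
(P (B 1 (B 3 (LE 3 2) (B 4 (LE 4 2) (F 0 5 (LE 5 2)))) (S 1 (L 8) (L 7) (LD 6 0) (LE 0 1) (L 0) X X)))))))))))))
(N 2 (Q 3 7 256 (P (B 1 (L 0) (S 1 (L 8) (LD 7 0) (LD 6 0) (LE 0 1) (L 0) X X)))
(Q 4 5 0 (P (B 0 (L 0) (B 2 (LE 0 1) (B 3 (LD 3 1) (B 1 (LE 0 0) (F 0 4 (D 0)))))))
(Q 4 7 256 (P (B 1 (L 0) (S 1 (L 8) (LD 7 0) (LD 6 0) (LE 0 1) (L 0) X X)))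
(Q 5 7 256 (P (B 1 (L 0) (S 1 (L 8) (LD 7 0) (LD 6 0) (LE 0 1) (L 0) X X)))
(Q 3 4 32 (P (B 0 (L 0) (B 2 (LE 0 1) (B 5 (LD 5 1) (B 1 (LE 0 0) (F 0 3 (D 0)))))))
(Q 3 6 0 (P (B 0 (L 0) (B 1 (L 0) (S 1 (LE 8 0) (LE 7 0) (F 0 4 (F 0 5 (LE 4 1))) (LE 0 1) X X X))))
(Q 4 6 0 (P (B 0 (L 0) (B 1 (L 0) (S 1 (LE 8 0) (LE 7 0) (F 0 3 (F 0 5 (LE 3 1))) (LE 0 1) X X X))))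
(P (B 1 (B 3 (L 3) (B 4 (L 4) (F 0 5 (L 5)))) (S 1 (L 8) (L 7) (LD 6 0) (LE 0 1) (L 0) X X))))))))))
(P (B 0 (L 0) (B 2 (LE 0 1) (S 0 (LD 5 1) (LD 4 1) (LD 3 1) (L 0) X X X)))))))))
(N 2 (Bad 2)
(N 2 (Bad 2)
(N 2 (Bad 2)
(N 2 (Q 3 6 384 (Q 4 5 0 (Q 3 4 32 (Q 3 5 0 (P (B 1 (L 0) (B 0 (L 0) (B 3 (F 0 2 (LE 0 1)) (B 2 (LE 0 0) (F 0 4 (D 0)))))))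
(Q 3 7 256 (P (B 0 (L 0) (B 1 (L 0) (B 3 (F 1 2 (F 1 8 (L 0))) (B 2 (LE 0 0) (F 0 4 (D 0)))))))
(Q 5 7 256 (P (B 1 (L 0) (B 0 (L 0) (B 3 (B 2 (LE 0 1) (F 0 5 (D 1))) (B 2 (LE 0 0) (F 0 4 (D 0)))))))
(Q 5 6 0 (Q 4 6 0 (P (B 0 (L 0) (S 0 (LD 5 1) (LD 4 1) (LD 3 1) (B 6 (D 0) (LE 0 1)) (L 0) X X)))
(Q 3 9 3072 (Q 3 10 2048 (P (B 0 (L 0) (B 4 (LE 4 0) (B 1 (LE 0 0) (B 2 (B 6 (D 0) (LE 0 0)) (F 0 3 (D 2)))))))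
(N 3 (Bad 3)
(N 3 (P (B 0 (L 0) (B 3 (LD 0 1) (B 5 (F 3 9 (F 0 1 (F 3 12 (L 5)))) (B 4 (LE 4 0) (F 0 1 (D 0)))))))
(P (B 0 (L 0) (B 3 (LD 0 1) (B 1 (LE 0 0) (B 2 (LE 0 0) (F 0 4 (D 0))))))))))
(N 3 (Bad 3)
(N 3 (Bad 3)
(N 3 (P (B 0 (L 0) (B 3 (LD 0 1) (B 5 (F 3 12 (F 3 13 (LD 5 1))) (B 4 (LE 4 0) (F 0 1 (D 0)))))))
(P (B 0 (L 0) (B 3 (LD 0 1) (B 1 (LE 0 0) (B 2 (LE 0 0) (F 0 4 (D 0))))))))))))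
(Q 4 9 3072 (Q 4 10 2048 (P (B 0 (L 0) (B 3 (LD 3 1) (B 1 (B 4 (F 2 11 (L 0)) (F 0 5 (L 5))) (B 2 (LE 0 0) (F 0 4 (D 0)))))))
(Q 5 9 0 (P (B 0 (L 0) (B 3 (LD 3 1) (B 1 (B 9 (D 0) (LE 0 0)) (B 2 (LE 0 0) (F 0 4 (D 0)))))))
(Q 5 10 2048 (P (B 2 (L 0) (B 0 (L 0) (B 5 (B 1 (LE 5 2) (F 0 3 (F 1 7 (F 1 8 (F 2 9 (F 2 11 (L 5))))))) (B 1 (LE 0 0) (F 0 3 (D 0)))))))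
(N 5 (Bad 5)
(N 5 (Bad 5)
(N 5 (Bad 5)
(Q 4 12 24576 (P (B 0 (L 0) (B 3 (LD 3 1) (B 1 (B 4 (LE 0 2) (F 0 5 (L 0))) (B 2 (LE 0 0) (F 0 4 (D 0)))))))
(N 5 (Q 3 12 24576 (P (B 2 (L 0) (B 5 (B 1 (L 0) (F 0 3 (F 1 7 (F 1 8 (LE 0 2))))) (B 4 (F 0 1 (LE 0 2)) (B 0 (L 0) (F 0 1 (F 0 3 (F 5 13 (F 5 14 (L 3))))))))))
(P (B 0 (L 0) (B 1 (L 0) (B 5 (B 2 (L 0) (F 0 3 (F 1 7 (F 1 8 (LE 3 2))))) (B 2 (LE 0 0) (F 0 3 (D 0))))))))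
(P (B 0 (L 0) (B 3 (LD 3 1) (B 5 (B 1 (L 0) (F 0 2 (L 0))) (B 1 (F 0 4 (LE 0 2)) (F 0 2 (F 0 4 (L 4))))))))))))))))
(Q 5 9 3072 (P (B 2 (L 0) (B 0 (L 0) (B 5 (B 1 (LE 5 2) (F 0 3 (F 1 7 (F 1 8 (F 2 10 (F 2 11 (L 5))))))) (B 1 (LE 0 0) (F 0 3 (D 0)))))))
(N 5 (Bad 5)
(N 5 (Bad 5)
(N 5 (Bad 5)
(Q 4 6 0 (P (B 0 (L 0) (B 1 (L 0) (B 6 (F 0 2 (F 0 5 (L 0))) (B 2 (LE 0 1) (F 1 7 (F 1 8 (B 3 (F 0 5 (LE 0 2)) (F 0 4 (D 0))))))))))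
(Q 4 7 256 (P (B 0 (L 0) (B 3 (LD 3 1) (B 1 (LE 0 0) (B 4 (F 0 2 (LE 4 1)) (F 0 2 (F 0 5 (L 0))))))))
(P (B 0 (L 0) (B 3 (LD 3 1) (B 1 (B 4 (L 4) (F 0 5 (L 0))) (B 4 (F 0 2 (L 4)) (F 0 2 (F 0 5 (L 0)))))))))))))))))))
(Q 3 7 256 (P (B 0 (L 0) (B 1 (L 0) (B 3 (F 1 2 (F 1 8 (L 0))) (B 2 (LE 0 0) (F 0 4 (D 0)))))))
(Q 3 9 3072 (Q 3 10 2048 (P (B 0 (L 0) (B 2 (L 0) (B 3 (F 2 1 (F 2 11 (L 3))) (B 1 (LE 0 0) (F 0 4 (D 0)))))))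
(N 3 (Bad 3)
(N 3 (Bad 3)
(N 3 (P (B 0 (L 0) (B 3 (LD 0 1) (S 3 (LE 13 0) (LE 12 0) (B 1 (LE 0 0) (F 0 4 (D 0))) (B 2 (LE 0 0) (F 0 4 (D 0))) X X X))))
(P (B 0 (L 0) (B 3 (LD 0 1) (B 1 (LE 0 0) (B 2 (LE 0 0) (F 0 4 (D 0)))))))))))
(N 3 (Bad 3)
(N 3 (Bad 3)
(N 3 (Bad 3)
(N 3 (Q 4 7 256 (P (B 0 (L 0) (B 1 (LD 0 3) (B 3 (B 2 (LE 0 1) (F 1 7 (F 0 5 (F 1 8 (LE 0 2))))) (B 2 (LE 0 0) (F 0 4 (D 0)))))))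
(Q 5 7 256 (P (B 0 (L 0) (B 1 (LD 0 3) (B 3 (B 2 (LE 0 1) (F 1 7 (F 0 4 (F 1 8 (LE 0 2))))) (B 2 (LE 0 0) (F 0 4 (D 0)))))))
(Q 4 12 24576 (P (B 0 (L 0) (B 3 (LD 0 1) (B 1 (B 4 (F 3 13 (F 3 14 (L 4))) (F 0 5 (LE 5 3))) (B 2 (LE 0 0) (F 0 4 (D 0)))))))
(Q 5 12 24576 (P (B 0 (L 0) (B 3 (LD 0 1) (B 1 (B 4 (LE 4 3) (F 0 5 (F 3 13 (F 3 14 (L 5))))) (B 2 (LE 0 0) (F 0 4 (D 0)))))))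
(P (B 2 (L 0) (B 1 (LD 0 3) (B 3 (F 1 7 (F 1 8 (B 4 (LE 4 2) (F 0 5 (LE 5 2))))) (B 0 (L 0) (F 0 4 (D 0)))))))))))
(P (B 0 (L 0) (B 3 (LD 0 1) (B 1 (LE 0 0) (B 2 (LE 0 0) (F 0 4 (D 0))))))))))))))
(Q 3 7 256 (Q 3 8 0 (P (B 0 (L 0) (B 1 (L 0) (S 0 (LD 5 2) (LD 4 2) (D 1) (L 0) X X X))))
(Q 4 8 0 (Q 5 8 0 (P (B 0 (L 0) (S 0 (LD 5 1) (LD 4 1) (B 1 (L 3) (F 1 2 (F 1 8 (L 0)))) (B 3 (F 1 8 (L 0)) (B 8 (D 0) (LE 0 0))) (L 0) X X)))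
(Q 4 6 128 (P (B 0 (L 0) (B 1 (L 0) (B 3 (F 1 2 (F 1 8 (L 0))) (B 2 (LE 0 0) (F 0 4 (D 1)))))))
(Q 5 6 128 (P (B 0 (L 0) (B 4 (LD 4 1) (B 1 (LE 0 0) (B 2 (B 6 (D 0) (LE 0 0)) (F 0 3 (D 1)))))))
(Q 3 4 0 (Q 3 5 0 (Q 3 9 3072 (Q 3 10 2048 (P (B 0 (L 0) (B 3 (LD 0 1) (B 4 (LD 4 1) (B 5 (LE 5 0) (F 0 1 (D 0)))))))
(N 3 (P (B 0 (L 0) (B 1 (LD 0 3) (B 3 (F 0 2 (F 1 8 (L 0))) (B 2 (LE 0 0) (F 0 4 (F 0 5 (F 1 6 (F 1 7 (LE 5 2))))))))))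
(P (B 0 (L 0) (B 3 (LD 0 1) (B 4 (LD 4 1) (B 5 (LE 5 0) (F 0 1 (D 0)))))))))
(N 3 (P (B 0 (LE 0 3) (B 3 (LD 0 1) (B 2 (LE 0 0) (B 4 (LD 4 1) (F 0 1 (D 3)))))))
(P (B 0 (L 0) (B 1 (L 0) (B 3 (F 0 2 (F 1 8 (L 0))) (B 2 (LE 0 0) (F 0 4 (F 0 5 (F 1 6 (F 1 7 (LE 5 2))))))))))))
(Q 3 9 3072 (Q 4 9 0 (P (B 0 (L 0) (B 1 (L 0) (B 3 (F 1 2 (F 1 8 (L 0))) (B 2 (LE 0 0) (F 0 4 (F 0 5 (F 1 6 (F 1 7 (F 2 10 (F 2 11 (L 5))))))))))))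
(Q 3 10 2048 (P (B 0 (L 0) (B 4 (LD 4 1) (B 1 (B 5 (L 5) (F 0 3 (F 2 11 (L 0)))) (B 2 (LE 0 0) (F 0 3 (D 1)))))))
(N 3 (P (B 0 (L 0) (B 2 (LD 0 3) (B 3 (F 1 1 (LE 0 2)) (B 1 (F 3 4 (F 3 9 (L 4))) (F 0 4 (F 0 5 (F 1 6 (F 1 7 (LE 5 2))))))))))
(P (B 0 (L 0) (B 4 (LD 4 1) (B 3 (LD 0 1) (B 5 (LE 5 0) (F 0 1 (D 0))))))))))
(P (B 0 (L 0) (B 1 (L 0) (B 3 (F 1 2 (F 1 8 (L 3))) (B 2 (LE 0 0) (F 0 4 (F 0 5 (F 1 6 (F 1 7 (LE 5 2))))))))))))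
(Q 3 9 3072 (Q 3 5 0 (P (B 0 (L 0) (B 3 (B 1 (LE 0 2) (F 1 2 (F 1 8 (L 0)))) (B 4 (LD 4 1) (B 5 (LE 5 0) (F 0 1 (D 0)))))))
(P (B 0 (L 0) (B 3 (LD 3 1) (B 4 (LD 4 1) (B 5 (LE 5 0) (F 0 1 (D 0))))))))
(P (B 0 (L 0) (B 1 (L 0) (B 3 (F 1 2 (F 1 8 (L 3))) (B 2 (LE 0 0) (F 0 4 (F 0 5 (F 1 6 (F 1 7 (LE 4 2)))))))))))))))
(Q 5 8 0 (Q 4 6 128 (P (B 0 (L 0) (B 5 (LD 5 1) (B 1 (LE 0 0) (B 2 (B 6 (D 0) (LE 0 0)) (F 0 3 (D 1)))))))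
(Q 5 6 128 (P (B 0 (L 0) (B 1 (L 0) (B 3 (F 1 2 (F 1 8 (L 0))) (B 2 (LE 0 0) (F 0 4 (F 0 5 (D 1))))))))
(Q 3 4 0 (Q 4 9 3072 (P (B 2 (L 0) (B 0 (L 0) (B 4 (B 1 (LE 4 2) (F 0 5 (F 1 6 (F 1 7 (F 2 10 (F 2 11 (L 4))))))) (B 1 (LE 0 0) (F 0 3 (D 1)))))))
(P (B 0 (L 0) (B 5 (LD 5 1) (B 1 (LE 0 0) (B 3 (F 0 2 (F 1 8 (L 0))) (F 0 2 (F 0 4 (L 4)))))))))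
(Q 3 5 0 (Q 3 9 3072 (Q 5 9 0 (P (B 0 (L 0) (B 1 (L 0) (B 3 (F 1 2 (F 1 8 (L 0))) (B 2 (LE 0 0) (F 0 4 (F 0 5 (F 1 6 (F 1 7 (F 2 10 (F 2 11 (L 4))))))))))))
(Q 3 10 2048 (P (B 0 (L 0) (B 5 (LD 5 1) (B 1 (B 4 (L 4) (F 0 3 (F 2 11 (L 0)))) (B 2 (LE 0 0) (F 0 3 (D 1)))))))
(N 3 (P (B 0 (L 0) (B 2 (LD 0 3) (B 3 (F 1 1 (LE 0 2)) (B 1 (F 3 5 (F 3 9 (L 5))) (F 0 4 (F 0 5 (F 1 6 (F 1 7 (LE 4 2))))))))))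
(P (B 0 (L 0) (B 5 (LD 5 1) (B 3 (LD 0 1) (B 4 (LE 4 0) (F 0 1 (D 0))))))))))
(P (B 0 (L 0) (B 1 (L 0) (B 3 (F 1 2 (F 1 8 (L 3))) (B 2 (LE 0 0) (F 0 4 (F 0 5 (F 1 6 (F 1 7 (LE 4 2)))))))))))
(P (B 0 (L 0) (B 3 (LD 3 1) (B 5 (LD 5 1) (B 4 (LE 4 0) (F 0 1 (D 0)))))))))))
(Q 3 4 32 (Q 3 5 0 (Q 3 9 3072 (Q 3 10 2048 (Q 3 11 0 (P (B 0 (L 0) (S 0 (L 5) (L 4) (F 2 2 (F 1 8 (L 0))) (L 0) (L 0) X X)))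
(N 3 (Q 4 6 128 (P (B 0 (L 0) (B 4 (LD 4 1) (B 3 (LD 0 1) (B 5 (LE 5 0) (F 0 1 (D 0)))))))
(Q 5 6 128 (P (B 0 (L 0) (B 5 (LD 5 1) (B 1 (B 3 (F 2 11 (L 0)) (F 0 4 (LE 4 3))) (B 2 (LD 0 3) (F 0 3 (D 0)))))))
(P (B 0 (L 0) (S 0 (L 5) (L 4) (LD 0 1) (L 0) (B 3 (F 2 11 (L 0)) (B 4 (L 4) (F 0 5 (LE 5 3)))) X X)))))
(P (B 0 (L 0) (B 3 (LD 0 1) (B 4 (L 4) (B 5 (LE 5 0) (F 0 1 (D 0)))))))))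
(N 3 (P (B 0 (L 0) (B 1 (LD 0 3) (S 0 (LD 5 2) (LD 4 2) (F 0 2 (F 1 8 (L 0))) (L 0) X X X))))
(P (B 0 (L 0) (S 0 (L 5) (L 4) (B 1 (LE 0 2) (F 0 2 (F 1 8 (L 0)))) (L 0) (L 0) X X)))))
(N 3 (P (B 0 (LE 0 3) (B 2 (L 0) (B 3 (F 0 1 (L 0)) (B 4 (LD 4 1) (F 0 1 (D 3)))))))
(N 3 (P (B 0 (L 0) (B 1 (LD 0 3) (S 0 (LD 5 2) (LD 4 2) (F 0 2 (F 1 8 (L 0))) (L 0) X X X))))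
(P (B 0 (L 0) (S 0 (L 5) (L 4) (LD 0 1) (B 3 (F 1 8 (L 0)) (LE 0 0)) (L 0) X X))))))
(Q 3 9 3072 (Q 3 10 2048 (P (B 0 (L 0) (B 3 (LD 0 1) (B 5 (L 5) (B 4 (LE 4 0) (F 0 1 (D 0)))))))
(N 3 (P (B 0 (L 0) (B 2 (LD 0 3) (B 3 (F 1 1 (LE 0 2)) (B 4 (LD 4 1) (F 0 1 (D 3)))))))
(P (B 0 (L 0) (B 3 (LD 0 1) (B 5 (L 5) (B 4 (LE 4 0) (F 0 1 (D 0)))))))))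
(N 3 (Bad 3)
(N 3 (P (B 0 (L 0) (B 2 (L 0) (B 3 (F 1 1 (L 0)) (B 4 (LD 4 1) (F 0 1 (D 3)))))))
(P (B 0 (L 0) (B 3 (LD 0 1) (B 5 (L 5) (B 4 (LE 4 0) (F 0 1 (D 0)))))))))))
(Q 3 9 3072 (Q 4 10 2048 (P (B 0 (L 0) (B 3 (LD 3 1) (B 4 (LD 4 2) (B 5 (LE 5 0) (F 0 1 (D 0)))))))
(Q 5 10 2048 (P (B 0 (L 0) (B 3 (LD 3 1) (B 5 (LD 5 2) (B 4 (LE 4 0) (F 0 1 (D 0)))))))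
(Q 4 6 128 (P (B 0 (L 0) (B 3 (LD 3 1) (B 4 (LD 4 1) (B 5 (LE 5 0) (F 0 1 (D 0)))))))
(Q 5 6 128 (P (B 0 (L 0) (B 3 (LD 3 1) (B 5 (LD 5 1) (B 1 (F 0 4 (L 4)) (F 0 2 (F 0 4 (L 4))))))))
(P (B 0 (L 0) (B 3 (LD 3 1) (B 4 (L 4) (B 1 (F 0 5 (L 5)) (F 0 2 (F 0 5 (L 5))))))))))))
(P (B 0 (L 0) (B 3 (B 1 (L 3) (F 1 2 (F 1 8 (L 3)))) (B 4 (L 4) (B 5 (LE 5 0) (F 0 1 (D 0))))))))))))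
(Q 4 6 0 (Q 5 6 0 (P (B 0 (L 0) (S 0 (LD 5 1) (LD 4 1) (LD 3 1) (B 6 (D 0) (LE 0 1)) (L 0) X X)))
(Q 5 9 3072 (Q 3 4 0 (P (B 0 (L 0) (B 5 (LD 5 2) (B 1 (LE 0 0) (B 2 (B 6 (D 0) (LE 0 0)) (F 0 3 (D 0)))))))
(Q 3 5 0 (Q 3 9 0 (P (B 0 (L 0) (B 4 (LD 4 1) (B 1 (B 9 (D 0) (LE 0 0)) (B 2 (LE 0 0) (F 0 3 (D 0)))))))
(Q 3 10 2048 (Q 3 11 0 (P (B 0 (L 0) (B 5 (LD 5 2) (B 1 (LE 0 0) (B 2 (B 6 (D 0) (LE 0 0)) (F 0 3 (D 2)))))))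
(N 3 (Bad 3)
(N 3 (P (B 0 (L 0) (B 1 (LD 0 3) (B 3 (B 2 (LE 0 1) (F 0 4 (F 1 7 (F 1 8 (F 2 9 (F 2 11 (L 4))))))) (B 5 (LD 5 2) (F 0 2 (F 0 4 (D 3))))))))
(P (B 0 (L 0) (B 4 (LD 4 1) (B 3 (LD 0 1) (B 5 (LD 5 2) (F 0 1 (D 0))))))))))
(P (B 0 (L 0) (B 4 (LD 4 1) (B 3 (B 1 (L 3) (F 0 2 (LE 3 1))) (B 5 (LD 5 2) (F 0 1 (D 0)))))))))
(P (B 0 (L 0) (B 3 (LD 3 1) (B 4 (LD 4 1) (B 5 (LD 5 2) (F 0 1 (D 0)))))))))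
(Q 4 7 256 (P (B 0 (L 0) (B 1 (L 0) (B 6 (F 0 2 (F 0 5 (L 5))) (B 2 (LE 0 1) (F 1 7 (F 0 3 (F 0 5 (F 1 8 (LE 5 2))))))))))
(Q 5 7 256 (P (B 1 (L 0) (B 0 (L 0) (B 6 (F 0 2 (F 0 5 (L 5))) (B 2 (LE 0 1) (F 1 7 (F 0 3 (F 0 4 (F 1 8 (LE 4 2))))))))))
(Q 3 5 0 (N 5 (Bad 5)
(N 5 (Bad 5)
(N 5 (Bad 5)
(N 5 (Q 4 12 24576 (Q 4 13 16384 (P (B 0 (L 0) (B 3 (LD 3 1) (B 1 (B 5 (L 0) (F 0 4 (D 5))) (B 5 (LD 0 2) (F 0 2 (F 0 4 (D 5))))))))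
(Q 4 9 3072 (P (B 0 (L 0) (B 3 (LD 3 1) (B 1 (B 5 (L 0) (F 0 4 (F 5 13 (F 5 14 (LE 0 2))))) (B 2 (B 5 (L 0) (F 0 4 (F 5 13 (F 5 14 (LE 0 1))))) (F 0 4 (F 0 5 (F 1 7 (F 1 8 (F 2 10 (F 2 11 (L 0))))))))))))
(P (B 0 (L 0) (B 3 (LD 3 1) (B 1 (B 5 (L 0) (F 0 4 (F 5 13 (F 5 14 (L 4))))) (B 5 (B 2 (L 0) (F 0 4 (F 1 7 (F 1 8 (LE 4 2))))) (F 0 2 (F 0 4 (F 5 13 (F 5 14 (LE 4 1))))))))))))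
(Q 3 4 0 (P (B 0 (L 0) (B 1 (L 0) (B 6 (F 0 2 (F 0 5 (L 0))) (B 2 (LE 0 1) (F 1 7 (F 1 8 (B 3 (D 0) (F 0 4 (F 0 5 (LE 4 2)))))))))))
(P (B 0 (L 0) (B 3 (LD 3 1) (B 4 (LD 4 1) (B 1 (F 0 5 (L 0)) (F 0 2 (F 0 5 (L 0))))))))))
(P (B 0 (L 0) (B 4 (LD 4 1) (B 5 (B 1 (L 0) (F 0 2 (L 0))) (B 1 (F 0 3 (L 3)) (F 0 2 (F 0 3 (LE 0 1))))))))))))
(N 5 (Bad 5)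
(N 5 (Bad 5)
(N 5 (Bad 5)
(N 5 (Bad 5)
(N 5 (Q 3 4 0 (P (B 0 (L 0) (B 1 (L 0) (B 6 (F 0 2 (F 0 5 (L 0))) (B 2 (LE 0 1) (F 1 7 (F 1 8 (B 5 (LE 0 0) (F 0 3 (D 0))))))))))
(P (B 0 (L 0) (B 3 (LD 3 1) (B 4 (LD 4 1) (B 1 (F 0 5 (L 0)) (F 0 2 (F 0 5 (L 0)))))))))
(P (B 0 (L 0) (B 5 (L 0) (S 0 (LD 4 1) (LD 3 1) (LE 0 0) (LE 0 0) X X X))))))))))))))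
(Q 4 7 256 (Q 5 8 0 (P (B 2 (L 0) (B 0 (L 0) (B 3 (B 1 (L 3) (F 1 7 (F 0 5 (D 1)))) (B 1 (LE 0 0) (F 0 4 (F 0 5 (D 1))))))))
(Q 4 8 0 (Q 3 5 0 (P (B 0 (L 0) (B 1 (L 0) (B 4 (F 1 2 (F 1 6 (L 0))) (B 2 (LE 0 0) (F 0 3 (D 0)))))))
(Q 5 7 0 (P (B 0 (L 0) (B 3 (LD 3 1) (B 1 (LE 0 0) (B 2 (B 7 (D 0) (LE 0 0)) (F 0 4 (D 1)))))))
(Q 5 9 3072 (Q 5 10 2048 (P (B 1 (L 0) (B 6 (LD 6 0) (B 0 (LE 0 1) (B 2 (B 4 (D 1) (LE 0 0)) (F 1 7 (F 0 3 (F 0 5 (D 2)))))))))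
(Q 5 6 0 (P (B 0 (L 0) (B 3 (LD 3 1) (B 1 (LE 0 0) (B 4 (F 1 2 (F 1 6 (L 0))) (F 0 2 (F 0 5 (LE 5 1))))))))
(P (B 0 (L 0) (B 3 (LD 3 1) (B 5 (B 1 (LE 5 2) (B 2 (L 5) (F 0 4 (D 1)))) (B 4 (LD 4 1) (F 0 1 (D 0)))))))))
(P (B 0 (L 0) (B 3 (LD 3 1) (B 1 (LE 0 0) (B 2 (B 5 (L 5) (F 0 4 (F 1 6 (L 0)))) (F 0 4 (D 1))))))))))
(Q 5 6 0 (Q 3 5 0 (P (B 0 (L 0) (B 4 (LD 4 1) (B 1 (LE 0 0) (B 2 (B 6 (D 0) (LE 0 0)) (F 0 3 (D 0)))))))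
(Q 5 7 0 (P (B 0 (L 0) (B 3 (LD 3 1) (B 1 (LE 0 0) (B 2 (B 7 (D 0) (LE 0 0)) (F 0 4 (F 0 5 (D 1))))))))
(Q 4 9 3072 (Q 5 9 0 (P (B 0 (L 0) (B 3 (LD 3 1) (B 1 (B 9 (D 0) (LE 0 0)) (B 2 (LE 0 0) (F 0 4 (F 0 5 (D 1))))))))
(Q 5 10 2048 (Q 4 11 0 (P (B 0 (L 0) (B 3 (LD 3 1) (B 1 (B 4 (F 2 10 (L 0)) (F 0 5 (LE 5 2))) (B 2 (LE 0 0) (F 0 4 (D 2)))))))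
(Q 5 11 0 (P (B 0 (L 0) (B 4 (LD 4 1) (B 1 (LE 0 0) (B 2 (B 6 (D 0) (LE 0 0)) (F 0 3 (F 0 5 (D 2))))))))
(Q 4 10 0 (P (B 0 (L 0) (B 3 (LD 3 1) (B 1 (B 10 (D 0) (LE 0 0)) (B 2 (LE 0 0) (F 0 4 (D 2)))))))
(P (B 0 (L 0) (B 3 (LD 3 1) (B 1 (B 5 (LE 5 2) (F 0 4 (LE 4 2))) (B 2 (B 5 (LE 5 1) (F 0 4 (LE 4 1))) (F 0 4 (F 0 5 (D 1)))))))))))
(P (B 0 (L 0) (B 3 (LD 3 1) (B 5 (B 2 (LE 5 1) (B 1 (L 5) (F 0 4 (D 1)))) (B 4 (LD 4 1) (F 0 1 (D 0)))))))))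
(P (B 0 (L 0) (B 4 (B 2 (LE 4 1) (B 1 (L 4) (F 1 6 (D 0)))) (B 5 (LD 5 1) (B 3 (LD 3 1) (F 0 1 (D 0))))))))))
(Q 5 7 0 (Q 3 4 32 (Q 3 9 3072 (Q 3 10 2048 (Q 3 11 0 (P (B 0 (L 0) (B 4 (LD 4 1) (B 1 (B 3 (D 2) (F 0 5 (L 5))) (B 2 (LE 0 0) (F 0 3 (D 2)))))))
(Q 3 5 0 (P (B 0 (L 0) (S 0 (LD 5 1) (LD 4 1) (LD 0 1) (L 0) (L 0) X X)))
(N 3 (P (B 0 (L 0) (B 1 (LD 0 3) (B 3 (F 2 2 (LE 0 1)) (B 4 (LD 4 2) (F 0 2 (D 3)))))))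
(P (B 0 (L 0) (B 3 (LD 0 1) (B 5 (LD 5 1) (B 4 (LD 4 1) (F 0 1 (D 0))))))))))
(P (B 1 (L 0) (B 0 (L 0) (B 3 (B 2 (LE 3 1) (F 0 5 (D 1))) (B 2 (B 7 (D 0) (LE 0 0)) (F 0 4 (F 0 5 (F 1 6 (F 1 8 (LE 8 2)))))))))))
(P (B 0 (L 0) (S 0 (LD 5 1) (LD 4 1) (B 2 (LE 3 1) (B 1 (L 3) (F 0 5 (D 1)))) (L 0) (L 0) X X))))
(P (B 0 (L 0) (B 3 (LD 3 1) (B 4 (LD 4 1) (B 5 (LD 5 1) (F 0 1 (D 0))))))))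
(Q 5 9 3072 (Q 4 10 2048 (P (B 2 (L 0) (B 0 (L 0) (B 5 (B 1 (LE 5 2) (F 2 10 (F 0 3 (F 1 7 (F 1 8 (F 2 11 (L 5))))))) (B 1 (LE 0 0) (F 0 3 (F 0 4 (D 1))))))))
(Q 5 10 2048 (P (B 0 (L 0) (B 4 (B 2 (LE 4 1) (B 1 (L 4) (F 1 6 (F 0 5 (D 2))))) (B 1 (B 3 (L 3) (F 0 5 (F 2 11 (L 5)))) (B 2 (LE 0 0) (F 0 3 (F 0 5 (D 2))))))))
(Q 3 4 0 (Q 3 5 0 (P (B 2 (L 0) (B 0 (L 0) (B 5 (B 1 (LE 5 2) (F 0 4 (F 1 6 (F 1 8 (F 2 10 (F 2 11 (L 5))))))) (B 1 (LE 0 0) (F 0 3 (D 0)))))))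
(N 5 (Bad 5)
(N 5 (Bad 5)
(N 5 (Bad 5)
(N 5 (P (B 0 (L 0) (B 2 (LD 0 5) (B 5 (B 1 (LE 0 2) (F 2 10 (F 2 11 (B 3 (F 1 7 (F 1 8 (L 0))) (F 0 4 (F 1 6 (F 1 8 (L 0)))))))) (B 3 (F 0 1 (LE 3 5)) (F 0 1 (F 0 4 (LE 4 5))))))))
(P (B 0 (L 0) (B 5 (LD 0 2) (B 3 (LD 3 1) (B 1 (F 0 4 (L 4)) (F 0 2 (F 0 4 (LE 4 1)))))))))))))
(P (B 0 (L 0) (B 3 (LD 3 1) (B 4 (LD 4 1) (B 1 (F 0 5 (LE 5 2)) (F 0 2 (F 0 5 (L 5)))))))))))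
(Q 3 5 0 (N 5 (Bad 5)
(N 5 (Bad 5)
(N 5 (Bad 5)
(N 5 (P (B 2 (L 0) (B 1 (L 0) (B 5 (F 0 4 (F 1 6 (F 1 8 (LE 0 2)))) (B 0 (L 0) (F 0 3 (F 0 4 (D 1))))))))
(P (B 0 (L 0) (B 4 (LD 4 1) (B 5 (B 1 (L 0) (F 0 2 (L 0))) (B 1 (F 0 3 (L 3)) (F 0 2 (F 0 3 (LE 0 1))))))))))))
(N 5 (Bad 5)
(N 5 (Bad 5)
(N 5 (Bad 5)
(N 5 (Bad 5)
(N 5 (Q 4 9 3072 (Q 4 10 2048 (P (B 0 (L 0) (B 3 (LD 3 1) (B 1 (B 5 (L 0) (F 0 4 (F 2 11 (LE 0 5)))) (B 2 (LE 0 0) (F 0 4 (D 2)))))))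
(Q 3 4 0 (Q 4 12 57344 (Q 4 13 49152 (P (B 0 (L 0) (B 3 (LD 3 1) (B 1 (B 5 (L 0) (F 0 4 (F 5 14 (F 5 15 (LE 0 2))))) (B 5 (LD 0 2) (F 0 2 (F 0 4 (F 5 14 (F 5 15 (LE 0 1))))))))))
(N 4 (P (B 0 (L 0) (B 3 (LD 3 1) (B 1 (B 4 (LD 0 5) (F 0 5 (D 4))) (B 4 (LD 0 2) (F 0 2 (F 0 5 (D 4))))))))
(P (B 0 (L 0) (B 3 (LD 3 1) (B 4 (LD 0 1) (B 1 (F 0 5 (L 0)) (F 0 2 (F 0 5 (L 0))))))))))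
(P (B 0 (L 0) (B 3 (LD 3 1) (B 1 (B 5 (L 0) (F 0 4 (LE 4 2))) (B 2 (B 5 (L 0) (F 0 4 (LE 4 1))) (F 0 4 (F 0 5 (F 1 6 (F 1 8 (F 2 10 (F 2 11 (L 4)))))))))))))
(P (B 0 (L 0) (B 3 (LD 3 1) (B 4 (LD 4 1) (B 1 (F 0 5 (L 0)) (F 0 2 (F 0 5 (L 0))))))))))
(Q 3 4 0 (Q 4 12 57344 (Q 4 13 49152 (P (B 0 (L 0) (B 3 (LD 3 1) (B 5 (L 0) (B 1 (F 0 4 (F 5 14 (F 5 15 (L 0)))) (F 0 2 (F 0 4 (F 5 14 (F 5 15 (LE 0 1))))))))))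
(P (B 0 (L 0) (B 3 (LD 3 1) (B 1 (B 5 (L 0) (F 0 4 (LE 4 5))) (B 5 (B 2 (L 0) (F 0 4 (F 1 6 (F 1 8 (LE 4 2))))) (F 0 2 (F 0 4 (LE 4 1)))))))))
(P (B 0 (L 0) (B 3 (LD 3 1) (B 1 (B 5 (L 0) (F 0 4 (LE 4 5))) (B 5 (B 2 (L 0) (F 0 4 (F 1 6 (F 1 8 (LE 4 2))))) (F 0 2 (F 0 4 (LE 4 1)))))))))
(P (B 0 (L 0) (B 3 (LD 3 1) (B 4 (LD 4 1) (B 1 (F 0 5 (L 0)) (F 0 2 (F 0 5 (L 0))))))))))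
(P (B 0 (L 0) (B 5 (L 0) (B 1 (LE 0 0) (B 2 (LE 0 0) (F 0 3 (F 0 4 (D 1)))))))))))))))))))
(Q 4 9 3072 (Q 5 6 0 (Q 3 4 0 (Q 3 5 0 (P (B 0 (L 0) (B 4 (LD 4 2) (B 1 (LE 0 0) (B 2 (B 6 (D 0) (LE 0 0)) (F 0 3 (D 0)))))))
(P (B 0 (L 0) (B 5 (LD 5 1) (B 1 (B 3 (L 3) (F 0 4 (LE 4 2))) (B 2 (LE 0 0) (F 0 3 (D 0))))))))
(Q 5 10 2048 (Q 5 9 0 (P (B 0 (L 0) (B 4 (LD 4 2) (B 1 (LE 0 0) (B 2 (B 6 (D 0) (LE 0 0)) (F 0 3 (F 0 5 (D 2))))))))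
(Q 5 11 0 (P (B 0 (L 0) (B 3 (LD 3 1) (B 1 (B 5 (F 2 9 (L 0)) (F 0 4 (LE 4 2))) (B 2 (LE 0 0) (F 0 4 (F 0 5 (D 2))))))))
(Q 4 10 0 (P (B 0 (L 0) (B 3 (LD 3 1) (B 1 (B 10 (D 0) (LE 0 0)) (B 2 (LE 0 0) (F 0 4 (D 2)))))))
(Q 4 11 0 (P (B 0 (L 0) (B 4 (B 1 (F 2 10 (L 4)) (F 2 2 (L 4))) (S 0 (LD 5 1) (LD 3 1) (LE 0 0) (LE 0 0) X X X))))
(P (B 0 (L 0) (B 3 (LD 3 1) (B 4 (B 1 (LE 4 2) (B 2 (L 4) (F 0 5 (D 2)))) (B 5 (LD 5 1) (F 0 1 (D 0)))))))))))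
(Q 4 10 2048 (P (B 0 (L 0) (B 5 (LD 5 1) (B 1 (B 4 (F 2 11 (L 4)) (F 0 3 (L 3))) (B 2 (LE 0 0) (F 0 3 (F 0 4 (D 2))))))))
(N 4 (Bad 4)
(N 4 (Bad 4)
(N 4 (Bad 4)
(N 4 (Q 3 5 0 (P (B 0 (L 0) (B 2 (LD 0 4) (B 4 (B 1 (LE 0 2) (F 2 10 (F 2 11 (B 6 (D 0) (F 1 7 (F 1 8 (LE 0 0))))))) (B 1 (LE 0 0) (F 0 3 (D 0)))))))
(P (B 0 (L 0) (B 3 (LD 3 1) (B 4 (LD 0 2) (B 5 (LD 5 1) (F 0 1 (D 0))))))))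
(P (B 0 (L 0) (B 4 (LD 0 2) (S 0 (LD 5 1) (LD 3 1) (LE 0 0) (LE 0 0) X X X)))))))))))
(Q 5 7 256 (Q 3 4 0 (P (B 2 (L 0) (B 0 (L 0) (B 4 (B 1 (LE 4 2) (F 0 5 (F 1 6 (F 1 8 (F 2 10 (F 2 11 (L 4))))))) (B 1 (LE 0 0) (F 0 3 (F 0 5 (D 1))))))))
(Q 5 10 2048 (P (B 2 (L 0) (B 0 (L 0) (B 4 (B 1 (LE 4 2) (F 2 10 (F 0 3 (F 1 7 (F 1 8 (F 2 11 (L 4))))))) (B 1 (LE 0 0) (F 0 3 (F 0 5 (D 1))))))))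
(Q 3 5 0 (Q 4 10 2048 (P (B 0 (L 0) (B 5 (LD 5 1) (B 1 (B 4 (F 2 11 (L 4)) (F 0 3 (L 3))) (B 2 (LE 0 0) (F 0 3 (F 0 4 (D 2))))))))
(N 4 (Bad 4)
(N 4 (Bad 4)
(N 4 (Bad 4)
(N 4 (P (B 1 (L 0) (B 2 (LD 0 4) (B 4 (F 2 10 (F 2 11 (B 3 (F 1 7 (F 1 8 (L 0))) (F 0 5 (F 1 6 (F 1 8 (L 0))))))) (B 0 (L 0) (F 0 3 (D 0)))))))
(P (B 0 (L 0) (B 4 (LD 0 2) (B 1 (LE 0 0) (B 2 (LE 0 0) (F 0 3 (D 0))))))))))))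
(P (B 0 (L 0) (B 3 (LD 3 1) (B 4 (LD 4 2) (B 5 (LD 5 1) (F 0 1 (D 0))))))))))
(Q 4 10 2048 (P (B 0 (L 0) (B 3 (LD 3 1) (B 1 (B 4 (F 2 11 (L 4)) (F 0 5 (L 5))) (B 2 (LE 0 0) (F 0 4 (D 2)))))))
(Q 5 10 2048 (P (B 0 (L 0) (B 3 (LD 3 1) (B 1 (B 4 (LE 4 2) (F 0 5 (LE 5 2))) (B 2 (LE 0 0) (F 0 4 (F 0 5 (D 2))))))))
(Q 5 9 0 (Q 3 4 32 (Q 3 9 0 (P (B 0 (L 0) (S 0 (LD 5 2) (LD 4 2) (LD 3 1) (L 0) (B 9 (D 0) (LE 0 2)) X X)))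
(N 4 (Bad 4)
(N 4 (Bad 4)
(N 4 (P (B 0 (L 0) (B 3 (LD 3 1) (B 4 (LD 0 2) (B 1 (F 0 5 (F 4 12 (F 4 13 (LE 5 2)))) (F 0 2 (F 0 5 (F 4 12 (F 4 13 (L 5))))))))))
(P (B 0 (L 0) (S 0 (LD 5 2) (LD 0 2) (LD 3 1) (L 0) (L 0) X X)))))))
(P (B 0 (L 0) (B 3 (LD 3 1) (B 4 (LD 4 2) (B 1 (F 0 5 (LE 5 2)) (F 0 2 (F 0 5 (L 5)))))))))
(Q 3 5 0 (N 5 (Bad 5)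
(N 5 (Bad 5)
(N 5 (Bad 5)
(N 5 (Q 4 12 24576 (Q 4 13 16384 (P (B 0 (L 0) (B 3 (LD 3 1) (B 1 (B 5 (L 0) (F 0 4 (D 5))) (B 5 (LD 0 2) (F 0 2 (F 0 4 (D 5))))))))
(P (B 0 (L 0) (B 3 (LD 3 1) (B 1 (B 5 (L 0) (F 0 4 (F 5 13 (F 5 14 (LE 4 2))))) (B 2 (B 5 (L 0) (F 0 4 (F 5 13 (F 5 14 (L 4))))) (F 0 4 (F 0 5 (F 2 10 (F 2 11 (LE 4 1)))))))))))
(Q 3 4 0 (P (B 0 (L 0) (B 1 (L 0) (S 0 (B 2 (L 0) (F 0 4 (F 2 10 (F 2 11 (LE 4 1))))) (B 2 (LD 4 5) (F 0 5 (F 2 10 (F 2 11 (LE 4 1))))) (F 0 2 (LE 0 1)) (L 0) X X X))))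
(P (B 0 (L 0) (B 3 (LD 3 1) (B 4 (LD 4 2) (B 1 (F 0 5 (L 0)) (F 0 2 (F 0 5 (L 0))))))))))
(P (B 0 (L 0) (B 4 (LD 4 2) (B 5 (B 1 (L 0) (F 0 2 (L 0))) (B 1 (F 0 3 (L 3)) (F 0 2 (F 0 3 (LE 0 1))))))))))))
(N 5 (Bad 5)
(N 5 (Bad 5)
(N 5 (Bad 5)
(N 5 (Bad 5)
(N 5 (Q 3 4 0 (Q 4 12 57344 (Q 4 13 49152 (P (B 0 (L 0) (B 3 (LD 3 1) (B 5 (L 0) (B 1 (F 0 4 (F 5 14 (F 5 15 (LE 0 2)))) (F 0 2 (F 0 4 (F 5 14 (F 5 15 (L 0))))))))))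
(P (B 0 (L 0) (B 3 (LD 3 1) (B 1 (B 5 (L 0) (F 0 4 (LE 4 2))) (B 2 (B 5 (L 0) (F 0 4 (LE 4 5))) (F 0 4 (F 0 5 (F 2 10 (F 2 11 (LE 4 1)))))))))))
(P (B 0 (L 0) (B 3 (LD 3 1) (B 1 (B 5 (L 0) (F 0 4 (LE 4 2))) (B 2 (B 5 (L 0) (F 0 4 (LE 4 5))) (F 0 4 (F 0 5 (F 2 10 (F 2 11 (LE 4 1)))))))))))
(P (B 0 (L 0) (B 3 (LD 3 1) (B 4 (LD 4 2) (B 1 (F 0 5 (L 0)) (F 0 2 (F 0 5 (L 0)))))))))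
(P (B 0 (L 0) (B 5 (L 0) (B 3 (LD 3 1) (B 1 (F 0 4 (LE 4 2)) (F 0 2 (F 0 4 (L 4)))))))))))))))))))
(Q 5 6 0 (Q 5 7 256 (P (B 0 (L 0) (B 1 (L 0) (B 6 (F 0 2 (F 0 4 (L 4))) (B 2 (LE 0 1) (F 1 7 (F 0 3 (F 0 4 (F 1 8 (LE 4 2))))))))))
(Q 3 4 0 (N 4 (Bad 4)
(N 4 (Bad 4)
(N 4 (Bad 4)
(N 4 (Q 5 12 24576 (Q 5 13 16384 (P (B 0 (L 0) (B 3 (LD 3 1) (B 1 (B 4 (L 0) (F 0 5 (D 4))) (B 4 (LD 0 2) (F 0 2 (F 0 5 (D 4))))))))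
(Q 5 9 3072 (P (B 0 (L 0) (B 3 (LD 3 1) (B 1 (B 4 (L 0) (F 0 5 (F 4 13 (F 4 14 (LE 0 2))))) (B 2 (B 4 (L 0) (F 0 5 (F 4 13 (F 4 14 (LE 0 1))))) (F 0 4 (F 0 5 (F 1 7 (F 1 8 (F 2 10 (F 2 11 (L 0))))))))))))
(P (B 0 (L 0) (B 3 (LD 3 1) (B 1 (B 4 (L 0) (F 0 5 (F 4 13 (F 4 14 (L 5))))) (B 4 (B 2 (L 0) (F 0 5 (F 1 7 (F 1 8 (LE 5 2))))) (F 0 2 (F 0 5 (F 4 13 (F 4 14 (LE 5 1))))))))))))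
(Q 3 5 0 (P (B 0 (L 0) (B 1 (L 0) (B 4 (B 2 (L 0) (F 0 5 (F 1 7 (F 1 8 (LE 5 2))))) (B 2 (LE 0 0) (F 0 3 (D 0)))))))
(P (B 0 (L 0) (B 3 (LD 3 1) (B 5 (LD 5 1) (B 1 (F 0 4 (L 0)) (F 0 2 (F 0 4 (L 0))))))))))
(P (B 0 (L 0) (B 5 (LD 5 1) (B 4 (B 1 (L 0) (F 0 2 (L 0))) (B 1 (F 0 3 (L 3)) (F 0 2 (F 0 3 (LE 0 1))))))))))))
(N 4 (Bad 4)
(N 4 (Bad 4)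
(N 4 (Bad 4)
(N 4 (Bad 4)
(N 4 (Q 3 5 0 (P (B 0 (L 0) (B 1 (L 0) (B 6 (F 0 2 (F 0 4 (L 0))) (B 2 (LE 0 1) (F 1 7 (F 1 8 (B 4 (LE 0 0) (F 0 3 (D 0))))))))))
(P (B 0 (L 0) (B 3 (LD 3 1) (B 5 (LD 5 1) (B 1 (F 0 4 (L 0)) (F 0 2 (F 0 4 (L 0)))))))))
(P (B 0 (L 0) (B 4 (L 0) (S 0 (LD 5 1) (LD 3 1) (LE 0 0) (LE 0 0) X X X)))))))))))
(Q 5 7 256 (Q 5 8 0 (Q 3 4 0 (P (B 0 (L 0) (B 1 (L 0) (S 0 (F 1 2 (F 1 6 (L 0))) (B 2 (L 4) (F 0 5 (D 1))) (LD 3 2) (L 0) X X X))))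
(P (B 0 (L 0) (B 3 (LD 3 1) (B 1 (LE 0 0) (B 2 (B 4 (L 4) (F 0 5 (F 1 6 (L 0)))) (F 0 4 (F 0 5 (D 1)))))))))
(Q 3 4 0 (N 4 (Bad 4)
(N 4 (Bad 4)
(N 4 (Bad 4)
(N 4 (P (B 2 (L 0) (B 1 (L 0) (B 4 (F 0 5 (F 1 6 (F 1 8 (LE 0 2)))) (B 0 (L 0) (F 0 3 (F 0 5 (D 1))))))))
(P (B 0 (L 0) (B 5 (LD 5 1) (B 4 (B 1 (L 0) (F 0 2 (L 0))) (B 1 (F 0 3 (L 3)) (F 0 2 (F 0 3 (LE 0 1))))))))))))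
(N 4 (Bad 4)
(N 4 (Bad 4)
(N 4 (Bad 4)
(N 4 (Bad 4)
(N 4 (Q 5 9 3072 (Q 5 10 2048 (P (B 0 (L 0) (B 3 (LD 3 1) (B 1 (B 4 (L 0) (F 0 5 (F 2 11 (LE 0 4)))) (B 2 (LE 0 0) (F 0 4 (F 0 5 (D 2))))))))
(Q 3 5 0 (Q 5 12 57344 (Q 5 13 49152 (P (B 0 (L 0) (B 3 (LD 3 1) (B 1 (B 4 (L 0) (F 0 5 (F 4 14 (F 4 15 (LE 0 2))))) (B 4 (LD 0 2) (F 0 2 (F 0 5 (F 4 14 (F 4 15 (LE 0 1))))))))))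
(N 5 (P (B 0 (L 0) (B 3 (LD 3 1) (B 1 (B 5 (LD 0 4) (F 0 4 (D 5))) (B 5 (LD 0 2) (F 0 2 (F 0 4 (D 5))))))))
(P (B 0 (L 0) (B 3 (LD 3 1) (B 5 (LD 0 1) (B 1 (F 0 4 (L 0)) (F 0 2 (F 0 4 (L 0))))))))))
(P (B 0 (L 0) (B 3 (LD 3 1) (B 1 (B 4 (L 0) (F 0 5 (LE 5 2))) (B 2 (B 4 (L 0) (F 0 5 (LE 5 1))) (F 0 4 (F 0 5 (F 1 6 (F 1 8 (F 2 10 (F 2 11 (L 5)))))))))))))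
(P (B 0 (L 0) (B 3 (LD 3 1) (B 5 (LD 5 1) (B 1 (F 0 4 (L 0)) (F 0 2 (F 0 4 (L 0))))))))))
(Q 3 5 0 (Q 5 12 57344 (Q 5 13 49152 (P (B 0 (L 0) (B 3 (LD 3 1) (B 4 (L 0) (B 1 (F 0 5 (F 4 14 (F 4 15 (L 0)))) (F 0 2 (F 0 5 (F 4 14 (F 4 15 (LE 0 1))))))))))
(P (B 0 (L 0) (B 3 (LD 3 1) (B 1 (B 4 (L 0) (F 0 5 (LE 5 4))) (B 4 (B 2 (L 0) (F 0 5 (F 1 6 (F 1 8 (LE 5 2))))) (F 0 2 (F 0 5 (LE 5 1)))))))))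
(P (B 0 (L 0) (B 3 (LD 3 1) (B 1 (B 4 (L 0) (F 0 5 (LE 5 4))) (B 4 (B 2 (L 0) (F 0 5 (F 1 6 (F 1 8 (LE 5 2))))) (F 0 2 (F 0 5 (LE 5 1)))))))))
(P (B 0 (L 0) (B 3 (LD 3 1) (B 5 (LD 5 1) (B 1 (F 0 4 (L 0)) (F 0 2 (F 0 4 (L 0))))))))))
(P (B 0 (L 0) (B 4 (L 0) (B 1 (LE 0 0) (B 2 (LE 0 0) (F 0 3 (F 0 5 (D 1)))))))))))))))
(Q 5 9 3072 (Q 5 10 2048 (P (B 0 (L 0) (B 3 (LD 3 1) (B 1 (B 5 (F 2 11 (L 5)) (F 0 4 (L 4))) (B 2 (LE 0 0) (F 0 4 (F 0 5 (D 2))))))))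
(Q 3 4 0 (N 4 (Bad 4)
(N 4 (Bad 4)
(N 4 (Bad 4)
(N 4 (Q 5 12 24576 (Q 5 13 16384 (P (B 0 (L 0) (B 3 (LD 3 1) (B 1 (B 4 (L 0) (F 0 5 (D 4))) (B 4 (LD 0 2) (F 0 2 (F 0 5 (D 4))))))))
(P (B 0 (L 0) (B 3 (LD 3 1) (B 1 (B 4 (L 0) (F 0 5 (F 4 13 (F 4 14 (LE 5 2))))) (B 2 (B 4 (L 0) (F 0 5 (F 4 13 (F 4 14 (L 5))))) (F 0 4 (F 0 5 (F 2 10 (F 2 11 (LE 5 1)))))))))))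
(Q 3 5 0 (P (B 0 (L 0) (B 1 (L 0) (S 0 (B 2 (LD 5 4) (F 0 4 (F 2 10 (F 2 11 (LE 5 1))))) (B 2 (L 0) (F 0 5 (F 2 10 (F 2 11 (LE 5 1))))) (F 0 2 (LE 0 1)) (L 0) X X X))))
(P (B 0 (L 0) (B 3 (LD 3 1) (B 5 (LD 5 2) (B 1 (F 0 4 (L 0)) (F 0 2 (F 0 4 (L 0))))))))))
(P (B 0 (L 0) (B 5 (LD 5 2) (B 4 (B 1 (L 0) (F 0 2 (L 0))) (B 1 (F 0 3 (L 3)) (F 0 2 (F 0 3 (LE 0 1))))))))))))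
(N 4 (Bad 4)
(N 4 (Bad 4)
(N 4 (Bad 4)
(N 4 (Bad 4)
(N 4 (Q 3 5 0 (Q 5 12 57344 (Q 5 13 49152 (P (B 0 (L 0) (B 3 (LD 3 1) (B 4 (L 0) (B 1 (F 0 5 (F 4 14 (F 4 15 (LE 0 2)))) (F 0 2 (F 0 5 (F 4 14 (F 4 15 (L 0))))))))))
(P (B 0 (L 0) (B 3 (LD 3 1) (B 1 (B 4 (L 0) (F 0 5 (LE 5 2))) (B 2 (B 4 (L 0) (F 0 5 (LE 5 4))) (F 0 4 (F 0 5 (F 2 10 (F 2 11 (LE 5 1)))))))))))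
(P (B 0 (L 0) (B 3 (LD 3 1) (B 1 (B 4 (L 0) (F 0 5 (LE 5 2))) (B 2 (B 4 (L 0) (F 0 5 (LE 5 4))) (F 0 4 (F 0 5 (F 2 10 (F 2 11 (LE 5 1)))))))))))
(P (B 0 (L 0) (B 3 (LD 3 1) (B 5 (LD 5 2) (B 1 (F 0 4 (L 0)) (F 0 2 (F 0 4 (L 0)))))))))
(P (B 0 (L 0) (B 4 (L 0) (B 3 (LD 3 1) (B 1 (F 0 5 (LE 5 2)) (F 0 2 (F 0 5 (L 5)))))))))))))))
(Q 3 4 32 (N 4 (Bad 4)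
(N 4 (Bad 4)
(N 4 (Bad 4)
(N 4 (Q 3 5 0 (Q 5 12 24576 (P (B 4 (L 0) (B 1 (B 3 (L 3) (F 0 5 (F 4 13 (F 4 14 (L 5))))) (B 3 (F 0 2 (LE 0 1)) (B 0 (L 0) (F 0 2 (F 0 5 (F 4 13 (F 4 14 (L 5))))))))))
(P (B 2 (L 0) (B 1 (L 0) (B 4 (F 0 5 (LE 5 1)) (B 0 (L 0) (F 0 3 (D 0))))))))
(P (B 0 (L 0) (B 3 (LD 3 1) (B 5 (LD 5 4) (B 1 (F 0 4 (L 0)) (F 0 2 (F 0 4 (L 0)))))))))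
(Q 3 5 0 (P (B 0 (L 0) (B 4 (L 0) (B 1 (LE 0 0) (B 3 (F 0 2 (LE 0 1)) (F 0 2 (F 0 5 (L 5))))))))
(P (B 0 (L 0) (B 3 (LD 3 1) (B 4 (L 0) (B 1 (F 0 5 (L 5)) (F 0 2 (F 0 5 (L 5)))))))))))))
(P (B 0 (L 0) (B 3 (LD 3 1) (B 4 (L 4) (B 1 (F 0 5 (L 5)) (F 0 2 (F 0 5 (L 5)))))))))))))))))
(Q 3 9 3072 (Q 4 5 0 (Q 3 4 32 (Q 3 5 0 (P (B 1 (L 0) (B 0 (L 0) (B 3 (F 0 2 (L 0)) (B 2 (LE 0 0) (F 0 4 (D 0)))))))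
(Q 3 10 2048 (P (B 0 (L 0) (B 1 (L 0) (B 4 (F 0 2 (L 0)) (B 2 (LE 0 0) (F 0 3 (D 2)))))))
(N 3 (Bad 3)
(N 3 (Bad 3)
(N 3 (P (B 1 (L 0) (B 2 (LD 0 3) (B 3 (F 0 5 (F 2 10 (F 2 11 (LE 0 1)))) (B 0 (L 0) (F 0 4 (D 0)))))))
(P (B 0 (L 0) (B 3 (LD 0 2) (B 1 (LE 0 0) (B 2 (LE 0 0) (F 0 4 (D 0))))))))))))
(Q 3 10 2048 (P (B 0 (L 0) (B 2 (L 0) (B 3 (F 2 1 (F 2 11 (L 3))) (B 1 (LE 0 0) (F 0 4 (D 0)))))))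
(N 3 (Bad 3)
(N 3 (Bad 3)
(N 3 (Bad 3)
(N 3 (Q 4 10 2048 (P (B 0 (L 0) (B 2 (LD 0 3) (B 3 (B 1 (LE 0 2) (F 2 10 (F 0 5 (F 2 11 (LE 0 1))))) (B 1 (LE 0 0) (F 0 4 (D 0)))))))
(Q 5 10 2048 (P (B 0 (L 0) (B 2 (LD 0 3) (B 3 (B 1 (LE 0 2) (F 2 10 (F 0 4 (F 2 11 (LE 0 1))))) (B 1 (LE 0 0) (F 0 4 (D 0)))))))
(Q 4 12 24576 (P (B 0 (L 0) (B 3 (LD 0 2) (B 1 (LE 0 0) (B 4 (F 0 2 (F 3 13 (F 3 14 (L 4)))) (F 0 2 (F 0 5 (LE 5 3))))))))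
(Q 5 12 24576 (P (B 0 (L 0) (B 3 (LD 0 2) (B 1 (LE 0 0) (B 4 (F 0 2 (LE 4 3)) (F 0 2 (F 0 5 (F 3 13 (F 3 14 (L 5))))))))))
(P (B 1 (L 0) (B 2 (LD 0 3) (B 3 (F 2 10 (F 2 11 (B 4 (LE 4 1) (F 0 5 (LE 5 1))))) (B 0 (L 0) (F 0 4 (D 0)))))))))))
(P (B 0 (L 0) (B 3 (LD 0 2) (B 1 (LE 0 0) (B 2 (LE 0 0) (F 0 4 (D 0)))))))))))))
(Q 3 10 2048 (Q 3 11 0 (P (B 0 (L 0) (B 2 (L 0) (S 0 (LD 5 1) (LD 4 1) (D 2) (L 0) X X X))))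
(Q 4 11 0 (Q 5 11 0 (P (B 0 (L 0) (S 0 (LD 5 2) (LD 4 2) (B 1 (F 2 11 (L 0)) (F 2 2 (L 3))) (L 0) (B 3 (F 2 11 (L 0)) (B 11 (D 0) (LE 0 0))) X X)))
(Q 4 9 1024 (P (B 0 (L 0) (B 1 (L 0) (B 3 (F 2 2 (L 3)) (B 2 (LE 0 0) (F 0 4 (D 2)))))))
(Q 5 9 1024 (P (B 0 (L 0) (B 4 (LD 4 2) (B 1 (B 9 (D 0) (LE 0 0)) (B 2 (LE 0 0) (F 0 3 (D 2)))))))
(Q 5 6 384 (P (B 1 (L 0) (B 0 (L 0) (B 5 (B 2 (LE 5 1) (F 1 7 (F 1 8 (B 3 (D 2) (F 0 4 (F 2 9 (F 2 10 (L 5)))))))) (B 2 (LE 0 0) (F 0 3 (D 2)))))))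
(P (B 0 (L 0) (B 4 (LD 4 2) (B 1 (B 3 (F 2 11 (L 3)) (F 0 5 (L 5))) (B 2 (LE 0 0) (F 0 3 (D 2)))))))))))
(Q 5 11 0 (Q 4 9 1024 (P (B 0 (L 0) (B 5 (LD 5 2) (B 1 (B 9 (D 0) (LE 0 0)) (B 2 (LE 0 0) (F 0 3 (D 2)))))))
(Q 5 9 1024 (P (B 0 (L 0) (B 1 (L 0) (B 4 (B 2 (L 4) (B 3 (D 2) (F 0 5 (D 2)))) (B 2 (LE 0 0) (F 0 3 (D 2)))))))
(Q 4 6 384 (P (B 1 (L 0) (B 0 (L 0) (B 4 (B 2 (LE 4 1) (F 1 7 (F 1 8 (B 3 (D 2) (F 0 5 (F 2 9 (F 2 10 (L 4)))))))) (B 2 (LE 0 0) (F 0 3 (D 2)))))))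
(P (B 0 (L 0) (B 5 (LD 5 2) (B 1 (B 3 (F 2 11 (L 3)) (F 0 4 (L 4))) (B 2 (LE 0 0) (F 0 3 (D 2))))))))))
(Q 4 6 384 (Q 5 6 0 (Q 4 7 256 (P (B 0 (L 0) (B 3 (LD 3 2) (B 1 (LE 0 0) (B 2 (B 6 (D 0) (LE 0 0)) (F 0 4 (D 1)))))))
(Q 5 7 256 (P (B 0 (L 0) (B 3 (LD 3 2) (B 1 (LE 0 0) (B 2 (B 6 (D 0) (LE 0 0)) (F 0 4 (F 0 5 (D 1))))))))
(Q 3 4 32 (Q 3 5 0 (N 3 (P (B 0 (LE 0 3) (B 4 (LD 4 1) (B 2 (F 3 3 (L 0)) (B 3 (F 0 1 (F 2 11 (L 0))) (F 0 1 (F 0 5 (LE 5 3))))))))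
(P (B 0 (L 0) (S 0 (LD 5 1) (LD 4 1) (LD 0 2) (L 0) (L 0) X X))))
(P (B 0 (L 0) (B 4 (LD 4 1) (B 1 (B 3 (F 2 11 (L 3)) (F 0 5 (L 5))) (B 2 (LE 0 0) (F 0 3 (D 2))))))))
(P (B 0 (L 0) (B 4 (LD 4 1) (B 1 (B 3 (F 2 11 (L 3)) (F 0 5 (L 5))) (B 2 (LE 0 0) (F 0 3 (D 2))))))))))
(Q 5 7 256 (P (B 1 (L 0) (B 0 (L 0) (B 4 (B 2 (LE 4 1) (F 1 7 (F 0 3 (D 2)))) (B 2 (LE 0 0) (F 0 3 (D 2)))))))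
(P (B 0 (L 0) (B 4 (LD 4 1) (B 1 (B 3 (F 2 11 (L 3)) (F 0 5 (L 5))) (B 2 (LE 0 0) (F 0 3 (D 2)))))))))
(Q 5 6 384 (P (B 0 (L 0) (B 5 (LD 5 1) (B 1 (B 3 (F 2 11 (L 3)) (F 0 4 (L 4))) (B 2 (LE 0 0) (F 0 3 (D 2)))))))
(Q 3 4 32 (Q 3 5 0 (N 3 (P (B 0 (LE 0 3) (B 3 (LD 0 2) (B 1 (LE 0 0) (B 4 (LD 4 2) (F 0 2 (D 3)))))))
(P (B 0 (L 0) (B 2 (L 0) (B 3 (F 0 1 (F 2 11 (L 0))) (B 4 (LD 4 1) (F 0 1 (F 0 5 (L 5)))))))))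
(P (B 0 (L 0) (B 2 (L 0) (B 3 (F 2 1 (F 2 11 (L 3))) (B 5 (LD 5 1) (F 0 1 (F 0 4 (L 4)))))))))
(P (B 0 (L 0) (B 2 (L 0) (B 3 (F 2 1 (F 2 11 (L 3))) (B 4 (LD 4 1) (F 0 1 (F 0 5 (L 5))))))))))))))
(Q 4 6 384 (Q 5 6 0 (Q 4 7 256 (P (B 0 (L 0) (B 3 (LD 3 2) (B 1 (LE 0 0) (B 2 (B 6 (D 0) (LE 0 0)) (F 0 4 (D 1)))))))
(Q 5 7 256 (P (B 0 (L 0) (B 3 (LD 3 2) (B 1 (LE 0 0) (B 2 (B 6 (D 0) (LE 0 0)) (F 0 4 (F 0 5 (D 1))))))))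
(Q 3 4 32 (Q 3 5 0 (P (B 0 (L 0) (S 0 (LD 5 1) (LD 4 1) (B 1 (LE 3 2) (F 0 2 (L 3))) (L 0) (L 0) X X)))
(P (B 0 (L 0) (B 4 (LD 4 1) (B 5 (LD 5 1) (B 1 (F 0 3 (LE 3 2)) (F 0 2 (F 0 3 (L 3)))))))))
(P (B 0 (L 0) (B 3 (LD 3 2) (B 4 (LD 4 1) (B 5 (LD 5 1) (F 0 1 (D 0))))))))))
(Q 5 7 256 (Q 4 7 0 (P (B 0 (L 0) (B 3 (LD 3 2) (B 1 (LE 0 0) (B 2 (B 7 (D 0) (LE 0 0)) (F 0 4 (D 1)))))))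
(Q 4 8 0 (P (B 2 (L 0) (B 0 (L 0) (B 3 (B 1 (LE 3 2) (F 2 10 (F 2 11 (B 4 (D 1) (F 0 5 (F 1 6 (F 1 8 (L 3)))))))) (B 1 (LE 0 0) (F 0 4 (D 1)))))))
(Q 5 8 0 (P (B 2 (L 0) (B 0 (L 0) (B 3 (B 1 (LE 3 2) (F 2 10 (F 2 11 (B 4 (F 1 7 (F 1 8 (L 3))) (F 0 5 (D 1)))))) (B 1 (LE 0 0) (F 0 4 (F 0 5 (D 1))))))))
(Q 3 4 0 (P (B 2 (L 0) (B 0 (L 0) (B 3 (B 1 (LE 3 2) (F 0 5 (F 1 6 (F 1 8 (F 2 10 (F 2 11 (L 3))))))) (B 1 (LE 0 0) (F 0 4 (F 0 5 (D 1))))))))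
(P (B 0 (L 0) (B 5 (LD 5 1) (B 4 (LD 4 1) (B 1 (F 0 3 (LE 3 2)) (F 0 2 (F 0 3 (L 3))))))))))))
(Q 5 9 0 (Q 4 9 0 (P (B 0 (L 0) (S 0 (LD 5 2) (LD 4 1) (LD 3 2) (L 0) (B 9 (D 0) (LE 0 2)) X X)))
(Q 3 4 0 (Q 5 10 2048 (P (B 0 (L 0) (B 4 (LD 4 1) (B 1 (B 3 (LE 3 2) (F 0 5 (F 2 11 (L 5)))) (B 2 (LE 0 0) (F 0 3 (F 0 5 (D 2))))))))
(Q 3 5 0 (P (B 0 (L 0) (B 4 (LD 4 1) (B 1 (B 9 (D 0) (LE 0 0)) (B 2 (LE 0 0) (F 0 3 (D 0)))))))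
(P (B 0 (L 0) (B 4 (LD 4 1) (B 5 (LD 5 2) (B 1 (F 0 3 (LE 3 2)) (F 0 2 (F 0 3 (L 3))))))))))
(P (B 0 (L 0) (B 4 (LD 4 1) (S 0 (LD 5 2) (LD 3 2) (LE 0 0) (B 3 (LE 3 2) (F 0 5 (LE 5 2))) X X X))))))
(Q 5 10 2048 (P (B 0 (L 0) (B 4 (LD 4 1) (B 1 (B 3 (LE 3 2) (F 0 5 (LE 5 2))) (B 2 (LE 0 0) (F 0 3 (F 0 5 (D 2))))))))
(Q 4 7 256 (P (B 2 (L 0) (B 0 (L 0) (B 3 (B 1 (LE 3 2) (F 2 10 (F 2 11 (B 4 (D 1) (F 0 5 (LE 5 1)))))) (B 1 (LE 0 0) (F 0 4 (D 1)))))))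
(Q 4 9 0 (Q 3 5 0 (P (B 0 (L 0) (B 4 (LD 4 1) (B 1 (B 3 (LE 3 2) (F 0 5 (L 5))) (B 2 (LE 0 0) (F 0 3 (D 0)))))))
(Q 4 10 2048 (P (B 0 (L 0) (B 3 (LD 3 2) (B 1 (B 5 (L 5) (F 0 4 (F 2 11 (L 0)))) (B 2 (LE 0 0) (F 0 4 (D 2)))))))
(Q 3 4 0 (P (B 2 (L 0) (B 0 (L 0) (B 9 (F 0 1 (F 0 5 (L 5))) (B 1 (LE 0 2) (F 2 10 (F 2 11 (B 5 (LE 5 0) (F 0 3 (D 0))))))))))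
(P (B 0 (L 0) (B 3 (LD 3 2) (B 4 (LD 4 1) (B 1 (F 0 5 (L 5)) (F 0 2 (F 0 5 (L 5)))))))))))
(Q 3 4 0 (Q 3 5 0 (P (B 0 (L 0) (B 4 (LD 4 1) (B 1 (B 3 (LE 3 2) (F 0 5 (L 5))) (B 2 (LE 0 0) (F 0 3 (D 0)))))))
(N 3 (Bad 3)
(N 3 (Bad 3)
(N 3 (P (B 0 (L 0) (B 2 (LD 0 3) (B 5 (LD 5 1) (B 3 (F 0 1 (LE 0 2)) (F 0 1 (F 0 4 (L 4))))))))
(P (B 0 (L 0) (B 4 (LD 4 1) (B 3 (LD 0 2) (B 1 (F 0 5 (L 5)) (F 0 2 (F 0 5 (L 5))))))))))))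
(P (B 0 (L 0) (B 3 (LD 3 2) (B 4 (LD 4 1) (B 1 (F 0 5 (L 5)) (F 0 2 (F 0 5 (L 5)))))))))))))))
(Q 5 9 0 (Q 4 9 0 (P (B 0 (L 0) (S 0 (LD 5 2) (LD 4 2) (LD 3 2) (L 0) (B 9 (D 0) (LE 0 2)) X X)))
(Q 5 10 2048 (P (B 2 (L 0) (B 0 (L 0) (B 9 (F 0 1 (F 0 4 (L 4))) (B 1 (LE 0 2) (F 2 10 (F 0 3 (F 0 4 (F 2 11 (LE 4 1))))))))))
(Q 4 10 2048 (P (B 0 (L 0) (B 5 (LD 5 2) (B 1 (B 3 (LE 3 2) (F 0 4 (LE 4 2))) (B 2 (LE 0 0) (F 0 3 (F 0 4 (D 2))))))))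
(Q 3 4 0 (P (B 0 (L 0) (B 5 (LD 5 2) (B 1 (B 3 (LE 3 2) (F 0 4 (L 4))) (B 2 (LE 0 0) (F 0 3 (D 0)))))))
(N 4 (Bad 4)
(N 4 (Bad 4)
(N 4 (Bad 4)
(N 4 (Bad 4)
(N 4 (Q 3 5 0 (P (B 1 (B 9 (F 0 4 (L 0)) (LE 0 2)) (B 2 (L 0) (B 4 (B 9 (D 0) (F 2 10 (F 2 11 (LE 0 0)))) (B 0 (L 0) (F 0 3 (D 0)))))))
(P (B 0 (L 0) (B 3 (LD 3 2) (B 5 (LD 5 2) (B 1 (F 0 4 (L 0)) (F 0 2 (F 0 4 (L 0)))))))))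
(P (B 0 (L 0) (B 5 (LD 5 2) (B 4 (L 0) (B 1 (F 0 3 (LE 3 2)) (F 0 2 (F 0 3 (L 3)))))))))))))))))
(Q 4 9 0 (Q 5 6 384 (Q 3 4 0 (P (B 0 (L 0) (B 5 (LD 5 1) (B 1 (B 9 (D 0) (LE 0 0)) (B 2 (LE 0 0) (F 0 3 (D 0)))))))
(P (B 0 (L 0) (B 5 (LD 5 1) (B 4 (LD 4 2) (B 1 (F 0 3 (LE 3 2)) (F 0 2 (F 0 3 (L 3)))))))))
(Q 4 10 2048 (P (B 0 (L 0) (B 3 (LD 3 2) (B 1 (B 4 (F 2 11 (L 4)) (F 0 5 (L 5))) (B 2 (LE 0 0) (F 0 4 (D 2)))))))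
(Q 5 10 2048 (P (B 0 (L 0) (B 3 (LD 3 2) (B 1 (B 4 (LE 4 2) (F 0 5 (LE 5 2))) (B 2 (LE 0 0) (F 0 4 (F 0 5 (D 2))))))))
(Q 3 5 0 (P (B 0 (L 0) (B 4 (LD 4 2) (B 1 (B 3 (LE 3 2) (F 0 5 (L 5))) (B 2 (LE 0 0) (F 0 3 (D 0)))))))
(P (B 2 (L 0) (B 0 (L 0) (S 2 (LD 11 1) (LD 10 1) (F 0 1 (F 0 5 (L 5))) (B 3 (LE 3 2) (B 5 (L 5) (F 0 4 (LE 4 2)))) X X X))))))))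
(Q 4 10 2048 (Q 5 11 0 (P (B 0 (L 0) (B 5 (LD 5 2) (B 1 (B 3 (LE 3 2) (F 0 4 (LE 4 2))) (B 2 (LE 0 0) (F 0 3 (F 0 4 (D 2))))))))
(Q 5 10 0 (P (B 0 (L 0) (B 5 (LD 5 2) (B 1 (B 3 (LE 3 2) (F 0 4 (LE 4 2))) (B 2 (LE 0 0) (F 0 3 (F 0 4 (D 2))))))))
(Q 5 6 384 (P (B 0 (L 0) (B 5 (LD 5 1) (B 1 (B 3 (LE 3 2) (F 0 4 (LE 4 2))) (B 2 (LE 0 0) (F 0 3 (F 0 4 (D 2))))))))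
(Q 4 11 0 (P (B 0 (L 0) (B 3 (LD 3 2) (B 1 (B 4 (F 2 9 (L 4)) (F 0 5 (L 5))) (B 2 (LE 0 0) (F 0 4 (D 2)))))))
(Q 3 5 0 (P (B 0 (L 0) (B 4 (LD 4 2) (B 1 (B 3 (LE 3 2) (F 0 5 (L 5))) (B 2 (LE 0 0) (F 0 3 (D 0)))))))
(P (B 2 (L 0) (B 0 (L 0) (B 5 (LD 5 1) (B 1 (B 3 (LE 3 2) (F 0 4 (LE 4 2))) (F 0 3 (F 0 4 (D 2)))))))))))))
(Q 5 6 384 (Q 5 7 256 (P (B 2 (L 0) (B 0 (L 0) (B 3 (B 1 (LE 3 2) (F 2 10 (F 2 11 (B 5 (D 1) (F 0 4 (LE 4 1)))))) (B 1 (LE 0 0) (F 0 4 (F 0 5 (D 1))))))))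
(Q 3 4 0 (P (B 0 (L 0) (B 5 (LD 5 1) (B 1 (B 3 (LE 3 2) (F 0 4 (L 4))) (B 2 (LE 0 0) (F 0 3 (D 0)))))))
(N 4 (Bad 4)
(N 4 (Bad 4)
(N 4 (Bad 4)
(N 4 (Bad 4)
(N 4 (Q 3 5 0 (Q 5 10 2048 (Q 5 11 0 (P (B 0 (L 0) (B 3 (LD 3 2) (B 1 (B 4 (L 0) (F 0 5 (F 2 9 (LE 0 4)))) (B 2 (LE 0 0) (F 0 4 (F 0 5 (D 2))))))))
(P (B 4 (L 0) (B 1 (B 3 (LE 3 2) (F 0 5 (LE 5 2))) (B 2 (B 3 (LE 3 4) (F 0 5 (LE 5 1))) (B 0 (L 0) (F 0 3 (D 0))))))))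
(P (B 4 (L 0) (B 1 (B 3 (LE 3 2) (F 0 5 (LE 5 4))) (B 2 (B 3 (LE 3 4) (F 0 5 (LE 5 1))) (B 0 (L 0) (F 0 3 (D 0))))))))
(P (B 0 (L 0) (B 3 (LD 3 2) (B 5 (LD 5 1) (B 1 (F 0 4 (L 0)) (F 0 2 (F 0 4 (L 0)))))))))
(P (B 0 (L 0) (B 5 (LD 5 1) (B 4 (L 0) (B 1 (F 0 3 (LE 3 2)) (F 0 2 (F 0 3 (L 3)))))))))))))))
(Q 5 10 2048 (Q 5 11 0 (P (B 0 (L 0) (B 3 (LD 3 2) (B 1 (B 5 (F 2 9 (L 5)) (F 0 4 (L 4))) (B 2 (LE 0 0) (F 0 4 (F 0 5 (D 2))))))))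
(Q 3 4 0 (P (B 0 (L 0) (B 5 (LD 5 2) (B 1 (B 3 (LE 3 2) (F 0 4 (L 4))) (B 2 (LE 0 0) (F 0 3 (D 0)))))))
(P (B 2 (L 0) (B 0 (L 0) (B 4 (LD 4 1) (B 1 (B 3 (LE 3 2) (F 0 5 (LE 5 2))) (F 0 3 (F 0 5 (D 2))))))))))
(Q 3 4 32 (N 4 (Bad 4)
(N 4 (Bad 4)
(N 4 (Bad 4)
(N 4 (Q 3 5 0 (P (B 0 (L 0) (B 5 (LD 5 4) (B 1 (B 3 (LE 3 2) (F 0 4 (L 0))) (B 2 (LE 0 0) (F 0 3 (D 0)))))))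
(P (B 0 (L 0) (B 3 (LD 3 2) (B 5 (LD 5 4) (B 1 (F 0 4 (L 0)) (F 0 2 (F 0 4 (L 0)))))))))
(Q 3 5 0 (P (B 0 (L 0) (B 4 (L 0) (B 1 (LE 0 0) (B 2 (LE 0 0) (F 0 3 (D 0)))))))
(P (B 0 (L 0) (B 3 (LD 3 2) (B 4 (L 0) (B 1 (F 0 5 (L 5)) (F 0 2 (F 0 5 (L 5)))))))))))))
(P (B 0 (L 0) (B 3 (LD 3 2) (B 4 (L 4) (B 1 (F 0 5 (L 5)) (F 0 2 (F 0 5 (L 5)))))))))))))))))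
(Q 4 6 384 (Q 3 5 0 (Q 3 4 0 (N 3 (Bad 3)
(N 3 (Bad 3)
(N 3 (P (B 0 (LE 0 3) (S 0 (L 5) (LD 4 1) (B 1 (L 0) (F 0 2 (L 0))) (L 0) (L 0) X X)))
(P (B 0 (L 0) (S 0 (L 5) (LD 4 1) (B 1 (L 0) (F 0 2 (L 0))) (L 0) (L 0) X X))))))
(Q 5 9 3072 (N 3 (Bad 3)
(N 3 (Bad 3)
(N 3 (Bad 3)
(Q 5 10 2048 (P (B 0 (L 0) (B 4 (LD 4 1) (B 1 (B 3 (L 0) (F 0 5 (F 2 11 (L 0)))) (B 2 (LE 0 0) (F 0 3 (D 0)))))))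
(Q 4 5 0 (Q 4 7 256 (P (B 0 (L 0) (B 1 (L 0) (S 0 (F 0 2 (L 5)) (F 1 2 (F 1 8 (L 0))) (LD 0 2) (L 0) X X X))))
(Q 5 12 24576 (P (B 0 (L 0) (B 4 (LD 4 1) (B 1 (B 3 (L 0) (F 0 5 (LE 0 2))) (B 2 (LE 0 0) (F 0 3 (D 0)))))))
(N 3 (Q 4 12 24576 (P (B 2 (L 0) (B 3 (B 1 (L 0) (F 0 4 (F 1 7 (F 1 8 (LE 0 2))))) (B 5 (F 0 1 (LE 0 2)) (B 0 (L 0) (F 0 1 (F 0 4 (F 3 13 (F 3 14 (L 4))))))))))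
(P (B 0 (L 0) (B 1 (L 0) (B 3 (B 2 (L 0) (F 0 4 (F 1 7 (F 1 8 (LE 4 2))))) (B 2 (LE 0 0) (F 0 4 (D 0))))))))
(P (B 0 (L 0) (B 4 (LD 4 1) (B 3 (B 1 (L 0) (F 0 2 (L 0))) (B 1 (F 0 5 (LE 0 2)) (F 0 2 (F 0 5 (L 5)))))))))))
(P (B 0 (L 0) (B 4 (LD 4 1) (B 3 (B 1 (L 0) (F 0 2 (L 0))) (B 5 (LD 5 2) (F 0 1 (D 0))))))))))))
(N 3 (Bad 3)
(N 3 (Bad 3)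
(N 3 (Bad 3)
(Q 4 5 0 (Q 4 7 256 (P (B 0 (L 0) (B 1 (L 0) (B 4 (F 1 2 (F 1 8 (L 0))) (B 3 (F 0 2 (L 0)) (F 0 2 (F 0 5 (L 5))))))))
(Q 5 6 0 (P (B 0 (L 0) (B 1 (L 0) (B 3 (B 2 (L 0) (F 0 4 (F 1 7 (F 1 8 (LE 0 2))))) (B 2 (B 6 (D 0) (LE 0 0)) (F 0 4 (D 0)))))))
(Q 5 7 256 (P (B 0 (L 0) (B 4 (LD 4 1) (B 1 (LE 0 0) (B 3 (F 0 2 (L 0)) (F 0 2 (F 0 5 (LE 5 1))))))))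
(P (B 0 (L 0) (B 4 (LD 4 1) (B 1 (B 3 (L 0) (F 0 5 (L 5))) (B 3 (F 0 2 (L 0)) (F 0 2 (F 0 5 (L 5)))))))))))
(P (B 0 (L 0) (B 4 (LD 4 1) (B 1 (LE 0 0) (B 3 (F 0 2 (L 0)) (F 0 2 (F 0 5 (L 5))))))))))))))
(Q 5 6 0 (Q 5 7 256 (P (B 0 (L 0) (B 1 (L 0) (B 3 (B 2 (L 3) (B 4 (F 1 7 (F 1 8 (LE 3 2))) (F 0 5 (D 1)))) (B 2 (B 6 (D 0) (LE 0 0)) (F 0 4 (F 0 5 (D 1))))))))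
(Q 4 7 256 (P (B 0 (L 0) (B 5 (LD 5 1) (B 1 (LE 0 0) (B 2 (B 3 (L 3) (F 0 4 (F 1 8 (L 0)))) (F 0 3 (F 0 4 (D 1))))))))
(Q 3 4 0 (N 3 (Bad 3)
(N 3 (Bad 3)
(N 3 (Bad 3)
(N 3 (Q 5 12 24576 (Q 5 13 16384 (P (B 0 (L 0) (B 4 (LD 4 1) (B 1 (B 3 (L 0) (F 0 5 (D 3))) (B 3 (LD 0 2) (F 0 2 (F 0 5 (D 3))))))))
(Q 5 9 3072 (P (B 0 (L 0) (B 4 (LD 4 1) (B 1 (B 3 (L 0) (F 0 5 (F 3 13 (F 3 14 (LE 0 2))))) (B 2 (B 3 (L 0) (F 0 5 (F 3 13 (F 3 14 (LE 0 1))))) (F 0 3 (F 0 5 (F 1 7 (F 1 8 (F 2 10 (F 2 11 (L 0))))))))))))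
(P (B 0 (L 0) (B 4 (LD 4 1) (B 1 (B 3 (L 0) (F 0 5 (F 3 13 (F 3 14 (L 5))))) (B 3 (B 2 (L 0) (F 0 5 (F 1 7 (F 1 8 (LE 5 2))))) (F 0 2 (F 0 5 (F 3 13 (F 3 14 (LE 5 1))))))))))))
(Q 4 5 0 (P (B 0 (L 0) (B 1 (L 0) (B 3 (B 2 (L 0) (F 0 5 (F 1 7 (F 1 8 (LE 5 2))))) (B 2 (LE 0 0) (F 0 4 (D 0)))))))
(P (B 0 (L 0) (B 4 (LD 4 1) (B 5 (LD 5 1) (B 1 (F 0 3 (L 0)) (F 0 2 (F 0 3 (L 0))))))))))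
(P (B 0 (L 0) (B 5 (LD 5 1) (B 3 (B 1 (L 0) (F 0 2 (L 0))) (B 1 (F 0 4 (L 4)) (F 0 2 (F 0 4 (LE 0 1))))))))))))
(N 3 (Bad 3)
(N 3 (Bad 3)
(N 3 (Bad 3)
(N 3 (Bad 3)
(N 3 (Q 4 5 0 (P (B 0 (L 0) (B 1 (L 0) (B 6 (F 0 2 (F 0 3 (L 0))) (B 2 (LE 0 1) (F 1 7 (F 1 8 (B 3 (LE 0 0) (F 0 4 (D 0))))))))))
(P (B 0 (L 0) (B 4 (LD 4 1) (B 5 (LD 5 1) (B 1 (F 0 3 (L 0)) (F 0 2 (F 0 3 (L 0)))))))))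
(P (B 0 (L 0) (B 3 (L 0) (S 0 (LD 5 1) (LD 4 1) (LE 0 0) (LE 0 0) X X X))))))))))))
(Q 4 7 256 (Q 4 8 0 (P (B 0 (L 0) (B 1 (L 0) (B 4 (D 1) (B 5 (LD 5 2) (F 0 2 (F 0 3 (L 3))))))))
(Q 5 7 0 (P (B 0 (L 0) (B 5 (LD 5 1) (B 1 (LE 0 0) (B 2 (B 3 (L 3) (F 0 4 (F 1 8 (L 0)))) (F 0 3 (F 0 4 (D 1))))))))
(Q 5 8 0 (P (B 0 (L 0) (B 5 (LD 5 1) (B 1 (LE 0 0) (B 2 (B 3 (L 3) (F 0 4 (F 1 8 (L 0)))) (F 0 3 (F 0 4 (D 1))))))))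
(Q 5 9 3072 (P (B 0 (L 0) (B 5 (LD 5 2) (B 1 (LE 0 0) (B 2 (B 3 (L 3) (F 0 4 (F 1 8 (L 0)))) (F 0 3 (F 0 4 (D 1))))))))
(Q 4 3 32 (N 3 (Bad 3)
(N 3 (Bad 3)
(N 3 (Bad 3)
(N 3 (Q 5 12 24576 (P (B 0 (L 0) (B 5 (LD 5 3) (B 1 (LE 0 0) (B 3 (F 0 2 (L 0)) (F 0 2 (F 0 4 (F 1 8 (L 0)))))))))
(P (B 0 (L 0) (B 1 (L 0) (B 3 (B 5 (LD 5 2) (F 0 2 (L 0))) (B 2 (B 5 (LE 5 3) (F 0 4 (F 1 8 (L 0)))) (F 0 4 (D 1))))))))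
(P (B 0 (L 0) (B 3 (L 0) (B 1 (LE 0 0) (B 2 (LE 0 0) (F 0 4 (D 1)))))))))))
(P (B 0 (L 0) (B 4 (LD 4 1) (B 3 (L 3) (B 1 (F 0 5 (L 5)) (F 0 2 (F 0 5 (L 5)))))))))))))
(Q 5 7 256 (Q 5 8 0 (Q 3 4 0 (P (B 0 (L 0) (B 1 (L 0) (S 0 (F 1 2 (F 1 6 (L 0))) (LD 4 2) (B 2 (L 3) (F 0 5 (D 1))) (L 0) X X X))))
(P (B 0 (L 0) (B 4 (LD 4 1) (B 1 (LE 0 0) (B 2 (B 3 (L 3) (F 0 5 (F 1 6 (L 0)))) (F 0 3 (F 0 5 (D 1)))))))))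
(Q 3 4 0 (N 3 (Bad 3)
(N 3 (Bad 3)
(N 3 (Bad 3)
(Q 5 12 24576 (N 3 (P (B 2 (L 0) (B 1 (L 0) (B 3 (F 0 5 (F 1 6 (F 1 8 (LE 0 2)))) (B 0 (L 0) (F 0 4 (F 0 5 (D 1))))))))
(P (B 0 (L 0) (B 5 (LD 5 1) (B 3 (B 1 (L 0) (F 0 2 (L 0))) (B 1 (F 0 4 (L 4)) (F 0 2 (F 0 4 (LE 0 1)))))))))
(P (B 0 (L 0) (B 1 (L 0) (B 3 (B 2 (L 0) (F 0 5 (F 1 6 (F 1 8 (LE 5 2))))) (B 2 (LE 0 0) (F 0 4 (F 0 5 (D 1))))))))))))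
(N 3 (Bad 3)
(N 3 (Bad 3)
(N 3 (Bad 3)
(N 3 (Bad 3)
(N 3 (Q 5 9 3072 (Q 5 10 2048 (P (B 0 (L 0) (B 4 (LD 4 1) (B 1 (B 3 (L 0) (F 0 5 (F 2 11 (LE 0 3)))) (B 2 (LE 0 0) (F 0 3 (F 0 5 (D 2))))))))
(Q 4 5 0 (Q 5 12 57344 (Q 5 13 49152 (P (B 0 (L 0) (B 4 (LD 4 1) (B 1 (B 3 (L 0) (F 0 5 (F 3 14 (F 3 15 (LE 0 2))))) (B 3 (LD 0 2) (F 0 2 (F 0 5 (F 3 14 (F 3 15 (LE 0 1))))))))))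
(N 5 (P (B 0 (L 0) (B 2 (LD 0 5) (B 4 (LD 4 1) (B 5 (B 1 (LD 0 3) (F 0 3 (F 1 6 (F 1 8 (F 2 10 (F 2 11 (L 0))))))) (F 0 1 (F 0 3 (D 5))))))))
(P (B 0 (L 0) (B 4 (LD 4 1) (B 5 (LD 0 1) (B 1 (F 0 3 (L 0)) (F 0 2 (F 0 3 (L 0))))))))))
(P (B 0 (L 0) (B 4 (LD 4 1) (B 1 (B 3 (L 0) (F 0 5 (LE 5 2))) (B 2 (B 3 (L 0) (F 0 5 (LE 5 1))) (F 0 3 (F 0 5 (F 1 6 (F 1 8 (F 2 10 (F 2 11 (L 5)))))))))))))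
(P (B 0 (L 0) (B 4 (LD 4 1) (B 5 (LD 5 1) (B 1 (F 0 3 (L 0)) (F 0 2 (F 0 3 (L 0))))))))))
(Q 4 5 0 (Q 5 12 57344 (Q 5 13 49152 (P (B 0 (L 0) (B 4 (LD 4 1) (B 3 (L 0) (B 1 (F 0 5 (F 3 14 (F 3 15 (L 0)))) (F 0 2 (F 0 5 (F 3 14 (F 3 15 (LE 0 1))))))))))
(P (B 0 (L 0) (B 4 (LD 4 1) (B 1 (B 3 (L 0) (F 0 5 (LE 5 3))) (B 3 (B 2 (L 0) (F 0 5 (F 1 6 (F 1 8 (LE 5 2))))) (F 0 2 (F 0 5 (LE 5 1)))))))))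
(P (B 0 (L 0) (B 4 (LD 4 1) (B 1 (B 3 (L 0) (F 0 5 (LE 5 3))) (B 3 (B 2 (L 0) (F 0 5 (F 1 6 (F 1 8 (LE 5 2))))) (F 0 2 (F 0 5 (LE 5 1)))))))))
(P (B 0 (L 0) (B 4 (LD 4 1) (B 5 (LD 5 1) (B 1 (F 0 3 (L 0)) (F 0 2 (F 0 3 (L 0))))))))))
(P (B 0 (L 0) (B 3 (L 0) (B 1 (LE 0 0) (B 2 (LE 0 0) (F 0 4 (F 0 5 (D 1)))))))))))))))
(Q 5 9 3072 (Q 5 10 2048 (P (B 0 (L 0) (B 4 (LD 4 1) (B 1 (B 5 (F 2 11 (L 5)) (F 0 3 (L 3))) (B 2 (LE 0 0) (F 0 3 (F 0 5 (D 2))))))))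
(Q 3 4 0 (N 3 (Bad 3)
(N 3 (Bad 3)
(N 3 (Bad 3)
(N 3 (Q 5 12 24576 (Q 5 13 16384 (P (B 0 (L 0) (B 4 (LD 4 1) (B 1 (B 3 (L 0) (F 0 5 (D 3))) (B 3 (LD 0 2) (F 0 2 (F 0 5 (D 3))))))))
(P (B 0 (L 0) (B 4 (LD 4 1) (B 1 (B 3 (L 0) (F 0 5 (F 3 13 (F 3 14 (LE 5 2))))) (B 2 (B 3 (L 0) (F 0 5 (F 3 13 (F 3 14 (L 5))))) (F 0 3 (F 0 5 (F 2 10 (F 2 11 (LE 5 1)))))))))))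
(Q 4 5 0 (P (B 0 (L 0) (B 1 (L 0) (S 0 (B 2 (LD 5 3) (F 0 3 (F 2 10 (F 2 11 (LE 5 1))))) (F 0 2 (LE 0 1)) (B 2 (L 0) (F 0 5 (F 2 10 (F 2 11 (LE 5 1))))) (L 0) X X X))))
(P (B 0 (L 0) (B 4 (LD 4 1) (B 5 (LD 5 2) (B 1 (F 0 3 (L 0)) (F 0 2 (F 0 3 (L 0))))))))))
(P (B 0 (L 0) (B 5 (LD 5 2) (B 3 (B 1 (L 0) (F 0 2 (L 0))) (B 1 (F 0 4 (L 4)) (F 0 2 (F 0 4 (LE 0 1))))))))))))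
(N 3 (Bad 3)
(N 3 (Bad 3)
(N 3 (Bad 3)
(N 3 (Bad 3)
(N 3 (Q 4 5 0 (Q 5 12 57344 (Q 5 13 49152 (P (B 0 (L 0) (B 4 (LD 4 1) (B 3 (L 0) (B 1 (F 0 5 (F 3 14 (F 3 15 (LE 0 2)))) (F 0 2 (F 0 5 (F 3 14 (F 3 15 (L 0))))))))))
(P (B 0 (L 0) (B 4 (LD 4 1) (B 1 (B 3 (L 0) (F 0 5 (LE 5 2))) (B 2 (B 3 (L 0) (F 0 5 (LE 5 3))) (F 0 3 (F 0 5 (F 2 10 (F 2 11 (LE 5 1)))))))))))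
(P (B 0 (L 0) (B 4 (LD 4 1) (B 1 (B 3 (L 0) (F 0 5 (LE 5 2))) (B 2 (B 3 (L 0) (F 0 5 (LE 5 3))) (F 0 3 (F 0 5 (F 2 10 (F 2 11 (LE 5 1)))))))))))
(P (B 0 (L 0) (B 4 (LD 4 1) (B 5 (LD 5 2) (B 1 (F 0 3 (L 0)) (F 0 2 (F 0 3 (L 0)))))))))
(P (B 0 (L 0) (B 3 (L 0) (B 4 (LD 4 1) (B 1 (F 0 5 (LE 5 2)) (F 0 2 (F 0 5 (L 5)))))))))))))))
(Q 4 3 32 (N 3 (Bad 3)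
(N 3 (Bad 3)
(N 3 (Bad 3)
(N 3 (Q 4 5 0 (Q 5 12 24576 (P (B 3 (L 0) (B 1 (B 4 (L 4) (F 0 5 (F 3 13 (F 3 14 (L 5))))) (B 4 (F 0 2 (LE 0 1)) (B 0 (L 0) (F 0 2 (F 0 5 (F 3 13 (F 3 14 (L 5))))))))))
(P (B 2 (L 0) (B 1 (L 0) (B 3 (F 0 5 (LE 5 1)) (B 0 (L 0) (F 0 4 (D 0))))))))
(P (B 0 (L 0) (B 4 (LD 4 1) (B 5 (LD 5 3) (B 1 (F 0 3 (L 0)) (F 0 2 (F 0 3 (L 0)))))))))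
(Q 4 5 0 (P (B 0 (L 0) (B 3 (L 0) (B 1 (LE 0 0) (B 4 (F 0 2 (LE 0 1)) (F 0 2 (F 0 5 (L 5))))))))
(P (B 0 (L 0) (B 4 (LD 4 1) (B 3 (L 0) (B 1 (F 0 5 (L 5)) (F 0 2 (F 0 5 (L 5)))))))))))))
(P (B 0 (L 0) (B 4 (LD 4 1) (B 3 (L 3) (B 1 (F 0 5 (L 5)) (F 0 2 (F 0 5 (L 5))))))))))))))
(Q 4 9 3072 (Q 3 5 0 (Q 3 4 0 (N 3 (Bad 3)
(N 3 (Bad 3)
(N 3 (P (B 0 (LE 0 3) (S 0 (L 5) (LD 4 2) (B 1 (L 0) (F 0 2 (L 0))) (L 0) (L 0) X X)))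
(P (B 0 (L 0) (S 0 (L 5) (LD 4 2) (B 1 (L 0) (F 0 2 (L 0))) (L 0) (L 0) X X))))))
(Q 5 6 384 (N 3 (Bad 3)
(N 3 (Bad 3)
(N 3 (Bad 3)
(Q 5 7 256 (P (B 0 (L 0) (B 4 (LD 4 2) (B 1 (LE 0 0) (B 3 (F 0 2 (L 0)) (F 0 2 (F 0 5 (F 1 8 (L 0)))))))))
(Q 4 5 0 (Q 4 10 2048 (P (B 0 (L 0) (B 1 (L 0) (B 3 (B 2 (L 0) (F 0 4 (D 2))) (B 2 (LE 0 0) (F 0 4 (D 0)))))))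
(Q 5 12 24576 (P (B 0 (L 0) (B 4 (LD 4 2) (B 1 (LE 0 0) (B 3 (F 0 2 (L 0)) (F 0 2 (F 0 5 (LE 0 1))))))))
(N 3 (Q 4 12 24576 (P (B 0 (L 0) (B 1 (L 0) (B 5 (F 0 2 (LE 0 1)) (B 3 (B 2 (L 0) (F 0 4 (F 2 10 (F 2 11 (LE 0 1))))) (F 0 2 (F 0 4 (F 3 13 (F 3 14 (L 4))))))))))
(P (B 0 (L 0) (B 1 (L 0) (S 0 (F 0 2 (LE 0 1)) (B 2 (LD 4 3) (F 0 3 (F 2 10 (F 2 11 (LE 4 1))))) (B 2 (L 0) (F 0 4 (F 2 10 (F 2 11 (LE 4 1))))) (L 0) X X X)))))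
(P (B 0 (L 0) (B 4 (LD 4 2) (B 3 (B 1 (L 0) (F 0 2 (L 0))) (B 1 (F 0 5 (L 5)) (F 0 2 (F 0 5 (LE 0 1)))))))))))
(P (B 0 (L 0) (B 4 (LD 4 2) (B 3 (B 1 (L 0) (F 0 2 (L 0))) (B 5 (LD 5 1) (F 0 1 (D 0))))))))))))
(N 3 (Bad 3)
(N 3 (Bad 3)
(N 3 (Bad 3)
(Q 4 5 0 (P (B 2 (L 0) (B 0 (L 0) (B 5 (F 0 1 (L 5)) (B 1 (B 4 (LE 4 2) (F 0 3 (L 0))) (F 0 3 (F 0 4 (F 2 10 (F 2 11 (LE 0 1))))))))))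
(P (B 0 (L 0) (B 4 (LD 4 2) (B 1 (B 3 (L 0) (F 0 5 (L 5))) (B 2 (LE 0 0) (F 0 3 (D 0)))))))))))))
(Q 5 9 0 (Q 5 10 2048 (P (B 2 (L 0) (B 0 (L 0) (B 3 (B 1 (L 3) (B 4 (F 2 10 (F 2 11 (LE 3 1))) (F 0 5 (D 2)))) (B 1 (B 9 (D 0) (LE 0 0)) (F 0 4 (F 0 5 (D 2))))))))
(Q 4 10 2048 (P (B 0 (L 0) (B 5 (LD 5 2) (B 1 (B 3 (L 3) (F 0 4 (F 2 11 (L 0)))) (B 2 (LE 0 0) (F 0 3 (F 0 4 (D 2))))))))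
(Q 3 4 0 (P (B 0 (L 0) (B 5 (LD 5 2) (B 1 (B 3 (L 3) (F 0 4 (LE 4 2))) (B 2 (LE 0 0) (F 0 3 (D 0)))))))
(N 3 (Bad 3)
(N 3 (Bad 3)
(N 3 (Bad 3)
(N 3 (Bad 3)
(N 3 (Q 4 5 0 (P (B 1 (B 9 (F 0 3 (L 0)) (LE 0 2)) (B 2 (L 0) (B 3 (B 9 (D 0) (F 2 10 (F 2 11 (LE 0 0)))) (B 0 (L 0) (F 0 4 (D 0)))))))
(P (B 0 (L 0) (B 4 (LD 4 2) (B 5 (LD 5 2) (B 1 (F 0 3 (L 0)) (F 0 2 (F 0 3 (L 0)))))))))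
(P (B 0 (L 0) (B 5 (LD 5 2) (B 3 (L 0) (B 1 (F 0 4 (LE 4 2)) (F 0 2 (F 0 4 (L 4))))))))))))))))
(Q 4 10 2048 (Q 4 11 0 (P (B 0 (L 0) (B 2 (L 0) (B 4 (D 2) (B 5 (LD 5 1) (F 0 1 (F 0 3 (L 3))))))))
(Q 5 10 0 (P (B 0 (L 0) (B 5 (LD 5 2) (B 1 (B 3 (L 3) (F 0 4 (F 2 11 (L 0)))) (B 2 (LE 0 0) (F 0 3 (F 0 4 (D 2))))))))
(Q 5 11 0 (P (B 0 (L 0) (B 5 (LD 5 2) (B 1 (B 3 (L 3) (F 0 4 (F 2 11 (L 0)))) (B 2 (LE 0 0) (F 0 3 (F 0 4 (D 2))))))))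
(Q 5 6 384 (P (B 0 (L 0) (B 5 (LD 5 1) (B 1 (B 3 (L 3) (F 0 4 (F 2 11 (L 0)))) (B 2 (LE 0 0) (F 0 3 (F 0 4 (D 2))))))))
(Q 4 3 32 (N 3 (Bad 3)
(N 3 (Bad 3)
(N 3 (Bad 3)
(N 3 (Q 5 12 24576 (P (B 0 (L 0) (B 5 (LD 5 3) (B 1 (B 3 (L 0) (F 0 4 (F 2 11 (L 0)))) (B 2 (LE 0 0) (F 0 3 (D 0)))))))
(P (B 0 (L 0) (B 2 (L 0) (B 4 (F 2 1 (F 2 11 (L 4))) (B 1 (B 5 (LD 5 3) (F 0 3 (L 0))) (F 0 3 (F 0 5 (LE 5 1)))))))))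
(P (B 0 (L 0) (B 3 (L 0) (B 1 (LE 0 0) (B 2 (LE 0 0) (F 0 4 (D 2)))))))))))
(P (B 0 (L 0) (B 2 (L 0) (B 4 (F 2 1 (F 2 11 (L 4))) (B 3 (LD 3 1) (F 0 1 (F 0 5 (L 5)))))))))))))
(Q 5 6 384 (Q 5 7 256 (P (B 2 (L 0) (B 0 (L 0) (B 4 (B 1 (LE 4 2) (F 2 10 (F 2 11 (B 5 (D 1) (F 0 3 (LE 3 1)))))) (B 1 (LE 0 0) (F 0 3 (F 0 5 (D 1))))))))
(Q 3 4 0 (P (B 0 (L 0) (B 5 (LD 5 1) (B 1 (B 3 (L 3) (F 0 4 (LE 4 2))) (B 2 (LE 0 0) (F 0 3 (D 0)))))))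
(N 3 (Bad 3)
(N 3 (Bad 3)
(N 3 (Bad 3)
(N 3 (Bad 3)
(N 3 (Q 4 5 0 (Q 5 10 2048 (Q 5 11 0 (P (B 0 (L 0) (B 4 (LD 4 2) (B 1 (B 3 (L 0) (F 0 5 (F 2 9 (LE 0 3)))) (B 2 (LE 0 0) (F 0 3 (F 0 5 (D 2))))))))
(P (B 3 (L 0) (B 1 (B 4 (LE 4 2) (F 0 5 (LE 5 2))) (B 2 (B 4 (LE 4 3) (F 0 5 (LE 5 1))) (B 0 (L 0) (F 0 4 (D 0))))))))
(P (B 3 (L 0) (B 1 (B 4 (LE 4 2) (F 0 5 (LE 5 3))) (B 2 (B 4 (LE 4 3) (F 0 5 (LE 5 1))) (B 0 (L 0) (F 0 4 (D 0))))))))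
(P (B 0 (L 0) (B 4 (LD 4 2) (B 5 (LD 5 1) (B 1 (F 0 3 (L 0)) (F 0 2 (F 0 3 (L 0)))))))))
(P (B 0 (L 0) (B 5 (LD 5 1) (B 3 (L 0) (B 1 (F 0 4 (LE 4 2)) (F 0 2 (F 0 4 (L 4)))))))))))))))
(Q 5 10 2048 (Q 5 11 0 (P (B 0 (L 0) (B 4 (LD 4 2) (B 1 (B 5 (F 2 9 (L 5)) (F 0 3 (L 3))) (B 2 (LE 0 0) (F 0 3 (F 0 5 (D 2))))))))
(Q 3 4 0 (P (B 0 (L 0) (B 5 (LD 5 2) (B 1 (B 3 (L 3) (F 0 4 (LE 4 2))) (B 2 (LE 0 0) (F 0 3 (D 0)))))))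
(P (B 2 (L 0) (B 0 (L 0) (B 3 (LD 3 1) (B 1 (B 4 (LE 4 2) (F 0 5 (LE 5 2))) (F 0 4 (F 0 5 (D 2))))))))))
(Q 4 3 32 (N 3 (Bad 3)
(N 3 (Bad 3)
(N 3 (Bad 3)
(N 3 (Q 4 5 0 (P (B 0 (L 0) (B 5 (LD 5 3) (B 1 (B 3 (L 0) (F 0 4 (LE 4 2))) (B 2 (LE 0 0) (F 0 3 (D 0)))))))
(P (B 0 (L 0) (B 4 (LD 4 2) (B 5 (LD 5 3) (B 1 (F 0 3 (L 0)) (F 0 2 (F 0 3 (L 0)))))))))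
(Q 4 5 0 (P (B 0 (L 0) (B 3 (L 0) (B 1 (LE 0 0) (B 2 (LE 0 0) (F 0 4 (D 0)))))))
(P (B 0 (L 0) (B 4 (LD 4 2) (B 3 (L 0) (B 1 (F 0 5 (L 5)) (F 0 2 (F 0 5 (L 5)))))))))))))
(P (B 0 (L 0) (B 4 (LD 4 2) (B 3 (L 3) (B 1 (F 0 5 (L 5)) (F 0 2 (F 0 5 (L 5))))))))))))))
(Q 5 6 384 (Q 5 3 16 (Q 3 4 0 (N 3 (Bad 3)
(N 3 (Bad 3)
(N 3 (P (B 0 (LE 0 3) (B 5 (LD 5 1) (B 1 (LD 0 3) (B 3 (F 0 2 (L 0)) (F 0 2 (F 0 4 (LE 4 3))))))))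
(P (B 0 (L 0) (B 3 (B 1 (L 0) (F 0 2 (L 0))) (B 5 (LD 5 1) (B 1 (F 0 4 (L 4)) (F 0 2 (F 0 4 (L 4)))))))))))
(N 3 (Bad 3)
(N 3 (Bad 3)
(N 3 (Bad 3)
(N 3 (Q 4 5 0 (Q 5 9 3072 (Q 4 12 24576 (P (B 3 (L 0) (B 1 (B 4 (F 3 13 (F 3 14 (L 4))) (F 0 5 (LE 0 2))) (B 5 (F 0 2 (LE 0 1)) (B 0 (L 0) (F 0 2 (F 0 4 (F 3 13 (F 3 14 (L 4))))))))))
(N 4 (Bad 4)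
(N 4 (Bad 4)
(N 4 (Bad 4)
(N 4 (P (B 0 (L 0) (B 3 (LD 0 4) (B 1 (B 4 (LE 0 3) (F 0 5 (LE 0 2))) (B 4 (F 0 2 (LE 0 3)) (F 0 2 (F 0 5 (LE 0 1))))))))
(P (B 0 (L 0) (B 4 (LD 0 3) (B 1 (LE 0 0) (B 3 (F 0 2 (L 0)) (F 0 2 (F 0 5 (LE 0 1)))))))))))))
(P (B 0 (L 0) (B 4 (LD 4 3) (B 1 (LE 0 0) (B 3 (F 0 2 (L 0)) (F 0 2 (F 0 5 (LE 5 1)))))))))
(P (B 0 (L 0) (B 5 (LD 5 1) (B 4 (LD 4 3) (B 1 (F 0 3 (L 0)) (F 0 2 (F 0 3 (L 0)))))))))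
(Q 5 7 256 (P (B 0 (L 0) (B 3 (L 0) (B 1 (LE 0 0) (B 2 (LE 0 0) (F 0 4 (F 0 5 (D 1))))))))
(Q 4 5 0 (P (B 0 (L 0) (B 3 (L 0) (B 1 (LE 0 0) (B 4 (F 0 2 (L 4)) (F 0 2 (F 0 5 (LE 0 1))))))))
(P (B 0 (L 0) (B 5 (LD 5 1) (B 3 (L 0) (B 1 (F 0 4 (L 4)) (F 0 2 (F 0 4 (L 4)))))))))))))))
(Q 3 4 0 (P (B 0 (L 0) (B 5 (LD 5 1) (B 1 (LE 0 0) (B 3 (F 0 2 (L 3)) (F 0 2 (F 0 4 (L 4))))))))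
(P (B 0 (L 0) (B 5 (LD 5 1) (B 3 (L 3) (B 1 (F 0 4 (L 4)) (F 0 2 (F 0 4 (L 4))))))))))
(Q 5 9 3072 (Q 5 3 16 (Q 3 4 0 (N 3 (Bad 3)
(N 3 (Bad 3)
(N 3 (P (B 0 (LE 0 3) (B 5 (LD 5 2) (B 1 (LD 0 3) (B 3 (F 0 2 (L 0)) (F 0 2 (F 0 4 (LE 4 3))))))))
(P (B 0 (L 0) (B 3 (B 1 (L 0) (F 0 2 (L 0))) (B 5 (LD 5 2) (B 1 (F 0 4 (L 4)) (F 0 2 (F 0 4 (L 4)))))))))))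
(N 3 (Bad 3)
(N 3 (Bad 3)
(N 3 (Bad 3)
(N 3 (Q 4 5 0 (P (B 0 (L 0) (B 4 (LD 4 3) (B 1 (B 3 (L 0) (F 0 5 (LE 5 2))) (B 2 (LE 0 0) (F 0 3 (D 0)))))))
(P (B 0 (L 0) (B 5 (LD 5 2) (B 4 (LD 4 3) (B 1 (F 0 3 (L 0)) (F 0 2 (F 0 3 (L 0)))))))))
(Q 4 5 0 (P (B 0 (L 0) (B 3 (L 0) (B 1 (LE 0 0) (B 2 (LE 0 0) (F 0 4 (D 0)))))))
(P (B 0 (L 0) (B 5 (LD 5 2) (B 3 (L 0) (B 1 (F 0 4 (L 4)) (F 0 2 (F 0 4 (L 4))))))))))))))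
(Q 3 4 0 (P (B 0 (L 0) (B 5 (LD 5 2) (B 1 (LE 0 0) (B 3 (F 0 2 (L 3)) (F 0 2 (F 0 4 (L 4))))))))
(P (B 0 (L 0) (B 5 (LD 5 2) (B 3 (L 3) (B 1 (F 0 4 (L 4)) (F 0 2 (F 0 4 (L 4))))))))))
(Q 3 4 32 (Q 5 3 16 (N 3 (Bad 3)
(N 3 (Bad 3)
(N 3 (P (B 0 (LE 0 3) (S 0 (L 5) (L 4) (B 1 (L 0) (F 0 2 (L 0))) (L 0) (L 0) X X)))
(Q 4 5 0 (P (B 0 (L 0) (S 0 (LE 5 0) (LE 4 0) (LE 0 0) (L 0) (L 0) X X)))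
(P (B 0 (L 0) (B 3 (B 1 (L 0) (F 0 2 (L 0))) (B 4 (L 4) (B 1 (F 0 5 (L 5)) (F 0 2 (F 0 5 (L 5))))))))))))
(N 3 (Bad 3)
(N 3 (Bad 3)
(N 3 (Bad 3)
(N 3 (P (B 0 (L 0) (B 1 (B 3 (L 0) (B 5 (LE 5 3) (F 0 4 (L 4)))) (B 5 (LD 5 2) (B 3 (F 0 2 (L 0)) (F 0 2 (F 0 4 (L 4))))))))
(P (B 0 (L 0) (B 1 (L 0) (B 5 (LD 5 2) (B 3 (F 0 2 (L 0)) (F 0 2 (F 0 4 (L 4)))))))))))))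
(Q 4 5 0 (P (B 0 (L 0) (B 3 (L 3) (B 1 (B 4 (L 4) (F 0 5 (L 5))) (B 4 (F 0 2 (L 4)) (F 0 2 (F 0 5 (L 5))))))))
(N 3 (Bad 3)
(N 3 (Bad 3)
(N 3 (Bad 3)
(N 3 (Bad 3)
(N 3 (P (B 0 (L 0) (B 3 (L 0) (B 4 (LE 4 3) (B 1 (F 0 5 (LE 5 3)) (F 0 2 (F 0 5 (LE 5 3))))))))
(P (B 0 (L 0) (B 3 (L 0) (B 4 (L 4) (B 1 (F 0 5 (L 5)) (F 0 2 (F 0 5 (L 5)))))))))))))))))))))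
(N 2 (Q 3 6 384 (Q 4 5 0 (P (B 0 (L 0) (B 3 (LD 3 1) (B 2 (LE 0 0) (B 1 (LE 0 0) (F 0 4 (D 0)))))))
(Q 3 7 256 (P (B 0 (L 0) (B 2 (L 0) (B 4 (LD 4 1) (B 1 (LE 0 0) (F 0 3 (D 1)))))))
(Q 4 6 0 (P (B 1 (L 0) (B 2 (L 0) (B 7 (LD 7 0) (B 0 (LE 0 1) (F 1 6 (D 0)))))))
(Q 4 7 256 (P (B 0 (L 0) (B 2 (L 0) (B 5 (LD 5 1) (B 1 (LE 0 0) (F 0 3 (F 0 4 (D 1))))))))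
(Q 5 6 0 (P (B 1 (L 0) (B 2 (L 0) (B 7 (LD 7 0) (B 0 (LE 0 1) (F 1 6 (D 0)))))))
(Q 5 7 256 (P (B 0 (L 0) (B 2 (L 0) (B 4 (LD 4 1) (B 1 (LE 0 0) (F 0 3 (F 0 5 (D 1))))))))
(Q 3 4 32 (P (B 0 (L 0) (B 2 (L 0) (B 5 (LD 5 1) (B 1 (LE 0 0) (F 0 3 (D 0)))))))
(P (B 0 (L 0) (B 3 (LD 3 1) (S 0 (L 5) (L 4) (LE 0 0) (B 4 (L 4) (F 0 5 (L 5))) X X X)))))))))))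
(Q 4 5 0 (P (B 0 (L 0) (B 2 (L 0) (B 3 (LD 3 1) (B 1 (LE 0 0) (F 0 4 (D 0)))))))
(Q 4 6 384 (Q 5 7 256 (P (B 0 (L 0) (B 2 (L 0) (B 3 (LD 3 1) (B 1 (LE 0 0) (F 0 4 (F 0 5 (D 1))))))))
(Q 4 7 256 (P (B 0 (L 0) (B 2 (L 0) (B 3 (LD 3 1) (B 1 (LE 0 0) (F 0 4 (D 1)))))))
(Q 5 6 0 (P (B 1 (L 0) (B 2 (L 0) (B 7 (LD 7 0) (B 0 (LE 0 1) (F 1 6 (D 0)))))))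
(Q 3 5 0 (P (B 0 (L 0) (B 4 (LD 4 1) (B 2 (LE 0 0) (B 3 (F 0 1 (L 3)) (F 0 1 (F 0 5 (L 5))))))))
(Q 3 4 0 (P (B 0 (L 0) (B 2 (L 0) (B 5 (LD 5 1) (B 3 (F 0 1 (L 3)) (F 0 1 (F 0 4 (L 4))))))))
(P (B 0 (L 0) (B 4 (LD 4 1) (S 0 (L 5) (L 3) (LE 0 0) (B 3 (L 3) (F 0 5 (L 5))) X X X)))))))))
(Q 5 6 384 (Q 3 4 0 (P (B 0 (L 0) (B 5 (LD 5 1) (B 2 (LE 0 0) (B 3 (F 0 1 (L 3)) (F 0 1 (F 0 4 (L 4))))))))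
(Q 5 7 256 (P (B 0 (L 0) (B 2 (L 0) (B 3 (LD 3 1) (B 1 (LE 0 0) (F 0 4 (F 0 5 (D 1))))))))
(Q 3 5 0 (P (B 0 (L 0) (B 2 (L 0) (B 4 (LD 4 1) (B 3 (F 0 1 (L 3)) (F 0 1 (F 0 5 (L 5))))))))
(P (B 0 (L 0) (B 5 (LD 5 1) (S 0 (L 4) (L 3) (LE 0 0) (B 3 (L 3) (F 0 4 (L 4))) X X X)))))))
(Q 3 4 32 (P (B 0 (L 0) (B 2 (L 0) (B 5 (LD 5 1) (B 3 (F 0 1 (L 3)) (F 0 1 (F 0 4 (L 4))))))))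
(Q 3 9 7168 (Q 3 10 6144 (P (B 0 (L 0) (B 3 (LD 3 2) (S 0 (L 5) (L 4) (LE 0 0) (B 4 (L 4) (F 0 5 (L 5))) X X X))))
(N 3 (Bad 3)
(N 3 (Bad 3)
(N 3 (Bad 3)
(N 3 (P (B 0 (L 0) (B 2 (LD 0 3) (S 0 (LD 5 1) (LD 4 1) (LD 0 1) (B 3 (L 0) (B 4 (LE 4 3) (F 0 5 (LE 5 3)))) X X X))))
(P (B 0 (L 0) (B 3 (L 0) (S 0 (L 5) (L 4) (LE 0 0) (B 4 (L 4) (F 0 5 (L 5))) X X X)))))))))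
(N 3 (Bad 3)
(N 3 (Bad 3)
(N 3 (Bad 3)
(N 3 (Bad 3)
(N 3 (P (B 0 (L 0) (B 3 (L 0) (S 0 (LE 5 3) (LE 4 3) (LE 0 0) (B 4 (LE 4 3) (F 0 5 (LE 5 3))) X X X))))
(P (B 0 (L 0) (B 3 (L 0) (S 0 (L 5) (L 4) (LE 0 0) (B 4 (L 4) (F 0 5 (L 5))) X X X)))))))))))))))
(P (B 0 (L 0) (B 2 (L 0) (S 0 (LD 5 1) (LD 4 1) (LD 3 1) (L 0) X X X)))))))))))
(N 1 (Q 2 3 48 (Q 2 4 32 (P (B 0 (L 0) (S 0 (L 5) (L 4) (L 3) (F 0 5 (L 5)) (L 0) X X)))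
(Q 3 4 32 (P (B 0 (L 0) (B 1 (L 0) (S 0 (LE 5 1) (LE 4 0) (F 0 5 (LE 5 1)) (LE 2 0) X X X))))
(Q 3 6 896 (Q 3 7 768 (P (B 0 (L 0) (B 1 (L 0) (S 0 (LE 5 1) (LE 4 1) (F 1 8 (F 1 9 (LE 3 0))) (LE 2 0) X X X))))
(N 3 (Bad 3)
(N 3 (Bad 3)
(N 3 (P (B 0 (L 0) (S 0 (L 5) (L 4) (LD 0 1) (LE 2 0) (LD 0 3) X X)))
(P (B 0 (L 0) (S 0 (L 5) (L 4) (LD 0 1) (LE 2 0) (L 0) X X)))))))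
(N 3 (Bad 3)
(N 3 (Bad 3)
(N 3 (Bad 3)
(N 3 (Q 4 10 6144 (P (B 0 (L 0) (B 1 (LD 0 3) (B 4 (LD 4 3) (B 5 (LE 5 0) (F 0 2 (D 0)))))))
(Q 5 10 6144 (P (B 0 (L 0) (B 5 (LD 5 3) (B 3 (B 1 (L 0) (F 0 4 (LE 4 1))) (B 4 (LE 4 0) (F 0 1 (D 0)))))))
(P (B 0 (L 0) (B 1 (LD 0 3) (S 0 (LE 5 1) (LE 4 1) (B 4 (LE 4 1) (F 0 5 (LE 5 1))) (LE 2 0) X X X))))))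
(P (B 0 (L 0) (S 0 (L 5) (L 4) (L 0) (LE 2 0) (L 0) X X))))))))))
(Q 2 6 896 (Q 2 7 768 (Q 2 8 512 (P (B 0 (L 0) (S 0 (L 5) (L 4) (L 3) (F 1 9 (L 9)) (L 0) X X)))
(N 2 (Bad 2)
(N 2 (P (B 0 (L 0) (B 1 (F 2 10 (L 0)) (S 0 (LD 5 2) (LD 4 2) (LD 3 2) (LE 0 1) X X X))))
(P (B 0 (L 0) (S 0 (L 5) (L 4) (L 3) (LE 0 1) (L 0) X X))))))
(N 2 (Bad 2)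
(N 2 (Bad 2)
(N 2 (Q 3 10 2048 (P (B 2 (L 0) (S 2 (L 11) (LD 10 0) (LD 6 0) (LE 0 2) (L 0) X X)))
(Q 4 5 0 (P (B 0 (L 0) (B 1 (LE 0 2) (B 3 (LD 3 2) (B 2 (LE 0 0) (F 0 4 (D 0)))))))
(Q 4 10 2048 (P (B 2 (L 0) (S 2 (L 11) (LD 10 0) (LD 6 0) (LE 0 2) (L 0) X X)))
(Q 5 10 2048 (P (B 2 (L 0) (S 2 (L 11) (LD 10 0) (LD 6 0) (LE 0 2) (L 0) X X)))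
(Q 3 4 32 (P (B 0 (L 0) (B 1 (LE 0 2) (B 5 (LD 5 2) (B 2 (LE 0 0) (F 0 3 (D 0)))))))
(Q 3 6 0 (P (B 0 (L 0) (B 2 (L 0) (S 2 (LE 11 0) (LE 10 0) (F 0 4 (F 0 5 (LE 4 2))) (LE 0 2) X X X))))
(Q 4 6 0 (P (B 0 (L 0) (B 2 (L 0) (S 2 (LE 11 0) (LE 10 0) (F 0 3 (F 0 5 (LE 3 2))) (LE 0 2) X X X))))
(P (B 2 (B 3 (L 3) (B 4 (L 4) (F 0 5 (L 5)))) (S 2 (L 11) (L 10) (LD 6 0) (LE 0 2) (L 0) X X))))))))))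
(N 2 (Q 3 4 32 (Q 3 5 0 (P (B 0 (L 0) (B 1 (L 0) (B 4 (LE 4 0) (B 2 (LE 0 0) (F 0 3 (D 0)))))))
(Q 4 5 0 (P (B 0 (L 0) (B 1 (L 0) (B 3 (LE 3 0) (B 2 (LE 0 0) (F 0 4 (D 0)))))))
(Q 3 6 0 (Q 3 7 768 (P (B 0 (L 0) (S 0 (L 5) (L 4) (LD 3 1) (L 0) (L 0) X X)))
(Q 3 10 6144 (P (B 0 (L 0) (S 0 (L 5) (L 4) (LD 3 2) (L 0) (L 0) X X)))
(N 3 (Bad 3)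
(N 3 (Bad 3)
(N 3 (P (B 0 (L 0) (B 1 (LD 0 3) (B 2 (LD 0 3) (B 5 (LE 5 0) (F 0 3 (D 0)))))))
(P (B 0 (L 0) (S 0 (L 5) (L 4) (L 0) (L 0) (L 0) X X))))))))
(Q 5 6 0 (P (B 0 (L 0) (B 1 (L 0) (B 6 (F 0 3 (D 0)) (B 5 (LD 5 2) (B 2 (LE 0 0) (F 0 3 (D 0))))))))
(Q 3 7 768 (Q 3 8 512 (P (B 0 (L 0) (S 0 (L 5) (L 4) (LD 3 1) (L 0) (L 0) X X)))
(Q 3 10 6144 (Q 3 11 4096 (P (B 0 (L 0) (B 2 (L 0) (S 0 (LE 5 2) (LE 4 0) (B 1 (F 2 12 (L 0)) (F 0 5 (F 2 6 (F 2 12 (LE 5 1))))) (L 0) X X X))))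
(N 3 (Bad 3)
(N 3 (P (B 0 (L 0) (B 1 (LD 0 3) (B 2 (LD 0 3) (B 5 (LE 5 0) (F 0 3 (D 0)))))))
(P (B 0 (L 0) (S 0 (L 5) (L 4) (L 0) (L 0) (L 0) X X))))))
(N 3 (Bad 3)
(N 3 (Bad 3)
(N 3 (P (B 0 (L 0) (B 2 (L 0) (B 1 (LD 0 3) (B 5 (LE 5 0) (F 0 3 (D 0)))))))
(P (B 0 (L 0) (S 0 (L 5) (L 4) (L 0) (L 0) (L 0) X X))))))))
(Q 3 10 6144 (Q 3 11 4096 (P (B 0 (L 0) (B 2 (L 0) (S 0 (LE 5 2) (LE 4 0) (B 1 (F 2 12 (L 3)) (F 0 5 (F 2 6 (F 2 12 (L 5))))) (L 0) X X X))))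
(N 3 (Bad 3)
(N 3 (Bad 3)
(N 3 (P (B 0 (L 0) (B 1 (L 0) (B 2 (LD 0 3) (B 5 (LE 5 0) (F 0 3 (D 0)))))))
(P (B 0 (L 0) (S 0 (L 5) (L 4) (L 0) (L 0) (L 0) X X)))))))
(N 3 (Bad 3)
(N 3 (Bad 3)
(N 3 (Bad 3)
(N 3 (Q 5 13 49152 (P (B 0 (L 0) (B 5 (LD 5 3) (B 1 (LE 0 0) (B 2 (LE 0 0) (F 0 3 (D 0)))))))
(P (B 0 (L 0) (S 0 (L 5) (L 4) (B 1 (L 0) (B 2 (L 0) (F 0 5 (LE 5 1)))) (L 0) (L 0) X X))))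
(P (B 0 (L 0) (S 0 (L 5) (L 4) (L 0) (L 0) (L 0) X X)))))))))))))
(Q 3 6 0 (Q 4 5 0 (P (B 0 (L 0) (B 1 (L 0) (B 6 (F 0 4 (D 0)) (B 3 (LD 3 2) (B 2 (LE 0 0) (F 0 4 (D 0))))))))
(Q 3 7 768 (P (B 0 (L 0) (S 0 (L 5) (L 4) (LD 3 1) (L 0) (L 0) X X)))
(Q 3 10 6144 (P (B 0 (L 0) (S 0 (L 5) (L 4) (LD 3 2) (L 0) (L 0) X X)))
(N 3 (Bad 3)
(N 3 (Bad 3)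
(N 3 (Bad 3)
(N 3 (P (B 0 (L 0) (B 1 (LD 0 3) (S 0 (LE 5 1) (LE 4 1) (LD 0 2) (LD 0 3) X X X))))
(P (B 0 (L 0) (S 0 (L 5) (L 4) (L 0) (L 0) (L 0) X X))))))))))
(Q 3 7 768 (Q 4 5 0 (P (B 0 (L 0) (B 1 (L 0) (B 3 (LE 3 1) (B 2 (LE 0 0) (F 0 4 (D 0)))))))
(Q 3 8 512 (P (B 0 (L 0) (S 0 (L 5) (L 4) (LD 3 1) (L 0) (L 0) X X)))
(Q 3 10 6144 (Q 3 11 4096 (P (B 0 (L 0) (S 0 (L 5) (L 4) (LD 3 2) (L 0) (L 0) X X)))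
(N 3 (Bad 3)
(N 3 (Bad 3)
(N 3 (P (B 0 (L 0) (B 1 (LD 0 3) (S 0 (LE 5 1) (LE 4 1) (LD 0 2) (LD 0 3) X X X))))
(P (B 0 (L 0) (S 0 (L 5) (L 4) (L 0) (L 0) (L 0) X X)))))))
(N 3 (Bad 3)
(N 3 (Bad 3)
(N 3 (Bad 3)
(N 3 (P (B 0 (L 0) (B 1 (LD 0 3) (S 0 (LE 5 1) (LE 4 1) (LE 0 1) (L 0) X X X))))
(P (B 0 (L 0) (S 0 (L 5) (L 4) (L 0) (L 0) (L 0) X X))))))))))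
(Q 3 10 6144 (Q 4 5 0 (P (B 0 (L 0) (B 1 (L 0) (B 3 (LD 3 2) (B 2 (LE 0 0) (F 0 4 (D 0)))))))
(Q 3 11 4096 (P (B 0 (L 0) (S 0 (L 5) (L 4) (LD 3 2) (L 0) (L 0) X X)))
(N 3 (Bad 3)
(N 3 (Bad 3)
(N 3 (Bad 3)
(N 3 (P (B 0 (L 0) (B 2 (LD 0 3) (S 0 (LE 5 2) (LE 4 2) (LE 0 2) (L 0) X X X))))
(P (B 0 (L 0) (S 0 (L 5) (L 4) (L 0) (L 0) (L 0) X X)))))))))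
(N 3 (Bad 3)
(N 3 (Bad 3)
(N 3 (Bad 3)
(N 3 (Bad 3)
(N 3 (Q 4 5 0 (P (B 0 (L 0) (B 3 (L 0) (B 1 (LE 0 0) (B 2 (LE 0 0) (F 0 4 (D 0)))))))
(Q 4 13 114688 (P (B 0 (L 0) (S 0 (L 5) (LD 4 3) (L 0) (L 0) (L 0) X X)))
(Q 5 13 114688 (P (B 0 (L 0) (B 5 (LD 5 3) (B 3 (B 1 (L 0) (B 2 (L 0) (F 0 4 (LE 4 1)))) (B 4 (LE 4 0) (F 0 1 (D 0)))))))
(Q 4 6 0 (Q 4 7 768 (P (B 0 (L 0) (B 4 (LD 4 1) (B 3 (B 1 (L 0) (B 2 (L 0) (F 0 5 (LE 5 1)))) (B 5 (LE 5 0) (F 0 1 (D 0)))))))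
(Q 4 10 6144 (P (B 0 (L 0) (B 4 (LD 4 2) (B 3 (B 1 (L 0) (B 2 (L 0) (F 0 5 (LE 5 1)))) (B 5 (LE 5 0) (F 0 1 (D 0)))))))
(N 4 (Bad 4)
(N 4 (Bad 4)
(N 4 (Bad 4)
(N 4 (P (B 0 (L 0) (B 1 (LD 0 4) (S 0 (LE 5 1) (LD 0 2) (LE 0 1) (LD 0 4) X X X))))
(P (B 0 (L 0) (B 4 (L 0) (B 3 (L 0) (B 5 (LE 5 0) (F 0 1 (D 0)))))))))))))
(Q 4 7 768 (Q 5 10 6144 (Q 5 11 4096 (P (B 0 (L 0) (B 2 (L 0) (B 4 (LD 4 1) (B 1 (LE 0 0) (F 0 3 (F 0 5 (F 2 6 (F 2 12 (L 5))))))))))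
(P (B 0 (L 0) (B 1 (L 0) (B 4 (LE 4 1) (B 5 (B 3 (LD 5 2) (F 0 2 (LE 5 3))) (F 0 2 (F 0 3 (L 0)))))))))
(P (B 0 (L 0) (B 1 (L 0) (B 4 (LE 4 1) (B 2 (B 3 (L 0) (F 0 5 (LE 5 3))) (F 0 3 (F 0 5 (LE 5 1)))))))))
(Q 5 7 768 (P (B 0 (L 0) (B 2 (L 0) (B 5 (LD 5 1) (B 1 (B 3 (L 0) (F 0 4 (LE 4 3))) (F 0 3 (F 0 4 (LE 4 1))))))))
(P (B 0 (L 0) (B 3 (L 0) (S 0 (LE 5 3) (LE 4 3) (LE 0 0) (B 4 (LE 4 3) (F 0 5 (LE 5 3))) X X X))))))))))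
(P (B 0 (L 0) (S 0 (L 5) (L 4) (L 0) (L 0) (L 0) X X))))))))))))
(P (B 0 (L 0) (S 0 (L 5) (L 4) (L 3) (L 0) (L 0) X X))))))))
(N 2 (Bad 2)
(N 2 (Bad 2)
(N 2 (Bad 2)
(N 2 (Q 3 10 6144 (Q 4 5 0 (P (B 0 (L 0) (B 3 (LD 3 2) (B 1 (LE 0 0) (B 2 (LE 0 0) (F 0 4 (D 0)))))))
(Q 3 11 4096 (P (B 0 (L 0) (B 1 (L 0) (B 4 (LD 4 2) (B 2 (LE 0 0) (F 0 3 (D 2)))))))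
(Q 4 10 0 (Q 5 10 0 (P (B 0 (L 0) (S 0 (LD 5 2) (LD 4 2) (LD 3 2) (L 0) (L 0) X X)))
(Q 5 11 4096 (P (B 0 (L 0) (B 3 (LD 3 2) (B 1 (LE 0 0) (B 2 (LE 0 0) (F 0 4 (F 0 5 (D 2))))))))
(Q 4 11 4096 (P (B 0 (L 0) (B 1 (L 0) (B 5 (LD 5 2) (B 2 (LE 0 0) (F 0 3 (F 0 4 (D 2))))))))
(Q 5 6 896 (Q 5 7 768 (P (B 0 (L 0) (S 0 (LD 5 1) (LD 4 2) (LD 3 2) (L 0) (L 0) X X)))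
(P (B 2 (L 0) (B 0 (L 0) (S 2 (LE 12 0) (LE 11 0) (F 0 1 (F 0 5 (L 5))) (L 0) X X X)))))
(P (B 0 (L 0) (S 0 (L 5) (LD 4 2) (LD 3 2) (L 0) (B 5 (L 5) (B 10 (D 0) (LE 0 0))) X X)))))))
(Q 4 11 4096 (P (B 0 (L 0) (B 1 (L 0) (B 5 (LD 5 2) (B 2 (LE 0 0) (F 0 3 (F 0 4 (D 2))))))))
(Q 5 10 0 (Q 5 11 4096 (P (B 0 (L 0) (B 1 (L 0) (B 4 (LD 4 2) (B 2 (LE 0 0) (F 0 3 (F 0 5 (D 2))))))))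
(Q 4 6 896 (Q 4 7 768 (P (B 0 (L 0) (S 0 (LD 5 2) (LD 4 1) (LD 3 2) (L 0) (L 0) X X)))
(P (B 2 (L 0) (B 0 (L 0) (S 2 (LE 12 0) (LE 11 0) (F 0 1 (F 0 4 (L 4))) (L 0) X X X)))))
(P (B 0 (L 0) (S 0 (LD 5 2) (L 4) (LD 3 2) (L 0) (B 4 (L 4) (B 10 (D 0) (LE 0 0))) X X)))))
(Q 5 11 4096 (P (B 0 (L 0) (B 1 (L 0) (B 4 (LD 4 2) (B 2 (LE 0 0) (F 0 3 (F 0 5 (D 2))))))))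
(Q 3 4 32 (P (B 0 (L 0) (B 1 (L 0) (B 5 (LD 5 2) (B 2 (LE 0 0) (F 0 3 (D 0)))))))
(P (B 0 (L 0) (B 3 (LD 3 2) (S 0 (L 5) (L 4) (B 4 (L 4) (F 0 5 (L 5))) (LE 0 0) X X X)))))))))))
(Q 4 5 0 (P (B 0 (L 0) (B 1 (L 0) (B 3 (LD 3 2) (B 2 (LE 0 0) (F 0 4 (D 0)))))))
(Q 4 10 6144 (Q 5 11 4096 (P (B 0 (L 0) (B 1 (L 0) (B 3 (LD 3 2) (B 2 (LE 0 0) (F 0 4 (F 0 5 (D 2))))))))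
(Q 4 11 4096 (P (B 0 (L 0) (B 1 (L 0) (B 3 (LD 3 2) (B 2 (LE 0 0) (F 0 4 (D 2)))))))
(Q 5 10 0 (Q 3 6 896 (Q 3 7 768 (P (B 0 (L 0) (S 0 (LD 5 2) (LD 4 2) (LD 3 1) (L 0) (L 0) X X)))
(P (B 2 (L 0) (B 0 (L 0) (S 2 (LE 12 0) (LE 11 0) (F 0 1 (F 0 3 (L 3))) (L 0) X X X)))))
(P (B 0 (L 0) (S 0 (LD 5 2) (LD 4 2) (L 3) (L 0) (B 3 (L 3) (B 10 (D 0) (LE 0 0))) X X))))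
(Q 3 5 0 (P (B 0 (L 0) (B 4 (LD 4 2) (B 1 (LE 0 0) (B 3 (F 0 2 (L 3)) (F 0 2 (F 0 5 (L 5))))))))
(Q 3 4 0 (P (B 0 (L 0) (B 1 (L 0) (B 5 (LD 5 2) (B 3 (F 0 2 (L 3)) (F 0 2 (F 0 4 (L 4))))))))
(P (B 0 (L 0) (B 4 (LD 4 2) (S 0 (L 5) (L 3) (B 3 (L 3) (F 0 5 (L 5))) (LE 0 0) X X X)))))))))
(Q 5 10 6144 (Q 3 4 0 (P (B 0 (L 0) (B 5 (LD 5 2) (B 1 (LE 0 0) (B 3 (F 0 2 (L 3)) (F 0 2 (F 0 4 (L 4))))))))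
(Q 5 11 4096 (P (B 0 (L 0) (B 1 (L 0) (B 3 (LD 3 2) (B 2 (LE 0 0) (F 0 4 (F 0 5 (D 2))))))))
(Q 3 5 0 (P (B 0 (L 0) (B 1 (L 0) (B 4 (LD 4 2) (B 3 (F 0 2 (L 3)) (F 0 2 (F 0 5 (L 5))))))))
(P (B 0 (L 0) (B 5 (LD 5 2) (S 0 (L 4) (L 3) (B 3 (L 3) (F 0 4 (L 4))) (LE 0 0) X X X)))))))
(Q 3 4 32 (P (B 0 (L 0) (B 1 (L 0) (B 5 (LD 5 2) (B 3 (F 0 2 (L 3)) (F 0 2 (F 0 4 (L 4))))))))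
(Q 3 6 896 (Q 3 7 768 (P (B 0 (L 0) (B 3 (LD 3 1) (S 0 (L 5) (L 4) (B 4 (L 4) (F 0 5 (L 5))) (LE 0 0) X X X))))
(N 3 (Bad 3)
(N 3 (Bad 3)
(N 3 (Bad 3)
(N 3 (P (B 0 (L 0) (B 1 (LD 0 3) (S 0 (LD 5 2) (LD 4 2) (LD 0 2) (B 3 (L 0) (B 4 (LE 4 3) (F 0 5 (LE 5 3)))) X X X))))
(P (B 0 (L 0) (B 3 (L 0) (S 0 (L 5) (L 4) (B 4 (L 4) (F 0 5 (L 5))) (LE 0 0) X X X)))))))))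
(N 3 (Bad 3)
(N 3 (Bad 3)
(N 3 (Bad 3)
(N 3 (Bad 3)
(N 3 (P (B 0 (L 0) (B 3 (L 0) (S 0 (LE 5 3) (LE 4 3) (B 4 (LE 4 3) (F 0 5 (LE 5 3))) (LE 0 0) X X X))))
(P (B 0 (L 0) (B 3 (L 0) (S 0 (L 5) (L 4) (B 4 (L 4) (F 0 5 (L 5))) (LE 0 0) X X X)))))))))))))))
(N 2 (Q 3 4 32 (Q 3 5 0 (P (B 0 (L 0) (B 1 (L 0) (B 4 (LE 4 0) (B 2 (LE 0 0) (F 0 3 (D 0)))))))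
(Q 4 5 0 (P (B 0 (L 0) (B 1 (L 0) (B 3 (LE 3 0) (B 2 (LE 0 0) (F 0 4 (D 0)))))))
(Q 3 6 896 (Q 3 7 768 (P (B 0 (L 0) (S 0 (L 5) (L 4) (LD 3 1) (L 0) (L 0) X X)))
(Q 3 10 14336 (Q 3 11 12288 (P (B 0 (L 0) (S 0 (L 5) (L 4) (LD 0 2) (L 0) (L 0) X X)))
(N 3 (Bad 3)
(N 3 (P (B 0 (L 0) (B 1 (LD 0 3) (B 2 (LD 0 3) (B 5 (LE 5 0) (F 0 3 (D 0)))))))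
(P (B 0 (L 0) (S 0 (L 5) (L 4) (L 0) (L 0) (L 0) X X))))))
(N 3 (Bad 3)
(N 3 (Bad 3)
(N 3 (P (B 0 (L 0) (B 2 (L 0) (B 1 (LD 0 3) (B 5 (LE 5 0) (F 0 3 (D 0)))))))
(P (B 0 (L 0) (S 0 (L 5) (L 4) (L 0) (L 0) (L 0) X X))))))))
(Q 3 10 14336 (Q 3 11 12288 (P (B 0 (L 0) (B 2 (L 0) (S 0 (LE 5 2) (LE 4 0) (B 1 (LE 3 2) (F 0 5 (F 2 12 (F 2 13 (LE 5 1))))) (L 0) X X X))))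
(N 3 (Bad 3)
(N 3 (Bad 3)
(N 3 (P (B 0 (L 0) (B 1 (L 0) (B 2 (LD 0 3) (B 5 (LE 5 0) (F 0 3 (D 0)))))))
(P (B 0 (L 0) (S 0 (L 5) (L 4) (L 0) (L 0) (L 0) X X)))))))
(N 3 (Bad 3)
(N 3 (Bad 3)
(N 3 (Bad 3)
(N 3 (Q 5 14 98304 (P (B 0 (L 0) (B 5 (LD 5 3) (B 1 (LE 0 0) (B 2 (LE 0 0) (F 0 3 (D 0)))))))
(P (B 0 (L 0) (S 0 (L 5) (L 4) (B 1 (L 0) (B 2 (L 0) (F 0 5 (LE 5 1)))) (L 0) (L 0) X X))))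
(P (B 0 (L 0) (S 0 (L 5) (L 4) (L 0) (L 0) (L 0) X X)))))))))))
(Q 3 6 896 (Q 4 5 0 (P (B 0 (L 0) (B 1 (L 0) (B 3 (LE 3 1) (B 2 (LE 0 0) (F 0 4 (D 0)))))))
(Q 3 7 768 (P (B 0 (L 0) (S 0 (L 5) (L 4) (LD 3 1) (L 0) (L 0) X X)))
(Q 3 10 14336 (Q 3 11 12288 (P (B 0 (L 0) (S 0 (L 5) (L 4) (LD 3 2) (L 0) (L 0) X X)))
(N 3 (Bad 3)
(N 3 (Bad 3)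
(N 3 (P (B 0 (L 0) (B 1 (LD 0 3) (S 0 (LE 5 1) (LE 4 1) (LD 0 2) (LD 0 3) X X X))))
(P (B 0 (L 0) (S 0 (L 5) (L 4) (L 0) (L 0) (L 0) X X)))))))
(N 3 (Bad 3)
(N 3 (Bad 3)
(N 3 (Bad 3)
(N 3 (P (B 0 (L 0) (B 1 (LD 0 3) (S 0 (LE 5 1) (LE 4 1) (LE 0 1) (L 0) X X X))))
(P (B 0 (L 0) (S 0 (L 5) (L 4) (L 0) (L 0) (L 0) X X))))))))))
(Q 3 10 14336 (Q 4 5 0 (P (B 0 (L 0) (B 1 (L 0) (B 3 (LD 3 2) (B 2 (LE 0 0) (F 0 4 (D 0)))))))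
(Q 3 11 12288 (P (B 0 (L 0) (S 0 (L 5) (L 4) (LD 3 2) (L 0) (L 0) X X)))
(N 3 (Bad 3)
(N 3 (Bad 3)
(N 3 (Bad 3)
(N 3 (P (B 0 (L 0) (B 2 (LD 0 3) (S 0 (LE 5 2) (LE 4 2) (LE 0 2) (L 0) X X X))))
(P (B 0 (L 0) (S 0 (L 5) (L 4) (L 0) (L 0) (L 0) X X)))))))))
(N 3 (Bad 3)
(N 3 (Bad 3)
(N 3 (Bad 3)
(N 3 (Bad 3)
(N 3 (Q 4 5 0 (P (B 0 (L 0) (B 3 (L 0) (B 1 (LE 0 0) (B 2 (LE 0 0) (F 0 4 (D 0)))))))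
(Q 4 14 229376 (P (B 0 (L 0) (S 0 (L 5) (LD 4 3) (L 0) (L 0) (L 0) X X)))
(Q 5 14 229376 (P (B 0 (L 0) (B 5 (LD 5 3) (B 3 (B 1 (L 0) (B 2 (L 0) (F 0 4 (LE 4 1)))) (B 4 (LE 4 0) (F 0 1 (D 0)))))))
(Q 4 6 896 (Q 5 10 14336 (Q 5 11 12288 (P (B 0 (L 0) (B 5 (LD 5 2) (B 3 (B 1 (L 0) (B 4 (LE 4 1) (F 0 2 (L 0)))) (B 4 (LE 4 0) (F 0 1 (D 0)))))))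
(P (B 0 (L 0) (B 1 (L 0) (B 4 (LE 4 1) (B 5 (B 3 (LD 5 2) (F 0 2 (LE 5 3))) (F 0 2 (F 0 3 (L 0)))))))))
(P (B 0 (L 0) (B 1 (L 0) (B 4 (LE 4 1) (B 2 (B 3 (L 0) (F 0 5 (LE 5 3))) (F 0 3 (F 0 5 (LE 5 1)))))))))
(Q 5 6 896 (P (B 0 (L 0) (B 2 (L 0) (B 5 (LD 5 1) (B 1 (B 3 (L 0) (F 0 4 (LE 4 3))) (F 0 3 (F 0 4 (LE 4 1))))))))
(P (B 0 (L 0) (B 1 (B 3 (L 0) (B 4 (LE 4 3) (F 0 5 (LE 5 3)))) (S 0 (LE 5 1) (LE 4 1) (LE 0 1) (L 0) X X X)))))))))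
(P (B 0 (L 0) (S 0 (L 5) (L 4) (L 0) (L 0) (L 0) X X)))))))))))
(P (B 0 (L 0) (S 0 (L 5) (L 4) (L 3) (L 0) (L 0) X X))))))))))
(N 1 (Q 2 3 48 (P (B 0 (L 0) (S 0 (L 5) (L 4) (L 3) (LE 2 0) (L 0) X X)))
(Q 3 4 32 (P (B 0 (L 0) (B 2 (L 2) (B 1 (L 0) (B 5 (LE 5 0) (F 0 3 (D 0)))))))
(Q 4 5 0 (P (B 0 (L 0) (B 3 (L 3) (B 1 (LE 0 0) (B 2 (LE 2 0) (F 0 4 (D 0)))))))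
(Q 2 6 1920 (Q 2 7 1792 (Q 2 8 1536 (P (B 0 (L 0) (S 0 (L 5) (L 4) (L 3) (LE 0 1) (L 0) X X)))
(N 2 (Bad 2)
(N 2 (P (B 0 (L 0) (B 1 (F 2 11 (L 0)) (S 0 (LD 5 2) (LD 4 2) (LD 3 2) (L 0) X X X))))
(P (B 0 (L 0) (S 0 (L 5) (L 4) (L 3) (L 0) (L 0) X X))))))
(N 2 (Bad 2)
(N 2 (Bad 2)
(N 2 (P (B 0 (L 0) (B 1 (LE 0 2) (S 0 (LD 5 2) (LD 4 2) (LD 3 2) (L 0) X X X))))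
(P (B 0 (L 0) (S 0 (L 5) (L 4) (L 3) (L 0) (L 0) X X)))))))
(N 2 (Bad 2)
(N 2 (Bad 2)
(N 2 (Bad 2)
(N 2 (P (B 0 (L 0) (B 1 (L 0) (S 0 (LD 5 2) (LD 4 2) (LD 3 2) (L 0) X X X))))
(P (B 0 (L 0) (S 0 (L 5) (L 4) (L 3) (L 0) (L 0) X X)))))))))))
(P (B 0 (L 0) (S 0 (L 5) (L 4) (L 3) (L 2) (L 0) X X))))))))))
(N 1 (Bad 1)
(N 1 (Bad 1)
(N 1 (Bad 1)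
(N 1 (Bad 1)
(N 1 (Q 2 6 896 (Q 2 7 768 (Q 2 8 512 (P (B 0 (L 0) (B 1 (L 0) (S 0 (LE 5 1) (LE 4 1) (LE 3 1) (D 1) X X X))))
(Q 3 8 512 (Q 3 9 0 (P (B 0 (L 0) (B 1 (L 0) (S 0 (LE 5 1) (LE 4 1) (F 1 6 (F 1 7 (LE 3 0))) (F 1 8 (F 1 9 (LE 2 0))) X X X))))
(Q 4 9 0 (Q 2 5 0 (P (B 0 (L 0) (S 0 (L 5) (LD 4 1) (LD 3 1) (B 1 (L 2) (F 1 8 (F 0 4 (D 1)))) (L 0) X X)))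
(Q 5 8 0 (P (B 0 (L 0) (B 3 (LD 3 1) (B 1 (L 0) (B 2 (F 1 8 (F 0 4 (D 1))) (F 0 4 (F 0 5 (F 1 6 (F 1 7 (L 5))))))))))
(Q 5 9 0 (P (B 0 (L 0) (B 4 (LD 4 1) (B 1 (L 0) (B 2 (F 1 8 (F 0 5 (D 1))) (F 0 3 (F 0 5 (F 1 6 (F 1 7 (L 5))))))))))
(Q 3 5 0 (P (B 0 (L 0) (B 4 (LD 4 1) (B 1 (L 0) (B 2 (F 1 8 (F 0 5 (F 1 9 (L 9)))) (F 0 3 (D 0)))))))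
(Q 5 6 128 (P (B 0 (L 0) (B 3 (LD 3 1) (B 1 (L 0) (B 5 (B 8 (LE 5 0) (F 1 7 (F 0 4 (D 1)))) (F 0 2 (F 0 4 (D 1))))))))
(P (B 0 (L 0) (S 0 (L 5) (LD 4 1) (LD 3 1) (B 1 (L 2) (F 1 8 (F 1 9 (F 0 5 (L 5))))) (L 0) X X))))))))
(Q 5 9 0 (Q 2 4 0 (P (B 0 (L 0) (S 0 (LD 5 1) (L 4) (LD 3 1) (B 1 (L 2) (F 1 8 (F 0 5 (D 1)))) (L 0) X X)))
(Q 4 8 0 (P (B 0 (L 0) (B 3 (LD 3 1) (B 1 (L 0) (B 2 (F 1 8 (F 0 5 (D 1))) (F 0 4 (F 0 5 (F 1 6 (F 1 7 (L 4))))))))))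
(Q 3 4 0 (P (B 0 (L 0) (B 5 (LD 5 1) (B 1 (L 0) (B 2 (F 1 8 (F 0 4 (F 1 9 (L 9)))) (F 0 3 (D 0)))))))
(Q 4 6 128 (P (B 0 (L 0) (B 4 (LD 4 1) (B 1 (L 0) (B 2 (F 1 8 (F 0 5 (D 1))) (F 0 3 (F 0 5 (F 1 6 (F 1 7 (L 3))))))))))
(P (B 0 (L 0) (S 0 (LD 5 1) (L 4) (LD 3 1) (B 1 (L 2) (F 1 8 (F 1 9 (F 0 4 (L 4))))) (L 0) X X)))))))
(Q 4 8 0 (Q 2 5 0 (P (B 0 (L 0) (S 0 (L 5) (LD 4 1) (LD 3 1) (B 1 (L 2) (F 1 8 (D 0))) (L 0) X X)))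
(Q 5 8 0 (P (B 0 (L 0) (S 0 (LD 5 1) (LD 4 1) (LD 3 1) (B 1 (L 2) (F 1 8 (D 0))) (L 0) X X)))
(Q 3 4 0 (P (B 0 (L 0) (B 2 (LD 2 1) (B 1 (L 0) (B 5 (B 8 (D 0) (LE 5 0)) (F 0 3 (D 0)))))))
(Q 5 6 128 (P (B 0 (L 0) (B 3 (LD 3 1) (B 1 (L 0) (B 5 (B 9 (LE 9 0) (F 1 7 (F 0 4 (D 1)))) (F 0 2 (F 0 4 (D 1))))))))
(Q 5 3 16 (P (B 0 (L 0) (B 4 (LD 4 1) (B 1 (L 0) (B 2 (F 1 8 (F 0 5 (F 1 9 (L 5)))) (F 0 3 (D 0)))))))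
(P (B 0 (L 0) (B 3 (LD 3 1) (B 1 (L 0) (B 2 (F 1 8 (F 0 5 (F 1 9 (L 5)))) (F 0 4 (F 0 5 (LE 5 1)))))))))))))
(Q 5 8 0 (Q 2 4 0 (P (B 0 (L 0) (S 0 (LD 5 1) (L 4) (LD 3 1) (B 1 (L 2) (F 1 8 (D 0))) (L 0) X X)))
(Q 3 5 0 (P (B 0 (L 0) (B 2 (LD 2 1) (B 1 (L 0) (B 4 (B 8 (D 0) (LE 4 0)) (F 0 3 (D 0)))))))
(Q 4 6 128 (P (B 0 (L 0) (B 3 (LD 3 1) (B 1 (L 0) (B 4 (B 9 (LE 9 0) (F 1 7 (F 0 5 (D 1)))) (F 0 2 (F 0 5 (D 1))))))))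
(Q 4 3 32 (P (B 0 (L 0) (B 5 (LD 5 1) (B 1 (L 0) (B 2 (F 1 8 (F 0 4 (F 1 9 (L 4)))) (F 0 3 (D 0)))))))
(P (B 0 (L 0) (B 3 (LD 3 1) (B 1 (L 0) (B 2 (F 1 8 (F 0 4 (F 1 9 (L 4)))) (F 0 4 (F 0 5 (LE 4 1))))))))))))
(Q 4 5 0 (P (B 0 (L 0) (B 3 (LD 3 1) (B 1 (L 0) (B 2 (F 1 8 (F 1 9 (LE 9 0))) (F 0 4 (D 0)))))))
(Q 2 3 0 (Q 2 4 32 (P (B 0 (L 0) (B 1 (L 0) (S 0 (LE 5 1) (LE 4 0) (LE 3 0) (F 0 5 (F 1 8 (F 1 9 (L 9)))) X X X))))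
(N 2 (Bad 2)
(N 2 (P (B 0 (L 0) (B 1 (LD 0 2) (S 0 (LE 5 1) (LE 4 1) (LE 3 0) (F 1 8 (F 1 9 (LE 9 0))) X X X))))
(N 2 (P (B 0 (L 0) (B 1 (LD 0 2) (S 0 (LE 5 1) (LE 4 1) (LE 3 0) (F 1 8 (F 1 9 (LE 0 0))) X X X))))
(P (B 0 (L 0) (S 0 (L 5) (L 4) (LD 3 1) (LD 0 1) (L 0) X X)))))))
(P (B 0 (L 0) (B 1 (L 0) (S 0 (LE 5 1) (LE 4 1) (B 2 (D 1) (LE 3 0)) (F 1 8 (F 1 9 (LE 2 0))) X X X)))))))))))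
(Q 4 8 512 (Q 4 9 0 (P (B 0 (L 0) (B 1 (L 0) (S 0 (LE 5 1) (F 1 6 (F 1 7 (LE 4 0))) (LE 3 1) (F 1 8 (F 1 9 (LE 2 0))) X X X))))
(Q 5 9 0 (Q 2 3 0 (P (B 0 (L 0) (S 0 (LD 5 1) (LD 4 1) (L 3) (B 1 (L 2) (F 1 8 (F 0 5 (D 1)))) (L 0) X X)))
(Q 3 4 0 (P (B 0 (L 0) (B 5 (LD 5 1) (B 1 (L 0) (B 2 (F 1 8 (F 0 3 (F 1 9 (L 9)))) (F 0 3 (D 0)))))))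
(Q 3 6 128 (P (B 0 (L 0) (B 3 (LD 3 1) (B 1 (L 0) (B 2 (F 1 8 (F 0 5 (D 1))) (F 0 4 (F 0 5 (F 1 6 (F 1 7 (L 4))))))))))
(P (B 0 (L 0) (S 0 (LD 5 1) (LD 4 1) (L 3) (B 1 (L 2) (F 1 8 (F 1 9 (F 0 3 (L 3))))) (L 0) X X))))))
(Q 5 8 0 (Q 2 3 0 (P (B 0 (L 0) (S 0 (LD 5 1) (LD 4 1) (L 3) (B 1 (L 2) (F 1 8 (D 0))) (L 0) X X)))
(Q 4 5 0 (P (B 0 (L 0) (B 2 (LD 2 1) (B 1 (L 0) (B 3 (B 8 (D 0) (LE 3 0)) (F 0 4 (D 0)))))))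
(Q 3 6 128 (P (B 0 (L 0) (B 4 (LD 4 1) (B 1 (L 0) (B 3 (B 9 (LE 9 0) (F 1 7 (F 0 5 (D 1)))) (F 0 2 (F 0 5 (D 1))))))))
(Q 3 4 32 (P (B 0 (L 0) (B 5 (LD 5 1) (B 1 (L 0) (B 2 (F 1 8 (F 0 3 (F 1 9 (L 3)))) (F 0 3 (D 0)))))))
(P (B 0 (L 0) (B 4 (LD 4 1) (B 1 (L 0) (B 2 (F 1 8 (F 0 3 (F 1 9 (L 3)))) (F 0 3 (F 0 5 (LE 3 1))))))))))))
(Q 3 5 0 (P (B 0 (L 0) (B 4 (LD 4 1) (B 1 (L 0) (B 2 (F 1 8 (F 1 9 (LE 9 0))) (F 0 3 (D 0)))))))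
(Q 2 3 32 (P (B 0 (L 0) (B 1 (L 0) (S 0 (LE 5 1) (LE 4 1) (LE 3 0) (F 1 8 (F 0 5 (F 1 9 (L 9)))) X X X))))
(Q 2 4 0 (N 2 (Bad 2)
(N 2 (P (B 0 (L 0) (B 1 (LD 0 2) (S 0 (LE 5 1) (LE 4 0) (LE 3 1) (F 1 8 (F 1 9 (LE 9 0))) X X X))))
(N 2 (P (B 0 (L 0) (B 1 (LD 0 2) (S 0 (LE 5 1) (LE 4 0) (LE 3 1) (F 1 8 (F 1 9 (LE 0 0))) X X X))))
(P (B 0 (L 0) (S 0 (L 5) (LD 4 1) (L 3) (LD 0 1) (L 0) X X))))))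
(P (B 0 (L 0) (B 1 (L 0) (S 0 (LE 5 1) (B 2 (D 1) (LE 4 0)) (LE 3 1) (F 1 8 (F 1 9 (LE 2 0))) X X X))))))))))
(Q 5 8 512 (Q 5 9 0 (P (B 0 (L 0) (B 1 (L 0) (S 0 (F 1 6 (F 1 7 (LE 5 0))) (LE 4 1) (LE 3 1) (F 1 8 (F 1 9 (LE 2 0))) X X X))))
(Q 3 4 0 (P (B 0 (L 0) (B 5 (LD 5 1) (B 1 (L 0) (B 2 (F 1 8 (F 1 9 (LE 9 0))) (F 0 3 (D 0)))))))
(Q 2 3 16 (P (B 0 (L 0) (B 1 (L 0) (B 4 (LE 4 1) (B 2 (F 0 5 (D 1)) (F 0 3 (F 0 5 (LE 3 1))))))))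
(Q 2 5 0 (N 2 (Bad 2)
(N 2 (P (B 0 (L 0) (B 1 (LD 0 2) (S 0 (LE 5 0) (LE 4 1) (LE 3 1) (F 1 8 (F 1 9 (LE 9 0))) X X X))))
(N 2 (P (B 0 (L 0) (B 1 (LD 0 2) (S 0 (LE 5 0) (LE 4 1) (LE 3 1) (F 1 8 (F 1 9 (LE 0 0))) X X X))))
(P (B 0 (L 0) (S 0 (LD 5 1) (L 4) (L 3) (LD 0 1) (L 0) X X))))))
(P (B 0 (L 0) (B 1 (L 0) (S 0 (B 2 (D 1) (LE 5 0)) (LE 4 1) (LE 3 1) (F 1 8 (F 1 9 (LE 2 0))) X X X))))))))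
(Q 2 3 48 (Q 2 4 32 (P (B 0 (L 0) (B 1 (L 0) (S 0 (LE 5 1) (LE 4 0) (LE 3 0) (F 0 5 (F 1 8 (F 1 9 (L 8)))) X X X))))
(N 2 (Bad 2)
(N 2 (P (B 0 (L 0) (B 1 (LD 0 2) (S 0 (LE 5 1) (LE 4 1) (LE 3 0) (F 1 8 (F 1 9 (LE 8 0))) X X X))))
(N 2 (P (B 0 (L 0) (B 1 (LD 0 2) (S 0 (LE 5 1) (LE 4 1) (LE 3 0) (F 1 8 (F 1 9 (LE 0 0))) X X X))))
(P (B 0 (L 0) (B 1 (L 0) (S 0 (LE 5 1) (LE 4 1) (LE 3 0) (F 1 8 (F 1 9 (LE 0 0))) X X X))))))))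
(N 2 (Bad 2)
(N 2 (Bad 2)
(N 2 (P (B 0 (L 0) (B 1 (LD 0 2) (S 0 (LE 5 1) (LE 4 1) (LE 3 1) (F 1 8 (F 1 9 (L 0))) X X X))))
(N 2 (P (B 0 (L 0) (B 1 (LD 0 2) (S 0 (LE 5 1) (LE 4 1) (LE 3 1) (F 1 8 (F 1 9 (L 0))) X X X))))
(P (B 0 (L 0) (B 2 (LD 0 1) (S 0 (L 5) (L 4) (L 3) (L 0) X X X)))))))))))))
(Q 3 6 0 (Q 4 6 0 (P (B 1 (L 0) (B 0 (L 0) (S 1 (LE 9 0) (LE 8 0) (LE 7 0) (D 0) X X X))))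
(Q 4 5 0 (P (B 0 (L 0) (B 1 (L 0) (S 1 (LE 9 0) (LE 8 0) (LE 7 0) (F 0 4 (D 0)) X X X))))
(Q 5 6 0 (P (B 1 (L 0) (B 0 (L 0) (S 1 (LE 9 0) (LE 8 0) (LE 7 0) (D 0) X X X))))
(Q 4 7 768 (Q 5 7 0 (P (B 1 (L 0) (B 0 (L 0) (S 1 (LE 9 0) (LE 8 0) (F 0 2 (F 0 3 (LE 2 1))) (F 0 4 (F 0 5 (LE 4 1))) X X X))))
(Q 5 8 512 (Q 3 9 0 (P (B 0 (L 0) (B 2 (LD 2 1) (B 1 (L 0) (B 3 (F 1 7 (F 0 5 (D 1))) (F 0 4 (F 0 5 (F 1 6 (F 1 9 (L 5))))))))))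
(Q 4 9 0 (P (B 0 (L 0) (B 2 (LD 2 1) (B 1 (L 0) (B 4 (F 1 6 (F 0 5 (D 1))) (F 0 3 (F 0 5 (F 1 7 (F 1 9 (L 5))))))))))
(Q 5 9 0 (P (B 0 (L 0) (B 2 (LD 2 1) (B 1 (L 0) (B 5 (F 1 6 (F 0 4 (D 1))) (F 0 3 (F 0 4 (F 1 8 (F 1 9 (L 4))))))))))
(Q 3 4 0 (P (B 0 (L 0) (B 2 (LD 2 1) (B 1 (L 0) (B 5 (B 9 (LE 9 0) (F 1 6 (F 0 4 (D 1)))) (F 0 3 (D 0)))))))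
(Q 3 5 0 (P (B 0 (L 0) (B 2 (LD 2 1) (B 1 (L 0) (B 4 (B 9 (LE 9 0) (F 1 6 (F 0 5 (D 1)))) (F 0 3 (D 0)))))))
(Q 3 7 0 (P (B 0 (L 0) (B 2 (LD 2 1) (B 1 (L 0) (B 4 (B 9 (LE 9 0) (F 1 6 (F 0 5 (D 1)))) (F 0 3 (F 0 5 (D 1))))))))
(Q 2 3 0 (P (B 0 (L 0) (B 4 (LD 4 1) (B 1 (L 0) (B 5 (B 6 (D 0) (F 1 7 (F 1 9 (LE 5 0)))) (F 0 2 (D 0)))))))
(Q 4 8 0 (P (B 0 (L 0) (B 2 (LD 2 1) (B 1 (L 0) (B 5 (B 9 (LE 9 0) (F 1 6 (F 0 4 (D 1)))) (F 0 3 (F 0 4 (D 1))))))))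
(Q 3 8 0 (P (B 0 (L 0) (B 2 (LD 2 1) (B 1 (L 0) (B 5 (B 9 (LE 9 0) (F 1 6 (F 0 4 (D 1)))) (F 0 3 (F 0 4 (D 1))))))))
(N 3 (Bad 3)
(N 3 (Bad 3)
(N 3 (Bad 3)
(N 3 (P (B 0 (L 0) (B 1 (LD 0 3) (S 1 (LE 9 0) (LE 8 0) (LE 7 0) (F 0 4 (F 0 5 (F 1 9 (L 4)))) X X X))))
(P (B 0 (L 0) (S 0 (LD 5 1) (LD 4 1) (LD 0 1) (LD 2 1) (L 0) X X))))))))))))))))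
(Q 4 8 512 (Q 3 5 0 (P (B 0 (L 0) (B 2 (LD 2 1) (B 1 (L 0) (B 3 (F 0 4 (D 1)) (F 0 4 (F 0 5 (F 1 6 (F 1 9 (L 5))))))))))
(P (B 1 (L 0) (S 1 (L 9) (LD 8 0) (LD 7 0) (B 0 (L 6) (F 0 4 (F 0 5 (F 1 9 (L 5))))) (L 0) X X))))
(Q 2 3 0 (P (B 0 (L 0) (B 4 (LD 4 1) (B 1 (L 0) (B 5 (B 6 (D 0) (LE 5 0)) (F 0 2 (D 0)))))))
(Q 2 4 0 (Q 2 5 0 (P (B 0 (L 0) (B 3 (LD 3 1) (B 1 (L 0) (B 2 (D 0) (F 0 4 (F 0 5 (LE 5 1))))))))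
(P (B 1 (L 0) (B 0 (L 0) (S 1 (LE 9 0) (LE 8 0) (LE 7 0) (F 0 4 (F 0 5 (LE 5 1))) X X X)))))
(Q 2 5 0 (P (B 1 (L 0) (B 0 (L 0) (S 1 (LE 9 0) (LE 8 0) (B 3 (LE 3 0) (F 0 2 (D 0))) (F 0 4 (F 0 5 (LE 4 1))) X X X))))
(P (B 1 (L 0) (B 0 (L 0) (S 1 (LE 9 0) (LE 8 0) (LE 7 0) (F 0 4 (F 0 5 (LE 5 1))) X X X))))))))))
(Q 5 7 768 (Q 5 8 512 (Q 3 4 0 (P (B 0 (L 0) (B 2 (LD 2 1) (B 1 (L 0) (B 3 (F 0 5 (D 1)) (F 0 4 (F 0 5 (F 1 6 (F 1 9 (L 4))))))))))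
(P (B 1 (L 0) (S 1 (L 9) (LD 8 0) (LD 7 0) (B 0 (L 6) (F 0 4 (F 0 5 (F 1 9 (L 4))))) (L 0) X X))))
(Q 2 3 0 (P (B 0 (L 0) (B 5 (LD 5 1) (B 1 (L 0) (B 4 (B 6 (D 0) (LE 4 0)) (F 0 2 (D 0)))))))
(Q 2 4 0 (P (B 1 (L 0) (B 0 (L 0) (S 1 (LE 9 0) (LE 8 0) (B 3 (LE 3 0) (F 0 2 (D 0))) (F 0 4 (F 0 5 (LE 4 1))) X X X))))
(P (B 1 (L 0) (B 0 (L 0) (S 1 (LE 9 0) (LE 8 0) (LE 7 0) (F 0 4 (F 0 5 (LE 4 1))) X X X)))))))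
(Q 2 3 0 (Q 2 4 32 (Q 2 5 0 (P (B 0 (L 0) (B 1 (L 0) (S 0 (LE 5 0) (LE 4 0) (LE 3 0) (D 0) X X X))))
(N 2 (Bad 2)
(N 2 (P (B 0 (LE 0 2) (B 1 (LD 0 2) (S 0 (LE 5 1) (LE 4 0) (LE 3 0) (F 0 5 (LE 5 1)) X X X))))
(Q 3 4 0 (P (B 0 (L 0) (B 2 (LD 0 1) (B 1 (L 0) (B 5 (LE 5 0) (F 0 3 (D 0)))))))
(N 2 (Q 5 10 2048 (P (B 0 (L 0) (B 3 (LD 3 1) (B 1 (B 4 (LE 4 2) (B 2 (L 0) (F 0 5 (D 2)))) (B 5 (LD 5 2) (F 0 2 (D 0)))))))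
(P (B 0 (L 0) (B 1 (L 0) (S 0 (LE 5 1) (LE 4 0) (LE 3 0) (F 0 5 (LE 5 1)) X X X)))))
(P (B 0 (L 0) (S 0 (L 5) (L 4) (LD 3 1) (LD 0 1) (L 0) X X))))))))
(N 2 (Bad 2)
(N 2 (Bad 2)
(N 2 (P (B 0 (L 0) (B 1 (LD 0 2) (S 1 (LE 9 0) (LE 8 0) (LE 7 0) (F 0 4 (F 0 5 (LE 4 2))) X X X))))
(N 2 (Q 3 4 32 (P (B 0 (L 0) (B 2 (LD 0 1) (B 1 (LE 0 2) (B 5 (LE 5 0) (F 0 3 (D 0)))))))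
(P (B 0 (L 0) (B 1 (L 0) (S 1 (LE 9 0) (LE 8 0) (LE 7 0) (F 0 4 (F 0 5 (L 4))) X X X)))))
(P (B 0 (L 0) (S 0 (L 5) (L 4) (LD 3 1) (LD 0 1) (L 0) X X))))))))
(Q 2 4 32 (Q 3 4 0 (N 4 (Bad 4)
(N 4 (Bad 4)
(N 4 (P (B 0 (LE 0 4) (S 0 (L 5) (LE 0 0) (LD 3 1) (LD 2 1) (L 0) X X)))
(P (B 0 (L 0) (S 0 (L 5) (LE 0 0) (LD 3 1) (LD 2 1) (L 0) X X))))))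
(N 4 (Bad 4)
(N 4 (Bad 4)
(N 4 (Bad 4)
(N 4 (Q 2 5 0 (P (B 0 (L 0) (B 3 (LD 3 1) (B 1 (L 0) (B 2 (D 0) (F 0 4 (F 0 5 (LE 0 1))))))))
(Q 5 10 6144 (Q 2 10 0 (Q 2 11 4096 (P (B 0 (L 0) (S 0 (LD 5 4) (L 0) (LD 3 1) (F 4 12 (LD 12 1)) (L 0) X X)))
(N 2 (Bad 2)
(N 2 (P (B 0 (L 0) (B 2 (LD 0 1) (B 10 (F 0 1 (F 0 3 (F 2 13 (LE 0 4)))) (B 4 (LE 0 2) (F 2 6 (D 0)))))))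
(P (B 0 (L 0) (S 0 (LD 5 4) (L 0) (LD 3 1) (LD 0 1) (L 0) X X))))))
(Q 3 10 0 (Q 2 11 4096 (P (B 4 (L 0) (B 10 (B 0 (L 10) (F 0 1 (F 0 2 (L 2)))) (B 0 (LE 0 4) (B 12 (LE 12 0) (F 4 2 (D 4)))))))
(N 2 (Bad 2)
(N 2 (Bad 2)
(N 2 (P (B 0 (L 0) (B 1 (LD 0 2) (S 1 (LE 9 0) (LE 8 0) (LE 7 0) (F 0 4 (F 0 5 (L 0))) X X X))))
(P (B 0 (L 0) (S 0 (LD 5 4) (L 0) (LD 3 1) (LD 0 1) (L 0) X X)))))))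
(Q 2 11 4096 (Q 2 12 0 (P (B 0 (L 0) (B 3 (LD 3 1) (B 2 (F 4 10 (F 0 1 (L 0))) (B 4 (LE 0 0) (F 0 1 (F 0 5 (F 4 11 (F 4 12 (L 5))))))))))
(N 2 (Bad 2)
(N 2 (P (B 0 (L 0) (B 2 (LD 0 1) (B 6 (F 0 4 (F 0 5 (L 0))) (B 13 (LD 13 1) (F 2 4 (D 2)))))))
(P (B 0 (L 0) (S 0 (LD 5 4) (L 0) (LD 3 1) (LD 0 1) (L 0) X X))))))
(N 2 (Bad 2)
(N 2 (Bad 2)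
(N 2 (P (B 0 (L 0) (B 1 (LD 0 2) (S 1 (LE 9 0) (LE 8 0) (LE 7 0) (F 0 4 (F 0 5 (L 0))) X X X))))
(P (B 0 (L 0) (S 0 (LD 5 4) (L 0) (LD 3 1) (LD 0 1) (L 0) X X)))))))))
(P (B 0 (L 0) (B 1 (L 0) (S 1 (LE 9 0) (LE 8 0) (LE 7 0) (F 0 4 (F 0 5 (L 5))) X X X))))))
(P (B 1 (L 0) (B 0 (L 0) (S 1 (LE 9 0) (LE 8 0) (LE 7 0) (F 0 4 (F 0 5 (L 0))) X X X)))))))))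
(N 2 (Bad 2)
(N 2 (Bad 2)
(N 2 (Bad 2)
(N 2 (P (B 0 (L 0) (B 1 (LD 0 2) (S 1 (LE 9 0) (LE 8 0) (LE 7 0) (F 0 4 (F 0 5 (L 4))) X X X))))
(N 2 (P (B 0 (L 0) (B 2 (LD 0 1) (S 0 (LE 5 2) (LE 4 2) (LD 3 1) (LE 0 2) X X X))))
(P (B 0 (L 0) (B 2 (LD 0 1) (S 0 (L 5) (L 4) (LD 3 1) (L 0) X X X))))))))))))))))
(Q 3 7 768 (Q 3 8 512 (Q 4 5 0 (P (B 0 (L 0) (B 2 (LD 2 1) (B 1 (L 0) (B 3 (F 1 6 (F 1 9 (LE 9 0))) (F 0 4 (D 0)))))))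
(Q 3 9 0 (P (B 0 (L 0) (B 1 (L 0) (S 0 (LE 5 1) (LE 4 1) (D 1) (LE 2 1) X X X))))
(Q 4 9 0 (Q 2 5 0 (P (B 0 (L 0) (B 4 (LD 4 1) (B 1 (L 0) (B 2 (F 0 3 (D 1)) (F 0 3 (F 0 5 (F 1 6 (F 1 9 (L 5))))))))))
(Q 5 7 256 (P (B 0 (L 0) (B 2 (LD 2 1) (B 1 (L 0) (B 5 (B 6 (LE 5 0) (F 1 8 (F 0 4 (D 1)))) (F 0 3 (F 0 4 (D 1))))))))
(P (B 0 (L 0) (S 0 (L 5) (LD 4 1) (B 1 (L 3) (F 1 6 (F 1 9 (F 0 5 (L 5))))) (LD 2 1) (L 0) X X)))))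
(Q 5 9 0 (Q 2 4 0 (P (B 0 (L 0) (B 5 (LD 5 1) (B 1 (L 0) (B 2 (F 0 3 (D 1)) (F 0 3 (F 0 4 (F 1 6 (F 1 9 (L 4))))))))))
(Q 4 7 256 (P (B 0 (L 0) (B 4 (LD 4 1) (B 1 (L 0) (B 3 (F 1 6 (F 0 5 (D 1))) (F 0 2 (F 0 5 (F 1 7 (F 1 8 (L 2))))))))))
(P (B 0 (L 0) (S 0 (LD 5 1) (L 4) (B 1 (L 3) (F 1 6 (F 1 9 (F 0 4 (L 4))))) (LD 2 1) (L 0) X X)))))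
(Q 4 6 0 (Q 5 7 256 (P (B 0 (L 0) (B 2 (LD 2 1) (B 1 (L 0) (B 5 (B 9 (LE 9 0) (F 1 6 (F 0 3 (D 1)))) (F 0 3 (F 0 4 (D 1))))))))
(P (B 0 (L 0) (S 0 (L 5) (LD 4 1) (B 1 (L 3) (F 1 6 (F 0 5 (F 1 9 (L 5))))) (LD 2 1) (L 0) X X))))
(Q 5 6 0 (Q 4 7 256 (P (B 0 (L 0) (B 2 (LD 2 1) (B 1 (L 0) (B 4 (B 9 (LE 9 0) (F 1 6 (F 0 3 (D 1)))) (F 0 3 (F 0 5 (D 1))))))))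
(P (B 0 (L 0) (S 0 (LD 5 1) (L 4) (B 1 (L 3) (F 1 6 (F 0 4 (F 1 9 (L 4))))) (LD 2 1) (L 0) X X))))
(Q 2 3 0 (Q 2 4 32 (P (B 0 (L 0) (B 1 (L 0) (B 3 (F 1 6 (F 1 9 (LE 9 0))) (B 5 (LE 5 0) (F 0 2 (D 0)))))))
(N 2 (Bad 2)
(N 2 (Bad 2)
(N 2 (P (B 0 (L 0) (B 1 (LD 0 2) (S 0 (LE 5 1) (LE 4 1) (F 1 6 (F 1 9 (LE 9 0))) (LE 0 0) X X X))))
(P (B 0 (L 0) (B 1 (L 0) (S 0 (LE 5 1) (LE 4 1) (F 1 6 (F 1 9 (LE 9 0))) (LE 0 0) X X X))))))))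
(P (B 0 (L 0) (B 1 (L 0) (S 0 (LE 5 1) (LE 4 1) (F 1 6 (F 1 9 (LE 3 0))) (B 3 (D 1) (LE 2 0)) X X X)))))))))))
(Q 4 6 0 (Q 3 5 0 (P (B 1 (L 0) (B 0 (L 0) (S 1 (LE 9 0) (LE 8 0) (LE 7 0) (F 0 3 (D 0)) X X X))))
(Q 5 6 0 (P (B 1 (L 0) (B 0 (L 0) (S 1 (LE 9 0) (LE 8 0) (LE 7 0) (D 0) X X X))))
(Q 5 7 0 (P (B 1 (L 0) (B 0 (L 0) (S 1 (LE 9 0) (LE 8 0) (F 0 2 (F 0 4 (LE 2 1))) (F 0 3 (F 0 5 (LE 3 1))) X X X))))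
(Q 5 8 512 (Q 4 9 0 (P (B 0 (L 0) (B 2 (LD 2 1) (B 1 (L 0) (B 4 (F 1 7 (F 0 5 (D 1))) (F 0 3 (F 0 5 (F 1 6 (F 1 9 (L 3))))))))))
(Q 5 9 0 (P (B 0 (L 0) (B 2 (LD 2 1) (B 1 (L 0) (B 5 (F 1 6 (F 0 3 (D 1))) (F 0 3 (F 0 4 (F 1 8 (F 1 9 (L 3))))))))))
(Q 3 4 0 (P (B 0 (L 0) (B 2 (LD 2 1) (B 1 (L 0) (B 5 (B 9 (LE 9 0) (F 1 6 (F 0 3 (D 1)))) (F 0 3 (D 0)))))))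
(Q 4 5 0 (P (B 0 (L 0) (B 2 (LD 2 1) (B 1 (L 0) (B 3 (B 9 (LE 9 0) (F 1 6 (F 0 5 (D 1)))) (F 0 4 (D 0)))))))
(Q 4 7 0 (P (B 0 (L 0) (B 2 (LD 2 1) (B 1 (L 0) (B 3 (B 9 (LE 9 0) (F 1 6 (F 0 5 (D 1)))) (F 0 4 (F 0 5 (D 1))))))))
(Q 2 4 0 (P (B 0 (L 0) (B 3 (LD 3 1) (B 1 (L 0) (B 5 (B 6 (D 0) (F 1 7 (F 1 9 (LE 5 0)))) (F 0 2 (D 0)))))))
(Q 4 8 0 (P (B 0 (L 0) (B 2 (LD 2 1) (B 1 (L 0) (B 5 (B 9 (LE 9 0) (F 1 6 (F 0 3 (D 1)))) (F 0 3 (F 0 4 (D 1))))))))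
(N 4 (Bad 4)
(N 4 (Bad 4)
(N 4 (Bad 4)
(N 4 (P (B 0 (L 0) (B 1 (LD 0 4) (S 1 (LE 9 0) (LE 8 0) (LE 7 0) (F 0 3 (F 0 5 (F 1 9 (L 3)))) X X X))))
(P (B 0 (L 0) (S 0 (LD 5 1) (LD 0 1) (LD 3 1) (LD 2 1) (L 0) X X))))))))))))))
(Q 2 3 0 (Q 2 4 0 (P (B 0 (L 0) (B 3 (LD 3 1) (B 1 (L 0) (B 5 (B 6 (D 0) (LE 5 0)) (F 0 2 (D 0)))))))
(Q 2 5 0 (P (B 0 (L 0) (B 4 (LD 4 1) (B 1 (L 0) (B 2 (D 0) (F 0 3 (F 0 5 (LE 5 1))))))))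
(P (B 1 (L 0) (B 0 (L 0) (S 1 (LE 9 0) (LE 8 0) (LE 7 0) (F 0 3 (F 0 5 (LE 5 1))) X X X))))))
(Q 4 5 0 (P (B 0 (L 0) (B 2 (LD 2 1) (B 3 (LD 3 1) (B 1 (LE 0 0) (F 0 4 (D 0)))))))
(P (B 1 (L 0) (B 0 (L 0) (S 1 (LE 9 0) (LE 8 0) (LE 7 0) (F 0 3 (F 0 5 (LE 5 1))) X X X))))))))))
(Q 4 7 0 (Q 2 5 0 (P (B 1 (L 0) (B 0 (L 0) (S 1 (LE 9 0) (LE 8 0) (F 0 2 (D 0)) (LE 6 0) X X X))))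
(Q 5 7 0 (P (B 1 (L 0) (B 0 (L 0) (S 1 (LE 9 0) (LE 8 0) (D 0) (LE 6 0) X X X))))
(Q 3 4 0 (P (B 0 (L 0) (B 2 (LD 2 1) (B 1 (L 0) (B 5 (B 7 (D 0) (LE 5 0)) (F 0 3 (D 0)))))))
(Q 5 6 0 (P (B 1 (L 0) (B 0 (L 0) (S 1 (LE 9 0) (LE 8 0) (F 0 2 (F 0 5 (LE 2 1))) (F 0 3 (F 0 4 (LE 3 1))) X X X))))
(Q 5 8 512 (Q 5 9 0 (P (B 0 (L 0) (B 3 (LD 3 1) (B 1 (L 0) (B 5 (F 1 6 (F 0 4 (D 1))) (F 0 2 (F 0 4 (F 1 8 (F 1 9 (L 2))))))))))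
(Q 2 3 0 (Q 4 8 0 (P (B 0 (L 0) (B 2 (LD 2 1) (B 1 (L 0) (S 1 (LE 9 0) (D 0) (D 0) (B 7 (D 0) (B 8 (D 0) (F 1 9 (LE 9 0)))) X X X)))))
(Q 2 4 0 (P (B 0 (L 0) (B 3 (LD 3 1) (B 1 (L 0) (B 5 (B 9 (LE 9 0) (F 1 6 (F 0 4 (D 1)))) (F 0 2 (D 0)))))))
(N 2 (Bad 2)
(N 2 (Bad 2)
(N 2 (P (B 0 (L 0) (B 1 (LD 0 2) (S 1 (LE 9 0) (LE 8 0) (F 0 2 (F 0 5 (F 1 9 (L 0)))) (LE 6 0) X X X))))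
(P (B 0 (L 0) (S 0 (LD 5 1) (LD 4 1) (LD 3 1) (LD 0 1) (L 0) X X))))))))
(Q 4 5 0 (P (B 0 (L 0) (B 3 (LD 3 1) (B 1 (L 0) (B 2 (B 9 (LE 2 0) (F 1 7 (F 0 5 (D 1)))) (F 0 4 (D 0)))))))
(Q 4 9 0 (P (B 0 (L 0) (B 3 (LD 3 1) (B 1 (L 0) (B 4 (F 1 6 (F 0 5 (D 1))) (F 0 2 (F 0 5 (F 1 7 (F 1 9 (L 2))))))))))
(Q 2 4 0 (P (B 0 (L 0) (B 3 (LD 3 1) (B 1 (L 0) (B 5 (B 9 (LE 9 0) (F 1 6 (F 0 4 (D 1)))) (F 0 2 (D 0)))))))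
(P (B 1 (L 0) (S 1 (L 9) (LD 8 0) (B 0 (L 7) (F 0 2 (F 0 5 (F 1 9 (L 2))))) (LD 6 0) (L 0) X X))))))))
(Q 2 3 0 (Q 2 4 0 (N 2 (Bad 2)
(N 2 (P (B 0 (LE 0 2) (B 1 (LD 0 2) (S 1 (LE 9 0) (LE 8 0) (F 0 2 (F 0 5 (LE 5 1))) (LE 6 0) X X X))))
(P (B 0 (L 0) (S 0 (L 5) (LD 4 1) (LD 3 1) (LD 0 1) (L 0) X X)))))
(N 2 (Bad 2)
(N 2 (Bad 2)
(N 2 (P (B 0 (L 0) (B 1 (LD 0 2) (S 1 (LE 9 0) (LE 8 0) (F 0 2 (F 0 5 (LE 0 1))) (LE 6 0) X X X))))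
(P (B 0 (L 0) (S 0 (L 5) (LD 4 1) (LD 3 1) (LD 0 1) (L 0) X X)))))))
(Q 4 5 0 (P (B 0 (L 0) (B 2 (LD 2 1) (B 3 (LD 3 1) (B 1 (LE 0 0) (F 0 4 (D 0)))))))
(P (B 1 (L 0) (B 0 (L 0) (S 1 (LE 9 0) (LE 8 0) (F 0 2 (F 0 5 (LE 5 1))) (LE 6 0) X X X)))))))))))
(Q 4 8 512 (Q 4 9 0 (Q 2 5 0 (P (B 0 (L 0) (B 3 (LD 3 1) (B 1 (L 0) (B 2 (F 0 4 (D 1)) (F 0 4 (F 0 5 (F 1 6 (F 1 7 (L 6))))))))))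
(Q 4 5 0 (P (B 0 (L 0) (S 0 (L 5) (B 1 (L 4) (F 1 6 (F 0 3 (D 1)))) (LD 3 1) (LD 2 1) (L 0) X X)))
(Q 5 6 0 (P (B 0 (L 0) (B 2 (LD 2 1) (B 1 (L 0) (B 4 (F 1 6 (F 0 3 (D 1))) (F 0 3 (F 0 5 (F 1 8 (F 1 9 (L 5))))))))))
(Q 5 7 0 (P (B 0 (L 0) (B 3 (LD 3 1) (B 1 (L 0) (B 4 (F 1 6 (F 0 5 (D 1))) (F 0 2 (F 0 5 (F 1 8 (F 1 9 (L 5))))))))))
(Q 5 8 512 (P (B 0 (L 0) (B 2 (LD 2 1) (B 1 (L 0) (B 5 (B 6 (LE 5 0) (F 1 7 (F 0 4 (D 1)))) (F 0 3 (F 0 4 (D 1))))))))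
(P (B 0 (L 0) (S 0 (L 5) (B 1 (L 4) (F 1 6 (F 1 7 (F 0 5 (L 5))))) (LD 3 1) (LD 2 1) (L 0) X X))))))))
(Q 5 6 0 (Q 5 9 0 (P (B 0 (L 0) (B 2 (LD 2 1) (B 1 (L 0) (B 5 (F 1 7 (F 0 4 (D 1))) (F 0 3 (F 0 4 (F 1 6 (F 1 9 (L 3))))))))))
(Q 3 4 0 (P (B 0 (L 0) (B 2 (LD 2 1) (B 1 (L 0) (B 5 (B 9 (LE 9 0) (F 1 7 (F 0 4 (D 1)))) (F 0 3 (D 0)))))))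
(Q 3 5 0 (P (B 0 (L 0) (B 2 (LD 2 1) (B 1 (L 0) (B 4 (B 9 (LE 9 0) (F 1 6 (F 0 3 (D 1)))) (F 0 3 (D 0)))))))
(Q 4 5 0 (P (B 0 (L 0) (B 2 (LD 2 1) (B 1 (L 0) (B 3 (B 9 (LE 9 0) (F 1 6 (F 0 4 (D 1)))) (F 0 4 (D 0)))))))
(Q 5 7 0 (P (B 0 (L 0) (B 2 (LD 2 1) (B 1 (L 0) (B 3 (B 9 (LE 9 0) (F 1 6 (F 0 4 (D 1)))) (F 0 4 (F 0 5 (D 1))))))))
(Q 2 5 0 (P (B 0 (L 0) (B 3 (LD 3 1) (B 1 (L 0) (B 4 (B 6 (D 0) (F 1 7 (F 1 9 (LE 4 0)))) (F 0 2 (D 0)))))))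
(Q 5 8 0 (P (B 0 (L 0) (B 2 (LD 2 1) (B 1 (L 0) (B 4 (B 9 (LE 9 0) (F 1 6 (F 0 3 (D 1)))) (F 0 3 (F 0 5 (D 1))))))))
(N 5 (Bad 5)
(N 5 (Bad 5)
(N 5 (Bad 5)
(N 5 (P (B 0 (L 0) (B 1 (LD 0 5) (S 1 (LE 9 0) (LE 8 0) (LE 7 0) (F 0 3 (F 0 4 (F 1 9 (L 3)))) X X X))))
(P (B 0 (L 0) (S 0 (LD 0 1) (LD 4 1) (LD 3 1) (LD 2 1) (L 0) X X))))))))))))))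
(Q 5 7 0 (Q 3 5 0 (P (B 0 (L 0) (B 2 (LD 2 1) (B 1 (L 0) (B 4 (B 7 (D 0) (F 1 6 (F 1 9 (LE 4 0)))) (F 0 3 (D 0)))))))
(Q 2 4 0 (P (B 0 (L 0) (B 3 (LD 3 1) (B 1 (L 0) (B 5 (B 9 (LE 5 0) (F 1 6 (F 0 4 (D 1)))) (F 0 2 (D 0)))))))
(Q 2 3 0 (Q 5 8 0 (P (B 0 (L 0) (B 4 (LD 4 1) (B 1 (L 0) (B 2 (F 0 5 (D 1)) (F 0 3 (F 0 5 (F 1 6 (F 1 9 (L 9))))))))))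
(Q 2 5 0 (P (B 0 (L 0) (B 3 (LD 3 1) (B 1 (L 0) (B 4 (B 9 (LE 9 0) (F 1 6 (F 0 5 (D 1)))) (F 0 2 (D 0)))))))
(N 2 (Bad 2)
(N 2 (Bad 2)
(N 2 (P (B 0 (L 0) (B 1 (LD 0 2) (S 1 (LE 9 0) (LE 8 0) (F 0 2 (F 0 4 (F 1 9 (L 0)))) (LE 6 0) X X X))))
(P (B 0 (L 0) (S 0 (LD 5 1) (LD 4 1) (LD 3 1) (LD 0 1) (L 0) X X))))))))
(Q 4 5 0 (P (B 0 (L 0) (B 3 (LD 3 1) (B 1 (L 0) (B 2 (B 9 (LE 2 0) (F 1 7 (F 0 4 (D 1)))) (F 0 4 (D 0)))))))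
(Q 5 9 0 (P (B 0 (L 0) (B 3 (LD 3 1) (B 1 (L 0) (B 5 (F 1 6 (F 0 4 (D 1))) (F 0 2 (F 0 4 (F 1 7 (F 1 9 (L 2))))))))))
(Q 2 5 0 (P (B 0 (L 0) (B 3 (LD 3 1) (B 1 (L 0) (B 4 (B 9 (LE 9 0) (F 1 6 (F 0 5 (D 1)))) (F 0 2 (D 0)))))))
(P (B 1 (L 0) (S 1 (L 9) (LD 8 0) (B 0 (L 7) (F 0 2 (F 0 4 (F 1 9 (L 2))))) (LD 6 0) (L 0) X X)))))))))
(Q 5 8 0 (Q 4 5 0 (P (B 0 (L 0) (B 2 (LD 2 1) (B 1 (L 0) (B 3 (B 8 (D 0) (F 1 6 (F 1 9 (LE 3 0)))) (F 0 4 (D 0)))))))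
(Q 2 3 0 (P (B 0 (L 0) (B 4 (LD 4 1) (B 1 (L 0) (B 5 (B 9 (LE 5 0) (F 1 6 (F 0 3 (D 1)))) (F 0 2 (D 0)))))))
(Q 2 4 0 (Q 2 5 0 (P (B 0 (L 0) (B 4 (LD 4 1) (B 1 (L 0) (B 3 (B 9 (LE 9 0) (F 1 6 (F 0 5 (D 1)))) (F 0 2 (D 0)))))))
(N 2 (Bad 2)
(N 2 (Bad 2)
(N 2 (P (B 0 (L 0) (B 1 (LD 0 2) (S 1 (LE 9 0) (F 0 2 (F 0 3 (F 1 9 (L 0)))) (LE 7 0) (LE 6 0) X X X))))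
(P (B 0 (L 0) (S 0 (LD 5 1) (LD 4 1) (LD 3 1) (LD 0 1) (L 0) X X)))))))
(Q 5 9 0 (P (B 0 (L 0) (B 4 (LD 4 1) (B 1 (L 0) (B 5 (F 1 6 (F 0 3 (D 1))) (F 0 2 (F 0 3 (F 1 8 (F 1 9 (L 2))))))))))
(Q 2 5 0 (P (B 0 (L 0) (B 4 (LD 4 1) (B 1 (L 0) (B 3 (B 9 (LE 9 0) (F 1 6 (F 0 5 (D 1)))) (F 0 2 (D 0)))))))
(P (B 1 (L 0) (S 1 (L 9) (B 0 (L 8) (F 0 2 (F 0 3 (F 1 9 (L 2))))) (LD 7 0) (LD 6 0) (L 0) X X))))))))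
(Q 5 9 0 (Q 2 3 0 (Q 2 4 0 (P (B 0 (L 0) (S 0 (LD 5 1) (LD 4 1) (LD 3 1) (B 1 (L 2) (F 0 5 (F 1 7 (F 1 8 (L 2))))) (L 0) X X)))
(Q 3 5 0 (P (B 0 (L 0) (B 4 (LD 4 1) (B 1 (L 0) (B 2 (F 0 5 (F 1 7 (F 1 8 (L 2)))) (F 0 3 (D 0)))))))
(Q 2 5 0 (P (B 0 (L 0) (B 4 (LD 4 1) (B 1 (L 0) (B 2 (D 0) (F 0 3 (F 0 5 (F 1 6 (F 1 8 (L 3))))))))))
(N 2 (Bad 2)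
(N 2 (Bad 2)
(N 2 (P (B 0 (L 0) (B 1 (LD 0 2) (B 4 (LE 4 1) (B 2 (F 0 5 (F 1 7 (F 1 8 (L 0)))) (F 0 3 (F 0 5 (F 1 6 (F 1 8 (L 5))))))))))
(P (B 0 (L 0) (S 0 (LD 5 1) (LD 4 1) (LD 3 1) (LD 0 1) (L 0) X X)))))))))
(Q 4 5 0 (P (B 0 (L 0) (B 2 (LD 2 1) (B 1 (L 0) (B 3 (B 6 (LE 3 0) (F 1 8 (F 0 5 (D 1)))) (F 0 4 (D 0)))))))
(Q 2 4 0 (Q 2 5 0 (P (B 0 (L 0) (B 3 (LD 3 1) (B 1 (L 0) (B 2 (D 0) (F 0 4 (F 0 5 (F 1 6 (F 1 7 (L 4))))))))))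
(N 2 (Bad 2)
(N 2 (Bad 2)
(N 2 (P (B 0 (L 0) (B 1 (LD 0 2) (B 3 (LE 3 1) (B 2 (F 0 5 (F 1 7 (F 1 8 (L 0)))) (F 0 4 (F 0 5 (F 1 6 (F 1 7 (L 5))))))))))
(P (B 0 (L 0) (S 0 (LD 5 1) (LD 4 1) (LD 3 1) (LD 0 1) (L 0) X X)))))))
(Q 2 5 0 (N 2 (Bad 2)
(N 2 (Bad 2)
(N 2 (P (B 0 (L 0) (B 1 (LD 0 2) (B 3 (LE 3 1) (B 2 (F 0 4 (F 1 7 (F 1 9 (L 0)))) (F 0 4 (F 0 5 (F 1 6 (F 1 7 (L 4))))))))))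
(P (B 0 (L 0) (S 0 (LD 5 1) (LD 4 1) (LD 3 1) (LD 0 1) (L 0) X X))))))
(N 2 (Bad 2)
(N 2 (Bad 2)
(N 2 (Bad 2)
(N 2 (P (B 0 (L 0) (S 0 (LD 5 1) (LD 4 1) (LD 3 1) (LD 0 1) (LD 0 2) X X)))
(P (B 0 (L 0) (S 0 (LD 5 1) (LD 4 1) (LD 3 1) (LD 0 1) (L 0) X X)))))))))))
(Q 2 3 0 (Q 2 5 0 (P (B 0 (L 0) (B 4 (LD 4 1) (B 1 (L 0) (B 2 (D 0) (F 0 3 (F 0 5 (LE 5 1))))))))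
(Q 3 5 0 (P (B 0 (L 0) (B 4 (LD 4 1) (B 1 (L 0) (B 2 (F 0 5 (LE 5 1)) (F 0 3 (D 0)))))))
(Q 3 4 0 (Q 4 5 0 (P (B 0 (L 0) (B 2 (LD 2 1) (B 1 (L 0) (B 3 (F 0 5 (LE 5 1)) (F 0 4 (D 0)))))))
(P (B 0 (L 0) (S 0 (L 5) (LD 4 1) (B 5 (LD 5 1) (F 0 1 (L 3))) (LD 2 1) (L 0) X X))))
(N 3 (Bad 3)
(N 3 (Bad 3)
(N 3 (P (B 1 (LD 0 3) (S 1 (L 9) (LD 8 0) (LD 7 0) (LD 6 0) (L 0) X X)))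
(P (B 0 (L 0) (S 0 (L 5) (LD 4 1) (LD 0 1) (LD 2 1) (L 0) X X)))))))))
(Q 4 5 0 (P (B 0 (L 0) (B 2 (LD 2 1) (B 3 (LD 3 1) (B 1 (LE 0 0) (F 0 4 (D 0)))))))
(Q 2 4 0 (Q 2 5 0 (P (B 0 (L 0) (B 3 (LD 3 1) (B 1 (L 0) (B 2 (D 0) (F 0 4 (F 0 5 (LE 5 1))))))))
(N 2 (Bad 2)
(N 2 (Bad 2)
(N 2 (P (B 1 (LD 0 2) (S 1 (L 9) (LD 8 0) (LD 7 0) (LD 6 0) (L 0) X X)))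
(P (B 0 (L 0) (S 0 (L 5) (LD 4 1) (LD 3 1) (LD 0 1) (L 0) X X)))))))
(Q 2 5 0 (N 2 (Bad 2)
(N 2 (Bad 2)
(N 2 (P (B 0 (L 0) (B 1 (LD 0 2) (S 1 (LE 9 0) (B 3 (LE 3 0) (F 0 2 (D 0))) (B 4 (LE 4 0) (F 0 2 (D 0))) (LE 6 0) X X X))))
(P (B 0 (L 0) (S 0 (L 5) (LD 4 1) (LD 3 1) (LD 0 1) (L 0) X X))))))
(N 2 (Bad 2)
(N 2 (Bad 2)
(N 2 (Bad 2)
(N 2 (P (B 1 (LD 0 2) (S 1 (L 9) (LD 8 0) (LD 7 0) (LD 6 0) (L 0) X X)))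
(P (B 0 (L 0) (S 0 (L 5) (LD 4 1) (LD 3 1) (LD 0 1) (L 0) X X))))))))))))))))
(Q 5 6 0 (Q 3 4 0 (P (B 1 (L 0) (B 0 (L 0) (S 1 (LE 9 0) (LE 8 0) (LE 7 0) (F 0 3 (D 0)) X X X))))
(Q 2 3 0 (Q 2 5 0 (P (B 0 (L 0) (B 3 (LD 3 1) (B 1 (L 0) (B 4 (B 6 (D 0) (LE 4 0)) (F 0 2 (D 0)))))))
(Q 2 4 0 (P (B 0 (L 0) (B 5 (LD 5 1) (B 1 (L 0) (B 2 (D 0) (F 0 3 (F 0 4 (LE 4 1))))))))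
(P (B 1 (L 0) (B 0 (L 0) (S 1 (LE 9 0) (LE 8 0) (LE 7 0) (F 0 3 (F 0 4 (LE 4 1))) X X X))))))
(Q 4 5 0 (P (B 0 (L 0) (B 2 (LD 2 1) (B 3 (LD 3 1) (B 1 (LE 0 0) (F 0 4 (D 0)))))))
(P (B 1 (L 0) (B 0 (L 0) (S 1 (LE 9 0) (LE 8 0) (LE 7 0) (F 0 3 (F 0 4 (LE 4 1))) X X X)))))))
(Q 5 7 0 (Q 2 4 0 (P (B 1 (L 0) (B 0 (L 0) (S 1 (LE 9 0) (LE 8 0) (F 0 2 (D 0)) (LE 6 0) X X X))))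
(Q 3 5 0 (P (B 0 (L 0) (B 2 (LD 2 1) (B 1 (L 0) (B 4 (B 7 (D 0) (LE 4 0)) (F 0 3 (D 0)))))))
(Q 2 3 0 (Q 2 5 0 (N 2 (Bad 2)
(N 2 (P (B 0 (LE 0 2) (B 1 (LD 0 2) (S 1 (LE 9 0) (LE 8 0) (F 0 2 (F 0 4 (LE 4 1))) (LE 6 0) X X X))))
(P (B 0 (L 0) (S 0 (LD 5 1) (L 4) (LD 3 1) (LD 0 1) (L 0) X X)))))
(N 2 (Bad 2)
(N 2 (Bad 2)
(N 2 (P (B 0 (L 0) (B 1 (LD 0 2) (S 1 (LE 9 0) (LE 8 0) (F 0 2 (F 0 4 (LE 0 1))) (LE 6 0) X X X))))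
(P (B 0 (L 0) (S 0 (LD 5 1) (L 4) (LD 3 1) (LD 0 1) (L 0) X X)))))))
(Q 4 5 0 (P (B 0 (L 0) (B 2 (LD 2 1) (B 3 (LD 3 1) (B 1 (LE 0 0) (F 0 4 (D 0)))))))
(P (B 1 (L 0) (B 0 (L 0) (S 1 (LE 9 0) (LE 8 0) (F 0 2 (F 0 4 (LE 4 1))) (LE 6 0) X X X))))))))
(Q 5 8 512 (Q 5 9 0 (Q 3 4 0 (P (B 0 (L 0) (B 2 (LD 2 1) (B 1 (L 0) (B 3 (F 0 5 (D 1)) (F 0 4 (F 0 5 (F 1 6 (F 1 7 (L 4))))))))))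
(P (B 0 (L 0) (S 0 (B 1 (L 5) (F 1 6 (F 1 7 (F 0 4 (L 4))))) (L 4) (LD 3 1) (LD 2 1) (L 0) X X))))
(Q 2 3 0 (Q 2 4 0 (P (B 0 (L 0) (B 5 (LD 5 1) (B 1 (L 0) (B 2 (D 0) (F 0 3 (F 0 4 (LE 4 1))))))))
(Q 3 4 0 (P (B 0 (L 0) (B 5 (LD 5 1) (B 1 (L 0) (B 2 (F 0 4 (LE 4 1)) (F 0 3 (D 0)))))))
(Q 3 5 0 (Q 4 5 0 (P (B 0 (L 0) (B 2 (LD 2 1) (B 1 (L 0) (B 3 (F 0 4 (LE 4 1)) (F 0 4 (D 0)))))))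
(P (B 0 (L 0) (S 0 (LD 5 1) (L 4) (B 4 (LD 4 1) (F 0 1 (L 3))) (LD 2 1) (L 0) X X))))
(N 3 (Bad 3)
(N 3 (Bad 3)
(N 3 (P (B 0 (L 0) (B 1 (LD 0 3) (B 4 (LE 4 1) (B 5 (B 9 (LE 9 0) (F 1 6 (F 0 3 (D 1)))) (F 0 2 (D 0)))))))
(P (B 0 (L 0) (S 0 (LD 5 1) (L 4) (LD 0 1) (LD 2 1) (L 0) X X)))))))))
(Q 4 5 0 (P (B 0 (L 0) (B 2 (LD 2 1) (B 3 (LD 3 1) (B 1 (LE 0 0) (F 0 4 (D 0)))))))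
(Q 2 4 0 (Q 2 5 0 (P (B 0 (L 0) (B 3 (LD 3 1) (B 1 (L 0) (B 2 (D 0) (F 0 4 (F 0 5 (LE 4 1))))))))
(N 2 (Bad 2)
(N 2 (Bad 2)
(N 2 (P (B 0 (L 0) (B 1 (LD 0 2) (S 1 (LE 9 0) (B 3 (LE 3 0) (F 0 2 (D 0))) (B 5 (LE 5 0) (F 0 2 (D 0))) (LE 6 0) X X X))))
(P (B 0 (L 0) (S 0 (LD 5 1) (L 4) (LD 3 1) (LD 0 1) (L 0) X X)))))))
(Q 2 5 0 (N 2 (Bad 2)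
(N 2 (Bad 2)
(N 2 (P (B 0 (L 0) (B 1 (LD 0 2) (B 4 (LE 4 1) (B 3 (B 9 (LE 9 0) (F 1 6 (F 0 5 (D 1)))) (F 0 2 (D 0)))))))
(P (B 0 (L 0) (S 0 (LD 5 1) (L 4) (LD 3 1) (LD 0 1) (L 0) X X))))))
(N 2 (Bad 2)
(N 2 (Bad 2)
(N 2 (Bad 2)
(N 2 (P (B 1 (LD 0 2) (S 1 (L 9) (LD 8 0) (LD 7 0) (LD 6 0) (L 0) X X)))
(P (B 0 (L 0) (S 0 (LD 5 1) (L 4) (LD 3 1) (LD 0 1) (L 0) X X))))))))))))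
(Q 2 3 0 (Q 2 4 32 (Q 2 5 0 (P (B 0 (L 0) (B 1 (L 0) (S 0 (LE 5 0) (LE 4 0) (LE 3 0) (D 0) X X X))))
(N 2 (Bad 2)
(N 2 (P (B 0 (LE 0 2) (B 1 (LD 0 2) (S 0 (LE 5 1) (LE 4 0) (LE 3 0) (F 0 5 (LE 5 1)) X X X))))
(Q 3 4 0 (P (B 0 (L 0) (B 2 (LD 0 1) (B 1 (L 0) (B 5 (LE 5 0) (F 0 3 (D 0)))))))
(Q 4 5 0 (P (B 0 (L 0) (B 3 (LD 3 1) (B 1 (L 0) (B 2 (F 0 5 (LE 0 1)) (F 0 4 (D 0)))))))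
(N 2 (Q 3 5 0 (P (B 0 (L 0) (B 1 (L 0) (B 2 (F 0 5 (LE 5 1)) (B 4 (LE 4 0) (F 0 3 (D 0)))))))
(P (B 0 (L 0) (B 3 (LD 3 1) (B 1 (LD 0 2) (B 5 (LE 5 0) (F 0 2 (D 0))))))))
(P (B 0 (L 0) (S 0 (L 5) (L 4) (LD 3 1) (LD 0 1) (L 0) X X)))))))))
(N 2 (Bad 2)
(N 2 (Bad 2)
(N 2 (Q 3 4 32 (P (B 0 (L 0) (B 1 (LD 0 2) (S 0 (LE 5 1) (LD 4 2) (F 0 5 (LE 5 1)) (LE 0 0) X X X))))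
(Q 4 5 0 (P (B 0 (L 0) (B 1 (LD 0 2) (S 1 (LE 9 0) (LE 8 0) (B 2 (LE 0 0) (F 0 4 (D 0))) (B 3 (LE 3 0) (F 0 4 (D 0))) X X X))))
(P (B 0 (L 0) (B 1 (LD 0 2) (B 4 (LE 4 1) (B 5 (LE 5 0) (F 0 2 (D 0)))))))))
(N 2 (Q 3 4 32 (P (B 0 (L 0) (B 2 (LD 0 1) (B 1 (LE 0 2) (B 5 (LE 5 0) (F 0 3 (D 0)))))))
(Q 4 5 0 (P (B 0 (L 0) (B 3 (LD 3 1) (B 2 (LD 0 1) (B 4 (F 0 1 (LE 4 2)) (F 0 1 (F 0 5 (LE 5 2))))))))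
(Q 4 10 6144 (Q 4 11 4096 (P (B 0 (L 0) (B 3 (LD 3 1) (B 2 (LD 0 1) (B 4 (F 2 6 (F 0 5 (F 2 12 (L 4)))) (F 0 1 (F 0 5 (LE 5 2))))))))
(N 4 (Bad 4)
(N 4 (Bad 4)
(N 4 (Bad 4)
(N 4 (Q 5 10 0 (P (B 0 (L 0) (B 5 (LD 5 4) (B 2 (B 1 (LD 0 4) (F 0 4 (LE 0 1))) (B 3 (LD 3 1) (F 0 1 (F 0 4 (F 2 11 (F 2 12 (L 0))))))))))
(Q 5 11 4096 (P (B 0 (L 0) (B 3 (LD 3 1) (B 2 (LD 0 1) (B 4 (B 1 (F 2 11 (F 2 12 (L 0))) (F 0 5 (F 2 6 (F 2 12 (L 0))))) (F 0 1 (F 0 5 (F 2 10 (F 2 12 (L 5))))))))))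
(P (B 0 (L 0) (B 1 (L 0) (B 4 (LE 0 1) (B 2 (F 0 5 (LE 5 1)) (F 0 3 (F 0 5 (LE 5 1))))))))))
(P (B 0 (L 0) (B 2 (LD 0 1) (B 4 (LE 0 2) (B 5 (LE 5 0) (F 0 1 (F 0 3 (L 3)))))))))))))
(N 4 (Bad 4)
(N 4 (Bad 4)
(N 4 (Bad 4)
(N 4 (Bad 4)
(N 4 (Q 5 13 114688 (P (B 0 (L 0) (B 5 (LD 5 4) (B 2 (B 4 (LD 0 1) (F 0 1 (LE 0 4))) (B 4 (LE 0 0) (F 0 1 (F 0 3 (LE 3 4))))))))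
(P (B 0 (L 0) (B 3 (LD 3 1) (B 2 (LD 0 1) (B 1 (B 4 (LE 0 2) (F 0 5 (LE 5 2))) (F 0 4 (F 0 5 (LE 5 1)))))))))
(P (B 0 (L 0) (B 2 (LD 0 1) (B 4 (LE 0 2) (B 5 (LE 5 0) (F 0 1 (F 0 3 (L 3))))))))))))))))
(P (B 0 (L 0) (S 0 (L 5) (L 4) (LD 3 1) (LD 0 1) (L 0) X X))))))))
(Q 4 5 0 (P (B 0 (L 0) (B 1 (L 0) (S 1 (LE 9 0) (LE 8 0) (B 2 (LE 2 0) (F 0 4 (D 0))) (B 3 (LE 3 0) (F 0 4 (D 0))) X X X))))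
(Q 2 4 32 (Q 2 5 0 (P (B 0 (L 0) (B 1 (L 0) (S 0 (LE 5 0) (LE 4 0) (LE 3 1) (F 0 3 (F 1 8 (F 1 9 (L 8)))) X X X))))
(N 2 (Bad 2)
(N 2 (Bad 2)
(N 2 (Q 3 5 0 (P (B 0 (L 0) (B 1 (LD 0 2) (S 1 (LE 9 0) (LE 8 0) (B 5 (LE 5 0) (F 0 2 (D 0))) (B 4 (LE 4 0) (F 0 3 (D 0))) X X X))))
(P (B 0 (L 0) (B 1 (LD 0 2) (B 3 (LE 3 1) (B 5 (LE 5 0) (F 0 2 (D 0))))))))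
(Q 3 4 0 (P (B 0 (L 0) (B 2 (LD 0 1) (B 1 (L 0) (B 5 (LE 5 0) (F 0 3 (D 0)))))))
(N 2 (Q 3 5 0 (P (B 0 (L 0) (B 2 (LD 0 1) (B 1 (LE 0 2) (B 4 (LE 4 0) (F 0 3 (D 0)))))))
(P (B 0 (L 0) (B 3 (LD 3 1) (B 1 (B 2 (L 0) (B 5 (LE 5 2) (F 0 4 (L 4)))) (B 5 (LE 5 0) (F 0 2 (D 0))))))))
(P (B 0 (L 0) (S 0 (L 5) (L 4) (LD 3 1) (LD 0 1) (L 0) X X)))))))))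
(N 2 (Bad 2)
(N 2 (Bad 2)
(N 2 (Bad 2)
(N 2 (Q 3 4 32 (P (B 0 (L 0) (B 1 (LD 0 2) (B 2 (LE 0 1) (B 5 (LE 5 0) (F 0 3 (D 0)))))))
(Q 3 10 6144 (Q 3 11 4096 (P (B 0 (L 0) (B 2 (LD 0 1) (S 0 (LE 5 2) (LE 4 2) (F 2 6 (F 2 12 (LE 3 0))) (LE 0 2) X X X))))
(N 3 (Bad 3)
(N 3 (Bad 3)
(Q 4 11 4096 (P (B 0 (L 0) (B 2 (LD 0 1) (S 2 (LE 12 0) (B 5 (LE 5 0) (F 0 1 (F 0 3 (F 2 12 (L 0))))) (B 5 (LE 5 0) (F 0 1 (F 0 4 (F 2 12 (L 4))))) (LE 6 0) X X X))))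
(Q 5 11 4096 (P (B 0 (L 0) (B 2 (LD 0 1) (B 4 (LE 4 2) (B 3 (B 1 (F 2 11 (F 2 12 (L 0))) (F 0 5 (F 2 6 (F 2 12 (LE 0 1))))) (F 0 1 (F 0 5 (F 2 10 (F 2 12 (L 5))))))))))
(Q 4 10 0 (P (B 0 (L 0) (B 2 (LD 0 1) (S 2 (LE 12 0) (LE 11 0) (F 0 1 (F 0 5 (LE 5 2))) (LE 6 0) X X X))))
(Q 5 10 0 (P (B 0 (L 0) (B 2 (LD 0 1) (S 2 (LE 12 0) (LE 11 0) (F 0 1 (F 0 4 (LE 4 2))) (LE 6 0) X X X))))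
(P (B 0 (L 0) (B 1 (LD 0 2) (B 4 (LE 4 1) (B 3 (B 2 (F 1 8 (F 1 9 (L 0))) (F 0 5 (LE 5 1))) (F 0 2 (F 0 5 (LE 5 1)))))))))))))))
(N 3 (Bad 3)
(N 3 (Bad 3)
(N 3 (Bad 3)
(N 3 (Q 4 10 6144 (Q 4 11 4096 (P (B 0 (L 0) (B 2 (LD 0 1) (S 0 (LE 5 2) (F 2 6 (F 2 12 (LE 4 0))) (LD 0 1) (LD 0 3) X X X))))
(Q 5 10 0 (P (B 0 (L 0) (B 2 (LD 0 1) (S 2 (LE 12 0) (LE 11 0) (F 0 1 (F 0 3 (LE 0 2))) (LE 6 0) X X X))))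
(Q 5 11 4096 (P (B 0 (L 0) (B 2 (LD 0 1) (B 3 (LD 0 1) (B 4 (B 1 (F 2 11 (F 2 12 (LE 4 3))) (F 0 5 (F 2 6 (F 2 12 (LE 4 3))))) (F 0 1 (F 0 5 (F 2 10 (F 2 12 (LE 5 3))))))))))
(P (B 0 (L 0) (B 3 (LD 0 1) (B 4 (LD 4 2) (B 1 (B 5 (LD 5 2) (F 0 2 (LE 0 3))) (F 0 2 (F 0 5 (LE 5 1)))))))))))
(Q 4 13 49152 (P (B 0 (L 0) (B 3 (LD 0 1) (S 3 (LE 15 0) (LE 14 0) (B 5 (B 1 (LD 5 2) (F 0 2 (LE 5 1))) (F 0 1 (F 0 2 (LE 0 3)))) (B 5 (LE 5 0) (F 0 2 (F 0 4 (LE 4 1)))) X X X))))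
(P (B 0 (L 0) (B 1 (LD 0 2) (S 1 (LE 9 0) (LE 8 0) (B 5 (LE 5 0) (F 0 2 (F 0 4 (LE 4 1)))) (B 5 (LE 5 0) (F 0 3 (F 0 4 (LE 4 1)))) X X X))))))
(P (B 0 (L 0) (B 3 (LD 0 1) (B 2 (LD 0 1) (B 4 (LE 4 0) (F 0 1 (F 0 5 (LE 5 2))))))))))))))
(N 2 (P (B 0 (L 0) (B 2 (LD 0 1) (S 0 (LE 5 2) (LE 4 2) (LD 3 1) (LE 0 2) X X X))))
(P (B 0 (L 0) (B 2 (LD 0 1) (S 0 (L 5) (L 4) (LD 3 1) (L 0) X X X)))))))))))))))))))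
(Q 4 6 0 (Q 3 5 0 (P (B 0 (L 0) (B 1 (L 0) (S 1 (LE 9 0) (LE 8 0) (LE 7 0) (F 0 3 (D 0)) X X X))))
(Q 5 6 0 (P (B 1 (L 0) (B 0 (L 0) (S 1 (LE 9 0) (LE 8 0) (LE 7 0) (D 0) X X X))))
(Q 5 7 768 (Q 5 8 512 (Q 3 4 0 (P (B 0 (L 0) (B 2 (LD 2 1) (B 1 (L 0) (B 3 (F 0 5 (F 1 6 (F 1 9 (L 3)))) (F 0 4 (F 0 5 (D 1))))))))
(P (B 1 (L 0) (S 1 (L 9) (LD 8 0) (LD 7 0) (B 0 (L 6) (F 0 3 (F 0 5 (F 1 9 (L 3))))) (L 0) X X))))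
(Q 2 3 0 (P (B 1 (L 0) (B 0 (L 0) (S 1 (LE 9 0) (LE 8 0) (B 4 (LE 4 0) (F 0 2 (D 0))) (F 0 3 (F 0 5 (LE 3 1))) X X X))))
(P (B 1 (L 0) (B 0 (L 0) (S 1 (LE 9 0) (LE 8 0) (LE 7 0) (F 0 3 (F 0 5 (LE 3 1))) X X X))))))
(Q 2 3 32 (Q 3 4 0 (N 3 (Bad 3)
(N 3 (Bad 3)
(N 3 (P (B 0 (LE 0 3) (S 0 (L 5) (LD 4 1) (LE 0 0) (LD 2 1) (L 0) X X)))
(P (B 0 (L 0) (S 0 (L 5) (LD 4 1) (LE 0 0) (LD 2 1) (L 0) X X))))))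
(N 3 (Bad 3)
(N 3 (Bad 3)
(N 3 (Bad 3)
(N 3 (Q 2 5 0 (P (B 0 (L 0) (B 4 (LD 4 1) (B 1 (L 0) (B 2 (D 0) (F 0 3 (F 0 5 (LE 0 1))))))))
(Q 5 10 6144 (Q 2 4 0 (P (B 0 (L 0) (B 5 (LD 5 3) (B 1 (L 0) (B 2 (D 0) (F 0 3 (F 0 4 (LE 0 1))))))))
(Q 2 10 0 (Q 2 11 4096 (P (B 0 (L 0) (S 0 (LD 5 3) (LD 4 1) (L 0) (F 3 12 (LD 12 1)) (L 0) X X)))
(N 2 (Bad 2)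
(N 2 (P (B 0 (L 0) (B 2 (LD 0 1) (B 10 (F 0 1 (F 0 4 (F 2 13 (LE 0 3)))) (B 3 (LE 0 2) (F 2 6 (D 0)))))))
(P (B 0 (L 0) (S 0 (LD 5 3) (LD 4 1) (L 0) (LD 0 1) (L 0) X X))))))
(Q 4 10 0 (Q 2 11 4096 (P (B 3 (L 0) (B 10 (B 0 (L 10) (F 0 1 (F 0 2 (L 2)))) (B 0 (LE 0 3) (B 12 (LE 12 0) (F 3 2 (D 3)))))))
(N 2 (Bad 2)
(N 2 (Bad 2)
(N 2 (P (B 0 (L 0) (B 1 (LD 0 2) (S 1 (LE 9 0) (LE 8 0) (LE 7 0) (F 0 3 (F 0 5 (L 0))) X X X))))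
(P (B 0 (L 0) (S 0 (LD 5 3) (LD 4 1) (L 0) (LD 0 1) (L 0) X X)))))))
(Q 2 11 4096 (Q 2 12 0 (P (B 0 (L 0) (B 4 (LD 4 1) (B 2 (F 3 10 (F 0 1 (L 0))) (B 3 (LE 0 0) (F 0 1 (F 0 5 (F 3 11 (F 3 12 (L 5))))))))))
(N 2 (Bad 2)
(N 2 (P (B 0 (L 0) (B 2 (LD 0 1) (B 6 (F 0 3 (F 0 5 (L 0))) (B 13 (LD 13 1) (F 2 3 (D 2)))))))
(P (B 0 (L 0) (S 0 (LD 5 3) (LD 4 1) (L 0) (LD 0 1) (L 0) X X))))))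
(N 2 (Bad 2)
(N 2 (Bad 2)
(N 2 (P (B 0 (L 0) (B 1 (LD 0 2) (S 1 (LE 9 0) (LE 8 0) (LE 7 0) (F 0 3 (F 0 5 (L 0))) X X X))))
(P (B 0 (L 0) (S 0 (LD 5 3) (LD 4 1) (L 0) (LD 0 1) (L 0) X X))))))))))
(P (B 0 (L 0) (B 1 (L 0) (S 1 (LE 9 0) (LE 8 0) (LE 7 0) (F 0 3 (F 0 5 (L 5))) X X X))))))
(P (B 1 (L 0) (B 0 (L 0) (S 1 (LE 9 0) (LE 8 0) (LE 7 0) (F 0 3 (F 0 5 (L 0))) X X X)))))))))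
(Q 2 4 0 (P (B 0 (L 0) (B 1 (L 0) (B 3 (LE 3 1) (B 5 (B 6 (D 0) (LE 5 0)) (F 0 2 (D 0)))))))
(N 2 (Bad 2)
(N 2 (Bad 2)
(N 2 (Bad 2)
(N 2 (P (B 0 (L 0) (B 1 (LD 0 2) (S 1 (LE 9 0) (LE 8 0) (LE 7 0) (F 0 3 (F 0 5 (L 3))) X X X))))
(N 2 (P (B 0 (L 0) (B 2 (LD 0 1) (S 0 (LE 5 2) (LD 4 1) (LE 3 2) (LE 0 2) X X X))))
(P (B 0 (L 0) (B 2 (LD 0 1) (S 0 (L 5) (LD 4 1) (L 3) (L 0) X X X))))))))))))))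
(Q 4 7 768 (Q 4 8 512 (Q 3 5 0 (P (B 0 (L 0) (B 2 (LD 2 1) (B 1 (L 0) (B 4 (F 1 6 (F 1 9 (LE 9 0))) (F 0 3 (D 0)))))))
(Q 4 9 0 (P (B 0 (L 0) (B 1 (L 0) (S 0 (LE 5 1) (D 1) (LE 3 1) (LE 2 1) X X X))))
(Q 5 6 0 (P (B 0 (L 0) (S 0 (LD 5 1) (B 1 (L 4) (F 1 6 (F 0 3 (F 1 9 (L 3))))) (L 3) (LD 2 1) (L 0) X X)))
(Q 5 9 0 (P (B 0 (L 0) (S 0 (LD 5 1) (B 1 (L 4) (F 1 6 (F 1 9 (F 0 3 (L 3))))) (L 3) (LD 2 1) (L 0) X X)))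
(Q 5 7 256 (Q 2 3 0 (P (B 0 (L 0) (B 5 (LD 5 1) (B 1 (L 0) (B 2 (F 0 4 (D 1)) (F 0 3 (F 0 4 (F 1 6 (F 1 9 (L 3))))))))))
(Q 4 5 0 (P (B 0 (L 0) (B 2 (LD 2 1) (B 1 (L 0) (B 3 (B 7 (D 0) (LE 3 0)) (F 0 4 (D 0)))))))
(Q 5 8 0 (P (B 0 (L 0) (B 2 (LD 2 1) (B 1 (L 0) (S 1 (LE 9 0) (D 0) (D 0) (B 7 (D 0) (B 8 (D 0) (F 1 9 (LE 9 0)))) X X X)))))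
(Q 3 4 0 (P (B 0 (L 0) (B 5 (LD 5 1) (B 1 (L 0) (B 3 (F 0 2 (LE 3 1)) (F 0 2 (F 0 4 (D 1))))))))
(P (B 0 (L 0) (B 5 (LD 5 1) (B 1 (L 0) (B 4 (F 1 6 (F 0 3 (F 1 9 (L 3)))) (F 0 2 (F 0 3 (LE 3 1))))))))))))
(Q 3 4 0 (P (B 0 (L 0) (B 1 (L 0) (S 0 (LE 5 1) (F 1 6 (F 0 5 (F 1 9 (L 5)))) (LE 3 0) (LE 2 1) X X X))))
(Q 2 5 0 (P (B 0 (L 0) (B 1 (L 0) (B 3 (LE 3 1) (B 2 (F 0 4 (D 1)) (F 0 4 (F 0 5 (F 1 6 (F 1 9 (L 5))))))))))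
(Q 4 5 0 (P (B 0 (L 0) (B 1 (L 0) (B 3 (LE 3 1) (B 4 (F 0 2 (D 1)) (F 0 2 (F 0 5 (LE 5 1))))))))
(P (B 0 (L 0) (B 1 (L 0) (B 3 (LE 3 1) (B 4 (F 1 6 (F 0 5 (F 1 9 (L 5)))) (F 0 2 (F 0 5 (LE 5 1))))))))))))))))
(Q 5 6 0 (Q 3 4 0 (P (B 1 (L 0) (B 0 (L 0) (S 1 (LE 9 0) (LE 8 0) (LE 7 0) (F 0 3 (D 0)) X X X))))
(Q 2 3 0 (P (B 1 (L 0) (B 0 (L 0) (S 1 (LE 9 0) (LE 8 0) (B 5 (LE 5 0) (F 0 2 (D 0))) (F 0 3 (F 0 4 (LE 3 1))) X X X))))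
(P (B 1 (L 0) (B 0 (L 0) (S 1 (LE 9 0) (LE 8 0) (LE 7 0) (F 0 3 (F 0 4 (LE 3 1))) X X X))))))
(Q 5 7 0 (Q 2 3 0 (P (B 1 (L 0) (B 0 (L 0) (S 1 (LE 9 0) (LE 8 0) (F 0 2 (D 0)) (LE 6 0) X X X))))
(Q 4 5 0 (P (B 0 (L 0) (B 2 (LD 2 1) (B 1 (L 0) (B 3 (B 7 (D 0) (LE 3 0)) (F 0 4 (D 0)))))))
(Q 2 4 0 (Q 2 5 0 (P (B 1 (L 0) (B 0 (L 0) (B 3 (LE 3 1) (S 1 (B 2 (D 0) (F 0 4 (F 0 5 (LE 9 1)))) (B 2 (D 0) (F 0 4 (F 0 5 (LE 8 1)))) (D 0) (F 0 4 (F 0 5 (LE 6 1))) X X X)))))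
(N 2 (Bad 2)
(N 2 (Bad 2)
(N 2 (P (B 0 (L 0) (B 1 (LD 0 2) (S 1 (LE 9 0) (LE 8 0) (F 0 2 (F 0 3 (LE 0 1))) (LE 6 0) X X X))))
(P (B 0 (L 0) (S 0 (LD 5 1) (LD 4 1) (L 3) (LD 0 1) (L 0) X X)))))))
(Q 2 5 0 (N 2 (Bad 2)
(N 2 (Bad 2)
(N 2 (P (B 0 (L 0) (B 1 (LD 0 2) (S 1 (LE 9 0) (LE 8 0) (F 0 2 (F 0 3 (LE 0 1))) (LE 6 0) X X X))))
(P (B 0 (L 0) (S 0 (LD 5 1) (LD 4 1) (L 3) (LD 0 1) (L 0) X X))))))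
(P (B 1 (L 0) (B 0 (L 0) (S 1 (LE 9 0) (LE 8 0) (F 0 2 (F 0 3 (LE 2 1))) (LE 6 0) X X X))))))))
(Q 5 8 512 (Q 5 9 0 (Q 3 4 0 (P (B 0 (L 0) (B 2 (LD 2 1) (B 1 (L 0) (B 3 (F 0 5 (F 1 6 (F 1 7 (L 3)))) (F 0 4 (F 0 5 (D 1))))))))
(P (B 0 (L 0) (S 0 (B 1 (L 5) (F 1 6 (F 1 7 (F 0 3 (L 3))))) (LD 4 1) (L 3) (LD 2 1) (L 0) X X))))
(Q 2 3 0 (Q 2 4 0 (P (B 0 (L 0) (B 5 (LD 5 1) (B 1 (L 0) (B 2 (D 0) (F 0 3 (F 0 4 (LE 3 1))))))))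
(Q 3 5 0 (P (B 0 (L 0) (B 4 (LD 4 1) (B 1 (L 0) (B 2 (F 0 5 (F 1 7 (F 1 9 (L 2)))) (F 0 3 (D 0)))))))
(Q 2 5 0 (P (B 0 (L 0) (B 4 (LD 4 1) (B 1 (L 0) (B 2 (D 0) (F 0 3 (F 0 5 (LE 3 1))))))))
(N 2 (Bad 2)
(N 2 (Bad 2)
(N 2 (P (B 0 (L 0) (B 1 (LD 0 2) (S 1 (LE 9 0) (B 4 (LE 4 0) (F 0 2 (D 0))) (B 5 (LE 5 0) (F 0 2 (D 0))) (LE 6 0) X X X))))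
(P (B 0 (L 0) (S 0 (LD 5 1) (LD 4 1) (L 3) (LD 0 1) (L 0) X X)))))))))
(Q 4 5 0 (Q 3 4 0 (P (B 0 (L 0) (B 2 (LD 2 1) (B 1 (L 0) (B 3 (F 0 5 (LE 3 1)) (F 0 4 (D 0)))))))
(Q 3 5 0 (P (B 0 (L 0) (B 2 (LD 2 1) (B 1 (L 0) (B 3 (F 0 4 (LE 3 1)) (F 0 4 (D 0)))))))
(N 3 (Bad 3)
(N 3 (Bad 3)
(N 3 (Bad 3)
(N 3 (Bad 3)
(N 3 (P (B 3 (L 0) (B 0 (L 0) (B 1 (LE 0 3) (B 2 (B 9 (LE 2 0) (F 1 7 (F 0 5 (D 1)))) (F 0 4 (D 0)))))))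
(P (B 0 (L 0) (B 3 (L 0) (B 2 (LD 2 1) (B 1 (LE 0 0) (F 0 4 (D 0))))))))))))))
(Q 2 4 0 (Q 3 4 0 (P (B 0 (L 0) (B 5 (LD 5 1) (B 1 (L 0) (B 2 (F 0 3 (LE 3 1)) (F 0 3 (D 0)))))))
(N 4 (Bad 4)
(N 4 (Bad 4)
(N 4 (P (B 0 (L 0) (B 1 (LD 0 4) (B 3 (LE 3 1) (B 5 (B 9 (LE 9 0) (F 1 6 (F 0 4 (D 1)))) (F 0 2 (D 0)))))))
(P (B 0 (L 0) (S 0 (LD 5 1) (LD 0 1) (L 3) (LD 2 1) (L 0) X X)))))))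
(Q 2 5 0 (N 2 (Bad 2)
(N 2 (Bad 2)
(N 2 (P (B 0 (L 0) (B 1 (LD 0 2) (B 3 (LE 3 1) (B 4 (B 9 (LE 9 0) (F 1 6 (F 0 5 (D 1)))) (F 0 2 (D 0)))))))
(P (B 0 (L 0) (S 0 (LD 5 1) (LD 4 1) (L 3) (LD 0 1) (L 0) X X))))))
(N 2 (Bad 2)
(N 2 (Bad 2)
(N 2 (Bad 2)
(N 2 (P (B 1 (LD 0 2) (S 1 (L 9) (LD 8 0) (LD 7 0) (LD 6 0) (L 0) X X)))
(P (B 0 (L 0) (S 0 (LD 5 1) (LD 4 1) (L 3) (LD 0 1) (L 0) X X))))))))))))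
(Q 2 3 32 (Q 2 5 0 (P (B 0 (L 0) (B 1 (L 0) (S 0 (LE 5 0) (LE 4 1) (LE 3 0) (F 0 4 (F 1 8 (F 1 9 (L 8)))) X X X))))
(Q 3 4 0 (P (B 1 (L 0) (B 0 (L 0) (S 1 (LE 9 0) (LE 8 0) (B 5 (LE 5 0) (F 0 2 (D 0))) (B 5 (LE 5 0) (F 0 3 (D 0))) X X X))))
(Q 3 5 0 (P (B 0 (L 0) (B 4 (LD 4 1) (B 1 (L 0) (B 2 (F 0 5 (LE 5 1)) (F 0 3 (D 0)))))))
(N 3 (Bad 3)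
(N 3 (Bad 3)
(N 3 (Bad 3)
(N 3 (Q 5 10 6144 (Q 2 4 0 (P (B 0 (L 0) (B 5 (LD 5 3) (B 1 (L 0) (B 2 (D 0) (F 0 3 (F 0 4 (LE 0 1))))))))
(Q 2 10 0 (Q 2 11 4096 (P (B 0 (L 0) (S 0 (LD 5 3) (LD 4 1) (L 0) (F 3 12 (LD 12 1)) (L 0) X X)))
(N 2 (Bad 2)
(N 2 (P (B 0 (L 0) (B 2 (LD 0 1) (B 10 (F 0 1 (F 0 4 (F 2 13 (LE 4 3)))) (B 3 (LE 0 2) (F 2 6 (F 0 4 (F 0 5 (F 2 13 (F 3 11 (F 3 12 (LE 5 1))))))))))))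
(P (B 0 (L 0) (S 0 (LD 5 3) (LD 4 1) (L 0) (LD 0 1) (L 0) X X))))))
(Q 4 10 0 (Q 2 11 4096 (P (B 3 (L 0) (B 10 (B 0 (L 10) (F 0 1 (F 0 2 (L 2)))) (B 0 (LE 0 3) (B 12 (LE 12 0) (F 3 2 (D 3)))))))
(N 2 (Bad 2)
(N 2 (Bad 2)
(N 2 (Q 4 5 0 (P (B 0 (L 0) (B 2 (LD 0 1) (B 1 (B 3 (LE 0 2) (F 2 13 (F 2 14 (B 10 (D 0) (F 3 11 (F 3 12 (LE 0 0))))))) (B 3 (LE 0 0) (F 0 4 (D 0)))))))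
(P (B 0 (L 0) (B 4 (LD 4 1) (B 1 (LD 0 2) (B 5 (LD 5 3) (F 0 2 (D 0))))))))
(P (B 0 (L 0) (S 0 (LD 5 3) (LD 4 1) (L 0) (LD 0 1) (L 0) X X)))))))
(Q 2 11 4096 (Q 2 12 0 (P (B 0 (L 0) (B 4 (LD 4 1) (B 2 (F 3 10 (F 0 1 (L 0))) (B 3 (LE 0 0) (F 0 1 (F 0 5 (F 3 11 (F 3 12 (L 5))))))))))
(N 2 (Bad 2)
(N 2 (P (B 0 (L 0) (S 0 (LD 5 3) (LD 4 1) (LE 0 2) (LD 0 1) (LD 0 2) X X)))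
(P (B 0 (L 0) (S 0 (LD 5 3) (LD 4 1) (L 0) (LD 0 1) (L 0) X X))))))
(N 2 (Bad 2)
(N 2 (Bad 2)
(N 2 (Q 4 5 0 (P (B 0 (L 0) (B 1 (LD 0 2) (S 1 (LE 9 0) (LE 8 0) (B 5 (LD 5 3) (F 0 2 (D 0))) (B 3 (LE 0 0) (F 0 4 (D 0))) X X X))))
(P (B 0 (L 0) (B 4 (LD 4 1) (B 1 (LD 0 2) (B 5 (LD 5 3) (F 0 2 (D 0))))))))
(P (B 0 (L 0) (S 0 (LD 5 3) (LD 4 1) (L 0) (LD 0 1) (L 0) X X))))))))))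
(Q 4 5 0 (N 5 (Bad 5)
(N 5 (Bad 5)
(N 5 (Bad 5)
(Q 4 10 6144 (Q 4 11 4096 (P (B 0 (L 0) (B 2 (LD 2 1) (B 1 (B 5 (LD 0 3) (B 3 (L 0) (F 0 4 (D 3)))) (B 4 (F 0 3 (LE 0 1)) (F 0 3 (F 0 5 (LE 0 1))))))))
(Q 2 4 0 (P (B 0 (L 0) (B 1 (L 0) (B 2 (F 0 5 (LE 0 1)) (B 4 (F 0 3 (LE 0 1)) (F 0 3 (F 0 5 (LE 0 1))))))))
(P (B 0 (L 0) (B 2 (LD 2 1) (B 1 (LD 0 3) (B 4 (F 0 3 (LE 4 1)) (F 0 3 (F 0 5 (LE 0 1))))))))))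
(P (B 0 (L 0) (B 2 (LD 2 1) (B 1 (LD 0 3) (B 4 (F 0 3 (LE 4 1)) (F 0 3 (F 0 5 (LE 0 1))))))))))))
(P (B 0 (L 0) (B 4 (LD 4 1) (B 1 (L 0) (B 2 (F 0 5 (LE 5 1)) (F 0 3 (F 0 5 (LE 5 1))))))))))
(N 3 (Q 4 5 0 (P (B 0 (L 0) (B 2 (LD 2 1) (B 3 (L 0) (B 4 (F 0 1 (LE 4 3)) (F 0 1 (F 0 5 (LE 5 3))))))))
(P (B 0 (L 0) (B 4 (LD 4 1) (B 5 (L 5) (B 2 (F 0 1 (L 2)) (F 0 1 (F 0 3 (L 0)))))))))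
(P (B 0 (L 0) (S 0 (L 5) (LD 4 1) (L 0) (LD 2 1) (L 0) X X)))))))))))
(Q 2 4 0 (N 2 (Bad 2)
(N 2 (Bad 2)
(N 2 (Q 3 4 0 (P (B 0 (L 0) (B 1 (LD 0 2) (S 0 (LE 5 1) (F 0 5 (LE 5 1)) (LD 3 2) (LE 0 0) X X X))))
(Q 4 5 0 (P (B 0 (L 0) (B 1 (LD 0 2) (B 3 (LE 3 1) (B 2 (F 0 5 (LE 0 1)) (F 0 4 (D 0)))))))
(Q 3 5 0 (P (B 0 (L 0) (B 1 (LD 0 2) (S 1 (LE 9 0) (LE 8 0) (B 2 (LE 0 0) (F 0 3 (D 0))) (B 4 (LE 4 0) (F 0 3 (D 0))) X X X))))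
(P (B 0 (L 0) (B 1 (LD 0 2) (B 3 (LE 3 1) (B 5 (LE 5 0) (F 0 2 (D 0))))))))))
(N 2 (Q 3 4 0 (P (B 0 (L 0) (B 2 (LD 0 1) (B 1 (LE 0 2) (B 5 (LE 5 0) (F 0 3 (D 0)))))))
(Q 3 5 0 (P (B 0 (L 0) (B 4 (LD 4 1) (B 2 (LD 0 1) (B 3 (F 0 1 (LE 3 2)) (F 0 1 (F 0 5 (LE 5 2))))))))
(Q 4 5 0 (P (B 0 (L 0) (B 2 (LD 0 1) (B 1 (LE 0 2) (B 3 (LE 3 0) (F 0 4 (D 0)))))))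
(Q 3 10 6144 (Q 3 11 4096 (P (B 0 (L 0) (B 4 (LD 4 1) (B 2 (LD 0 1) (B 3 (F 2 6 (F 0 5 (F 2 12 (L 3)))) (F 0 1 (F 0 5 (LE 5 2))))))))
(N 3 (Bad 3)
(N 3 (Bad 3)
(N 3 (Bad 3)
(N 3 (Q 5 10 0 (P (B 0 (L 0) (B 5 (LD 5 3) (B 2 (B 1 (LD 0 3) (F 0 3 (LE 0 1))) (B 4 (LD 4 1) (F 0 1 (F 0 3 (F 2 11 (F 2 12 (L 0))))))))))
(Q 5 11 4096 (P (B 0 (L 0) (B 4 (LD 4 1) (B 2 (LD 0 1) (B 3 (B 1 (F 2 11 (F 2 12 (L 0))) (F 0 5 (F 2 6 (F 2 12 (L 0))))) (F 0 1 (F 0 5 (F 2 10 (F 2 12 (L 5))))))))))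
(P (B 0 (L 0) (B 1 (L 0) (B 3 (LE 0 1) (B 2 (F 0 5 (LE 5 1)) (F 0 4 (F 0 5 (LE 5 1))))))))))
(P (B 0 (L 0) (B 2 (LD 0 1) (B 3 (LE 0 2) (B 5 (LE 5 0) (F 0 1 (F 0 4 (L 4)))))))))))))
(N 3 (Bad 3)
(N 3 (Bad 3)
(N 3 (Bad 3)
(N 3 (Bad 3)
(N 3 (Q 5 13 114688 (P (B 0 (L 0) (B 5 (LD 5 3) (B 2 (B 3 (LD 0 1) (F 0 1 (LE 0 3))) (B 3 (LE 0 0) (F 0 1 (F 0 4 (LE 4 3))))))))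
(P (B 0 (L 0) (B 4 (LD 4 1) (B 2 (LD 0 1) (B 1 (B 3 (LE 0 2) (F 0 5 (LE 5 2))) (F 0 3 (F 0 5 (LE 5 1)))))))))
(P (B 0 (L 0) (B 2 (LD 0 1) (B 3 (LE 0 2) (B 5 (LE 5 0) (F 0 1 (F 0 4 (L 4)))))))))))))))))
(P (B 0 (L 0) (S 0 (L 5) (LD 4 1) (L 3) (LD 0 1) (L 0) X X)))))))
(N 2 (Bad 2)
(N 2 (Bad 2)
(N 2 (Bad 2)
(N 2 (Q 3 5 0 (P (B 0 (L 0) (B 1 (LD 0 2) (S 1 (LE 9 0) (LE 8 0) (LE 7 0) (B 4 (LE 4 0) (F 0 3 (D 0))) X X X))))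
(Q 3 4 0 (P (B 0 (L 0) (B 1 (LD 0 2) (B 2 (LE 0 1) (B 5 (LE 5 0) (F 0 3 (D 0)))))))
(Q 4 5 0 (P (B 0 (L 0) (B 2 (LD 0 1) (B 3 (LE 3 2) (B 4 (F 0 1 (LE 4 2)) (F 0 1 (F 0 5 (LE 5 2))))))))
(Q 3 10 6144 (Q 3 11 4096 (P (B 0 (L 0) (B 2 (LD 0 1) (S 0 (LE 5 2) (LD 4 1) (F 2 6 (F 2 12 (LE 3 0))) (LE 0 2) X X X))))
(N 3 (Bad 3)
(N 3 (Bad 3)
(N 3 (Bad 3)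
(N 3 (Q 4 11 4096 (P (B 0 (L 0) (B 2 (LD 0 1) (S 2 (LE 12 0) (B 5 (LE 5 0) (F 0 1 (F 0 3 (F 2 12 (L 0))))) (B 5 (LE 5 0) (F 0 1 (F 0 4 (F 2 12 (L 4))))) (LE 6 0) X X X))))
(Q 5 10 0 (P (B 0 (L 0) (B 2 (LD 0 1) (S 2 (LE 12 0) (LE 11 0) (F 0 1 (F 0 4 (LE 4 2))) (LE 6 0) X X X))))
(Q 5 13 49152 (P (B 0 (L 0) (B 3 (LD 0 2) (S 3 (LE 15 0) (LE 14 0) (B 1 (LD 0 2) (F 0 2 (F 0 4 (F 1 8 (F 1 9 (LE 4 3)))))) (B 5 (LE 5 0) (F 0 1 (F 0 4 (LE 4 2)))) X X X))))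
(P (B 0 (L 0) (B 2 (LD 0 1) (B 4 (LD 4 1) (B 1 (B 3 (F 2 11 (F 2 12 (L 0))) (F 0 5 (LE 5 2))) (F 0 3 (F 0 5 (LE 5 1)))))))))))
(P (B 0 (L 0) (S 0 (L 5) (LD 4 1) (LD 0 2) (LD 0 1) (LD 0 2) X X))))))))
(N 3 (Bad 3)
(N 3 (Bad 3)
(N 3 (Bad 3)
(N 3 (Bad 3)
(N 3 (Q 5 13 114688 (P (B 0 (L 0) (B 4 (LD 4 1) (B 5 (LD 5 3) (B 1 (B 3 (LD 0 2) (F 0 2 (LE 0 3))) (F 0 2 (F 0 3 (LE 0 1))))))))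
(P (B 0 (L 0) (B 2 (LD 0 1) (B 4 (LD 4 1) (B 1 (B 3 (LE 0 2) (F 0 5 (LE 5 2))) (F 0 3 (F 0 5 (LE 5 1)))))))))
(P (B 0 (L 0) (S 0 (L 5) (LD 4 1) (L 0) (LD 0 1) (LD 0 2) X X))))))))))))
(N 2 (P (B 0 (L 0) (B 2 (LD 0 1) (S 0 (LE 5 2) (LD 4 1) (LE 3 2) (LE 0 2) X X X))))
(P (B 0 (L 0) (B 2 (LD 0 1) (S 0 (L 5) (LD 4 1) (L 3) (L 0) X X X)))))))))))))))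
(Q 5 6 0 (Q 3 4 0 (P (B 0 (L 0) (B 1 (L 0) (S 1 (LE 9 0) (LE 8 0) (LE 7 0) (F 0 3 (D 0)) X X X))))
(Q 2 3 16 (Q 3 5 0 (N 3 (Bad 3)
(N 3 (Bad 3)
(N 3 (P (B 0 (LE 0 3) (S 0 (LD 5 1) (L 4) (LE 0 0) (LD 2 1) (L 0) X X)))
(P (B 0 (L 0) (S 0 (LD 5 1) (L 4) (LE 0 0) (LD 2 1) (L 0) X X))))))
(N 3 (Bad 3)
(N 3 (Bad 3)
(N 3 (Bad 3)
(N 3 (Q 2 4 0 (P (B 0 (L 0) (B 5 (LD 5 1) (B 1 (L 0) (B 2 (D 0) (F 0 3 (F 0 4 (LE 0 1))))))))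
(Q 4 10 6144 (Q 2 5 0 (P (B 0 (L 0) (B 4 (LD 4 3) (B 1 (L 0) (B 2 (D 0) (F 0 3 (F 0 5 (LE 0 1))))))))
(Q 2 10 0 (Q 2 11 4096 (P (B 0 (L 0) (S 0 (LD 5 1) (LD 4 3) (L 0) (F 3 12 (LD 12 1)) (L 0) X X)))
(N 2 (Bad 2)
(N 2 (P (B 0 (L 0) (B 2 (LD 0 1) (B 10 (F 0 1 (F 0 5 (F 2 13 (LE 0 3)))) (B 3 (LE 0 2) (F 2 6 (D 0)))))))
(P (B 0 (L 0) (S 0 (LD 5 1) (LD 4 3) (L 0) (LD 0 1) (L 0) X X))))))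
(Q 5 10 0 (Q 2 11 4096 (P (B 3 (L 0) (B 10 (B 0 (L 10) (F 0 1 (F 0 2 (L 2)))) (B 0 (LE 0 3) (B 12 (LE 12 0) (F 3 2 (D 3)))))))
(N 2 (Bad 2)
(N 2 (Bad 2)
(N 2 (P (B 0 (L 0) (B 1 (LD 0 2) (S 1 (LE 9 0) (LE 8 0) (LE 7 0) (F 0 3 (F 0 4 (L 0))) X X X))))
(P (B 0 (L 0) (S 0 (LD 5 1) (LD 4 3) (L 0) (LD 0 1) (L 0) X X)))))))
(Q 2 11 4096 (Q 2 12 0 (P (B 0 (L 0) (B 5 (LD 5 1) (B 2 (F 3 10 (F 0 1 (L 0))) (B 3 (LE 0 0) (F 0 1 (F 0 4 (F 3 11 (F 3 12 (L 4))))))))))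
(N 2 (Bad 2)
(N 2 (P (B 0 (L 0) (B 2 (LD 0 1) (B 6 (F 0 3 (F 0 4 (L 0))) (B 13 (LD 13 1) (F 2 3 (D 2)))))))
(P (B 0 (L 0) (S 0 (LD 5 1) (LD 4 3) (L 0) (LD 0 1) (L 0) X X))))))
(N 2 (Bad 2)
(N 2 (Bad 2)
(N 2 (P (B 0 (L 0) (B 1 (LD 0 2) (S 1 (LE 9 0) (LE 8 0) (LE 7 0) (F 0 3 (F 0 4 (L 0))) X X X))))
(P (B 0 (L 0) (S 0 (LD 5 1) (LD 4 3) (L 0) (LD 0 1) (L 0) X X))))))))))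
(P (B 0 (L 0) (B 1 (L 0) (S 1 (LE 9 0) (LE 8 0) (LE 7 0) (F 0 3 (F 0 4 (L 4))) X X X))))))
(P (B 1 (L 0) (B 0 (L 0) (S 1 (LE 9 0) (LE 8 0) (LE 7 0) (F 0 3 (F 0 4 (L 0))) X X X)))))))))
(Q 2 5 0 (P (B 0 (L 0) (B 1 (L 0) (B 3 (LE 3 1) (B 4 (B 6 (D 0) (LE 4 0)) (F 0 2 (D 0)))))))
(N 2 (Bad 2)
(N 2 (Bad 2)
(N 2 (Bad 2)
(N 2 (P (B 0 (L 0) (B 1 (LD 0 2) (S 1 (LE 9 0) (LE 8 0) (LE 7 0) (F 0 3 (F 0 4 (L 3))) X X X))))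
(N 2 (P (B 0 (L 0) (B 2 (LD 0 1) (S 0 (LD 5 1) (LE 4 2) (LE 3 2) (LE 0 2) X X X))))
(P (B 0 (L 0) (B 2 (LD 0 1) (S 0 (LD 5 1) (L 4) (L 3) (L 0) X X X))))))))))))
(Q 5 7 768 (Q 5 8 512 (Q 3 4 0 (P (B 0 (L 0) (B 2 (LD 2 1) (B 1 (L 0) (B 5 (F 1 6 (F 1 9 (LE 9 0))) (F 0 3 (D 0)))))))
(Q 5 9 0 (P (B 0 (L 0) (B 1 (L 0) (S 0 (D 1) (LE 4 1) (LE 3 1) (LE 2 1) X X X))))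
(Q 3 5 0 (P (B 0 (L 0) (B 1 (L 0) (S 0 (F 1 6 (F 0 4 (F 1 9 (L 4)))) (LE 4 1) (LE 3 0) (LE 2 1) X X X))))
(Q 2 4 0 (P (B 0 (L 0) (B 1 (L 0) (B 3 (LE 3 1) (B 2 (F 0 5 (D 1)) (F 0 4 (F 0 5 (F 1 6 (F 1 9 (L 4))))))))))
(Q 4 5 0 (P (B 0 (L 0) (B 1 (L 0) (B 3 (LE 3 1) (B 4 (F 0 2 (LE 4 1)) (F 0 2 (F 0 5 (D 1))))))))
(P (B 0 (L 0) (B 1 (L 0) (B 3 (LE 3 1) (B 5 (F 1 6 (F 0 4 (F 1 9 (L 4)))) (F 0 2 (F 0 4 (LE 4 1)))))))))))))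
(Q 2 3 16 (Q 2 4 0 (P (B 0 (L 0) (B 1 (L 0) (S 0 (LE 5 1) (LE 4 0) (LE 3 0) (F 0 5 (F 1 8 (F 1 9 (L 8)))) X X X))))
(Q 3 5 0 (P (B 1 (L 0) (B 0 (L 0) (B 4 (LE 4 1) (B 2 (F 0 5 (F 1 8 (F 1 9 (L 2)))) (F 0 3 (D 0)))))))
(Q 3 4 0 (P (B 0 (L 0) (B 5 (LD 5 1) (B 1 (L 0) (B 2 (F 0 4 (LE 4 1)) (F 0 3 (D 0)))))))
(N 3 (Bad 3)
(N 3 (Bad 3)
(N 3 (Bad 3)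
(N 3 (Q 4 10 6144 (Q 2 5 0 (P (B 0 (L 0) (B 4 (LD 4 3) (B 1 (L 0) (B 2 (D 0) (F 0 3 (F 0 5 (LE 0 1))))))))
(Q 2 10 0 (Q 2 11 4096 (P (B 0 (L 0) (S 0 (LD 5 1) (LD 4 3) (L 0) (F 3 12 (LD 12 1)) (L 0) X X)))
(N 2 (Bad 2)
(N 2 (P (B 0 (L 0) (B 2 (LD 0 1) (B 10 (F 0 1 (F 0 5 (F 2 13 (LE 5 3)))) (B 3 (LE 0 2) (F 2 6 (F 0 4 (F 0 5 (F 2 13 (F 3 11 (F 3 12 (LE 4 1))))))))))))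
(P (B 0 (L 0) (S 0 (LD 5 1) (LD 4 3) (L 0) (LD 0 1) (L 0) X X))))))
(Q 5 10 0 (Q 2 11 4096 (P (B 3 (L 0) (B 10 (B 0 (L 10) (F 0 1 (F 0 2 (L 2)))) (B 0 (LE 0 3) (B 12 (LE 12 0) (F 3 2 (D 3)))))))
(N 2 (Bad 2)
(N 2 (Bad 2)
(N 2 (P (B 0 (L 0) (B 1 (LD 0 2) (B 4 (LD 4 3) (B 2 (F 0 5 (F 1 8 (F 1 9 (LE 0 3)))) (F 0 3 (F 0 5 (LE 0 1))))))))
(P (B 0 (L 0) (S 0 (LD 5 1) (LD 4 3) (L 0) (LD 0 1) (L 0) X X)))))))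
(Q 2 11 4096 (Q 2 12 0 (P (B 0 (L 0) (B 5 (LD 5 1) (B 2 (F 3 10 (F 0 1 (L 0))) (B 3 (LE 0 0) (F 0 1 (F 0 4 (F 3 11 (F 3 12 (L 4))))))))))
(N 2 (Bad 2)
(N 2 (P (B 0 (L 0) (S 0 (LD 5 1) (LD 4 3) (LE 0 2) (LD 0 1) (LD 0 2) X X)))
(P (B 0 (L 0) (S 0 (LD 5 1) (LD 4 3) (L 0) (LD 0 1) (L 0) X X))))))
(N 2 (Bad 2)
(N 2 (Bad 2)
(N 2 (Q 4 5 0 (P (B 0 (L 0) (B 1 (LD 0 2) (S 1 (LE 9 0) (LE 8 0) (B 4 (LD 4 3) (F 0 2 (D 0))) (B 3 (LE 0 0) (F 0 4 (D 0))) X X X))))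
(P (B 0 (L 0) (B 1 (LD 0 2) (B 4 (LD 4 3) (B 2 (F 0 5 (F 1 8 (F 1 9 (L 5)))) (F 0 3 (F 0 5 (LE 5 1)))))))))
(P (B 0 (L 0) (S 0 (LD 5 1) (LD 4 3) (L 0) (LD 0 1) (L 0) X X))))))))))
(Q 4 5 0 (N 4 (Bad 4)
(N 4 (Bad 4)
(N 4 (Bad 4)
(Q 5 10 6144 (Q 5 11 4096 (P (B 0 (L 0) (B 2 (LD 2 1) (B 1 (B 4 (LD 0 3) (B 3 (L 0) (F 0 5 (D 3)))) (B 4 (F 0 3 (LE 0 1)) (F 0 3 (F 0 5 (LE 0 1))))))))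
(Q 2 5 0 (P (B 0 (L 0) (B 1 (L 0) (B 2 (F 0 4 (LE 0 1)) (B 4 (F 0 3 (LE 0 1)) (F 0 3 (F 0 5 (LE 0 1))))))))
(P (B 0 (L 0) (B 2 (LD 2 1) (B 1 (LD 0 3) (B 4 (F 0 3 (LE 0 1)) (F 0 3 (F 0 5 (LE 5 1))))))))))
(P (B 0 (L 0) (B 2 (LD 2 1) (B 1 (LD 0 3) (B 4 (F 0 3 (LE 0 1)) (F 0 3 (F 0 5 (LE 5 1))))))))))))
(P (B 0 (L 0) (B 5 (LD 5 1) (B 1 (L 0) (B 2 (F 0 4 (LE 4 1)) (F 0 3 (F 0 4 (LE 4 1))))))))))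
(N 3 (Q 4 5 0 (P (B 0 (L 0) (B 2 (LD 2 1) (B 3 (L 0) (B 4 (F 0 1 (LE 4 3)) (F 0 1 (F 0 5 (LE 5 3))))))))
(P (B 0 (L 0) (B 5 (LD 5 1) (B 4 (L 4) (B 2 (F 0 1 (L 2)) (F 0 1 (F 0 3 (L 0)))))))))
(P (B 0 (L 0) (S 0 (LD 5 1) (L 4) (L 0) (LD 2 1) (L 0) X X)))))))))))
(Q 2 5 0 (N 2 (Bad 2)
(N 2 (Bad 2)
(N 2 (Q 3 5 0 (P (B 0 (L 0) (B 1 (LD 0 2) (S 0 (F 0 4 (LE 4 1)) (LE 4 1) (LD 3 2) (LE 0 0) X X X))))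
(Q 4 5 0 (P (B 0 (L 0) (B 1 (LD 0 2) (B 3 (LE 3 1) (B 2 (F 0 4 (LE 0 1)) (F 0 4 (D 0)))))))
(Q 3 4 0 (P (B 0 (L 0) (B 1 (LD 0 2) (S 1 (LE 9 0) (LE 8 0) (B 2 (LE 0 0) (F 0 3 (D 0))) (B 5 (LE 5 0) (F 0 3 (D 0))) X X X))))
(P (B 0 (L 0) (B 1 (LD 0 2) (B 3 (LE 3 1) (B 4 (LE 4 0) (F 0 2 (D 0))))))))))
(N 2 (Q 3 4 0 (P (B 0 (L 0) (B 5 (LD 5 1) (B 2 (LD 0 1) (B 3 (F 0 1 (LE 3 2)) (F 0 1 (F 0 4 (LE 4 2))))))))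
(Q 3 5 0 (P (B 0 (L 0) (B 2 (LD 0 1) (B 1 (LE 0 2) (B 4 (LE 4 0) (F 0 3 (D 0)))))))
(Q 4 5 0 (P (B 0 (L 0) (B 2 (LD 0 1) (B 1 (LE 0 2) (B 3 (LE 3 0) (F 0 4 (D 0)))))))
(Q 3 10 6144 (Q 3 11 4096 (P (B 0 (L 0) (B 5 (LD 5 1) (B 2 (LD 0 1) (B 3 (F 2 6 (F 0 4 (F 2 12 (L 3)))) (F 0 1 (F 0 4 (LE 4 2))))))))
(P (B 0 (L 0) (B 1 (L 0) (B 4 (LE 4 1) (B 2 (F 0 3 (LE 3 1)) (F 0 3 (F 0 5 (LE 3 1)))))))))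
(P (B 0 (L 0) (B 1 (L 0) (B 4 (LE 4 1) (B 2 (F 0 3 (LE 3 1)) (F 0 3 (F 0 5 (LE 3 1))))))))))))
(P (B 0 (L 0) (S 0 (LD 5 1) (L 4) (L 3) (LD 0 1) (L 0) X X)))))))
(N 2 (Bad 2)
(N 2 (Bad 2)
(N 2 (Bad 2)
(N 2 (Q 3 4 0 (P (B 0 (L 0) (B 1 (LD 0 2) (S 1 (LE 9 0) (LE 8 0) (LE 7 0) (B 5 (LE 5 0) (F 0 3 (D 0))) X X X))))
(Q 3 5 0 (P (B 0 (L 0) (B 2 (LD 0 1) (B 4 (LE 4 2) (B 3 (F 0 1 (LE 3 2)) (F 0 1 (F 0 5 (LE 5 2))))))))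
(Q 4 5 0 (P (B 0 (L 0) (B 2 (LD 0 1) (B 3 (LE 3 2) (B 4 (F 0 1 (LE 4 2)) (F 0 1 (F 0 5 (LE 5 2))))))))
(Q 3 10 6144 (Q 3 11 4096 (P (B 0 (L 0) (B 2 (LD 0 1) (S 0 (LD 5 1) (LE 4 2) (F 2 6 (F 2 12 (LE 3 0))) (LE 0 2) X X X))))
(N 3 (Bad 3)
(N 3 (Bad 3)
(N 3 (Bad 3)
(N 3 (Q 4 10 0 (P (B 0 (L 0) (B 2 (LD 0 1) (S 2 (LE 12 0) (LE 11 0) (F 0 1 (F 0 5 (LE 5 2))) (LE 6 0) X X X))))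
(Q 4 13 49152 (P (B 0 (L 0) (S 0 (LD 5 1) (LD 4 3) (LD 0 2) (LD 0 1) (LD 0 2) X X)))
(P (B 0 (L 0) (B 1 (LD 0 2) (S 1 (LE 9 0) (LE 8 0) (B 4 (B 3 (LD 4 2) (F 0 2 (LE 4 1))) (F 0 2 (F 0 3 (LE 0 1)))) (B 5 (LE 5 0) (F 0 3 (F 0 4 (LE 4 2)))) X X X))))))
(P (B 0 (L 0) (S 0 (LD 5 1) (L 4) (LD 0 2) (LD 0 1) (LD 0 2) X X))))))))
(N 3 (Bad 3)
(N 3 (Bad 3)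
(N 3 (Bad 3)
(N 3 (Bad 3)
(N 3 (Q 4 13 114688 (P (B 0 (L 0) (B 4 (LD 4 3) (B 5 (LD 5 1) (B 1 (B 3 (LD 0 2) (F 0 2 (LE 0 3))) (F 0 2 (F 0 3 (LE 0 1))))))))
(P (B 0 (L 0) (B 5 (LD 5 1) (B 2 (LD 0 1) (B 1 (B 3 (LE 0 2) (F 0 4 (LE 4 2))) (F 0 3 (F 0 4 (LE 4 1)))))))))
(P (B 0 (L 0) (S 0 (LD 5 1) (L 4) (L 0) (LD 0 1) (LD 0 2) X X))))))))))))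
(N 2 (P (B 0 (L 0) (B 2 (LD 0 1) (S 0 (LD 5 1) (LE 4 2) (LE 3 2) (LE 0 2) X X X))))
(P (B 0 (L 0) (B 2 (LD 0 1) (S 0 (LD 5 1) (L 4) (L 3) (L 0) X X X))))))))))))
(Q 2 3 48 (Q 3 4 32 (Q 3 5 0 (P (B 0 (L 0) (B 1 (L 0) (S 0 (LE 5 0) (LE 4 0) (D 0) (LE 2 0) X X X))))
(N 3 (Bad 3)
(N 3 (Bad 3)
(N 3 (P (B 0 (LE 0 3) (B 2 (LD 2 1) (B 1 (LD 0 3) (B 5 (LD 5 3) (F 0 3 (D 0)))))))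
(Q 2 4 0 (P (B 0 (L 0) (B 3 (LE 0 0) (B 1 (L 0) (B 5 (LE 5 0) (F 0 2 (D 0)))))))
(Q 4 5 0 (P (B 0 (L 0) (B 2 (LD 2 1) (B 1 (L 0) (B 3 (F 0 5 (LE 0 1)) (F 0 4 (D 0)))))))
(Q 5 10 6144 (N 3 (Q 5 11 4096 (P (B 0 (L 0) (B 5 (LD 5 3) (B 1 (L 0) (B 2 (F 0 4 (LE 4 1)) (F 0 3 (D 0)))))))
(P (B 0 (L 0) (S 0 (L 5) (L 4) (B 1 (L 0) (F 0 5 (LE 5 1))) (LD 2 1) (L 0) X X))))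
(P (B 0 (L 0) (S 0 (L 5) (L 4) (LE 0 0) (LD 2 1) (L 0) X X))))
(P (B 0 (L 0) (S 0 (L 5) (L 4) (B 1 (L 0) (F 0 5 (LE 5 1))) (LD 2 1) (L 0) X X))))))))))
(N 3 (Bad 3)
(N 3 (Bad 3)
(N 3 (Bad 3)
(N 3 (Q 2 4 32 (Q 4 5 0 (P (B 0 (L 0) (B 1 (L 0) (B 2 (F 0 5 (LE 5 1)) (B 3 (LE 0 0) (F 0 4 (D 0)))))))
(P (B 0 (L 0) (B 1 (L 0) (S 0 (LE 5 1) (LD 4 3) (LE 0 0) (F 0 5 (LE 5 1)) X X X)))))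
(Q 4 5 0 (Q 2 10 6144 (Q 2 11 4096 (P (B 0 (L 0) (B 3 (L 0) (S 3 (LE 12 0) (LE 11 0) (B 4 (F 0 1 (LE 4 3)) (F 0 1 (F 0 5 (LE 5 3)))) (F 3 12 (LD 12 1)) X X X))))
(N 2 (Bad 2)
(N 2 (P (B 0 (L 0) (B 2 (LD 0 1) (S 2 (LD 13 3) (B 4 (F 0 1 (F 2 13 (LE 4 3))) (F 0 1 (F 0 5 (F 2 13 (LE 5 3))))) (LD 6 3) (LE 0 2) X X X))))
(P (B 0 (L 0) (B 3 (L 0) (B 2 (LD 0 1) (B 4 (F 0 1 (LE 4 3)) (F 0 1 (F 0 5 (LE 5 3)))))))))))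
(N 2 (Bad 2)
(N 2 (Bad 2)
(N 2 (P (B 0 (L 0) (B 2 (LD 0 1) (B 1 (B 3 (LE 0 2) (F 2 13 (F 2 14 (B 4 (LE 4 3) (F 0 5 (LE 5 3)))))) (B 3 (LE 0 0) (F 0 4 (D 0)))))))
(P (B 0 (L 0) (B 3 (L 0) (B 2 (LD 0 1) (B 4 (F 0 1 (LE 4 3)) (F 0 1 (F 0 5 (LE 5 3))))))))))))
(Q 2 10 6144 (Q 2 11 4096 (P (B 0 (L 0) (B 2 (F 3 12 (LD 12 1)) (B 4 (LD 4 3) (B 5 (LD 5 3) (F 0 1 (F 0 3 (L 0))))))))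
(N 2 (Bad 2)
(N 2 (P (B 0 (L 0) (B 1 (LD 0 2) (B 4 (LE 4 1) (B 5 (LE 5 0) (F 0 2 (D 0)))))))
(N 2 (Q 4 11 4096 (P (B 0 (L 0) (B 4 (LD 4 3) (B 1 (B 2 (LE 0 3) (B 5 (LD 5 3) (F 0 3 (LE 0 2)))) (B 5 (LE 5 0) (F 0 2 (D 0)))))))
(P (B 0 (L 0) (B 2 (LD 0 1) (B 5 (LD 5 3) (B 4 (B 1 (LD 4 3) (F 0 3 (LE 4 1))) (F 0 1 (F 0 3 (LE 0 2)))))))))
(P (B 0 (L 0) (B 2 (LD 0 1) (B 4 (LD 4 3) (B 5 (LD 5 3) (F 0 1 (F 0 3 (L 0))))))))))))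
(N 2 (Bad 2)
(N 2 (Bad 2)
(N 2 (P (B 0 (L 0) (B 1 (LD 0 2) (B 4 (LE 4 1) (B 5 (LE 5 0) (F 0 2 (D 0)))))))
(N 2 (Q 4 10 6144 (P (B 0 (L 0) (B 4 (LD 4 3) (B 1 (B 2 (L 0) (B 5 (LD 5 3) (F 0 3 (L 0)))) (B 5 (LE 5 0) (F 0 2 (D 0)))))))
(P (B 0 (L 0) (B 2 (LD 0 1) (B 5 (LD 5 3) (B 1 (B 4 (LD 4 3) (F 0 3 (L 0))) (F 0 3 (F 0 4 (LE 4 1)))))))))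
(P (B 0 (L 0) (B 2 (LD 0 1) (B 4 (LD 4 3) (B 5 (LD 5 3) (F 0 1 (F 0 3 (L 0)))))))))))))))
(N 3 (Q 4 5 0 (P (B 0 (L 0) (B 2 (LD 2 1) (B 3 (L 0) (B 4 (F 0 1 (LE 4 3)) (F 0 1 (F 0 5 (LE 5 3))))))))
(Q 2 4 32 (P (B 0 (L 0) (B 1 (L 0) (S 0 (LE 5 1) (LE 4 0) (LE 0 0) (F 0 5 (LE 5 1)) X X X))))
(Q 2 10 14336 (Q 2 11 12288 (Q 2 12 8192 (P (B 0 (L 0) (B 2 (F 3 13 (LD 0 1)) (S 0 (L 5) (L 4) (L 0) (L 0) X X X))))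
(N 2 (P (B 0 (L 0) (B 3 (F 2 6 (LE 0 0)) (B 4 (LD 4 2) (B 2 (LD 0 1) (F 0 1 (F 0 5 (F 2 10 (F 2 11 (L 5))))))))))
(P (B 0 (L 0) (S 0 (L 5) (L 4) (L 0) (LD 0 1) (L 0) X X)))))
(N 2 (Bad 2)
(N 2 (P (B 0 (L 0) (B 1 (LD 0 2) (B 4 (LE 4 1) (B 5 (LE 5 0) (F 0 2 (D 0)))))))
(P (B 0 (L 0) (S 0 (L 5) (L 4) (L 0) (LD 0 1) (L 0) X X))))))
(N 2 (Bad 2)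
(N 2 (Bad 2)
(N 2 (P (B 0 (L 0) (B 1 (LD 0 2) (B 4 (LE 4 1) (B 5 (LE 5 0) (F 0 2 (D 0)))))))
(P (B 0 (L 0) (S 0 (L 5) (L 4) (L 0) (LD 0 1) (L 0) X X)))))))))
(P (B 0 (L 0) (S 0 (L 5) (L 4) (L 0) (LD 2 1) (L 0) X X)))))))))
(N 2 (Bad 2)
(N 2 (Bad 2)
(N 2 (Bad 2)
(N 2 (Q 3 4 32 (P (B 0 (L 0) (B 1 (LD 0 2) (B 2 (LE 0 1) (B 5 (LE 5 0) (F 0 3 (D 0)))))))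
(Q 4 5 0 (P (B 0 (L 0) (B 2 (LD 0 1) (B 3 (LE 3 2) (B 4 (F 0 1 (LE 4 2)) (F 0 1 (F 0 5 (LE 5 2))))))))
(Q 3 10 6144 (Q 3 11 4096 (P (B 0 (L 0) (B 2 (LD 0 1) (S 0 (LE 5 2) (LE 4 2) (F 2 6 (F 2 12 (LE 3 0))) (LE 0 2) X X X))))
(N 3 (Bad 3)
(N 3 (Bad 3)
(N 3 (Bad 3)
(Q 4 11 4096 (P (B 0 (L 0) (B 2 (LD 0 1) (S 0 (LE 5 2) (LE 4 2) (LE 0 2) (B 3 (F 2 11 (F 2 12 (L 0))) (B 4 (F 2 10 (F 2 12 (L 4))) (F 0 5 (LE 5 2)))) X X X))))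
(Q 5 11 4096 (P (B 0 (L 0) (B 2 (LD 0 1) (B 4 (LE 4 2) (B 3 (B 1 (F 2 11 (F 2 12 (L 0))) (F 0 5 (F 2 6 (F 2 12 (L 0))))) (F 0 1 (F 0 5 (F 2 10 (F 2 12 (L 5))))))))))
(Q 4 10 0 (P (B 0 (L 0) (B 2 (LD 0 1) (S 2 (LE 12 0) (LE 11 0) (F 0 1 (F 0 5 (LE 5 2))) (LE 6 0) X X X))))
(Q 5 10 0 (P (B 0 (L 0) (B 2 (LD 0 1) (S 2 (LE 12 0) (LE 11 0) (F 0 1 (F 0 4 (LE 4 2))) (LE 6 0) X X X))))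
(N 3 (P (B 0 (L 0) (B 3 (LD 0 2) (B 4 (LE 4 3) (B 1 (B 5 (LD 5 2) (F 0 2 (LE 0 3))) (F 0 2 (F 0 5 (LE 5 1))))))))
(P (B 0 (L 0) (B 3 (LD 0 2) (B 4 (L 4) (B 1 (B 5 (LD 5 2) (F 0 2 (L 0))) (F 0 2 (F 0 5 (LE 5 1)))))))))))))))))
(N 3 (Bad 3)
(N 3 (Bad 3)
(N 3 (Bad 3)
(N 3 (Bad 3)
(Q 4 10 6144 (Q 5 10 0 (P (B 0 (L 0) (B 2 (LD 0 1) (S 2 (LE 12 0) (LE 11 0) (F 0 1 (F 0 3 (LE 0 2))) (LE 6 0) X X X))))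
(Q 4 11 4096 (P (B 0 (L 0) (B 2 (LD 0 1) (S 0 (LE 5 2) (F 2 6 (F 2 12 (LE 4 0))) (LE 0 2) (LE 0 2) X X X))))
(Q 5 11 4096 (P (B 0 (L 0) (B 2 (LD 0 1) (B 3 (LE 0 2) (B 4 (B 1 (F 2 11 (F 2 12 (L 4))) (F 0 5 (F 2 6 (F 2 12 (L 4))))) (F 0 1 (F 0 5 (F 2 10 (F 2 12 (L 5))))))))))
(N 3 (Q 4 13 114688 (Q 4 14 98304 (P (B 0 (L 0) (B 2 (LD 0 1) (B 3 (LE 0 2) (B 4 (F 3 15 (F 3 16 (LE 4 0))) (F 0 1 (F 0 5 (LE 5 2))))))))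
(N 4 (Bad 4)
(N 4 (Bad 4)
(N 4 (P (B 0 (L 0) (B 3 (LD 0 4) (S 3 (LE 16 0) (LE 15 0) (LE 14 0) (B 1 (B 5 (LD 5 2) (F 0 2 (LE 0 4))) (F 0 2 (F 0 5 (LE 5 1)))) X X X))))
(P (B 0 (L 0) (B 4 (LD 0 2) (B 3 (L 0) (B 1 (B 5 (LD 5 2) (F 0 2 (LE 0 3))) (F 0 2 (F 0 5 (LE 5 1))))))))))))
(P (B 0 (L 0) (B 2 (LD 0 1) (S 2 (LE 12 0) (LE 11 0) (B 3 (LE 0 0) (F 0 1 (F 0 5 (LE 5 2)))) (B 5 (LE 5 0) (F 0 3 (F 0 4 (LE 4 2)))) X X X)))))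
(P (B 0 (L 0) (B 2 (LD 0 1) (B 3 (LE 0 2) (B 4 (LE 4 0) (F 0 1 (F 0 5 (LE 5 2))))))))))))
(Q 5 10 6144 (Q 5 11 4096 (P (B 0 (L 0) (B 2 (LD 0 1) (B 3 (LE 0 2) (B 5 (F 2 6 (F 0 4 (F 2 12 (L 4)))) (F 0 1 (F 0 4 (LE 4 2))))))))
(N 3 (Q 4 13 114688 (P (B 0 (L 0) (B 4 (LD 4 3) (B 5 (LD 5 2) (B 1 (B 3 (LD 0 2) (F 0 2 (LE 0 3))) (F 0 2 (F 0 3 (LE 0 1))))))))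
(P (B 0 (L 0) (B 5 (LD 5 2) (B 1 (LD 0 2) (B 2 (B 3 (LE 0 1) (F 0 4 (LE 4 1))) (F 0 3 (F 0 4 (LE 4 1)))))))))
(P (B 0 (L 0) (B 2 (LD 0 1) (B 3 (LE 0 2) (B 5 (LE 5 0) (F 0 1 (F 0 4 (LE 4 2))))))))))
(N 3 (Q 4 13 114688 (Q 4 14 98304 (P (B 0 (L 0) (B 1 (LD 0 2) (B 3 (LE 0 1) (B 4 (F 3 15 (F 3 16 (LE 4 0))) (F 0 2 (F 0 5 (LE 5 1))))))))
(N 4 (Bad 4)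
(N 4 (Bad 4)
(N 4 (Bad 4)
(N 4 (P (B 0 (L 0) (B 3 (LD 0 4) (B 4 (LE 0 3) (B 1 (B 5 (LD 5 2) (F 0 2 (LE 0 3))) (F 0 2 (F 0 5 (LE 5 1))))))))
(P (B 0 (L 0) (B 4 (LD 0 3) (B 3 (L 0) (B 1 (B 5 (LD 5 2) (F 0 2 (LE 0 3))) (F 0 2 (F 0 5 (LE 5 1)))))))))))))
(N 4 (Bad 4)
(N 4 (Bad 4)
(N 4 (Bad 4)
(N 4 (Bad 4)
(Q 5 17 1835008 (N 4 (P (B 0 (L 0) (B 5 (LD 5 4) (B 1 (LD 0 2) (B 2 (B 3 (LE 0 1) (F 0 4 (LE 0 1))) (F 0 3 (F 0 4 (LE 0 1))))))))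
(P (B 0 (L 0) (B 1 (LD 0 2) (B 4 (LE 0 1) (B 3 (LE 0 0) (F 0 2 (F 0 5 (LE 5 1)))))))))
(P (B 0 (L 0) (B 1 (LD 0 2) (B 3 (LE 0 1) (B 2 (B 4 (LE 0 1) (F 0 5 (LE 5 1))) (F 0 4 (F 0 5 (LE 5 1))))))))))))))
(P (B 0 (L 0) (B 1 (LD 0 2) (S 0 (LE 5 1) (LE 4 1) (LE 0 1) (B 3 (LE 0 1) (B 4 (LE 4 1) (F 0 5 (LE 5 1)))) X X X))))))))))))))
(N 2 (P (B 0 (L 0) (B 2 (LD 0 1) (S 0 (LE 5 2) (LE 4 2) (LE 3 2) (LE 0 2) X X X))))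
(P (B 0 (L 0) (B 2 (LD 0 1) (S 0 (L 5) (L 4) (L 3) (L 0) X X X)))))))))))))))))
(Q 3 6 896 (Q 3 7 768 (Q 3 8 512 (P (B 0 (L 0) (B 1 (L 0) (S 0 (LE 5 1) (LE 4 1) (D 1) (LE 2 1) X X X))))
(Q 4 8 512 (Q 4 9 0 (P (B 0 (L 0) (B 1 (L 0) (S 0 (LE 5 1) (F 1 6 (F 1 7 (LE 4 0))) (F 1 8 (F 1 9 (LE 3 0))) (LE 2 1) X X X))))
(Q 5 9 0 (Q 2 4 0 (P (B 0 (L 0) (B 5 (LD 5 1) (B 1 (L 0) (B 2 (F 0 3 (F 1 8 (F 1 9 (L 2)))) (F 0 3 (F 0 4 (D 1))))))))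
(P (B 0 (L 0) (S 0 (LD 5 1) (LD 4 1) (B 1 (L 3) (F 1 8 (F 1 9 (F 0 2 (L 2))))) (L 2) (L 0) X X))))
(Q 5 8 0 (Q 2 3 0 (P (B 0 (L 0) (S 0 (LD 5 1) (LD 4 1) (B 1 (L 3) (F 1 8 (D 0))) (L 2) (L 0) X X)))
(Q 4 5 0 (P (B 0 (L 0) (B 3 (LD 3 1) (B 1 (L 0) (B 2 (B 8 (D 0) (LE 2 0)) (F 0 4 (D 0)))))))
(Q 2 4 32 (P (B 0 (L 0) (B 5 (LD 5 1) (B 1 (L 0) (B 2 (F 0 3 (F 1 8 (F 1 9 (L 2)))) (F 0 3 (F 0 4 (D 1))))))))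
(P (B 0 (L 0) (B 4 (LD 4 1) (B 1 (L 0) (B 3 (F 1 8 (F 0 2 (F 1 9 (L 2)))) (F 0 2 (F 0 5 (LE 2 1)))))))))))
(Q 2 5 0 (P (B 0 (L 0) (B 4 (LD 4 1) (B 1 (L 0) (B 3 (F 1 8 (F 1 9 (LE 9 0))) (F 0 2 (D 0)))))))
(Q 3 5 0 (P (B 0 (L 0) (B 1 (L 0) (B 2 (LE 2 1) (B 3 (F 0 4 (D 1)) (F 0 4 (F 0 5 (LE 5 1))))))))
(Q 2 4 0 (P (B 0 (L 0) (B 1 (L 0) (B 3 (F 1 8 (F 1 9 (LE 9 0))) (B 5 (LE 5 0) (F 0 2 (D 0)))))))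
(Q 2 3 0 (P (B 0 (L 0) (B 1 (L 0) (S 0 (LE 5 1) (LE 4 1) (F 1 8 (F 0 5 (F 1 9 (L 9)))) (LE 2 0) X X X))))
(N 2 (Bad 2)
(N 2 (Bad 2)
(N 2 (Bad 2)
(N 2 (Bad 2)
(N 2 (Q 3 4 0 (Q 3 10 14336 (Q 3 11 12288 (P (B 0 (L 0) (B 1 (L 0) (B 2 (LE 0 1) (B 3 (F 0 5 (F 1 8 (F 1 9 (F 2 12 (F 2 13 (L 0)))))) (F 0 4 (F 0 5 (LE 5 1))))))))
(N 3 (P (B 0 (L 0) (B 1 (LD 0 3) (S 0 (LE 5 1) (LE 4 0) (F 1 8 (F 1 9 (LD 9 2))) (LD 0 3) X X X))))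
(N 3 (P (B 0 (L 0) (B 1 (LD 0 3) (S 0 (LE 5 1) (LE 4 0) (F 1 8 (F 1 9 (LD 0 2))) (LE 0 1) X X X))))
(P (B 0 (L 0) (S 0 (L 5) (LD 4 1) (LD 0 1) (L 0) (L 0) X X))))))
(N 3 (Bad 3)
(N 3 (P (B 0 (L 0) (B 4 (LD 4 1) (B 3 (LD 0 1) (B 1 (D 3) (F 0 2 (F 0 5 (LE 0 1))))))))
(N 3 (P (B 0 (L 0) (B 1 (LD 0 3) (S 0 (LE 5 1) (LE 4 0) (F 1 8 (F 1 9 (LE 0 0))) (LE 0 1) X X X))))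
(P (B 0 (L 0) (S 0 (L 5) (LD 4 1) (LD 0 1) (L 0) (L 0) X X)))))))
(P (B 0 (L 0) (B 1 (L 0) (S 0 (LE 5 1) (B 3 (D 1) (LE 4 0)) (F 1 8 (F 1 9 (LE 3 0))) (LE 0 1) X X X)))))
(P (B 0 (L 0) (B 2 (L 0) (B 1 (L 0) (B 5 (LE 5 0) (F 0 3 (F 0 4 (D 1))))))))))))))))))))
(Q 5 8 512 (Q 5 9 0 (P (B 0 (L 0) (B 1 (L 0) (S 0 (F 1 6 (F 1 7 (LE 5 0))) (LE 4 1) (F 1 8 (F 1 9 (LE 3 0))) (LE 2 1) X X X))))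
(Q 2 4 0 (P (B 0 (L 0) (B 5 (LD 5 1) (B 1 (L 0) (B 3 (F 1 8 (F 1 9 (LE 9 0))) (F 0 2 (D 0)))))))
(Q 3 4 0 (P (B 0 (L 0) (B 1 (L 0) (B 2 (LE 2 1) (B 3 (F 0 5 (D 1)) (F 0 4 (F 0 5 (LE 4 1))))))))
(Q 2 5 0 (P (B 0 (L 0) (B 1 (L 0) (B 4 (LE 4 1) (B 2 (F 0 3 (F 1 8 (F 1 9 (L 2)))) (F 0 3 (F 0 5 (D 1))))))))
(Q 2 3 0 (P (B 0 (L 0) (B 1 (L 0) (B 4 (LE 4 1) (B 2 (F 0 5 (LE 2 1)) (F 0 3 (F 0 5 (D 1))))))))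
(P (B 0 (L 0) (B 1 (L 0) (B 4 (LE 4 1) (B 3 (F 1 8 (F 0 2 (F 1 9 (L 2)))) (F 0 2 (F 0 5 (LE 2 1)))))))))))))
(Q 2 3 0 (Q 2 4 32 (P (B 0 (L 0) (B 1 (L 0) (B 3 (F 1 8 (F 1 9 (LE 8 0))) (B 5 (LE 5 0) (F 0 2 (D 0)))))))
(N 2 (Bad 2)
(N 2 (Bad 2)
(N 2 (Bad 2)
(N 2 (Q 4 5 0 (P (B 0 (L 0) (B 1 (L 0) (B 3 (F 1 8 (F 1 9 (LE 8 0))) (B 2 (LE 0 0) (F 0 4 (D 0)))))))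
(Q 3 4 32 (P (B 0 (L 0) (B 1 (L 0) (S 0 (LE 5 1) (LD 4 2) (F 0 5 (F 1 8 (F 1 9 (L 5)))) (LE 0 0) X X X))))
(Q 3 10 6144 (Q 3 11 4096 (P (B 0 (L 0) (B 3 (F 2 12 (LD 0 1)) (B 4 (LD 4 2) (B 5 (LD 5 2) (F 0 1 (F 0 2 (L 0))))))))
(N 3 (P (B 0 (L 0) (B 1 (LD 0 3) (S 0 (LE 5 1) (LE 4 1) (F 1 8 (F 1 9 (LE 8 0))) (LE 0 0) X X X))))
(N 3 (P (B 0 (L 0) (B 1 (LD 0 3) (S 0 (LE 5 1) (LE 4 1) (F 1 8 (F 1 9 (LE 0 0))) (LE 0 0) X X X))))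
(P (B 0 (L 0) (B 3 (LD 0 1) (B 4 (LD 4 2) (B 5 (LD 5 2) (F 0 1 (F 0 2 (L 0)))))))))))
(N 3 (Bad 3)
(N 3 (P (B 0 (L 0) (B 1 (LD 0 3) (S 0 (LE 5 1) (LE 4 1) (F 1 8 (F 1 9 (LE 8 0))) (LE 0 0) X X X))))
(N 3 (P (B 0 (L 0) (B 1 (LD 0 3) (S 0 (LE 5 1) (LE 4 1) (F 1 8 (F 1 9 (LE 0 0))) (LE 0 0) X X X))))
(P (B 0 (L 0) (B 3 (LD 0 1) (B 4 (LD 4 2) (B 5 (LD 5 2) (F 0 1 (F 0 2 (L 0))))))))))))))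
(P (B 0 (L 0) (B 1 (L 0) (S 0 (LE 5 1) (LE 4 1) (F 1 8 (F 1 9 (LE 8 0))) (LE 0 0) X X X)))))))))
(Q 4 5 0 (P (B 0 (L 0) (B 1 (L 0) (B 2 (LE 2 1) (B 3 (F 1 8 (F 1 9 (LE 3 0))) (F 0 4 (D 0)))))))
(Q 2 4 32 (P (B 0 (L 0) (B 1 (L 0) (B 3 (F 1 8 (F 1 9 (L 3))) (B 5 (LE 5 0) (F 0 2 (D 0)))))))
(N 2 (Bad 2)
(N 2 (Bad 2)
(N 2 (Bad 2)
(N 2 (Bad 2)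
(N 2 (Q 3 4 32 (Q 3 5 0 (P (B 0 (L 0) (B 1 (L 0) (S 0 (LE 5 0) (LE 4 0) (F 0 2 (F 1 8 (F 1 9 (L 0)))) (LE 0 1) X X X))))
(Q 3 10 14336 (Q 3 11 12288 (Q 3 12 8192 (P (B 0 (L 0) (B 2 (L 0) (B 3 (D 2) (B 5 (LE 5 0) (F 0 1 (F 0 4 (LE 4 2))))))))
(N 3 (P (B 0 (L 0) (B 1 (LD 0 3) (S 0 (LE 5 1) (LE 4 0) (F 1 8 (F 1 9 (LD 0 2))) (LD 0 3) X X X))))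
(P (B 0 (L 0) (B 2 (L 0) (B 3 (F 2 12 (F 2 13 (LD 0 1))) (B 5 (LE 5 0) (F 0 1 (F 0 4 (LE 4 2))))))))))
(N 3 (P (B 0 (L 0) (B 1 (LD 0 3) (S 0 (LE 5 1) (LE 4 0) (F 1 8 (F 1 9 (LD 8 2))) (LD 0 3) X X X))))
(N 3 (P (B 0 (L 0) (B 1 (LD 0 3) (S 0 (LE 5 1) (LE 4 0) (F 1 8 (F 1 9 (LD 0 2))) (LE 0 1) X X X))))
(P (B 0 (L 0) (B 1 (L 0) (S 0 (LE 5 1) (LE 4 0) (F 1 8 (F 1 9 (LD 0 2))) (LE 0 1) X X X)))))))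
(N 3 (Bad 3)
(N 3 (P (B 0 (L 0) (B 1 (LD 0 3) (S 0 (LE 5 1) (LE 4 0) (F 1 8 (F 1 9 (LE 8 0))) (LE 0 1) X X X))))
(N 3 (P (B 0 (L 0) (B 1 (LD 0 3) (S 0 (LE 5 1) (LE 4 0) (F 1 8 (F 1 9 (LE 0 0))) (LE 0 1) X X X))))
(P (B 0 (L 0) (B 1 (L 0) (S 0 (LE 5 1) (LE 4 0) (F 1 8 (F 1 9 (LE 0 0))) (LE 0 1) X X X)))))))))
(Q 3 10 14336 (Q 3 11 12288 (Q 3 12 8192 (P (B 0 (L 0) (B 2 (L 0) (B 3 (D 2) (B 4 (LE 4 0) (F 0 1 (F 0 5 (LE 5 2))))))))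
(N 3 (P (B 0 (L 0) (B 3 (LD 0 1) (S 0 (LE 5 3) (LE 4 3) (F 3 6 (F 3 7 (LE 0 0))) (F 3 10 (F 3 11 (LE 0 0))) X X X))))
(P (B 0 (L 0) (B 2 (L 0) (B 3 (F 2 12 (F 2 13 (LD 0 1))) (B 4 (LE 4 0) (F 0 1 (F 0 5 (LE 5 2))))))))))
(N 3 (Bad 3)
(N 3 (P (B 0 (L 0) (B 3 (LD 0 1) (S 0 (LE 5 3) (LE 4 3) (LE 0 3) (F 3 10 (F 3 14 (LE 0 0))) X X X))))
(N 3 (P (B 0 (L 0) (B 1 (LD 0 3) (S 0 (LE 5 1) (LE 4 1) (F 1 8 (F 1 9 (LD 0 2))) (LE 0 1) X X X))))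
(P (B 0 (L 0) (B 3 (LD 0 1) (B 4 (L 4) (B 5 (LE 5 0) (F 0 1 (F 0 2 (L 0))))))))))))
(N 3 (Bad 3)
(N 3 (Bad 3)
(N 3 (P (B 0 (L 0) (B 1 (LD 0 3) (S 0 (LE 5 1) (LE 4 1) (F 1 8 (F 1 9 (L 0))) (LE 0 1) X X X))))
(N 3 (P (B 0 (L 0) (B 1 (LD 0 3) (S 0 (LE 5 1) (LE 4 1) (F 1 8 (F 1 9 (L 0))) (LE 0 1) X X X))))
(P (B 0 (L 0) (B 3 (LD 0 1) (B 4 (L 4) (B 5 (LE 5 0) (F 0 1 (F 0 2 (L 0))))))))))))))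
(N 2 (Q 3 4 32 (P (B 0 (L 0) (B 1 (L 0) (B 2 (LE 0 1) (B 5 (LE 5 0) (F 0 3 (D 0)))))))
(Q 4 6 128 (Q 5 6 0 (P (B 0 (L 0) (S 0 (LD 5 1) (LD 4 1) (LD 3 1) (L 0) (L 0) X X)))
(Q 5 7 0 (P (B 0 (L 0) (S 0 (LD 5 1) (LD 4 1) (LD 3 1) (L 0) (L 0) X X)))
(P (B 0 (L 0) (B 2 (L 0) (B 4 (LD 4 1) (B 1 (B 5 (LE 5 2) (F 0 3 (LE 3 2))) (F 0 3 (F 0 5 (F 1 8 (F 1 9 (LE 5 2))))))))))))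
(Q 5 6 128 (P (B 0 (L 0) (B 2 (L 0) (B 5 (LD 5 1) (B 1 (B 4 (LE 4 2) (F 0 3 (LE 3 2))) (F 0 3 (F 0 4 (F 1 8 (F 1 9 (LE 4 2))))))))))
(Q 4 10 30720 (P (B 0 (L 0) (B 2 (L 0) (B 4 (LE 4 2) (B 1 (B 5 (LE 5 2) (F 0 3 (LE 3 2))) (F 0 3 (F 0 5 (F 1 8 (F 1 9 (LE 5 2))))))))))
(N 4 (Bad 4)
(N 4 (Bad 4)
(N 4 (Bad 4)
(N 4 (Bad 4)
(N 4 (P (B 4 (L 0) (B 2 (LE 0 4) (B 1 (B 5 (LE 5 4) (F 0 3 (LE 3 4))) (B 0 (L 0) (F 0 3 (F 0 5 (F 1 8 (F 1 9 (LE 5 4))))))))))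
(P (B 0 (L 0) (B 2 (L 0) (B 4 (LE 0 2) (B 1 (LE 0 0) (F 0 3 (F 0 5 (F 1 8 (F 1 9 (LE 5 2)))))))))))))))))))
(P (B 0 (L 0) (B 1 (L 0) (S 0 (LE 5 1) (LE 4 1) (F 1 8 (F 1 9 (L 3))) (LE 0 1) X X X))))))))))))))))
(Q 4 6 0 (Q 2 5 0 (P (B 0 (L 0) (B 1 (L 0) (S 1 (LE 9 0) (LE 8 0) (LE 7 0) (F 0 2 (D 0)) X X X))))
(Q 5 6 0 (P (B 1 (L 0) (B 0 (L 0) (S 1 (LE 9 0) (LE 8 0) (LE 7 0) (D 0) X X X))))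
(Q 5 7 768 (Q 5 8 512 (Q 2 4 0 (P (B 0 (L 0) (B 3 (LD 3 1) (B 1 (L 0) (B 2 (F 0 5 (F 1 6 (F 1 9 (L 2)))) (F 0 4 (F 0 5 (D 1))))))))
(P (B 1 (L 0) (S 1 (L 9) (LD 8 0) (LD 7 0) (B 0 (L 6) (F 0 2 (F 0 5 (F 1 9 (L 2))))) (L 0) X X))))
(Q 2 3 0 (P (B 1 (L 0) (B 0 (L 0) (S 1 (LE 9 0) (LE 8 0) (B 4 (LE 4 0) (F 0 2 (D 0))) (F 0 2 (F 0 5 (LE 2 1))) X X X))))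
(P (B 1 (L 0) (B 0 (L 0) (S 1 (LE 9 0) (LE 8 0) (LE 7 0) (F 0 2 (F 0 5 (LE 2 1))) X X X))))))
(Q 2 3 0 (Q 2 4 0 (N 2 (Bad 2)
(N 2 (Bad 2)
(N 2 (P (B 0 (LE 0 2) (S 0 (L 5) (LD 4 1) (LD 3 1) (LE 0 0) (L 0) X X)))
(P (B 0 (L 0) (S 0 (L 5) (LD 4 1) (LD 3 1) (LE 0 0) (L 0) X X))))))
(N 2 (Bad 2)
(N 2 (Bad 2)
(N 2 (Bad 2)
(N 2 (Q 3 5 0 (P (B 0 (L 0) (B 4 (LD 4 1) (B 1 (L 0) (B 2 (F 0 5 (LE 0 1)) (F 0 3 (D 0)))))))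
(Q 5 10 6144 (Q 3 4 0 (P (B 0 (L 0) (B 5 (LD 5 2) (B 1 (L 0) (B 2 (F 0 4 (LE 0 1)) (F 0 3 (D 0)))))))
(Q 3 10 0 (Q 3 11 4096 (P (B 0 (L 0) (S 0 (LD 5 2) (LD 4 1) (F 2 12 (LD 12 1)) (L 0) (L 0) X X)))
(N 3 (Bad 3)
(N 3 (P (B 0 (L 0) (B 2 (LE 0 3) (B 10 (F 0 1 (F 0 4 (F 3 13 (LE 0 2)))) (B 3 (LD 0 1) (F 2 11 (F 2 12 (F 3 6 (D 0)))))))))
(P (B 0 (L 0) (S 0 (LD 5 2) (LD 4 1) (LD 0 1) (L 0) (L 0) X X))))))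
(Q 4 10 0 (Q 3 11 4096 (P (B 2 (L 0) (B 10 (B 0 (L 10) (F 0 1 (F 0 3 (L 3)))) (B 0 (LE 0 2) (B 12 (LE 12 0) (F 2 3 (D 2)))))))
(N 3 (Bad 3)
(N 3 (Bad 3)
(N 3 (P (B 0 (L 0) (B 1 (LD 0 3) (S 1 (LE 9 0) (LE 8 0) (LE 7 0) (F 0 2 (F 0 5 (L 0))) X X X))))
(P (B 0 (L 0) (S 0 (LD 5 2) (LD 4 1) (LD 0 1) (L 0) (L 0) X X)))))))
(Q 3 11 4096 (Q 3 12 0 (P (B 0 (L 0) (B 4 (LD 4 1) (B 3 (F 2 10 (F 0 1 (L 0))) (B 2 (LE 0 0) (F 0 1 (F 0 5 (F 2 11 (F 2 12 (L 5))))))))))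
(N 3 (Bad 3)
(N 3 (P (B 0 (L 0) (B 3 (LD 0 1) (B 6 (F 0 2 (F 0 5 (L 0))) (B 13 (LD 13 1) (F 3 2 (D 3)))))))
(P (B 0 (L 0) (S 0 (LD 5 2) (LD 4 1) (LD 0 1) (L 0) (L 0) X X))))))
(N 3 (Bad 3)
(N 3 (Bad 3)
(N 3 (P (B 0 (L 0) (B 1 (LD 0 3) (S 1 (LE 9 0) (LE 8 0) (LE 7 0) (F 0 2 (F 0 5 (L 0))) X X X))))
(P (B 0 (L 0) (S 0 (LD 5 2) (LD 4 1) (LD 0 1) (L 0) (L 0) X X))))))))))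
(P (B 0 (L 0) (B 1 (L 0) (S 1 (LE 9 0) (LE 8 0) (LE 7 0) (F 0 2 (F 0 5 (L 5))) X X X))))))
(P (B 1 (L 0) (B 0 (L 0) (S 1 (LE 9 0) (LE 8 0) (LE 7 0) (F 0 2 (F 0 5 (L 0))) X X X)))))))))
(Q 4 5 0 (Q 4 7 768 (Q 4 8 512 (P (B 0 (L 0) (B 1 (L 0) (S 0 (LE 5 0) (D 1) (LE 3 1) (LE 2 1) X X X))))
(Q 2 4 0 (P (B 0 (L 0) (B 3 (LD 3 1) (B 1 (L 0) (B 2 (F 0 5 (LE 2 1)) (F 0 4 (D 0)))))))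
(P (B 0 (L 0) (B 1 (L 0) (S 1 (LE 9 0) (LE 8 0) (LE 7 0) (F 0 2 (F 0 5 (L 2))) X X X))))))
(Q 2 4 0 (P (B 0 (L 0) (B 3 (LD 3 1) (B 1 (L 0) (B 2 (F 0 5 (LE 2 1)) (F 0 4 (D 0)))))))
(P (B 0 (L 0) (B 1 (L 0) (S 1 (LE 9 0) (LE 8 0) (LE 7 0) (F 0 2 (F 0 5 (L 2))) X X X))))))
(Q 2 4 0 (N 2 (Bad 2)
(N 2 (Bad 2)
(N 2 (Bad 2)
(N 2 (Q 5 10 6144 (Q 3 4 0 (P (B 0 (L 0) (B 5 (LD 5 2) (B 1 (L 0) (B 2 (F 0 3 (LE 0 1)) (F 0 3 (D 0)))))))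
(Q 3 5 0 (Q 4 7 768 (P (B 1 (L 0) (B 2 (LE 0 0) (B 4 (F 1 8 (F 1 9 (LE 8 0))) (B 0 (L 0) (F 0 3 (D 0)))))))
(Q 5 11 4096 (P (B 0 (L 0) (B 4 (LD 4 1) (B 1 (B 3 (LD 3 2) (B 2 (L 0) (F 0 5 (D 2)))) (B 2 (LE 0 0) (F 0 3 (D 0)))))))
(P (B 1 (L 0) (B 0 (L 0) (S 1 (LE 9 0) (LE 8 0) (LE 7 0) (F 0 2 (F 0 5 (L 5))) X X X))))))
(P (B 0 (L 0) (B 3 (LD 3 1) (B 5 (LD 5 2) (B 1 (LE 0 0) (F 0 2 (D 0)))))))))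
(P (B 0 (L 0) (B 1 (L 0) (S 1 (LE 9 0) (LE 8 0) (LE 7 0) (F 0 2 (F 0 5 (L 5))) X X X)))))
(P (B 1 (L 0) (B 0 (L 0) (S 1 (LE 9 0) (LE 8 0) (LE 7 0) (F 0 2 (F 0 5 (L 0))) X X X))))))))
(P (B 0 (L 0) (B 1 (L 0) (S 1 (LE 9 0) (LE 8 0) (LE 7 0) (F 0 2 (F 0 5 (L 2))) X X X))))))))))
(Q 4 7 768 (Q 4 8 512 (Q 2 5 0 (P (B 0 (L 0) (B 3 (LD 3 1) (B 1 (L 0) (B 4 (F 1 6 (F 1 9 (LE 9 0))) (F 0 2 (D 0)))))))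
(Q 4 9 0 (P (B 0 (L 0) (B 1 (L 0) (S 0 (LE 5 1) (D 1) (LE 3 1) (LE 2 1) X X X))))
(Q 5 6 0 (P (B 0 (L 0) (S 0 (LD 5 1) (B 1 (L 4) (F 1 6 (F 0 2 (F 1 9 (L 2))))) (LD 3 1) (L 2) (L 0) X X)))
(Q 5 9 0 (P (B 0 (L 0) (S 0 (LD 5 1) (B 1 (L 4) (F 1 6 (F 1 9 (F 0 2 (L 2))))) (LD 3 1) (L 2) (L 0) X X)))
(Q 5 7 256 (Q 2 3 0 (P (B 0 (L 0) (B 5 (LD 5 1) (B 1 (L 0) (B 2 (F 0 4 (F 1 6 (F 1 9 (L 2)))) (F 0 3 (F 0 4 (D 1))))))))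
(Q 4 5 0 (P (B 0 (L 0) (B 3 (LD 3 1) (B 1 (L 0) (B 2 (B 7 (D 0) (LE 2 0)) (F 0 4 (D 0)))))))
(Q 5 8 0 (P (B 0 (L 0) (B 3 (LD 3 1) (B 1 (L 0) (S 1 (LE 9 0) (D 0) (D 0) (B 7 (D 0) (B 8 (D 0) (F 1 9 (LE 9 0)))) X X X)))))
(Q 2 4 0 (P (B 0 (L 0) (B 5 (LD 5 1) (B 1 (L 0) (B 2 (F 0 3 (LE 2 1)) (F 0 3 (F 0 4 (D 1))))))))
(P (B 0 (L 0) (B 5 (LD 5 1) (B 1 (L 0) (B 4 (F 1 6 (F 0 2 (F 1 9 (L 2)))) (F 0 2 (F 0 3 (LE 2 1))))))))))))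
(Q 2 4 0 (P (B 0 (L 0) (B 1 (L 0) (S 0 (LE 5 1) (F 1 6 (F 0 5 (F 1 9 (L 5)))) (LE 3 1) (LE 2 0) X X X))))
(Q 3 5 0 (P (B 0 (L 0) (B 1 (L 0) (B 2 (LE 2 1) (B 3 (F 0 4 (D 1)) (F 0 4 (F 0 5 (F 1 6 (F 1 9 (L 5))))))))))
(Q 4 5 0 (P (B 0 (L 0) (B 1 (L 0) (B 2 (LE 2 1) (B 4 (F 0 3 (D 1)) (F 0 3 (F 0 5 (LE 5 1))))))))
(P (B 0 (L 0) (B 1 (L 0) (B 2 (LE 2 1) (B 4 (F 1 6 (F 0 5 (F 1 9 (L 5)))) (F 0 3 (F 0 5 (LE 5 1))))))))))))))))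
(Q 5 6 0 (Q 2 4 0 (P (B 1 (L 0) (B 0 (L 0) (S 1 (LE 9 0) (LE 8 0) (LE 7 0) (F 0 2 (D 0)) X X X))))
(Q 2 3 0 (P (B 1 (L 0) (B 0 (L 0) (S 1 (LE 9 0) (LE 8 0) (B 5 (LE 5 0) (F 0 2 (D 0))) (F 0 2 (F 0 4 (LE 2 1))) X X X))))
(P (B 1 (L 0) (B 0 (L 0) (S 1 (LE 9 0) (LE 8 0) (LE 7 0) (F 0 2 (F 0 4 (LE 2 1))) X X X))))))
(Q 5 7 0 (Q 2 3 0 (P (B 1 (L 0) (B 0 (L 0) (S 1 (LE 9 0) (LE 8 0) (F 0 2 (D 0)) (LE 6 0) X X X))))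
(Q 4 5 0 (P (B 0 (L 0) (B 3 (LD 3 1) (B 1 (L 0) (B 2 (B 7 (D 0) (LE 2 0)) (F 0 4 (D 0)))))))
(Q 2 4 0 (P (B 1 (L 0) (B 0 (L 0) (S 1 (LE 9 0) (LE 8 0) (F 0 2 (F 0 3 (LE 2 1))) (B 5 (LE 5 0) (F 0 2 (D 0))) X X X))))
(P (B 1 (L 0) (B 0 (L 0) (S 1 (LE 9 0) (LE 8 0) (F 0 2 (F 0 3 (LE 2 1))) (LE 6 0) X X X)))))))
(Q 5 8 512 (Q 5 9 0 (Q 2 4 0 (P (B 0 (L 0) (B 3 (LD 3 1) (B 1 (L 0) (B 2 (F 0 5 (F 1 6 (F 1 7 (L 2)))) (F 0 4 (F 0 5 (D 1))))))))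
(P (B 0 (L 0) (S 0 (B 1 (L 5) (F 1 6 (F 1 7 (F 0 2 (L 2))))) (LD 4 1) (LD 3 1) (L 2) (L 0) X X))))
(Q 2 3 0 (Q 3 4 0 (P (B 0 (L 0) (B 5 (LD 5 1) (B 1 (L 0) (B 2 (F 0 4 (LE 2 1)) (F 0 3 (D 0)))))))
(Q 3 5 0 (P (B 0 (L 0) (B 4 (LD 4 1) (B 1 (L 0) (B 2 (F 0 5 (LE 2 1)) (F 0 3 (D 0)))))))
(N 3 (Bad 3)
(N 3 (Bad 3)
(N 3 (P (B 0 (L 0) (B 1 (LD 0 3) (S 1 (LE 9 0) (B 4 (LE 4 0) (F 0 2 (D 0))) (B 5 (LE 5 0) (F 0 2 (D 0))) (LE 6 0) X X X))))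
(P (B 0 (L 0) (S 0 (LD 5 1) (LD 4 1) (LD 0 1) (L 2) (L 0) X X))))))))
(Q 4 5 0 (Q 2 4 0 (P (B 0 (L 0) (B 3 (LD 3 1) (B 1 (L 0) (B 2 (F 0 5 (LE 2 1)) (F 0 4 (D 0)))))))
(Q 2 5 0 (P (B 0 (L 0) (B 3 (LD 3 1) (B 1 (L 0) (B 2 (F 0 4 (LE 2 1)) (F 0 4 (D 0)))))))
(N 2 (Bad 2)
(N 2 (Bad 2)
(N 2 (Bad 2)
(N 2 (Bad 2)
(N 2 (P (B 2 (L 0) (B 0 (L 0) (B 1 (LE 0 2) (B 3 (B 9 (LE 3 0) (F 1 7 (F 0 5 (D 1)))) (F 0 4 (D 0)))))))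
(P (B 0 (L 0) (B 2 (L 0) (B 3 (LD 3 1) (B 1 (LE 0 0) (F 0 4 (D 0))))))))))))))
(Q 2 4 0 (Q 3 4 0 (P (B 0 (L 0) (B 5 (LD 5 1) (B 1 (L 0) (B 2 (F 0 3 (LE 2 1)) (F 0 3 (D 0)))))))
(N 4 (Bad 4)
(N 4 (Bad 4)
(N 4 (P (B 0 (L 0) (B 1 (LD 0 4) (S 1 (LE 9 0) (B 3 (LE 3 0) (F 0 2 (D 0))) (LE 7 0) (B 5 (LE 5 0) (F 0 2 (D 0))) X X X))))
(P (B 0 (L 0) (S 0 (LD 5 1) (LD 0 1) (LD 3 1) (L 2) (L 0) X X)))))))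
(Q 2 5 0 (N 2 (Bad 2)
(N 2 (Bad 2)
(N 2 (Bad 2)
(N 2 (Q 3 4 0 (P (B 1 (L 0) (B 2 (LE 0 0) (B 5 (B 9 (LE 9 0) (F 1 6 (F 0 4 (D 1)))) (B 0 (L 0) (F 0 3 (D 0)))))))
(P (B 0 (L 0) (B 3 (LD 3 1) (B 4 (LD 4 1) (B 1 (LE 0 0) (F 0 2 (D 0))))))))
(P (B 0 (L 0) (S 0 (LD 5 1) (LD 4 1) (LD 3 1) (L 0) (L 0) X X)))))))
(N 2 (Bad 2)
(N 2 (Bad 2)
(N 2 (Bad 2)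
(N 2 (Bad 2)
(N 2 (Q 3 4 0 (P (B 2 (L 0) (B 0 (L 0) (B 1 (LE 0 2) (B 5 (B 9 (LE 5 0) (F 1 6 (F 0 4 (D 1)))) (F 0 3 (D 0)))))))
(Q 3 5 0 (P (B 2 (L 0) (B 0 (L 0) (B 1 (LE 0 2) (B 3 (F 0 4 (F 1 8 (F 1 9 (LE 4 2)))) (F 0 4 (F 0 5 (F 1 6 (F 1 9 (LE 4 2))))))))))
(Q 5 10 14336 (Q 5 11 12288 (Q 5 12 8192 (P (B 0 (L 0) (B 3 (LD 3 1) (B 1 (B 2 (L 0) (B 5 (D 2) (F 0 4 (LE 4 2)))) (B 2 (LE 0 0) (F 0 4 (F 0 5 (D 2))))))))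
(N 5 (Bad 5)
(N 5 (P (B 0 (L 0) (B 2 (LD 0 5) (B 5 (F 2 12 (F 2 13 (LD 0 1))) (B 1 (LE 0 0) (F 0 3 (F 0 4 (F 1 8 (F 1 9 (LE 3 2))))))))))
(P (B 0 (L 0) (B 3 (LD 3 1) (B 4 (LD 4 1) (B 2 (B 1 (L 0) (F 0 5 (LE 0 1))) (F 0 1 (F 0 5 (F 2 12 (F 2 13 (L 0)))))))))))))
(N 5 (Bad 5)
(N 5 (Bad 5)
(N 5 (P (B 0 (L 0) (S 0 (LD 0 1) (LD 4 1) (LD 3 1) (LD 0 5) (LD 0 5) X X)))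
(P (B 0 (L 0) (B 3 (LD 3 1) (B 4 (LD 4 1) (B 5 (B 1 (LD 0 2) (F 0 2 (LE 0 1))) (F 0 1 (F 0 2 (L 0))))))))))))
(P (B 0 (L 0) (B 3 (LD 3 1) (B 4 (LD 4 1) (B 5 (B 2 (LD 5 1) (F 0 1 (LE 5 2))) (F 0 1 (F 0 2 (L 0)))))))))))
(P (B 0 (L 0) (S 0 (LD 5 1) (LD 4 1) (LD 3 1) (L 0) (L 0) X X)))))))))))))
(Q 2 3 0 (Q 3 5 0 (P (B 0 (L 0) (B 1 (L 0) (S 0 (LE 5 0) (LE 4 1) (F 0 4 (F 1 8 (F 1 9 (L 8)))) (LE 2 0) X X X))))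
(Q 2 4 0 (P (B 1 (L 0) (B 0 (L 0) (S 1 (LE 9 0) (LE 8 0) (B 5 (LE 5 0) (F 0 2 (D 0))) (B 5 (LE 5 0) (F 0 2 (D 0))) X X X))))
(Q 2 5 0 (P (B 0 (L 0) (B 4 (LD 4 1) (B 1 (L 0) (B 2 (D 0) (F 0 3 (F 0 5 (LE 5 1))))))))
(N 2 (Bad 2)
(N 2 (Bad 2)
(N 2 (Bad 2)
(N 2 (Q 5 10 6144 (Q 3 4 0 (P (B 0 (L 0) (B 5 (LD 5 2) (B 1 (L 0) (B 2 (F 0 4 (LE 0 1)) (F 0 3 (D 0)))))))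
(Q 3 10 0 (Q 3 11 4096 (P (B 0 (L 0) (S 0 (LD 5 2) (LD 4 1) (F 2 12 (LD 12 1)) (L 0) (L 0) X X)))
(N 3 (Bad 3)
(N 3 (P (B 0 (L 0) (B 2 (LE 0 3) (B 10 (F 0 1 (F 0 4 (F 3 13 (LE 4 2)))) (B 3 (LD 0 1) (F 2 11 (F 2 12 (F 3 6 (F 0 4 (F 0 5 (F 3 13 (LE 5 1))))))))))))
(P (B 0 (L 0) (S 0 (LD 5 2) (LD 4 1) (LD 0 1) (L 0) (L 0) X X))))))
(Q 4 10 0 (Q 3 11 4096 (P (B 2 (L 0) (B 10 (B 0 (L 10) (F 0 1 (F 0 3 (L 3)))) (B 0 (LE 0 2) (B 12 (LE 12 0) (F 2 3 (D 2)))))))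
(N 3 (Bad 3)
(N 3 (Bad 3)
(N 3 (Q 4 5 0 (P (B 0 (L 0) (B 3 (LD 0 1) (B 1 (B 2 (LE 0 3) (F 3 13 (F 3 14 (B 10 (D 0) (F 2 11 (F 2 12 (LE 0 0))))))) (B 2 (LE 0 0) (F 0 4 (D 0)))))))
(P (B 0 (L 0) (B 4 (LD 4 1) (B 1 (LD 0 3) (B 5 (LD 5 2) (F 0 2 (D 0))))))))
(P (B 0 (L 0) (S 0 (LD 5 2) (LD 4 1) (LD 0 1) (L 0) (L 0) X X)))))))
(Q 3 11 4096 (Q 3 12 0 (P (B 0 (L 0) (B 4 (LD 4 1) (B 3 (F 2 10 (F 0 1 (L 0))) (B 2 (LE 0 0) (F 0 1 (F 0 5 (F 2 11 (F 2 12 (L 5))))))))))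
(N 3 (Bad 3)
(N 3 (P (B 0 (L 0) (S 0 (LD 5 2) (LD 4 1) (LD 0 1) (LE 0 3) (LD 0 3) X X)))
(P (B 0 (L 0) (S 0 (LD 5 2) (LD 4 1) (LD 0 1) (L 0) (L 0) X X))))))
(N 3 (Bad 3)
(N 3 (Bad 3)
(N 3 (Q 4 5 0 (P (B 0 (L 0) (B 1 (LD 0 3) (S 1 (LE 9 0) (LE 8 0) (B 5 (LD 5 2) (F 0 2 (D 0))) (B 2 (LE 0 0) (F 0 4 (D 0))) X X X))))
(P (B 0 (L 0) (B 4 (LD 4 1) (B 1 (LD 0 3) (B 5 (LD 5 2) (F 0 2 (D 0))))))))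
(P (B 0 (L 0) (S 0 (LD 5 2) (LD 4 1) (LD 0 1) (L 0) (L 0) X X))))))))))
(Q 4 5 0 (N 5 (Bad 5)
(N 5 (Bad 5)
(N 5 (Bad 5)
(Q 4 10 6144 (Q 4 11 4096 (P (B 0 (L 0) (B 3 (LD 3 1) (B 1 (B 5 (LD 0 2) (B 2 (L 0) (F 0 4 (D 2)))) (B 4 (F 0 2 (LE 0 1)) (F 0 2 (F 0 5 (LE 0 1))))))))
(Q 3 4 0 (P (B 0 (L 0) (B 1 (L 0) (B 3 (F 0 5 (LE 0 1)) (B 4 (F 0 2 (LE 0 1)) (F 0 2 (F 0 5 (LE 0 1))))))))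
(P (B 0 (L 0) (B 3 (LD 3 1) (B 1 (LD 0 2) (B 4 (F 0 2 (LE 4 1)) (F 0 2 (F 0 5 (LE 0 1))))))))))
(P (B 0 (L 0) (B 3 (LD 3 1) (B 1 (LD 0 2) (B 4 (F 0 2 (LE 4 1)) (F 0 2 (F 0 5 (LE 0 1))))))))))))
(P (B 0 (L 0) (B 4 (LD 4 1) (B 1 (L 0) (B 2 (F 0 5 (LE 5 1)) (F 0 3 (F 0 5 (LE 5 1))))))))))
(N 2 (Q 4 5 0 (P (B 0 (L 0) (B 3 (LD 3 1) (B 2 (L 0) (B 4 (F 0 1 (LE 4 2)) (F 0 1 (F 0 5 (LE 5 2))))))))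
(P (B 0 (L 0) (B 4 (LD 4 1) (B 5 (L 5) (B 2 (F 0 1 (L 0)) (F 0 1 (F 0 3 (L 3)))))))))
(P (B 0 (L 0) (S 0 (L 5) (LD 4 1) (LD 3 1) (L 0) (L 0) X X)))))))))))
(Q 4 5 0 (Q 2 5 0 (P (B 0 (L 0) (B 3 (LD 3 1) (B 1 (L 0) (B 2 (F 0 4 (LE 2 1)) (F 0 4 (D 0)))))))
(Q 2 4 0 (P (B 0 (L 0) (B 3 (LD 3 1) (B 1 (L 0) (B 2 (F 0 5 (LE 2 1)) (F 0 4 (D 0)))))))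
(N 2 (Bad 2)
(N 2 (Bad 2)
(N 2 (Bad 2)
(N 2 (Bad 2)
(N 2 (Q 3 10 14336 (Q 3 11 12288 (P (B 0 (L 0) (B 1 (L 0) (B 2 (LE 0 1) (B 3 (F 2 12 (F 2 13 (LE 3 0))) (F 0 4 (D 0)))))))
(Q 4 10 0 (P (B 2 (L 0) (B 0 (L 0) (S 2 (LE 13 0) (LE 12 0) (LE 11 0) (F 0 1 (F 0 5 (L 5))) X X X))))
(Q 4 11 12288 (Q 4 12 8192 (P (B 0 (L 0) (B 1 (L 0) (B 2 (LE 0 1) (B 4 (F 0 3 (D 2)) (F 0 3 (F 0 5 (LE 5 1))))))))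
(Q 5 11 0 (P (B 0 (L 0) (B 3 (LD 3 1) (B 2 (L 0) (B 1 (B 11 (D 0) (LE 0 0)) (F 0 4 (D 0)))))))
(Q 5 10 0 (Q 3 4 0 (P (B 0 (L 0) (S 0 (LD 5 2) (B 1 (LD 0 2) (F 0 2 (LE 0 1))) (LD 3 1) (L 0) (L 0) X X)))
(P (B 0 (L 0) (B 3 (LD 3 1) (B 2 (L 0) (B 4 (F 0 1 (LE 4 2)) (F 0 1 (F 0 5 (LE 5 2)))))))))
(P (B 0 (L 0) (B 1 (L 0) (B 2 (LE 0 1) (B 4 (F 0 3 (F 1 8 (F 1 9 (F 2 12 (F 2 13 (L 3)))))) (F 0 3 (F 0 5 (LE 5 1)))))))))))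
(Q 3 4 0 (P (B 0 (L 0) (B 1 (L 0) (B 2 (LE 0 1) (B 3 (F 0 5 (LE 5 1)) (F 0 4 (D 0)))))))
(P (B 0 (L 0) (B 3 (LD 3 1) (B 2 (L 0) (B 4 (F 0 1 (LE 4 2)) (F 0 1 (F 0 5 (LE 5 2))))))))))))
(Q 4 10 14336 (Q 5 10 0 (P (B 0 (L 0) (B 3 (LD 3 1) (B 2 (L 0) (B 1 (B 10 (D 0) (LE 0 0)) (F 0 4 (D 0)))))))
(Q 5 11 12288 (Q 3 5 0 (P (B 0 (L 0) (S 0 (B 1 (LD 5 2) (F 0 2 (LE 0 1))) (LD 4 1) (LD 3 1) (L 0) (L 0) X X)))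
(P (B 0 (L 0) (B 3 (LD 3 1) (B 2 (L 0) (B 4 (F 0 1 (LE 0 2)) (F 0 1 (F 0 5 (LE 5 2)))))))))
(Q 3 5 0 (P (B 0 (L 0) (S 0 (B 1 (L 5) (F 0 2 (LE 5 1))) (LD 4 1) (LD 3 1) (L 0) (L 0) X X)))
(P (B 0 (L 0) (B 3 (LD 3 1) (B 1 (L 0) (B 4 (F 0 2 (LE 0 1)) (F 0 2 (F 0 5 (LE 5 1)))))))))))
(Q 5 10 14336 (Q 3 4 0 (P (B 0 (L 0) (S 0 (LD 5 2) (B 2 (LD 4 1) (F 0 1 (LE 4 2))) (LD 3 1) (L 0) (L 0) X X)))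
(P (B 0 (L 0) (B 3 (LD 3 1) (B 2 (L 0) (B 4 (F 0 1 (LE 4 2)) (F 0 1 (F 0 5 (LE 5 2)))))))))
(P (B 0 (L 0) (B 3 (LD 3 1) (B 1 (L 0) (B 4 (F 0 2 (LE 4 1)) (F 0 2 (F 0 5 (LE 5 1)))))))))))
(P (B 0 (L 0) (B 2 (L 0) (B 3 (LD 3 1) (B 1 (LE 0 0) (F 0 4 (D 0))))))))))))))
(Q 2 4 0 (Q 2 5 0 (P (B 0 (L 0) (B 3 (LD 3 1) (B 1 (L 0) (B 2 (D 0) (F 0 4 (F 0 5 (LE 5 1))))))))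
(N 2 (Bad 2)
(N 2 (Bad 2)
(N 2 (Bad 2)
(N 2 (Q 5 10 6144 (Q 3 4 0 (P (B 0 (L 0) (B 5 (LD 5 2) (B 1 (L 0) (B 2 (F 0 3 (LE 0 1)) (F 0 3 (D 0)))))))
(Q 5 11 4096 (P (B 0 (L 0) (B 4 (LD 4 1) (B 1 (B 3 (LD 3 2) (B 2 (L 0) (F 0 5 (D 2)))) (B 2 (LE 0 0) (F 0 3 (F 0 5 (D 2))))))))
(Q 4 11 4096 (Q 3 5 0 (P (B 1 (L 0) (B 2 (LE 0 0) (B 4 (B 3 (F 1 8 (F 1 9 (LE 3 2))) (F 0 5 (F 2 12 (LE 5 1)))) (B 0 (L 0) (F 0 3 (D 0)))))))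
(P (B 0 (L 0) (B 3 (LD 3 1) (B 2 (B 1 (L 0) (F 0 5 (LE 5 1))) (B 1 (B 5 (LE 5 2) (F 0 4 (LE 4 2))) (F 0 4 (F 0 5 (F 2 12 (LE 5 1))))))))))
(Q 3 5 0 (N 5 (Bad 5)
(N 5 (Bad 5)
(N 5 (P (B 2 (LD 0 5) (B 4 (LD 4 1) (B 5 (F 0 1 (F 2 11 (F 2 12 (L 0)))) (B 0 (L 0) (F 0 1 (F 0 3 (LE 3 2))))))))
(P (B 0 (L 0) (B 3 (LD 3 1) (B 5 (LD 0 2) (B 2 (F 0 1 (L 0)) (F 0 1 (F 0 4 (L 4)))))))))))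
(P (B 0 (L 0) (B 3 (LD 3 1) (B 5 (LD 5 2) (B 2 (F 0 1 (L 0)) (F 0 1 (F 0 4 (L 4))))))))))))
(Q 3 5 0 (Q 3 10 6144 (Q 4 10 0 (P (B 0 (L 0) (B 1 (L 0) (B 2 (B 3 (LE 0 1) (F 0 5 (LE 5 1))) (B 3 (F 0 4 (F 1 8 (F 1 9 (LE 3 2)))) (F 0 4 (F 0 5 (LE 5 1))))))))
(Q 4 11 4096 (P (B 0 (L 0) (B 1 (L 0) (B 2 (LE 0 0) (B 3 (F 0 4 (F 1 8 (F 1 9 (F 2 12 (L 4))))) (F 0 4 (F 0 5 (LE 5 1))))))))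
(N 5 (Bad 5)
(N 5 (Bad 5)
(N 5 (Bad 5)
(N 5 (Q 3 4 0 (P (B 0 (L 0) (B 1 (L 0) (B 3 (F 0 2 (LE 0 1)) (B 2 (F 0 5 (LE 0 1)) (F 0 4 (F 0 5 (LE 0 1))))))))
(Q 3 11 4096 (P (B 0 (L 0) (B 4 (LD 4 1) (B 1 (B 5 (LD 0 2) (B 2 (LE 0 5) (F 0 3 (D 2)))) (B 3 (F 0 2 (LE 0 1)) (F 0 2 (F 0 5 (LE 0 1))))))))
(P (B 0 (L 0) (B 1 (L 0) (B 2 (B 3 (LE 3 1) (F 0 5 (LE 0 1))) (B 3 (F 0 4 (F 1 8 (F 1 9 (LE 4 2)))) (F 0 4 (F 0 5 (LE 0 1))))))))))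
(P (B 0 (L 0) (B 5 (L 0) (B 1 (L 0) (B 2 (F 0 3 (LE 0 1)) (F 0 3 (F 0 4 (F 1 8 (F 1 9 (LE 4 2))))))))))))))))
(P (B 0 (L 0) (B 4 (LD 4 1) (B 1 (LD 0 2) (B 3 (F 0 2 (LE 3 1)) (F 0 2 (F 0 5 (LE 5 1)))))))))
(P (B 0 (L 0) (B 3 (LD 3 1) (B 1 (L 0) (B 2 (F 0 5 (LE 5 1)) (F 0 4 (F 0 5 (LE 5 1))))))))))
(N 2 (Q 3 5 0 (P (B 0 (L 0) (B 4 (LD 4 1) (B 2 (L 0) (B 3 (F 0 1 (LE 3 2)) (F 0 1 (F 0 5 (LE 5 2))))))))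
(P (B 0 (L 0) (B 3 (LD 3 1) (B 5 (L 5) (B 2 (F 0 1 (L 0)) (F 0 1 (F 0 4 (L 4)))))))))
(P (B 0 (L 0) (S 0 (L 5) (LD 4 1) (LD 3 1) (L 0) (L 0) X X)))))))))
(Q 2 5 0 (N 2 (Bad 2)
(N 2 (Bad 2)
(N 2 (Bad 2)
(N 2 (Q 3 5 0 (P (B 0 (L 0) (B 4 (LD 4 1) (B 1 (L 0) (B 2 (F 0 3 (LE 0 1)) (F 0 3 (D 0)))))))
(Q 5 10 6144 (Q 5 11 4096 (P (B 0 (L 0) (S 0 (F 2 12 (L 12)) (LD 4 1) (LD 3 1) (L 0) (L 0) X X)))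
(N 5 (Bad 5)
(N 5 (Bad 5)
(N 5 (Q 3 10 0 (P (B 0 (L 0) (B 2 (LE 0 5) (S 2 (LD 12 5) (LD 11 5) (F 0 1 (F 0 4 (LE 4 2))) (LE 0 2) X X X))))
(Q 4 10 0 (P (B 0 (L 0) (B 2 (LE 0 5) (S 2 (LD 12 5) (LD 11 5) (F 0 1 (F 0 3 (LE 3 2))) (LE 0 2) X X X))))
(Q 3 11 4096 (P (B 2 (LE 0 5) (S 2 (L 12) (LD 11 0) (LD 10 0) (LE 0 2) (L 0) X X)))
(Q 4 11 4096 (P (B 2 (LE 0 5) (S 2 (L 12) (LD 11 0) (LD 10 0) (LE 0 2) (L 0) X X)))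
(P (B 0 (L 0) (S 0 (LE 0 2) (LD 4 1) (LD 3 1) (B 1 (LE 0 5) (B 3 (LE 3 1) (F 0 4 (LE 4 1)))) (L 0) X X)))))))
(P (B 0 (L 0) (S 0 (LE 0 2) (LD 4 1) (LD 3 1) (L 0) (L 0) X X)))))))
(N 5 (Bad 5)
(N 5 (Bad 5)
(N 5 (Bad 5)
(N 5 (Q 3 4 0 (Q 3 10 6144 (Q 3 11 4096 (P (B 0 (L 0) (B 4 (LD 4 1) (B 2 (LE 0 0) (B 3 (F 2 5 (F 2 12 (LD 0 1))) (F 0 1 (F 0 5 (L 0))))))))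
(Q 4 13 49152 (Q 4 14 32768 (P (B 0 (L 0) (B 3 (LD 3 1) (B 2 (B 4 (F 5 15 (LD 0 1)) (F 0 1 (L 0))) (B 5 (LE 0 0) (F 0 1 (F 0 4 (D 5))))))))
(P (B 0 (L 0) (B 1 (L 0) (S 1 (LE 9 0) (LE 8 0) (B 2 (F 0 3 (LE 3 1)) (F 0 3 (F 0 5 (LE 0 1)))) (B 2 (F 0 4 (LE 0 1)) (F 0 4 (F 0 5 (LE 4 1)))) X X X)))))
(P (B 0 (L 0) (B 1 (L 0) (S 1 (LE 9 0) (LE 8 0) (B 2 (F 0 3 (LE 3 1)) (F 0 3 (F 0 5 (LE 0 1)))) (B 2 (F 0 4 (LE 0 1)) (F 0 4 (F 0 5 (LE 4 1)))) X X X))))))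
(Q 4 13 49152 (Q 4 10 6144 (P (B 0 (L 0) (B 1 (L 0) (S 1 (LE 9 0) (LE 8 0) (B 2 (F 0 3 (LE 3 1)) (F 0 3 (F 0 5 (LE 0 1)))) (B 2 (F 0 4 (LE 0 1)) (F 0 4 (F 0 5 (LE 0 1)))) X X X))))
(P (B 0 (L 0) (B 1 (L 0) (B 2 (B 3 (LE 3 1) (F 0 4 (LE 4 1))) (B 5 (LE 0 0) (F 0 3 (D 0))))))))
(P (B 0 (L 0) (B 1 (L 0) (S 1 (LE 9 0) (LE 8 0) (B 2 (F 0 3 (LE 3 1)) (F 0 3 (F 0 5 (LE 0 1)))) (B 2 (F 0 4 (LE 0 1)) (F 0 4 (F 0 5 (LE 4 1)))) X X X))))))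
(P (B 0 (L 0) (B 3 (LD 3 1) (B 4 (LD 4 1) (B 2 (F 0 1 (L 0)) (F 0 1 (F 0 5 (L 0)))))))))
(N 5 (Q 3 4 0 (P (B 0 (L 0) (B 5 (L 0) (B 1 (LD 0 2) (B 2 (LE 0 0) (F 0 3 (D 0)))))))
(P (B 0 (L 0) (B 3 (LD 3 1) (B 4 (LD 4 1) (B 2 (F 0 1 (L 0)) (F 0 1 (F 0 5 (L 0)))))))))
(P (B 0 (L 0) (S 0 (L 0) (LD 4 1) (LD 3 1) (L 0) (L 0) X X))))))))))
(N 2 (Q 3 5 0 (P (B 0 (L 0) (B 4 (LD 4 1) (B 1 (L 0) (B 2 (F 0 3 (LE 0 1)) (F 0 3 (D 0)))))))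
(Q 3 4 0 (Q 3 10 14336 (Q 3 11 12288 (Q 3 12 8192 (P (B 0 (L 0) (B 4 (LD 4 1) (B 3 (LD 0 1) (B 2 (F 0 1 (L 0)) (F 0 1 (F 0 5 (L 5))))))))
(N 3 (P (B 0 (L 0) (B 3 (LD 0 1) (S 0 (LE 5 0) (LD 4 1) (F 3 4 (F 3 6 (LE 0 1))) (LE 0 3) X X X))))
(P (B 0 (L 0) (B 4 (LD 4 1) (B 3 (LD 0 1) (B 2 (F 0 1 (L 0)) (F 0 1 (F 0 5 (L 5))))))))))
(N 3 (Bad 3)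
(N 3 (P (B 0 (L 0) (B 3 (LD 0 1) (S 0 (LE 5 0) (LD 4 1) (B 4 (LD 0 1) (F 0 1 (D 3))) (LE 0 3) X X X))))
(P (B 0 (L 0) (B 4 (LD 4 1) (B 3 (LD 0 1) (B 2 (F 0 1 (L 0)) (F 0 1 (F 0 5 (L 5)))))))))))
(P (B 1 (L 0) (B 2 (B 3 (LE 3 1) (F 0 4 (LE 0 1))) (B 5 (LE 5 0) (B 0 (L 0) (F 0 3 (D 0))))))))
(P (B 0 (L 0) (B 3 (LD 3 1) (B 4 (LD 4 1) (B 2 (F 0 1 (L 0)) (F 0 1 (F 0 5 (L 5))))))))))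
(P (B 0 (L 0) (S 0 (L 5) (LD 4 1) (LD 3 1) (L 0) (L 0) X X))))))))
(N 2 (Bad 2)
(N 2 (Bad 2)
(N 2 (Bad 2)
(N 2 (Bad 2)
(N 2 (Q 5 10 14336 (Q 3 4 0 (Q 3 5 0 (P (B 0 (L 0) (S 0 (LD 5 2) (LD 4 1) (B 2 (LD 0 1) (F 0 1 (LE 3 2))) (L 0) (L 0) X X)))
(Q 3 10 0 (P (B 2 (L 0) (B 0 (L 0) (S 2 (LE 13 0) (LE 12 0) (LE 11 0) (F 0 1 (F 0 4 (L 4))) X X X))))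
(Q 3 11 12288 (Q 3 12 8192 (P (B 0 (L 0) (B 4 (LD 4 1) (B 2 (L 0) (B 3 (F 2 10 (F 0 1 (F 2 13 (L 0)))) (F 0 1 (F 0 5 (LE 5 2))))))))
(N 3 (Bad 3)
(N 3 (P (B 0 (L 0) (B 1 (LD 0 3) (B 2 (LD 0 3) (B 3 (F 0 5 (F 2 12 (F 2 13 (LE 5 1)))) (F 0 4 (F 0 5 (LE 5 1))))))))
(P (B 0 (L 0) (B 5 (LD 5 2) (B 3 (B 1 (LD 0 2) (F 0 2 (LE 0 1))) (B 2 (LE 0 0) (F 0 1 (F 0 4 (LE 4 2)))))))))))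
(P (B 0 (L 0) (B 5 (LD 5 2) (B 1 (L 0) (B 3 (F 0 2 (LE 3 1)) (F 0 2 (F 0 4 (LE 0 1)))))))))))
(Q 3 5 0 (P (B 2 (L 0) (B 0 (L 0) (B 4 (LD 4 1) (B 3 (F 0 1 (LE 3 2)) (F 0 1 (F 0 5 (LE 5 2))))))))
(Q 5 11 12288 (Q 5 12 8192 (P (B 0 (L 0) (B 3 (LD 3 1) (B 1 (B 2 (L 0) (B 5 (D 2) (F 0 4 (LE 4 2)))) (B 2 (LE 0 0) (F 0 4 (F 0 5 (D 2))))))))
(P (B 0 (L 0) (B 3 (LD 3 1) (B 4 (LD 4 1) (B 2 (B 1 (L 0) (F 0 5 (LE 5 1))) (F 0 1 (F 0 5 (F 2 12 (F 2 13 (L 5)))))))))))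
(P (B 0 (L 0) (B 3 (LD 3 1) (B 4 (LD 4 1) (B 5 (B 1 (LD 5 2) (F 0 2 (LE 5 1))) (F 0 1 (F 0 2 (L 0)))))))))))
(Q 3 4 0 (Q 3 5 0 (P (B 0 (L 0) (B 1 (L 0) (B 2 (LE 0 1) (B 3 (D 0) (F 0 4 (F 0 5 (LE 5 1))))))))
(N 5 (Bad 5)
(N 5 (Bad 5)
(N 5 (Bad 5)
(N 5 (Bad 5)
(N 5 (P (B 2 (L 0) (B 5 (LE 0 2) (B 1 (B 3 (LE 3 2) (F 0 4 (LE 4 2))) (B 0 (L 0) (F 0 3 (D 0)))))))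
(P (B 0 (L 0) (B 5 (L 0) (B 1 (L 0) (B 2 (LE 0 0) (F 0 3 (D 0)))))))))))))
(Q 3 5 0 (P (B 0 (L 0) (B 4 (LD 4 1) (B 1 (L 0) (B 3 (F 0 2 (LE 0 1)) (F 0 2 (F 0 5 (LE 5 1))))))))
(P (B 0 (L 0) (B 3 (LD 3 1) (B 4 (LD 4 1) (B 1 (B 2 (L 0) (F 0 5 (LE 5 2))) (F 0 2 (F 0 5 (LE 5 1)))))))))))
(N 2 (Q 3 5 0 (P (B 0 (L 0) (B 2 (L 0) (B 4 (LD 4 1) (B 3 (F 0 1 (LE 3 2)) (F 0 1 (F 0 5 (LE 5 2))))))))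
(Q 3 4 0 (P (B 0 (L 0) (B 2 (L 0) (S 0 (LE 5 2) (LD 4 1) (B 1 (LE 3 2) (F 0 5 (LE 5 1))) (LE 0 2) X X X))))
(Q 5 10 30720 (P (B 0 (L 0) (B 2 (L 0) (B 5 (LE 5 2) (B 1 (B 3 (LE 3 2) (F 0 4 (LE 4 2))) (F 0 3 (F 0 4 (F 1 8 (F 1 9 (LE 3 2))))))))))
(P (B 0 (L 0) (B 3 (LD 3 1) (B 4 (LD 4 1) (B 2 (B 1 (L 0) (F 0 5 (LE 5 1))) (F 0 1 (F 0 5 (LE 5 2)))))))))))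
(P (B 0 (L 0) (B 2 (L 0) (S 0 (L 5) (LD 4 1) (LD 3 1) (L 0) X X X))))))))))))))))))
(Q 5 6 0 (Q 2 4 0 (P (B 0 (L 0) (B 1 (L 0) (S 1 (LE 9 0) (LE 8 0) (LE 7 0) (F 0 2 (D 0)) X X X))))
(Q 2 3 0 (Q 2 5 0 (N 2 (Bad 2)
(N 2 (Bad 2)
(N 2 (P (B 0 (LE 0 2) (S 0 (LD 5 1) (L 4) (LD 3 1) (LE 0 0) (L 0) X X)))
(P (B 0 (L 0) (S 0 (LD 5 1) (L 4) (LD 3 1) (LE 0 0) (L 0) X X))))))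
(N 2 (Bad 2)
(N 2 (Bad 2)
(N 2 (Bad 2)
(N 2 (Q 3 4 0 (P (B 0 (L 0) (B 5 (LD 5 1) (B 1 (L 0) (B 2 (F 0 4 (LE 0 1)) (F 0 3 (D 0)))))))
(Q 4 10 6144 (Q 3 5 0 (P (B 0 (L 0) (B 4 (LD 4 2) (B 1 (L 0) (B 2 (F 0 5 (LE 0 1)) (F 0 3 (D 0)))))))
(Q 3 10 0 (Q 3 11 4096 (P (B 0 (L 0) (S 0 (LD 5 1) (LD 4 2) (F 2 12 (LD 12 1)) (L 0) (L 0) X X)))
(N 3 (Bad 3)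
(N 3 (P (B 0 (L 0) (B 2 (LE 0 3) (B 10 (F 0 1 (F 0 5 (F 3 13 (LE 0 2)))) (B 3 (LD 0 1) (F 2 11 (F 2 12 (F 3 6 (D 0)))))))))
(P (B 0 (L 0) (S 0 (LD 5 1) (LD 4 2) (LD 0 1) (L 0) (L 0) X X))))))
(Q 5 10 0 (Q 3 11 4096 (P (B 2 (L 0) (B 10 (B 0 (L 10) (F 0 1 (F 0 3 (L 3)))) (B 0 (LE 0 2) (B 12 (LE 12 0) (F 2 3 (D 2)))))))
(N 3 (Bad 3)
(N 3 (Bad 3)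
(N 3 (P (B 0 (L 0) (B 1 (LD 0 3) (S 1 (LE 9 0) (LE 8 0) (LE 7 0) (F 0 2 (F 0 4 (L 0))) X X X))))
(P (B 0 (L 0) (S 0 (LD 5 1) (LD 4 2) (LD 0 1) (L 0) (L 0) X X)))))))
(Q 3 11 4096 (Q 3 12 0 (P (B 0 (L 0) (B 5 (LD 5 1) (B 3 (F 2 10 (F 0 1 (L 0))) (B 2 (LE 0 0) (F 0 1 (F 0 4 (F 2 11 (F 2 12 (L 4))))))))))
(N 3 (Bad 3)
(N 3 (P (B 0 (L 0) (B 3 (LD 0 1) (B 6 (F 0 2 (F 0 4 (L 0))) (B 13 (LD 13 1) (F 3 2 (D 3)))))))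
(P (B 0 (L 0) (S 0 (LD 5 1) (LD 4 2) (LD 0 1) (L 0) (L 0) X X))))))
(N 3 (Bad 3)
(N 3 (Bad 3)
(N 3 (P (B 0 (L 0) (B 1 (LD 0 3) (S 1 (LE 9 0) (LE 8 0) (LE 7 0) (F 0 2 (F 0 4 (L 0))) X X X))))
(P (B 0 (L 0) (S 0 (LD 5 1) (LD 4 2) (LD 0 1) (L 0) (L 0) X X))))))))))
(P (B 0 (L 0) (B 1 (L 0) (S 1 (LE 9 0) (LE 8 0) (LE 7 0) (F 0 2 (F 0 4 (L 4))) X X X))))))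
(P (B 1 (L 0) (B 0 (L 0) (S 1 (LE 9 0) (LE 8 0) (LE 7 0) (F 0 2 (F 0 4 (L 0))) X X X)))))))))
(Q 4 5 0 (Q 5 7 768 (Q 5 8 512 (P (B 0 (L 0) (B 1 (L 0) (S 0 (D 1) (LE 4 0) (LE 3 1) (LE 2 1) X X X))))
(Q 2 5 0 (P (B 0 (L 0) (B 3 (LD 3 1) (B 1 (L 0) (B 2 (F 0 4 (LE 2 1)) (F 0 4 (D 0)))))))
(P (B 0 (L 0) (B 1 (L 0) (S 1 (LE 9 0) (LE 8 0) (LE 7 0) (F 0 2 (F 0 4 (L 2))) X X X))))))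
(Q 2 5 0 (P (B 0 (L 0) (B 3 (LD 3 1) (B 1 (L 0) (B 2 (F 0 4 (LE 2 1)) (F 0 4 (D 0)))))))
(P (B 0 (L 0) (B 1 (L 0) (S 1 (LE 9 0) (LE 8 0) (LE 7 0) (F 0 2 (F 0 4 (L 2))) X X X))))))
(Q 2 5 0 (N 2 (Bad 2)
(N 2 (Bad 2)
(N 2 (Bad 2)
(N 2 (Q 4 10 6144 (Q 3 4 0 (Q 3 5 0 (P (B 0 (L 0) (B 4 (LD 4 2) (B 1 (L 0) (B 2 (F 0 3 (LE 0 1)) (F 0 3 (D 0)))))))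
(Q 5 7 768 (P (B 1 (L 0) (B 2 (LE 0 0) (B 5 (F 1 8 (F 1 9 (LE 8 0))) (B 0 (L 0) (F 0 3 (D 0)))))))
(Q 4 11 4096 (P (B 0 (L 0) (B 5 (LD 5 1) (B 1 (B 3 (LD 3 2) (B 2 (L 0) (F 0 4 (D 2)))) (B 2 (LE 0 0) (F 0 3 (D 0)))))))
(P (B 1 (L 0) (B 0 (L 0) (S 1 (LE 9 0) (LE 8 0) (LE 7 0) (F 0 2 (F 0 4 (L 4))) X X X)))))))
(P (B 0 (L 0) (B 3 (LD 3 1) (B 4 (LD 4 2) (B 1 (LE 0 0) (F 0 2 (D 0))))))))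
(P (B 0 (L 0) (B 1 (L 0) (S 1 (LE 9 0) (LE 8 0) (LE 7 0) (F 0 2 (F 0 4 (L 4))) X X X)))))
(P (B 1 (L 0) (B 0 (L 0) (S 1 (LE 9 0) (LE 8 0) (LE 7 0) (F 0 2 (F 0 4 (L 0))) X X X))))))))
(P (B 0 (L 0) (B 1 (L 0) (S 1 (LE 9 0) (LE 8 0) (LE 7 0) (F 0 2 (F 0 4 (L 2))) X X X))))))))
(Q 5 7 768 (Q 5 8 512 (Q 2 4 0 (P (B 0 (L 0) (B 3 (LD 3 1) (B 1 (L 0) (B 5 (F 1 6 (F 1 9 (LE 9 0))) (F 0 2 (D 0)))))))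
(Q 5 9 0 (P (B 0 (L 0) (B 1 (L 0) (S 0 (D 1) (LE 4 1) (LE 3 1) (LE 2 1) X X X))))
(Q 2 5 0 (P (B 0 (L 0) (B 1 (L 0) (S 0 (F 1 6 (F 0 4 (F 1 9 (L 4)))) (LE 4 1) (LE 3 1) (LE 2 0) X X X))))
(Q 3 4 0 (P (B 0 (L 0) (B 1 (L 0) (B 2 (LE 2 1) (B 3 (F 0 5 (D 1)) (F 0 4 (F 0 5 (F 1 6 (F 1 9 (L 4))))))))))
(Q 4 5 0 (P (B 0 (L 0) (B 1 (L 0) (B 2 (LE 2 1) (B 4 (F 0 3 (LE 4 1)) (F 0 3 (F 0 5 (D 1))))))))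
(P (B 0 (L 0) (B 1 (L 0) (B 2 (LE 2 1) (B 5 (F 1 6 (F 0 4 (F 1 9 (L 4)))) (F 0 3 (F 0 4 (LE 4 1)))))))))))))
(Q 2 3 0 (Q 3 4 0 (P (B 0 (L 0) (B 1 (L 0) (S 0 (LE 5 1) (LE 4 0) (F 0 5 (F 1 8 (F 1 9 (L 8)))) (LE 2 0) X X X))))
(Q 2 4 0 (P (B 0 (L 0) (B 5 (LD 5 1) (B 1 (L 0) (B 2 (D 0) (F 0 3 (F 0 4 (LE 4 1))))))))
(Q 2 5 0 (P (B 1 (L 0) (B 0 (L 0) (B 4 (LE 4 1) (B 2 (D 0) (F 0 3 (F 0 5 (F 1 8 (F 1 9 (L 3))))))))))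
(N 2 (Bad 2)
(N 2 (Bad 2)
(N 2 (Bad 2)
(N 2 (Q 4 10 6144 (Q 3 5 0 (P (B 0 (L 0) (B 4 (LD 4 2) (B 1 (L 0) (B 2 (F 0 5 (LE 0 1)) (F 0 3 (D 0)))))))
(Q 3 10 0 (Q 3 11 4096 (P (B 0 (L 0) (S 0 (LD 5 1) (LD 4 2) (F 2 12 (LD 12 1)) (L 0) (L 0) X X)))
(N 3 (Bad 3)
(N 3 (P (B 0 (L 0) (B 2 (LE 0 3) (B 10 (F 0 1 (F 0 5 (F 3 13 (LE 5 2)))) (B 3 (LD 0 1) (F 2 11 (F 2 12 (F 3 6 (F 0 4 (F 0 5 (F 3 13 (LE 4 1))))))))))))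
(P (B 0 (L 0) (S 0 (LD 5 1) (LD 4 2) (LD 0 1) (L 0) (L 0) X X))))))
(Q 5 10 0 (Q 3 11 4096 (P (B 2 (L 0) (B 10 (B 0 (L 10) (F 0 1 (F 0 3 (L 3)))) (B 0 (LE 0 2) (B 12 (LE 12 0) (F 2 3 (D 2)))))))
(N 3 (Bad 3)
(N 3 (Bad 3)
(N 3 (P (B 0 (L 0) (B 1 (LD 0 3) (B 4 (LD 4 2) (B 2 (F 0 5 (LE 0 1)) (F 0 3 (F 0 5 (F 1 8 (F 1 9 (LE 0 2))))))))))
(P (B 0 (L 0) (S 0 (LD 5 1) (LD 4 2) (LD 0 1) (L 0) (L 0) X X)))))))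
(Q 3 11 4096 (Q 3 12 0 (P (B 0 (L 0) (B 5 (LD 5 1) (B 3 (F 2 10 (F 0 1 (L 0))) (B 2 (LE 0 0) (F 0 1 (F 0 4 (F 2 11 (F 2 12 (L 4))))))))))
(N 3 (Bad 3)
(N 3 (P (B 0 (L 0) (S 0 (LD 5 1) (LD 4 2) (LD 0 1) (LE 0 3) (LD 0 3) X X)))
(P (B 0 (L 0) (S 0 (LD 5 1) (LD 4 2) (LD 0 1) (L 0) (L 0) X X))))))
(N 3 (Bad 3)
(N 3 (Bad 3)
(N 3 (Q 4 5 0 (P (B 0 (L 0) (B 1 (LD 0 3) (S 1 (LE 9 0) (LE 8 0) (B 4 (LD 4 2) (F 0 2 (D 0))) (B 2 (LE 0 0) (F 0 4 (D 0))) X X X))))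
(P (B 0 (L 0) (B 1 (LD 0 3) (B 4 (LD 4 2) (B 2 (F 0 5 (LE 5 1)) (F 0 3 (F 0 5 (F 1 8 (F 1 9 (L 5)))))))))))
(P (B 0 (L 0) (S 0 (LD 5 1) (LD 4 2) (LD 0 1) (L 0) (L 0) X X))))))))))
(Q 4 5 0 (N 4 (Bad 4)
(N 4 (Bad 4)
(N 4 (Bad 4)
(Q 5 10 6144 (Q 5 11 4096 (P (B 0 (L 0) (B 3 (LD 3 1) (B 1 (B 4 (LD 0 2) (B 2 (L 0) (F 0 5 (D 2)))) (B 4 (F 0 2 (LE 0 1)) (F 0 2 (F 0 5 (LE 0 1))))))))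
(Q 3 5 0 (P (B 0 (L 0) (B 1 (L 0) (B 3 (F 0 4 (LE 0 1)) (B 4 (F 0 2 (LE 0 1)) (F 0 2 (F 0 5 (LE 0 1))))))))
(P (B 0 (L 0) (B 3 (LD 3 1) (B 1 (LD 0 2) (B 4 (F 0 2 (LE 0 1)) (F 0 2 (F 0 5 (LE 5 1))))))))))
(P (B 0 (L 0) (B 3 (LD 3 1) (B 1 (LD 0 2) (B 4 (F 0 2 (LE 0 1)) (F 0 2 (F 0 5 (LE 5 1))))))))))))
(P (B 0 (L 0) (B 5 (LD 5 1) (B 1 (L 0) (B 2 (F 0 4 (LE 4 1)) (F 0 3 (F 0 4 (LE 4 1))))))))))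
(N 2 (Q 4 5 0 (P (B 0 (L 0) (B 3 (LD 3 1) (B 2 (L 0) (B 4 (F 0 1 (LE 4 2)) (F 0 1 (F 0 5 (LE 5 2))))))))
(P (B 0 (L 0) (B 5 (LD 5 1) (B 4 (L 4) (B 2 (F 0 1 (L 0)) (F 0 1 (F 0 3 (L 3)))))))))
(P (B 0 (L 0) (S 0 (LD 5 1) (L 4) (LD 3 1) (L 0) (L 0) X X)))))))))))
(Q 4 5 0 (Q 2 4 0 (P (B 0 (L 0) (B 3 (LD 3 1) (B 1 (L 0) (B 2 (F 0 5 (LE 2 1)) (F 0 4 (D 0)))))))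
(Q 2 5 0 (P (B 0 (L 0) (B 3 (LD 3 1) (B 1 (L 0) (B 2 (F 0 4 (LE 2 1)) (F 0 4 (D 0)))))))
(N 2 (Bad 2)
(N 2 (Bad 2)
(N 2 (Bad 2)
(N 2 (Bad 2)
(N 2 (Q 3 10 14336 (Q 3 11 12288 (P (B 0 (L 0) (B 1 (L 0) (B 2 (LE 0 1) (B 3 (F 2 12 (F 2 13 (LE 3 0))) (F 0 4 (D 0)))))))
(Q 4 10 0 (P (B 2 (L 0) (B 0 (L 0) (S 2 (LE 13 0) (LE 12 0) (LE 11 0) (F 0 1 (F 0 5 (L 5))) X X X))))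
(Q 4 11 12288 (Q 5 11 0 (P (B 0 (L 0) (B 3 (LD 3 1) (B 2 (L 0) (B 1 (B 11 (D 0) (LE 0 0)) (F 0 4 (D 0)))))))
(Q 3 4 0 (P (B 0 (L 0) (S 0 (LD 5 1) (B 1 (LD 4 2) (F 0 2 (LE 0 1))) (LD 3 1) (L 0) (L 0) X X)))
(P (B 0 (L 0) (B 3 (LD 3 1) (B 2 (L 0) (B 4 (F 0 1 (LE 4 2)) (F 0 1 (F 0 5 (LE 5 2))))))))))
(Q 3 4 0 (P (B 0 (L 0) (S 0 (LD 5 1) (B 1 (L 4) (F 0 2 (LE 4 1))) (LD 3 1) (L 0) (L 0) X X)))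
(P (B 0 (L 0) (B 3 (LD 3 1) (B 1 (L 0) (B 4 (F 0 2 (LE 4 1)) (F 0 2 (F 0 5 (LE 0 1))))))))))))
(Q 4 10 14336 (Q 5 10 0 (P (B 0 (L 0) (B 3 (LD 3 1) (B 2 (L 0) (B 1 (B 10 (D 0) (LE 0 0)) (F 0 4 (D 0)))))))
(Q 3 4 0 (P (B 0 (L 0) (S 0 (LD 5 1) (B 1 (LD 4 2) (F 0 2 (LE 0 1))) (LD 3 1) (L 0) (L 0) X X)))
(P (B 0 (L 0) (B 3 (LD 3 1) (B 2 (L 0) (B 4 (F 0 1 (LE 4 2)) (F 0 1 (F 0 5 (LE 5 2))))))))))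
(Q 5 10 14336 (Q 3 4 0 (P (B 0 (L 0) (S 0 (LD 5 1) (B 1 (L 4) (F 0 2 (LE 4 1))) (LD 3 1) (L 0) (L 0) X X)))
(P (B 0 (L 0) (B 3 (LD 3 1) (B 1 (L 0) (B 4 (F 0 2 (LE 4 1)) (F 0 2 (F 0 5 (LE 0 1)))))))))
(P (B 0 (L 0) (B 3 (LD 3 1) (B 1 (L 0) (B 4 (F 0 2 (LE 4 1)) (F 0 2 (F 0 5 (LE 5 1)))))))))))
(P (B 0 (L 0) (B 2 (L 0) (B 3 (LD 3 1) (B 1 (LE 0 0) (F 0 4 (D 0))))))))))))))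
(Q 2 4 0 (Q 2 5 0 (P (B 0 (L 0) (B 3 (LD 3 1) (B 1 (L 0) (B 2 (D 0) (F 0 4 (F 0 5 (LE 4 1))))))))
(N 2 (Bad 2)
(N 2 (Bad 2)
(N 2 (Bad 2)
(N 2 (Q 3 4 0 (P (B 0 (L 0) (B 5 (LD 5 1) (B 1 (L 0) (B 2 (F 0 3 (LE 0 1)) (F 0 3 (D 0)))))))
(Q 4 10 6144 (Q 4 11 4096 (P (B 0 (L 0) (S 0 (LD 5 1) (F 2 12 (L 12)) (LD 3 1) (L 0) (L 0) X X)))
(N 4 (Bad 4)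
(N 4 (Bad 4)
(N 4 (Q 3 10 0 (P (B 0 (L 0) (B 2 (LE 0 4) (S 2 (LD 12 4) (LD 11 4) (F 0 1 (F 0 5 (LE 5 2))) (LE 0 2) X X X))))
(Q 5 10 0 (P (B 0 (L 0) (B 2 (LE 0 4) (S 2 (LD 12 4) (LD 11 4) (F 0 1 (F 0 3 (LE 3 2))) (LE 0 2) X X X))))
(Q 3 11 4096 (P (B 2 (LE 0 4) (S 2 (L 12) (LD 11 0) (LD 10 0) (LE 0 2) (L 0) X X)))
(Q 5 11 4096 (P (B 2 (LE 0 4) (S 2 (L 12) (LD 11 0) (LD 10 0) (LE 0 2) (L 0) X X)))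
(P (B 0 (L 0) (S 0 (LD 5 1) (LE 0 2) (LD 3 1) (B 1 (LE 0 4) (B 3 (LE 3 1) (F 0 5 (LE 5 1)))) (L 0) X X)))))))
(P (B 0 (L 0) (S 0 (LD 5 1) (LE 0 2) (LD 3 1) (L 0) (L 0) X X)))))))
(N 4 (Bad 4)
(N 4 (Bad 4)
(N 4 (Bad 4)
(N 4 (Q 3 5 0 (Q 3 10 6144 (Q 3 11 4096 (P (B 0 (L 0) (B 5 (LD 5 1) (B 2 (LE 0 0) (B 3 (F 2 4 (F 2 12 (LD 0 1))) (F 0 1 (F 0 4 (L 0))))))))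
(Q 5 13 49152 (Q 5 14 32768 (P (B 0 (L 0) (B 3 (LD 3 1) (B 2 (B 5 (F 4 15 (LD 0 1)) (F 0 1 (L 0))) (B 4 (LE 0 0) (F 0 1 (F 0 5 (D 4))))))))
(P (B 0 (L 0) (B 1 (L 0) (S 1 (LE 9 0) (LE 8 0) (B 2 (F 0 3 (LE 3 1)) (F 0 3 (F 0 4 (LE 0 1)))) (B 2 (F 0 5 (LE 0 1)) (F 0 4 (F 0 5 (LE 5 1)))) X X X)))))
(P (B 0 (L 0) (B 1 (L 0) (S 1 (LE 9 0) (LE 8 0) (B 2 (F 0 3 (LE 3 1)) (F 0 3 (F 0 4 (LE 0 1)))) (B 2 (F 0 5 (LE 0 1)) (F 0 4 (F 0 5 (LE 5 1)))) X X X))))))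
(Q 5 13 49152 (Q 5 10 6144 (P (B 0 (L 0) (B 1 (L 0) (S 1 (LE 9 0) (LE 8 0) (B 2 (F 0 3 (LE 3 1)) (F 0 3 (F 0 4 (LE 0 1)))) (B 2 (F 0 5 (LE 0 1)) (F 0 4 (F 0 5 (LE 0 1)))) X X X))))
(P (B 0 (L 0) (B 1 (L 0) (B 2 (B 3 (LE 3 1) (F 0 5 (LE 5 1))) (B 4 (LE 0 0) (F 0 3 (D 0))))))))
(P (B 0 (L 0) (B 1 (L 0) (S 1 (LE 9 0) (LE 8 0) (B 2 (F 0 3 (LE 3 1)) (F 0 3 (F 0 4 (LE 0 1)))) (B 2 (F 0 5 (LE 0 1)) (F 0 4 (F 0 5 (LE 5 1)))) X X X))))))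
(P (B 0 (L 0) (B 3 (LD 3 1) (B 5 (LD 5 1) (B 2 (F 0 1 (L 0)) (F 0 1 (F 0 4 (L 0)))))))))
(N 4 (Q 3 5 0 (P (B 0 (L 0) (B 4 (L 0) (B 1 (LD 0 2) (B 2 (LE 0 0) (F 0 3 (D 0)))))))
(P (B 0 (L 0) (B 3 (LD 3 1) (B 5 (LD 5 1) (B 2 (F 0 1 (L 0)) (F 0 1 (F 0 4 (L 0)))))))))
(P (B 0 (L 0) (S 0 (LD 5 1) (L 0) (LD 3 1) (L 0) (L 0) X X))))))))))
(N 2 (Q 3 4 0 (P (B 0 (L 0) (B 2 (L 0) (B 5 (LD 5 1) (B 1 (LE 0 0) (F 0 3 (D 0)))))))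
(Q 3 5 0 (Q 3 10 14336 (Q 3 11 12288 (Q 3 12 8192 (P (B 0 (L 0) (B 5 (LD 5 1) (B 3 (LD 0 1) (B 2 (F 0 1 (L 0)) (F 0 1 (F 0 4 (L 4))))))))
(N 3 (P (B 0 (L 0) (B 3 (LD 0 1) (S 0 (LD 5 1) (LE 4 0) (F 3 5 (F 3 6 (LE 0 1))) (LE 0 3) X X X))))
(P (B 0 (L 0) (B 5 (LD 5 1) (B 3 (LD 0 1) (B 2 (F 0 1 (L 0)) (F 0 1 (F 0 4 (L 4))))))))))
(N 3 (Bad 3)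
(N 3 (P (B 0 (L 0) (B 3 (LD 0 1) (S 0 (LD 5 1) (LE 4 0) (B 5 (LD 0 1) (F 0 1 (D 3))) (LE 0 3) X X X))))
(P (B 0 (L 0) (B 5 (LD 5 1) (B 3 (LD 0 1) (B 2 (F 0 1 (L 0)) (F 0 1 (F 0 4 (L 4)))))))))))
(P (B 1 (L 0) (B 2 (B 3 (LE 3 1) (F 0 5 (LE 0 1))) (B 4 (LE 4 0) (B 0 (L 0) (F 0 3 (D 0))))))))
(P (B 0 (L 0) (B 3 (LD 3 1) (B 5 (LD 5 1) (B 2 (F 0 1 (L 0)) (F 0 1 (F 0 4 (L 4))))))))))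
(P (B 0 (L 0) (S 0 (LD 5 1) (L 4) (LD 3 1) (L 0) (L 0) X X)))))))))
(Q 2 5 0 (N 2 (Bad 2)
(N 2 (Bad 2)
(N 2 (Bad 2)
(N 2 (Q 4 10 6144 (Q 3 5 0 (P (B 0 (L 0) (B 4 (LD 4 2) (B 1 (L 0) (B 2 (F 0 3 (LE 0 1)) (F 0 3 (D 0)))))))
(Q 4 11 4096 (P (B 0 (L 0) (B 5 (LD 5 1) (B 1 (B 3 (LD 3 2) (B 2 (L 0) (F 0 4 (D 2)))) (B 2 (LE 0 0) (F 0 3 (F 0 4 (D 2))))))))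
(Q 5 11 4096 (Q 3 4 0 (P (B 1 (L 0) (B 2 (LE 0 0) (B 5 (B 3 (F 1 8 (F 1 9 (LE 3 2))) (F 0 4 (F 2 12 (LE 4 1)))) (B 0 (L 0) (F 0 3 (D 0)))))))
(P (B 0 (L 0) (B 3 (LD 3 1) (B 2 (B 1 (L 0) (F 0 4 (LE 4 1))) (B 1 (B 4 (LE 4 2) (F 0 5 (LE 5 2))) (F 0 4 (F 0 5 (F 2 12 (LE 4 1))))))))))
(Q 3 4 0 (N 4 (Bad 4)
(N 4 (Bad 4)
(N 4 (P (B 2 (LD 0 4) (B 5 (LD 5 1) (B 4 (F 0 1 (F 2 11 (F 2 12 (L 0)))) (B 0 (L 0) (F 0 1 (F 0 3 (LE 3 2))))))))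
(P (B 0 (L 0) (B 3 (LD 3 1) (B 4 (LD 0 2) (B 2 (F 0 1 (L 0)) (F 0 1 (F 0 5 (L 5)))))))))))
(P (B 0 (L 0) (B 3 (LD 3 1) (B 4 (LD 4 2) (B 2 (F 0 1 (L 0)) (F 0 1 (F 0 5 (L 5))))))))))))
(Q 3 4 0 (Q 3 10 6144 (Q 5 10 0 (P (B 0 (L 0) (B 1 (L 0) (B 4 (B 2 (LE 4 1) (F 0 5 (LE 4 1))) (S 1 (B 3 (LD 9 2) (F 0 2 (D 0))) (B 3 (LD 8 2) (F 0 2 (D 0))) (F 0 2 (F 0 3 (LE 0 1))) (F 0 2 (D 0)) X X X)))))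
(N 4 (Bad 4)
(N 4 (Bad 4)
(N 4 (Bad 4)
(N 4 (Q 3 5 0 (P (B 0 (L 0) (B 1 (L 0) (B 3 (F 0 2 (LE 0 1)) (B 2 (F 0 4 (LE 0 1)) (F 0 4 (F 0 5 (LE 0 1))))))))
(Q 3 11 4096 (P (B 0 (L 0) (B 5 (LD 5 1) (B 1 (B 4 (LD 0 2) (B 2 (LE 0 4) (F 0 3 (D 2)))) (B 3 (F 0 2 (LE 0 1)) (F 0 2 (F 0 4 (LE 0 1))))))))
(P (B 0 (L 0) (B 1 (L 0) (B 2 (B 3 (LE 3 1) (F 0 4 (LE 0 1))) (B 3 (F 0 5 (F 1 8 (F 1 9 (LE 5 2)))) (F 0 4 (F 0 5 (LE 0 1))))))))))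
(P (B 0 (L 0) (B 4 (L 0) (B 1 (L 0) (B 2 (F 0 3 (LE 0 1)) (F 0 3 (F 0 5 (F 1 8 (F 1 9 (LE 5 2)))))))))))))))
(P (B 0 (L 0) (B 5 (LD 5 1) (B 1 (LD 0 2) (B 3 (F 0 2 (LE 3 1)) (F 0 2 (F 0 4 (LE 4 1)))))))))
(P (B 0 (L 0) (B 3 (LD 3 1) (B 1 (L 0) (B 2 (F 0 4 (LE 4 1)) (F 0 4 (F 0 5 (LE 4 1))))))))))
(N 2 (Q 3 4 0 (P (B 0 (L 0) (B 5 (LD 5 1) (B 2 (L 0) (B 3 (F 0 1 (LE 3 2)) (F 0 1 (F 0 4 (LE 4 2))))))))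
(P (B 0 (L 0) (B 3 (LD 3 1) (B 4 (L 4) (B 2 (F 0 1 (L 0)) (F 0 1 (F 0 5 (L 5)))))))))
(P (B 0 (L 0) (S 0 (LD 5 1) (L 4) (LD 3 1) (L 0) (L 0) X X))))))))
(N 2 (Bad 2)
(N 2 (Bad 2)
(N 2 (Bad 2)
(N 2 (Bad 2)
(N 2 (Q 4 10 14336 (Q 3 4 0 (P (B 0 (L 0) (B 5 (LD 5 1) (B 2 (L 0) (B 3 (F 0 1 (LE 3 2)) (F 0 1 (F 0 4 (LE 4 2))))))))
(Q 3 5 0 (P (B 2 (L 0) (B 0 (L 0) (B 4 (LE 4 2) (B 3 (F 0 1 (LE 3 2)) (F 0 1 (F 0 5 (LE 5 2))))))))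
(Q 5 11 12288 (Q 3 10 0 (Q 5 10 0 (P (B 2 (L 0) (S 2 (L 13) (L 12) (LD 11 0) (F 0 0 (L 10)) (L 0) X X)))
(Q 3 12 8192 (P (B 0 (L 0) (B 4 (LD 4 2) (B 1 (B 2 (L 0) (B 3 (F 2 11 (F 2 13 (L 3))) (F 0 5 (LE 5 2)))) (B 2 (LE 0 0) (F 0 3 (F 0 5 (D 2))))))))
(Q 4 12 8192 (P (B 0 (L 0) (B 3 (LD 3 1) (B 1 (B 2 (L 0) (B 4 (F 2 11 (F 2 13 (L 4))) (F 0 5 (LE 5 2)))) (B 2 (LE 0 0) (F 0 4 (F 0 5 (D 2))))))))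
(Q 5 12 8192 (P (B 0 (L 0) (B 3 (LD 3 1) (B 1 (B 2 (L 0) (B 5 (F 2 10 (F 2 13 (L 5))) (F 0 4 (LE 4 2)))) (B 2 (LE 0 0) (F 0 4 (F 0 5 (D 2))))))))
(N 5 (Bad 5)
(N 5 (Bad 5)
(N 5 (P (B 0 (L 0) (B 2 (LD 0 5) (S 2 (LE 13 0) (LE 12 0) (LE 11 0) (F 0 1 (F 0 5 (LE 0 2))) X X X))))
(P (B 0 (L 0) (B 5 (LD 0 1) (B 3 (LD 3 1) (B 4 (LD 4 2) (F 0 1 (F 0 2 (L 0)))))))))))))))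
(Q 5 10 0 (Q 5 12 8192 (P (B 0 (L 0) (B 3 (LD 3 1) (B 1 (B 2 (L 0) (B 5 (D 2) (F 0 4 (LE 4 2)))) (B 2 (LE 0 0) (F 0 4 (F 0 5 (D 2))))))))
(N 5 (Bad 5)
(N 5 (P (B 0 (L 0) (B 2 (LD 0 5) (S 2 (LE 13 0) (LE 12 0) (LE 11 0) (F 0 1 (F 0 3 (LE 3 5))) X X X))))
(P (B 0 (L 0) (B 3 (LD 3 1) (B 4 (LD 4 2) (B 2 (B 1 (L 0) (F 0 5 (LE 0 1))) (F 0 1 (F 0 5 (F 2 12 (F 2 13 (L 0)))))))))))))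
(Q 5 12 8192 (P (B 0 (L 0) (B 3 (LD 3 1) (B 1 (B 2 (L 0) (B 5 (F 2 10 (F 2 13 (L 5))) (F 0 4 (LE 4 2)))) (B 2 (LE 0 0) (F 0 4 (F 0 5 (D 2))))))))
(N 5 (Bad 5)
(N 5 (Bad 5)
(N 5 (P (B 0 (L 0) (S 0 (LD 0 1) (LD 4 2) (LD 3 1) (LD 0 5) (LD 0 5) X X)))
(P (B 0 (L 0) (B 3 (LD 3 1) (B 4 (LD 4 2) (B 5 (B 1 (LD 0 2) (F 0 2 (LE 0 1))) (F 0 1 (F 0 2 (L 0))))))))))))))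
(Q 5 10 0 (P (B 2 (L 0) (B 0 (L 0) (S 2 (LE 13 0) (LE 12 0) (LE 11 0) (F 0 1 (F 0 3 (L 3))) X X X))))
(P (B 0 (L 0) (B 3 (LD 3 1) (B 4 (LD 4 2) (B 5 (B 2 (LD 5 1) (F 0 1 (LE 5 2))) (F 0 1 (F 0 2 (L 0))))))))))))
(Q 3 5 0 (Q 3 4 0 (P (B 0 (L 0) (B 1 (L 0) (B 2 (LE 0 1) (B 3 (D 0) (F 0 4 (F 0 5 (LE 4 1))))))))
(P (B 2 (L 0) (B 0 (L 0) (B 4 (LE 4 2) (B 3 (F 0 1 (LE 3 2)) (F 0 1 (F 0 5 (LE 5 2)))))))))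
(Q 3 4 0 (P (B 0 (L 0) (B 5 (LD 5 1) (B 1 (L 0) (B 3 (F 0 2 (LE 0 1)) (F 0 2 (F 0 4 (LE 4 1))))))))
(P (B 0 (L 0) (B 3 (LD 3 1) (B 5 (LD 5 1) (B 1 (B 2 (L 0) (F 0 4 (LE 4 2))) (F 0 2 (F 0 4 (LE 4 1)))))))))))
(N 2 (Q 3 4 0 (P (B 0 (L 0) (B 2 (L 0) (B 5 (LD 5 1) (B 3 (F 0 1 (LE 3 2)) (F 0 1 (F 0 4 (LE 4 2))))))))
(Q 3 5 0 (P (B 0 (L 0) (B 2 (L 0) (S 0 (LD 5 1) (LE 4 2) (B 1 (LE 3 2) (F 0 4 (LE 4 1))) (LE 0 2) X X X))))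
(Q 4 10 30720 (P (B 0 (L 0) (B 2 (L 0) (B 4 (LE 4 2) (B 1 (B 3 (LE 3 2) (F 0 5 (LE 5 2))) (F 0 3 (F 0 5 (F 1 8 (F 1 9 (LE 3 2))))))))))
(P (B 0 (L 0) (B 3 (LD 3 1) (B 5 (LD 5 1) (B 2 (B 1 (L 0) (F 0 4 (LE 4 1))) (F 0 1 (F 0 4 (LE 4 2)))))))))))
(P (B 0 (L 0) (B 2 (L 0) (S 0 (LD 5 1) (L 4) (LD 3 1) (L 0) X X X)))))))))))))))
(Q 2 3 0 (Q 2 4 32 (Q 2 5 0 (P (B 0 (L 0) (B 1 (L 0) (S 0 (LE 5 0) (LE 4 0) (LE 3 0) (D 0) X X X))))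
(N 2 (Bad 2)
(N 2 (Bad 2)
(N 2 (P (B 0 (LE 0 2) (B 3 (LD 3 1) (B 1 (LD 0 2) (B 5 (LD 5 2) (F 0 2 (D 0)))))))
(Q 3 4 0 (P (B 0 (L 0) (B 2 (LE 0 0) (B 1 (L 0) (B 5 (LE 5 0) (F 0 3 (D 0)))))))
(Q 4 5 0 (P (B 0 (L 0) (B 3 (LD 3 1) (B 1 (L 0) (B 2 (F 0 5 (LE 0 1)) (F 0 4 (D 0)))))))
(Q 5 10 6144 (N 2 (Q 5 11 4096 (P (B 0 (L 0) (B 5 (LD 5 2) (B 1 (L 0) (B 2 (D 0) (F 0 3 (F 0 4 (LE 4 1))))))))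
(P (B 0 (L 0) (S 0 (L 5) (L 4) (LD 3 1) (B 1 (L 0) (F 0 5 (LE 5 1))) (L 0) X X))))
(P (B 0 (L 0) (S 0 (L 5) (L 4) (LD 3 1) (LE 0 0) (L 0) X X))))
(P (B 0 (L 0) (S 0 (L 5) (L 4) (LD 3 1) (B 1 (L 0) (F 0 5 (LE 5 1))) (L 0) X X))))))))))
(N 2 (Bad 2)
(N 2 (Bad 2)
(N 2 (Bad 2)
(N 2 (Q 3 4 32 (Q 4 5 0 (P (B 0 (L 0) (B 1 (L 0) (B 3 (F 0 5 (LE 5 1)) (B 2 (LE 0 0) (F 0 4 (D 0)))))))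
(P (B 0 (L 0) (B 1 (L 0) (S 0 (LE 5 1) (LD 4 2) (F 0 5 (LE 5 1)) (LE 0 0) X X X)))))
(Q 4 5 0 (Q 3 10 6144 (Q 3 11 4096 (P (B 0 (L 0) (B 2 (L 0) (S 2 (LE 12 0) (LE 11 0) (B 4 (F 0 1 (LE 4 2)) (F 0 1 (F 0 5 (LE 5 2)))) (F 2 12 (LD 12 1)) X X X))))
(N 3 (Bad 3)
(N 3 (P (B 0 (L 0) (B 3 (LD 0 1) (S 3 (LD 13 2) (B 4 (F 0 1 (F 3 13 (LE 4 2))) (F 0 1 (F 0 5 (F 3 13 (LE 5 2))))) (LD 6 2) (LE 0 3) X X X))))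
(P (B 0 (L 0) (B 2 (L 0) (B 3 (LD 0 1) (B 4 (F 0 1 (LE 4 2)) (F 0 1 (F 0 5 (LE 5 2)))))))))))
(N 3 (Bad 3)
(N 3 (Bad 3)
(N 3 (P (B 0 (L 0) (B 3 (LD 0 1) (B 1 (B 2 (LE 0 3) (F 3 13 (F 3 14 (B 4 (LE 4 2) (F 0 5 (LE 5 2)))))) (B 2 (LE 0 0) (F 0 4 (D 0)))))))
(P (B 0 (L 0) (B 2 (L 0) (B 3 (LD 0 1) (B 4 (F 0 1 (LE 4 2)) (F 0 1 (F 0 5 (LE 5 2))))))))))))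
(Q 3 10 6144 (Q 3 11 4096 (P (B 0 (L 0) (B 3 (F 2 12 (LD 12 1)) (B 4 (LD 4 2) (B 5 (LD 5 2) (F 0 1 (F 0 2 (L 0))))))))
(N 3 (Bad 3)
(N 3 (P (B 0 (L 0) (B 1 (LD 0 3) (B 4 (LE 4 1) (B 5 (LE 5 0) (F 0 2 (D 0)))))))
(N 3 (Q 4 11 4096 (P (B 0 (L 0) (B 4 (LD 4 2) (B 1 (B 2 (LE 0 3) (B 5 (LD 5 3) (F 0 3 (LE 0 2)))) (B 5 (LE 5 0) (F 0 2 (D 0)))))))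
(P (B 0 (L 0) (B 3 (LD 0 1) (B 5 (LD 5 2) (B 4 (B 1 (LD 4 2) (F 0 2 (LE 4 1))) (F 0 1 (F 0 2 (LE 0 3)))))))))
(P (B 0 (L 0) (B 3 (LD 0 1) (B 4 (LD 4 2) (B 5 (LD 5 2) (F 0 1 (F 0 2 (L 0))))))))))))
(N 3 (Bad 3)
(N 3 (Bad 3)
(N 3 (P (B 0 (L 0) (B 1 (LD 0 3) (B 4 (LE 4 1) (B 5 (LE 5 0) (F 0 2 (D 0)))))))
(N 3 (Q 4 10 6144 (P (B 0 (L 0) (B 4 (LD 4 2) (B 1 (B 2 (L 0) (B 5 (LD 5 3) (F 0 3 (L 0)))) (B 5 (LE 5 0) (F 0 2 (D 0)))))))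
(P (B 0 (L 0) (B 3 (LD 0 1) (B 5 (LD 5 2) (B 1 (B 4 (LD 4 2) (F 0 2 (L 0))) (F 0 2 (F 0 4 (LE 4 1)))))))))
(P (B 0 (L 0) (B 3 (LD 0 1) (B 4 (LD 4 2) (B 5 (LD 5 2) (F 0 1 (F 0 2 (L 0)))))))))))))))
(N 2 (Q 4 5 0 (P (B 0 (L 0) (B 3 (LD 3 1) (B 2 (L 0) (B 4 (F 0 1 (LE 4 2)) (F 0 1 (F 0 5 (LE 5 2))))))))
(Q 3 4 32 (P (B 0 (L 0) (B 1 (L 0) (S 0 (LE 5 1) (LE 4 0) (F 0 5 (LE 5 1)) (LE 0 0) X X X))))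
(Q 3 10 14336 (Q 3 11 12288 (Q 3 12 8192 (P (B 0 (L 0) (B 3 (F 2 13 (LD 0 1)) (S 0 (L 5) (L 4) (L 0) (L 0) X X X))))
(N 3 (P (B 0 (L 0) (B 2 (F 3 6 (LE 0 0)) (B 4 (LD 4 3) (B 3 (LD 0 1) (F 0 1 (F 0 5 (F 3 10 (F 3 11 (L 5))))))))))
(P (B 0 (L 0) (S 0 (L 5) (L 4) (LD 0 1) (L 0) (L 0) X X)))))
(N 3 (Bad 3)
(N 3 (P (B 0 (L 0) (B 1 (LD 0 3) (B 4 (LE 4 1) (B 5 (LE 5 0) (F 0 2 (D 0)))))))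
(P (B 0 (L 0) (S 0 (L 5) (L 4) (LD 0 1) (L 0) (L 0) X X))))))
(N 3 (Bad 3)
(N 3 (Bad 3)
(N 3 (P (B 0 (L 0) (B 1 (LD 0 3) (B 4 (LE 4 1) (B 5 (LE 5 0) (F 0 2 (D 0)))))))
(P (B 0 (L 0) (S 0 (L 5) (L 4) (LD 0 1) (L 0) (L 0) X X)))))))))
(P (B 0 (L 0) (S 0 (L 5) (L 4) (LD 3 1) (L 0) (L 0) X X)))))))))
(Q 4 5 0 (Q 2 4 32 (P (B 0 (L 0) (B 3 (LD 3 1) (B 1 (L 0) (B 2 (F 0 5 (LE 2 1)) (F 0 4 (D 0)))))))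
(N 2 (Bad 2)
(N 2 (Bad 2)
(N 2 (Bad 2)
(N 2 (Bad 2)
(N 2 (P (B 0 (L 0) (B 3 (LD 3 1) (B 2 (L 0) (B 4 (F 0 1 (LE 4 2)) (F 0 1 (F 0 5 (LE 5 2))))))))
(P (B 0 (L 0) (B 2 (L 0) (B 3 (LD 3 1) (B 1 (LE 0 0) (F 0 4 (D 0)))))))))))))
(Q 2 4 32 (Q 2 5 0 (Q 3 4 32 (P (B 1 (L 0) (B 0 (L 0) (B 2 (F 0 3 (LE 2 1)) (B 5 (LE 5 0) (F 0 3 (D 0)))))))
(P (B 0 (L 0) (B 3 (LD 3 1) (B 2 (F 0 1 (L 2)) (B 4 (LE 4 0) (F 0 1 (F 0 5 (L 5)))))))))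
(N 2 (Bad 2)
(N 2 (Bad 2)
(N 2 (Bad 2)
(N 2 (Q 3 4 0 (Q 3 5 0 (P (B 0 (L 0) (B 1 (L 0) (B 3 (F 0 2 (LE 0 1)) (B 5 (LE 5 0) (F 0 2 (D 0)))))))
(P (B 0 (L 0) (B 3 (LD 3 1) (B 5 (L 5) (B 2 (F 0 1 (L 0)) (F 0 1 (F 0 4 (L 4)))))))))
(Q 5 10 6144 (Q 5 11 4096 (P (B 0 (L 0) (B 3 (LD 3 1) (B 1 (B 2 (L 0) (B 4 (L 4) (F 0 5 (D 2)))) (B 5 (LD 5 2) (F 0 2 (D 0)))))))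
(Q 3 5 0 (N 5 (Bad 5)
(N 5 (Bad 5)
(N 5 (P (B 5 (LD 0 2) (B 3 (LD 3 1) (B 2 (F 0 1 (F 5 13 (F 5 14 (L 0)))) (B 0 (L 0) (F 0 1 (F 0 4 (LE 4 5))))))))
(P (B 0 (L 0) (B 3 (LD 3 1) (B 5 (LD 0 2) (B 2 (F 0 1 (L 0)) (F 0 1 (F 0 4 (L 4)))))))))))
(P (B 0 (L 0) (B 3 (LD 3 1) (B 5 (LD 5 2) (B 2 (F 0 1 (L 0)) (F 0 1 (F 0 4 (L 4))))))))))
(Q 3 5 0 (N 5 (Bad 5)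
(N 5 (Bad 5)
(N 5 (Bad 5)
(N 5 (Q 4 13 49152 (P (B 5 (L 0) (B 3 (LD 3 1) (B 2 (F 0 1 (LE 0 5)) (B 0 (L 0) (F 0 1 (F 0 4 (F 5 14 (F 5 15 (L 4))))))))))
(P (B 0 (L 0) (B 3 (LD 3 1) (B 1 (LD 0 5) (B 2 (F 0 5 (LE 0 1)) (F 0 4 (F 0 5 (LE 4 1)))))))))
(P (B 0 (L 0) (B 3 (LD 3 1) (B 2 (B 1 (L 0) (F 0 5 (LE 0 1))) (B 5 (LE 0 0) (F 0 1 (F 0 4 (L 4))))))))))))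
(P (B 0 (L 0) (B 3 (LD 3 1) (B 2 (B 1 (L 0) (F 0 5 (LE 5 1))) (B 5 (LE 5 0) (F 0 1 (F 0 4 (L 4)))))))))))
(N 2 (Q 3 4 0 (P (B 0 (L 0) (S 0 (L 5) (B 1 (L 4) (F 0 5 (LE 5 1))) (LD 3 1) (L 0) (L 0) X X)))
(Q 3 5 0 (Q 5 10 14336 (Q 5 11 12288 (Q 3 10 2048 (Q 4 10 0 (P (B 0 (L 0) (B 2 (L 0) (B 10 (D 0) (B 1 (LE 0 2) (B 4 (LE 4 0) (F 0 3 (D 0))))))))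
(P (B 0 (L 0) (B 2 (L 0) (B 10 (F 0 1 (F 0 4 (L 4))) (B 1 (LE 0 2) (B 4 (LE 4 0) (F 0 3 (D 0)))))))))
(Q 3 12 8192 (Q 3 13 0 (P (B 2 (L 0) (B 1 (B 4 (L 4) (B 3 (F 2 10 (F 2 11 (L 0))) (F 0 5 (F 2 12 (F 2 13 (L 5)))))) (B 4 (LE 4 0) (B 0 (L 0) (F 0 3 (D 0)))))))
(N 3 (Bad 3)
(N 3 (P (B 0 (L 0) (B 3 (LD 0 1) (B 1 (B 5 (LD 5 2) (F 3 12 (F 0 4 (F 3 14 (L 4))))) (B 5 (LD 5 2) (F 0 2 (D 0)))))))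
(P (B 0 (L 0) (B 5 (LD 5 2) (B 3 (LD 0 1) (B 2 (F 0 1 (L 0)) (F 0 1 (F 0 4 (L 4)))))))))))
(Q 5 12 8192 (P (B 0 (L 0) (B 3 (LD 3 1) (B 2 (LE 0 0) (B 4 (LE 4 0) (F 0 1 (F 0 5 (D 2))))))))
(P (B 1 (L 0) (B 2 (B 3 (LE 3 1) (F 0 5 (LE 5 1))) (B 4 (LE 4 0) (B 0 (L 0) (F 0 3 (D 0))))))))))
(N 5 (Bad 5)
(N 5 (Bad 5)
(N 5 (P (B 2 (LD 0 5) (B 1 (LE 0 2) (B 4 (LE 4 0) (B 0 (L 0) (F 0 3 (D 0)))))))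
(P (B 0 (L 0) (B 3 (LD 3 1) (B 2 (B 1 (L 0) (F 0 5 (LE 0 1))) (B 5 (LE 0 0) (F 0 1 (F 0 4 (L 4))))))))))))
(P (B 0 (L 0) (B 1 (L 0) (B 2 (B 3 (LE 0 1) (F 0 5 (LE 5 1))) (B 4 (LE 4 0) (F 0 3 (D 0))))))))
(P (B 0 (L 0) (B 3 (LD 3 1) (B 1 (B 2 (L 0) (B 5 (LE 5 2) (F 0 4 (L 4)))) (B 5 (LE 5 0) (F 0 2 (D 0)))))))))
(P (B 0 (L 0) (S 0 (L 5) (L 4) (LD 3 1) (L 0) (L 0) X X)))))))))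
(N 2 (Bad 2)
(N 2 (Bad 2)
(N 2 (Bad 2)
(N 2 (Bad 2)
(N 2 (Q 4 10 14336 (Q 5 10 0 (P (B 2 (L 0) (B 0 (L 0) (S 2 (LE 13 0) (LE 12 0) (LE 11 0) (F 0 1 (F 0 3 (L 3))) X X X))))
(Q 5 11 12288 (Q 4 12 8192 (P (B 0 (L 0) (B 3 (LD 3 1) (B 2 (L 0) (B 4 (F 2 11 (F 0 1 (F 2 13 (L 4)))) (F 0 1 (F 0 5 (LE 5 2))))))))
(Q 5 12 8192 (P (B 0 (L 0) (B 3 (LD 3 1) (B 2 (L 0) (B 5 (F 2 10 (F 0 1 (F 2 13 (L 5)))) (F 0 1 (F 0 4 (LE 4 2))))))))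
(Q 3 10 0 (Q 3 12 8192 (P (B 0 (L 0) (B 4 (LD 4 2) (B 2 (L 0) (B 3 (F 2 11 (F 0 1 (F 2 13 (L 0)))) (F 0 1 (F 0 5 (LE 5 2))))))))
(Q 3 11 0 (P (B 1 (L 0) (B 0 (L 0) (B 2 (LE 0 1) (S 2 (B 10 (D 0) (LE 13 0)) (B 10 (D 0) (B 11 (D 0) (F 2 13 (LE 12 0)))) (D 0) (D 0) X X X)))))
(Q 4 11 0 (P (B 1 (L 0) (B 0 (L 0) (B 2 (LE 0 1) (S 2 (B 10 (D 0) (LE 13 0)) (B 10 (D 0) (B 11 (D 0) (F 2 13 (LE 12 0)))) (D 0) (D 0) X X X)))))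
(Q 3 5 0 (P (B 0 (L 0) (B 4 (LD 4 2) (B 2 (L 0) (B 3 (F 0 1 (LE 0 2)) (F 0 1 (F 0 5 (LE 5 2))))))))
(P (B 2 (L 0) (S 2 (L 13) (L 12) (LD 11 0) (B 0 (L 10) (F 0 1 (F 0 5 (LE 5 2)))) (L 0) X X)))))))
(Q 3 4 0 (P (B 0 (L 0) (B 5 (LD 5 2) (B 2 (L 0) (B 3 (F 0 1 (LE 3 2)) (F 0 1 (F 0 4 (LE 4 2))))))))
(Q 3 5 0 (N 5 (Bad 5)
(N 5 (Bad 5)
(N 5 (P (B 0 (L 0) (B 2 (LD 0 5) (B 4 (LE 4 2) (B 3 (F 0 1 (LE 3 2)) (F 0 1 (F 0 5 (LE 0 2))))))))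
(P (B 0 (L 0) (B 4 (LD 4 2) (B 5 (B 1 (LD 0 2) (F 0 2 (LE 0 1))) (B 2 (LE 0 0) (F 0 1 (F 0 3 (LE 3 2)))))))))))
(P (B 0 (L 0) (B 3 (LD 3 1) (B 4 (LD 4 2) (B 5 (B 1 (LD 5 2) (F 0 2 (LE 5 1))) (F 0 1 (F 0 2 (L 0)))))))))))))
(Q 3 4 0 (Q 3 5 0 (P (B 0 (L 0) (B 1 (L 0) (B 2 (LE 0 1) (B 3 (D 0) (F 0 4 (F 0 5 (LE 5 1))))))))
(N 5 (Bad 5)
(N 5 (Bad 5)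
(N 5 (Bad 5)
(N 5 (Bad 5)
(N 5 (P (B 2 (L 0) (B 5 (LE 0 2) (B 1 (B 3 (LE 3 2) (F 0 4 (LE 4 2))) (B 0 (L 0) (F 0 3 (D 0)))))))
(P (B 0 (L 0) (B 5 (L 0) (B 1 (L 0) (B 2 (LE 0 0) (F 0 3 (D 0)))))))))))))
(Q 3 5 0 (P (B 0 (L 0) (B 4 (LD 4 2) (B 1 (L 0) (B 3 (F 0 2 (LE 0 1)) (F 0 2 (F 0 5 (LE 5 1))))))))
(P (B 0 (L 0) (B 3 (LD 3 1) (B 4 (LD 4 2) (B 1 (B 2 (L 0) (F 0 5 (LE 5 2))) (F 0 2 (F 0 5 (LE 5 1))))))))))))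
(Q 5 10 14336 (Q 3 5 0 (P (B 2 (L 0) (B 0 (L 0) (B 4 (LE 4 2) (B 3 (F 0 1 (LE 3 2)) (F 0 1 (F 0 5 (LE 5 2))))))))
(Q 3 4 0 (P (B 0 (L 0) (B 5 (LD 5 2) (B 1 (L 0) (B 3 (F 0 2 (LE 0 1)) (F 0 2 (F 0 4 (LE 4 1))))))))
(P (B 0 (L 0) (B 3 (LD 3 1) (B 5 (LD 5 2) (B 1 (B 2 (L 0) (F 0 4 (LE 4 2))) (F 0 2 (F 0 4 (LE 4 1))))))))))
(Q 3 4 32 (N 4 (Bad 4)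
(N 4 (Bad 4)
(N 4 (Bad 4)
(N 4 (Q 5 14 98304 (P (B 0 (L 0) (B 5 (LD 5 4) (B 1 (L 0) (B 3 (F 0 2 (LE 0 1)) (F 0 2 (F 0 4 (LE 0 1))))))))
(Q 3 5 0 (P (B 0 (L 0) (B 1 (L 0) (B 2 (LE 0 1) (B 3 (D 0) (F 0 4 (F 0 5 (LE 5 1))))))))
(P (B 0 (L 0) (B 3 (LD 3 1) (B 1 (B 2 (LD 0 4) (B 5 (LD 5 4) (F 0 4 (LE 0 2)))) (B 2 (B 5 (LD 5 4) (F 0 4 (LE 0 1))) (F 0 4 (F 0 5 (LE 5 1))))))))))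
(Q 3 5 0 (P (B 0 (L 0) (B 1 (L 0) (B 2 (LE 0 1) (B 3 (D 0) (F 0 4 (F 0 5 (LE 0 1))))))))
(N 4 (Q 5 14 229376 (P (B 0 (L 0) (B 3 (LD 3 1) (B 5 (LD 5 4) (B 1 (B 2 (L 0) (F 0 4 (LE 0 2))) (F 0 2 (F 0 4 (LE 0 1))))))))
(P (B 0 (L 0) (B 3 (LD 3 1) (B 1 (B 2 (L 0) (B 4 (LE 0 2) (F 0 5 (LE 5 2)))) (B 2 (B 4 (LE 0 1) (F 0 5 (LE 5 1))) (F 0 4 (F 0 5 (LE 5 1)))))))))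
(P (B 0 (L 0) (B 3 (LD 3 1) (B 4 (L 0) (B 1 (B 2 (L 0) (F 0 5 (LE 5 2))) (F 0 2 (F 0 5 (LE 5 1))))))))))))))
(N 4 (Bad 4)
(N 4 (Bad 4)
(N 4 (Bad 4)
(N 4 (Bad 4)
(N 4 (Q 5 14 229376 (P (B 0 (L 0) (B 3 (LD 3 1) (B 5 (LD 5 4) (B 1 (B 2 (L 0) (F 0 4 (LE 0 2))) (F 0 2 (F 0 4 (LE 0 1))))))))
(P (B 0 (L 0) (B 3 (LD 3 1) (B 1 (B 2 (L 0) (B 4 (LE 0 2) (F 0 5 (LE 5 2)))) (B 2 (B 4 (LE 0 1) (F 0 5 (LE 5 1))) (F 0 4 (F 0 5 (LE 5 1)))))))))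
(P (B 0 (L 0) (B 4 (L 0) (B 3 (LD 3 1) (B 1 (B 2 (L 0) (F 0 5 (LE 5 2))) (F 0 2 (F 0 5 (LE 5 1))))))))))))))))
(N 2 (Q 3 4 32 (P (B 0 (L 0) (B 1 (L 0) (B 2 (LE 0 1) (B 5 (LE 5 0) (F 0 3 (D 0)))))))
(Q 4 10 30720 (Q 5 11 28672 (P (B 0 (L 0) (B 2 (L 0) (S 0 (LE 5 2) (LE 4 2) (LD 3 1) (B 4 (LE 4 2) (B 5 (LE 5 2) (F 0 3 (LE 3 2)))) X X X))))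
(P (B 0 (L 0) (B 3 (LD 3 1) (B 4 (L 4) (B 2 (B 1 (L 0) (F 0 5 (LE 5 1))) (F 0 1 (F 0 5 (LE 5 2)))))))))
(N 4 (Bad 4)
(N 4 (Bad 4)
(N 4 (Bad 4)
(N 4 (Bad 4)
(N 4 (Q 5 15 458752 (P (B 0 (L 0) (B 3 (LD 3 1) (B 5 (LD 5 4) (B 2 (B 1 (L 0) (F 0 4 (LE 0 1))) (F 0 1 (F 0 4 (LE 0 2))))))))
(P (B 0 (L 0) (B 2 (L 0) (B 3 (LD 3 1) (B 1 (B 4 (LE 0 2) (F 0 5 (LE 5 4))) (F 0 4 (F 0 5 (LE 5 1)))))))))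
(P (B 0 (L 0) (B 2 (L 0) (S 0 (LE 5 2) (LE 0 2) (LD 3 1) (LE 0 2) X X X)))))))))))
(P (B 0 (L 0) (B 2 (L 0) (S 0 (L 5) (L 4) (LD 3 1) (L 0) X X X))))))))))))))))))
(Q 4 6 896 (Q 4 7 768 (Q 4 8 512 (P (B 0 (L 0) (B 1 (L 0) (S 0 (LE 5 1) (D 1) (LE 3 1) (LE 2 1) X X X))))
(Q 5 8 512 (Q 5 9 0 (P (B 0 (L 0) (B 1 (L 0) (S 0 (F 1 6 (F 1 7 (LE 5 0))) (F 1 8 (F 1 9 (LE 4 0))) (LE 3 1) (LE 2 1) X X X))))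
(Q 2 3 0 (P (B 0 (L 0) (B 5 (LD 5 1) (B 1 (L 0) (B 4 (F 1 8 (F 1 9 (LE 9 0))) (F 0 2 (D 0)))))))
(Q 2 4 0 (P (B 0 (L 0) (B 1 (L 0) (B 3 (LE 3 1) (B 2 (F 0 5 (LE 2 1)) (F 0 4 (F 0 5 (D 1))))))))
(Q 3 5 0 (P (B 0 (L 0) (B 1 (L 0) (B 2 (LE 2 1) (B 3 (F 0 4 (F 1 8 (F 1 9 (L 3)))) (F 0 4 (F 0 5 (D 1))))))))
(Q 3 4 0 (P (B 0 (L 0) (B 1 (L 0) (B 2 (LE 2 1) (B 3 (F 0 5 (LE 3 1)) (F 0 4 (F 0 5 (D 1))))))))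
(P (B 0 (L 0) (B 1 (L 0) (B 2 (LE 2 1) (B 4 (F 1 8 (F 0 3 (F 1 9 (L 3)))) (F 0 3 (F 0 5 (LE 3 1)))))))))))))
(Q 2 3 0 (P (B 0 (L 0) (B 1 (L 0) (B 4 (F 1 8 (F 1 9 (L 4))) (B 5 (LE 5 0) (F 0 2 (D 0)))))))
(Q 2 4 0 (Q 4 5 0 (P (B 0 (L 0) (B 1 (L 0) (S 0 (LE 5 0) (F 0 3 (F 1 8 (F 1 9 (L 3)))) (LE 3 1) (LE 2 0) X X X))))
(Q 2 5 0 (P (B 0 (L 0) (B 1 (L 0) (B 3 (LE 3 1) (B 2 (D 0) (F 0 4 (F 0 5 (F 1 8 (F 1 9 (L 8))))))))))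
(N 2 (Bad 2)
(N 2 (Bad 2)
(N 2 (Bad 2)
(N 2 (Q 3 5 0 (P (B 0 (L 0) (B 1 (L 0) (B 4 (F 1 8 (F 1 9 (LE 8 0))) (B 2 (LE 0 0) (F 0 3 (D 0)))))))
(Q 3 4 0 (P (B 0 (L 0) (B 1 (L 0) (S 0 (LE 5 1) (F 0 5 (F 1 8 (F 1 9 (L 5)))) (LD 3 2) (LE 0 0) X X X))))
(Q 3 10 6144 (Q 5 11 4096 (P (B 0 (L 0) (B 3 (LD 3 2) (B 5 (LD 5 2) (B 1 (LE 0 0) (F 0 2 (D 0)))))))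
(P (B 0 (L 0) (B 1 (L 0) (B 4 (F 1 8 (F 1 9 (LE 8 0))) (B 3 (LD 3 2) (F 0 2 (F 0 5 (LE 5 1)))))))))
(P (B 0 (L 0) (B 1 (L 0) (B 4 (F 1 8 (F 1 9 (LE 8 0))) (B 5 (LD 5 2) (F 0 2 (F 0 3 (LE 3 1)))))))))))
(P (B 0 (L 0) (B 1 (L 0) (S 0 (LE 5 1) (F 1 8 (F 1 9 (LE 8 0))) (LE 3 1) (LE 0 0) X X X))))))))))
(Q 3 5 0 (P (B 0 (L 0) (B 1 (L 0) (B 2 (LE 2 1) (B 4 (F 1 8 (F 1 9 (LE 4 0))) (F 0 3 (D 0)))))))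
(Q 2 5 0 (P (B 0 (L 0) (B 1 (L 0) (B 3 (LE 3 1) (B 4 (F 1 8 (F 1 9 (LE 8 0))) (F 0 2 (D 0)))))))
(N 2 (Bad 2)
(N 2 (Bad 2)
(N 2 (Bad 2)
(N 2 (Bad 2)
(N 2 (Q 3 4 0 (Q 4 5 0 (P (B 0 (L 0) (B 1 (L 0) (S 0 (LE 5 0) (F 0 2 (F 1 8 (F 1 9 (L 0)))) (LE 3 0) (LE 0 1) X X X))))
(Q 3 10 14336 (Q 5 11 12288 (Q 5 12 8192 (P (B 0 (L 0) (B 4 (LD 4 1) (B 2 (L 0) (B 5 (F 2 10 (F 0 1 (F 2 13 (L 0)))) (F 0 1 (F 0 3 (LE 3 2))))))))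
(Q 3 12 8192 (P (B 0 (L 0) (B 4 (LD 4 1) (B 2 (L 0) (B 3 (F 2 11 (F 0 1 (F 2 13 (L 3)))) (F 0 1 (F 0 5 (LE 5 2))))))))
(P (B 0 (L 0) (B 5 (LD 5 2) (B 1 (L 0) (B 3 (F 0 2 (LE 3 1)) (F 0 2 (F 0 4 (F 1 8 (F 1 9 (L 0))))))))))))
(Q 5 10 0 (P (B 2 (L 0) (B 0 (L 0) (S 2 (LE 13 0) (LE 12 0) (LE 11 0) (F 0 1 (F 0 4 (L 4))) X X X))))
(Q 3 11 12288 (P (B 0 (L 0) (B 1 (L 0) (B 2 (LE 0 1) (B 3 (F 0 5 (F 2 12 (F 2 13 (LE 5 1)))) (F 0 4 (F 0 5 (F 1 8 (F 1 9 (LE 5 2))))))))))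
(P (B 0 (L 0) (B 1 (L 0) (B 4 (F 1 8 (F 1 9 (LE 8 0))) (B 5 (LE 5 0) (F 0 2 (F 0 3 (LE 3 1)))))))))))
(P (B 0 (L 0) (B 1 (L 0) (B 4 (F 1 8 (F 1 9 (LE 8 0))) (B 5 (LE 5 0) (F 0 2 (F 0 3 (LE 3 1))))))))))
(Q 3 10 14336 (Q 5 6 128 (Q 3 11 12288 (Q 3 12 8192 (P (B 0 (L 0) (B 4 (LD 4 1) (B 2 (L 0) (B 3 (D 2) (F 0 1 (F 0 5 (LE 5 2))))))))
(N 3 (Bad 3)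
(N 3 (Bad 3)
(N 3 (P (B 0 (L 0) (B 2 (LD 0 3) (B 1 (LE 0 2) (B 3 (F 2 12 (F 2 13 (B 6 (D 0) (LE 0 0)))) (F 0 4 (F 0 5 (F 1 8 (F 1 9 (LE 4 2))))))))))
(P (B 0 (L 0) (B 5 (LD 5 1) (B 1 (B 2 (L 0) (B 3 (F 2 12 (F 2 13 (L 0))) (F 0 4 (LE 4 2)))) (B 4 (F 1 8 (F 1 9 (B 2 (L 0) (F 0 3 (F 2 12 (F 2 13 (L 0))))))) (F 0 2 (F 0 3 (LE 0 1))))))))))))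
(N 3 (Bad 3)
(N 3 (Bad 3)
(N 3 (Bad 3)
(N 3 (Q 4 5 0 (P (B 0 (L 0) (B 2 (LD 0 3) (B 1 (LE 0 2) (B 3 (LE 0 0) (F 0 4 (D 0)))))))
(P (B 0 (L 0) (B 4 (LD 4 1) (B 5 (LD 5 1) (B 2 (B 1 (LD 0 3) (F 0 3 (LE 0 1))) (F 0 1 (F 0 3 (LE 0 2)))))))))
(P (B 0 (L 0) (B 3 (LD 0 2) (B 5 (LD 5 1) (B 1 (LE 0 0) (F 0 2 (F 0 4 (F 1 8 (F 1 9 (L 0)))))))))))))))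
(Q 5 11 12288 (Q 3 11 0 (Q 5 12 8192 (P (B 0 (L 0) (B 4 (LD 4 1) (B 2 (L 0) (B 3 (F 2 12 (F 0 1 (F 2 13 (L 3)))) (F 0 1 (F 0 5 (F 2 10 (F 2 13 (L 5))))))))))
(Q 3 12 8192 (P (B 0 (L 0) (B 4 (LD 4 1) (B 2 (L 0) (B 3 (D 2) (F 0 1 (F 0 5 (LE 5 2))))))))
(N 3 (Bad 3)
(N 3 (Bad 3)
(N 3 (P (B 0 (L 0) (B 2 (LD 0 3) (S 2 (LE 13 0) (LE 12 0) (F 0 1 (F 0 4 (L 4))) (LE 10 0) X X X))))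
(P (B 0 (L 0) (B 5 (LD 5 2) (B 1 (B 2 (L 0) (B 3 (F 2 12 (F 2 13 (L 0))) (F 0 4 (LE 4 2)))) (B 4 (F 1 8 (F 1 9 (B 2 (L 0) (F 0 3 (F 2 12 (F 2 13 (L 0))))))) (F 0 2 (F 0 3 (LE 0 1)))))))))))))
(Q 4 11 0 (P (B 2 (L 0) (S 2 (L 13) (L 12) (B 0 (L 11) (F 0 1 (F 0 3 (LE 3 2)))) (LD 10 0) (L 0) X X)))
(Q 3 12 8192 (P (B 0 (L 0) (B 4 (LD 4 1) (B 2 (L 0) (B 3 (F 2 11 (F 0 1 (F 2 13 (L 3)))) (F 0 1 (F 0 5 (LE 5 2))))))))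
(N 3 (Bad 3)
(N 3 (Bad 3)
(N 3 (Bad 3)
(N 3 (P (B 0 (L 0) (B 2 (LD 0 3) (S 2 (LE 13 0) (LE 12 0) (B 1 (LE 0 0) (F 0 3 (F 0 4 (F 1 8 (F 1 9 (LE 0 2)))))) (B 1 (LE 0 0) (F 0 4 (F 0 5 (F 1 8 (F 1 9 (LE 5 2)))))) X X X))))
(P (B 0 (L 0) (B 3 (LD 0 2) (B 5 (LD 5 2) (B 1 (LE 0 0) (F 0 2 (F 0 4 (F 1 8 (F 1 9 (L 0)))))))))))))))))
(Q 4 5 0 (P (B 0 (L 0) (B 3 (LD 3 2) (B 1 (L 0) (B 4 (F 0 2 (F 1 8 (F 1 9 (L 0)))) (F 0 2 (F 0 5 (LE 5 1))))))))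
(P (B 0 (L 0) (B 3 (LD 3 2) (B 4 (LD 4 1) (B 2 (B 1 (L 0) (F 0 5 (LE 5 1))) (F 0 1 (F 0 5 (LE 5 2)))))))))))
(N 3 (Bad 3)
(N 3 (Bad 3)
(N 3 (Bad 3)
(N 3 (Bad 3)
(Q 5 6 128 (P (B 0 (L 0) (B 1 (L 0) (S 1 (LE 9 0) (LE 8 0) (LE 7 0) (F 0 2 (F 0 3 (L 0))) X X X))))
(N 3 (Q 4 5 0 (P (B 0 (L 0) (B 2 (L 0) (B 3 (LE 0 2) (B 4 (F 0 1 (LE 4 2)) (F 0 1 (F 0 5 (LE 5 2))))))))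
(Q 5 10 14336 (P (B 0 (L 0) (B 4 (LD 4 1) (B 5 (LD 5 2) (B 1 (B 2 (L 0) (F 0 3 (LE 0 2))) (F 0 2 (F 0 3 (LE 0 1))))))))
(Q 5 14 229376 (P (B 0 (L 0) (B 4 (LD 4 1) (B 5 (LD 5 3) (B 1 (B 2 (L 0) (F 0 3 (LE 0 2))) (F 0 2 (F 0 3 (LE 0 1))))))))
(P (B 0 (L 0) (B 1 (L 0) (B 4 (F 1 8 (F 1 9 (L 4))) (B 2 (B 3 (LE 0 1) (F 0 5 (LE 5 1))) (F 0 3 (F 0 5 (LE 5 1)))))))))))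
(Q 5 10 14336 (P (B 0 (L 0) (B 5 (LD 5 2) (B 1 (L 0) (B 3 (B 2 (LE 0 1) (F 0 4 (F 1 8 (F 1 9 (LE 0 2))))) (F 0 2 (F 0 4 (F 1 8 (F 1 9 (L 0))))))))))
(P (B 0 (L 0) (B 1 (L 0) (B 3 (LE 0 1) (B 2 (B 5 (LE 5 1) (F 0 4 (F 1 8 (F 1 9 (L 0))))) (F 0 4 (F 0 5 (F 1 8 (F 1 9 (LE 5 2)))))))))))))))))))
(N 2 (Q 4 5 0 (P (B 0 (L 0) (B 1 (L 0) (B 2 (LE 0 1) (B 3 (LE 3 0) (F 0 4 (D 0)))))))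
(Q 3 4 0 (P (B 0 (L 0) (B 1 (L 0) (B 2 (LE 0 1) (B 5 (LE 5 0) (F 0 3 (D 0)))))))
(Q 5 6 128 (P (B 0 (L 0) (B 2 (L 0) (B 5 (LD 5 1) (B 1 (B 3 (LE 3 2) (F 0 4 (LE 4 2))) (F 0 3 (F 0 4 (F 1 8 (F 1 9 (LE 3 2))))))))))
(Q 3 10 30720 (P (B 0 (L 0) (B 2 (L 0) (B 3 (LE 3 2) (B 1 (B 5 (LE 5 2) (F 0 4 (LE 4 2))) (F 0 4 (F 0 5 (F 1 8 (F 1 9 (LE 5 2))))))))))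
(N 3 (Bad 3)
(N 3 (Bad 3)
(N 3 (Bad 3)
(N 3 (Bad 3)
(N 3 (P (B 3 (L 0) (B 2 (LE 0 3) (B 1 (B 5 (LE 5 3) (F 0 4 (LE 4 3))) (B 0 (L 0) (F 0 4 (F 0 5 (F 1 8 (F 1 9 (LE 5 3))))))))))
(P (B 0 (L 0) (B 2 (L 0) (B 3 (LE 0 2) (B 1 (LE 0 0) (F 0 4 (F 0 5 (F 1 8 (F 1 9 (LE 5 2)))))))))))))))))))
(P (B 0 (L 0) (B 1 (L 0) (S 0 (LE 5 1) (F 1 8 (F 1 9 (L 4))) (LE 3 1) (LE 0 1) X X X))))))))))))))))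
(Q 5 6 0 (Q 2 3 0 (P (B 0 (L 0) (B 1 (L 0) (S 1 (LE 9 0) (LE 8 0) (LE 7 0) (F 0 2 (D 0)) X X X))))
(Q 2 4 0 (Q 2 5 0 (P (B 1 (L 0) (B 0 (L 0) (B 3 (LE 3 1) (S 1 (B 2 (D 0) (F 0 4 (F 0 5 (LE 9 1)))) (B 2 (D 0) (F 0 4 (F 0 5 (LE 8 1)))) (B 2 (D 0) (F 0 4 (F 0 5 (LE 7 1)))) (D 0) X X X)))))
(N 2 (Bad 2)
(N 2 (Bad 2)
(N 2 (Bad 2)
(N 2 (Q 3 4 0 (P (B 0 (L 0) (B 5 (LD 5 1) (B 1 (L 0) (B 2 (F 0 3 (LE 0 1)) (F 0 3 (D 0)))))))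
(Q 3 10 6144 (Q 4 5 0 (P (B 0 (L 0) (B 3 (LD 3 2) (B 1 (L 0) (B 2 (F 0 5 (LE 0 1)) (F 0 4 (D 0)))))))
(Q 3 5 0 (Q 3 11 4096 (Q 3 12 0 (P (B 0 (L 0) (B 5 (LD 5 1) (B 2 (LE 0 0) (B 3 (D 2) (F 0 1 (F 0 4 (L 4))))))))
(P (B 1 (L 0) (B 0 (L 0) (S 1 (LE 9 0) (LE 8 0) (LE 7 0) (F 0 2 (F 0 3 (L 3))) X X X)))))
(P (B 1 (L 0) (B 0 (L 0) (S 1 (LE 9 0) (LE 8 0) (LE 7 0) (F 0 2 (F 0 3 (L 3))) X X X)))))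
(P (B 0 (L 0) (B 3 (LD 3 2) (B 5 (LD 5 1) (B 2 (F 0 1 (L 0)) (F 0 1 (F 0 4 (L 4))))))))))
(P (B 0 (L 0) (B 1 (L 0) (S 1 (LE 9 0) (LE 8 0) (LE 7 0) (F 0 2 (F 0 3 (L 3))) X X X))))))
(P (B 1 (L 0) (B 0 (L 0) (S 1 (LE 9 0) (LE 8 0) (LE 7 0) (F 0 2 (F 0 3 (L 0))) X X X)))))))))
(Q 3 5 0 (Q 5 7 768 (Q 5 8 512 (P (B 0 (L 0) (B 1 (L 0) (S 0 (D 1) (LE 4 1) (LE 3 0) (LE 2 1) X X X))))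
(Q 2 5 0 (P (B 0 (L 0) (B 4 (LD 4 1) (B 1 (L 0) (B 2 (F 0 3 (LE 2 1)) (F 0 3 (D 0)))))))
(P (B 0 (L 0) (B 1 (L 0) (S 1 (LE 9 0) (LE 8 0) (LE 7 0) (F 0 2 (F 0 3 (L 2))) X X X))))))
(Q 2 5 0 (P (B 0 (L 0) (B 4 (LD 4 1) (B 1 (L 0) (B 2 (F 0 3 (LE 2 1)) (F 0 3 (D 0)))))))
(P (B 0 (L 0) (B 1 (L 0) (S 1 (LE 9 0) (LE 8 0) (LE 7 0) (F 0 2 (F 0 3 (L 2))) X X X))))))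
(Q 2 5 0 (N 2 (Bad 2)
(N 2 (Bad 2)
(N 2 (Bad 2)
(N 2 (Q 3 10 6144 (Q 4 5 0 (P (B 0 (L 0) (B 3 (LD 3 2) (B 1 (L 0) (B 2 (F 0 4 (LE 0 1)) (F 0 4 (D 0)))))))
(Q 3 4 0 (Q 5 7 768 (P (B 1 (L 0) (B 2 (LE 0 0) (B 5 (F 1 8 (F 1 9 (LE 8 0))) (B 0 (L 0) (F 0 3 (D 0)))))))
(Q 3 11 4096 (P (B 0 (L 0) (B 5 (LD 5 1) (B 1 (B 4 (LD 4 2) (B 2 (L 0) (F 0 3 (D 2)))) (B 2 (LE 0 0) (F 0 3 (D 0)))))))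
(P (B 1 (L 0) (B 0 (L 0) (S 1 (LE 9 0) (LE 8 0) (LE 7 0) (F 0 2 (F 0 3 (L 3))) X X X))))))
(P (B 0 (L 0) (B 3 (LD 3 2) (B 4 (LD 4 1) (B 1 (LE 0 0) (F 0 2 (D 0)))))))))
(P (B 0 (L 0) (B 1 (L 0) (S 1 (LE 9 0) (LE 8 0) (LE 7 0) (F 0 2 (F 0 3 (L 3))) X X X)))))
(P (B 1 (L 0) (B 0 (L 0) (S 1 (LE 9 0) (LE 8 0) (LE 7 0) (F 0 2 (F 0 3 (L 0))) X X X))))))))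
(P (B 0 (L 0) (B 1 (L 0) (S 1 (LE 9 0) (LE 8 0) (LE 7 0) (F 0 2 (F 0 3 (L 2))) X X X))))))))
(Q 5 7 768 (Q 5 8 512 (Q 2 3 0 (P (B 0 (L 0) (B 4 (LD 4 1) (B 1 (L 0) (B 5 (F 1 6 (F 1 9 (LE 9 0))) (F 0 2 (D 0)))))))
(Q 5 9 0 (P (B 0 (L 0) (B 1 (L 0) (S 0 (D 1) (LE 4 1) (LE 3 1) (LE 2 1) X X X))))
(Q 2 5 0 (P (B 0 (L 0) (B 1 (L 0) (B 3 (LE 3 1) (B 2 (F 0 4 (LE 2 1)) (F 0 4 (F 0 5 (D 1))))))))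
(Q 3 4 0 (P (B 0 (L 0) (B 1 (L 0) (B 2 (LE 2 1) (B 3 (F 0 5 (F 1 6 (F 1 9 (L 3)))) (F 0 4 (F 0 5 (D 1))))))))
(Q 3 5 0 (P (B 0 (L 0) (B 1 (L 0) (B 2 (LE 2 1) (B 3 (F 0 4 (LE 3 1)) (F 0 4 (F 0 5 (D 1))))))))
(P (B 0 (L 0) (B 1 (L 0) (B 2 (LE 2 1) (B 5 (F 1 6 (F 0 3 (F 1 9 (L 3)))) (F 0 3 (F 0 4 (LE 3 1)))))))))))))
(Q 2 3 0 (Q 4 5 0 (Q 2 4 0 (P (B 0 (L 0) (B 5 (LD 5 1) (B 1 (L 0) (B 2 (D 0) (F 0 3 (F 0 4 (LE 3 1))))))))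
(Q 3 5 0 (P (B 0 (L 0) (B 4 (LD 4 1) (B 1 (L 0) (B 2 (F 0 5 (LE 2 1)) (F 0 3 (D 0)))))))
(Q 2 5 0 (P (B 0 (L 0) (B 4 (LD 4 1) (B 1 (L 0) (B 2 (D 0) (F 0 3 (F 0 5 (LE 3 1))))))))
(N 2 (Bad 2)
(N 2 (Bad 2)
(N 2 (Bad 2)
(N 2 (Q 3 4 0 (P (B 0 (L 0) (B 5 (LD 5 1) (B 1 (L 0) (B 2 (F 0 4 (LE 0 1)) (F 0 3 (D 0)))))))
(Q 3 10 6144 (Q 3 11 4096 (P (B 0 (L 0) (B 3 (F 2 12 (L 12)) (B 1 (LD 0 2) (B 2 (LE 0 0) (F 0 4 (D 0)))))))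
(N 3 (Bad 3)
(N 3 (Bad 3)
(N 3 (Q 4 10 0 (P (B 0 (L 0) (B 2 (LE 0 3) (S 2 (LD 12 3) (LD 11 3) (F 0 1 (F 0 5 (LE 5 2))) (LE 0 2) X X X))))
(Q 5 10 0 (P (B 0 (L 0) (B 2 (LE 0 3) (S 2 (LD 12 3) (LD 11 3) (F 0 1 (F 0 4 (LE 4 2))) (LE 0 2) X X X))))
(Q 4 11 4096 (P (B 0 (L 0) (B 2 (LE 0 3) (S 2 (LD 12 3) (LD 11 3) (B 4 (F 0 1 (F 2 12 (LE 4 3))) (F 0 1 (F 0 5 (LE 5 2)))) (LE 0 2) X X X))))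
(Q 5 13 16384 (P (B 0 (L 0) (B 3 (LE 0 2) (B 1 (LD 0 2) (B 4 (F 0 2 (LE 4 1)) (F 0 2 (F 0 5 (F 3 14 (LE 0 1)))))))))
(Q 4 13 16384 (P (B 0 (L 0) (B 3 (LE 0 2) (B 1 (LD 0 2) (B 4 (F 0 2 (F 3 14 (LE 4 1))) (F 0 2 (F 0 5 (LE 0 1))))))))
(P (B 0 (L 0) (B 2 (LE 0 3) (B 1 (LD 0 3) (B 4 (F 0 3 (LE 4 1)) (F 0 3 (F 0 5 (LE 5 1)))))))))))))
(P (B 0 (L 0) (B 3 (LE 0 2) (B 1 (LD 0 2) (B 2 (LE 0 0) (F 0 4 (D 0)))))))))))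
(N 3 (Bad 3)
(N 3 (Bad 3)
(N 3 (Bad 3)
(N 3 (Q 4 10 6144 (Q 4 11 4096 (P (B 0 (L 0) (B 5 (LD 5 1) (B 2 (LE 0 0) (B 4 (F 2 3 (F 2 12 (LD 0 1))) (F 0 1 (F 0 3 (L 0))))))))
(Q 5 13 49152 (Q 5 14 32768 (P (B 0 (L 0) (B 4 (LD 4 1) (B 2 (B 5 (F 3 15 (LD 0 1)) (F 0 1 (L 0))) (B 3 (LE 0 0) (F 0 1 (F 0 5 (D 3))))))))
(P (B 0 (L 0) (B 1 (L 0) (S 1 (LE 9 0) (LE 8 0) (B 2 (F 0 4 (LE 4 1)) (F 0 3 (F 0 4 (LE 0 1)))) (B 2 (F 0 5 (LE 0 1)) (F 0 3 (F 0 5 (LE 5 1)))) X X X)))))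
(P (B 0 (L 0) (B 1 (L 0) (S 1 (LE 9 0) (LE 8 0) (B 2 (F 0 4 (LE 4 1)) (F 0 3 (F 0 4 (LE 0 1)))) (B 2 (F 0 5 (LE 0 1)) (F 0 3 (F 0 5 (LE 5 1)))) X X X))))))
(Q 5 13 49152 (Q 5 10 6144 (P (B 0 (L 0) (B 1 (L 0) (S 1 (LE 9 0) (LE 8 0) (B 2 (F 0 4 (LE 4 1)) (F 0 3 (F 0 4 (LE 0 1)))) (B 2 (F 0 5 (LE 0 1)) (F 0 3 (F 0 5 (LE 0 1)))) X X X))))
(P (B 0 (L 0) (B 1 (L 0) (B 2 (B 4 (LE 4 1) (F 0 5 (LE 5 1))) (B 3 (LE 0 0) (F 0 4 (D 0))))))))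
(P (B 0 (L 0) (B 1 (L 0) (S 1 (LE 9 0) (LE 8 0) (B 2 (F 0 4 (LE 4 1)) (F 0 3 (F 0 4 (LE 0 1)))) (B 2 (F 0 5 (LE 0 1)) (F 0 3 (F 0 5 (LE 5 1)))) X X X))))))
(P (B 0 (L 0) (B 3 (L 0) (B 1 (LD 0 2) (B 2 (LE 0 0) (F 0 4 (D 0)))))))))))))
(Q 3 4 0 (P (B 0 (L 0) (B 2 (L 0) (B 1 (L 0) (B 3 (F 0 5 (LE 3 1)) (F 0 4 (D 0)))))))
(N 2 (Q 4 10 14336 (Q 3 10 0 (Q 5 10 0 (P (B 0 (L 0) (B 2 (L 0) (B 10 (D 0) (B 1 (LE 0 2) (B 3 (LE 3 0) (F 0 4 (D 0))))))))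
(Q 3 11 12288 (P (B 0 (L 0) (S 0 (LD 5 1) (LD 4 1) (LE 3 2) (L 0) (L 0) X X)))
(N 3 (Bad 3)
(N 3 (Bad 3)
(N 3 (P (B 0 (L 0) (B 2 (LE 0 3) (B 1 (LD 0 3) (B 3 (LE 0 0) (F 0 4 (D 0)))))))
(P (B 0 (L 0) (S 0 (LD 5 1) (LD 4 1) (L 0) (L 0) (L 0) X X))))))))
(Q 5 10 0 (P (B 0 (L 0) (B 2 (L 0) (B 10 (F 0 1 (F 0 3 (L 3))) (B 1 (LE 0 2) (B 3 (LE 3 0) (F 0 4 (D 0))))))))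
(Q 5 11 12288 (Q 3 11 0 (Q 4 11 0 (P (B 0 (L 0) (B 2 (L 0) (B 11 (D 0) (B 1 (LE 0 2) (B 3 (LE 3 0) (F 0 4 (D 0))))))))
(Q 4 12 8192 (P (B 0 (L 0) (B 2 (L 0) (B 11 (F 0 1 (F 0 4 (F 2 13 (L 0)))) (B 4 (F 2 3 (F 2 13 (LD 3 1))) (B 1 (LE 0 0) (F 0 3 (F 0 5 (LE 3 1)))))))))
(N 4 (Bad 4)
(N 4 (P (B 0 (L 0) (B 4 (LD 0 1) (S 0 (LD 5 1) (LE 3 0) (B 5 (LD 0 1) (F 0 1 (D 4))) (LE 0 4) X X X))))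
(P (B 0 (L 0) (B 5 (LD 5 1) (B 4 (LD 0 1) (B 2 (F 0 1 (L 0)) (F 0 1 (F 0 3 (L 3))))))))))))
(P (B 1 (L 0) (B 2 (LE 0 0) (B 3 (B 4 (LE 3 1) (F 0 5 (LE 3 1))) (B 0 (L 0) (F 0 4 (D 0))))))))
(P (B 1 (L 0) (B 2 (B 4 (LE 0 1) (F 0 5 (LE 5 1))) (B 3 (LE 3 0) (B 0 (L 0) (F 0 4 (D 0))))))))))
(P (B 1 (L 0) (B 2 (B 4 (LE 4 1) (F 0 5 (LE 0 1))) (B 3 (LE 3 0) (B 0 (L 0) (F 0 4 (D 0))))))))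
(P (B 0 (L 0) (B 2 (L 0) (B 1 (L 0) (B 3 (LE 3 0) (F 0 4 (D 0))))))))))))))))
(P (B 0 (L 0) (B 1 (L 0) (S 1 (LE 9 0) (LE 8 0) (B 4 (LE 4 0) (F 0 2 (D 0))) (B 5 (LE 5 0) (F 0 2 (D 0))) X X X)))))
(Q 2 4 0 (Q 3 4 0 (P (B 0 (L 0) (B 1 (L 0) (S 0 (LE 5 1) (F 0 5 (F 1 8 (F 1 9 (L 8)))) (LE 3 0) (LE 2 0) X X X))))
(Q 2 5 0 (P (B 1 (L 0) (B 0 (L 0) (B 3 (LE 3 1) (B 2 (D 0) (F 0 4 (F 0 5 (F 1 8 (F 1 9 (L 4))))))))))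
(N 2 (Bad 2)
(N 2 (Bad 2)
(N 2 (Bad 2)
(N 2 (Q 3 10 6144 (Q 4 5 0 (P (B 0 (L 0) (B 3 (LD 3 2) (B 1 (L 0) (B 2 (F 0 5 (LE 0 1)) (F 0 4 (D 0)))))))
(Q 3 5 0 (Q 4 11 4096 (Q 3 12 0 (P (B 0 (L 0) (B 5 (LD 5 1) (B 2 (LE 0 0) (B 3 (F 2 4 (D 2)) (F 0 1 (F 0 4 (LE 4 2))))))))
(Q 4 10 0 (P (B 0 (L 0) (B 4 (F 2 12 (LD 12 1)) (B 1 (LD 0 2) (B 2 (LE 0 0) (F 0 3 (D 0)))))))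
(Q 4 12 0 (P (B 0 (L 0) (B 5 (LD 5 1) (B 4 (F 2 10 (F 0 1 (L 0))) (B 2 (LE 0 0) (F 0 1 (F 0 3 (F 2 11 (F 2 12 (L 3))))))))))
(N 4 (Bad 4)
(N 4 (P (B 0 (L 0) (B 2 (LE 0 4) (B 1 (LD 0 4) (B 3 (F 0 4 (F 2 12 (LE 0 1))) (F 0 4 (F 0 5 (F 1 8 (F 1 9 (LE 0 2))))))))))
(P (B 0 (L 0) (B 4 (LD 0 1) (B 1 (LD 0 2) (B 2 (LE 0 0) (F 0 3 (D 0))))))))))))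
(Q 3 11 4096 (P (B 0 (L 0) (B 4 (LD 4 1) (B 1 (B 5 (LD 5 2) (B 2 (L 0) (F 0 3 (D 2)))) (B 2 (LE 0 0) (F 0 3 (D 0)))))))
(N 3 (Bad 3)
(N 3 (Bad 3)
(N 3 (P (B 2 (LD 0 3) (B 4 (LD 4 1) (B 3 (F 0 1 (F 2 11 (F 2 12 (L 0)))) (B 0 (L 0) (F 0 1 (F 0 5 (LE 5 2))))))))
(P (B 0 (L 0) (B 5 (LD 5 1) (B 3 (LD 0 2) (B 2 (F 0 1 (L 0)) (F 0 1 (F 0 4 (L 4)))))))))))))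
(P (B 0 (L 0) (B 3 (LD 3 2) (B 5 (LD 5 1) (B 2 (F 0 1 (L 0)) (F 0 1 (F 0 4 (L 4))))))))))
(Q 3 5 0 (N 3 (Bad 3)
(N 3 (Bad 3)
(N 3 (Bad 3)
(Q 5 10 6144 (Q 5 11 4096 (P (B 0 (L 0) (B 4 (LD 4 1) (B 1 (B 3 (LD 0 2) (B 2 (L 0) (F 0 5 (D 2)))) (B 3 (F 0 2 (LE 0 1)) (F 0 2 (F 0 5 (LE 0 1))))))))
(Q 4 5 0 (P (B 0 (L 0) (B 1 (L 0) (B 4 (F 0 3 (LE 0 1)) (B 3 (F 0 2 (LE 0 1)) (F 0 2 (F 0 5 (LE 0 1))))))))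
(P (B 0 (L 0) (B 4 (LD 4 1) (B 1 (LD 0 2) (B 3 (F 0 2 (LE 0 1)) (F 0 2 (F 0 5 (LE 5 1))))))))))
(P (B 0 (L 0) (B 4 (LD 4 1) (B 1 (LD 0 2) (B 3 (F 0 2 (LE 0 1)) (F 0 2 (F 0 5 (LE 5 1))))))))))))
(P (B 0 (L 0) (B 5 (LD 5 1) (B 1 (L 0) (B 2 (F 0 3 (LE 3 1)) (F 0 3 (F 0 4 (LE 3 1))))))))))
(N 2 (Q 3 5 0 (P (B 0 (L 0) (B 4 (LD 4 1) (B 2 (L 0) (B 3 (F 0 1 (LE 3 2)) (F 0 1 (F 0 5 (LE 5 2))))))))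
(P (B 0 (L 0) (B 5 (LD 5 1) (B 3 (L 3) (B 2 (F 0 1 (L 0)) (F 0 1 (F 0 4 (L 4)))))))))
(P (B 0 (L 0) (S 0 (LD 5 1) (LD 4 1) (L 3) (L 0) (L 0) X X))))))))))
(Q 3 5 0 (Q 2 5 0 (P (B 0 (L 0) (B 4 (LD 4 1) (B 1 (L 0) (B 2 (F 0 3 (LE 2 1)) (F 0 3 (D 0)))))))
(N 2 (Bad 2)
(N 2 (Bad 2)
(N 2 (Bad 2)
(N 2 (Bad 2)
(N 2 (Q 4 10 14336 (Q 4 11 12288 (P (B 0 (L 0) (B 1 (L 0) (B 2 (LE 0 1) (B 4 (F 2 12 (F 2 13 (LE 4 0))) (F 0 3 (D 0)))))))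
(Q 5 10 0 (P (B 2 (L 0) (B 0 (L 0) (S 2 (LE 13 0) (LE 12 0) (LE 11 0) (F 0 1 (F 0 3 (L 3))) X X X))))
(Q 5 11 12288 (Q 5 12 8192 (P (B 0 (L 0) (B 1 (L 0) (B 2 (LE 0 1) (B 3 (F 0 4 (LE 3 1)) (F 0 4 (F 0 5 (D 2))))))))
(Q 3 10 0 (Q 4 5 0 (P (B 0 (L 0) (S 0 (B 1 (LD 0 2) (F 0 2 (LE 0 1))) (LD 4 1) (LD 3 2) (L 0) (L 0) X X)))
(P (B 0 (L 0) (B 4 (LD 4 1) (B 2 (L 0) (B 3 (F 0 1 (LE 3 2)) (F 0 1 (F 0 5 (LE 5 2)))))))))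
(P (B 0 (L 0) (B 1 (L 0) (B 2 (LE 0 1) (B 3 (F 0 4 (LE 3 1)) (F 0 4 (F 0 5 (F 1 8 (F 1 9 (F 2 12 (F 2 13 (L 4))))))))))))))
(Q 4 5 0 (P (B 0 (L 0) (B 1 (L 0) (B 2 (LE 0 1) (B 3 (F 0 4 (LE 3 1)) (F 0 4 (D 0)))))))
(P (B 0 (L 0) (B 4 (LD 4 1) (B 2 (L 0) (B 3 (F 0 1 (LE 3 2)) (F 0 1 (F 0 5 (LE 5 2))))))))))))
(Q 5 10 14336 (Q 3 10 0 (P (B 0 (L 0) (B 4 (LD 4 1) (B 2 (L 0) (B 1 (B 10 (D 0) (LE 0 0)) (F 0 3 (D 0)))))))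
(Q 3 11 12288 (Q 3 4 0 (P (B 0 (L 0) (S 0 (LD 5 1) (LD 4 1) (B 1 (LD 3 2) (F 0 2 (LE 0 1))) (L 0) (L 0) X X)))
(P (B 0 (L 0) (B 4 (LD 4 1) (B 2 (L 0) (B 3 (F 0 1 (LE 3 2)) (F 0 1 (F 0 5 (LE 0 2)))))))))
(Q 3 4 0 (P (B 0 (L 0) (S 0 (LD 5 1) (LD 4 1) (B 1 (L 3) (F 0 2 (LE 3 1))) (L 0) (L 0) X X)))
(P (B 0 (L 0) (B 4 (LD 4 1) (B 1 (L 0) (B 3 (F 0 2 (LE 3 1)) (F 0 2 (F 0 5 (LE 0 1)))))))))))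
(Q 4 5 0 (P (B 0 (L 0) (B 1 (L 0) (B 2 (LE 0 1) (B 3 (F 0 4 (LE 3 1)) (F 0 4 (D 0)))))))
(P (B 0 (L 0) (B 4 (LD 4 1) (B 2 (L 0) (B 3 (F 0 1 (LE 3 2)) (F 0 1 (F 0 5 (LE 5 2)))))))))))
(P (B 0 (L 0) (B 2 (L 0) (B 4 (LD 4 1) (B 1 (LE 0 0) (F 0 3 (D 0)))))))))))))
(Q 2 5 0 (N 2 (Bad 2)
(N 2 (Bad 2)
(N 2 (Bad 2)
(N 2 (Q 3 10 6144 (Q 4 5 0 (P (B 0 (L 0) (B 3 (LD 3 2) (B 1 (L 0) (B 2 (F 0 4 (LE 0 1)) (F 0 4 (D 0)))))))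
(Q 3 4 0 (Q 5 11 4096 (Q 3 12 0 (P (B 0 (L 0) (B 4 (LD 4 1) (B 2 (LE 0 0) (B 3 (F 2 5 (D 2)) (F 0 1 (F 0 5 (LE 5 2))))))))
(Q 5 10 0 (P (B 0 (L 0) (B 5 (F 2 12 (LD 12 1)) (B 1 (LD 0 2) (B 2 (LE 0 0) (F 0 3 (D 0)))))))
(Q 5 12 0 (P (B 0 (L 0) (B 4 (LD 4 1) (B 5 (F 2 10 (F 0 1 (L 0))) (B 2 (LE 0 0) (F 0 1 (F 0 3 (F 2 11 (F 2 12 (L 3))))))))))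
(N 5 (Bad 5)
(N 5 (P (B 0 (L 0) (B 2 (LE 0 5) (B 1 (LD 0 5) (B 3 (F 0 5 (F 2 12 (LE 0 1))) (F 0 4 (F 0 5 (F 1 8 (F 1 9 (LE 0 2))))))))))
(P (B 0 (L 0) (B 5 (LD 0 1) (B 1 (LD 0 2) (B 2 (LE 0 0) (F 0 3 (D 0))))))))))))
(Q 3 11 4096 (P (B 0 (L 0) (B 5 (LD 5 1) (B 1 (B 4 (LD 4 2) (B 2 (L 0) (F 0 3 (D 2)))) (B 2 (LE 0 0) (F 0 3 (D 0)))))))
(N 3 (Bad 3)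
(N 3 (Bad 3)
(N 3 (P (B 2 (LD 0 3) (B 5 (LD 5 1) (B 3 (F 0 1 (F 2 11 (F 2 12 (L 0)))) (B 0 (L 0) (F 0 1 (F 0 4 (LE 4 2))))))))
(P (B 0 (L 0) (B 4 (LD 4 1) (B 3 (LD 0 2) (B 2 (F 0 1 (L 0)) (F 0 1 (F 0 5 (L 5)))))))))))))
(P (B 0 (L 0) (B 3 (LD 3 2) (B 4 (LD 4 1) (B 2 (F 0 1 (L 0)) (F 0 1 (F 0 5 (L 5))))))))))
(Q 3 4 0 (Q 4 10 6144 (Q 5 10 0 (P (B 0 (L 0) (B 1 (L 0) (B 3 (B 2 (LE 3 1) (F 0 5 (LE 3 1))) (S 1 (B 4 (LD 9 2) (F 0 2 (D 0))) (B 4 (LD 8 2) (F 0 2 (D 0))) (F 0 2 (F 0 4 (LE 0 1))) (F 0 2 (D 0)) X X X)))))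
(N 3 (Bad 3)
(N 3 (Bad 3)
(N 3 (Bad 3)
(N 3 (Q 4 5 0 (P (B 0 (L 0) (B 1 (L 0) (B 4 (F 0 2 (LE 0 1)) (B 2 (F 0 3 (LE 0 1)) (F 0 3 (F 0 5 (LE 0 1))))))))
(Q 4 11 4096 (P (B 0 (L 0) (B 5 (LD 5 1) (B 1 (B 3 (LD 0 2) (B 2 (LE 0 3) (F 0 4 (D 2)))) (B 3 (F 0 2 (LE 0 1)) (F 0 2 (F 0 4 (LE 0 1))))))))
(P (B 0 (L 0) (B 1 (L 0) (B 2 (B 3 (LE 0 1) (F 0 4 (LE 4 1))) (B 3 (F 0 5 (LE 0 1)) (F 0 4 (F 0 5 (F 1 8 (F 1 9 (LE 5 2))))))))))))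
(P (B 0 (L 0) (B 3 (L 0) (B 1 (L 0) (B 2 (F 0 4 (LE 0 1)) (F 0 4 (F 0 5 (F 1 8 (F 1 9 (LE 5 2)))))))))))))))
(P (B 0 (L 0) (B 5 (LD 5 1) (B 1 (LD 0 2) (B 3 (F 0 2 (LE 3 1)) (F 0 2 (F 0 4 (LE 4 1)))))))))
(P (B 0 (L 0) (B 4 (LD 4 1) (B 1 (L 0) (B 2 (F 0 3 (LE 3 1)) (F 0 3 (F 0 5 (LE 3 1))))))))))
(N 2 (Q 3 4 0 (P (B 0 (L 0) (B 5 (LD 5 1) (B 2 (L 0) (B 3 (F 0 1 (LE 3 2)) (F 0 1 (F 0 4 (LE 4 2))))))))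
(P (B 0 (L 0) (B 4 (LD 4 1) (B 3 (L 3) (B 2 (F 0 1 (L 0)) (F 0 1 (F 0 5 (L 5)))))))))
(P (B 0 (L 0) (S 0 (LD 5 1) (LD 4 1) (L 3) (L 0) (L 0) X X))))))))
(N 2 (Bad 2)
(N 2 (Bad 2)
(N 2 (Bad 2)
(N 2 (Bad 2)
(N 2 (Q 3 10 14336 (Q 3 4 0 (P (B 0 (L 0) (B 5 (LD 5 1) (B 2 (L 0) (B 3 (F 0 1 (LE 3 2)) (F 0 1 (F 0 4 (LE 4 2))))))))
(Q 3 11 12288 (Q 3 12 8192 (P (B 0 (L 0) (B 4 (LD 4 1) (B 2 (L 0) (B 3 (D 2) (F 0 1 (F 0 5 (LE 5 2))))))))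
(N 3 (Bad 3)
(N 3 (Bad 3)
(N 3 (P (B 0 (L 0) (B 2 (LD 0 3) (B 3 (F 2 12 (F 2 13 (L 0))) (B 1 (LE 0 0) (F 0 4 (F 0 5 (F 1 8 (F 1 9 (LE 4 2))))))))))
(P (B 0 (L 0) (S 0 (LD 5 1) (LD 4 1) (LD 0 2) (L 0) (L 0) X X)))))))
(N 3 (Bad 3)
(N 3 (Bad 3)
(N 3 (Bad 3)
(N 3 (Q 4 10 0 (P (B 0 (L 0) (B 2 (LD 0 3) (S 2 (LE 13 0) (LE 12 0) (LE 11 0) (F 0 1 (F 0 5 (L 5))) X X X))))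
(Q 5 10 0 (P (B 0 (L 0) (B 2 (LD 0 3) (S 2 (LE 13 0) (LE 12 0) (LE 11 0) (F 0 1 (F 0 4 (L 4))) X X X))))
(Q 4 5 0 (P (B 0 (L 0) (B 2 (LD 0 3) (B 3 (LE 0 2) (B 4 (F 0 1 (LE 4 2)) (F 0 1 (F 0 5 (LE 5 2))))))))
(P (B 0 (L 0) (B 4 (LD 4 1) (B 5 (LD 5 1) (B 2 (B 1 (LD 0 3) (F 0 3 (LE 0 1))) (F 0 1 (F 0 3 (LE 0 2)))))))))))
(P (B 0 (L 0) (S 0 (LD 5 1) (LD 4 1) (LD 0 2) (L 0) (L 0) X X)))))))))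
(Q 4 5 0 (Q 3 4 0 (P (B 0 (L 0) (B 1 (L 0) (B 2 (LE 0 1) (B 3 (F 0 5 (LE 3 1)) (F 0 4 (D 0)))))))
(P (B 2 (L 0) (B 0 (L 0) (B 3 (LE 3 2) (B 4 (F 0 1 (LE 4 2)) (F 0 1 (F 0 5 (LE 5 2)))))))))
(Q 3 4 0 (P (B 0 (L 0) (B 5 (LD 5 1) (B 1 (L 0) (B 3 (F 0 2 (LE 3 1)) (F 0 2 (F 0 4 (LE 0 1))))))))
(P (B 0 (L 0) (B 4 (LD 4 1) (B 5 (LD 5 1) (B 1 (B 2 (L 0) (F 0 3 (LE 3 2))) (F 0 2 (F 0 3 (LE 3 1)))))))))))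
(N 2 (Q 3 4 0 (P (B 0 (L 0) (B 2 (L 0) (B 5 (LD 5 1) (B 3 (F 0 1 (LE 3 2)) (F 0 1 (F 0 4 (LE 4 2))))))))
(Q 4 5 0 (P (B 0 (L 0) (B 2 (L 0) (S 0 (LD 5 1) (B 1 (LE 4 2) (F 0 3 (LE 3 1))) (LE 3 2) (LE 0 2) X X X))))
(Q 3 10 30720 (P (B 0 (L 0) (B 2 (L 0) (B 3 (LE 3 2) (B 1 (B 4 (LE 4 2) (F 0 5 (LE 5 2))) (F 0 4 (F 0 5 (F 1 8 (F 1 9 (LE 4 2))))))))))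
(P (B 0 (L 0) (B 4 (LD 4 1) (B 5 (LD 5 1) (B 2 (B 1 (L 0) (F 0 3 (LE 3 1))) (F 0 1 (F 0 3 (LE 3 2)))))))))))
(P (B 0 (L 0) (B 2 (L 0) (S 0 (LD 5 1) (LD 4 1) (L 3) (L 0) X X X)))))))))))))))
(Q 2 3 32 (Q 4 5 0 (Q 2 5 0 (P (B 1 (L 0) (B 0 (L 0) (B 2 (F 0 4 (LE 2 1)) (B 3 (LE 3 0) (F 0 4 (D 0)))))))
(Q 3 5 0 (P (B 1 (L 0) (B 0 (L 0) (B 3 (F 0 4 (LE 3 1)) (B 2 (LE 2 0) (F 0 4 (D 0)))))))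
(N 5 (Bad 5)
(N 5 (Bad 5)
(N 5 (Bad 5)
(N 5 (Q 2 4 0 (P (B 0 (L 0) (B 1 (L 0) (B 4 (F 0 3 (LE 3 1)) (B 5 (LE 0 0) (F 0 2 (D 0)))))))
(Q 3 4 0 (P (B 0 (L 0) (B 1 (L 0) (B 4 (F 0 2 (LE 2 1)) (B 5 (LE 0 0) (F 0 2 (D 0)))))))
(Q 4 10 6144 (Q 4 11 4096 (P (B 0 (L 0) (B 4 (F 5 12 (LD 12 1)) (B 1 (LD 0 5) (B 5 (LE 0 0) (F 0 2 (D 0)))))))
(N 4 (Bad 4)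
(N 4 (P (B 0 (L 0) (B 4 (LD 0 1) (S 4 (LD 13 5) (B 2 (F 0 1 (F 4 13 (LE 2 5))) (F 0 1 (F 0 3 (F 4 13 (LE 3 5))))) (LD 6 5) (LE 0 4) X X X))))
(P (B 0 (L 0) (B 4 (LD 0 1) (B 1 (LD 0 5) (B 5 (LE 0 0) (F 0 2 (D 0))))))))))
(N 4 (Bad 4)
(N 4 (Bad 4)
(N 4 (P (B 0 (L 0) (B 4 (LD 0 1) (B 1 (B 5 (LE 0 4) (F 4 13 (F 4 14 (B 2 (LE 2 5) (F 0 3 (LE 3 5)))))) (B 5 (LE 0 0) (F 0 2 (D 0)))))))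
(P (B 0 (L 0) (B 4 (LD 0 1) (B 1 (LD 0 5) (B 5 (LE 0 0) (F 0 2 (D 0)))))))))))))
(N 5 (P (B 0 (L 0) (B 4 (LD 4 1) (B 5 (L 0) (B 2 (F 0 1 (LE 2 5)) (F 0 1 (F 0 3 (LE 3 5))))))))
(P (B 0 (L 0) (B 4 (LD 4 1) (B 5 (L 0) (B 1 (LE 0 0) (F 0 2 (D 0))))))))))))))
(Q 2 5 0 (P (B 0 (L 0) (B 4 (LD 4 1) (B 1 (L 0) (B 2 (D 0) (F 0 3 (F 0 5 (LE 5 1))))))))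
(Q 3 5 0 (P (B 0 (L 0) (B 4 (LD 4 1) (B 1 (L 0) (B 2 (F 0 5 (LE 5 1)) (F 0 3 (D 0)))))))
(N 5 (Bad 5)
(N 5 (Bad 5)
(N 5 (Bad 5)
(N 5 (Bad 5)
(N 5 (P (B 0 (L 0) (B 4 (LD 4 1) (B 5 (L 0) (B 2 (F 0 1 (LE 2 5)) (F 0 1 (F 0 3 (LE 3 5))))))))
(P (B 0 (L 0) (B 5 (L 0) (B 4 (LD 4 1) (B 1 (LE 0 0) (F 0 2 (D 0)))))))))))))))
(Q 2 4 0 (N 2 (Bad 2)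
(N 2 (Bad 2)
(N 2 (Bad 2)
(N 2 (Q 3 4 0 (Q 3 5 0 (P (B 0 (L 0) (B 1 (L 0) (B 4 (F 0 5 (LE 5 1)) (B 2 (LE 0 0) (F 0 3 (D 0)))))))
(P (B 0 (L 0) (B 1 (L 0) (S 0 (LE 5 1) (F 0 5 (LE 5 1)) (LD 3 2) (LE 0 0) X X X)))))
(Q 4 5 0 (P (B 0 (L 0) (B 1 (L 0) (B 3 (LE 3 1) (B 2 (F 0 5 (LE 0 1)) (F 0 4 (D 0)))))))
(Q 3 5 0 (Q 4 10 6144 (Q 4 11 4096 (P (B 0 (L 0) (B 2 (L 0) (S 2 (LE 12 0) (LE 11 0) (B 3 (F 0 1 (LE 3 2)) (F 0 1 (F 0 5 (LE 5 2)))) (F 2 12 (LD 12 1)) X X X))))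
(N 4 (Bad 4)
(N 4 (P (B 0 (L 0) (B 4 (LD 0 1) (S 4 (LD 13 2) (B 3 (F 0 1 (F 4 13 (LE 3 2))) (F 0 1 (F 0 5 (F 4 13 (LE 5 2))))) (LD 6 2) (LE 0 4) X X X))))
(P (B 0 (L 0) (B 2 (L 0) (B 4 (LD 0 1) (B 3 (F 0 1 (LE 3 2)) (F 0 1 (F 0 5 (LE 5 2)))))))))))
(N 4 (Bad 4)
(N 4 (Bad 4)
(N 4 (P (B 0 (L 0) (B 4 (LD 0 1) (B 1 (B 2 (LE 0 4) (F 4 13 (F 4 14 (B 3 (LE 3 2) (F 0 5 (LE 5 2)))))) (B 2 (LE 0 0) (F 0 3 (D 0)))))))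
(P (B 0 (L 0) (B 2 (L 0) (B 4 (LD 0 1) (B 3 (F 0 1 (LE 3 2)) (F 0 1 (F 0 5 (LE 5 2))))))))))))
(Q 3 10 6144 (Q 5 11 4096 (P (B 0 (L 0) (B 3 (LD 3 2) (B 5 (LD 5 2) (B 2 (F 0 1 (L 0)) (F 0 1 (F 0 4 (L 4))))))))
(Q 5 10 0 (P (B 0 (L 0) (B 3 (LD 3 2) (B 5 (LD 5 2) (B 2 (F 0 1 (L 0)) (F 0 1 (F 0 4 (L 4))))))))
(P (B 0 (L 0) (B 3 (LD 3 2) (B 1 (L 0) (B 2 (F 0 5 (LE 5 1)) (F 0 4 (F 0 5 (LE 5 1))))))))))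
(Q 5 10 6144 (P (B 0 (L 0) (B 5 (LD 5 2) (B 1 (L 0) (B 2 (F 0 3 (LE 3 1)) (F 0 3 (F 0 4 (LE 3 1))))))))
(P (B 0 (L 0) (B 1 (L 0) (B 3 (LE 3 1) (B 2 (F 0 5 (LE 5 1)) (F 0 4 (F 0 5 (LE 5 1)))))))))))))
(N 2 (Q 3 5 0 (P (B 0 (L 0) (B 4 (LD 4 1) (B 2 (L 0) (B 3 (F 0 1 (LE 3 2)) (F 0 1 (F 0 5 (LE 5 2))))))))
(Q 3 4 0 (P (B 0 (L 0) (B 1 (L 0) (S 0 (LE 5 1) (F 0 5 (LE 5 1)) (LE 3 0) (LE 0 0) X X X))))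
(Q 4 5 0 (P (B 0 (L 0) (B 1 (L 0) (B 3 (LE 3 1) (B 2 (F 0 5 (LE 0 1)) (F 0 4 (D 0)))))))
(Q 3 10 14336 (Q 3 11 12288 (P (B 0 (L 0) (B 3 (LD 3 2) (B 1 (B 2 (L 0) (B 5 (LE 5 2) (F 0 4 (L 4)))) (B 5 (LE 5 0) (F 0 2 (D 0)))))))
(N 3 (Bad 3)
(N 3 (Bad 3)
(N 3 (Bad 3)
(N 3 (Q 5 10 0 (P (B 0 (L 0) (B 5 (LD 5 3) (B 2 (B 1 (LD 0 3) (F 0 3 (LE 0 1))) (B 3 (LE 0 0) (F 0 1 (F 0 4 (LE 4 3))))))))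
(Q 4 10 0 (P (B 0 (L 0) (B 1 (L 0) (B 3 (LE 0 1) (B 5 (B 10 (D 0) (LE 5 0)) (F 0 2 (D 0)))))))
(Q 5 14 98304 (P (B 0 (L 0) (B 5 (LD 5 3) (B 2 (B 1 (LD 0 3) (F 0 3 (LE 0 1))) (B 3 (LE 0 0) (F 0 1 (F 0 4 (LE 4 3))))))))
(P (B 0 (L 0) (B 4 (LD 4 1) (B 2 (LD 0 3) (B 1 (B 3 (LE 0 2) (F 0 5 (LE 5 2))) (F 0 3 (F 0 5 (LE 5 1)))))))))))
(P (B 0 (L 0) (B 3 (L 0) (B 1 (L 0) (B 5 (LE 5 0) (F 0 2 (D 0))))))))))))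
(N 3 (Bad 3)
(N 3 (Bad 3)
(N 3 (Bad 3)
(N 3 (Bad 3)
(N 3 (Q 5 10 14336 (P (B 0 (L 0) (B 4 (LD 4 1) (B 5 (LD 5 2) (B 1 (B 2 (L 0) (F 0 3 (LE 0 2))) (F 0 2 (F 0 3 (LE 0 1))))))))
(P (B 0 (L 0) (B 1 (L 0) (B 3 (LE 0 1) (B 2 (F 0 5 (LE 5 1)) (F 0 4 (F 0 5 (LE 5 1)))))))))
(P (B 0 (L 0) (B 3 (L 0) (B 1 (L 0) (B 5 (LE 5 0) (F 0 2 (D 0))))))))))))))))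
(P (B 0 (L 0) (S 0 (L 5) (LD 4 1) (L 3) (L 0) (L 0) X X))))))))
(N 2 (Bad 2)
(N 2 (Bad 2)
(N 2 (Bad 2)
(N 2 (Bad 2)
(Q 3 5 0 (N 2 (P (B 0 (L 0) (B 4 (LD 4 1) (B 2 (L 0) (B 3 (F 0 1 (LE 3 2)) (F 0 1 (F 0 5 (LE 5 2))))))))
(P (B 0 (L 0) (B 2 (L 0) (B 4 (LD 4 1) (B 1 (LE 0 0) (F 0 3 (D 0))))))))
(N 2 (Q 3 10 14336 (Q 5 10 0 (P (B 2 (L 0) (B 0 (L 0) (S 2 (LE 13 0) (LE 12 0) (LE 11 0) (F 0 1 (F 0 4 (L 4))) X X X))))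
(Q 5 11 12288 (Q 4 10 0 (Q 5 12 8192 (P (B 0 (L 0) (B 4 (LD 4 1) (B 2 (L 0) (B 5 (F 2 10 (F 0 1 (F 2 13 (L 5)))) (F 0 1 (F 0 3 (LE 3 2))))))))
(Q 4 12 8192 (P (B 0 (L 0) (B 3 (LD 3 2) (B 2 (L 0) (B 4 (F 2 11 (F 0 1 (F 2 13 (L 0)))) (F 0 1 (F 0 5 (LE 5 2))))))))
(Q 3 12 8192 (P (B 0 (L 0) (B 4 (LD 4 1) (B 2 (L 0) (B 3 (F 2 11 (F 0 1 (F 2 13 (L 3)))) (F 0 1 (F 0 5 (LE 5 2))))))))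
(Q 4 11 0 (P (B 1 (L 0) (B 0 (L 0) (B 2 (LE 0 1) (S 2 (B 10 (D 0) (LE 13 0)) (B 10 (D 0) (B 11 (D 0) (F 2 13 (LE 12 0)))) (D 0) (D 0) X X X)))))
(Q 3 11 0 (P (B 1 (L 0) (B 0 (L 0) (B 2 (LE 0 1) (S 2 (B 10 (D 0) (LE 13 0)) (B 10 (D 0) (B 11 (D 0) (F 2 13 (LE 12 0)))) (D 0) (D 0) X X X)))))
(Q 4 5 0 (P (B 0 (L 0) (B 3 (LD 3 2) (B 2 (L 0) (B 4 (F 0 1 (LE 0 2)) (F 0 1 (F 0 5 (LE 5 2))))))))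
(P (B 2 (L 0) (S 2 (L 13) (L 12) (LD 11 0) (B 0 (L 10) (F 0 1 (F 0 5 (LE 5 2)))) (L 0) X X)))))))))
(Q 3 4 0 (P (B 0 (L 0) (B 5 (LD 5 2) (B 2 (L 0) (B 3 (F 0 1 (LE 3 2)) (F 0 1 (F 0 4 (LE 4 2))))))))
(Q 3 11 0 (Q 3 12 8192 (P (B 0 (L 0) (B 4 (LD 4 1) (B 2 (L 0) (B 3 (D 2) (F 0 1 (F 0 5 (LE 5 2))))))))
(N 3 (Bad 3)
(N 3 (Bad 3)
(N 3 (P (B 0 (L 0) (B 2 (LD 0 3) (S 2 (LE 13 0) (LE 12 0) (F 0 1 (F 0 4 (L 4))) (LE 10 0) X X X))))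
(P (B 0 (L 0) (S 0 (LD 5 2) (LD 4 1) (LD 0 2) (L 0) (L 0) X X)))))))
(Q 4 11 0 (P (B 2 (L 0) (S 2 (L 13) (L 12) (B 0 (L 11) (F 0 1 (F 0 3 (LE 3 2)))) (LD 10 0) (L 0) X X)))
(Q 3 12 8192 (P (B 0 (L 0) (B 4 (LD 4 1) (B 2 (L 0) (B 3 (F 2 11 (F 0 1 (F 2 13 (L 3)))) (F 0 1 (F 0 5 (LE 5 2))))))))
(N 3 (Bad 3)
(N 3 (Bad 3)
(N 3 (Bad 3)
(N 3 (Q 4 5 0 (P (B 0 (L 0) (B 2 (LD 0 3) (B 3 (LE 0 2) (B 4 (F 0 1 (LE 4 2)) (F 0 1 (F 0 5 (LE 5 2))))))))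
(P (B 0 (L 0) (B 2 (LD 0 3) (B 4 (LD 4 1) (B 3 (B 1 (LE 0 2) (F 0 5 (F 2 12 (F 2 13 (LE 0 1))))) (F 0 1 (F 0 5 (LE 5 2)))))))))
(P (B 0 (L 0) (S 0 (LD 5 2) (LD 4 1) (LD 0 2) (L 0) (L 0) X X))))))))))))
(Q 3 4 0 (Q 4 5 0 (P (B 0 (L 0) (B 1 (L 0) (B 2 (LE 0 1) (B 3 (F 0 5 (LE 5 1)) (F 0 4 (D 0)))))))
(N 5 (Bad 5)
(N 5 (Bad 5)
(N 5 (Bad 5)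
(N 5 (Bad 5)
(N 5 (P (B 2 (L 0) (B 5 (LE 0 2) (B 1 (B 3 (LE 3 2) (F 0 4 (LE 4 2))) (B 0 (L 0) (F 0 3 (D 0)))))))
(P (B 0 (L 0) (B 5 (L 0) (B 1 (L 0) (B 2 (LE 0 0) (F 0 3 (D 0)))))))))))))
(Q 4 5 0 (P (B 0 (L 0) (B 3 (LD 3 2) (B 1 (L 0) (B 4 (F 0 2 (LE 0 1)) (F 0 2 (F 0 5 (LE 5 1))))))))
(P (B 0 (L 0) (B 3 (LD 3 2) (B 4 (LD 4 1) (B 1 (B 2 (L 0) (F 0 5 (LE 5 2))) (F 0 2 (F 0 5 (LE 5 1))))))))))))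
(Q 5 10 14336 (Q 4 5 0 (P (B 2 (L 0) (B 0 (L 0) (B 3 (LE 3 2) (B 4 (F 0 1 (LE 4 2)) (F 0 1 (F 0 5 (LE 5 2))))))))
(Q 3 4 0 (P (B 0 (L 0) (B 5 (LD 5 2) (B 1 (L 0) (B 3 (F 0 2 (LE 3 1)) (F 0 2 (F 0 4 (LE 0 1))))))))
(P (B 0 (L 0) (B 4 (LD 4 1) (B 5 (LD 5 2) (B 1 (B 2 (L 0) (F 0 3 (LE 3 2))) (F 0 2 (F 0 3 (LE 3 1))))))))))
(Q 4 3 32 (N 3 (Bad 3)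
(N 3 (Bad 3)
(N 3 (Bad 3)
(N 3 (Q 5 14 98304 (P (B 0 (L 0) (B 5 (LD 5 3) (B 1 (L 0) (B 3 (F 0 2 (LE 0 1)) (F 0 2 (F 0 4 (LE 0 1))))))))
(Q 4 5 0 (P (B 0 (L 0) (B 1 (L 0) (B 2 (LE 0 1) (B 3 (F 0 5 (LE 5 1)) (F 0 4 (D 0)))))))
(P (B 0 (L 0) (B 4 (LD 4 1) (B 1 (B 2 (LD 0 3) (B 5 (LD 5 3) (F 0 3 (LE 0 2)))) (B 2 (B 5 (LD 5 3) (F 0 3 (LE 0 1))) (F 0 3 (F 0 5 (LE 5 1))))))))))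
(Q 4 5 0 (P (B 0 (L 0) (B 1 (L 0) (B 2 (LE 0 1) (B 3 (F 0 5 (LE 0 1)) (F 0 4 (D 0)))))))
(N 3 (Q 5 14 229376 (P (B 0 (L 0) (B 4 (LD 4 1) (B 5 (LD 5 3) (B 1 (B 2 (L 0) (F 0 3 (LE 0 2))) (F 0 2 (F 0 3 (LE 0 1))))))))
(P (B 0 (L 0) (B 4 (LD 4 1) (B 1 (B 2 (L 0) (B 3 (LE 0 2) (F 0 5 (LE 5 2)))) (B 2 (B 3 (LE 0 1) (F 0 5 (LE 5 1))) (F 0 3 (F 0 5 (LE 5 1)))))))))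
(P (B 0 (L 0) (B 4 (LD 4 1) (B 3 (L 0) (B 1 (B 2 (L 0) (F 0 5 (LE 5 2))) (F 0 2 (F 0 5 (LE 5 1))))))))))))))
(N 3 (Bad 3)
(N 3 (Bad 3)
(N 3 (Bad 3)
(N 3 (Bad 3)
(N 3 (Q 5 14 229376 (P (B 0 (L 0) (B 4 (LD 4 1) (B 5 (LD 5 3) (B 1 (B 2 (L 0) (F 0 3 (LE 0 2))) (F 0 2 (F 0 3 (LE 0 1))))))))
(P (B 0 (L 0) (B 4 (LD 4 1) (B 1 (B 2 (L 0) (B 3 (LE 0 2) (F 0 5 (LE 5 2)))) (B 2 (B 3 (LE 0 1) (F 0 5 (LE 5 1))) (F 0 3 (F 0 5 (LE 5 1)))))))))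
(P (B 0 (L 0) (B 3 (L 0) (B 4 (LD 4 1) (B 1 (B 2 (L 0) (F 0 5 (LE 5 2))) (F 0 2 (F 0 5 (LE 5 1))))))))))))))))
(N 2 (Q 4 3 32 (P (B 0 (L 0) (B 1 (L 0) (B 2 (LE 0 1) (B 5 (LE 5 0) (F 0 3 (D 0)))))))
(Q 3 10 30720 (Q 5 11 28672 (P (B 0 (L 0) (B 2 (L 0) (S 0 (LE 5 2) (LD 4 1) (LE 3 2) (B 3 (LE 3 2) (B 5 (LE 5 2) (F 0 4 (LE 4 2)))) X X X))))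
(P (B 0 (L 0) (B 4 (LD 4 1) (B 3 (L 3) (B 2 (B 1 (L 0) (F 0 5 (LE 5 1))) (F 0 1 (F 0 5 (LE 5 2)))))))))
(N 3 (Bad 3)
(N 3 (Bad 3)
(N 3 (Bad 3)
(N 3 (Bad 3)
(N 3 (Q 5 15 458752 (P (B 0 (L 0) (B 4 (LD 4 1) (B 5 (LD 5 3) (B 2 (B 1 (L 0) (F 0 3 (LE 0 1))) (F 0 1 (F 0 3 (LE 0 2))))))))
(P (B 0 (L 0) (B 2 (L 0) (B 4 (LD 4 1) (B 1 (B 3 (LE 0 2) (F 0 5 (LE 5 3))) (F 0 3 (F 0 5 (LE 5 1)))))))))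
(P (B 0 (L 0) (B 2 (L 0) (S 0 (LE 5 2) (LD 4 1) (LE 0 2) (LE 0 2) X X X)))))))))))
(P (B 0 (L 0) (B 2 (L 0) (S 0 (L 5) (LD 4 1) (L 3) (L 0) X X X))))))))))))))))
(Q 5 6 896 (Q 5 7 768 (Q 5 8 512 (P (B 0 (L 0) (B 1 (L 0) (S 0 (D 1) (LE 4 1) (LE 3 1) (LE 2 1) X X X))))
(Q 2 3 16 (P (B 0 (L 0) (B 1 (L 0) (B 5 (F 1 8 (F 1 9 (L 5))) (B 4 (LE 4 0) (F 0 2 (D 0)))))))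
(Q 2 5 0 (N 2 (Bad 2)
(N 2 (Bad 2)
(N 2 (Bad 2)
(N 2 (Q 3 4 0 (P (B 0 (L 0) (B 1 (L 0) (B 5 (F 1 8 (F 1 9 (LE 8 0))) (B 2 (LE 0 0) (F 0 3 (D 0)))))))
(Q 3 5 0 (P (B 0 (L 0) (B 1 (L 0) (S 0 (F 0 4 (F 1 8 (F 1 9 (L 4)))) (LE 4 1) (LD 3 2) (LE 0 0) X X X))))
(Q 4 5 0 (P (B 0 (L 0) (B 1 (L 0) (S 0 (F 0 3 (F 1 8 (F 1 9 (L 3)))) (LD 4 2) (LE 3 1) (LE 0 0) X X X))))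
(Q 3 10 6144 (Q 4 11 4096 (P (B 0 (L 0) (B 3 (LD 3 2) (B 4 (LD 4 2) (B 1 (LE 0 0) (F 0 2 (D 0)))))))
(P (B 0 (L 0) (B 3 (LD 3 2) (B 1 (L 0) (B 2 (F 0 4 (LE 4 1)) (F 0 4 (F 0 5 (F 1 8 (F 1 9 (L 4)))))))))))
(P (B 0 (L 0) (B 1 (L 0) (B 5 (F 1 8 (F 1 9 (LE 8 0))) (B 4 (LD 4 2) (F 0 2 (F 0 3 (LE 3 1))))))))))))
(P (B 0 (L 0) (B 1 (L 0) (S 0 (F 1 8 (F 1 9 (LE 8 0))) (LE 4 1) (LE 3 1) (LE 0 0) X X X))))))))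
(N 2 (Bad 2)
(N 2 (Bad 2)
(N 2 (Bad 2)
(N 2 (Bad 2)
(Q 3 4 0 (P (B 0 (L 0) (B 1 (L 0) (B 2 (LE 0 1) (B 5 (F 1 8 (F 1 9 (LE 5 0))) (F 0 3 (D 0)))))))
(N 2 (Q 3 5 0 (Q 4 5 0 (P (B 0 (L 0) (B 1 (L 0) (S 0 (F 0 2 (F 1 8 (F 1 9 (L 0)))) (LE 4 0) (LE 3 0) (LE 0 1) X X X))))
(P (B 0 (L 0) (B 2 (L 0) (B 4 (LE 4 2) (B 3 (F 0 1 (LE 3 2)) (F 0 1 (F 0 5 (LE 5 2)))))))))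
(Q 3 10 14336 (Q 4 11 12288 (Q 3 11 0 (Q 4 12 8192 (P (B 0 (L 0) (B 5 (LD 5 1) (B 2 (L 0) (B 3 (F 2 12 (F 0 1 (F 2 13 (L 3)))) (F 0 1 (F 0 4 (F 2 10 (F 2 13 (L 4))))))))))
(Q 3 12 8192 (P (B 0 (L 0) (B 5 (LD 5 1) (B 2 (L 0) (B 3 (D 2) (F 0 1 (F 0 4 (LE 4 2))))))))
(N 3 (Bad 3)
(N 3 (Bad 3)
(N 3 (P (B 0 (L 0) (B 2 (LD 0 3) (S 2 (LE 13 0) (LE 12 0) (F 0 1 (F 0 5 (L 5))) (LE 10 0) X X X))))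
(P (B 0 (L 0) (B 4 (LD 4 2) (B 1 (B 2 (L 0) (B 3 (F 2 12 (F 2 13 (L 0))) (F 0 5 (LE 5 2)))) (B 5 (F 1 8 (F 1 9 (B 2 (L 0) (F 0 3 (F 2 12 (F 2 13 (L 0))))))) (F 0 2 (F 0 3 (LE 0 1)))))))))))))
(Q 5 11 0 (P (B 2 (L 0) (S 2 (L 13) (L 12) (B 0 (L 11) (F 0 1 (F 0 3 (LE 3 2)))) (LD 10 0) (L 0) X X)))
(Q 3 12 8192 (P (B 0 (L 0) (B 5 (LD 5 1) (B 2 (L 0) (B 3 (F 2 11 (F 0 1 (F 2 13 (L 3)))) (F 0 1 (F 0 4 (LE 4 2))))))))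
(N 3 (Bad 3)
(N 3 (Bad 3)
(N 3 (Bad 3)
(N 3 (P (B 0 (L 0) (B 2 (LD 0 3) (S 2 (LE 13 0) (LE 12 0) (B 1 (LE 0 0) (F 0 3 (F 0 5 (F 1 8 (F 1 9 (LE 0 2)))))) (B 1 (LE 0 0) (F 0 4 (F 0 5 (F 1 8 (F 1 9 (LE 4 2)))))) X X X))))
(P (B 0 (L 0) (B 3 (LD 0 2) (B 4 (LD 4 2) (B 1 (LE 0 0) (F 0 2 (F 0 5 (F 1 8 (F 1 9 (L 0)))))))))))))))))
(Q 4 5 0 (P (B 0 (L 0) (B 3 (LD 3 2) (B 1 (L 0) (B 4 (F 0 2 (LE 4 1)) (F 0 2 (F 0 5 (F 1 8 (F 1 9 (L 0))))))))))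
(P (B 0 (L 0) (B 3 (LD 3 2) (B 5 (LD 5 1) (B 2 (B 1 (L 0) (F 0 4 (LE 4 1))) (F 0 1 (F 0 4 (LE 4 2))))))))))
(N 3 (Bad 3)
(N 3 (Bad 3)
(N 3 (Bad 3)
(N 3 (Bad 3)
(Q 4 10 14336 (Q 4 5 0 (P (B 0 (L 0) (B 1 (L 0) (B 2 (LE 0 1) (B 4 (F 0 3 (LE 0 1)) (F 0 3 (F 0 5 (F 1 8 (F 1 9 (LE 0 2))))))))))
(P (B 0 (L 0) (B 4 (LD 4 2) (B 5 (LD 5 1) (B 1 (B 2 (L 0) (F 0 3 (LE 0 2))) (F 0 2 (F 0 3 (LE 0 1)))))))))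
(N 3 (Q 4 14 229376 (Q 4 5 0 (P (B 0 (L 0) (B 1 (L 0) (B 3 (LE 0 1) (B 4 (F 0 2 (LE 4 1)) (F 0 2 (F 0 5 (F 1 8 (F 1 9 (LE 0 3))))))))))
(P (B 0 (L 0) (B 4 (LD 4 3) (B 5 (LD 5 1) (B 1 (B 2 (L 0) (F 0 3 (LE 0 2))) (F 0 2 (F 0 3 (LE 0 1)))))))))
(P (B 0 (L 0) (B 1 (L 0) (B 5 (F 1 8 (F 1 9 (L 5))) (B 2 (B 3 (LE 0 1) (F 0 4 (LE 4 1))) (F 0 3 (F 0 4 (LE 4 1)))))))))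
(P (B 0 (L 0) (B 1 (L 0) (B 3 (LE 0 1) (B 2 (B 4 (LE 4 1) (F 0 5 (F 1 8 (F 1 9 (L 0))))) (F 0 4 (F 0 5 (F 1 8 (F 1 9 (LE 4 2))))))))))))))))))
(N 2 (Q 3 5 0 (P (B 0 (L 0) (B 1 (L 0) (B 2 (LE 0 1) (B 4 (LE 4 0) (F 0 3 (D 0)))))))
(Q 4 5 0 (P (B 0 (L 0) (B 1 (L 0) (B 2 (LE 0 1) (B 4 (F 0 3 (LE 3 1)) (F 0 3 (F 0 5 (F 1 8 (F 1 9 (LE 3 2))))))))))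
(Q 3 10 30720 (P (B 0 (L 0) (B 2 (L 0) (B 3 (LE 3 2) (B 1 (B 4 (LE 4 2) (F 0 5 (LE 5 2))) (F 0 4 (F 0 5 (F 1 8 (F 1 9 (LE 4 2))))))))))
(N 3 (Bad 3)
(N 3 (Bad 3)
(N 3 (Bad 3)
(N 3 (Bad 3)
(N 3 (P (B 3 (L 0) (B 2 (LE 0 3) (B 1 (B 4 (LE 4 3) (F 0 5 (LE 5 3))) (B 0 (L 0) (F 0 4 (F 0 5 (F 1 8 (F 1 9 (LE 4 3))))))))))
(P (B 0 (L 0) (B 2 (L 0) (B 3 (LE 0 2) (B 1 (LE 0 0) (F 0 4 (F 0 5 (F 1 8 (F 1 9 (LE 4 2))))))))))))))))))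
(P (B 0 (L 0) (B 1 (L 0) (S 0 (F 1 8 (F 1 9 (L 5))) (LE 4 1) (LE 3 1) (LE 0 1) X X X))))))))))))))
(Q 2 3 16 (Q 4 5 0 (Q 2 4 0 (P (B 1 (L 0) (B 0 (L 0) (B 2 (F 0 5 (LE 2 1)) (B 3 (LE 3 0) (F 0 4 (D 0)))))))
(Q 3 4 0 (P (B 1 (L 0) (B 0 (L 0) (B 3 (F 0 5 (LE 3 1)) (B 2 (LE 2 0) (F 0 4 (D 0)))))))
(N 4 (Bad 4)
(N 4 (Bad 4)
(N 4 (Bad 4)
(N 4 (Q 2 5 0 (P (B 0 (L 0) (B 1 (L 0) (B 5 (F 0 3 (LE 3 1)) (B 4 (LE 0 0) (F 0 2 (D 0)))))))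
(Q 3 5 0 (P (B 0 (L 0) (B 1 (L 0) (B 5 (F 0 2 (LE 2 1)) (B 4 (LE 0 0) (F 0 2 (D 0)))))))
(Q 5 10 6144 (Q 5 11 4096 (P (B 0 (L 0) (B 5 (F 4 12 (LD 12 1)) (B 1 (LD 0 4) (B 4 (LE 0 0) (F 0 2 (D 0)))))))
(N 5 (Bad 5)
(N 5 (P (B 0 (L 0) (B 5 (LD 0 1) (S 5 (LD 13 4) (B 2 (F 0 1 (F 5 13 (LE 2 4))) (F 0 1 (F 0 3 (F 5 13 (LE 3 4))))) (LD 6 4) (LE 0 5) X X X))))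
(P (B 0 (L 0) (B 5 (LD 0 1) (B 1 (LD 0 4) (B 4 (LE 0 0) (F 0 2 (D 0))))))))))
(N 5 (Bad 5)
(N 5 (Bad 5)
(N 5 (P (B 0 (L 0) (B 5 (LD 0 1) (B 1 (B 4 (LE 0 5) (F 5 13 (F 5 14 (B 2 (LE 2 4) (F 0 3 (LE 3 4)))))) (B 4 (LE 0 0) (F 0 2 (D 0)))))))
(P (B 0 (L 0) (B 5 (LD 0 1) (B 1 (LD 0 4) (B 4 (LE 0 0) (F 0 2 (D 0)))))))))))))
(N 4 (P (B 0 (L 0) (B 5 (LD 5 1) (B 4 (L 0) (B 2 (F 0 1 (LE 2 4)) (F 0 1 (F 0 3 (LE 3 4))))))))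
(P (B 0 (L 0) (B 5 (LD 5 1) (B 4 (L 0) (B 1 (LE 0 0) (F 0 2 (D 0))))))))))))))
(Q 2 4 0 (P (B 0 (L 0) (B 5 (LD 5 1) (B 1 (L 0) (B 2 (D 0) (F 0 3 (F 0 4 (LE 4 1))))))))
(Q 3 4 0 (P (B 0 (L 0) (B 5 (LD 5 1) (B 1 (L 0) (B 2 (F 0 4 (LE 4 1)) (F 0 3 (D 0)))))))
(N 4 (Bad 4)
(N 4 (Bad 4)
(N 4 (Bad 4)
(N 4 (Bad 4)
(N 4 (P (B 0 (L 0) (B 5 (LD 5 1) (B 4 (L 0) (B 2 (F 0 1 (LE 2 4)) (F 0 1 (F 0 3 (LE 3 4))))))))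
(P (B 0 (L 0) (B 4 (L 0) (B 5 (LD 5 1) (B 1 (LE 0 0) (F 0 2 (D 0)))))))))))))))
(Q 2 5 0 (N 2 (Bad 2)
(N 2 (Bad 2)
(N 2 (Bad 2)
(N 2 (Q 3 5 0 (Q 3 4 0 (P (B 0 (L 0) (B 1 (L 0) (B 5 (F 0 4 (LE 4 1)) (B 2 (LE 0 0) (F 0 3 (D 0)))))))
(P (B 0 (L 0) (B 1 (L 0) (S 0 (F 0 4 (LE 4 1)) (LE 4 1) (LD 3 2) (LE 0 0) X X X)))))
(Q 4 5 0 (P (B 0 (L 0) (B 1 (L 0) (B 3 (LE 3 1) (B 2 (F 0 4 (LE 0 1)) (F 0 4 (D 0)))))))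
(Q 3 4 0 (Q 5 10 6144 (Q 5 11 4096 (P (B 0 (L 0) (B 2 (L 0) (S 2 (LE 12 0) (LE 11 0) (B 3 (F 0 1 (LE 3 2)) (F 0 1 (F 0 4 (LE 4 2)))) (F 2 12 (LD 12 1)) X X X))))
(N 5 (Bad 5)
(N 5 (P (B 0 (L 0) (B 5 (LD 0 1) (S 5 (LD 13 2) (B 3 (F 0 1 (F 5 13 (LE 3 2))) (F 0 1 (F 0 4 (F 5 13 (LE 4 2))))) (LD 6 2) (LE 0 5) X X X))))
(P (B 0 (L 0) (B 5 (LD 0 1) (B 1 (LD 0 2) (B 2 (LE 0 0) (F 0 3 (D 0))))))))))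
(N 5 (Bad 5)
(N 5 (Bad 5)
(N 5 (P (B 0 (L 0) (B 5 (LD 0 1) (B 1 (B 2 (LE 0 5) (F 5 13 (F 5 14 (B 3 (LE 3 2) (F 0 4 (LE 4 2)))))) (B 2 (LE 0 0) (F 0 3 (D 0)))))))
(P (B 0 (L 0) (B 5 (LD 0 1) (B 1 (LD 0 2) (B 2 (LE 0 0) (F 0 3 (D 0)))))))))))
(Q 3 10 6144 (Q 4 11 4096 (P (B 0 (L 0) (B 3 (LD 3 2) (B 4 (LD 4 2) (B 2 (F 0 1 (L 0)) (F 0 1 (F 0 5 (L 5))))))))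
(Q 4 10 0 (P (B 0 (L 0) (B 3 (LD 3 2) (B 4 (LD 4 2) (B 2 (F 0 1 (L 0)) (F 0 1 (F 0 5 (L 5))))))))
(P (B 0 (L 0) (B 3 (LD 3 2) (B 1 (L 0) (B 2 (F 0 4 (LE 4 1)) (F 0 4 (F 0 5 (LE 4 1))))))))))
(P (B 0 (L 0) (B 1 (L 0) (B 4 (LE 4 1) (B 2 (F 0 3 (LE 3 1)) (F 0 3 (F 0 5 (LE 3 1))))))))))))
(N 2 (Q 3 4 0 (P (B 0 (L 0) (B 5 (LD 5 1) (B 2 (L 0) (B 3 (F 0 1 (LE 3 2)) (F 0 1 (F 0 4 (LE 4 2))))))))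
(Q 3 5 0 (P (B 0 (L 0) (B 1 (L 0) (S 0 (F 0 4 (LE 4 1)) (LE 4 1) (LE 3 0) (LE 0 0) X X X))))
(Q 4 5 0 (P (B 0 (L 0) (B 1 (L 0) (B 3 (LE 3 1) (B 2 (F 0 4 (LE 0 1)) (F 0 4 (D 0)))))))
(Q 3 10 14336 (Q 3 11 12288 (P (B 0 (L 0) (B 3 (LD 3 2) (B 1 (B 2 (L 0) (B 4 (LE 4 2) (F 0 5 (L 5)))) (B 4 (LE 4 0) (F 0 2 (D 0)))))))
(P (B 0 (L 0) (B 1 (L 0) (B 4 (LE 4 1) (B 2 (F 0 3 (LE 3 1)) (F 0 3 (F 0 5 (LE 3 1)))))))))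
(P (B 0 (L 0) (B 1 (L 0) (B 4 (LE 4 1) (B 2 (F 0 3 (LE 3 1)) (F 0 3 (F 0 5 (LE 3 1))))))))))))
(P (B 0 (L 0) (S 0 (LD 5 1) (L 4) (L 3) (L 0) (L 0) X X))))))))
(N 2 (Bad 2)
(N 2 (Bad 2)
(N 2 (Bad 2)
(N 2 (Bad 2)
(Q 3 4 0 (N 2 (P (B 0 (L 0) (B 5 (LD 5 1) (B 2 (L 0) (B 3 (F 0 1 (LE 3 2)) (F 0 1 (F 0 4 (LE 4 2))))))))
(P (B 0 (L 0) (B 2 (L 0) (B 5 (LD 5 1) (B 1 (LE 0 0) (F 0 3 (D 0))))))))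
(N 2 (Q 3 10 14336 (Q 4 10 0 (P (B 2 (L 0) (B 0 (L 0) (S 2 (LE 13 0) (LE 12 0) (LE 11 0) (F 0 1 (F 0 5 (L 5))) X X X))))
(Q 4 11 12288 (Q 5 10 0 (Q 4 12 8192 (P (B 0 (L 0) (B 5 (LD 5 1) (B 2 (L 0) (B 4 (F 2 10 (F 0 1 (F 2 13 (L 4)))) (F 0 1 (F 0 3 (LE 3 2))))))))
(Q 5 12 8192 (P (B 0 (L 0) (B 3 (LD 3 2) (B 2 (L 0) (B 5 (F 2 11 (F 0 1 (F 2 13 (L 0)))) (F 0 1 (F 0 4 (LE 4 2))))))))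
(Q 3 12 8192 (P (B 0 (L 0) (B 5 (LD 5 1) (B 2 (L 0) (B 3 (F 2 11 (F 0 1 (F 2 13 (L 3)))) (F 0 1 (F 0 4 (LE 4 2))))))))
(Q 5 11 0 (P (B 1 (L 0) (B 0 (L 0) (B 2 (LE 0 1) (S 2 (B 10 (D 0) (LE 13 0)) (B 10 (D 0) (B 11 (D 0) (F 2 13 (LE 12 0)))) (D 0) (D 0) X X X)))))
(Q 3 11 0 (P (B 1 (L 0) (B 0 (L 0) (B 2 (LE 0 1) (S 2 (B 10 (D 0) (LE 13 0)) (B 10 (D 0) (B 11 (D 0) (F 2 13 (LE 12 0)))) (D 0) (D 0) X X X)))))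
(Q 4 5 0 (P (B 0 (L 0) (B 3 (LD 3 2) (B 2 (L 0) (B 4 (F 0 1 (LE 4 2)) (F 0 1 (F 0 5 (LE 0 2))))))))
(P (B 2 (L 0) (S 2 (L 13) (L 12) (LD 11 0) (B 0 (L 10) (F 0 1 (F 0 4 (LE 4 2)))) (L 0) X X)))))))))
(Q 3 5 0 (P (B 0 (L 0) (B 4 (LD 4 2) (B 2 (L 0) (B 3 (F 0 1 (LE 3 2)) (F 0 1 (F 0 5 (LE 5 2))))))))
(Q 3 11 0 (Q 3 12 8192 (P (B 0 (L 0) (B 5 (LD 5 1) (B 2 (L 0) (B 3 (D 2) (F 0 1 (F 0 4 (LE 4 2))))))))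
(N 3 (Bad 3)
(N 3 (Bad 3)
(N 3 (P (B 0 (L 0) (B 2 (LD 0 3) (S 2 (LE 13 0) (LE 12 0) (F 0 1 (F 0 5 (L 5))) (LE 10 0) X X X))))
(P (B 0 (L 0) (S 0 (LD 5 1) (LD 4 2) (LD 0 2) (L 0) (L 0) X X)))))))
(Q 5 11 0 (P (B 2 (L 0) (S 2 (L 13) (L 12) (B 0 (L 11) (F 0 1 (F 0 3 (LE 3 2)))) (LD 10 0) (L 0) X X)))
(Q 3 12 8192 (P (B 0 (L 0) (B 5 (LD 5 1) (B 2 (L 0) (B 3 (F 2 11 (F 0 1 (F 2 13 (L 3)))) (F 0 1 (F 0 4 (LE 4 2))))))))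
(N 3 (Bad 3)
(N 3 (Bad 3)
(N 3 (Bad 3)
(N 3 (Q 4 5 0 (P (B 0 (L 0) (B 2 (LD 0 3) (B 3 (LE 0 2) (B 4 (F 0 1 (LE 4 2)) (F 0 1 (F 0 5 (LE 5 2))))))))
(P (B 0 (L 0) (B 4 (LD 4 2) (B 5 (LD 5 1) (B 2 (B 1 (LD 0 3) (F 0 3 (LE 0 1))) (F 0 1 (F 0 3 (LE 0 2)))))))))
(P (B 0 (L 0) (S 0 (LD 5 1) (LD 4 2) (LD 0 2) (L 0) (L 0) X X))))))))))))
(Q 3 5 0 (P (B 2 (L 0) (B 0 (L 0) (B 4 (LE 4 2) (B 3 (F 0 1 (LE 3 2)) (F 0 1 (F 0 5 (LE 5 2))))))))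
(Q 4 5 0 (P (B 0 (L 0) (B 3 (LD 3 2) (B 1 (L 0) (B 4 (F 0 2 (LE 4 1)) (F 0 2 (F 0 5 (LE 0 1))))))))
(P (B 0 (L 0) (B 3 (LD 3 2) (B 5 (LD 5 1) (B 1 (B 2 (L 0) (F 0 4 (LE 4 2))) (F 0 2 (F 0 4 (LE 4 1))))))))))))
(Q 4 10 14336 (Q 4 5 0 (P (B 2 (L 0) (B 0 (L 0) (B 3 (LE 3 2) (B 4 (F 0 1 (LE 4 2)) (F 0 1 (F 0 5 (LE 5 2))))))))
(Q 3 5 0 (P (B 0 (L 0) (B 4 (LD 4 2) (B 1 (L 0) (B 3 (F 0 2 (LE 3 1)) (F 0 2 (F 0 5 (LE 0 1))))))))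
(P (B 0 (L 0) (B 4 (LD 4 2) (B 5 (LD 5 1) (B 1 (B 2 (L 0) (F 0 3 (LE 3 2))) (F 0 2 (F 0 3 (LE 3 1))))))))))
(Q 5 3 16 (P (B 0 (L 0) (B 1 (L 0) (B 4 (LE 4 1) (B 3 (F 0 2 (LE 3 1)) (F 0 2 (F 0 5 (LE 0 1))))))))
(N 3 (Bad 3)
(N 3 (Bad 3)
(N 3 (Bad 3)
(N 3 (Bad 3)
(N 3 (Q 4 14 229376 (P (B 0 (L 0) (B 4 (LD 4 3) (B 5 (LD 5 1) (B 1 (B 2 (L 0) (F 0 3 (LE 0 2))) (F 0 2 (F 0 3 (LE 0 1))))))))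
(P (B 0 (L 0) (B 5 (LD 5 1) (B 1 (B 2 (L 0) (B 3 (LE 0 2) (F 0 4 (LE 4 2)))) (B 2 (B 3 (LE 0 1) (F 0 4 (LE 4 1))) (F 0 3 (F 0 4 (LE 4 1)))))))))
(P (B 0 (L 0) (B 3 (L 0) (B 5 (LD 5 1) (B 1 (B 2 (L 0) (F 0 4 (LE 4 2))) (F 0 2 (F 0 4 (LE 4 1))))))))))))))))
(N 2 (Q 5 3 16 (P (B 0 (L 0) (B 1 (L 0) (B 2 (LE 0 1) (B 4 (LE 4 0) (F 0 3 (D 0)))))))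
(Q 3 10 30720 (Q 4 11 28672 (P (B 0 (L 0) (B 2 (L 0) (S 0 (LD 5 1) (LE 4 2) (LE 3 2) (B 3 (LE 3 2) (B 4 (LE 4 2) (F 0 5 (LE 5 2)))) X X X))))
(P (B 0 (L 0) (B 5 (LD 5 1) (B 3 (L 3) (B 2 (B 1 (L 0) (F 0 4 (LE 4 1))) (F 0 1 (F 0 4 (LE 4 2)))))))))
(N 3 (Bad 3)
(N 3 (Bad 3)
(N 3 (Bad 3)
(N 3 (Bad 3)
(N 3 (Q 4 15 458752 (P (B 0 (L 0) (B 4 (LD 4 3) (B 5 (LD 5 1) (B 2 (B 1 (L 0) (F 0 3 (LE 0 1))) (F 0 1 (F 0 3 (LE 0 2))))))))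
(P (B 0 (L 0) (B 2 (L 0) (B 5 (LD 5 1) (B 1 (B 3 (LE 0 2) (F 0 4 (LE 4 3))) (F 0 3 (F 0 4 (LE 4 1)))))))))
(P (B 0 (L 0) (B 2 (L 0) (S 0 (LD 5 1) (LE 4 2) (LE 0 2) (LE 0 2) X X X)))))))))))
(P (B 0 (L 0) (B 2 (L 0) (S 0 (LD 5 1) (L 4) (L 3) (L 0) X X X))))))))))))))
(Q 2 3 48 (Q 2 4 32 (Q 5 3 16 (Q 4 5 0 (P (B 1 (L 0) (B 0 (L 0) (B 2 (F 0 5 (LE 2 1)) (B 3 (F 0 4 (LE 3 1)) (F 0 4 (D 0)))))))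
(P (B 0 (L 0) (B 1 (L 0) (B 2 (F 0 5 (LE 5 1)) (B 4 (LE 4 0) (F 0 3 (D 0))))))))
(Q 2 5 0 (P (B 0 (L 0) (B 1 (L 0) (S 0 (LE 5 0) (LE 4 0) (LE 3 0) (D 0) X X X))))
(N 2 (Bad 2)
(N 2 (Bad 2)
(Q 3 4 0 (P (B 0 (L 0) (S 0 (L 5) (LE 4 0) (LE 3 0) (B 1 (L 0) (F 0 5 (LE 5 1))) (L 0) X X)))
(Q 5 10 2048 (N 2 (P (B 0 (LE 0 2) (B 5 (LD 5 2) (B 2 (F 0 1 (L 0)) (B 3 (LE 3 0) (F 0 1 (F 0 4 (LE 4 2))))))))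
(Q 5 11 4096 (Q 5 12 0 (N 2 (P (B 0 (L 0) (B 1 (L 0) (B 2 (F 0 5 (LE 5 1)) (B 3 (LE 3 0) (F 0 4 (F 0 5 (D 2))))))))
(N 2 (P (B 0 (L 0) (B 5 (LD 5 2) (B 2 (F 0 1 (L 0)) (B 3 (LE 3 0) (F 0 1 (F 0 4 (L 4))))))))
(P (B 0 (L 0) (S 0 (L 5) (L 4) (L 3) (LE 0 0) (L 0) X X)))))
(P (B 0 (L 0) (B 1 (L 0) (S 0 (LE 5 1) (LE 4 0) (LE 3 0) (F 0 5 (LE 5 1)) X X X)))))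
(P (B 0 (L 0) (B 1 (L 0) (S 0 (LE 5 1) (LE 4 0) (LE 3 0) (F 0 5 (LE 5 1)) X X X))))))
(P (B 0 (L 0) (B 1 (L 0) (S 0 (LE 5 1) (LE 4 0) (LE 3 0) (F 0 5 (LE 5 1)) X X X))))))))))
(N 2 (Bad 2)
(N 2 (Bad 2)
(N 2 (Bad 2)
(Q 3 4 32 (Q 4 5 0 (P (B 0 (L 0) (B 1 (L 0) (B 3 (F 0 5 (LE 5 1)) (B 2 (LE 0 0) (F 0 4 (D 0)))))))
(Q 3 5 0 (P (B 0 (L 0) (B 1 (L 0) (S 0 (LE 5 0) (LE 4 0) (D 0) (LE 0 0) X X X))))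
(Q 4 10 6144 (Q 3 10 0 (N 2 (P (B 0 (L 0) (B 4 (LD 4 2) (B 5 (L 5) (B 2 (F 0 1 (L 0)) (F 0 1 (F 0 3 (LE 3 2))))))))
(P (B 0 (L 0) (B 2 (L 0) (B 5 (L 5) (B 3 (F 0 1 (L 3)) (F 0 1 (F 0 4 (L 4)))))))))
(Q 3 11 4096 (N 2 (P (B 0 (L 0) (B 4 (LD 4 2) (B 5 (L 5) (B 2 (F 0 1 (L 0)) (F 0 1 (F 0 3 (LE 3 2))))))))
(P (B 0 (L 0) (B 2 (L 0) (B 5 (L 5) (B 3 (F 0 1 (L 3)) (F 0 1 (F 0 4 (L 4)))))))))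
(N 3 (Bad 3)
(N 3 (Bad 3)
(Q 5 13 16384 (N 3 (P (B 0 (LE 0 3) (B 5 (LD 5 3) (B 3 (F 0 1 (L 0)) (B 2 (LE 0 0) (F 0 1 (F 0 4 (LE 4 3))))))))
(Q 2 13 0 (P (B 0 (L 0) (B 1 (L 0) (B 2 (LE 0 0) (B 5 (LE 5 0) (F 0 3 (D 0)))))))
(Q 2 14 32768 (P (B 0 (L 0) (B 1 (L 0) (B 2 (LE 0 0) (B 5 (LE 5 0) (F 0 3 (D 0)))))))
(N 2 (P (B 0 (L 0) (B 4 (LD 4 2) (B 1 (B 2 (L 0) (B 5 (LE 5 2) (F 0 3 (L 0)))) (B 5 (LE 5 0) (F 0 2 (D 0)))))))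
(P (B 0 (L 0) (B 1 (L 0) (B 2 (LE 0 0) (B 5 (LE 5 0) (F 0 3 (D 0)))))))))))
(P (B 0 (L 0) (B 1 (L 0) (S 0 (LE 5 1) (LE 4 0) (F 0 5 (LE 5 1)) (LE 0 0) X X X)))))))))
(P (B 0 (L 0) (B 1 (L 0) (B 3 (F 0 5 (LE 5 1)) (B 5 (LE 5 0) (F 0 2 (F 0 4 (LE 4 1)))))))))))
(N 2 (Q 3 10 6144 (Q 3 11 4096 (P (B 0 (L 0) (B 3 (F 2 12 (L 12)) (S 0 (LD 5 2) (LD 4 2) (L 0) (LD 0 2) X X X))))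
(N 3 (Bad 3)
(N 3 (Bad 3)
(N 3 (Q 4 10 0 (P (B 0 (L 0) (B 2 (LE 0 3) (S 2 (LD 12 3) (LD 11 3) (F 0 1 (F 0 5 (LE 5 2))) (LE 0 2) X X X))))
(Q 5 10 0 (P (B 0 (L 0) (B 2 (LE 0 3) (S 2 (LD 12 3) (LD 11 3) (F 0 1 (F 0 4 (LE 4 2))) (LE 0 2) X X X))))
(Q 4 11 4096 (P (B 2 (LE 0 3) (S 2 (L 12) (LD 11 0) (LD 10 0) (LE 0 2) (L 0) X X)))
(Q 5 11 4096 (P (B 2 (LE 0 3) (S 2 (L 12) (LD 11 0) (LD 10 0) (LE 0 2) (L 0) X X)))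
(P (B 2 (B 1 (LE 0 3) (B 4 (LE 4 1) (F 0 5 (LE 5 1)))) (S 2 (L 12) (L 11) (LD 10 0) (LE 0 2) (L 0) X X)))))))
(N 3 (Q 4 5 0 (P (B 0 (L 0) (B 2 (L 0) (B 3 (LE 0 2) (B 4 (F 0 1 (LE 4 2)) (F 0 1 (F 0 5 (LE 5 2))))))))
(Q 4 11 4096 (P (B 0 (L 0) (B 4 (LD 4 2) (B 1 (B 3 (LE 0 2) (B 5 (LD 5 2) (F 0 2 (L 0)))) (B 5 (LE 5 0) (F 0 2 (D 0)))))))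
(P (B 0 (L 0) (B 3 (LE 0 2) (B 5 (LD 5 2) (B 4 (B 1 (LD 4 2) (F 0 2 (LE 4 1))) (F 0 1 (F 0 2 (L 0))))))))))
(P (B 0 (L 0) (B 3 (LE 0 2) (S 0 (LD 5 2) (LD 4 2) (L 0) (LD 0 2) X X X)))))))))
(N 3 (Bad 3)
(N 3 (Bad 3)
(N 3 (Bad 3)
(N 3 (Q 4 10 6144 (Q 5 10 0 (Q 4 11 4096 (P (B 0 (L 0) (B 5 (LD 5 2) (B 2 (LE 0 0) (B 3 (B 1 (L 0) (F 0 4 (F 2 12 (LE 0 1)))) (F 0 1 (F 0 4 (D 2))))))))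
(Q 5 11 4096 (P (B 0 (L 0) (B 4 (LD 4 2) (B 2 (LE 0 0) (B 3 (B 1 (L 0) (F 0 5 (F 2 12 (LE 0 1)))) (F 0 1 (F 0 5 (D 2))))))))
(Q 4 5 0 (P (B 0 (L 0) (B 1 (L 0) (B 2 (B 4 (LE 4 1) (F 0 5 (LE 5 1))) (B 3 (B 10 (D 0) (LE 0 0)) (F 0 4 (D 0)))))))
(P (B 0 (L 0) (B 4 (LD 4 2) (B 5 (LD 5 2) (B 2 (F 0 1 (L 0)) (F 0 1 (F 0 3 (L 0)))))))))))
(Q 5 13 49152 (Q 5 14 32768 (P (B 0 (L 0) (B 4 (LD 4 2) (B 2 (B 1 (L 0) (F 0 5 (F 3 15 (LE 0 1)))) (B 3 (LE 0 0) (F 0 1 (F 0 5 (D 3))))))))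
(Q 5 11 4096 (Q 5 12 0 (P (B 0 (L 0) (B 4 (LD 4 2) (B 2 (LE 0 0) (B 3 (B 1 (L 0) (F 0 5 (F 2 10 (LE 0 1)))) (F 0 1 (F 0 5 (D 2))))))))
(P (B 0 (L 0) (B 4 (LD 4 2) (B 2 (B 1 (L 0) (F 0 5 (LE 5 1))) (B 3 (B 1 (L 0) (F 0 5 (LE 5 1))) (F 0 1 (F 0 5 (F 2 10 (F 2 12 (F 3 14 (F 3 15 (L 5)))))))))))))
(P (B 0 (L 0) (B 4 (LD 4 2) (B 2 (B 1 (L 0) (F 0 5 (LE 5 1))) (B 3 (B 1 (L 0) (F 0 5 (LE 5 1))) (F 0 1 (F 0 5 (F 3 14 (F 3 15 (LE 5 2))))))))))))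
(Q 5 11 4096 (P (B 3 (L 0) (B 2 (L 0) (B 1 (B 4 (F 2 11 (F 2 12 (LE 4 3))) (F 0 5 (F 2 10 (F 2 12 (LE 5 3))))) (B 0 (L 0) (F 0 4 (F 0 5 (D 2))))))))
(P (B 0 (L 0) (B 4 (LD 4 2) (B 1 (L 0) (B 2 (F 0 5 (LE 5 1)) (F 0 3 (F 0 5 (LE 5 1)))))))))))
(Q 5 10 6144 (Q 4 13 49152 (Q 5 11 4096 (P (B 0 (L 0) (B 4 (LD 4 3) (B 2 (LE 0 0) (B 3 (B 1 (L 0) (F 0 5 (F 2 12 (LE 0 1)))) (F 0 1 (F 0 5 (D 2))))))))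
(Q 5 14 32768 (P (B 3 (L 0) (B 1 (B 2 (L 0) (B 4 (F 3 14 (F 3 15 (LE 4 2))) (F 0 5 (F 2 11 (F 2 12 (F 3 13 (F 3 15 (L 5)))))))) (B 2 (B 4 (LE 4 1) (F 0 5 (LE 5 1))) (B 0 (L 0) (F 0 4 (F 0 5 (D 3))))))))
(Q 5 13 0 (P (B 0 (L 0) (B 4 (LD 4 3) (B 2 (B 1 (L 0) (F 0 5 (LE 5 1))) (B 3 (B 1 (L 0) (F 0 5 (LE 5 1))) (F 0 1 (F 0 5 (F 2 11 (F 2 12 (F 3 14 (F 3 15 (L 5))))))))))))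
(P (B 0 (L 0) (B 4 (LD 4 3) (B 2 (B 1 (L 0) (F 0 5 (LE 5 1))) (B 1 (B 3 (L 0) (F 0 5 (F 2 11 (F 2 12 (LE 5 3))))) (F 0 3 (F 0 5 (LE 5 1)))))))))))
(P (B 0 (L 0) (B 5 (LD 5 2) (B 1 (L 0) (B 2 (F 0 4 (LE 4 1)) (F 0 3 (F 0 4 (LE 4 1)))))))))
(Q 4 5 0 (P (B 0 (L 0) (B 1 (L 0) (B 2 (B 4 (LE 4 1) (F 0 5 (LE 5 1))) (B 3 (LE 0 0) (F 0 4 (D 0)))))))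
(Q 4 13 49152 (P (B 0 (L 0) (B 4 (LD 4 3) (B 2 (B 1 (L 0) (F 0 5 (LE 5 1))) (B 5 (LD 5 3) (F 0 1 (F 0 3 (L 0))))))))
(P (B 0 (L 0) (B 2 (B 1 (L 0) (B 4 (LE 4 1) (F 0 5 (LE 5 1)))) (B 5 (LD 5 3) (B 1 (B 4 (LD 4 3) (F 0 3 (L 0))) (F 0 3 (F 0 4 (LE 4 1))))))))))))
(N 3 (Q 4 5 0 (P (B 0 (L 0) (B 3 (L 0) (B 1 (LD 0 2) (B 2 (LE 0 0) (F 0 4 (D 0)))))))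
(Q 4 10 6144 (P (B 0 (L 0) (B 4 (LD 4 2) (B 1 (B 3 (L 0) (B 5 (LD 5 2) (F 0 2 (L 0)))) (B 5 (LE 5 0) (F 0 2 (D 0)))))))
(P (B 0 (L 0) (B 3 (L 0) (B 5 (LD 5 2) (B 1 (B 4 (LD 4 2) (F 0 2 (L 0))) (F 0 2 (F 0 4 (LE 4 1))))))))))
(P (B 0 (L 0) (B 3 (L 0) (S 0 (LD 5 2) (LD 4 2) (L 0) (LD 0 2) X X X))))))))))
(N 2 (Q 4 5 0 (P (B 2 (L 0) (B 3 (L 3) (B 1 (B 4 (LE 4 2) (F 0 5 (LE 5 2))) (B 0 (L 0) (F 0 4 (D 0)))))))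
(Q 3 10 14336 (Q 3 11 12288 (Q 3 12 8192 (P (B 0 (L 0) (S 0 (L 5) (L 4) (F 2 13 (L 13)) (L 0) (L 0) X X)))
(N 3 (Bad 3)
(N 3 (P (B 0 (L 0) (B 2 (F 3 14 (L 0)) (S 0 (LD 5 3) (LD 4 3) (LE 0 2) (LD 0 3) X X X))))
(P (B 0 (L 0) (S 0 (L 5) (L 4) (LE 0 2) (L 0) (L 0) X X))))))
(N 3 (Bad 3)
(N 3 (Bad 3)
(N 3 (Q 4 14 32768 (P (B 0 (L 0) (B 4 (LD 4 3) (B 1 (B 2 (LE 0 3) (B 5 (LD 5 3) (F 0 3 (L 0)))) (B 5 (LE 5 0) (F 0 2 (D 0)))))))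
(P (B 0 (L 0) (B 2 (LE 0 3) (B 5 (LD 5 3) (B 4 (B 1 (LD 4 3) (F 0 3 (LE 4 1))) (F 0 1 (F 0 3 (L 0)))))))))
(N 3 (Q 4 10 0 (Q 4 11 12288 (P (B 0 (L 0) (B 4 (LD 4 2) (B 1 (B 2 (L 0) (B 3 (L 0) (F 0 5 (LE 5 2)))) (B 5 (LE 5 0) (F 0 2 (D 0)))))))
(Q 4 14 98304 (P (B 0 (L 0) (B 4 (LD 4 3) (B 1 (B 2 (L 0) (B 3 (L 0) (F 0 5 (LE 5 2)))) (B 5 (LE 5 0) (F 0 2 (D 0)))))))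
(N 4 (Bad 4)
(N 4 (Bad 4)
(N 4 (Bad 4)
(N 4 (P (B 0 (L 0) (B 2 (LD 0 4) (S 0 (LE 5 2) (LD 0 3) (LD 0 4) (LE 0 2) X X X))))
(P (B 0 (L 0) (B 4 (L 0) (B 1 (L 0) (B 5 (LE 5 0) (F 0 2 (D 0)))))))))))))
(Q 4 11 12288 (Q 5 14 98304 (Q 5 15 65536 (P (B 0 (L 0) (B 3 (L 0) (B 4 (LD 4 2) (B 2 (LE 0 0) (F 0 1 (F 0 5 (F 3 10 (F 3 16 (L 5))))))))))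
(P (B 0 (L 0) (B 2 (L 0) (B 4 (LE 4 2) (B 5 (B 1 (LD 5 3) (F 0 3 (LE 5 1))) (F 0 1 (F 0 3 (L 0)))))))))
(P (B 0 (L 0) (B 2 (L 0) (B 4 (LE 4 2) (B 3 (B 1 (L 0) (F 0 5 (LE 5 1))) (F 0 1 (F 0 5 (LE 5 2)))))))))
(Q 5 11 12288 (P (B 0 (L 0) (B 3 (L 0) (B 5 (LD 5 2) (B 1 (B 2 (L 0) (F 0 4 (LE 4 2))) (F 0 2 (F 0 4 (LE 4 1))))))))
(P (B 0 (L 0) (B 1 (L 0) (S 0 (LE 5 1) (LE 4 1) (LE 0 0) (B 4 (LE 4 1) (F 0 5 (LE 5 1))) X X X)))))))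
(P (B 0 (L 0) (S 0 (L 5) (L 4) (L 0) (L 0) (L 0) X X))))))))
(N 3 (Bad 3)
(N 3 (Bad 3)
(N 3 (Bad 3)
(N 3 (Q 4 14 98304 (P (B 0 (L 0) (B 4 (LD 4 3) (B 1 (B 2 (L 0) (B 5 (LD 5 3) (F 0 3 (L 0)))) (B 5 (LE 5 0) (F 0 2 (D 0)))))))
(P (B 0 (L 0) (B 2 (L 0) (B 5 (LD 5 3) (B 1 (B 4 (LD 4 3) (F 0 3 (L 0))) (F 0 3 (F 0 4 (LE 4 1)))))))))
(N 3 (Q 4 10 14336 (Q 5 14 229376 (Q 5 15 196608 (P (B 0 (L 0) (B 5 (LD 5 3) (B 1 (B 2 (L 0) (B 4 (LE 4 2) (F 0 3 (L 0)))) (B 4 (LE 4 0) (F 0 2 (D 0)))))))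
(P (B 0 (L 0) (B 2 (L 0) (B 4 (LE 4 2) (B 5 (B 1 (LD 5 3) (F 0 3 (LE 5 1))) (F 0 1 (F 0 3 (L 0)))))))))
(P (B 0 (L 0) (B 2 (L 0) (B 4 (LE 4 2) (B 1 (B 3 (L 0) (F 0 5 (LE 5 2))) (F 0 3 (F 0 5 (LE 5 1)))))))))
(Q 5 10 14336 (P (B 0 (L 0) (B 3 (L 0) (B 5 (LD 5 2) (B 1 (B 2 (L 0) (F 0 4 (LE 4 2))) (F 0 2 (F 0 4 (LE 4 1))))))))
(P (B 0 (L 0) (B 2 (B 1 (L 0) (B 4 (LE 4 1) (F 0 5 (LE 5 1)))) (S 0 (LE 5 2) (LE 4 2) (L 0) (LE 0 2) X X X))))))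
(P (B 0 (L 0) (S 0 (L 5) (L 4) (L 0) (L 0) (L 0) X X))))))))))
(Q 4 5 0 (P (B 0 (L 0) (B 3 (L 3) (B 2 (L 0) (B 4 (F 0 1 (L 4)) (F 0 1 (F 0 5 (L 5))))))))
(N 2 (Q 3 10 30720 (Q 3 11 28672 (Q 3 12 24576 (P (B 0 (L 0) (S 0 (L 5) (L 4) (LE 0 2) (L 0) (L 0) X X)))
(N 3 (Bad 3)
(N 3 (P (B 0 (L 0) (B 2 (F 3 15 (L 0)) (B 4 (LD 4 3) (B 5 (LD 5 3) (F 0 1 (F 0 3 (L 0))))))))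
(P (B 0 (L 0) (S 0 (L 5) (L 4) (L 0) (L 0) (L 0) X X))))))
(N 3 (Bad 3)
(N 3 (Bad 3)
(N 3 (P (B 0 (L 0) (B 2 (LE 0 3) (B 4 (LD 4 3) (B 5 (LD 5 3) (F 0 1 (F 0 3 (L 0))))))))
(P (B 0 (L 0) (S 0 (L 5) (L 4) (L 0) (L 0) (L 0) X X)))))))
(N 3 (Bad 3)
(N 3 (Bad 3)
(N 3 (Bad 3)
(N 3 (P (B 0 (L 0) (B 2 (L 0) (B 4 (LD 4 3) (B 5 (LD 5 3) (F 0 1 (F 0 3 (L 0))))))))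
(P (B 0 (L 0) (S 0 (L 5) (L 4) (L 0) (L 0) (L 0) X X))))))))
(P (B 0 (L 0) (B 2 (L 0) (B 4 (L 4) (B 5 (LE 5 0) (F 0 1 (F 0 3 (L 3)))))))))))))))))
(N 2 (Bad 2)
(N 2 (Bad 2)
(N 2 (Bad 2)
(N 2 (Bad 2)
(Q 3 4 32 (N 2 (Q 5 10 14336 (P (B 0 (L 0) (B 5 (LD 5 2) (B 2 (L 0) (B 3 (F 0 1 (LE 3 2)) (F 0 1 (F 0 4 (LE 4 2))))))))
(Q 3 5 0 (P (B 0 (L 0) (B 1 (L 0) (B 2 (LE 0 1) (B 3 (D 0) (F 0 4 (F 0 5 (LE 4 1))))))))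
(Q 4 5 0 (P (B 0 (L 0) (B 1 (L 0) (B 2 (LE 0 1) (B 3 (F 0 5 (LE 3 1)) (F 0 4 (D 0)))))))
(N 5 (Bad 5)
(N 5 (Bad 5)
(N 5 (Bad 5)
(N 5 (Bad 5)
(N 5 (P (B 2 (L 0) (B 5 (LE 0 2) (B 1 (B 3 (LE 3 2) (F 0 4 (LE 4 2))) (B 0 (L 0) (F 0 3 (D 0)))))))
(P (B 0 (L 0) (B 2 (L 0) (B 5 (LE 0 2) (B 3 (F 0 1 (LE 3 2)) (F 0 1 (F 0 4 (LE 4 2))))))))))))))))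
(P (B 0 (L 0) (B 1 (L 0) (B 2 (LE 0 1) (B 5 (LE 5 0) (F 0 3 (D 0))))))))
(Q 4 5 0 (N 2 (P (B 0 (L 0) (B 2 (L 0) (B 3 (LE 3 2) (B 4 (F 0 1 (LE 4 2)) (F 0 1 (F 0 5 (LE 5 2))))))))
(P (B 0 (L 0) (B 3 (L 3) (B 2 (L 0) (B 4 (F 0 1 (L 4)) (F 0 1 (F 0 5 (L 5)))))))))
(N 2 (Q 3 10 14336 (Q 4 11 12288 (Q 5 12 8192 (Q 3 13 0 (P (B 0 (L 0) (B 4 (LD 4 2) (B 1 (B 2 (L 0) (B 3 (F 2 11 (F 2 12 (L 3))) (F 0 5 (LE 5 2)))) (B 2 (LE 0 0) (F 0 3 (F 0 5 (D 2))))))))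
(Q 4 13 0 (P (B 0 (L 0) (B 3 (LD 3 2) (B 1 (B 2 (L 0) (B 4 (F 2 10 (F 2 12 (L 4))) (F 0 5 (LE 5 2)))) (B 2 (LE 0 0) (F 0 4 (F 0 5 (D 2))))))))
(Q 5 13 0 (P (B 0 (L 0) (B 3 (LD 3 2) (B 1 (B 2 (L 0) (B 5 (F 2 10 (F 2 11 (L 5))) (F 0 4 (LE 4 2)))) (B 2 (LE 0 0) (F 0 4 (F 0 5 (D 2))))))))
(Q 5 10 0 (P (B 0 (L 0) (B 3 (LD 3 2) (B 1 (B 2 (L 0) (B 5 (F 2 11 (F 2 13 (L 5))) (F 0 4 (LE 4 2)))) (B 2 (LE 0 0) (F 0 4 (F 0 5 (D 2))))))))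
(Q 5 11 0 (P (B 0 (L 0) (B 4 (LD 4 2) (B 1 (B 2 (L 0) (B 5 (F 2 10 (F 2 13 (L 5))) (F 0 3 (LE 3 2)))) (B 2 (LE 0 0) (F 0 3 (F 0 5 (D 2))))))))
(P (B 0 (L 0) (B 3 (LD 3 2) (B 4 (LD 4 2) (B 5 (B 1 (LD 5 2) (F 0 2 (LE 5 1))) (F 0 1 (F 0 2 (L 0)))))))))))))
(Q 5 10 0 (Q 4 10 0 (P (B 2 (L 0) (S 2 (L 13) (L 12) (LD 11 0) (F 0 0 (L 10)) (L 0) X X)))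
(P (B 2 (L 0) (S 2 (L 13) (L 12) (LD 11 0) (B 0 (L 10) (F 0 1 (F 0 4 (LE 4 2)))) (L 0) X X))))
(P (B 0 (L 0) (B 3 (LD 3 2) (B 4 (LD 4 2) (B 2 (B 1 (L 0) (F 0 5 (LE 5 1))) (F 0 1 (F 0 5 (LE 5 2))))))))))
(Q 5 10 0 (P (B 0 (L 0) (B 3 (LD 3 2) (B 5 (LD 5 2) (B 2 (B 1 (L 0) (F 0 4 (LE 4 1))) (F 0 1 (F 0 4 (LE 4 2))))))))
(Q 5 11 12288 (P (B 0 (L 0) (B 3 (LD 3 2) (B 5 (LD 5 2) (B 2 (B 1 (L 0) (F 0 4 (LE 4 1))) (F 0 1 (F 0 4 (LE 4 2))))))))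
(N 5 (Bad 5)
(N 5 (Bad 5)
(N 5 (Bad 5)
(N 5 (Bad 5)
(N 5 (Q 4 14 229376 (P (B 0 (L 0) (B 3 (LD 3 2) (B 4 (LD 4 5) (B 1 (B 2 (L 0) (F 0 5 (LE 0 2))) (F 0 2 (F 0 5 (LE 0 1))))))))
(P (B 0 (L 0) (B 3 (LD 3 2) (B 1 (B 2 (L 0) (B 4 (LE 4 2) (F 0 5 (LE 0 2)))) (B 2 (B 5 (LE 0 1) (F 0 4 (LE 4 1))) (F 0 4 (F 0 5 (LE 4 1)))))))))
(P (B 0 (L 0) (B 5 (L 0) (B 3 (LD 3 2) (B 2 (B 1 (L 0) (F 0 4 (LE 4 1))) (F 0 1 (F 0 4 (LE 4 2))))))))))))))))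
(N 3 (Bad 3)
(N 3 (Bad 3)
(N 3 (Bad 3)
(N 3 (Bad 3)
(Q 4 10 14336 (Q 5 10 0 (P (B 0 (L 0) (B 4 (LD 4 2) (B 5 (LD 5 2) (B 1 (B 2 (L 0) (F 0 3 (LE 0 2))) (F 0 2 (F 0 3 (LE 0 1))))))))
(Q 5 11 12288 (P (B 0 (L 0) (B 4 (LD 4 2) (B 5 (LD 5 2) (B 1 (B 2 (L 0) (F 0 3 (LE 0 2))) (F 0 2 (F 0 3 (LE 0 1))))))))
(N 3 (Q 5 14 229376 (P (B 0 (L 0) (B 4 (LD 4 2) (B 5 (LD 5 3) (B 1 (B 2 (L 0) (F 0 3 (LE 0 2))) (F 0 2 (F 0 3 (LE 0 1))))))))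
(P (B 0 (L 0) (B 4 (LD 4 2) (B 1 (B 2 (L 0) (B 3 (LE 0 2) (F 0 5 (LE 5 2)))) (B 2 (B 3 (LE 0 1) (F 0 5 (LE 5 1))) (F 0 3 (F 0 5 (LE 5 1)))))))))
(P (B 0 (L 0) (B 3 (L 0) (B 4 (LD 4 2) (B 1 (B 2 (L 0) (F 0 5 (LE 5 2))) (F 0 2 (F 0 5 (LE 5 1)))))))))))
(Q 5 10 14336 (N 3 (Q 4 14 229376 (P (B 0 (L 0) (B 4 (LD 4 3) (B 5 (LD 5 2) (B 1 (B 2 (L 0) (F 0 3 (LE 0 2))) (F 0 2 (F 0 3 (LE 0 1))))))))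
(P (B 0 (L 0) (B 5 (LD 5 2) (B 1 (B 2 (L 0) (B 3 (LE 0 2) (F 0 4 (LE 4 2)))) (B 2 (B 3 (LE 0 1) (F 0 4 (LE 4 1))) (F 0 3 (F 0 4 (LE 4 1)))))))))
(P (B 0 (L 0) (B 3 (L 0) (B 5 (LD 5 2) (B 1 (B 2 (L 0) (F 0 4 (LE 4 2))) (F 0 2 (F 0 4 (LE 4 1)))))))))
(N 3 (Q 4 14 229376 (Q 5 15 196608 (P (B 0 (L 0) (B 4 (LD 4 3) (B 5 (LD 5 3) (B 1 (B 2 (L 0) (F 0 3 (LE 0 2))) (F 0 2 (F 0 3 (LE 0 1))))))))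
(P (B 0 (L 0) (B 4 (LD 4 3) (B 1 (B 2 (L 0) (B 3 (LE 0 2) (F 0 5 (LE 5 2)))) (B 3 (B 2 (LE 0 1) (F 0 5 (LE 5 1))) (F 0 2 (F 0 5 (LE 5 1)))))))))
(Q 5 14 229376 (P (B 0 (L 0) (B 5 (LD 5 3) (B 1 (B 2 (L 0) (B 3 (LE 0 2) (F 0 4 (LE 4 2)))) (B 2 (B 3 (LE 0 1) (F 0 4 (LE 4 1))) (F 0 3 (F 0 4 (LE 4 1))))))))
(N 4 (Bad 4)
(N 4 (Bad 4)
(N 4 (Bad 4)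
(N 4 (Bad 4)
(N 4 (P (B 4 (L 0) (B 1 (B 2 (LE 0 4) (B 3 (LE 0 2) (F 0 5 (LE 5 2)))) (B 2 (B 3 (LE 0 1) (F 0 5 (LE 5 1))) (B 0 (L 0) (F 0 3 (F 0 5 (LE 5 1))))))))
(P (B 0 (L 0) (B 4 (L 0) (B 1 (L 0) (B 2 (B 3 (LE 0 1) (F 0 5 (LE 5 1))) (F 0 3 (F 0 5 (LE 5 1)))))))))))))))
(P (B 0 (L 0) (B 3 (L 0) (B 4 (L 4) (B 1 (B 2 (L 0) (F 0 5 (LE 5 2))) (F 0 2 (F 0 5 (LE 5 1))))))))))))))))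
(N 2 (Q 3 10 30720 (P (B 0 (L 0) (B 2 (L 0) (S 0 (LE 5 2) (LE 4 2) (LE 3 2) (B 3 (LE 3 2) (B 4 (LE 4 2) (F 0 5 (LE 5 2)))) X X X))))
(N 3 (Bad 3)
(N 3 (Bad 3)
(N 3 (Bad 3)
(N 3 (Bad 3)
(N 3 (P (B 0 (L 0) (B 2 (L 0) (S 0 (LE 5 2) (LE 4 2) (LE 0 2) (B 3 (LE 0 2) (B 4 (LE 4 3) (F 0 5 (LE 5 3)))) X X X))))
(P (B 0 (L 0) (B 2 (L 0) (S 0 (LE 5 2) (LE 4 2) (LE 0 2) (LE 0 2) X X X))))))))))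
(P (B 0 (L 0) (B 2 (L 0) (S 0 (L 5) (L 4) (L 3) (B 3 (L 3) (B 4 (L 4) (F 0 5 (L 5)))) X X X)))))))))))))))))
(N 1 (Q 2 3 48 (Q 2 4 32 (P (B 0 (L 0) (B 1 (L 0) (S 0 (LE 5 1) (LE 4 0) (LE 3 0) (F 0 5 (LE 2 1)) X X X))))
(Q 3 4 32 (P (B 0 (L 0) (B 1 (L 0) (B 2 (LE 2 0) (B 5 (LE 5 0) (F 0 3 (D 0)))))))
(Q 4 5 0 (P (B 0 (L 0) (B 1 (L 0) (B 2 (LE 2 0) (B 3 (LE 3 0) (F 0 4 (D 0)))))))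
(Q 4 6 1920 (P (B 0 (L 0) (B 1 (L 0) (B 4 (LE 4 1) (B 5 (LE 5 0) (F 0 2 (D 0)))))))
(N 4 (Bad 4)
(N 4 (Bad 4)
(N 4 (Bad 4)
(N 4 (Bad 4)
(N 4 (P (B 4 (L 0) (B 0 (L 0) (B 1 (LE 0 4) (B 5 (LE 5 0) (F 0 2 (D 0)))))))
(P (B 0 (L 0) (B 1 (L 0) (B 4 (LE 0 1) (B 5 (LE 5 0) (F 0 2 (D 0))))))))))))))))
(Q 3 4 32 (P (B 0 (L 0) (B 2 (L 2) (B 1 (L 0) (B 5 (LE 5 0) (F 0 3 (D 0)))))))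
(Q 4 5 0 (P (B 0 (L 0) (B 2 (L 2) (B 1 (L 0) (B 3 (LE 3 0) (F 0 4 (D 0)))))))
(Q 2 6 1920 (Q 3 6 0 (Q 4 6 0 (P (B 0 (L 0) (B 1 (L 0) (B 6 (D 0) (S 0 (LE 5 1) (LE 4 1) (LE 3 1) (LE 2 1) X X X)))))
(Q 5 6 0 (P (B 0 (L 0) (B 1 (L 0) (B 6 (D 0) (S 0 (LE 5 1) (LE 4 1) (LE 3 1) (LE 2 1) X X X)))))
(Q 4 7 1792 (Q 2 7 0 (P (B 0 (L 0) (B 1 (L 0) (S 1 (LE 10 0) (LE 9 0) (LE 8 0) (F 0 3 (F 0 5 (L 5))) (F 0 4 (F 0 5 (L 4))) X X))))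
(Q 3 7 0 (P (B 0 (L 0) (B 1 (L 0) (S 1 (LE 10 0) (LE 9 0) (LE 8 0) (F 0 2 (F 0 5 (L 5))) (F 0 4 (F 0 5 (L 4))) X X))))
(Q 5 7 0 (P (B 0 (L 0) (B 1 (L 0) (S 0 (LE 5 1) (LE 4 1) (LE 3 1) (LE 2 1) X X X))))
(Q 5 8 1536 (P (B 0 (L 0) (B 1 (L 0) (S 0 (LE 5 1) (LE 4 1) (LE 3 1) (LE 2 1) X X X))))
(N 5 (Bad 5)
(N 5 (Bad 5)
(N 5 (Bad 5)
(N 5 (Bad 5)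
(N 5 (Q 4 8 1536 (P (B 0 (L 0) (B 1 (L 0) (S 0 (LE 0 1) (B 6 (F 0 5 (LE 0 1)) (F 1 9 (F 1 10 (L 4)))) (LE 3 1) (LE 2 1) X X X))))
(Q 2 8 1536 (Q 2 9 1024 (P (B 0 (L 0) (B 1 (L 0) (B 3 (LE 3 1) (B 2 (F 1 7 (F 0 5 (F 1 10 (L 0)))) (F 0 4 (F 0 5 (LE 0 1))))))))
(Q 3 8 0 (P (B 0 (L 0) (B 1 (L 0) (S 1 (LE 10 0) (LE 9 0) (F 0 4 (F 0 5 (L 0))) (LE 7 0) (F 0 4 (F 0 5 (L 0))) X X))))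
(Q 2 11 28672 (Q 2 12 24576 (P (B 0 (L 0) (B 1 (L 0) (B 3 (LE 3 1) (B 5 (LE 0 0) (F 0 2 (F 0 4 (F 1 9 (F 1 10 (F 5 13 (F 5 14 (L 4))))))))))))
(N 2 (Bad 2)
(N 2 (P (B 0 (L 0) (B 2 (LD 0 1) (S 2 (LE 15 0) (LE 11 0) (LE 8 0) (F 0 4 (F 0 5 (LE 0 2))) X X X))))
(P (B 0 (L 0) (B 1 (L 0) (S 0 (LE 0 1) (LE 4 1) (LE 3 1) (LD 0 5) X X X)))))))
(P (B 0 (L 0) (B 1 (L 0) (B 3 (LE 3 1) (B 5 (B 2 (LE 2 1) (F 0 4 (LE 0 1))) (F 0 2 (F 0 4 (F 1 9 (F 1 10 (LE 4 5)))))))))))))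
(Q 2 11 28672 (Q 2 12 24576 (Q 2 13 16384 (P (B 0 (L 0) (B 3 (L 3) (B 1 (L 0) (B 5 (LE 0 0) (F 0 2 (D 5)))))))
(N 2 (Bad 2)
(N 2 (P (B 0 (L 0) (B 2 (LD 0 5) (B 5 (F 2 6 (F 0 4 (F 2 15 (L 0)))) (B 3 (LE 3 0) (F 0 1 (F 0 4 (LE 4 2))))))))
(P (B 0 (L 0) (B 1 (L 0) (S 0 (LE 0 1) (LE 4 1) (LE 3 1) (LD 0 5) X X X)))))))
(N 2 (Bad 2)
(N 2 (Bad 2)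
(N 2 (P (B 0 (L 0) (B 2 (LD 0 5) (S 2 (LE 16 0) (LE 15 0) (LE 11 0) (F 0 4 (F 0 5 (LE 0 2))) X X X))))
(P (B 0 (L 0) (B 1 (L 0) (S 0 (LE 0 1) (LE 4 1) (LE 3 1) (LD 0 5) X X X))))))))
(N 2 (Bad 2)
(N 2 (Bad 2)
(N 2 (Bad 2)
(N 2 (P (B 0 (L 0) (B 1 (LD 0 2) (S 0 (LE 0 1) (LE 4 1) (LD 3 2) (LE 0 1) X X X))))
(P (B 0 (L 0) (B 1 (L 0) (S 0 (LE 0 1) (LE 4 1) (LE 3 1) (LE 0 1) X X X)))))))))))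
(P (B 0 (L 0) (B 1 (L 0) (S 0 (LE 0 1) (LE 4 1) (LE 3 1) (LE 2 1) X X X)))))))))))))
(N 4 (Bad 4)
(N 4 (Bad 4)
(N 4 (Bad 4)
(N 4 (Bad 4)
(N 4 (Q 5 7 1792 (Q 2 7 0 (P (B 0 (L 0) (B 1 (L 0) (S 1 (LE 10 0) (LE 9 0) (LE 8 0) (F 0 3 (F 0 4 (L 0))) (F 0 4 (F 0 5 (L 0))) X X))))
(Q 3 7 0 (P (B 0 (L 0) (B 1 (L 0) (S 1 (LE 10 0) (LE 9 0) (LE 8 0) (F 0 2 (F 0 4 (L 0))) (F 0 4 (F 0 5 (L 0))) X X))))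
(Q 5 8 1536 (P (B 0 (L 0) (B 1 (L 0) (S 0 (B 6 (F 0 4 (LE 0 1)) (F 1 9 (F 1 10 (L 5)))) (LE 0 1) (LE 3 1) (LE 2 1) X X X))))
(Q 2 8 1536 (Q 2 9 1024 (P (B 0 (L 0) (B 1 (L 0) (B 3 (LE 3 1) (B 2 (F 1 7 (F 0 4 (F 1 10 (L 0)))) (F 0 4 (F 0 5 (LE 0 1))))))))
(Q 3 8 0 (P (B 0 (L 0) (B 1 (L 0) (S 1 (LE 10 0) (LE 9 0) (F 0 4 (F 0 5 (L 0))) (LE 7 0) (F 0 4 (F 0 5 (L 0))) X X))))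
(Q 2 11 28672 (Q 2 12 24576 (P (B 0 (L 0) (B 1 (L 0) (B 3 (LE 3 1) (B 4 (LE 0 0) (F 0 2 (F 0 5 (F 1 9 (F 1 10 (F 4 13 (F 4 14 (L 5))))))))))))
(N 2 (Bad 2)
(N 2 (P (B 0 (L 0) (B 2 (LD 0 1) (S 2 (LE 15 0) (LE 11 0) (LE 8 0) (F 0 4 (F 0 5 (LE 0 2))) X X X))))
(P (B 0 (L 0) (B 1 (L 0) (S 0 (LE 5 1) (LE 0 1) (LE 3 1) (LD 0 4) X X X)))))))
(P (B 0 (L 0) (B 1 (L 0) (B 3 (LE 3 1) (B 4 (B 2 (LE 2 1) (F 0 5 (LE 0 1))) (F 0 2 (F 0 5 (F 1 9 (F 1 10 (LE 5 4)))))))))))))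
(Q 2 11 28672 (Q 2 12 24576 (Q 2 13 16384 (P (B 0 (L 0) (B 3 (L 3) (B 4 (L 0) (B 2 (D 4) (F 0 1 (F 0 5 (LE 5 4))))))))
(N 2 (Bad 2)
(N 2 (P (B 0 (L 0) (B 2 (LD 0 4) (B 4 (F 2 6 (F 0 5 (F 2 15 (L 0)))) (B 3 (LE 3 0) (F 0 1 (F 0 5 (LE 5 2))))))))
(P (B 0 (L 0) (B 1 (L 0) (S 0 (LE 5 1) (LE 0 1) (LE 3 1) (LD 0 4) X X X)))))))
(N 2 (Bad 2)
(N 2 (Bad 2)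
(N 2 (P (B 0 (L 0) (B 2 (LD 0 4) (S 2 (LE 16 0) (LE 15 0) (LE 11 0) (F 0 4 (F 0 5 (LE 0 2))) X X X))))
(P (B 0 (L 0) (B 1 (L 0) (S 0 (LE 5 1) (LE 0 1) (LE 3 1) (LD 0 4) X X X))))))))
(N 2 (Bad 2)
(N 2 (Bad 2)
(N 2 (Bad 2)
(N 2 (P (B 0 (L 0) (B 1 (LD 0 2) (S 0 (LE 5 1) (LE 0 1) (LD 3 2) (LE 0 1) X X X))))
(P (B 0 (L 0) (B 1 (L 0) (S 0 (LE 5 1) (LE 0 1) (LE 3 1) (LE 0 1) X X X)))))))))))))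
(Q 5 11 28672 (Q 2 7 1792 (Q 2 8 1536 (P (B 0 (L 0) (B 1 (L 0) (S 0 (LD 5 4) (LE 0 1) (LE 3 1) (F 1 9 (F 1 10 (L 2))) X X X))))
(Q 3 7 0 (P (B 0 (L 0) (S 0 (LD 5 4) (L 0) (LD 3 1) (LD 2 1) (L 0) X X)))
(Q 3 8 1536 (P (B 0 (L 0) (S 0 (LD 5 4) (L 0) (LD 3 1) (LD 2 1) (L 0) X X)))
(Q 3 11 0 (P (B 0 (L 0) (S 0 (LD 5 4) (L 0) (LD 3 4) (LD 2 1) (L 0) X X)))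
(Q 3 12 24576 (P (B 0 (L 0) (S 0 (LD 5 4) (L 0) (LD 3 4) (LD 2 1) (L 0) X X)))
(P (B 0 (L 0) (B 2 (LD 2 1) (B 5 (LD 5 4) (B 1 (B 4 (L 0) (F 0 3 (LE 3 4))) (F 0 3 (F 0 4 (LE 3 1)))))))))))))
(Q 2 11 0 (P (B 4 (L 0) (B 0 (L 0) (S 4 (LE 14 0) (LE 13 0) (LE 12 0) (F 0 1 (F 0 3 (L 0))) X X X))))
(Q 2 12 24576 (Q 3 7 1792 (P (B 0 (L 0) (S 0 (LD 5 4) (L 0) (LD 3 1) (LD 2 4) (L 0) X X)))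
(Q 3 11 0 (P (B 0 (L 0) (S 0 (LD 5 4) (L 0) (LD 3 4) (LD 2 4) (L 0) X X)))
(Q 3 12 0 (P (B 0 (L 0) (S 0 (LD 5 4) (L 0) (LD 3 4) (LD 2 4) (L 0) X X)))
(P (B 0 (L 0) (B 2 (LD 2 4) (B 5 (LD 5 4) (B 1 (B 4 (L 0) (F 0 3 (LE 3 4))) (F 0 3 (F 0 4 (LE 3 1)))))))))))
(P (B 0 (L 0) (B 5 (LD 5 4) (B 3 (L 3) (B 1 (B 4 (L 0) (F 0 2 (LE 2 4))) (F 0 2 (F 0 4 (LE 2 1)))))))))))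
(N 5 (Bad 5)
(N 5 (Bad 5)
(N 5 (Bad 5)
(N 5 (Bad 5)
(N 5 (Q 2 7 1792 (P (B 0 (L 0) (B 2 (LD 2 1) (B 3 (L 3) (B 1 (B 4 (L 0) (F 0 5 (LE 0 4))) (F 0 4 (F 0 5 (LE 0 1))))))))
(Q 2 11 28672 (P (B 0 (L 0) (B 2 (LD 2 4) (B 3 (L 3) (B 1 (B 4 (L 0) (F 0 5 (LE 0 4))) (F 0 4 (F 0 5 (LE 0 1))))))))
(P (B 5 (L 0) (B 0 (L 0) (B 3 (LE 3 5) (B 1 (B 4 (LE 0 5) (F 0 2 (LE 2 4))) (F 0 2 (F 0 4 (LE 2 1))))))))))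
(P (B 0 (L 0) (B 1 (L 0) (S 0 (LE 0 1) (LE 0 1) (LE 3 1) (LE 2 1) X X X)))))))))))
(P (B 0 (L 0) (B 1 (L 0) (S 0 (LE 5 1) (LE 0 1) (LE 3 1) (LE 2 1) X X X))))))))))))
(Q 3 7 1792 (Q 4 6 0 (Q 5 6 0 (P (B 0 (L 0) (B 1 (L 0) (B 6 (D 0) (S 0 (LE 5 1) (LE 4 1) (LE 3 1) (LE 2 1) X X X)))))
(Q 2 7 0 (P (B 0 (L 0) (B 1 (L 0) (S 1 (LE 10 0) (LE 9 0) (LE 8 0) (F 0 4 (F 0 5 (L 5))) (F 0 3 (F 0 5 (L 3))) X X))))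
(Q 4 7 0 (P (B 0 (L 0) (B 1 (L 0) (S 1 (LE 10 0) (LE 9 0) (LE 8 0) (F 0 2 (F 0 5 (L 5))) (F 0 3 (F 0 5 (L 3))) X X))))
(Q 5 7 0 (P (B 0 (L 0) (B 1 (L 0) (S 0 (LE 5 1) (LE 4 1) (LE 3 1) (LE 2 1) X X X))))
(Q 5 8 1536 (P (B 0 (L 0) (B 1 (L 0) (S 0 (LE 5 1) (LE 4 1) (LE 3 1) (LE 2 1) X X X))))
(N 5 (Bad 5)
(N 5 (Bad 5)
(N 5 (Bad 5)
(N 5 (Bad 5)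
(N 5 (Q 3 8 1536 (P (B 0 (L 0) (B 1 (L 0) (S 0 (LE 0 1) (LE 4 1) (B 6 (F 0 5 (LE 0 1)) (F 1 9 (F 1 10 (L 3)))) (LE 2 1) X X X))))
(Q 2 8 1536 (Q 2 9 1024 (P (B 0 (L 0) (B 1 (L 0) (S 0 (LE 0 1) (LE 4 1) (LE 3 1) (F 1 7 (F 1 10 (LE 2 0))) X X X))))
(Q 4 8 0 (P (B 0 (L 0) (B 1 (L 0) (S 1 (LE 10 0) (LE 9 0) (F 0 3 (F 0 5 (L 0))) (LE 7 0) (F 0 3 (F 0 5 (L 0))) X X))))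
(Q 2 11 28672 (Q 2 12 24576 (P (B 0 (L 0) (B 1 (L 0) (B 3 (LE 3 1) (B 5 (B 6 (D 0) (LE 0 0)) (F 0 2 (F 0 4 (F 5 13 (F 5 14 (LE 4 1))))))))))
(N 2 (Bad 2)
(N 2 (P (B 0 (L 0) (B 2 (LD 0 1) (S 2 (LE 15 0) (LE 11 0) (LE 8 0) (F 0 3 (F 0 5 (LE 0 2))) X X X))))
(P (B 0 (L 0) (B 1 (L 0) (S 0 (LE 0 1) (LE 4 1) (LE 3 1) (LD 0 5) X X X)))))))
(N 2 (Bad 2)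
(N 2 (Bad 2)
(N 2 (P (B 0 (L 0) (B 2 (LD 0 1) (S 2 (LE 16 0) (LE 15 0) (LE 8 0) (F 0 3 (F 0 5 (L 0))) X X X))))
(P (B 0 (L 0) (B 1 (L 0) (S 0 (LE 0 1) (LE 4 1) (LE 3 1) (LE 0 1) X X X))))))))))
(Q 2 11 28672 (Q 2 12 24576 (Q 2 13 16384 (P (B 0 (L 0) (B 1 (L 0) (B 3 (LE 3 1) (B 5 (LE 0 0) (F 0 2 (D 5)))))))
(N 2 (Bad 2)
(N 2 (P (B 0 (L 0) (B 2 (LD 0 5) (B 5 (F 2 6 (F 0 3 (F 2 15 (L 0)))) (B 4 (LE 4 0) (F 0 1 (F 0 3 (LE 3 2))))))))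
(P (B 0 (L 0) (B 1 (L 0) (S 0 (LE 0 1) (LE 4 1) (LE 3 1) (LD 0 5) X X X)))))))
(N 2 (Bad 2)
(N 2 (Bad 2)
(N 2 (P (B 0 (L 0) (B 2 (LD 0 5) (S 2 (LE 16 0) (LE 15 0) (LE 11 0) (F 0 3 (F 0 5 (LE 0 2))) X X X))))
(P (B 0 (L 0) (B 1 (L 0) (S 0 (LE 0 1) (LE 4 1) (LE 3 1) (LD 0 5) X X X))))))))
(N 2 (Bad 2)
(N 2 (Bad 2)
(N 2 (Bad 2)
(N 2 (P (B 0 (L 0) (B 1 (LD 0 2) (S 0 (LE 0 1) (LD 4 2) (LE 3 1) (LE 0 1) X X X))))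
(P (B 0 (L 0) (B 1 (L 0) (S 0 (LE 0 1) (LE 4 1) (LE 3 1) (LE 0 1) X X X)))))))))))
(P (B 0 (L 0) (B 1 (L 0) (S 0 (LE 0 1) (LE 4 1) (LE 3 1) (LE 2 1) X X X))))))))))))))
(Q 4 7 0 (Q 2 7 0 (P (B 0 (L 0) (B 1 (L 0) (B 7 (D 0) (S 0 (LE 5 1) (LE 4 1) (LE 3 1) (LE 2 1) X X X)))))
(Q 5 7 0 (P (B 0 (L 0) (B 1 (L 0) (B 7 (D 0) (S 0 (LE 5 1) (LE 4 1) (LE 3 1) (LE 2 1) X X X)))))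
(Q 5 6 0 (P (B 0 (L 0) (B 1 (L 0) (S 0 (LE 5 1) (LE 4 1) (LE 3 1) (LE 2 1) X X X))))
(Q 5 8 1536 (P (B 0 (L 0) (B 1 (L 0) (S 0 (LE 5 1) (LE 4 1) (LE 3 1) (LE 2 1) X X X))))
(N 5 (Bad 5)
(N 5 (Bad 5)
(N 5 (Bad 5)
(N 5 (Bad 5)
(N 5 (Q 2 8 1536 (P (B 0 (L 0) (B 1 (L 0) (S 0 (LE 0 1) (LE 4 1) (LE 3 1) (B 7 (F 0 5 (LE 0 1)) (F 1 9 (F 1 10 (L 2)))) X X X))))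
(Q 2 11 28672 (Q 2 12 24576 (Q 2 13 16384 (P (B 0 (L 0) (B 1 (L 0) (B 7 (F 0 2 (F 0 5 (L 0))) (B 5 (LE 0 1) (B 2 (D 5) (F 0 3 (F 0 4 (LE 3 1)))))))))
(N 2 (Bad 2)
(N 2 (P (B 0 (L 0) (B 2 (LD 0 5) (S 0 (F 2 6 (F 2 15 (LE 0 0))) (LE 4 2) (LE 3 2) (LE 0 2) X X X))))
(P (B 0 (L 0) (B 1 (L 0) (S 0 (LE 0 1) (LE 4 1) (LE 3 1) (LD 0 5) X X X)))))))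
(N 2 (Bad 2)
(N 2 (Bad 2)
(N 2 (P (B 0 (L 0) (B 1 (LD 0 2) (S 0 (LD 0 2) (LE 4 1) (LE 3 1) (LD 0 5) X X X))))
(P (B 0 (L 0) (B 1 (L 0) (S 0 (LE 0 1) (LE 4 1) (LE 3 1) (LD 0 5) X X X))))))))
(N 2 (Bad 2)
(N 2 (Bad 2)
(N 2 (Bad 2)
(N 2 (P (B 0 (L 0) (B 1 (LD 0 2) (S 0 (LE 0 1) (LE 4 1) (LE 3 1) (LE 0 1) X X X))))
(P (B 0 (L 0) (B 1 (L 0) (S 0 (LE 0 1) (LE 4 1) (LE 3 1) (LE 0 1) X X X))))))))))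
(P (B 0 (L 0) (B 1 (L 0) (S 0 (LE 0 1) (LE 4 1) (LE 3 1) (LE 2 1) X X X)))))))))))))
(Q 4 8 1536 (Q 5 6 0 (P (B 0 (L 0) (B 1 (L 0) (S 0 (LE 5 1) (LE 4 1) (LE 3 1) (LE 2 1) X X X))))
(Q 5 7 0 (P (B 0 (L 0) (B 1 (L 0) (S 0 (LE 5 1) (LE 4 1) (LE 3 1) (LE 2 1) X X X))))
(Q 5 8 0 (P (B 0 (L 0) (B 1 (L 0) (S 0 (LE 5 1) (LE 4 1) (LE 3 1) (LE 2 1) X X X))))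
(Q 5 9 1024 (P (B 0 (L 0) (B 1 (L 0) (S 0 (LE 5 1) (LE 4 1) (LE 3 1) (LE 2 1) X X X))))
(N 5 (Bad 5)
(N 5 (Bad 5)
(N 5 (Bad 5)
(N 5 (Bad 5)
(N 5 (Q 2 7 0 (Q 2 8 0 (P (B 0 (L 0) (B 1 (L 0) (S 0 (LE 0 1) (LE 4 1) (LE 3 1) (F 1 9 (F 1 10 (L 2))) X X X))))
(Q 2 9 1024 (P (B 0 (L 0) (B 1 (L 0) (B 3 (LE 3 1) (B 2 (F 1 8 (F 0 5 (F 1 10 (L 0)))) (F 0 4 (F 0 5 (LE 0 1))))))))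
(Q 3 8 0 (P (B 0 (L 0) (B 1 (L 0) (S 1 (LE 10 0) (LE 9 0) (F 0 2 (F 0 5 (LE 0 1))) (F 0 4 (F 0 5 (L 0))) (LE 6 0) X X))))
(Q 4 9 1024 (P (B 0 (L 0) (B 1 (L 0) (B 3 (LE 3 1) (B 2 (B 4 (D 1) (F 0 5 (LE 0 1))) (F 0 4 (F 0 5 (LE 0 1))))))))
(Q 2 11 28672 (Q 2 12 24576 (P (B 0 (L 0) (B 1 (L 0) (B 3 (LE 3 1) (B 5 (LE 0 0) (F 0 2 (F 0 4 (F 1 9 (F 1 10 (F 5 13 (F 5 14 (L 4))))))))))))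
(N 2 (Bad 2)
(N 2 (P (B 0 (L 0) (B 2 (LD 0 1) (S 2 (LE 15 0) (LE 11 0) (F 0 4 (F 0 5 (LE 0 2))) (LE 6 0) X X X))))
(P (B 0 (L 0) (B 1 (L 0) (S 0 (LE 0 1) (LE 4 1) (LE 3 1) (LD 0 5) X X X)))))))
(P (B 0 (L 0) (B 1 (L 0) (B 3 (LE 3 1) (B 5 (B 2 (LE 2 1) (F 0 4 (LE 0 1))) (F 0 2 (F 0 4 (F 1 9 (F 1 10 (LE 4 5)))))))))))))))
(Q 2 8 0 (Q 2 9 1024 (P (B 0 (L 0) (B 1 (L 0) (S 0 (LE 0 1) (LE 4 1) (LE 3 1) (F 1 7 (F 1 10 (LE 2 0))) X X X))))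
(Q 3 8 0 (P (B 0 (L 0) (B 1 (L 0) (B 8 (D 0) (S 0 (LE 0 1) (LE 4 1) (LE 3 1) (LE 2 1) X X X)))))
(Q 3 9 1024 (P (B 0 (L 0) (B 1 (L 0) (S 0 (LE 0 1) (LE 4 1) (B 8 (F 0 5 (LE 0 1)) (F 1 6 (F 1 10 (LE 3 0)))) (LE 2 1) X X X))))
(Q 2 11 28672 (Q 2 12 24576 (P (B 0 (L 0) (B 1 (L 0) (B 3 (LE 3 1) (B 5 (B 8 (D 0) (LE 0 0)) (F 0 2 (F 0 4 (F 5 13 (F 5 14 (LE 4 1))))))))))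
(N 2 (Bad 2)
(N 2 (P (B 0 (L 0) (B 2 (LD 0 1) (S 2 (LE 15 0) (LE 11 0) (F 0 3 (F 0 5 (LE 0 2))) (LE 6 0) X X X))))
(P (B 0 (L 0) (B 1 (L 0) (S 0 (LE 0 1) (LE 4 1) (LE 3 1) (LD 0 5) X X X)))))))
(N 2 (Bad 2)
(N 2 (Bad 2)
(N 2 (P (B 0 (L 0) (B 2 (LD 0 1) (S 2 (LE 16 0) (LE 15 0) (F 0 3 (F 0 5 (L 0))) (LE 6 0) X X X))))
(P (B 0 (L 0) (B 1 (L 0) (S 0 (LE 0 1) (LE 4 1) (LE 3 1) (LE 0 1) X X X)))))))))))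
(Q 2 9 1024 (Q 2 10 0 (P (B 0 (L 0) (B 1 (L 0) (S 0 (LE 0 1) (LE 4 1) (LE 3 1) (F 1 7 (F 1 8 (F 0 5 (L 0)))) X X X))))
(Q 3 8 0 (P (B 0 (L 0) (B 1 (L 0) (S 0 (LE 0 1) (LE 4 1) (LE 3 1) (B 8 (F 0 5 (LE 0 1)) (F 1 7 (F 1 10 (LE 2 0)))) X X X))))
(Q 3 10 0 (P (B 0 (L 0) (B 1 (L 0) (B 4 (LE 4 1) (B 2 (B 3 (D 1) (F 0 5 (LE 0 1))) (F 0 3 (F 0 5 (LE 0 1))))))))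
(Q 4 10 0 (P (B 0 (L 0) (B 1 (L 0) (S 0 (LE 0 1) (B 2 (D 1) (LE 4 0)) (LE 3 1) (LE 2 1) X X X))))
(Q 2 11 28672 (Q 2 12 24576 (Q 2 13 16384 (P (B 0 (L 0) (B 2 (F 5 5 (LD 0 1)) (S 0 (L 0) (L 4) (L 3) (L 0) X X X))))
(N 2 (P (B 0 (L 0) (B 2 (LD 0 1) (B 1 (F 2 11 (F 2 12 (LE 0 0))) (B 5 (F 2 6 (F 2 9 (LE 0 0))) (F 0 3 (F 0 4 (LE 3 1))))))))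
(P (B 0 (L 0) (B 1 (L 0) (S 0 (LE 0 1) (LE 4 1) (LE 3 1) (LD 0 5) X X X))))))
(N 2 (Bad 2)
(N 2 (P (B 0 (L 0) (B 2 (LD 0 1) (S 0 (LE 0 2) (LE 4 2) (LE 3 2) (F 2 11 (F 2 15 (LE 0 0))) X X X))))
(P (B 0 (L 0) (B 1 (L 0) (S 0 (LE 0 1) (LE 4 1) (LE 3 1) (LD 0 5) X X X)))))))
(P (B 0 (L 0) (B 1 (L 0) (S 0 (LE 0 1) (LE 4 1) (LE 3 1) (B 10 (LE 2 1) (F 1 7 (F 1 8 (F 0 5 (L 2))))) X X X)))))))))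
(Q 2 11 28672 (Q 2 12 24576 (Q 2 13 16384 (P (B 0 (L 0) (B 3 (L 3) (B 1 (L 0) (B 5 (LE 0 0) (F 0 2 (D 5)))))))
(N 2 (Bad 2)
(N 2 (P (B 0 (L 0) (B 2 (LD 0 5) (S 0 (F 2 6 (F 2 15 (LE 0 0))) (LE 4 2) (LE 3 2) (LE 0 2) X X X))))
(P (B 0 (L 0) (B 1 (L 0) (S 0 (LE 0 1) (LE 4 1) (LE 3 1) (LD 0 5) X X X)))))))
(N 2 (Bad 2)
(N 2 (Bad 2)
(N 2 (P (B 0 (L 0) (B 1 (LD 0 2) (S 0 (LD 0 2) (LE 4 1) (LE 3 1) (LD 0 5) X X X))))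
(P (B 0 (L 0) (B 1 (L 0) (S 0 (LE 0 1) (LE 4 1) (LE 3 1) (LD 0 5) X X X))))))))
(N 2 (Bad 2)
(N 2 (Bad 2)
(N 2 (Bad 2)
(N 2 (P (B 0 (L 0) (B 1 (LD 0 2) (S 0 (LE 0 1) (LE 4 1) (LE 3 1) (LE 0 1) X X X))))
(P (B 0 (L 0) (B 1 (L 0) (S 0 (LE 0 1) (LE 4 1) (LE 3 1) (LE 0 1) X X X))))))))))))
(P (B 0 (L 0) (B 1 (L 0) (S 0 (LE 0 1) (LE 4 1) (LE 3 1) (LE 2 1) X X X)))))))))))))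
(N 4 (Bad 4)
(N 4 (Bad 4)
(N 4 (Bad 4)
(N 4 (Bad 4)
(N 4 (Q 5 6 0 (Q 2 7 0 (P (B 0 (L 0) (B 1 (L 0) (S 1 (LE 10 0) (LE 9 0) (LE 8 0) (F 0 4 (F 0 5 (L 0))) (F 0 3 (F 0 4 (L 0))) X X))))
(Q 5 7 0 (P (B 0 (L 0) (B 1 (L 0) (S 1 (LE 10 0) (LE 9 0) (LE 8 0) (F 0 2 (F 0 4 (L 0))) (F 0 3 (F 0 4 (L 0))) X X))))
(Q 3 8 1536 (P (B 0 (L 0) (B 1 (L 0) (S 0 (LE 5 1) (LE 0 1) (B 6 (F 0 4 (LE 0 1)) (F 1 9 (F 1 10 (L 3)))) (LE 2 1) X X X))))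
(Q 2 8 1536 (Q 2 9 1024 (P (B 0 (L 0) (B 1 (L 0) (S 0 (LE 5 1) (LE 0 1) (LE 3 1) (F 1 7 (F 1 10 (LE 2 0))) X X X))))
(Q 5 8 0 (P (B 0 (L 0) (B 1 (L 0) (S 1 (LE 10 0) (LE 9 0) (F 0 3 (F 0 4 (L 0))) (LE 7 0) (F 0 3 (F 0 4 (L 0))) X X))))
(Q 2 11 28672 (Q 2 12 24576 (P (B 0 (L 0) (B 1 (L 0) (B 3 (LE 3 1) (B 4 (B 6 (D 0) (LE 0 0)) (F 0 2 (F 0 5 (F 4 13 (F 4 14 (LE 5 1))))))))))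
(N 2 (Bad 2)
(N 2 (P (B 0 (L 0) (B 2 (LD 0 1) (S 2 (LE 15 0) (LE 11 0) (LE 8 0) (F 0 3 (F 0 4 (LE 0 2))) X X X))))
(P (B 0 (L 0) (B 1 (L 0) (S 0 (LE 5 1) (LE 0 1) (LE 3 1) (LD 0 4) X X X)))))))
(N 2 (Bad 2)
(N 2 (Bad 2)
(N 2 (P (B 0 (L 0) (B 2 (LD 0 1) (S 2 (LE 16 0) (LE 15 0) (LE 8 0) (F 0 3 (F 0 4 (L 0))) X X X))))
(P (B 0 (L 0) (B 1 (L 0) (S 0 (LE 5 1) (LE 0 1) (LE 3 1) (LE 0 1) X X X))))))))))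
(Q 2 11 28672 (Q 2 12 24576 (Q 2 13 16384 (P (B 0 (L 0) (B 1 (L 0) (B 3 (LE 3 1) (B 4 (LE 0 0) (F 0 2 (D 4)))))))
(N 2 (Bad 2)
(N 2 (P (B 0 (L 0) (B 2 (LD 0 4) (B 4 (F 2 6 (F 0 3 (F 2 15 (L 0)))) (B 5 (LE 5 0) (F 0 1 (F 0 3 (LE 3 2))))))))
(P (B 0 (L 0) (B 1 (L 0) (S 0 (LE 5 1) (LE 0 1) (LE 3 1) (LD 0 4) X X X)))))))
(N 2 (Bad 2)
(N 2 (Bad 2)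
(N 2 (P (B 0 (L 0) (B 2 (LD 0 4) (S 2 (LE 16 0) (LE 15 0) (LE 11 0) (F 0 3 (F 0 4 (LE 0 2))) X X X))))
(P (B 0 (L 0) (B 1 (L 0) (S 0 (LE 5 1) (LE 0 1) (LE 3 1) (LD 0 4) X X X))))))))
(N 2 (Bad 2)
(N 2 (Bad 2)
(N 2 (Bad 2)
(N 2 (P (B 0 (L 0) (B 1 (LD 0 2) (S 0 (LD 5 2) (LE 0 1) (LE 3 1) (LE 0 1) X X X))))
(P (B 0 (L 0) (B 1 (L 0) (S 0 (LE 5 1) (LE 0 1) (LE 3 1) (LE 0 1) X X X)))))))))))))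
(Q 5 7 0 (Q 2 7 0 (P (B 0 (L 0) (B 1 (L 0) (B 7 (D 0) (S 0 (LE 5 1) (LE 0 1) (LE 3 1) (LE 2 1) X X X)))))
(Q 2 8 1536 (P (B 0 (L 0) (B 1 (L 0) (S 0 (LE 5 1) (LE 0 1) (LE 3 1) (B 7 (F 0 4 (LE 0 1)) (F 1 9 (F 1 10 (L 2)))) X X X))))
(Q 2 11 28672 (Q 2 12 24576 (Q 2 13 16384 (P (B 0 (L 0) (B 1 (L 0) (B 7 (F 0 2 (F 0 4 (L 0))) (B 4 (LE 0 1) (B 2 (D 4) (F 0 3 (F 0 5 (LE 3 1)))))))))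
(N 2 (Bad 2)
(N 2 (P (B 0 (L 0) (B 2 (LD 0 4) (S 0 (LE 5 2) (F 2 6 (F 2 15 (LE 0 0))) (LE 3 2) (LE 0 2) X X X))))
(P (B 0 (L 0) (B 1 (L 0) (S 0 (LE 5 1) (LE 0 1) (LE 3 1) (LD 0 4) X X X)))))))
(N 2 (Bad 2)
(N 2 (Bad 2)
(N 2 (P (B 0 (L 0) (B 1 (LD 0 2) (S 0 (LE 5 1) (LD 0 2) (LE 3 1) (LD 0 4) X X X))))
(P (B 0 (L 0) (B 1 (L 0) (S 0 (LE 5 1) (LE 0 1) (LE 3 1) (LD 0 4) X X X))))))))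
(N 2 (Bad 2)
(N 2 (Bad 2)
(N 2 (Bad 2)
(N 2 (P (B 0 (L 0) (B 1 (LD 0 2) (S 0 (LE 5 1) (LE 0 1) (LE 3 1) (LE 0 1) X X X))))
(P (B 0 (L 0) (B 1 (L 0) (S 0 (LE 5 1) (LE 0 1) (LE 3 1) (LE 0 1) X X X)))))))))))
(Q 5 8 1536 (Q 2 7 0 (Q 2 8 0 (P (B 0 (L 0) (B 1 (L 0) (S 0 (LE 5 1) (LE 0 1) (LE 3 1) (F 1 9 (F 1 10 (L 2))) X X X))))
(Q 2 9 1024 (P (B 0 (L 0) (B 1 (L 0) (B 3 (LE 3 1) (B 2 (F 1 8 (F 0 4 (F 1 10 (L 0)))) (F 0 4 (F 0 5 (LE 0 1))))))))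
(Q 3 8 0 (P (B 0 (L 0) (B 1 (L 0) (S 1 (LE 10 0) (LE 9 0) (F 0 2 (F 0 4 (LE 0 1))) (F 0 4 (F 0 5 (L 0))) (LE 6 0) X X))))
(Q 5 9 1024 (P (B 0 (L 0) (B 1 (L 0) (B 3 (LE 3 1) (B 2 (B 5 (D 1) (F 0 4 (LE 0 1))) (F 0 4 (F 0 5 (LE 0 1))))))))
(Q 2 11 28672 (Q 2 12 24576 (P (B 0 (L 0) (B 1 (L 0) (B 3 (LE 3 1) (B 4 (LE 0 0) (F 0 2 (F 0 5 (F 1 9 (F 1 10 (F 4 13 (F 4 14 (L 5))))))))))))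
(N 2 (Bad 2)
(N 2 (P (B 0 (L 0) (B 2 (LD 0 1) (S 2 (LE 15 0) (LE 11 0) (F 0 4 (F 0 5 (LE 0 2))) (LE 6 0) X X X))))
(P (B 0 (L 0) (B 1 (L 0) (S 0 (LE 5 1) (LE 0 1) (LE 3 1) (LD 0 4) X X X)))))))
(P (B 0 (L 0) (B 1 (L 0) (B 3 (LE 3 1) (B 4 (B 2 (LE 2 1) (F 0 5 (LE 0 1))) (F 0 2 (F 0 5 (F 1 9 (F 1 10 (LE 5 4)))))))))))))))
(Q 2 8 0 (Q 2 9 1024 (P (B 0 (L 0) (B 1 (L 0) (S 0 (LE 5 1) (LE 0 1) (LE 3 1) (F 1 7 (F 1 10 (LE 2 0))) X X X))))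
(Q 3 8 0 (P (B 0 (L 0) (B 1 (L 0) (B 8 (D 0) (S 0 (LE 5 1) (LE 0 1) (LE 3 1) (LE 2 1) X X X)))))
(Q 3 9 1024 (P (B 0 (L 0) (B 1 (L 0) (S 0 (LE 5 1) (LE 0 1) (B 8 (F 0 4 (LE 0 1)) (F 1 6 (F 1 10 (LE 3 0)))) (LE 2 1) X X X))))
(Q 2 11 28672 (Q 2 12 24576 (P (B 0 (L 0) (B 1 (L 0) (B 3 (LE 3 1) (B 4 (B 8 (D 0) (LE 0 0)) (F 0 2 (F 0 5 (F 4 13 (F 4 14 (LE 5 1))))))))))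
(N 2 (Bad 2)
(N 2 (P (B 0 (L 0) (B 2 (LD 0 1) (S 2 (LE 15 0) (LE 11 0) (F 0 3 (F 0 4 (LE 0 2))) (LE 6 0) X X X))))
(P (B 0 (L 0) (B 1 (L 0) (S 0 (LE 5 1) (LE 0 1) (LE 3 1) (LD 0 4) X X X)))))))
(N 2 (Bad 2)
(N 2 (Bad 2)
(N 2 (P (B 0 (L 0) (B 2 (LD 0 1) (S 2 (LE 16 0) (LE 15 0) (F 0 3 (F 0 4 (L 0))) (LE 6 0) X X X))))
(P (B 0 (L 0) (B 1 (L 0) (S 0 (LE 5 1) (LE 0 1) (LE 3 1) (LE 0 1) X X X)))))))))))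
(Q 2 9 1024 (Q 2 10 0 (P (B 0 (L 0) (B 1 (L 0) (S 0 (LE 5 1) (LE 0 1) (LE 3 1) (F 1 7 (F 1 8 (F 0 4 (L 0)))) X X X))))
(Q 3 8 0 (P (B 0 (L 0) (B 1 (L 0) (S 0 (LE 5 1) (LE 0 1) (LE 3 1) (B 8 (F 0 4 (LE 0 1)) (F 1 7 (F 1 10 (LE 2 0)))) X X X))))
(Q 3 10 0 (P (B 0 (L 0) (B 1 (L 0) (B 5 (LE 5 1) (B 2 (B 3 (D 1) (F 0 4 (LE 0 1))) (F 0 3 (F 0 4 (LE 0 1))))))))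
(Q 5 10 0 (P (B 0 (L 0) (B 1 (L 0) (S 0 (B 2 (D 1) (LE 5 0)) (LE 0 1) (LE 3 1) (LE 2 1) X X X))))
(Q 2 11 28672 (Q 2 12 24576 (Q 2 13 16384 (P (B 0 (L 0) (B 3 (L 3) (B 4 (L 0) (B 2 (D 4) (F 0 1 (F 0 5 (LE 5 4))))))))
(N 2 (P (B 0 (L 0) (B 2 (LD 0 1) (B 1 (F 2 11 (F 2 12 (LE 0 0))) (B 4 (F 2 6 (F 2 9 (LE 0 0))) (F 0 3 (F 0 5 (LE 3 1))))))))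
(P (B 0 (L 0) (B 1 (L 0) (S 0 (LE 5 1) (LE 0 1) (LE 3 1) (LD 0 4) X X X))))))
(N 2 (Bad 2)
(N 2 (P (B 0 (L 0) (B 2 (LD 0 1) (S 0 (LE 5 2) (LE 0 2) (LE 3 2) (F 2 11 (F 2 15 (LE 0 0))) X X X))))
(P (B 0 (L 0) (B 1 (L 0) (S 0 (LE 5 1) (LE 0 1) (LE 3 1) (LD 0 4) X X X)))))))
(P (B 0 (L 0) (B 1 (L 0) (S 0 (LE 5 1) (LE 0 1) (LE 3 1) (B 10 (LE 2 1) (F 1 7 (F 1 8 (F 0 4 (L 2))))) X X X)))))))))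
(Q 2 11 28672 (Q 2 12 24576 (Q 2 13 16384 (P (B 0 (L 0) (B 3 (L 3) (B 4 (L 0) (B 2 (D 4) (F 0 1 (F 0 5 (LE 5 4))))))))
(N 2 (Bad 2)
(N 2 (P (B 0 (L 0) (B 2 (LD 0 4) (S 0 (LE 5 2) (F 2 6 (F 2 15 (LE 0 0))) (LE 3 2) (LE 0 2) X X X))))
(P (B 0 (L 0) (B 1 (L 0) (S 0 (LE 5 1) (LE 0 1) (LE 3 1) (LD 0 4) X X X)))))))
(N 2 (Bad 2)
(N 2 (Bad 2)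
(N 2 (P (B 0 (L 0) (B 1 (LD 0 2) (S 0 (LE 5 1) (LD 0 2) (LE 3 1) (LD 0 4) X X X))))
(P (B 0 (L 0) (B 1 (L 0) (S 0 (LE 5 1) (LE 0 1) (LE 3 1) (LD 0 4) X X X))))))))
(N 2 (Bad 2)
(N 2 (Bad 2)
(N 2 (Bad 2)
(N 2 (P (B 0 (L 0) (B 1 (LD 0 2) (S 0 (LE 5 1) (LE 0 1) (LE 3 1) (LE 0 1) X X X))))
(P (B 0 (L 0) (B 1 (L 0) (S 0 (LE 5 1) (LE 0 1) (LE 3 1) (LE 0 1) X X X))))))))))))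
(Q 5 11 28672 (Q 2 7 0 (Q 2 8 1536 (P (B 0 (L 0) (B 1 (L 0) (S 0 (LD 5 4) (LE 0 1) (LE 3 1) (F 1 9 (F 1 10 (L 2))) X X X))))
(Q 3 8 1536 (P (B 0 (L 0) (S 0 (LD 5 4) (L 0) (LD 3 1) (LD 2 1) (L 0) X X)))
(Q 3 11 0 (P (B 0 (L 0) (S 0 (LD 5 4) (L 0) (LD 3 4) (LD 2 1) (L 0) X X)))
(Q 3 12 24576 (P (B 0 (L 0) (S 0 (LD 5 4) (L 0) (LD 3 4) (LD 2 1) (L 0) X X)))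
(P (B 0 (L 0) (B 2 (LD 2 1) (B 5 (LD 5 4) (B 1 (B 4 (L 0) (F 0 3 (LE 3 4))) (F 0 3 (F 0 4 (LE 3 1))))))))))))
(Q 2 8 1536 (Q 2 9 1024 (P (B 0 (L 0) (B 1 (L 0) (S 0 (LD 5 4) (LE 0 1) (LE 3 1) (F 1 7 (F 1 10 (LE 2 0))) X X X))))
(Q 3 9 1024 (P (B 0 (L 0) (B 1 (L 0) (B 5 (LD 5 4) (B 2 (B 3 (D 1) (F 0 4 (LE 0 1))) (F 0 3 (F 0 4 (LE 0 1))))))))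
(Q 3 8 0 (P (B 0 (L 0) (S 0 (LD 5 4) (L 0) (LD 3 1) (LD 2 1) (L 0) X X)))
(Q 3 11 0 (P (B 0 (L 0) (S 0 (LD 5 4) (L 0) (LD 3 4) (LD 2 1) (L 0) X X)))
(Q 3 12 24576 (P (B 0 (L 0) (S 0 (LD 5 4) (L 0) (LD 3 4) (LD 2 1) (L 0) X X)))
(P (B 0 (L 0) (B 2 (LD 2 1) (B 5 (LD 5 4) (B 1 (B 4 (L 0) (F 0 3 (LE 3 4))) (F 0 3 (F 0 4 (LE 3 1)))))))))))))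
(Q 2 11 0 (P (B 4 (L 0) (B 0 (L 0) (S 4 (LE 14 0) (LE 13 0) (LE 12 0) (F 0 1 (F 0 3 (L 0))) X X X))))
(Q 2 12 24576 (Q 3 8 1536 (P (B 0 (L 0) (S 0 (LD 5 4) (L 0) (LD 3 1) (LD 2 4) (L 0) X X)))
(Q 3 11 0 (P (B 0 (L 0) (S 0 (LD 5 4) (L 0) (LD 3 4) (LD 2 4) (L 0) X X)))
(Q 3 12 0 (P (B 0 (L 0) (S 0 (LD 5 4) (L 0) (LD 3 4) (LD 2 4) (L 0) X X)))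
(P (B 0 (L 0) (B 2 (LD 2 4) (B 5 (LD 5 4) (B 1 (B 4 (L 0) (F 0 3 (LE 3 4))) (F 0 3 (F 0 4 (LE 3 1)))))))))))
(P (B 0 (L 0) (B 5 (LD 5 4) (B 3 (L 3) (B 1 (B 4 (L 0) (F 0 2 (LE 2 4))) (F 0 2 (F 0 4 (LE 2 1))))))))))))
(N 5 (Bad 5)
(N 5 (Bad 5)
(N 5 (Bad 5)
(N 5 (Bad 5)
(N 5 (Q 3 11 28672 (P (B 0 (L 0) (B 3 (LD 3 4) (B 2 (L 2) (B 1 (B 4 (L 0) (F 0 5 (LE 0 4))) (F 0 4 (F 0 5 (LE 0 1))))))))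
(Q 3 15 458752 (P (B 0 (L 0) (B 3 (LD 3 5) (B 2 (L 2) (B 1 (B 4 (L 0) (F 0 5 (LE 0 4))) (F 0 4 (F 0 5 (LE 0 1))))))))
(P (B 0 (L 0) (B 1 (L 0) (B 2 (LE 2 1) (B 4 (B 3 (LE 3 1) (F 0 5 (LE 0 1))) (F 0 3 (F 0 5 (LE 3 1))))))))))
(P (B 0 (L 0) (B 1 (L 0) (S 0 (LE 0 1) (LE 0 1) (LE 3 1) (LE 2 1) X X X)))))))))))))
(P (B 0 (L 0) (B 1 (L 0) (S 0 (LE 5 1) (LE 0 1) (LE 3 1) (LE 2 1) X X X))))))))))))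
(N 3 (Bad 3)
(N 3 (Bad 3)
(N 3 (Bad 3)
(N 3 (Bad 3)
(N 3 (Q 4 6 0 (Q 5 6 0 (P (B 0 (L 0) (B 1 (L 0) (B 6 (D 0) (S 0 (LE 5 1) (LE 4 1) (LE 0 1) (LE 2 1) X X X)))))
(Q 5 7 1792 (Q 2 7 0 (P (B 0 (L 0) (B 1 (L 0) (S 1 (LE 10 0) (LE 9 0) (LE 8 0) (F 0 3 (F 0 4 (L 0))) (F 0 3 (F 0 5 (L 0))) X X))))
(Q 4 7 0 (P (B 0 (L 0) (B 1 (L 0) (S 1 (LE 10 0) (LE 9 0) (LE 8 0) (F 0 2 (F 0 3 (L 0))) (F 0 3 (F 0 5 (L 0))) X X))))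
(Q 5 8 1536 (P (B 0 (L 0) (B 1 (L 0) (S 0 (B 6 (F 0 3 (LE 0 1)) (F 1 9 (F 1 10 (L 5)))) (LE 4 1) (LE 0 1) (LE 2 1) X X X))))
(Q 2 8 1536 (Q 2 9 1024 (P (B 0 (L 0) (B 1 (L 0) (B 4 (LE 4 1) (B 2 (F 1 7 (F 0 3 (F 1 10 (L 0)))) (F 0 3 (F 0 5 (LE 0 1))))))))
(Q 4 8 0 (P (B 0 (L 0) (B 1 (L 0) (S 1 (LE 10 0) (LE 9 0) (F 0 3 (F 0 5 (L 0))) (LE 7 0) (F 0 3 (F 0 5 (L 0))) X X))))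
(Q 2 11 28672 (Q 2 12 24576 (P (B 0 (L 0) (B 3 (L 0) (B 4 (LE 4 3) (B 2 (F 3 13 (F 3 14 (B 1 (L 0) (F 0 5 (F 1 9 (F 1 10 (L 5))))))) (F 0 1 (F 0 5 (LE 5 3))))))))
(N 2 (Bad 2)
(N 2 (P (B 0 (L 0) (B 2 (LD 0 1) (S 2 (LE 15 0) (LE 11 0) (LE 8 0) (F 0 3 (F 0 5 (LE 0 2))) X X X))))
(P (B 0 (L 0) (B 1 (L 0) (S 0 (LE 5 1) (LE 4 1) (LE 0 1) (LD 0 3) X X X)))))))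
(P (B 0 (L 0) (B 1 (L 0) (B 4 (LE 4 1) (B 3 (B 2 (LE 2 1) (F 0 5 (LE 0 1))) (F 0 2 (F 0 5 (F 1 9 (F 1 10 (LE 5 3)))))))))))))
(Q 2 11 28672 (Q 2 12 24576 (Q 2 13 16384 (P (B 0 (L 0) (B 3 (L 0) (B 2 (D 3) (B 4 (LE 4 0) (F 0 1 (F 0 5 (LE 5 3))))))))
(N 2 (Bad 2)
(N 2 (P (B 0 (L 0) (B 2 (LD 0 3) (B 3 (F 2 6 (F 0 5 (F 2 15 (L 0)))) (B 4 (LE 4 0) (F 0 1 (F 0 5 (LE 5 2))))))))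
(P (B 0 (L 0) (B 1 (L 0) (S 0 (LE 5 1) (LE 4 1) (LE 0 1) (LD 0 3) X X X)))))))
(N 2 (Bad 2)
(N 2 (Bad 2)
(N 2 (P (B 0 (L 0) (B 2 (LD 0 3) (S 2 (LE 16 0) (LE 15 0) (LE 11 0) (F 0 3 (F 0 5 (LE 0 2))) X X X))))
(P (B 0 (L 0) (B 1 (L 0) (S 0 (LE 5 1) (LE 4 1) (LE 0 1) (LD 0 3) X X X))))))))
(N 2 (Bad 2)
(N 2 (Bad 2)
(N 2 (Bad 2)
(N 2 (P (B 0 (L 0) (B 1 (LD 0 2) (S 0 (LE 5 1) (LD 4 2) (LE 0 1) (LE 0 1) X X X))))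
(P (B 0 (L 0) (B 1 (L 0) (S 0 (LE 5 1) (LE 4 1) (LE 0 1) (LE 0 1) X X X)))))))))))))
(Q 5 11 28672 (Q 2 7 1792 (Q 2 8 1536 (P (B 0 (L 0) (B 1 (L 0) (S 0 (LD 5 3) (LE 4 1) (LE 0 1) (F 1 9 (F 1 10 (L 2))) X X X))))
(Q 4 7 0 (P (B 0 (L 0) (S 0 (LD 5 3) (LD 4 1) (L 0) (LD 2 1) (L 0) X X)))
(Q 4 8 1536 (P (B 0 (L 0) (S 0 (LD 5 3) (LD 4 1) (L 0) (LD 2 1) (L 0) X X)))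
(Q 4 11 0 (P (B 0 (L 0) (S 0 (LD 5 3) (LD 4 3) (L 0) (LD 2 1) (L 0) X X)))
(Q 4 12 24576 (P (B 0 (L 0) (S 0 (LD 5 3) (LD 4 3) (L 0) (LD 2 1) (L 0) X X)))
(P (B 0 (L 0) (B 2 (LD 2 1) (B 5 (LD 5 3) (B 1 (B 3 (L 0) (F 0 4 (LE 4 3))) (F 0 3 (F 0 4 (LE 4 1)))))))))))))
(Q 2 11 0 (P (B 3 (L 0) (B 0 (L 0) (S 3 (LE 14 0) (LE 13 0) (LE 12 0) (F 0 1 (F 0 4 (L 0))) X X X))))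
(Q 2 12 24576 (Q 4 7 1792 (P (B 0 (L 0) (S 0 (LD 5 3) (LD 4 1) (L 0) (LD 2 3) (L 0) X X)))
(Q 4 11 0 (P (B 0 (L 0) (S 0 (LD 5 3) (LD 4 3) (L 0) (LD 2 3) (L 0) X X)))
(Q 4 12 0 (P (B 0 (L 0) (S 0 (LD 5 3) (LD 4 3) (L 0) (LD 2 3) (L 0) X X)))
(P (B 0 (L 0) (B 2 (LD 2 3) (B 5 (LD 5 3) (B 1 (B 3 (L 0) (F 0 4 (LE 4 3))) (F 0 3 (F 0 4 (LE 4 1)))))))))))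
(N 2 (Bad 2)
(N 2 (Bad 2)
(N 2 (Bad 2)
(N 2 (P (B 0 (L 0) (B 4 (LD 4 2) (B 5 (LD 5 3) (B 1 (B 3 (LD 0 2) (F 0 2 (LE 0 3))) (F 0 2 (F 0 3 (LE 0 1))))))))
(P (B 0 (L 0) (B 1 (L 0) (S 0 (LD 5 3) (LE 4 1) (LE 0 1) (LE 0 1) X X X)))))))))))
(N 5 (Bad 5)
(N 5 (Bad 5)
(N 5 (Bad 5)
(N 5 (Bad 5)
(N 5 (Q 2 7 1792 (P (B 0 (L 0) (B 2 (LD 2 1) (B 4 (L 4) (B 1 (B 3 (L 0) (F 0 5 (LE 0 3))) (F 0 3 (F 0 5 (LE 0 1))))))))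
(Q 2 11 28672 (P (B 0 (L 0) (B 2 (LD 2 3) (B 4 (L 4) (B 1 (B 3 (L 0) (F 0 5 (LE 0 3))) (F 0 3 (F 0 5 (LE 0 1))))))))
(Q 2 15 458752 (P (B 0 (L 0) (B 2 (LD 2 5) (B 4 (L 4) (B 1 (B 3 (L 0) (F 0 5 (LE 0 3))) (F 0 3 (F 0 5 (LE 0 1))))))))
(P (B 0 (L 0) (B 1 (L 0) (B 4 (LE 4 1) (B 3 (B 2 (LE 2 1) (F 0 5 (LE 0 1))) (F 0 2 (F 0 5 (LE 2 1)))))))))))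
(P (B 0 (L 0) (B 1 (L 0) (S 0 (LE 0 1) (LE 4 1) (LE 0 1) (LE 2 1) X X X))))))))))))
(Q 4 7 1792 (Q 5 6 0 (Q 2 7 0 (P (B 0 (L 0) (B 1 (L 0) (S 1 (LE 10 0) (LE 9 0) (LE 8 0) (F 0 3 (F 0 5 (L 0))) (F 0 3 (F 0 4 (L 0))) X X))))
(Q 5 7 0 (P (B 0 (L 0) (B 1 (L 0) (S 1 (LE 10 0) (LE 9 0) (LE 8 0) (F 0 2 (F 0 3 (L 0))) (F 0 3 (F 0 4 (L 0))) X X))))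
(Q 4 8 1536 (P (B 0 (L 0) (B 1 (L 0) (S 0 (LE 5 1) (B 6 (F 0 3 (LE 0 1)) (F 1 9 (F 1 10 (L 4)))) (LE 0 1) (LE 2 1) X X X))))
(Q 2 8 1536 (Q 2 9 1024 (P (B 0 (L 0) (B 1 (L 0) (S 0 (LE 5 1) (LE 4 1) (LE 0 1) (F 1 7 (F 1 10 (LE 2 0))) X X X))))
(Q 5 8 0 (P (B 0 (L 0) (B 1 (L 0) (S 1 (LE 10 0) (LE 9 0) (F 0 3 (F 0 4 (L 0))) (LE 7 0) (F 0 3 (F 0 4 (L 0))) X X))))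
(Q 2 11 28672 (Q 2 12 24576 (P (B 0 (L 0) (B 1 (L 0) (B 4 (LE 4 1) (B 3 (B 6 (D 0) (LE 0 0)) (F 0 2 (F 0 5 (F 3 13 (F 3 14 (LE 5 1))))))))))
(N 2 (Bad 2)
(N 2 (P (B 0 (L 0) (B 2 (LD 0 1) (S 2 (LE 15 0) (LE 11 0) (LE 8 0) (F 0 3 (F 0 4 (LE 0 2))) X X X))))
(P (B 0 (L 0) (B 1 (L 0) (S 0 (LE 5 1) (LE 4 1) (LE 0 1) (LD 0 3) X X X)))))))
(N 2 (Bad 2)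
(N 2 (Bad 2)
(N 2 (P (B 0 (L 0) (B 2 (LD 0 1) (S 2 (LE 16 0) (LE 15 0) (LE 8 0) (F 0 3 (F 0 4 (L 0))) X X X))))
(P (B 0 (L 0) (B 1 (L 0) (S 0 (LE 5 1) (LE 4 1) (LE 0 1) (LE 0 1) X X X))))))))))
(Q 2 11 28672 (Q 2 12 24576 (Q 2 13 16384 (P (B 0 (L 0) (B 3 (L 0) (B 2 (D 3) (B 5 (LE 5 0) (F 0 1 (F 0 4 (LE 4 3))))))))
(N 2 (Bad 2)
(N 2 (P (B 0 (L 0) (B 2 (LD 0 3) (B 3 (F 2 6 (F 0 4 (F 2 15 (L 0)))) (B 5 (LE 5 0) (F 0 1 (F 0 4 (LE 4 2))))))))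
(P (B 0 (L 0) (B 1 (L 0) (S 0 (LE 5 1) (LE 4 1) (LE 0 1) (LD 0 3) X X X)))))))
(N 2 (Bad 2)
(N 2 (Bad 2)
(N 2 (P (B 0 (L 0) (B 2 (LD 0 3) (S 2 (LE 16 0) (LE 15 0) (LE 11 0) (F 0 3 (F 0 4 (LE 0 2))) X X X))))
(P (B 0 (L 0) (B 1 (L 0) (S 0 (LE 5 1) (LE 4 1) (LE 0 1) (LD 0 3) X X X))))))))
(N 2 (Bad 2)
(N 2 (Bad 2)
(N 2 (Bad 2)
(N 2 (P (B 0 (L 0) (B 1 (LD 0 2) (S 0 (LD 5 2) (LE 4 1) (LE 0 1) (LE 0 1) X X X))))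
(P (B 0 (L 0) (B 1 (L 0) (S 0 (LE 5 1) (LE 4 1) (LE 0 1) (LE 0 1) X X X)))))))))))))
(Q 5 7 0 (Q 2 7 0 (P (B 0 (L 0) (B 1 (L 0) (B 7 (D 0) (S 0 (LE 5 1) (LE 4 1) (LE 0 1) (LE 2 1) X X X)))))
(Q 2 8 1536 (P (B 0 (L 0) (B 1 (L 0) (S 0 (LE 5 1) (LE 4 1) (LE 0 1) (B 7 (F 0 3 (LE 0 1)) (F 1 9 (F 1 10 (L 2)))) X X X))))
(Q 2 11 28672 (Q 2 12 24576 (Q 2 13 16384 (P (B 0 (L 0) (B 3 (L 0) (S 0 (LE 5 3) (LE 4 3) (D 3) (LE 0 3) X X X))))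
(N 2 (Bad 2)
(N 2 (P (B 0 (L 0) (B 2 (LD 0 3) (S 0 (LE 5 2) (LE 4 2) (F 2 6 (F 2 15 (LE 0 0))) (LE 0 2) X X X))))
(P (B 0 (L 0) (B 1 (L 0) (S 0 (LE 5 1) (LE 4 1) (LE 0 1) (LD 0 3) X X X)))))))
(N 2 (Bad 2)
(N 2 (Bad 2)
(N 2 (P (B 0 (L 0) (B 1 (LD 0 2) (S 0 (LE 5 1) (LE 4 1) (LD 0 2) (LD 0 3) X X X))))
(P (B 0 (L 0) (B 1 (L 0) (S 0 (LE 5 1) (LE 4 1) (LE 0 1) (LD 0 3) X X X))))))))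
(N 2 (Bad 2)
(N 2 (Bad 2)
(N 2 (Bad 2)
(N 2 (P (B 0 (L 0) (B 1 (LD 0 2) (S 0 (LE 5 1) (LE 4 1) (LE 0 1) (LE 0 1) X X X))))
(P (B 0 (L 0) (B 1 (L 0) (S 0 (LE 5 1) (LE 4 1) (LE 0 1) (LE 0 1) X X X)))))))))))
(Q 5 8 1536 (Q 2 7 0 (Q 2 8 0 (P (B 0 (L 0) (B 1 (L 0) (S 0 (LE 5 1) (LE 4 1) (LE 0 1) (F 1 9 (F 1 10 (L 2))) X X X))))
(Q 2 9 1024 (P (B 0 (L 0) (B 1 (L 0) (B 4 (LE 4 1) (B 2 (F 1 8 (F 0 3 (F 1 10 (L 0)))) (F 0 3 (F 0 5 (LE 0 1))))))))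
(Q 4 8 0 (P (B 0 (L 0) (B 1 (L 0) (S 1 (LE 10 0) (LE 9 0) (F 0 2 (F 0 3 (LE 0 1))) (F 0 3 (F 0 5 (L 0))) (LE 6 0) X X))))
(Q 5 9 1024 (P (B 0 (L 0) (B 1 (L 0) (B 4 (LE 4 1) (B 2 (B 5 (D 1) (F 0 3 (LE 0 1))) (F 0 3 (F 0 5 (LE 0 1))))))))
(Q 2 11 28672 (Q 2 12 24576 (P (B 0 (L 0) (B 3 (L 0) (B 4 (LE 4 3) (B 2 (F 3 13 (F 3 14 (B 1 (L 0) (F 0 5 (F 1 9 (F 1 10 (L 5))))))) (F 0 1 (F 0 5 (LE 5 3))))))))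
(N 2 (Bad 2)
(N 2 (P (B 0 (L 0) (B 2 (LD 0 1) (S 2 (LE 15 0) (LE 11 0) (F 0 3 (F 0 5 (LE 0 2))) (LE 6 0) X X X))))
(P (B 0 (L 0) (B 1 (L 0) (S 0 (LE 5 1) (LE 4 1) (LE 0 1) (LD 0 3) X X X)))))))
(P (B 0 (L 0) (B 1 (L 0) (B 4 (LE 4 1) (B 3 (B 2 (LE 2 1) (F 0 5 (LE 0 1))) (F 0 2 (F 0 5 (F 1 9 (F 1 10 (LE 5 3)))))))))))))))
(Q 2 8 0 (Q 2 9 1024 (P (B 0 (L 0) (B 1 (L 0) (S 0 (LE 5 1) (LE 4 1) (LE 0 1) (F 1 7 (F 1 10 (LE 2 0))) X X X))))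
(Q 4 8 0 (P (B 0 (L 0) (B 1 (L 0) (B 8 (D 0) (S 0 (LE 5 1) (LE 4 1) (LE 0 1) (LE 2 1) X X X)))))
(Q 4 9 1024 (P (B 0 (L 0) (B 1 (L 0) (S 0 (LE 5 1) (B 8 (F 0 3 (LE 0 1)) (F 1 6 (F 1 10 (LE 4 0)))) (LE 0 1) (LE 2 1) X X X))))
(Q 2 11 28672 (Q 2 12 24576 (P (B 0 (L 0) (B 1 (L 0) (B 4 (LE 4 1) (B 3 (B 8 (D 0) (LE 0 0)) (F 0 2 (F 0 5 (F 3 13 (F 3 14 (LE 5 1))))))))))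
(N 2 (Bad 2)
(N 2 (P (B 0 (L 0) (B 2 (LD 0 1) (S 2 (LE 15 0) (LE 11 0) (F 0 3 (F 0 4 (LE 0 2))) (LE 6 0) X X X))))
(P (B 0 (L 0) (B 1 (L 0) (S 0 (LE 5 1) (LE 4 1) (LE 0 1) (LD 0 3) X X X)))))))
(N 2 (Bad 2)
(N 2 (Bad 2)
(N 2 (P (B 0 (L 0) (B 2 (LD 0 1) (S 2 (LE 16 0) (LE 15 0) (F 0 3 (F 0 4 (L 0))) (LE 6 0) X X X))))
(P (B 0 (L 0) (B 1 (L 0) (S 0 (LE 5 1) (LE 4 1) (LE 0 1) (LE 0 1) X X X)))))))))))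
(Q 2 9 1024 (Q 2 10 0 (P (B 0 (L 0) (B 1 (L 0) (S 0 (LE 5 1) (LE 4 1) (LE 0 1) (F 1 7 (F 1 8 (F 0 3 (L 0)))) X X X))))
(Q 4 8 0 (P (B 0 (L 0) (B 1 (L 0) (S 0 (LE 5 1) (LE 4 1) (LE 0 1) (B 8 (F 0 3 (LE 0 1)) (F 1 7 (F 1 10 (LE 2 0)))) X X X))))
(Q 4 10 0 (P (B 0 (L 0) (B 1 (L 0) (B 5 (LE 5 1) (B 2 (B 4 (D 1) (F 0 3 (LE 0 1))) (F 0 3 (F 0 4 (LE 0 1))))))))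
(Q 5 10 0 (P (B 0 (L 0) (B 1 (L 0) (S 0 (B 2 (D 1) (LE 5 0)) (LE 4 1) (LE 0 1) (LE 2 1) X X X))))
(Q 2 11 28672 (Q 2 12 24576 (P (B 0 (L 0) (B 3 (L 0) (B 1 (LE 0 3) (B 2 (F 3 13 (F 3 14 (B 4 (F 1 8 (F 1 10 (L 0))) (F 0 5 (F 1 7 (F 1 10 (L 0))))))) (F 0 4 (F 0 5 (LE 4 1))))))))
(N 2 (Bad 2)
(N 2 (P (B 0 (L 0) (B 2 (LD 0 1) (S 0 (LE 5 2) (LE 4 2) (LE 0 2) (F 2 11 (F 2 15 (LE 0 0))) X X X))))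
(P (B 0 (L 0) (B 1 (L 0) (S 0 (LE 5 1) (LE 4 1) (LE 0 1) (LD 0 3) X X X)))))))
(P (B 0 (L 0) (B 1 (L 0) (S 0 (LE 5 1) (LE 4 1) (LE 0 1) (B 10 (LE 2 1) (F 1 7 (F 1 8 (F 0 3 (L 2))))) X X X)))))))))
(Q 2 11 28672 (Q 2 12 24576 (Q 2 13 16384 (P (B 0 (L 0) (B 3 (L 0) (B 2 (D 3) (B 1 (LE 0 0) (F 0 4 (F 0 5 (LE 5 1))))))))
(N 2 (Bad 2)
(N 2 (P (B 0 (L 0) (B 2 (LD 0 3) (S 0 (LE 5 2) (LE 4 2) (F 2 6 (F 2 15 (LE 0 0))) (LE 0 2) X X X))))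
(P (B 0 (L 0) (B 1 (L 0) (S 0 (LE 5 1) (LE 4 1) (LE 0 1) (LD 0 3) X X X)))))))
(N 2 (Bad 2)
(N 2 (Bad 2)
(N 2 (P (B 0 (L 0) (B 1 (LD 0 2) (S 0 (LE 5 1) (LE 4 1) (LD 0 2) (LD 0 3) X X X))))
(P (B 0 (L 0) (B 1 (L 0) (S 0 (LE 5 1) (LE 4 1) (LE 0 1) (LD 0 3) X X X))))))))
(N 2 (Bad 2)
(N 2 (Bad 2)
(N 2 (Bad 2)
(N 2 (P (B 0 (L 0) (B 1 (LD 0 2) (S 0 (LE 5 1) (LE 4 1) (LE 0 1) (LE 0 1) X X X))))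
(P (B 0 (L 0) (B 1 (L 0) (S 0 (LE 5 1) (LE 4 1) (LE 0 1) (LE 0 1) X X X))))))))))))
(Q 5 11 28672 (Q 2 7 0 (Q 2 8 1536 (P (B 0 (L 0) (B 1 (L 0) (S 0 (LD 5 3) (LE 4 1) (LE 0 1) (F 1 9 (F 1 10 (L 2))) X X X))))
(Q 4 8 1536 (P (B 0 (L 0) (S 0 (LD 5 3) (LD 4 1) (L 0) (LD 2 1) (L 0) X X)))
(Q 4 11 0 (P (B 0 (L 0) (S 0 (LD 5 3) (LD 4 3) (L 0) (LD 2 1) (L 0) X X)))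
(Q 4 12 24576 (P (B 0 (L 0) (S 0 (LD 5 3) (LD 4 3) (L 0) (LD 2 1) (L 0) X X)))
(P (B 0 (L 0) (B 2 (LD 2 1) (B 5 (LD 5 3) (B 1 (B 3 (L 0) (F 0 4 (LE 4 3))) (F 0 3 (F 0 4 (LE 4 1))))))))))))
(Q 2 8 1536 (Q 2 9 1024 (P (B 0 (L 0) (B 1 (L 0) (S 0 (LD 5 3) (LE 4 1) (LE 0 1) (F 1 7 (F 1 10 (LE 2 0))) X X X))))
(Q 4 9 1024 (P (B 0 (L 0) (B 1 (L 0) (B 5 (LD 5 3) (B 2 (B 4 (D 1) (F 0 3 (LE 0 1))) (F 0 3 (F 0 4 (LE 0 1))))))))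
(Q 4 8 0 (P (B 0 (L 0) (S 0 (LD 5 3) (LD 4 1) (L 0) (LD 2 1) (L 0) X X)))
(Q 4 11 0 (P (B 0 (L 0) (S 0 (LD 5 3) (LD 4 3) (L 0) (LD 2 1) (L 0) X X)))
(Q 4 12 24576 (P (B 0 (L 0) (S 0 (LD 5 3) (LD 4 3) (L 0) (LD 2 1) (L 0) X X)))
(P (B 0 (L 0) (B 2 (LD 2 1) (B 5 (LD 5 3) (B 1 (B 3 (L 0) (F 0 4 (LE 4 3))) (F 0 3 (F 0 4 (LE 4 1)))))))))))))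
(Q 2 11 0 (P (B 3 (L 0) (B 0 (L 0) (S 3 (LE 14 0) (LE 13 0) (LE 12 0) (F 0 1 (F 0 4 (L 0))) X X X))))
(Q 2 12 24576 (Q 4 8 1536 (P (B 0 (L 0) (S 0 (LD 5 3) (LD 4 1) (L 0) (LD 2 3) (L 0) X X)))
(Q 4 11 0 (P (B 0 (L 0) (S 0 (LD 5 3) (LD 4 3) (L 0) (LD 2 3) (L 0) X X)))
(Q 4 12 0 (P (B 0 (L 0) (S 0 (LD 5 3) (LD 4 3) (L 0) (LD 2 3) (L 0) X X)))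
(P (B 0 (L 0) (B 2 (LD 2 3) (B 5 (LD 5 3) (B 1 (B 3 (L 0) (F 0 4 (LE 4 3))) (F 0 3 (F 0 4 (LE 4 1)))))))))))
(N 2 (Bad 2)
(N 2 (Bad 2)
(N 2 (Bad 2)
(N 2 (P (B 0 (L 0) (B 1 (LD 0 2) (S 0 (LD 5 3) (LE 4 1) (LE 0 1) (LE 0 1) X X X))))
(P (B 0 (L 0) (B 1 (L 0) (S 0 (LD 5 3) (LE 4 1) (LE 0 1) (LE 0 1) X X X))))))))))))
(N 5 (Bad 5)
(N 5 (Bad 5)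
(N 5 (Bad 5)
(N 5 (Bad 5)
(N 5 (Q 4 11 28672 (P (B 0 (L 0) (B 4 (LD 4 3) (B 2 (L 2) (B 1 (B 3 (L 0) (F 0 5 (LE 0 3))) (F 0 3 (F 0 5 (LE 0 1))))))))
(Q 4 15 458752 (P (B 0 (L 0) (B 4 (LD 4 5) (B 2 (L 2) (B 1 (B 3 (L 0) (F 0 5 (LE 0 3))) (F 0 3 (F 0 5 (LE 0 1))))))))
(P (B 0 (L 0) (B 1 (L 0) (B 2 (LE 2 1) (B 3 (B 4 (LE 4 1) (F 0 5 (LE 0 1))) (F 0 4 (F 0 5 (LE 4 1))))))))))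
(P (B 0 (L 0) (B 1 (L 0) (S 0 (LE 0 1) (LE 4 1) (LE 0 1) (LE 2 1) X X X)))))))))))))
(Q 4 11 28672 (Q 5 6 0 (Q 2 7 1792 (Q 2 8 1536 (P (B 0 (L 0) (B 1 (L 0) (S 0 (LE 5 1) (LD 4 3) (LE 0 1) (F 1 9 (F 1 10 (L 2))) X X X))))
(Q 5 7 0 (P (B 0 (L 0) (S 0 (LD 5 1) (LD 4 3) (L 0) (LD 2 1) (L 0) X X)))
(Q 5 8 1536 (P (B 0 (L 0) (S 0 (LD 5 1) (LD 4 3) (L 0) (LD 2 1) (L 0) X X)))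
(Q 5 11 0 (P (B 0 (L 0) (S 0 (LD 5 3) (LD 4 3) (L 0) (LD 2 1) (L 0) X X)))
(Q 5 12 24576 (P (B 0 (L 0) (S 0 (LD 5 3) (LD 4 3) (L 0) (LD 2 1) (L 0) X X)))
(P (B 0 (L 0) (B 2 (LD 2 1) (B 4 (LD 4 3) (B 1 (B 3 (L 0) (F 0 5 (LE 5 3))) (F 0 3 (F 0 5 (LE 5 1)))))))))))))
(Q 2 11 0 (P (B 3 (L 0) (B 0 (L 0) (S 3 (LE 14 0) (LE 13 0) (LE 12 0) (F 0 1 (F 0 5 (L 0))) X X X))))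
(Q 2 12 24576 (Q 5 7 1792 (P (B 0 (L 0) (S 0 (LD 5 1) (LD 4 3) (L 0) (LD 2 3) (L 0) X X)))
(Q 5 11 0 (P (B 0 (L 0) (S 0 (LD 5 3) (LD 4 3) (L 0) (LD 2 3) (L 0) X X)))
(Q 5 12 0 (P (B 0 (L 0) (S 0 (LD 5 3) (LD 4 3) (L 0) (LD 2 3) (L 0) X X)))
(P (B 0 (L 0) (B 2 (LD 2 3) (B 4 (LD 4 3) (B 1 (B 3 (L 0) (F 0 5 (LE 5 3))) (F 0 3 (F 0 5 (LE 5 1)))))))))))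
(N 2 (Bad 2)
(N 2 (Bad 2)
(N 2 (Bad 2)
(N 2 (P (B 0 (L 0) (B 4 (LD 4 3) (B 5 (LD 5 2) (B 1 (B 3 (LD 0 2) (F 0 2 (LE 0 3))) (F 0 2 (F 0 3 (LE 0 1))))))))
(P (B 0 (L 0) (B 1 (L 0) (S 0 (LE 5 1) (LD 4 3) (LE 0 1) (LE 0 1) X X X)))))))))))
(Q 5 7 1792 (Q 2 7 0 (Q 2 8 1536 (P (B 0 (L 0) (B 1 (L 0) (S 0 (LE 5 1) (LD 4 3) (LE 0 1) (F 1 9 (F 1 10 (L 2))) X X X))))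
(Q 5 8 1536 (P (B 0 (L 0) (S 0 (LD 5 1) (LD 4 3) (L 0) (LD 2 1) (L 0) X X)))
(Q 5 11 0 (P (B 0 (L 0) (S 0 (LD 5 3) (LD 4 3) (L 0) (LD 2 1) (L 0) X X)))
(Q 5 12 24576 (P (B 0 (L 0) (S 0 (LD 5 3) (LD 4 3) (L 0) (LD 2 1) (L 0) X X)))
(P (B 0 (L 0) (B 2 (LD 2 1) (B 4 (LD 4 3) (B 1 (B 3 (L 0) (F 0 5 (LE 5 3))) (F 0 3 (F 0 5 (LE 5 1))))))))))))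
(Q 2 8 1536 (Q 2 9 1024 (P (B 0 (L 0) (B 1 (L 0) (S 0 (LE 5 1) (LD 4 3) (LE 0 1) (F 1 7 (F 1 10 (LE 2 0))) X X X))))
(Q 5 9 1024 (P (B 0 (L 0) (B 1 (L 0) (B 4 (LD 4 3) (B 2 (B 5 (D 1) (F 0 3 (LE 0 1))) (F 0 3 (F 0 5 (LE 0 1))))))))
(Q 5 8 0 (P (B 0 (L 0) (S 0 (LD 5 1) (LD 4 3) (L 0) (LD 2 1) (L 0) X X)))
(Q 5 11 0 (P (B 0 (L 0) (S 0 (LD 5 3) (LD 4 3) (L 0) (LD 2 1) (L 0) X X)))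
(Q 5 12 24576 (P (B 0 (L 0) (S 0 (LD 5 3) (LD 4 3) (L 0) (LD 2 1) (L 0) X X)))
(P (B 0 (L 0) (B 2 (LD 2 1) (B 4 (LD 4 3) (B 1 (B 3 (L 0) (F 0 5 (LE 5 3))) (F 0 3 (F 0 5 (LE 5 1)))))))))))))
(Q 2 11 0 (P (B 3 (L 0) (B 0 (L 0) (S 3 (LE 14 0) (LE 13 0) (LE 12 0) (F 0 1 (F 0 5 (L 0))) X X X))))
(Q 2 12 24576 (Q 5 8 1536 (P (B 0 (L 0) (S 0 (LD 5 1) (LD 4 3) (L 0) (LD 2 3) (L 0) X X)))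
(Q 5 11 0 (P (B 0 (L 0) (S 0 (LD 5 3) (LD 4 3) (L 0) (LD 2 3) (L 0) X X)))
(Q 5 12 0 (P (B 0 (L 0) (S 0 (LD 5 3) (LD 4 3) (L 0) (LD 2 3) (L 0) X X)))
(P (B 0 (L 0) (B 2 (LD 2 3) (B 4 (LD 4 3) (B 1 (B 3 (L 0) (F 0 5 (LE 5 3))) (F 0 3 (F 0 5 (LE 5 1)))))))))))
(N 2 (Bad 2)
(N 2 (Bad 2)
(N 2 (Bad 2)
(N 2 (P (B 0 (L 0) (B 1 (LD 0 2) (S 0 (LE 5 1) (LD 4 3) (LE 0 1) (LE 0 1) X X X))))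
(P (B 0 (L 0) (B 1 (L 0) (S 0 (LE 5 1) (LD 4 3) (LE 0 1) (LE 0 1) X X X))))))))))))
(Q 5 11 0 (P (B 3 (L 0) (B 0 (L 0) (S 3 (LE 14 0) (LE 13 0) (LE 12 0) (F 0 1 (F 0 2 (L 0))) X X X))))
(Q 5 12 24576 (Q 4 13 16384 (P (B 0 (L 0) (B 1 (L 0) (B 2 (LE 2 1) (B 3 (LE 0 0) (F 0 4 (F 0 5 (D 3))))))))
(Q 5 13 16384 (P (B 0 (L 0) (B 1 (L 0) (B 2 (LE 2 1) (B 3 (LE 0 0) (F 0 4 (F 0 5 (D 3))))))))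
(P (B 0 (L 0) (B 4 (LD 4 3) (B 2 (L 2) (B 1 (B 5 (LD 5 3) (F 0 3 (L 0))) (F 0 3 (F 0 5 (LE 5 1))))))))))
(P (B 0 (L 0) (B 4 (LD 4 3) (B 2 (L 2) (B 1 (B 3 (L 0) (F 0 5 (LE 5 3))) (F 0 3 (F 0 5 (LE 5 1))))))))))))
(N 4 (Bad 4)
(N 4 (Bad 4)
(N 4 (Bad 4)
(N 4 (Bad 4)
(N 4 (Q 5 6 0 (Q 2 7 1792 (Q 2 8 1536 (P (B 0 (L 0) (B 1 (L 0) (B 5 (LE 5 1) (B 3 (B 4 (LE 0 1) (F 0 2 (F 1 9 (F 1 10 (LE 0 4))))) (F 0 2 (F 0 4 (F 1 9 (F 1 10 (LE 0 3))))))))))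
(Q 5 7 0 (P (B 0 (L 0) (B 1 (L 0) (S 1 (LE 10 0) (LE 9 0) (LE 8 0) (F 0 3 (F 0 4 (L 0))) (F 0 3 (F 0 4 (L 0))) X X))))
(Q 5 8 1536 (P (B 0 (L 0) (B 2 (LD 2 1) (B 5 (LD 5 1) (B 1 (B 3 (L 0) (F 0 4 (LE 0 3))) (F 0 3 (F 0 4 (LE 0 1))))))))
(Q 5 11 28672 (P (B 0 (L 0) (B 2 (LD 2 1) (B 5 (LD 5 3) (B 1 (B 3 (L 0) (F 0 4 (LE 0 3))) (F 0 3 (F 0 4 (LE 0 1))))))))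
(P (B 0 (L 0) (B 2 (LD 2 1) (B 1 (B 3 (L 0) (B 4 (LE 0 3) (F 0 5 (LE 5 3)))) (B 5 (B 3 (LE 5 1) (F 0 4 (LE 0 1))) (F 0 3 (F 0 4 (LE 0 1))))))))))))
(Q 2 11 28672 (Q 5 7 1792 (P (B 0 (L 0) (B 2 (LD 2 3) (B 5 (LD 5 1) (B 1 (B 3 (L 0) (F 0 4 (LE 0 3))) (F 0 3 (F 0 4 (LE 0 1))))))))
(Q 5 11 0 (P (B 0 (L 0) (B 2 (LD 2 3) (B 5 (LD 5 3) (B 1 (B 3 (L 0) (F 0 4 (LE 0 3))) (F 0 3 (F 0 4 (LE 0 1))))))))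
(Q 5 12 24576 (P (B 0 (L 0) (B 2 (LD 2 3) (B 5 (LD 5 3) (B 1 (B 3 (L 0) (F 0 4 (LE 0 3))) (F 0 3 (F 0 4 (LE 0 1))))))))
(P (B 0 (L 0) (B 2 (LD 2 3) (B 1 (B 3 (L 0) (B 4 (LE 0 3) (F 0 5 (LE 5 3)))) (B 5 (B 3 (LE 5 1) (F 0 4 (LE 0 1))) (F 0 3 (F 0 4 (LE 0 1)))))))))))
(Q 2 15 458752 (Q 5 7 1792 (P (B 0 (L 0) (B 2 (LD 2 4) (B 5 (LD 5 1) (B 1 (B 3 (L 0) (F 0 4 (LE 0 3))) (F 0 3 (F 0 4 (LE 0 1))))))))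
(Q 5 11 28672 (P (B 0 (L 0) (B 2 (LD 2 4) (B 5 (LD 5 3) (B 1 (B 3 (L 0) (F 0 4 (LE 0 3))) (F 0 3 (F 0 4 (LE 0 1))))))))
(P (B 0 (L 0) (B 2 (LD 2 4) (B 1 (B 3 (L 0) (B 4 (LE 0 3) (F 0 5 (LE 5 3)))) (B 5 (B 3 (LE 5 1) (F 0 4 (LE 0 1))) (F 0 3 (F 0 4 (LE 0 1))))))))))
(P (B 0 (L 0) (B 1 (L 0) (B 5 (LE 5 1) (B 3 (B 2 (LE 2 1) (F 0 4 (LE 0 1))) (F 0 2 (F 0 4 (LE 2 1)))))))))))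
(Q 5 7 1792 (Q 5 11 28672 (P (B 0 (L 0) (B 5 (LD 5 3) (B 2 (L 2) (B 1 (B 3 (L 0) (F 0 4 (LE 0 3))) (F 0 3 (F 0 4 (LE 0 1))))))))
(Q 5 15 458752 (P (B 0 (L 0) (B 5 (LD 5 4) (B 2 (L 2) (B 1 (B 3 (L 0) (F 0 4 (LE 0 3))) (F 0 3 (F 0 4 (LE 0 1))))))))
(P (B 0 (L 0) (B 1 (L 0) (B 2 (LE 2 1) (B 3 (B 5 (LE 5 1) (F 0 4 (LE 0 1))) (F 0 4 (F 0 5 (LE 5 1))))))))))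
(Q 5 11 28672 (P (B 0 (L 0) (B 5 (LD 5 3) (B 2 (L 2) (B 1 (B 3 (L 0) (F 0 4 (LE 0 3))) (F 0 3 (F 0 4 (LE 0 1))))))))
(P (B 4 (L 0) (B 0 (L 0) (B 2 (LE 2 4) (B 1 (B 3 (LE 0 4) (F 0 5 (LE 5 3))) (F 0 3 (F 0 5 (LE 5 4)))))))))))
(P (B 0 (L 0) (B 1 (L 0) (S 0 (LE 5 1) (LE 0 1) (LE 0 1) (LE 2 1) X X X))))))))))))
(P (B 0 (L 0) (B 1 (L 0) (S 0 (LE 5 1) (LE 4 1) (LE 0 1) (LE 2 1) X X X)))))))))))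
(N 2 (Bad 2)
(N 2 (Bad 2)
(N 2 (Bad 2)
(N 2 (Bad 2)
(N 2 (Q 3 6 1920 (Q 4 6 0 (Q 5 6 0 (P (B 0 (L 0) (B 1 (L 0) (B 6 (D 0) (S 0 (LE 5 1) (LE 4 1) (LE 3 1) (LE 0 1) X X X)))))
(Q 5 7 1792 (Q 3 7 0 (P (B 0 (L 0) (B 1 (L 0) (S 1 (LE 10 0) (LE 9 0) (LE 8 0) (F 0 2 (F 0 4 (L 0))) (F 0 2 (F 0 5 (L 0))) X X))))
(Q 4 7 0 (P (B 0 (L 0) (B 1 (L 0) (S 1 (LE 10 0) (LE 9 0) (LE 8 0) (F 0 2 (F 0 3 (L 0))) (F 0 2 (F 0 5 (L 0))) X X))))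
(Q 5 8 1536 (P (B 0 (L 0) (B 1 (L 0) (S 0 (B 6 (F 0 2 (LE 0 1)) (F 1 9 (F 1 10 (L 5)))) (LE 4 1) (LE 3 1) (LE 0 1) X X X))))
(Q 3 8 1536 (Q 3 9 1024 (P (B 0 (L 0) (B 1 (L 0) (B 4 (LE 4 1) (B 3 (F 1 7 (F 0 2 (F 1 10 (L 0)))) (F 0 2 (F 0 5 (LE 0 1))))))))
(Q 4 8 0 (P (B 0 (L 0) (B 1 (L 0) (S 1 (LE 10 0) (LE 9 0) (F 0 2 (F 0 5 (L 0))) (LE 7 0) (F 0 2 (F 0 5 (L 0))) X X))))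
(Q 3 11 28672 (Q 3 12 24576 (P (B 0 (L 0) (B 2 (L 0) (B 4 (LE 4 2) (B 3 (F 2 13 (F 2 14 (B 1 (L 0) (F 0 5 (F 1 9 (F 1 10 (L 5))))))) (F 0 1 (F 0 5 (LE 5 2))))))))
(N 3 (Bad 3)
(N 3 (P (B 0 (L 0) (B 3 (LD 0 1) (S 3 (LE 15 0) (LE 11 0) (LE 8 0) (F 0 2 (F 0 5 (LE 0 3))) X X X))))
(P (B 0 (L 0) (B 1 (L 0) (S 0 (LE 5 1) (LE 4 1) (LD 0 2) (LE 0 1) X X X)))))))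
(P (B 0 (L 0) (B 1 (L 0) (B 4 (LE 4 1) (B 2 (B 3 (LE 3 1) (F 0 5 (LE 0 1))) (F 0 3 (F 0 5 (F 1 9 (F 1 10 (LE 5 2)))))))))))))
(Q 3 11 28672 (Q 3 12 24576 (Q 3 13 16384 (P (B 0 (L 0) (B 2 (L 0) (B 3 (D 2) (B 4 (LE 4 0) (F 0 1 (F 0 5 (LE 5 2))))))))
(N 3 (Bad 3)
(N 3 (P (B 0 (L 0) (B 3 (LD 0 2) (B 2 (F 3 6 (F 0 5 (F 3 15 (L 0)))) (B 4 (LE 4 0) (F 0 1 (F 0 5 (LE 5 2))))))))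
(P (B 0 (L 0) (B 1 (L 0) (S 0 (LE 5 1) (LE 4 1) (LD 0 2) (LE 0 1) X X X)))))))
(N 3 (Bad 3)
(N 3 (Bad 3)
(N 3 (P (B 0 (L 0) (B 3 (LD 0 2) (S 3 (LE 16 0) (LE 15 0) (LE 11 0) (F 0 2 (F 0 5 (LE 0 3))) X X X))))
(P (B 0 (L 0) (B 1 (L 0) (S 0 (LE 5 1) (LE 4 1) (LD 0 2) (LE 0 1) X X X))))))))
(N 3 (Bad 3)
(N 3 (Bad 3)
(N 3 (Bad 3)
(N 3 (P (B 0 (L 0) (B 1 (LD 0 3) (S 0 (LE 5 1) (LD 4 3) (LE 0 1) (LE 0 1) X X X))))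
(P (B 0 (L 0) (B 1 (L 0) (S 0 (LE 5 1) (LE 4 1) (LE 0 1) (LE 0 1) X X X)))))))))))))
(Q 5 11 28672 (Q 3 7 1792 (Q 3 8 1536 (P (B 0 (L 0) (B 1 (L 0) (S 0 (LD 5 2) (LE 4 1) (F 1 9 (F 1 10 (L 3))) (LE 0 1) X X X))))
(Q 4 7 0 (P (B 0 (L 0) (S 0 (LD 5 2) (LD 4 1) (LD 3 1) (L 0) (L 0) X X)))
(Q 4 8 1536 (P (B 0 (L 0) (S 0 (LD 5 2) (LD 4 1) (LD 3 1) (L 0) (L 0) X X)))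
(Q 4 11 0 (P (B 0 (L 0) (S 0 (LD 5 2) (LD 4 2) (LD 3 1) (L 0) (L 0) X X)))
(Q 4 12 24576 (P (B 0 (L 0) (S 0 (LD 5 2) (LD 4 2) (LD 3 1) (L 0) (L 0) X X)))
(P (B 0 (L 0) (B 3 (LD 3 1) (B 5 (LD 5 2) (B 1 (B 2 (L 0) (F 0 4 (LE 4 2))) (F 0 2 (F 0 4 (LE 4 1)))))))))))))
(Q 3 11 0 (P (B 2 (L 0) (B 0 (L 0) (S 2 (LE 14 0) (LE 13 0) (LE 12 0) (F 0 1 (F 0 4 (L 0))) X X X))))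
(Q 3 12 24576 (Q 4 7 1792 (P (B 0 (L 0) (S 0 (LD 5 2) (LD 4 1) (LD 3 2) (L 0) (L 0) X X)))
(Q 4 11 0 (P (B 0 (L 0) (S 0 (LD 5 2) (LD 4 2) (LD 3 2) (L 0) (L 0) X X)))
(Q 4 12 0 (P (B 0 (L 0) (S 0 (LD 5 2) (LD 4 2) (LD 3 2) (L 0) (L 0) X X)))
(P (B 0 (L 0) (B 3 (LD 3 2) (B 5 (LD 5 2) (B 1 (B 2 (L 0) (F 0 4 (LE 4 2))) (F 0 2 (F 0 4 (LE 4 1)))))))))))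
(N 3 (Bad 3)
(N 3 (Bad 3)
(N 3 (Bad 3)
(N 3 (P (B 0 (L 0) (B 4 (LD 4 3) (B 5 (LD 5 2) (B 1 (B 2 (LD 0 3) (F 0 3 (LE 0 2))) (F 0 2 (F 0 3 (LE 0 1))))))))
(P (B 0 (L 0) (B 1 (L 0) (S 0 (LD 5 2) (LE 4 1) (LE 0 1) (LE 0 1) X X X)))))))))))
(N 5 (Bad 5)
(N 5 (Bad 5)
(N 5 (Bad 5)
(N 5 (Bad 5)
(N 5 (Q 3 7 1792 (P (B 0 (L 0) (B 3 (LD 3 1) (B 4 (L 4) (B 1 (B 2 (L 0) (F 0 5 (LE 0 2))) (F 0 2 (F 0 5 (LE 0 1))))))))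
(Q 3 11 28672 (P (B 0 (L 0) (B 3 (LD 3 2) (B 4 (L 4) (B 1 (B 2 (L 0) (F 0 5 (LE 0 2))) (F 0 2 (F 0 5 (LE 0 1))))))))
(Q 3 15 458752 (P (B 0 (L 0) (B 3 (LD 3 5) (B 4 (L 4) (B 1 (B 2 (L 0) (F 0 5 (LE 0 2))) (F 0 2 (F 0 5 (LE 0 1))))))))
(P (B 0 (L 0) (B 1 (L 0) (B 4 (LE 4 1) (B 2 (B 3 (LE 3 1) (F 0 5 (LE 0 1))) (F 0 3 (F 0 5 (LE 3 1)))))))))))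
(P (B 0 (L 0) (B 1 (L 0) (S 0 (LE 0 1) (LE 4 1) (LE 3 1) (LE 0 1) X X X))))))))))))
(Q 4 7 1792 (Q 5 6 0 (Q 3 7 0 (P (B 0 (L 0) (B 1 (L 0) (S 1 (LE 10 0) (LE 9 0) (LE 8 0) (F 0 2 (F 0 5 (L 0))) (F 0 2 (F 0 4 (L 0))) X X))))
(Q 5 7 0 (P (B 0 (L 0) (B 1 (L 0) (S 1 (LE 10 0) (LE 9 0) (LE 8 0) (F 0 2 (F 0 3 (L 0))) (F 0 2 (F 0 4 (L 0))) X X))))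
(Q 4 8 1536 (P (B 0 (L 0) (B 1 (L 0) (S 0 (LE 5 1) (B 6 (F 0 2 (LE 0 1)) (F 1 9 (F 1 10 (L 4)))) (LE 3 1) (LE 0 1) X X X))))
(Q 3 8 1536 (Q 3 9 1024 (P (B 0 (L 0) (B 1 (L 0) (S 0 (LE 5 1) (LE 4 1) (F 1 7 (F 1 10 (LE 3 0))) (LE 0 1) X X X))))
(Q 5 8 0 (P (B 0 (L 0) (B 1 (L 0) (S 1 (LE 10 0) (LE 9 0) (F 0 2 (F 0 4 (L 0))) (LE 7 0) (F 0 2 (F 0 4 (L 0))) X X))))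
(Q 3 11 28672 (Q 3 12 24576 (P (B 0 (L 0) (B 1 (L 0) (B 4 (LE 4 1) (B 2 (B 6 (D 0) (LE 0 0)) (F 0 3 (F 0 5 (F 2 13 (F 2 14 (LE 5 1))))))))))
(N 3 (Bad 3)
(N 3 (P (B 0 (L 0) (B 3 (LD 0 1) (S 3 (LE 15 0) (LE 11 0) (LE 8 0) (F 0 2 (F 0 4 (LE 0 3))) X X X))))
(P (B 0 (L 0) (B 1 (L 0) (S 0 (LE 5 1) (LE 4 1) (LD 0 2) (LE 0 1) X X X)))))))
(N 3 (Bad 3)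
(N 3 (Bad 3)
(N 3 (P (B 0 (L 0) (B 3 (LD 0 1) (S 3 (LE 16 0) (LE 15 0) (LE 8 0) (F 0 2 (F 0 4 (L 0))) X X X))))
(P (B 0 (L 0) (B 1 (L 0) (S 0 (LE 5 1) (LE 4 1) (LE 0 1) (LE 0 1) X X X))))))))))
(Q 3 11 28672 (Q 3 12 24576 (Q 3 13 16384 (P (B 0 (L 0) (B 2 (L 0) (B 3 (D 2) (B 5 (LE 5 0) (F 0 1 (F 0 4 (LE 4 2))))))))
(N 3 (Bad 3)
(N 3 (P (B 0 (L 0) (B 3 (LD 0 2) (B 2 (F 3 6 (F 0 4 (F 3 15 (L 0)))) (B 5 (LE 5 0) (F 0 1 (F 0 4 (LE 4 2))))))))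
(P (B 0 (L 0) (B 1 (L 0) (S 0 (LE 5 1) (LE 4 1) (LD 0 2) (LE 0 1) X X X)))))))
(N 3 (Bad 3)
(N 3 (Bad 3)
(N 3 (P (B 0 (L 0) (B 3 (LD 0 2) (S 3 (LE 16 0) (LE 15 0) (LE 11 0) (F 0 2 (F 0 4 (LE 0 3))) X X X))))
(P (B 0 (L 0) (B 1 (L 0) (S 0 (LE 5 1) (LE 4 1) (LD 0 2) (LE 0 1) X X X))))))))
(N 3 (Bad 3)
(N 3 (Bad 3)
(N 3 (Bad 3)
(N 3 (P (B 0 (L 0) (B 1 (LD 0 3) (S 0 (LD 5 3) (LE 4 1) (LE 0 1) (LE 0 1) X X X))))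
(P (B 0 (L 0) (B 1 (L 0) (S 0 (LE 5 1) (LE 4 1) (LE 0 1) (LE 0 1) X X X)))))))))))))
(Q 5 7 0 (Q 3 7 0 (P (B 0 (L 0) (B 1 (L 0) (B 7 (D 0) (S 0 (LE 5 1) (LE 4 1) (LE 3 1) (LE 0 1) X X X)))))
(Q 3 8 1536 (P (B 0 (L 0) (B 1 (L 0) (S 0 (LE 5 1) (LE 4 1) (B 7 (F 0 2 (LE 0 1)) (F 1 9 (F 1 10 (L 3)))) (LE 0 1) X X X))))
(Q 3 11 28672 (Q 3 12 24576 (Q 3 13 16384 (P (B 0 (L 0) (B 2 (L 0) (S 0 (LE 5 2) (LE 4 2) (D 2) (LE 0 2) X X X))))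
(N 3 (Bad 3)
(N 3 (P (B 0 (L 0) (B 3 (LD 0 2) (S 0 (LE 5 3) (LE 4 3) (F 3 6 (F 3 15 (LE 0 0))) (LE 0 3) X X X))))
(P (B 0 (L 0) (B 1 (L 0) (S 0 (LE 5 1) (LE 4 1) (LD 0 2) (LE 0 1) X X X)))))))
(N 3 (Bad 3)
(N 3 (Bad 3)
(N 3 (P (B 0 (L 0) (B 1 (LD 0 3) (S 0 (LE 5 1) (LE 4 1) (LD 0 2) (LD 0 3) X X X))))
(P (B 0 (L 0) (B 1 (L 0) (S 0 (LE 5 1) (LE 4 1) (LD 0 2) (LE 0 1) X X X))))))))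
(N 3 (Bad 3)
(N 3 (Bad 3)
(N 3 (Bad 3)
(N 3 (P (B 0 (L 0) (B 1 (LD 0 3) (S 0 (LE 5 1) (LE 4 1) (LE 0 1) (LE 0 1) X X X))))
(P (B 0 (L 0) (B 1 (L 0) (S 0 (LE 5 1) (LE 4 1) (LE 0 1) (LE 0 1) X X X)))))))))))
(Q 5 8 1536 (Q 3 7 0 (Q 3 8 0 (P (B 0 (L 0) (B 1 (L 0) (S 0 (LE 5 1) (LE 4 1) (F 1 9 (F 1 10 (L 3))) (LE 0 1) X X X))))
(Q 3 9 1024 (P (B 0 (L 0) (B 1 (L 0) (B 4 (LE 4 1) (B 3 (F 1 8 (F 0 2 (F 1 10 (L 0)))) (F 0 2 (F 0 5 (LE 0 1))))))))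
(Q 4 8 0 (P (B 0 (L 0) (B 1 (L 0) (S 1 (LE 10 0) (LE 9 0) (F 0 2 (F 0 3 (LE 0 1))) (F 0 2 (F 0 5 (L 0))) (LE 6 0) X X))))
(Q 5 9 1024 (P (B 0 (L 0) (B 1 (L 0) (B 4 (LE 4 1) (B 3 (B 5 (D 1) (F 0 2 (LE 0 1))) (F 0 2 (F 0 5 (LE 0 1))))))))
(Q 3 11 28672 (Q 3 12 24576 (P (B 0 (L 0) (B 2 (L 0) (B 4 (LE 4 2) (B 3 (F 2 13 (F 2 14 (B 1 (L 0) (F 0 5 (F 1 9 (F 1 10 (L 5))))))) (F 0 1 (F 0 5 (LE 5 2))))))))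
(N 3 (Bad 3)
(N 3 (P (B 0 (L 0) (B 3 (LD 0 1) (S 3 (LE 15 0) (LE 11 0) (F 0 2 (F 0 5 (LE 0 3))) (LE 6 0) X X X))))
(P (B 0 (L 0) (B 1 (L 0) (S 0 (LE 5 1) (LE 4 1) (LD 0 2) (LE 0 1) X X X)))))))
(P (B 0 (L 0) (B 1 (L 0) (B 4 (LE 4 1) (B 2 (B 3 (LE 3 1) (F 0 5 (LE 0 1))) (F 0 3 (F 0 5 (F 1 9 (F 1 10 (LE 5 2)))))))))))))))
(Q 3 8 0 (Q 3 9 1024 (P (B 0 (L 0) (B 1 (L 0) (S 0 (LE 5 1) (LE 4 1) (F 1 7 (F 1 10 (LE 3 0))) (LE 0 1) X X X))))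
(Q 4 8 0 (P (B 0 (L 0) (B 1 (L 0) (B 8 (D 0) (S 0 (LE 5 1) (LE 4 1) (LE 3 1) (LE 0 1) X X X)))))
(Q 4 9 1024 (P (B 0 (L 0) (B 1 (L 0) (S 0 (LE 5 1) (B 8 (F 0 2 (LE 0 1)) (F 1 6 (F 1 10 (LE 4 0)))) (LE 3 1) (LE 0 1) X X X))))
(Q 3 11 28672 (Q 3 12 24576 (P (B 0 (L 0) (B 1 (L 0) (B 4 (LE 4 1) (B 2 (B 8 (D 0) (LE 0 0)) (F 0 3 (F 0 5 (F 2 13 (F 2 14 (LE 5 1))))))))))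
(N 3 (Bad 3)
(N 3 (P (B 0 (L 0) (B 3 (LD 0 1) (S 3 (LE 15 0) (LE 11 0) (F 0 2 (F 0 4 (LE 0 3))) (LE 6 0) X X X))))
(P (B 0 (L 0) (B 1 (L 0) (S 0 (LE 5 1) (LE 4 1) (LD 0 2) (LE 0 1) X X X)))))))
(N 3 (Bad 3)
(N 3 (Bad 3)
(N 3 (P (B 0 (L 0) (B 3 (LD 0 1) (S 3 (LE 16 0) (LE 15 0) (F 0 2 (F 0 4 (L 0))) (LE 6 0) X X X))))
(P (B 0 (L 0) (B 1 (L 0) (S 0 (LE 5 1) (LE 4 1) (LE 0 1) (LE 0 1) X X X)))))))))))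
(Q 3 9 1024 (Q 3 10 0 (P (B 0 (L 0) (B 1 (L 0) (S 0 (LE 5 1) (LE 4 1) (F 1 7 (F 1 8 (F 0 2 (L 0)))) (LE 0 1) X X X))))
(Q 4 8 0 (P (B 0 (L 0) (B 1 (L 0) (S 0 (LE 5 1) (LE 4 1) (B 8 (F 0 2 (LE 0 1)) (F 1 7 (F 1 10 (LE 3 0)))) (LE 0 1) X X X))))
(Q 4 10 0 (P (B 0 (L 0) (B 1 (L 0) (B 5 (LE 5 1) (B 3 (B 4 (D 1) (F 0 2 (LE 0 1))) (F 0 2 (F 0 4 (LE 0 1))))))))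
(Q 5 10 0 (P (B 0 (L 0) (B 1 (L 0) (S 0 (B 3 (D 1) (LE 5 0)) (LE 4 1) (LE 3 1) (LE 0 1) X X X))))
(Q 3 11 28672 (Q 3 12 24576 (P (B 0 (L 0) (B 2 (L 0) (B 1 (LE 0 2) (B 3 (F 2 13 (F 2 14 (B 4 (F 1 8 (F 1 10 (L 0))) (F 0 5 (F 1 7 (F 1 10 (L 0))))))) (F 0 4 (F 0 5 (LE 4 1))))))))
(N 3 (Bad 3)
(N 3 (P (B 0 (L 0) (B 3 (LD 0 1) (S 0 (LE 5 3) (LE 4 3) (LE 0 3) (F 3 11 (F 3 15 (LE 0 0))) X X X))))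
(P (B 0 (L 0) (B 1 (L 0) (S 0 (LE 5 1) (LE 4 1) (LD 0 2) (LE 0 1) X X X)))))))
(P (B 0 (L 0) (B 1 (L 0) (S 0 (LE 5 1) (LE 4 1) (B 10 (LE 3 1) (F 1 7 (F 1 8 (F 0 2 (L 3))))) (LE 0 1) X X X)))))))))
(Q 3 11 28672 (Q 3 12 24576 (Q 3 13 16384 (P (B 0 (L 0) (B 2 (L 0) (B 3 (D 2) (B 1 (LE 0 0) (F 0 4 (F 0 5 (LE 5 1))))))))
(N 3 (Bad 3)
(N 3 (P (B 0 (L 0) (B 3 (LD 0 2) (S 0 (LE 5 3) (LE 4 3) (F 3 6 (F 3 15 (LE 0 0))) (LE 0 3) X X X))))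
(P (B 0 (L 0) (B 1 (L 0) (S 0 (LE 5 1) (LE 4 1) (LD 0 2) (LE 0 1) X X X)))))))
(N 3 (Bad 3)
(N 3 (Bad 3)
(N 3 (P (B 0 (L 0) (B 1 (LD 0 3) (S 0 (LE 5 1) (LE 4 1) (LD 0 2) (LD 0 3) X X X))))
(P (B 0 (L 0) (B 1 (L 0) (S 0 (LE 5 1) (LE 4 1) (LD 0 2) (LE 0 1) X X X))))))))
(N 3 (Bad 3)
(N 3 (Bad 3)
(N 3 (Bad 3)
(N 3 (P (B 0 (L 0) (B 1 (LD 0 3) (S 0 (LE 5 1) (LE 4 1) (LE 0 1) (LE 0 1) X X X))))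
(P (B 0 (L 0) (B 1 (L 0) (S 0 (LE 5 1) (LE 4 1) (LE 0 1) (LE 0 1) X X X))))))))))))
(Q 5 11 28672 (Q 3 7 0 (Q 3 8 1536 (P (B 0 (L 0) (B 1 (L 0) (S 0 (LD 5 2) (LE 4 1) (F 1 9 (F 1 10 (L 3))) (LE 0 1) X X X))))
(Q 4 8 1536 (P (B 0 (L 0) (S 0 (LD 5 2) (LD 4 1) (LD 3 1) (L 0) (L 0) X X)))
(Q 4 11 0 (P (B 0 (L 0) (S 0 (LD 5 2) (LD 4 2) (LD 3 1) (L 0) (L 0) X X)))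
(Q 4 12 24576 (P (B 0 (L 0) (S 0 (LD 5 2) (LD 4 2) (LD 3 1) (L 0) (L 0) X X)))
(P (B 0 (L 0) (B 3 (LD 3 1) (B 5 (LD 5 2) (B 1 (B 2 (L 0) (F 0 4 (LE 4 2))) (F 0 2 (F 0 4 (LE 4 1))))))))))))
(Q 3 8 1536 (Q 3 9 1024 (P (B 0 (L 0) (B 1 (L 0) (S 0 (LD 5 2) (LE 4 1) (F 1 7 (F 1 10 (LE 3 0))) (LE 0 1) X X X))))
(Q 4 9 1024 (P (B 0 (L 0) (B 1 (L 0) (B 5 (LD 5 2) (B 3 (B 4 (D 1) (F 0 2 (LE 0 1))) (F 0 2 (F 0 4 (LE 0 1))))))))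
(Q 4 8 0 (P (B 0 (L 0) (S 0 (LD 5 2) (LD 4 1) (LD 3 1) (L 0) (L 0) X X)))
(Q 4 11 0 (P (B 0 (L 0) (S 0 (LD 5 2) (LD 4 2) (LD 3 1) (L 0) (L 0) X X)))
(Q 4 12 24576 (P (B 0 (L 0) (S 0 (LD 5 2) (LD 4 2) (LD 3 1) (L 0) (L 0) X X)))
(P (B 0 (L 0) (B 3 (LD 3 1) (B 5 (LD 5 2) (B 1 (B 2 (L 0) (F 0 4 (LE 4 2))) (F 0 2 (F 0 4 (LE 4 1)))))))))))))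
(Q 3 11 0 (P (B 2 (L 0) (B 0 (L 0) (S 2 (LE 14 0) (LE 13 0) (LE 12 0) (F 0 1 (F 0 4 (L 0))) X X X))))
(Q 3 12 24576 (Q 4 8 1536 (P (B 0 (L 0) (S 0 (LD 5 2) (LD 4 1) (LD 3 2) (L 0) (L 0) X X)))
(Q 4 11 0 (P (B 0 (L 0) (S 0 (LD 5 2) (LD 4 2) (LD 3 2) (L 0) (L 0) X X)))
(Q 4 12 0 (P (B 0 (L 0) (S 0 (LD 5 2) (LD 4 2) (LD 3 2) (L 0) (L 0) X X)))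
(P (B 0 (L 0) (B 3 (LD 3 2) (B 5 (LD 5 2) (B 1 (B 2 (L 0) (F 0 4 (LE 4 2))) (F 0 2 (F 0 4 (LE 4 1)))))))))))
(N 3 (Bad 3)
(N 3 (Bad 3)
(N 3 (Bad 3)
(N 3 (P (B 0 (L 0) (B 1 (LD 0 3) (S 0 (LD 5 2) (LE 4 1) (LE 0 1) (LE 0 1) X X X))))
(P (B 0 (L 0) (B 1 (L 0) (S 0 (LD 5 2) (LE 4 1) (LE 0 1) (LE 0 1) X X X))))))))))))
(N 5 (Bad 5)
(N 5 (Bad 5)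
(N 5 (Bad 5)
(N 5 (Bad 5)
(N 5 (Q 4 11 28672 (P (B 0 (L 0) (B 4 (LD 4 2) (B 3 (L 3) (B 1 (B 2 (L 0) (F 0 5 (LE 0 2))) (F 0 2 (F 0 5 (LE 0 1))))))))
(Q 4 15 458752 (P (B 0 (L 0) (B 4 (LD 4 5) (B 3 (L 3) (B 1 (B 2 (L 0) (F 0 5 (LE 0 2))) (F 0 2 (F 0 5 (LE 0 1))))))))
(P (B 0 (L 0) (B 1 (L 0) (B 3 (LE 3 1) (B 2 (B 4 (LE 4 1) (F 0 5 (LE 0 1))) (F 0 4 (F 0 5 (LE 4 1))))))))))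
(P (B 0 (L 0) (B 1 (L 0) (S 0 (LE 0 1) (LE 4 1) (LE 3 1) (LE 0 1) X X X)))))))))))))
(Q 4 11 28672 (Q 5 6 0 (Q 3 7 1792 (Q 3 8 1536 (P (B 0 (L 0) (B 1 (L 0) (S 0 (LE 5 1) (LD 4 2) (F 1 9 (F 1 10 (L 3))) (LE 0 1) X X X))))
(Q 5 7 0 (P (B 0 (L 0) (S 0 (LD 5 1) (LD 4 2) (LD 3 1) (L 0) (L 0) X X)))
(Q 5 8 1536 (P (B 0 (L 0) (S 0 (LD 5 1) (LD 4 2) (LD 3 1) (L 0) (L 0) X X)))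
(Q 5 11 0 (P (B 0 (L 0) (S 0 (LD 5 2) (LD 4 2) (LD 3 1) (L 0) (L 0) X X)))
(Q 5 12 24576 (P (B 0 (L 0) (S 0 (LD 5 2) (LD 4 2) (LD 3 1) (L 0) (L 0) X X)))
(P (B 0 (L 0) (B 3 (LD 3 1) (B 4 (LD 4 2) (B 1 (B 2 (L 0) (F 0 5 (LE 5 2))) (F 0 2 (F 0 5 (LE 5 1)))))))))))))
(Q 3 11 0 (P (B 2 (L 0) (B 0 (L 0) (S 2 (LE 14 0) (LE 13 0) (LE 12 0) (F 0 1 (F 0 5 (L 0))) X X X))))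
(Q 3 12 24576 (Q 5 7 1792 (P (B 0 (L 0) (S 0 (LD 5 1) (LD 4 2) (LD 3 2) (L 0) (L 0) X X)))
(Q 5 11 0 (P (B 0 (L 0) (S 0 (LD 5 2) (LD 4 2) (LD 3 2) (L 0) (L 0) X X)))
(Q 5 12 0 (P (B 0 (L 0) (S 0 (LD 5 2) (LD 4 2) (LD 3 2) (L 0) (L 0) X X)))
(P (B 0 (L 0) (B 3 (LD 3 2) (B 4 (LD 4 2) (B 1 (B 2 (L 0) (F 0 5 (LE 5 2))) (F 0 2 (F 0 5 (LE 5 1)))))))))))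
(N 3 (Bad 3)
(N 3 (Bad 3)
(N 3 (Bad 3)
(N 3 (P (B 0 (L 0) (B 4 (LD 4 2) (B 5 (LD 5 3) (B 1 (B 2 (LD 0 3) (F 0 3 (LE 0 2))) (F 0 2 (F 0 3 (LE 0 1))))))))
(P (B 0 (L 0) (B 1 (L 0) (S 0 (LE 5 1) (LD 4 2) (LE 0 1) (LE 0 1) X X X)))))))))))
(Q 5 7 1792 (Q 3 7 0 (Q 3 8 1536 (P (B 0 (L 0) (B 1 (L 0) (S 0 (LE 5 1) (LD 4 2) (F 1 9 (F 1 10 (L 3))) (LE 0 1) X X X))))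
(Q 5 8 1536 (P (B 0 (L 0) (S 0 (LD 5 1) (LD 4 2) (LD 3 1) (L 0) (L 0) X X)))
(Q 5 11 0 (P (B 0 (L 0) (S 0 (LD 5 2) (LD 4 2) (LD 3 1) (L 0) (L 0) X X)))
(Q 5 12 24576 (P (B 0 (L 0) (S 0 (LD 5 2) (LD 4 2) (LD 3 1) (L 0) (L 0) X X)))
(P (B 0 (L 0) (B 3 (LD 3 1) (B 4 (LD 4 2) (B 1 (B 2 (L 0) (F 0 5 (LE 5 2))) (F 0 2 (F 0 5 (LE 5 1))))))))))))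
(Q 3 8 1536 (Q 3 9 1024 (P (B 0 (L 0) (B 1 (L 0) (S 0 (LE 5 1) (LD 4 2) (F 1 7 (F 1 10 (LE 3 0))) (LE 0 1) X X X))))
(Q 5 9 1024 (P (B 0 (L 0) (B 1 (L 0) (B 4 (LD 4 2) (B 3 (B 5 (D 1) (F 0 2 (LE 0 1))) (F 0 2 (F 0 5 (LE 0 1))))))))
(Q 5 8 0 (P (B 0 (L 0) (S 0 (LD 5 1) (LD 4 2) (LD 3 1) (L 0) (L 0) X X)))
(Q 5 11 0 (P (B 0 (L 0) (S 0 (LD 5 2) (LD 4 2) (LD 3 1) (L 0) (L 0) X X)))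
(Q 5 12 24576 (P (B 0 (L 0) (S 0 (LD 5 2) (LD 4 2) (LD 3 1) (L 0) (L 0) X X)))
(P (B 0 (L 0) (B 3 (LD 3 1) (B 4 (LD 4 2) (B 1 (B 2 (L 0) (F 0 5 (LE 5 2))) (F 0 2 (F 0 5 (LE 5 1)))))))))))))
(Q 3 11 0 (P (B 2 (L 0) (B 0 (L 0) (S 2 (LE 14 0) (LE 13 0) (LE 12 0) (F 0 1 (F 0 5 (L 0))) X X X))))
(Q 3 12 24576 (Q 5 8 1536 (P (B 0 (L 0) (S 0 (LD 5 1) (LD 4 2) (LD 3 2) (L 0) (L 0) X X)))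
(Q 5 11 0 (P (B 0 (L 0) (S 0 (LD 5 2) (LD 4 2) (LD 3 2) (L 0) (L 0) X X)))
(Q 5 12 0 (P (B 0 (L 0) (S 0 (LD 5 2) (LD 4 2) (LD 3 2) (L 0) (L 0) X X)))
(P (B 0 (L 0) (B 3 (LD 3 2) (B 4 (LD 4 2) (B 1 (B 2 (L 0) (F 0 5 (LE 5 2))) (F 0 2 (F 0 5 (LE 5 1)))))))))))
(N 3 (Bad 3)
(N 3 (Bad 3)
(N 3 (Bad 3)
(N 3 (P (B 0 (L 0) (B 1 (LD 0 3) (S 0 (LE 5 1) (LD 4 2) (LE 0 1) (LE 0 1) X X X))))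
(P (B 0 (L 0) (B 1 (L 0) (S 0 (LE 5 1) (LD 4 2) (LE 0 1) (LE 0 1) X X X))))))))))))
(Q 5 11 0 (P (B 2 (L 0) (B 0 (L 0) (S 2 (LE 14 0) (LE 13 0) (LE 12 0) (F 0 1 (F 0 3 (L 0))) X X X))))
(Q 5 12 24576 (Q 4 13 16384 (P (B 0 (L 0) (B 1 (L 0) (B 3 (LE 3 1) (B 2 (LE 0 0) (F 0 4 (F 0 5 (D 2))))))))
(Q 5 13 16384 (P (B 0 (L 0) (B 1 (L 0) (B 3 (LE 3 1) (B 2 (LE 0 0) (F 0 4 (F 0 5 (D 2))))))))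
(N 5 (Bad 5)
(N 5 (Bad 5)
(N 5 (Bad 5)
(N 5 (P (B 0 (L 0) (B 2 (LD 0 5) (B 3 (LE 3 2) (B 1 (B 4 (LE 4 2) (F 0 5 (LE 0 2))) (F 0 4 (F 0 5 (F 2 13 (F 2 14 (LE 0 1))))))))))
(P (B 0 (L 0) (S 0 (LD 0 2) (LD 4 2) (L 3) (L 0) (L 0) X X)))))))))
(P (B 0 (L 0) (B 4 (LD 4 2) (B 3 (L 3) (B 1 (B 2 (L 0) (F 0 5 (LE 5 2))) (F 0 2 (F 0 5 (LE 5 1))))))))))))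
(N 4 (Bad 4)
(N 4 (Bad 4)
(N 4 (Bad 4)
(N 4 (Bad 4)
(N 4 (Q 5 6 0 (Q 3 7 1792 (Q 3 8 1536 (P (B 0 (L 0) (B 1 (L 0) (B 5 (LE 5 1) (B 2 (B 4 (LE 0 1) (F 0 3 (F 1 9 (F 1 10 (LE 0 4))))) (F 0 3 (F 0 4 (F 1 9 (F 1 10 (LE 0 2))))))))))
(Q 5 7 0 (P (B 0 (L 0) (B 1 (L 0) (S 1 (LE 10 0) (LE 9 0) (LE 8 0) (F 0 2 (F 0 4 (L 0))) (F 0 2 (F 0 4 (L 0))) X X))))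
(Q 5 8 1536 (P (B 0 (L 0) (B 3 (LD 3 1) (B 5 (LD 5 1) (B 1 (B 2 (L 0) (F 0 4 (LE 0 2))) (F 0 2 (F 0 4 (LE 0 1))))))))
(Q 5 11 28672 (P (B 0 (L 0) (B 3 (LD 3 1) (B 5 (LD 5 2) (B 1 (B 2 (L 0) (F 0 4 (LE 0 2))) (F 0 2 (F 0 4 (LE 0 1))))))))
(P (B 0 (L 0) (B 3 (LD 3 1) (B 1 (B 2 (L 0) (B 4 (LE 0 2) (F 0 5 (LE 5 2)))) (B 5 (B 2 (LE 5 1) (F 0 4 (LE 0 1))) (F 0 2 (F 0 4 (LE 0 1))))))))))))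
(Q 3 11 28672 (Q 5 7 1792 (P (B 0 (L 0) (B 3 (LD 3 2) (B 5 (LD 5 1) (B 1 (B 2 (L 0) (F 0 4 (LE 0 2))) (F 0 2 (F 0 4 (LE 0 1))))))))
(Q 5 11 0 (P (B 0 (L 0) (B 3 (LD 3 2) (B 5 (LD 5 2) (B 1 (B 2 (L 0) (F 0 4 (LE 0 2))) (F 0 2 (F 0 4 (LE 0 1))))))))
(Q 5 12 24576 (P (B 0 (L 0) (B 3 (LD 3 2) (B 5 (LD 5 2) (B 1 (B 2 (L 0) (F 0 4 (LE 0 2))) (F 0 2 (F 0 4 (LE 0 1))))))))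
(P (B 0 (L 0) (B 3 (LD 3 2) (B 1 (B 2 (L 0) (B 4 (LE 0 2) (F 0 5 (LE 5 2)))) (B 5 (B 2 (LE 5 1) (F 0 4 (LE 0 1))) (F 0 2 (F 0 4 (LE 0 1)))))))))))
(Q 3 15 458752 (Q 5 7 1792 (P (B 0 (L 0) (B 3 (LD 3 4) (B 5 (LD 5 1) (B 1 (B 2 (L 0) (F 0 4 (LE 0 2))) (F 0 2 (F 0 4 (LE 0 1))))))))
(Q 5 11 28672 (P (B 0 (L 0) (B 3 (LD 3 4) (B 5 (LD 5 2) (B 1 (B 2 (L 0) (F 0 4 (LE 0 2))) (F 0 2 (F 0 4 (LE 0 1))))))))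
(P (B 0 (L 0) (B 3 (LD 3 4) (B 1 (B 2 (L 0) (B 4 (LE 0 2) (F 0 5 (LE 5 2)))) (B 5 (B 2 (LE 5 1) (F 0 4 (LE 0 1))) (F 0 2 (F 0 4 (LE 0 1))))))))))
(P (B 0 (L 0) (B 1 (L 0) (B 5 (LE 5 1) (B 2 (B 3 (LE 3 1) (F 0 4 (LE 0 1))) (F 0 3 (F 0 4 (LE 3 1)))))))))))
(Q 5 7 1792 (Q 5 11 28672 (P (B 0 (L 0) (B 5 (LD 5 2) (B 3 (L 3) (B 1 (B 2 (L 0) (F 0 4 (LE 0 2))) (F 0 2 (F 0 4 (LE 0 1))))))))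
(Q 5 15 458752 (P (B 0 (L 0) (B 5 (LD 5 4) (B 3 (L 3) (B 1 (B 2 (L 0) (F 0 4 (LE 0 2))) (F 0 2 (F 0 4 (LE 0 1))))))))
(P (B 0 (L 0) (B 1 (L 0) (B 3 (LE 3 1) (B 2 (B 5 (LE 5 1) (F 0 4 (LE 0 1))) (F 0 4 (F 0 5 (LE 5 1))))))))))
(Q 5 11 28672 (P (B 0 (L 0) (B 5 (LD 5 2) (B 3 (L 3) (B 1 (B 2 (L 0) (F 0 4 (LE 0 2))) (F 0 2 (F 0 4 (LE 0 1))))))))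
(P (B 4 (L 0) (B 0 (L 0) (B 3 (LE 3 4) (B 1 (B 2 (LE 0 4) (F 0 5 (LE 5 2))) (F 0 2 (F 0 5 (LE 5 4)))))))))))
(P (B 0 (L 0) (B 1 (L 0) (S 0 (LE 5 1) (LE 0 1) (LE 3 1) (LE 0 1) X X X))))))))))))
(Q 3 11 28672 (Q 4 11 0 (P (B 2 (L 0) (B 0 (L 0) (S 2 (LE 14 0) (LE 13 0) (LE 12 0) (F 0 1 (F 0 5 (L 0))) X X X))))
(Q 4 12 24576 (Q 5 11 0 (P (B 0 (L 0) (S 0 (LD 5 2) (LD 4 2) (LD 3 2) (L 0) (L 0) X X)))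
(Q 5 12 0 (P (B 0 (L 0) (S 0 (LD 5 2) (LD 4 2) (LD 3 2) (L 0) (L 0) X X)))
(Q 5 13 16384 (P (B 0 (L 0) (S 0 (LD 5 2) (LD 4 2) (LD 3 2) (L 0) (L 0) X X)))
(Q 4 13 16384 (P (B 0 (L 0) (B 1 (L 0) (S 0 (LE 5 1) (B 2 (LE 4 1) (F 2 11 (F 0 5 (F 2 14 (LE 5 1))))) (LD 3 2) (LE 0 1) X X X))))
(Q 5 6 1920 (Q 5 7 1792 (P (B 0 (L 0) (S 0 (LD 5 1) (LD 4 2) (LD 3 2) (L 0) (L 0) X X)))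
(P (B 0 (L 0) (B 3 (LD 3 2) (B 4 (LD 4 2) (B 1 (B 2 (L 0) (F 0 5 (LE 5 2))) (F 0 2 (F 0 5 (LE 5 1)))))))))
(P (B 0 (L 0) (B 3 (LD 3 2) (B 4 (LD 4 2) (B 1 (B 2 (L 0) (F 0 5 (LE 5 2))) (F 0 2 (F 0 5 (LE 5 1)))))))))))))
(Q 5 11 0 (P (B 2 (L 0) (B 0 (L 0) (S 2 (LE 14 0) (LE 13 0) (LE 12 0) (F 0 1 (F 0 4 (L 0))) X X X))))
(Q 5 12 24576 (Q 5 13 16384 (P (B 0 (L 0) (B 1 (L 0) (S 0 (B 2 (LE 5 1) (F 2 11 (F 0 4 (F 2 14 (LE 4 1))))) (LE 4 1) (LD 3 2) (LE 0 1) X X X))))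
(Q 4 6 1920 (Q 4 7 1792 (P (B 0 (L 0) (S 0 (LD 5 2) (LD 4 1) (LD 3 2) (L 0) (L 0) X X)))
(P (B 0 (L 0) (B 3 (LD 3 2) (B 5 (LD 5 2) (B 1 (B 2 (L 0) (F 0 4 (LE 4 2))) (F 0 2 (F 0 4 (LE 4 1)))))))))
(P (B 0 (L 0) (B 3 (LD 3 2) (B 5 (LD 5 2) (B 1 (B 2 (L 0) (F 0 4 (LE 4 2))) (F 0 2 (F 0 4 (LE 4 1))))))))))
(Q 3 12 24576 (Q 3 13 16384 (P (B 0 (L 0) (B 2 (L 0) (S 0 (LE 5 2) (LE 4 2) (D 2) (LE 0 2) X X X))))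
(N 3 (Bad 3)
(N 3 (Bad 3)
(N 3 (P (B 0 (L 0) (B 3 (LD 0 2) (S 0 (LE 5 3) (LE 4 3) (F 3 15 (F 3 16 (L 0))) (LE 0 3) X X X))))
(P (B 0 (L 0) (B 3 (LD 0 2) (B 1 (L 0) (B 4 (LE 4 0) (F 0 2 (F 0 5 (LE 5 1))))))))))))
(N 3 (Bad 3)
(N 3 (Bad 3)
(N 3 (Bad 3)
(N 3 (P (B 0 (L 0) (B 3 (LD 0 2) (S 0 (LE 5 3) (LE 4 3) (B 1 (LE 0 3) (B 4 (LE 4 3) (F 0 5 (LE 5 3)))) (LE 0 3) X X X))))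
(P (B 0 (L 0) (B 3 (LD 0 2) (B 1 (L 0) (B 4 (LE 4 0) (F 0 2 (F 0 5 (LE 5 1)))))))))))))))))
(N 3 (Bad 3)
(N 3 (Bad 3)
(N 3 (Bad 3)
(N 3 (Bad 3)
(N 3 (Q 4 6 1920 (Q 5 6 0 (Q 4 7 1792 (Q 4 8 1536 (P (B 0 (L 0) (B 1 (L 0) (B 5 (LE 5 1) (B 2 (B 3 (LE 0 1) (F 0 4 (F 1 9 (F 1 10 (LE 0 3))))) (F 0 3 (F 0 4 (F 1 9 (F 1 10 (LE 0 2))))))))))
(Q 5 7 0 (P (B 0 (L 0) (B 1 (L 0) (S 1 (LE 10 0) (LE 9 0) (LE 8 0) (F 0 2 (F 0 3 (L 0))) (F 0 2 (F 0 3 (L 0))) X X))))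
(Q 5 8 1536 (P (B 0 (L 0) (B 4 (LD 4 1) (B 5 (LD 5 1) (B 1 (B 2 (L 0) (F 0 3 (LE 0 2))) (F 0 2 (F 0 3 (LE 0 1))))))))
(Q 5 11 28672 (P (B 0 (L 0) (B 4 (LD 4 1) (B 5 (LD 5 2) (B 1 (B 2 (L 0) (F 0 3 (LE 0 2))) (F 0 2 (F 0 3 (LE 0 1))))))))
(P (B 0 (L 0) (B 4 (LD 4 1) (B 1 (B 2 (L 0) (B 3 (LE 0 2) (F 0 5 (LE 5 2)))) (B 5 (B 2 (LE 5 1) (F 0 3 (LE 0 1))) (F 0 2 (F 0 3 (LE 0 1))))))))))))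
(Q 4 11 28672 (Q 5 7 1792 (P (B 0 (L 0) (B 4 (LD 4 2) (B 5 (LD 5 1) (B 1 (B 2 (L 0) (F 0 3 (LE 0 2))) (F 0 2 (F 0 3 (LE 0 1))))))))
(Q 5 11 0 (P (B 0 (L 0) (B 4 (LD 4 2) (B 5 (LD 5 2) (B 1 (B 2 (L 0) (F 0 3 (LE 0 2))) (F 0 2 (F 0 3 (LE 0 1))))))))
(Q 5 12 24576 (P (B 0 (L 0) (B 4 (LD 4 2) (B 5 (LD 5 2) (B 1 (B 2 (L 0) (F 0 3 (LE 0 2))) (F 0 2 (F 0 3 (LE 0 1))))))))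
(P (B 0 (L 0) (B 4 (LD 4 2) (B 1 (B 2 (L 0) (B 3 (LE 0 2) (F 0 5 (LE 5 2)))) (B 5 (B 2 (LE 5 1) (F 0 3 (LE 0 1))) (F 0 2 (F 0 3 (LE 0 1)))))))))))
(Q 4 15 458752 (Q 5 7 1792 (P (B 0 (L 0) (B 4 (LD 4 3) (B 5 (LD 5 1) (B 1 (B 2 (L 0) (F 0 3 (LE 0 2))) (F 0 2 (F 0 3 (LE 0 1))))))))
(Q 5 11 28672 (P (B 0 (L 0) (B 4 (LD 4 3) (B 5 (LD 5 2) (B 1 (B 2 (L 0) (F 0 3 (LE 0 2))) (F 0 2 (F 0 3 (LE 0 1))))))))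
(P (B 0 (L 0) (B 4 (LD 4 3) (B 1 (B 2 (L 0) (B 3 (LE 0 2) (F 0 5 (LE 5 2)))) (B 5 (B 2 (LE 5 1) (F 0 3 (LE 0 1))) (F 0 2 (F 0 3 (LE 0 1))))))))))
(P (B 0 (L 0) (B 1 (L 0) (B 5 (LE 5 1) (B 2 (B 4 (LE 4 1) (F 0 3 (LE 0 1))) (F 0 3 (F 0 4 (LE 4 1)))))))))))
(Q 5 7 1792 (Q 5 11 28672 (Q 5 12 24576 (P (B 0 (L 0) (B 1 (L 0) (B 4 (LE 4 1) (B 2 (B 3 (LE 0 1) (F 0 5 (LE 0 1))) (F 0 3 (F 0 5 (F 2 13 (F 2 14 (LE 0 1))))))))))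
(P (B 0 (L 0) (B 1 (L 0) (B 4 (LE 4 1) (B 3 (B 2 (LE 0 1) (F 0 5 (LE 0 1))) (F 0 2 (F 0 5 (LE 5 1)))))))))
(Q 5 15 458752 (Q 5 16 393216 (P (B 0 (L 0) (B 1 (L 0) (B 4 (LE 4 1) (B 3 (LE 0 0) (F 0 2 (F 0 5 (F 3 17 (F 3 18 (LE 5 1))))))))))
(P (B 0 (L 0) (B 1 (L 0) (B 4 (LE 4 1) (B 5 (B 2 (LD 5 3) (F 0 3 (LE 5 1))) (F 0 2 (F 0 3 (LE 0 1)))))))))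
(P (B 0 (L 0) (B 1 (L 0) (B 4 (LE 4 1) (B 2 (B 5 (LE 5 1) (F 0 3 (LE 0 1))) (F 0 3 (F 0 5 (LE 5 1))))))))))
(Q 5 11 28672 (Q 4 7 1792 (P (B 0 (L 0) (B 4 (LD 4 1) (B 5 (LD 5 2) (B 1 (B 2 (L 0) (F 0 3 (LE 0 2))) (F 0 2 (F 0 3 (LE 0 1))))))))
(Q 4 11 0 (P (B 0 (L 0) (B 4 (LD 4 2) (B 5 (LD 5 2) (B 1 (B 2 (L 0) (F 0 3 (LE 0 2))) (F 0 2 (F 0 3 (LE 0 1))))))))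
(Q 4 12 24576 (P (B 0 (L 0) (B 4 (LD 4 2) (B 5 (LD 5 2) (B 1 (B 2 (L 0) (F 0 3 (LE 0 2))) (F 0 2 (F 0 3 (LE 0 1))))))))
(P (B 0 (L 0) (B 5 (LD 5 2) (B 1 (B 2 (L 0) (B 3 (LE 0 2) (F 0 4 (LE 4 2)))) (B 4 (B 2 (LE 4 1) (F 0 3 (LE 0 1))) (F 0 2 (F 0 3 (LE 0 1)))))))))))
(P (B 0 (L 0) (B 3 (L 0) (B 4 (LE 4 3) (B 1 (B 2 (LE 0 3) (F 0 5 (LE 5 2))) (F 0 2 (F 0 5 (LE 5 3)))))))))))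
(Q 4 11 28672 (Q 5 11 0 (P (B 0 (L 0) (B 4 (LD 4 2) (B 5 (LD 5 2) (B 1 (B 2 (L 0) (F 0 3 (LE 0 2))) (F 0 2 (F 0 3 (LE 0 1))))))))
(Q 5 15 458752 (P (B 0 (L 0) (B 4 (LD 4 2) (B 5 (LD 5 3) (B 1 (B 2 (L 0) (F 0 3 (LE 0 2))) (F 0 2 (F 0 3 (LE 0 1))))))))
(Q 5 12 24576 (P (B 0 (L 0) (B 4 (LD 4 2) (B 5 (LD 5 2) (B 1 (B 2 (L 0) (F 0 3 (LE 0 2))) (F 0 2 (F 0 3 (LE 0 1))))))))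
(P (B 0 (L 0) (B 1 (L 0) (B 4 (LD 4 2) (B 2 (B 3 (LE 0 1) (F 0 5 (LE 5 3))) (F 0 3 (F 0 5 (LE 5 2)))))))))))
(Q 5 11 28672 (P (B 0 (L 0) (B 5 (LD 5 2) (B 3 (L 0) (B 1 (B 2 (LE 0 3) (F 0 4 (LE 4 2))) (F 0 2 (F 0 4 (LE 4 3))))))))
(P (B 0 (L 0) (B 1 (L 0) (S 0 (LE 5 1) (LE 4 1) (LE 0 1) (B 3 (LE 0 1) (B 4 (LE 4 3) (F 0 5 (LE 5 3)))) X X X)))))))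
(P (B 0 (L 0) (B 1 (L 0) (S 0 (LE 5 1) (LE 4 1) (LE 0 1) (LE 0 1) X X X)))))))))))
(P (B 0 (L 0) (B 1 (L 0) (S 0 (LE 5 1) (LE 4 1) (LE 3 1) (LE 0 1) X X X)))))))))))))
(N 1 (Q 2 3 48 (P (B 0 (L 0) (B 1 (L 0) (S 0 (L 5) (L 4) (LE 3 0) (LE 2 0) X X X))))
(Q 3 4 32 (P (B 0 (L 0) (B 2 (L 2) (B 1 (L 0) (B 5 (LE 5 0) (F 0 3 (D 0)))))))
(Q 4 5 0 (P (B 0 (L 0) (B 2 (L 2) (B 1 (L 0) (B 3 (LE 3 0) (F 0 4 (D 0)))))))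
(Q 2 6 3968 (P (B 0 (L 0) (B 1 (L 0) (S 0 (L 5) (L 4) (L 3) (LE 2 1) X X X))))
(N 2 (Bad 2)
(N 2 (Bad 2)
(N 2 (Bad 2)
(N 2 (Bad 2)
(N 2 (Q 3 12 57344 (P (B 0 (L 0) (B 1 (L 0) (S 0 (L 5) (L 4) (LD 3 2) (L 0) X X X))))
(Q 4 12 57344 (P (B 0 (L 0) (B 1 (L 0) (B 4 (LD 4 2) (B 5 (LE 5 0) (F 0 2 (F 0 3 (L 3))))))))
(Q 5 12 57344 (P (B 0 (L 0) (B 1 (L 0) (B 5 (LD 5 2) (B 3 (LE 3 0) (F 0 2 (F 0 4 (L 4))))))))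
(P (B 0 (L 0) (B 1 (L 0) (S 0 (L 5) (L 4) (L 3) (B 3 (L 3) (B 4 (L 4) (F 0 5 (L 5)))) X X X)))))))
(P (B 0 (L 0) (B 1 (L 0) (S 0 (L 5) (L 4) (L 3) (L 0) X X X)))))))))))))
(P (B 0 (L 0) (B 1 (L 0) (S 0 (L 5) (L 4) (L 3) (L 2) X X X)))))))))))) Hi))))))) 1 0 0 1 1 = true := by
  decide +kernel

end Pool.Agent.MP_b8b299_co.H91
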