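import Mathlib

set_option autoImplicit false

/-!
A checker for query and branching certificates.
-/

namespace Pool.Agent.MP_b8b299_co.H91

/-- Number of ones of the numbers below `2048`, four bits each. -/
def PT : ℕ := 0xbaa9a998a9989887a998988798878776a9989887988787769887877687767665a998988798878776988787768776766598878776877676658776766576656554a9989887988787769887877687767665988787768776766587767665766565549887877687767665877676657665655487767665766565547665655465545443a998988798878776988787768776766598878776877676658776766576656554988787768776766587767665766565548776766576656554766565546554544398878776877676658776766576656554877676657665655476656554655454438776766576656554766565546554544376656554655454436554544354434332a9989887988787769887877687767665988787768776766587767665766565549887877687767665877676657665655487767665766565547665655465545443988787768776766587767665766565548776766576656554766565546554544387767665766565547665655465545443766565546554544365545443544343329887877687767665877676657665655487767665766565547665655465545443877676657665655476656554655454437665655465545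443655454435443433287767665766565547665655465545443766565546554544365545443544343327665655465545443655454435443433265545443544343325443433243323221a998988798878776988787768776766598878776877676658776766576656554988787768776766587767665766565548776766576656554766565546554544398878776877676658776766576656554877676657665655476656554655454438776766576656554766565546554544376656554655454436554544354434332988787768776766587767665766565548776766576656554766565546554544387767665766565547665655465545443766565546554544365545443544343328776766576656554766565546554544376656554655454436554544354434332766565546554544365545443544343326554544354434332544343324332322198878776877676658776766576656554877676657665655476656554655454438776766576656554766565546554544376656554655454436554544354434332877676657665655476656554655454437665655465545443655454435443433276656554655454436554544354434332655454435443433254434332433232218776766576656554766565546554544376656554655454436554544354434332766565546554544365545443544343326554544354434332544343324332322176656554655454436554544354434332655454435443433254434332433232216554544354434332544343324332322154434332433232214332322132212110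

/-- Upper bounds for `SC * 6 ^ (-t / 9)`, sixty four bits each. -/
def VT : ℕ := 0x2aaaab00000000003410c400000000003f88e500000000004d87ce00000000005e9bfa000000000073734600000000008ce1da0000000000abea9e0000000000d1c97e0000000001000000000000000138649800000000017d355a0000000001d12ed1000000000237a7d90000000002b4b39f00000000034d4b1b0000000004077fb00000000004eab8f100000000060000000000000007525b900000000008ef401c000000000ae718e5000000000d4def1500000000103c35b80000000013cfc2a100000000182cfe1e000000001d8055a10000000024000000000000002bee255f00000000359b80a500000000416a9559000000004fd39a7b00000000616942500000000076de8fc100000000910df4b100000000b10201c400000000d8000000000000010794e0360000000141a503dc00000001887f801400000001def59edf0000000248778ddc00000002c9375e81000000036653bc2400000004260c0a980000000510000000000000062d7d41410000000789de17280000000932fd00770000000b39c1b9370000000db2cd532500000010b74c37060000001465f668d700000018e4483f900000001e600000000000002510ef87810000002d3b348af00000003731ee02c7000000435a8a57480000005230cff2da000000644bc94a220000007a63c675080000009559b17d5c000000b640000000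

/-- The first column of a matrix with rows of thirty two bits. -/
def CM : ℕ := 0x100000001000000010000000100000001000000010000000100000001000000010000000100000001000000010000000100000001000000010000000100000001000000010000000100000001000000010000000100000001000000010000000100000001000000010000000100000001000000010000000100000001

/-- The scale. -/
def SC : ℕ := 782757789696

/-- A value that bounds everything. -/
def BIG : ℕ := 50096498540544

def row (M i : ℕ) : ℕ := Nat.mod (Nat.shiftRight M (Nat.mul 32 i)) 4294967296

def tb (m j : ℕ) : Bool := Nat.beq (Nat.land 1 (Nat.shiftRight m j)) 1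

def pt (r : ℕ) : ℕ := Nat.mod (Nat.shiftRight PT (Nat.mul 4 r)) 16

def pc (m : ℕ) : ℕ :=
  Nat.add (Nat.add (pt (Nat.mod m 2048)) (pt (Nat.mod (Nat.div m 2048) 2048)))
    (pt (Nat.mod (Nat.div m 4194304) 1024))

def dif (a b : ℕ) : ℕ := Nat.xor a (Nat.land a b)

def vl (t : ℕ) : ℕ :=
  cond (Nat.ble t 63) (Nat.mod (Nat.shiftRight VT (Nat.mul 64 t)) 18446744073709551616) BIG

/-- `x` is a known vertex all of whose neighbours are known. -/
def cls (k op x : ℕ) : Bool := Nat.blt x k && !tb op x

/-- Lower bound for the number of deleted vertices, shifted by `sh`. -/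
def sz (lo sh pos I O x : ℕ) : ℕ :=
  Nat.add (Nat.add sh (pc (Nat.lor I O)))
    (cond (tb I x) (Nat.sub lo (pc (Nat.land (row pos x) O))) 0)

/-- Branching trees. -/
inductive Tr
  | L (x : ℕ)
  | LD (x y : ℕ)
  | LE (x y : ℕ)
  | D (x : ℕ)
  | X
  | B (y : ℕ) (l r : Tr)
  | F (x y : ℕ) (t : Tr)
  | S (x : ℕ) (t1 t2 t3 t4 t5 t6 t7 : Tr)

def cv (k adj I O : ℕ) : List (ℕ → ℕ → ℕ) → ℕ → ℕ
  | [], av => cond (Nat.beq av 0) 0 (Nat.mul 2 BIG)
  | f :: fs, av => cond (Nat.beq av 0) 0
      (cond (Nat.blt (Nat.log2 av) k)
        (Nat.add (f (Nat.lor I (Nat.pow 2 (Nat.log2 av))) (Nat.lor O (row adj (Nat.log2 av))))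
          (cv k adj I O fs (dif av (Nat.pow 2 (Nat.log2 av)))))
        (cv k adj I O fs (dif av (Nat.pow 2 (Nat.log2 av)))))

def ld (t r : ℕ) : ℕ :=
  cond (Nat.ble r 1) (vl (Nat.add t 1)) (cond (Nat.ble r 3) (Nat.mul 2 (vl (Nat.add t 4))) BIG)

def le' (t c r : ℕ) : ℕ :=
  cond ((Nat.beq c 0 && Nat.ble r 4) || (Nat.ble c 1 && Nat.ble r 2)) (Nat.mul 2 (vl (Nat.add t 4)))
    (cond (Nat.beq c 0 && Nat.ble r 5) (Nat.div (Nat.add (Nat.mul 5 (vl (Nat.add t 5))) 1) 2) BIG)

def pv (lo sh k adj pos op : ℕ) : Tr → ℕ → ℕ → ℕ
  | .L x, I, O => cond (Nat.beq (Nat.lor I O) 0) BIG (vl (sz lo sh pos I O x))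
  | .LD x y, I, O =>
      cond (!Nat.beq (Nat.lor I O) 0 && cls k op y && !tb (Nat.lor I O) y &&
          Nat.beq (Nat.land (row pos y) I) 0)
        (ld (sz lo sh pos I O x) (pc (dif (row pos y) O))) BIG
  | .LE x y, I, O =>
      cond (cls k op y && tb O y)
        (le' (sz lo sh pos I O x) (pc (Nat.land (row pos y) I))
          (pc (dif (row pos y) (Nat.lor I O)))) BIG
  | .D x, _, O => cond (cls k op x && tb O x && Nat.ble (pc (dif (row pos x) O)) 1) 0 BIG
  | .X, I, O => cond (Nat.beq (Nat.land I O) 0) BIG 0
  | .B y l r, I, O =>
      cond (Nat.blt y k)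
        (Nat.add (pv lo sh k adj pos op l (Nat.lor I (Nat.pow 2 y)) (Nat.lor O (row adj y)))
          (pv lo sh k adj pos op r I (Nat.lor O (Nat.pow 2 y)))) BIG
  | .F x y t, I, O =>
      cond (Nat.blt y k && cls k op x && tb (Nat.lor O (Nat.pow 2 y)) x &&
          Nat.ble (pc (dif (row pos x) (Nat.lor O (Nat.pow 2 y)))) 1)
        (pv lo sh k adj pos op t (Nat.lor I (Nat.pow 2 y)) (Nat.lor O (row adj y))) BIG
  | .S x t1 t2 t3 t4 t5 t6 t7, I, O =>
      cond (cls k op x && tb O x)
        (Nat.div (Nat.add (cv k adj I O [pv lo sh k adj pos op t1, pv lo sh k adj pos op t2,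
          pv lo sh k adj pos op t3, pv lo sh k adj pos op t4, pv lo sh k adj pos op t5,
          pv lo sh k adj pos op t6, pv lo sh k adj pos op t7] (dif (row pos x) O)) 1) 2) BIG

/-- Query trees. -/
inductive Qr
  | P (t : Tr)
  | Bad (x : ℕ)
  | Hi
  | Q (x y C : ℕ) (l r : Qr)
  | N (x : ℕ) (l r : Qr)

/-- The two symmetric entries of a matrix. -/
def ent (x y : ℕ) : ℕ :=
  Nat.lor (Nat.pow 2 (Nat.add (Nat.mul 32 x) y)) (Nat.pow 2 (Nat.add (Nat.mul 32 y) x))

/-- The rows and the columns `y`, `z` of `M` agree away from `y`, `z`. -/
def tw (M y z : ℕ) : Bool :=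
  Nat.beq (dif (Nat.xor (row M y) (row M z)) (Nat.lor (Nat.pow 2 y) (Nat.pow 2 z))) 0 &&
  Nat.beq (dif (Nat.land (Nat.xor (Nat.shiftRight M y) (Nat.shiftRight M z)) CM)
    (Nat.lor (Nat.pow 2 (Nat.mul 32 y)) (Nat.pow 2 (Nat.mul 32 z)))) 0

/-- All members of `C` are interchangeable with `y`. -/
def tws (k adj pos op x y : ℕ) : ℕ → ℕ → Bool
  | 0, C => Nat.beq C 0
  | f + 1, C => Nat.beq C 0 ||
      (Nat.blt (Nat.log2 C) k && Nat.blt 0 (Nat.log2 C) && !Nat.beq (Nat.log2 C) x &&
        tw adj y (Nat.log2 C) && tw pos y (Nat.log2 C) && (tb op y == tb op (Nat.log2 C)) &&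
        tws k adj pos op x y f (dif C (Nat.pow 2 (Nat.log2 C))))

/-- The entries between `x` and the members of `C`. -/
def ents (x : ℕ) : ℕ → ℕ → ℕ
  | 0, _ => 0
  | f + 1, C => cond (Nat.beq C 0) 0
      (Nat.lor (ent x (Nat.log2 C)) (ents x f (dif C (Nat.pow 2 (Nat.log2 C)))))

def qc (lo hi sh tg : ℕ) : Qr → ℕ → ℕ → ℕ → ℕ → ℕ → Bool
  | .P t, k, adj, pos, op, _ => Nat.ble (pv lo sh k adj pos op t 0 0) tg
  | .Bad x, k, _, pos, op, _ => cls k op x && Nat.blt (pc (row pos x)) lo
  | .Hi, _, adj, _, _, _ => Nat.blt 0 hi && Nat.ble hi (pc (row adj 0))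
  | .Q x y C l r, k, adj, pos, op, oc =>
      Nat.blt x k && Nat.blt y k && Nat.blt 0 y && !Nat.beq y x && tws k adj pos op x y 8 C &&
        qc lo hi sh tg l k (Nat.lor adj (ent x y)) pos op oc &&
        qc lo hi sh tg r k adj (dif pos (Nat.lor (ent x y) (ents x 8 C))) op oc
  | .N x l r, k, adj, pos, op, oc =>
      Nat.blt x k && Nat.blt k 32 &&
        qc lo hi sh tg l k adj pos (dif op (Nat.pow 2 x)) (dif oc (Nat.pow 2 (Nat.mul 32 x))) &&
        qc lo hi sh tg r (Nat.succ k) (Nat.lor adj (ent x k))
          (Nat.lor pos (Nat.lor (Nat.shiftLeft op (Nat.mul 32 k)) (Nat.shiftLeft oc k)))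
          (Nat.lor op (Nat.pow 2 k)) (Nat.lor oc (Nat.pow 2 (Nat.mul 32 k)))

end Pool.Agent.MP_b8b299_co.H91
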