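import Pool.Agent.MP_b8b299_co.H91.Bits
import Pool.Agent.MP_b8b299_co.H56.Upper

set_option autoImplicit false
set_option linter.unusedSectionVars false

/-!
Semantics of the checker and the leaves of the branching trees.
-/

namespace Pool.Agent.MP_b8b299_co.H91

open Finset Pool.Agent.MP_b8b299_co.H56

variable {V : Type} [DecidableEq V] (G : SimpleGraph V) [DecidableRel G.Adj]

/-- The normalised number of sets. -/
noncomputable def mu (U : Finset V) : ℝ := #(dis 2 G U) * al ^ #U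

/-- The statement proved by induction. -/
def Good (U : Finset V) : Prop :=
  mu G U ≤ 1 ∧ (∀ v ∈ U, #(nb G U v) ≤ 1 → mu G U ≤ al) ∧
    ∀ v ∈ U, #(nb G U v) ≤ 3 → mu G U ≤ 2 * al ^ 4

/-- `φ` realises the knowledge `k, adj, pos, op` inside `U`. -/
structure Model (U : Finset V) (φ : ℕ → V) (k adj pos op : ℕ) : Prop where
  hk : k ≤ 32
  inj : ∀ i < k, ∀ j < k, φ i = φ j → i = j
  mem : ∀ i < k, φ i ∈ U
  hadj : ∀ i j, j < 32 → adj.testBit (32 * i + j) = true → i < k ∧ j < k ∧ G.Adj (φ i) (φ j)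
  hpos : ∀ i < k, ∀ j < k, G.Adj (φ i) (φ j) → pos.testBit (32 * i + j) = true
  hcl : ∀ i < k, op.testBit i = false → ∀ w ∈ U, G.Adj (φ i) w → ∃ j < k, φ j = w

/-- All ones of `m` are below `k`. -/
def Sub (m k : ℕ) : Prop := ∀ j, m.testBit j = true → j < k

open Classical in
/-- The sets that contain the vertices of `I` and avoid those of `O`. -/
noncomputable def cs (U : Finset V) (φ : ℕ → V) (I O : ℕ) : Finset (Finset V) :=
  {D ∈ dis 2 G U | (∀ i, I.testBit i = true → φ i ∈ D) ∧ ∀ i, O.testBit i = true → φ i ∉ D}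

/-- The scaled number of these sets. -/
noncomputable def nu (U : Finset V) (φ : ℕ → V) (sh I O : ℕ) : ℝ :=
  #(cs G U φ I O) * al ^ #U * (SC * al ^ sh)

variable {G} {U : Finset V} {φ : ℕ → V} {k adj pos op lo sh I O : ℕ}

theorem mem_cs {D : Finset V} : D ∈ cs G U φ I O ↔ D ∈ dis 2 G U ∧
    (∀ i, I.testBit i = true → φ i ∈ D) ∧ ∀ i, O.testBit i = true → φ i ∉ D := by
  simp [cs]

theorem nu_nonneg : 0 ≤ nu G U φ sh I O := by
  have := al_pos
  have := SC_pos
  unfold nu
  positivity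

theorem cls_iff {x : ℕ} : cls k op x = true ↔ x < k ∧ op.testBit x = false := by
  simp [cls, tb_eq, Nat.blt_eq]

/-- The neighbours of a closed vertex. -/
theorem Model.nbr (M : Model G U φ k adj pos op) {x : ℕ} (hx : cls k op x = true) {w : V}
    (hw : w ∈ U) (h : G.Adj (φ x) w) : ∃ j < k, φ j = w ∧ (row pos x).testBit j = true := by
  obtain ⟨h1, h2⟩ := cls_iff.1 hx
  obtain ⟨j, hj, rfl⟩ := M.hcl x h1 h2 w hw h
  refine ⟨j, hj, rfl, ?_⟩
  rw [row_bit, M.hpos x h1 j hj h]
  simp [hj.trans_le M.hk]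

theorem Model.card_img (M : Model G U φ k adj pos op) {m : ℕ} (hm : Sub m k) :
    #((bits m).image φ) = pc m := by
  rw [pc_eq, card_image_of_injOn]
  intro i hi j hj h
  exact M.inj i (hm i (mem_bits.1 hi).2) j (hm j (mem_bits.1 hj).2) h

theorem card_img_le (m : ℕ) : #((bits m).image φ) ≤ pc m := by
  rw [pc_eq]
  exact card_image_le

theorem Sub.lor {a b : ℕ} (ha : Sub a k) (hb : Sub b k) : Sub (Nat.lor a b) k := fun j h => by
  rw [lor_bit, Bool.or_eq_true] at h
  exact h.elim (ha j) (hb j)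

theorem sub_pow {y : ℕ} (h : y < k) : Sub (Nat.pow 2 y) k := fun j hj => by
  rw [pow_bit] at hj
  exact of_decide_eq_true hj ▸ h

theorem Model.sub_row (M : Model G U φ k adj pos op) (y : ℕ) : Sub (row adj y) k := fun j hj => by
  rw [row_bit, Bool.and_eq_true] at hj
  exact (M.hadj y j (of_decide_eq_true hj.1) hj.2).2.1

/-- The deleted vertices. -/
def del (G : SimpleGraph V) [DecidableRel G.Adj] (U : Finset V) (φ : ℕ → V) (I O : ℕ) : Finset V :=
  (bits (Nat.lor I O)).image φ ∪ ((bits I).image φ).biUnion (nb G U)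

theorem Model.del_sub (M : Model G U φ k adj pos op) (hI : Sub I k) (hO : Sub O k) :
    del G U φ I O ⊆ U := by
  refine union_subset (fun w hw => ?_) (biUnion_subset.2 fun _ _ => filter_subset _ _)
  obtain ⟨j, hj, rfl⟩ := mem_image.1 hw
  exact M.mem j (hI.lor hO j (mem_bits.1 hj).2)

theorem Model.mem_img (M : Model G U φ k adj pos op) {m j : ℕ} (hm : Sub m k)
    (hj : m.testBit j = true) : φ j ∈ (bits m).image φ :=
  mem_image_of_mem _ (mem_bits.2 ⟨(hm j hj).trans_le M.hk, hj⟩)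

theorem Model.del_ssub (M : Model G U φ k adj pos op) (hI : Sub I k) (hO : Sub O k)
    (h : Nat.lor I O ≠ 0) : U \ del G U φ I O ⊂ U := by
  refine sdiff_ssubset (M.del_sub hI hO) ?_
  obtain ⟨j, hj⟩ := Nat.exists_testBit_of_ne_zero h
  exact ⟨φ j, mem_union_left _ (M.mem_img (hI.lor hO) hj)⟩

theorem Model.sdiff_mem (M : Model G U φ k adj pos op) (hI : Sub I k) {D : Finset V}
    (hD : D ∈ cs G U φ I O) : D \ (bits I).image φ ∈ dis 2 G (U \ del G U φ I O) := by
  obtain ⟨h0, hi, ho⟩ := mem_cs.1 hD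
  obtain ⟨h1, h2, h3⟩ := mem_dis.1 h0
  have hA : (bits I).image φ ⊆ D := fun w hw => by
    obtain ⟨j, hj, rfl⟩ := mem_image.1 hw
    exact hi j (mem_bits.1 hj).2
  refine mem_dis.2 ⟨fun x hx => ?_,
    fun u hu v hv => h2 u (mem_sdiff.1 hu).1 v (mem_sdiff.1 hv).1, fun v hv hv' => ?_⟩
  · obtain ⟨x1, x2⟩ := mem_sdiff.1 hx
    refine mem_sdiff.2 ⟨h1 x1, fun g => ?_⟩
    rcases mem_union.1 g with g | g
    · obtain ⟨j, hj, rfl⟩ := mem_image.1 g
      obtain ⟨j1, j2⟩ := mem_bits.1 hj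
      rw [lor_bit, Bool.or_eq_true] at j2
      rcases j2 with j2 | j2
      · exact x2 (M.mem_img hI j2)
      · exact ho j j2 x1
    · obtain ⟨u, u1, u2⟩ := mem_biUnion.1 g
      exact h2 u (hA u1) x x1 (mem_nb.1 u2).2
  · obtain ⟨v1, v2⟩ := mem_sdiff.1 hv
    have vD : v ∉ D := fun g => hv' (mem_sdiff.2 ⟨g, fun g' => v2 (mem_union_left _ (by
      obtain ⟨j, hj, rfl⟩ := mem_image.1 g'
      obtain ⟨j1, j2⟩ := mem_bits.1 hj
      exact mem_image_of_mem _ (mem_bits.2 ⟨j1, by rw [lor_bit, j2]; rfl⟩)))⟩)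
    refine (h3 v v1 vD).trans (card_le_card fun u hu => ?_)
    obtain ⟨u1, u2⟩ := mem_nb.1 hu
    refine mem_nb.2 ⟨mem_sdiff.2 ⟨u1, fun g => v2 (mem_union_right _ ?_)⟩, u2⟩
    exact mem_biUnion.2 ⟨u, g, mem_nb.2 ⟨v1, u2.symm⟩⟩

theorem card_rest : #((cs G U φ I O).image (· \ (bits I).image φ)) = #(cs G U φ I O) := by
  refine card_image_of_injOn fun D hD E hE h => ?_
  have key : ∀ D ∈ cs G U φ I O, (bits I).image φ ⊆ D := fun D hD w hw => by
    obtain ⟨j, hj, rfl⟩ := mem_image.1 hw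
    exact (mem_cs.1 hD).2.1 j (mem_bits.1 hj).2
  rw [← sdiff_union_of_subset (key D hD), ← sdiff_union_of_subset (key E hE)]
  exact congrArg (· ∪ (bits I).image φ) h

theorem Model.sz_le (M : Model G U φ k adj pos op) (hlo : ∀ w ∈ U, lo ≤ #(nb G U w))
    (hI : Sub I k) (hO : Sub O k) {D : Finset V} (hD : D ∈ cs G U φ I O) (x : ℕ) :
    sz lo sh pos I O x ≤ sh + #(del G U φ I O) := by
  have h1 := M.card_img (hI.lor hO)
  change sh + pc (Nat.lor I O) + cond (tb I x) (lo - pc (Nat.land (row pos x) O)) 0 ≤ _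
  rw [tb_eq, ← h1]
  cases hx : I.testBit x
  · exact Nat.add_le_add_left (card_le_card subset_union_left) _
  have xk := hI x hx
  obtain ⟨h0, hi, ho⟩ := mem_cs.1 hD
  have h2 : nb G U (φ x) ⊆ (bits (Nat.land (row pos x) O)).image φ ∪
      (del G U φ I O \ (bits (Nat.lor I O)).image φ) := fun w hw => by
    by_cases g : w ∈ (bits (Nat.lor I O)).image φ
    · obtain ⟨j, hj, rfl⟩ := mem_image.1 g
      obtain ⟨j1, j2⟩ := mem_bits.1 hj
      have jk := hI.lor hO j j2
      rw [lor_bit, Bool.or_eq_true] at j2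
      rcases j2 with j2 | j2
      · exact absurd (mem_nb.1 hw).2 ((mem_dis.1 h0).2.1 _ (hi x hx) _ (hi j j2))
      · refine mem_union_left _ (mem_image_of_mem _ (mem_bits.2 ⟨j1, ?_⟩))
        rw [land_bit, row_bit, M.hpos x xk j jk (mem_nb.1 hw).2, j2]
        simp [j1]
    · exact mem_union_right _ (mem_sdiff.2
        ⟨mem_union_right _ (mem_biUnion.2 ⟨_, M.mem_img hI hx, hw⟩), g⟩)
  have h3 := (hlo _ (M.mem x xk)).trans ((card_le_card h2).trans (card_union_le _ _))
  have h4 := card_img_le (φ := φ) (Nat.land (row pos x) O)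
  have h5 : #(del G U φ I O \ (bits (Nat.lor I O)).image φ) + #((bits (Nat.lor I O)).image φ) =
      #(del G U φ I O) := card_sdiff_add_card_eq_card subset_union_left
  change _ + (lo - _) ≤ _
  omega

theorem Model.leaf (M : Model G U φ k adj pos op) (hlo : ∀ w ∈ U, lo ≤ #(nb G U w))
    (hI : Sub I k) (hO : Sub O k) (x : ℕ) {h : ℝ} (h0 : 0 ≤ h)
    (H : #((cs G U φ I O).image (· \ (bits I).image φ)) * al ^ #(U \ del G U φ I O) ≤ h) :
    nu G U φ sh I O ≤ h * (SC * al ^ sz lo sh pos I O x) := by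
  have a0 := al_pos
  have s0 := SC_pos
  rcases (cs G U φ I O).eq_empty_or_nonempty with e | ⟨D, hD⟩
  · rw [nu, e]
    simp only [card_empty, Nat.cast_zero, zero_mul]
    positivity
  rw [card_rest] at H
  have h1 := M.sz_le (sh := sh) hlo hI hO hD x
  have h2 := card_sdiff_add_card_eq_card (M.del_sub hI hO)
  have h3 := pow_le_pow_of_le_one a0.le al_le_one h1
  rw [nu, ← h2, pow_add]
  rw [pow_add] at h3
  calc _ = (#(cs G U φ I O) * al ^ #(U \ del G U φ I O)) *
        (SC * (al ^ sh * al ^ #(del G U φ I O))) := by ring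
    _ ≤ _ := by gcongr

theorem Model.rest_le (M : Model G U φ k adj pos op) (hI : Sub I k) :
    #((cs G U φ I O).image (· \ (bits I).image φ)) * al ^ #(U \ del G U φ I O) ≤
      mu G (U \ del G U φ I O) := by
  have a0 := al_pos
  unfold mu
  gcongr
  intro E hE
  obtain ⟨D, hD, rfl⟩ := mem_image.1 hE
  exact M.sdiff_mem hI hD

theorem Model.leafL (M : Model G U φ k adj pos op) (hlo : ∀ w ∈ U, lo ≤ #(nb G U w))
    (ih : ∀ W ⊂ U, Good G W) (hI : Sub I k) (hO : Sub O k) (x : ℕ) (h : Nat.lor I O ≠ 0) :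
    nu G U φ sh I O ≤ vl (sz lo sh pos I O x) := by
  have := M.leaf (sh := sh) hlo hI hO x zero_le_one
    ((M.rest_le hI).trans (ih _ (M.del_ssub hI hO h)).1)
  rw [one_mul] at this
  exact this.trans (vl_ge _)

theorem Model.leafD (M : Model G U φ k adj pos op) (hlo : ∀ w ∈ U, lo ≤ #(nb G U w))
    (ih : ∀ W ⊂ U, Good G W) (hI : Sub I k) (hO : Sub O k) (x y : ℕ) (h : Nat.lor I O ≠ 0)
    (hy : cls k op y = true) (h1 : (Nat.lor I O).testBit y = false)
    (h2 : Nat.land (row pos y) I = 0) (big : nu G U φ sh I O ≤ BIG) :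
    nu G U φ sh I O ≤ ld (sz lo sh pos I O x) (pc (dif (row pos y) O)) := by
  have yk := (cls_iff.1 hy).1
  have a0 := al_pos
  have g := ih _ (M.del_ssub hI hO h)
  have m1 : φ y ∈ U \ del G U φ I O := by
    refine mem_sdiff.2 ⟨M.mem y yk, fun g => ?_⟩
    rcases mem_union.1 g with g | g
    · obtain ⟨j, hj, e⟩ := mem_image.1 g
      have j2 := (mem_bits.1 hj).2
      rw [M.inj j (hI.lor hO j j2) y yk e, h1] at j2
      exact absurd j2 (by simp)
    · obtain ⟨u, u1, u2⟩ := mem_biUnion.1 g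
      obtain ⟨j, hj, rfl⟩ := mem_image.1 u1
      obtain ⟨j1, j2⟩ := mem_bits.1 hj
      have := land_bit (row pos y) I j
      rw [h2, row_bit, M.hpos y yk j (hI j j2) (mem_nb.1 u2).2.symm, j2] at this
      simp [j1] at this
  have m2 : #(nb G (U \ del G U φ I O) (φ y)) ≤ pc (dif (row pos y) O) := by
    refine le_trans (card_le_card fun w hw => ?_) (card_img_le (φ := φ) _)
    obtain ⟨w1, w2⟩ := mem_nb.1 hw
    obtain ⟨w3, w4⟩ := mem_sdiff.1 w1
    obtain ⟨j, jk, rfl, hj⟩ := M.nbr hy w3 w2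
    refine mem_image_of_mem _ (mem_bits.2 ⟨jk.trans_le M.hk, ?_⟩)
    rw [dif_bit, hj]
    cases g : O.testBit j
    · rfl
    · exact absurd (mem_union_left _ (M.mem_img (hI.lor hO) (by rw [lor_bit, g]; simp))) w4
  unfold ld
  cases c1 : Nat.ble (pc (dif (row pos y) O)) 1
  · cases c3 : Nat.ble (pc (dif (row pos y) O)) 3
    · exact big
    · have := M.leaf (sh := sh) hlo hI hO x (by positivity)
        ((M.rest_le hI).trans (g.2.2 _ m1 (m2.trans (Nat.le_of_ble_eq_true c3))))
      have v := vl_ge (sz lo sh pos I O x + 4)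
      change _ ≤ ((2 * vl (sz lo sh pos I O x + 4) : ℕ) : ℝ)
      rw [pow_add] at v
      push_cast
      nlinarith
  · have := M.leaf (sh := sh) hlo hI hO x a0.le
      ((M.rest_le hI).trans (g.2.1 _ m1 (m2.trans (Nat.le_of_ble_eq_true c1))))
    have v := vl_ge (sz lo sh pos I O x + 1)
    change _ ≤ ((vl (sz lo sh pos I O x + 1) : ℕ) : ℝ)
    rw [pow_add] at v
    nlinarith

/-- Sets through a vertex of degree at least four. -/
theorem through {W : Finset V} (ih : ∀ W' ⊂ W, Good G W') (h4 : ∀ v ∈ W, 4 ≤ #(nb G W v))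
    {S : Finset (Finset V)} (hS : S ⊆ dis 2 G W) (u : V) :
    #{D ∈ S | u ∈ D} * al ^ #W ≤ al ^ 5 := by
  have a0 := al_pos
  by_cases hu : u ∈ W
  · have h1 := remove (k := 2) (G := G) W {u}
    rw [singleton_biUnion] at h1
    have h2 : {u} ∪ nb G W u ⊆ W := union_subset (singleton_subset_iff.2 hu) (filter_subset _ _)
    have h3 := (ih _ (sdiff_ssubset h2 ⟨u, by simp⟩)).1
    have h5 := card_sdiff_add_card_eq_card h2
    have h6 : 5 ≤ #({u} ∪ nb G W u) := by
      rw [card_union_of_disjoint (by simp [mem_nb]), card_singleton]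
      have := h4 u hu
      omega
    have h7 : #{D ∈ S | u ∈ D} ≤ #(dis 2 G (W \ ({u} ∪ nb G W u))) :=
      le_trans (card_le_card fun D hD => by
        obtain ⟨d1, d2⟩ := mem_filter.1 hD
        exact mem_filter.2 ⟨hS d1, singleton_subset_iff.2 d2⟩) h1
    rw [← h5, pow_add, ← mul_assoc, ← one_mul (al ^ 5)]
    refine mul_le_mul (le_trans ?_ h3) (pow_le_pow_of_le_one a0.le al_le_one h6) (by positivity)
      zero_le_one
    unfold mu
    gcongr
  · rw [filter_false_of_mem fun D hD g => hu ((mem_dis.1 (hS hD)).1 g)]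
    simp only [card_empty, Nat.cast_zero, zero_mul]
    positivity

theorem Model.leafE (M : Model G U φ k adj pos op) (hlo : ∀ w ∈ U, lo ≤ #(nb G U w))
    (ih : ∀ W ⊂ U, Good G W) (hI : Sub I k) (hO : Sub O k) (x y : ℕ)
    (hy : cls k op y = true) (h1 : O.testBit y = true) (big : nu G U φ sh I O ≤ BIG) :
    nu G U φ sh I O ≤ le' (sz lo sh pos I O x) (pc (Nat.land (row pos y) I))
      (pc (dif (row pos y) (Nat.lor I O))) := by
  have yk := (cls_iff.1 hy).1
  have a0 := al_pos
  have a1 := al_le_one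
  have a2 := le_al
  have s0 := SC_pos
  have h : Nat.lor I O ≠ 0 := fun g => by
    have := lor_bit I O y
    rw [g, h1] at this
    simp at this
  have hW := M.del_ssub hI hO h
  set c := pc (Nat.land (row pos y) I) with hc
  set r := pc (dif (row pos y) (Nat.lor I O)) with hr
  set W := U \ del G U φ I O with hWd
  set S := (cs G U φ I O).image (· \ (bits I).image φ) with hS
  have key : (#S : ℝ) * al ^ #W ≤ 2 * al ^ 4 ∨ ((2 - c : ℕ) : ℝ) * (#S * al ^ #W) ≤ r * al ^ 5 := by
    by_cases g : ∃ v ∈ W, #(nb G W v) ≤ 3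
    · obtain ⟨v, v1, v2⟩ := g
      exact Or.inl ((M.rest_le hI).trans ((ih _ hW).2.2 v v1 v2))
    right
    push Not at g
    have S1 : S ⊆ dis 2 G W := fun E hE => by
      obtain ⟨D, hD, rfl⟩ := mem_image.1 hE
      exact M.sdiff_mem hI hD
    have d := double S ((bits (dif (row pos y) (Nat.lor I O))).image φ) (2 - c) fun E hE => by
      obtain ⟨D, hD, rfl⟩ := mem_image.1 hE
      obtain ⟨h0, hi, ho⟩ := mem_cs.1 hD
      obtain ⟨d1, -, d3⟩ := mem_dis.1 h0
      have e1 : nb G D (φ y) ⊆ (bits (Nat.land (row pos y) I)).image φ ∪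
          ((bits (dif (row pos y) (Nat.lor I O))).image φ ∩ (D \ (bits I).image φ)) := by
        intro w hw
        obtain ⟨w1, w2⟩ := mem_nb.1 hw
        obtain ⟨j, jk, rfl, hj⟩ := M.nbr hy (d1 w1) w2
        have j32 := jk.trans_le M.hk
        cases gi : I.testBit j
        · refine mem_union_right _ (mem_inter.2 ⟨mem_image_of_mem _ (mem_bits.2 ⟨j32, ?_⟩),
            mem_sdiff.2 ⟨w1, fun g => ?_⟩⟩)
          · rw [dif_bit, hj, lor_bit, gi]
            cases go : O.testBit j
            · rfl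
            · exact absurd w1 (ho j go)
          · obtain ⟨i, hi', e⟩ := mem_image.1 g
            have i2 := (mem_bits.1 hi').2
            rw [M.inj i (hI i i2) j jk e, gi] at i2
            exact absurd i2 (by simp)
        · exact mem_union_left _ (mem_image_of_mem _ (mem_bits.2 ⟨j32, by rw [land_bit, hj, gi]; rfl⟩))
      have e2 := (d3 _ (M.mem y yk) (ho y h1)).trans ((card_le_card e1).trans (card_union_le _ _))
      have e3 := card_img_le (φ := φ) (Nat.land (row pos y) I)
      omega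
    have d' : ((2 - c : ℕ) : ℝ) * #S ≤
        ∑ u ∈ (bits (dif (row pos y) (Nat.lor I O))).image φ, (#{D ∈ S | u ∈ D} : ℝ) := by
      exact_mod_cast d
    have d2 := sum_le_card_nsmul ((bits (dif (row pos y) (Nat.lor I O))).image φ) _ _
      fun u _ => through (fun W' h' => ih W' (h'.trans hW)) (fun v hv => g v hv) S1 u
    rw [← sum_mul, nsmul_eq_mul] at d2
    have d3 : (#((bits (dif (row pos y) (Nat.lor I O))).image φ) : ℝ) ≤ r := by
      exact_mod_cast card_img_le _
    rw [← mul_assoc]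
    refine (mul_le_mul_of_nonneg_right d' (by positivity)).trans (d2.trans ?_)
    gcongr
  have p4 : 0 < al ^ 4 := by positivity
  have e5 : al ^ 5 = al * al ^ 4 := by ring
  unfold le'
  cases c1 : (Nat.beq c 0 && Nat.ble r 4) || (Nat.ble c 1 && Nat.ble r 2)
  · cases c2 : Nat.beq c 0 && Nat.ble r 5
    · exact big
    · rw [Bool.and_eq_true] at c2
      have c0 := Nat.eq_of_beq_eq_true c2.1
      have r5 : (r : ℝ) ≤ 5 := by exact_mod_cast Nat.le_of_ble_eq_true c2.2
      have := M.leaf (sh := sh) hlo hI hO x (h := 5 / 2 * al ^ 5) (by positivity) (by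
        rcases key with g | g
        · refine g.trans ?_
          nlinarith
        · rw [c0] at g
          norm_num at g
          nlinarith [pow_pos a0 5])
      have v := vl_ge (sz lo sh pos I O x + 5)
      change _ ≤ (((5 * vl (sz lo sh pos I O x + 5) + 1) / 2 : ℕ) : ℝ)
      have v2 : 5 * vl (sz lo sh pos I O x + 5) ≤
        2 * ((5 * vl (sz lo sh pos I O x + 5) + 1) / 2) := by omega
      have v3 : (5 : ℝ) * vl (sz lo sh pos I O x + 5) ≤
        2 * (((5 * vl (sz lo sh pos I O x + 5) + 1) / 2 : ℕ) : ℝ) := by exact_mod_cast v2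
      rw [pow_add] at v
      nlinarith
  · have := M.leaf (sh := sh) hlo hI hO x (h := 2 * al ^ 4) (by positivity) (by
      rcases key with g | g
      · exact g
      · have S0 : 0 ≤ (#S : ℝ) * al ^ #W := by positivity
        rw [Bool.or_eq_true, Bool.and_eq_true, Bool.and_eq_true] at c1
        rcases c1 with c1 | c1
        · have r5 : (r : ℝ) ≤ 4 := by exact_mod_cast Nat.le_of_ble_eq_true c1.2
          rw [Nat.eq_of_beq_eq_true c1.1] at g
          norm_num at g
          nlinarith [pow_pos a0 5]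
        · have r5 : (r : ℝ) ≤ 2 := by exact_mod_cast Nat.le_of_ble_eq_true c1.2
          have := Nat.le_of_ble_eq_true c1.1
          have c3 : (1 : ℝ) ≤ ((2 - c : ℕ) : ℝ) := by exact_mod_cast (by omega)
          nlinarith [pow_pos a0 5])
    have v := vl_ge (sz lo sh pos I O x + 4)
    change _ ≤ ((2 * vl (sz lo sh pos I O x + 4) : ℕ) : ℝ)
    rw [pow_add] at v
    push_cast
    nlinarith

end Pool.Agent.MP_b8b299_co.H91
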