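import Pool.Agent.MP_b8b299_co.H91.Query
import Pool.Agent.MP_b8b299_co.H91.C04
import Pool.Agent.MP_b8b299_co.H91.C5
import Pool.Agent.MP_b8b299_co.H56.Lower

set_option autoImplicit false

/-!
The bound `6 ^ (n / 9)` for the number of `2`-dominating independent sets.
-/

namespace Pool.Agent.MP_b8b299_co.H91

open Finset Filter Topology Pool.Agent.MP_b8b299_co.H56

theorem good {V : Type} [DecidableEq V] (G : SimpleGraph V) [DecidableRel G.Adj] (U : Finset V) :
    Good G U := by
  induction U using Finset.strongInduction with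
  | H U ih =>
  rcases U.eq_empty_or_nonempty with rfl | hU
  · have : #(dis 2 G ∅) ≤ 1 := (card_filter_le _ _).trans (by simp)
    exact ⟨by simpa [mu] using this, by simp, by simp⟩
  obtain ⟨v, hv, hmin⟩ := U.exists_min_image (fun u => #(nb G U u)) hU
  have a0 := al_pos
  have a1 := le_al
  have a2 := al_le
  have a3 : al ≤ 2 * al ^ 4 := by
    have := pow_le_pow_left₀ (by norm_num) a1 3
    nlinarith
  have a4 : 2 * al ^ 4 ≤ 1 := by
    have := pow_le_pow_left₀ a0.le a2 4
    nlinarith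
  have s0 := SC_pos
  have A : mu G U * (SC * al ^ 8) ≤ (130459631616 : ℕ) → Good G U := fun h => by
    have e : ((130459631616 : ℕ) : ℝ) = al * (SC * al ^ 8) := by
      rw [show al * (SC * al ^ 8) = SC * al ^ 9 by ring, al_nine]
      norm_num [SC]
    rw [e] at h
    have := le_of_mul_le_mul_right h (by positivity)
    exact ⟨by linarith, fun _ _ _ => this, fun _ _ _ => by linarith⟩
  have B : 2 ≤ #(nb G U v) → mu G U * (SC * al ^ 5) ≤ (260919263232 : ℕ) → Good G U :=
    fun g h => by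
    have e : ((260919263232 : ℕ) : ℝ) = 2 * al ^ 4 * (SC * al ^ 5) := by
      rw [show 2 * al ^ 4 * (SC * al ^ 5) = 2 * SC * al ^ 9 by ring, al_nine]
      norm_num [SC]
    rw [e] at h
    have := le_of_mul_le_mul_right h (by positivity)
    exact ⟨by linarith, fun w hw g' => by have := hmin w hw; omega, fun _ _ _ => this⟩
  have C : 4 ≤ #(nb G U v) → mu G U * (SC * al ^ 0) ≤ (782757789696 : ℕ) → Good G U :=
    fun g h => by
    have e : ((782757789696 : ℕ) : ℝ) = 1 * (SC * al ^ 0) := by norm_num [SC]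
    rw [e] at h
    exact ⟨le_of_mul_le_mul_right h (by positivity), fun w hw g' => by have := hmin w hw; omega,
      fun w hw g' => by have := hmin w hw; omega⟩
  have K : ∀ {d sh tg : ℕ} {q : Qr}, #(nb G U v) = d → qc d (d + 1) sh tg q 1 0 0 1 1 = true →
      mu G U * (SC * al ^ sh) ≤ tg := fun e c =>
    qc_start (fun w hw => e ▸ hmin w hw) ih hv (Or.inr (by omega)) c
  rcases le_or_gt 8 #(nb G U v) with h | h
  · exact C (by omega) (qc_start (fun w hw => h.trans (hmin w hw)) ih hv (Or.inl rfl) c8)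
  · obtain ⟨d, e⟩ : ∃ d, #(nb G U v) = d := ⟨_, rfl⟩
    rw [e] at h B C
    interval_cases d
    exacts [A (K e c0), A (K e c1), B (by norm_num) (K e c2), B (by norm_num) (K e c3),
      C (by norm_num) (K e c4), C (by norm_num) (K e c5), C (by norm_num) (K e c6),
      C (by norm_num) (K e c7)]

theorem ncard_eq {V : Type} [Fintype V] [DecidableEq V] (k : ℕ) (G : SimpleGraph V)
    [DecidableRel G.Adj] : {D | IsDIS k G D}.ncard = #(dis k G univ) := by
  have e : ∀ (D : Finset V) (v : V), {u ∈ (D : Set V) | G.Adj v u}.ncard = #(nb G D v) := by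
    intro D v
    rw [← Set.ncard_coe_finset]
    congr 1
    ext u
    simp [nb]
  rw [← Set.ncard_coe_finset, ← Set.ncard_image_of_injective _ coe_injective]
  congr 1
  ext D
  obtain ⟨D, rfl⟩ := D.toFinite.exists_finset_coe
  rw [coe_injective.mem_set_image, mem_coe, mem_dis]
  unfold IsDIS
  simp only [Set.mem_ofPred_eq, e]
  simp

theorem upper (n : ℕ) : (mi 2 n : ℝ) ≤ 6 ^ ((n : ℝ) / 9) := by
  classical
  obtain ⟨G, hG⟩ := exists_eq_ciSup_of_finite
    (f := fun G : SimpleGraph (Fin n) => {D | IsDIS 2 G D}.ncard)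
  have h := (good G univ).1
  rw [mu, card_univ, Fintype.card_fin, ← ncard_eq, hG, al, ← Real.rpow_natCast,
    ← Real.rpow_mul (by norm_num), neg_mul, Real.rpow_neg (by norm_num),
    mul_inv_le_iff₀ (by positivity), one_mul] at h
  rwa [div_eq_inv_mul, ← one_div]

theorem mi_add (k m r : ℕ) : mi k m ≤ mi k (m + r) := by
  obtain ⟨G, hG⟩ := exists_eq_ciSup_of_finite
    (f := fun G : SimpleGraph (Fin m) => {D | IsDIS k G D}.ncard)
  let e : Fin (m + r) ≃ Fin m ⊕ Fin r := finSumFinEquiv.symm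
  refine le_trans ?_ (le_ciSup (Set.finite_range _).bddAbove ((G ⊕g ⊥).comap e))
  rw [mi, ← hG]
  refine Set.ncard_le_ncard_of_injOn (fun D => e ⁻¹' {x | ∀ u, x = Sum.inl u → u ∈ D})
    (fun D hD => IsDIS.comap e ⟨?_, ?_⟩) fun D _ E _ h => ?_
  · rintro (u | u) hu (v | v) hv
    · exact hD.1 u (hu u rfl) v (hv v rfl)
    all_goals simp
  · rintro (v | v) hv
    · refine (hD.2 v (by simpa using hv)).trans_eq ?_
      rw [← Set.ncard_image_of_injective _ (Sum.inl_injective (β := Fin r))]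
      congr 1
      ext (u | u) <;> simp
    · simp at hv
  · ext u
    simpa using Set.ext_iff.1 h (e.symm (Sum.inl u))

theorem lower (n : ℕ) : 6 ^ (n / 9) ≤ mi 2 n := by
  have d : ∀ (c : Bool × Fin 3) x, ¬line c x → #(near c x) = 2 := by decide
  have h := (le_mi (k := 2) (q := 3) (w := fun _ => 1) (fun c x h => by simp [d c x h])
    (fun _ => one_pos) (by decide) (n / 9)).trans (mi_add _ _ (n % 9))
  simpa [Nat.div_add_mod'] using h

theorem limit :
    Tendsto (fun n : ℕ => (mi 2 n : ℝ) ^ (1 / (n : ℝ))) atTop (𝓝 ((6 : ℝ) ^ (1 / 9 : ℝ))) := by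
  have h1 : Tendsto (fun n : ℕ => (6 : ℝ) ^ (1 / 9 - 1 / (n : ℝ))) atTop
      (𝓝 ((6 : ℝ) ^ (1 / 9 : ℝ))) := by
    have := (tendsto_one_div_atTop_nhds_zero_nat (𝕜 := ℝ)).const_sub (1 / 9)
    rw [_root_.sub_zero] at this
    exact ((Real.continuous_const_rpow (by norm_num)).tendsto _).comp this
  refine tendsto_of_tendsto_of_tendsto_of_le_of_le' h1 tendsto_const_nhds
    (eventually_atTop.2 ⟨1, fun n hn => ?_⟩) (eventually_atTop.2 ⟨1, fun n hn => ?_⟩)
  · have n0 : (0 : ℝ) < n := by exact_mod_cast hn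
    have h2 : (6 : ℝ) ^ (n / 9) ≤ mi 2 n := by exact_mod_cast lower n
    refine le_trans ?_ (Real.rpow_le_rpow (by positivity) h2 (by positivity))
    rw [← Real.rpow_natCast, ← Real.rpow_mul (by norm_num)]
    refine Real.rpow_le_rpow_of_exponent_le (by norm_num) ?_
    have h3 : (n : ℝ) ≤ 9 * (n / 9 : ℕ) + 9 := by exact_mod_cast (by omega)
    rw [mul_one_div, le_div_iff₀ n0, sub_mul, one_div_mul_cancel n0.ne']
    linarith
  · have n0 : (0 : ℝ) < n := by exact_mod_cast hn
    refine (Real.rpow_le_rpow (by positivity) (upper n) (by positivity)).trans_eq ?_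
    rw [← Real.rpow_mul (by norm_num)]
    congr 1
    field_simp

theorem six : {D | IsDIS 2 ((⊤ : SimpleGraph (Fin 3)).boxProd (⊤ : SimpleGraph (Fin 3))) D}.ncard
    = 6 := by
  let : DecidableRel ((⊤ : SimpleGraph (Fin 3)).boxProd (⊤ : SimpleGraph (Fin 3))).Adj :=
    fun x y => decidable_of_iff (x.1 ≠ y.1 ∧ x.2 = y.2 ∨ x.2 ≠ y.2 ∧ x.1 = y.1) Iff.rfl
  rw [ncard_eq]
  decide +kernel

end Pool.Agent.MP_b8b299_co.H91
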