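import Pool.Agent.MP_b8b299_co.H91.Leaf

set_option autoImplicit false
set_option linter.unusedSectionVars false

/-!
Soundness of the branching trees.
-/

namespace Pool.Agent.MP_b8b299_co.H91

open Finset Pool.Agent.MP_b8b299_co.H56

variable {V : Type} [DecidableEq V] {G : SimpleGraph V} [DecidableRel G.Adj]
  {U : Finset V} {φ : ℕ → V} {k adj pos op lo sh I O : ℕ}

theorem cond_le {b : Bool} {x y : ℕ} {r : ℝ} (h1 : b = true → r ≤ x) (h2 : b = false → r ≤ y) :
    r ≤ (cond b x y : ℕ) := by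
  cases b
  exacts [h2 rfl, h1 rfl]

theorem Model.cs_in (M : Model G U φ k adj pos op) {y : ℕ} {D : Finset V} (hD : D ∈ cs G U φ I O)
    (hy : φ y ∈ D) : D ∈ cs G U φ (Nat.lor I (Nat.pow 2 y)) (Nat.lor O (row adj y)) := by
  obtain ⟨h0, hi, ho⟩ := mem_cs.1 hD
  refine mem_cs.2 ⟨h0, fun i h => ?_, fun i h g => ?_⟩
  · rw [lor_bit, pow_bit, Bool.or_eq_true] at h
    exact h.elim (hi i) fun h => of_decide_eq_true h ▸ hy
  · rw [lor_bit, row_bit, Bool.or_eq_true, Bool.and_eq_true] at h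
    rcases h with h | h
    · exact ho i h g
    · exact (mem_dis.1 h0).2.1 _ hy _ g (M.hadj y i (of_decide_eq_true h.1) h.2).2.2

theorem cs_out {y : ℕ} {D : Finset V} (hD : D ∈ cs G U φ I O) (hy : φ y ∉ D) :
    D ∈ cs G U φ I (Nat.lor O (Nat.pow 2 y)) := by
  obtain ⟨h0, hi, ho⟩ := mem_cs.1 hD
  refine mem_cs.2 ⟨h0, hi, fun i h => ?_⟩
  rw [lor_bit, pow_bit, Bool.or_eq_true] at h
  exact h.elim (ho i) fun h => of_decide_eq_true h ▸ hy

theorem Model.branch (M : Model G U φ k adj pos op) (y : ℕ) :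
    nu G U φ sh I O ≤ nu G U φ sh (Nat.lor I (Nat.pow 2 y)) (Nat.lor O (row adj y)) +
      nu G U φ sh I (Nat.lor O (Nat.pow 2 y)) := by
  have a0 := al_pos
  have s0 := SC_pos
  unfold nu
  rw [← add_mul, ← add_mul, ← Nat.cast_add]
  gcongr
  refine le_trans (card_le_card fun D hD => ?_) (card_union_le _ _)
  by_cases h : φ y ∈ D
  exacts [mem_union_left _ (M.cs_in hD h), mem_union_right _ (cs_out hD h)]

theorem nu_empty (h : cs G U φ I O = ∅) : nu G U φ sh I O = 0 := by simp [nu, h]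

theorem sub_zero : Sub 0 k := fun j h => by simp at h

theorem nu_le_zero : nu G U φ sh I O ≤ nu G U φ sh 0 0 := by
  have a0 := al_pos
  have s0 := SC_pos
  unfold nu
  gcongr
  exact fun D hD => mem_cs.2 ⟨(mem_cs.1 hD).1, by simp, by simp⟩

theorem lor_pow_ne (a y : ℕ) : Nat.lor a (Nat.pow 2 y) ≠ 0 := fun g => by
  have := lor_bit a (Nat.pow 2 y) y
  rw [g, pow_bit] at this
  simp at this

theorem Model.two (M : Model G U φ k adj pos op) (k0 : 0 < k) (ih : ∀ W ⊂ U, Good G W) :
    nu G U φ sh I O ≤ 2 * SC := by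
  have s0 := SC_pos
  have key : ∀ I O, Sub I k → Sub O k → Nat.lor I O ≠ 0 → nu G U φ sh I O ≤ SC := by
    intro I O hI hO h
    have := M.leaf (sh := sh) (lo := 0) (fun _ _ => Nat.zero_le _) hI hO 0 zero_le_one
      ((M.rest_le hI).trans (ih _ (M.del_ssub hI hO h)).1)
    have h2 := pow_le_one₀ al_pos.le al_le_one (n := sz 0 sh pos I O 0)
    nlinarith
  have h1 := key _ _ (sub_zero.lor (sub_pow k0)) (sub_zero.lor (M.sub_row 0)) fun g => by
    have := lor_bit (Nat.lor 0 (Nat.pow 2 0)) (Nat.lor 0 (row adj 0)) 0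
    rw [g, lor_bit, pow_bit] at this
    simp at this
  have h2 := key _ _ sub_zero (sub_zero.lor (sub_pow k0)) (by decide)
  have h3 := M.branch (sh := sh) (I := 0) (O := 0) 0
  have h4 := nu_le_zero (G := G) (U := U) (φ := φ) (sh := sh) (I := I) (O := O)
  linarith

theorem Model.big (M : Model G U φ k adj pos op) (k0 : 0 < k) (ih : ∀ W ⊂ U, Good G W) :
    nu G U φ sh I O ≤ BIG := by
  have := M.two (sh := sh) (I := I) (O := O) k0 ih
  have s0 := SC_pos
  rw [BIG_eq]
  linarith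

/-- A closed vertex outside the set has two available neighbours in it. -/
theorem Model.avail (M : Model G U φ k adj pos op) {x : ℕ} (hx : cls k op x = true)
    (h : O.testBit x = true) {D : Finset V} (hD : D ∈ cs G U φ I O) :
    2 ≤ #(((bits (dif (row pos x) O)).filter (· < k)).image φ ∩ D) := by
  obtain ⟨h0, hi, ho⟩ := mem_cs.1 hD
  obtain ⟨d1, -, d3⟩ := mem_dis.1 h0
  refine (d3 _ (M.mem x (cls_iff.1 hx).1) (ho x h)).trans (card_le_card fun w hw => ?_)
  obtain ⟨w1, w2⟩ := mem_nb.1 hw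
  obtain ⟨j, jk, rfl, hj⟩ := M.nbr hx (d1 w1) w2
  refine mem_inter.2 ⟨mem_image_of_mem _ (mem_filter.2
    ⟨mem_bits.2 ⟨jk.trans_le M.hk, ?_⟩, jk⟩), w1⟩
  rw [dif_bit, hj]
  cases go : O.testBit j
  · rfl
  · exact absurd w1 (ho j go)

theorem Model.dead (M : Model G U φ k adj pos op) {x : ℕ} (hx : cls k op x = true)
    (h : O.testBit x = true) (h1 : pc (dif (row pos x) O) ≤ 1) : nu G U φ sh I O = 0 := by
  refine nu_empty (eq_empty_of_forall_notMem fun D hD => ?_)
  have h2 := (M.avail hx h hD).trans ((card_le_card inter_subset_left).trans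
    (card_image_le.trans (card_filter_le _ _)))
  rw [← pc_eq] at h2
  omega

theorem Model.cv_le (M : Model G U φ k adj pos op) (k0 : 0 < k) (ih : ∀ W ⊂ U, Good G W)
    (hI : Sub I k) (hO : Sub O k) (fs : List (ℕ → ℕ → ℕ))
    (hf : ∀ f ∈ fs, ∀ I O, Sub I k → Sub O k → nu G U φ sh I O ≤ f I O) (av : ℕ) :
    ∑ j ∈ (bits av).filter (· < k),
      nu G U φ sh (Nat.lor I (Nat.pow 2 j)) (Nat.lor O (row adj j)) ≤ cv k adj I O fs av := by
  have z : ∀ av, Nat.beq av 0 = true → ∑ j ∈ (bits av).filter (· < k),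
      nu G U φ sh (Nat.lor I (Nat.pow 2 j)) (Nat.lor O (row adj j)) ≤ (0 : ℕ) := fun av h => by
    rw [Nat.eq_of_beq_eq_true h]
    simp [bits]
  induction fs generalizing av with
  | nil =>
    refine cond_le (z av) fun _ => ?_
    refine (sum_le_card_nsmul _ _ _ fun j _ => M.two k0 ih).trans ?_
    have h1 : #((bits av).filter (· < k)) ≤ 32 :=
      (card_filter_le _ _).trans ((card_filter_le _ _).trans (by simp))
    have h2 : (#((bits av).filter (· < k)) : ℝ) ≤ 32 := by exact_mod_cast h1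
    have s0 := SC_pos
    change _ ≤ ((2 * BIG : ℕ) : ℝ)
    rw [nsmul_eq_mul, Nat.cast_mul, BIG_eq]
    push_cast
    nlinarith
  | cons f fs ih' =>
    refine cond_le (z av) fun _ => ?_
    have h1 := ih' (fun g hg => hf g (List.mem_cons_of_mem _ hg)) (dif av (Nat.pow 2 av.log2))
    have h2 : ∀ j ∈ (bits av).filter (· < k), j ≠ av.log2 →
        j ∈ (bits (dif av (Nat.pow 2 av.log2))).filter (· < k) := fun j hj h => by
      obtain ⟨j1, j2⟩ := mem_filter.1 hj
      obtain ⟨j3, j4⟩ := mem_bits.1 j1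
      refine mem_filter.2 ⟨mem_bits.2 ⟨j3, ?_⟩, j2⟩
      rw [dif_bit, j4, pow_bit]
      simp [h.symm]
    refine cond_le (fun c => ?_) fun c => le_trans ?_ h1
    · have c' : av.log2 < k := by simpa [Nat.blt_eq] using c
      have h3 := hf f List.mem_cons_self _ _ (hI.lor (sub_pow c')) (hO.lor (M.sub_row av.log2))
      change _ ≤ ((_ + _ : ℕ) : ℝ)
      rw [Nat.cast_add]
      refine le_trans ?_ (add_le_add h3 h1)
      rw [← sum_insert (f := fun j =>
        nu G U φ sh (Nat.lor I (Nat.pow 2 j)) (Nat.lor O (row adj j))) fun g => by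
          have := (mem_bits.1 (mem_filter.1 g).1).2
          rw [dif_bit, pow_bit] at this
          simp at this]
      refine sum_le_sum_of_subset_of_nonneg (fun j hj => ?_) fun _ _ _ => nu_nonneg
      by_cases g : j = av.log2
      exacts [g ▸ mem_insert_self _ _, mem_insert_of_mem (h2 j hj g)]
    · refine sum_le_sum_of_subset_of_nonneg (fun j hj => h2 j hj fun g => ?_)
        fun _ _ _ => nu_nonneg
      have := (mem_filter.1 hj).2
      rw [g, ← Nat.blt_eq, c] at this
      exact absurd this (by simp)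

theorem Model.star (M : Model G U φ k adj pos op) {x : ℕ} (hx : cls k op x = true)
    (h : O.testBit x = true) :
    2 * nu G U φ sh I O ≤ ∑ j ∈ (bits (dif (row pos x) O)).filter (· < k),
      nu G U φ sh (Nat.lor I (Nat.pow 2 j)) (Nat.lor O (row adj j)) := by
  have a0 := al_pos
  have s0 := SC_pos
  have d := double (cs G U φ I O) _ 2 fun D hD => M.avail hx h hD
  rw [sum_image fun i hi j hj e => M.inj i (mem_filter.1 hi).2 j (mem_filter.1 hj).2 e] at d
  have d2 := d.trans (sum_le_sum fun j _ => card_le_card fun D hD =>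
    M.cs_in (mem_filter.1 hD).1 (mem_filter.1 hD).2)
  unfold nu
  rw [← sum_mul, ← sum_mul, ← mul_assoc 2, ← mul_assoc 2]
  gcongr
  exact_mod_cast d2

theorem Model.pv_le (M : Model G U φ k adj pos op) (k0 : 0 < k)
    (hlo : ∀ w ∈ U, lo ≤ #(nb G U w)) (ih : ∀ W ⊂ U, Good G W) (t : Tr) :
    ∀ I O, Sub I k → Sub O k → nu G U φ sh I O ≤ pv lo sh k adj pos op t I O := by
  induction t with
  | L x =>
    exact fun I O hI hO => cond_le (fun _ => M.big k0 ih) fun c =>
      M.leafL hlo ih hI hO x (Nat.ne_of_beq_eq_false c)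
  | LD x y =>
    refine fun I O hI hO => cond_le (fun c => ?_) fun _ => M.big k0 ih
    simp only [Bool.and_eq_true, Bool.not_eq_true', tb_eq] at c
    exact M.leafD hlo ih hI hO x y (Nat.ne_of_beq_eq_false c.1.1.1) c.1.1.2 c.1.2
      (Nat.eq_of_beq_eq_true c.2) (M.big k0 ih)
  | LE x y =>
    refine fun I O hI hO => cond_le (fun c => ?_) fun _ => M.big k0 ih
    simp only [Bool.and_eq_true, tb_eq] at c
    exact M.leafE hlo ih hI hO x y c.1 c.2 (M.big k0 ih)
  | D x =>
    refine fun I O hI hO => cond_le (fun c => ?_) fun _ => M.big k0 ih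
    simp only [Bool.and_eq_true, tb_eq] at c
    rw [M.dead c.1.1 c.1.2 (Nat.le_of_ble_eq_true c.2)]
    simp
  | X =>
    refine fun I O hI hO => cond_le (fun _ => M.big k0 ih) fun c => ?_
    obtain ⟨j, hj⟩ := Nat.exists_testBit_of_ne_zero (Nat.ne_of_beq_eq_false c)
    rw [land_bit, Bool.and_eq_true] at hj
    rw [nu_empty (eq_empty_of_forall_notMem fun D hD =>
      (mem_cs.1 hD).2.2 j hj.2 ((mem_cs.1 hD).2.1 j hj.1))]
    simp
  | B y l r il ir =>
    refine fun I O hI hO => cond_le (fun c => ?_) fun _ => M.big k0 ih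
    have c' : y < k := by simpa [Nat.blt_eq] using c
    change _ ≤ ((_ + _ : ℕ) : ℝ)
    rw [Nat.cast_add]
    exact (M.branch y).trans (add_le_add (il _ _ (hI.lor (sub_pow c')) (hO.lor (M.sub_row y)))
      (ir _ _ hI (hO.lor (sub_pow c'))))
  | F x y t it =>
    refine fun I O hI hO => cond_le (fun c => ?_) fun _ => M.big k0 ih
    simp only [Bool.and_eq_true, tb_eq, Nat.blt_eq] at c
    have := M.branch (sh := sh) (I := I) (O := O) y
    rw [M.dead c.1.1.2 c.1.2 (Nat.le_of_ble_eq_true c.2), add_zero] at this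
    exact this.trans (it _ _ (hI.lor (sub_pow c.1.1.1)) (hO.lor (M.sub_row y)))
  | S x t1 t2 t3 t4 t5 t6 t7 i1 i2 i3 i4 i5 i6 i7 =>
    refine fun I O hI hO => cond_le (fun c => ?_) fun _ => M.big k0 ih
    simp only [Bool.and_eq_true, tb_eq] at c
    have h := (M.star (sh := sh) (I := I) c.1 c.2).trans (M.cv_le k0 ih hI hO
      [pv lo sh k adj pos op t1, pv lo sh k adj pos op t2,
        pv lo sh k adj pos op t3, pv lo sh k adj pos op t4, pv lo sh k adj pos op t5,
        pv lo sh k adj pos op t6, pv lo sh k adj pos op t7]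
      (by simp only [List.forall_mem_cons]; exact ⟨i1, i2, i3, i4, i5, i6, i7, by simp⟩) _)
    generalize cv _ _ _ _ _ _ = c at h ⊢
    have v2 : c ≤ 2 * ((c + 1) / 2) := by omega
    have v3 : (c : ℝ) ≤ 2 * (((c + 1) / 2 : ℕ) : ℝ) := by exact_mod_cast v2
    change _ ≤ (((c + 1) / 2 : ℕ) : ℝ)
    linarith

end Pool.Agent.MP_b8b299_co.H91
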