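import Pool.Agent.MP_b8b299_co.H91.Pure

set_option autoImplicit false
set_option linter.unusedSectionVars false

/-!
Soundness of the query trees.
-/

namespace Pool.Agent.MP_b8b299_co.H91

open Finset Pool.Agent.MP_b8b299_co.H56

variable {V : Type} [DecidableEq V] {G : SimpleGraph V} [DecidableRel G.Adj]
  {U : Finset V} {φ : ℕ → V} {k adj pos op lo sh : ℕ}

theorem ent_bit {x y i j : ℕ} (hx : x < 32) (hy : y < 32) (hj : j < 32)
    (h : (ent x y).testBit (32 * i + j) = true) : (i = x ∧ j = y) ∨ (i = y ∧ j = x) := by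
  unfold ent at h
  rw [lor_bit, pow_bit, pow_bit, Bool.or_eq_true, decide_eq_true_eq, decide_eq_true_eq] at h
  change 32 * x + y = _ ∨ 32 * y + x = _ at h
  omega

theorem tw_row {M y z j : ℕ} (h : tw M y z = true) (hj : j < 32) (h1 : j ≠ y) (h2 : j ≠ z) :
    M.testBit (32 * y + j) = M.testBit (32 * z + j) := by
  unfold tw at h
  rw [Bool.and_eq_true] at h
  have := congrArg (·.testBit j) (Nat.eq_of_beq_eq_true h.1)
  simp only [dif_bit, xor_bit, row_bit, lor_bit, pow_bit] at this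
  simpa [hj, h1.symm, h2.symm] using this

theorem tw_col {M y z i : ℕ} (h : tw M y z = true) (hi : i < 32) (h1 : i ≠ y) (h2 : i ≠ z) :
    M.testBit (32 * i + y) = M.testBit (32 * i + z) := by
  unfold tw at h
  rw [Bool.and_eq_true] at h
  have := congrArg (·.testBit (32 * i)) (Nat.eq_of_beq_eq_true h.2)
  simp only [dif_bit, xor_bit, shr_bit, lor_bit, land_bit, pow_bit, CM_bit i hi] at this
  rw [add_comm _ y, add_comm _ z]
  simpa [h1.symm, h2.symm] using this

theorem tw_swap {M y z i j : ℕ} (h : tw M y z = true) (hi : i < 32) (hj : j < 32) (hij : i ≠ j) :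
    M.testBit (32 * Equiv.swap y z i + Equiv.swap y z j) = M.testBit (32 * i + j) ∨
      (Equiv.swap y z i = j ∧ Equiv.swap y z j = i) := by
  by_cases iy : i = y
  · subst iy
    by_cases jz : j = z
    · subst jz
      exact Or.inr ⟨Equiv.swap_apply_left _ _, Equiv.swap_apply_right _ _⟩
    · rw [Equiv.swap_apply_left, Equiv.swap_apply_of_ne_of_ne hij.symm jz]
      exact Or.inl (tw_row h hj hij.symm jz).symm
  by_cases iz : i = z
  · subst iz
    by_cases jy : j = y
    · subst jy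
      exact Or.inr ⟨Equiv.swap_apply_right _ _, Equiv.swap_apply_left _ _⟩
    · rw [Equiv.swap_apply_right, Equiv.swap_apply_of_ne_of_ne jy hij.symm]
      exact Or.inl (tw_row h hj jy hij.symm)
  rw [Equiv.swap_apply_of_ne_of_ne iy iz]
  left
  by_cases jy : j = y
  · subst jy
    rw [Equiv.swap_apply_left]
    exact (tw_col h hi iy iz).symm
  by_cases jz : j = z
  · subst jz
    rw [Equiv.swap_apply_right]
    exact tw_col h hi iy iz
  · rw [Equiv.swap_apply_of_ne_of_ne jy jz]

theorem swap_lt {y z i : ℕ} (hy : y < k) (hz : z < k) (hi : i < k) : Equiv.swap y z i < k := by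
  rw [Equiv.swap_apply_def]
  split_ifs <;> assumption

theorem Model.swap (M : Model G U φ k adj pos op) {y z : ℕ} (hy : y < k) (hz : z < k)
    (h1 : tw adj y z = true) (h2 : tw pos y z = true) (h3 : op.testBit y = op.testBit z) :
    Model G U (fun i => φ (Equiv.swap y z i)) k adj pos op where
  hk := M.hk
  inj i hi j hj e := (Equiv.swap y z).injective
    (M.inj _ (swap_lt hy hz hi) _ (swap_lt hy hz hj) e)
  mem i hi := M.mem _ (swap_lt hy hz hi)
  hadj i j hj h := by
    obtain ⟨a1, a2, a3⟩ := M.hadj i j hj h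
    refine ⟨a1, a2, ?_⟩
    rcases tw_swap h1 (a1.trans_le M.hk) hj (fun e => a3.ne (e ▸ rfl)) with e | e
    · exact (M.hadj _ _ ((swap_lt hy hz a2).trans_le M.hk) (e ▸ h)).2.2
    · rw [e.1, e.2]
      exact a3.symm
  hpos i hi j hj h := by
    rcases tw_swap h2 (hi.trans_le M.hk) (hj.trans_le M.hk) (fun e => h.ne (e ▸ rfl)) with e | e
    · exact e ▸ M.hpos _ (swap_lt hy hz hi) _ (swap_lt hy hz hj) h
    · rw [e.1, e.2] at h
      exact M.hpos i hi j hj h.symm
  hcl i hi h w hw a := by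
    have : op.testBit (Equiv.swap y z i) = false := by
      rw [Equiv.swap_apply_def]
      split_ifs with g1 g2
      exacts [h3 ▸ g1 ▸ h, h3.symm ▸ g2 ▸ h, h]
    obtain ⟨j, hj, e⟩ := M.hcl _ (swap_lt hy hz hi) this w hw a
    exact ⟨_, swap_lt hy hz hj, by rw [Equiv.swap_apply_self, e]⟩

theorem Model.yes (M : Model G U φ k adj pos op) {x y : ℕ} (hx : x < k) (hy : y < k)
    (h : G.Adj (φ x) (φ y)) : Model G U φ k (Nat.lor adj (ent x y)) pos op :=
  { M with
    hadj := fun i j hj g => by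
      rw [lor_bit, Bool.or_eq_true] at g
      rcases g with g | g
      · exact M.hadj i j hj g
      · rcases ent_bit (hx.trans_le M.hk) (hy.trans_le M.hk) hj g with ⟨rfl, rfl⟩ | ⟨rfl, rfl⟩
        exacts [⟨hx, hy, h⟩, ⟨hy, hx, h.symm⟩] }

theorem Model.no (M : Model G U φ k adj pos op) {E : ℕ}
    (h : ∀ i < k, ∀ j < k, E.testBit (32 * i + j) = true → ¬G.Adj (φ i) (φ j)) :
    Model G U φ k adj (dif pos E) op :=
  { M with
    hpos := fun i hi j hj g => by
      rw [dif_bit, M.hpos i hi j hj g]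
      cases e : E.testBit (32 * i + j)
      · rfl
      · exact absurd g (h i hi j hj e) }

theorem ent_no (hk : k ≤ 32) {x y : ℕ} (hx : x < k) (hy : y < k) (h : ¬G.Adj (φ x) (φ y)) :
    ∀ i < k, ∀ j < k, (ent x y).testBit (32 * i + j) = true → ¬G.Adj (φ i) (φ j) := by
  intro i _ j hj g
  rcases ent_bit (hx.trans_le hk) (hy.trans_le hk) (hj.trans_le hk) g with ⟨rfl, rfl⟩ | ⟨rfl, rfl⟩
  exacts [h, fun g => h g.symm]

theorem tws_cases (hk : k ≤ 32) {x y : ℕ} (hx : x < k) (f C : ℕ)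
    (h : tws k adj pos op x y f C = true) :
    (∃ z < k, 0 < z ∧ z ≠ x ∧ tw adj y z = true ∧ tw pos y z = true ∧
      op.testBit y = op.testBit z ∧ G.Adj (φ x) (φ z)) ∨
    ∀ i < k, ∀ j < k, (ents x f C).testBit (32 * i + j) = true → ¬G.Adj (φ i) (φ j) := by
  induction f generalizing C with
  | zero => exact Or.inr fun i _ j _ g => by simp [ents] at g
  | succ f ih =>
    unfold tws at h
    unfold ents
    cases c : Nat.beq C 0
    · rw [c] at h
      simp only [Bool.false_or, Bool.and_eq_true, Nat.blt_eq, tb_eq, beq_iff_eq,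
        Bool.not_eq_true'] at h
      obtain ⟨⟨⟨⟨⟨⟨h1, h2⟩, h3⟩, h4⟩, h5⟩, h6⟩, h7⟩ := h
      by_cases a : G.Adj (φ x) (φ C.log2)
      · exact Or.inl ⟨_, h1, h2, Nat.ne_of_beq_eq_false h3, h4, h5, h6, a⟩
      refine (ih _ h7).imp_right fun g i hi j hj e => ?_
      rw [cond_false, lor_bit, Bool.or_eq_true] at e
      exact e.elim (ent_no hk hx h1 a i hi j hj) (g i hi j hj)
    · exact Or.inr fun i _ j _ g => by simp at g

theorem Model.close (M : Model G U φ k adj pos op) {x : ℕ}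
    (h : ∀ w ∈ U, G.Adj (φ x) w → ∃ j < k, φ j = w) :
    Model G U φ k adj pos (dif op (Nat.pow 2 x)) :=
  { M with
    hcl := fun i hi g => by
      by_cases e : x = i
      · exact e ▸ h
      · refine M.hcl i hi ?_
        rw [dif_bit, pow_bit] at g
        simpa [e] using g }

theorem Model.new (M : Model G U φ k adj pos op) {x oc : ℕ} (hx : x < k) (hk : k < 32)
    (hoc : ∀ y < k, op.testBit y = true → oc.testBit (32 * y) = true) {w : V} (hw : w ∈ U)
    (a : G.Adj (φ x) w) (h : ∀ j < k, φ j ≠ w) :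
    Model G U (Function.update φ k w) (k + 1) (Nat.lor adj (ent x k))
      (Nat.lor pos (Nat.lor (Nat.shiftLeft op (Nat.mul 32 k)) (Nat.shiftLeft oc k)))
      (Nat.lor op (Nat.pow 2 k)) := by
  have u : ∀ i < k, Function.update φ k w i = φ i := fun i hi => Function.update_of_ne hi.ne _ _
  have u' : Function.update φ k w k = w := Function.update_self _ _ _
  have o : ∀ i < k, G.Adj (φ i) w → op.testBit i = true := fun i hi g => by
    cases e : op.testBit i
    · obtain ⟨j, hj, e'⟩ := M.hcl i hi e w hw g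
      exact absurd e' (h j hj)
    · rfl
  refine ⟨hk, fun i hi j hj e => ?_, fun i hi => ?_, fun i j hj g => ?_, fun i hi j hj g => ?_,
    fun i hi g v hv b => ?_⟩
  · rcases Nat.lt_succ_iff_lt_or_eq.1 hi with hi | rfl <;>
      rcases Nat.lt_succ_iff_lt_or_eq.1 hj with hj | rfl
    · rw [u i hi, u j hj] at e
      exact M.inj i hi j hj e
    · rw [u i hi, u'] at e
      exact absurd e (h i hi)
    · rw [u j hj, u'] at e
      exact absurd e.symm (h j hj)
    · rfl
  · rcases Nat.lt_succ_iff_lt_or_eq.1 hi with hi | rfl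
    · rw [u i hi]
      exact M.mem i hi
    · rwa [u']
  · rw [lor_bit, Bool.or_eq_true] at g
    rcases g with g | g
    · obtain ⟨a1, a2, a3⟩ := M.hadj i j hj g
      rw [u i a1, u j a2]
      exact ⟨by omega, by omega, a3⟩
    · rcases ent_bit (hx.trans hk) hk hj g with ⟨rfl, rfl⟩ | ⟨rfl, rfl⟩
      · rw [u i hx, u']
        exact ⟨by omega, by omega, a⟩
      · rw [u j hx, u']
        exact ⟨by omega, by omega, a.symm⟩
  · rw [lor_bit, lor_bit, shl_bit, shl_bit]
    rcases Nat.lt_succ_iff_lt_or_eq.1 hi with hi | rfl <;>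
      rcases Nat.lt_succ_iff_lt_or_eq.1 hj with hj | rfl
    · rw [u i hi, u j hj] at g
      rw [M.hpos i hi j hj g]
      rfl
    · rw [u i hi, u'] at g
      rw [Nat.add_sub_cancel, hoc i hi (o i hi g)]
      simp
    · rw [u j hj, u'] at g
      rw [show 32 * i + j - Nat.mul 32 i = j from Nat.add_sub_cancel_left _ _, o j hj g.symm]
      simp
    · exact absurd rfl g.ne
  · rw [lor_bit, pow_bit, Bool.or_eq_false_iff, decide_eq_false_iff_not] at g
    have hi' : i < k := by omega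
    rw [u i hi'] at b
    obtain ⟨j, hj, e⟩ := M.hcl i hi' g.1 v hv b
    exact ⟨j, by omega, by rw [u j hj, e]⟩

theorem qc_le {hi tg : ℕ} (hlo : ∀ w ∈ U, lo ≤ #(nb G U w)) (ih : ∀ W ⊂ U, Good G W) (q : Qr) :
    ∀ (φ : ℕ → V) (k adj pos op oc : ℕ), Model G U φ k adj pos op → 0 < k →
      (∀ y < k, op.testBit y = true → oc.testBit (32 * y) = true) →
      (hi = 0 ∨ #(nb G U (φ 0)) < hi) → qc lo hi sh tg q k adj pos op oc = true →
      mu G U * (SC * al ^ sh) ≤ tg := by
  induction q with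
  | P t =>
    intro φ k adj pos op oc M k0 _ _ c
    have h1 := M.pv_le (sh := sh) k0 hlo ih t 0 0 sub_zero sub_zero
    have h2 : (pv lo sh k adj pos op t 0 0 : ℝ) ≤ tg := by
      exact_mod_cast Nat.le_of_ble_eq_true c
    refine le_trans ?_ (h1.trans h2)
    have a0 := al_pos
    have s0 := SC_pos
    unfold mu nu
    gcongr
    exact fun D hD => mem_cs.2 ⟨hD, by simp, by simp⟩
  | Bad x =>
    intro φ k adj pos op oc M _ _ _ c
    unfold qc at c
    rw [Bool.and_eq_true, Nat.blt_eq] at c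
    refine absurd ((hlo _ (M.mem x (cls_iff.1 c.1).1)).trans ((card_le_card fun w hw => ?_).trans
      (card_img_le (φ := φ) (row pos x)))) (not_le.2 c.2)
    obtain ⟨j, jk, rfl, hj⟩ := M.nbr c.1 (mem_nb.1 hw).1 (mem_nb.1 hw).2
    exact mem_image_of_mem _ (mem_bits.2 ⟨jk.trans_le M.hk, hj⟩)
  | Hi =>
    intro φ k adj pos op oc M _ _ h c
    unfold qc at c
    rw [Bool.and_eq_true, Nat.blt_eq, Nat.ble_eq, ← M.card_img (M.sub_row 0)] at c
    have : (bits (row adj 0)).image φ ⊆ nb G U (φ 0) := fun w hw => by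
      obtain ⟨j, hj, rfl⟩ := mem_image.1 hw
      obtain ⟨j1, j2⟩ := mem_bits.1 hj
      rw [row_bit, Bool.and_eq_true] at j2
      obtain ⟨-, a2, a3⟩ := M.hadj 0 j j1 j2.2
      exact mem_nb.2 ⟨M.mem j a2, a3⟩
    have := card_le_card this
    omega
  | Q x y C l r il ir =>
    intro φ k adj pos op oc M k0 hoc h c
    unfold qc at c
    simp only [Bool.and_eq_true, Nat.blt_eq, Bool.not_eq_true'] at c
    obtain ⟨⟨⟨⟨⟨⟨c1, c2⟩, c3⟩, c4⟩, c5⟩, c6⟩, c7⟩ := c
    by_cases a : G.Adj (φ x) (φ y)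
    · exact il φ _ _ _ _ _ (M.yes c1 c2 a) k0 hoc h c6
    rcases tws_cases (G := G) (φ := φ) M.hk c1 8 C c5 with ⟨z, z1, z2, z3, z4, z5, z6, z7⟩ | g
    · refine il _ _ _ _ _ _ ((M.swap c2 z1 z4 z5 z6).yes c1 c2 ?_) k0 hoc ?_ c6
      · rwa [Equiv.swap_apply_left, Equiv.swap_apply_of_ne_of_ne
          (Ne.symm (Nat.ne_of_beq_eq_false c4)) z3.symm]
      · rwa [Equiv.swap_apply_of_ne_of_ne c3.ne z2.ne]
    · refine ir φ _ _ _ _ _ (M.no fun i hi j hj e => ?_) k0 hoc h c7
      rw [lor_bit, Bool.or_eq_true] at e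
      exact e.elim (ent_no M.hk c1 c2 a i hi j hj) (g i hi j hj)
  | N x l r il ir =>
    intro φ k adj pos op oc M k0 hoc h c
    unfold qc at c
    simp only [Bool.and_eq_true, Nat.blt_eq] at c
    obtain ⟨⟨⟨c1, c2⟩, c3⟩, c4⟩ := c
    by_cases a : ∀ w ∈ U, G.Adj (φ x) w → ∃ j < k, φ j = w
    · refine il φ _ _ _ _ _ (M.close a) k0 (fun y hy g => ?_) h c3
      rw [dif_bit, pow_bit, Bool.and_eq_true] at g
      rw [dif_bit, pow_bit, hoc y hy g.1]
      simpa using g.2
    · push Not at a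
      obtain ⟨w, w1, w2, w3⟩ := a
      refine ir _ _ _ _ _ _ (M.new c1 c2 hoc w1 w2 w3) (Nat.succ_pos _) (fun y hy g => ?_) ?_ c4
      · rw [lor_bit, pow_bit]
        rw [lor_bit, pow_bit, Bool.or_eq_true, decide_eq_true_eq] at g
        rcases Nat.lt_succ_iff_lt_or_eq.1 hy with hy | rfl
        · rw [hoc y hy (g.resolve_right hy.ne')]
          rfl
        · simp
      · rwa [Function.update_of_ne k0.ne]

/-- The form in which the certificates are used. -/
theorem qc_start {hi tg : ℕ} (hlo : ∀ w ∈ U, lo ≤ #(nb G U w)) (ih : ∀ W ⊂ U, Good G W) {q : Qr}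
    {v : V} (hv : v ∈ U) (h : hi = 0 ∨ #(nb G U v) < hi) (c : qc lo hi sh tg q 1 0 0 1 1 = true) :
    mu G U * (SC * al ^ sh) ≤ tg :=
  qc_le hlo ih q (fun _ => v) 1 0 0 1 1
    ⟨by norm_num, fun i hi j hj _ => by omega, fun _ _ => hv, fun i j _ g => by simp at g,
      fun _ _ _ _ g => absurd rfl g.ne, fun i hi g => by
        rw [Nat.lt_one_iff.1 hi] at g
        simp at g⟩
    one_pos (fun y hy _ => by rw [Nat.lt_one_iff.1 hy]; rfl) h c

end Pool.Agent.MP_b8b299_co.H91
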